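import Mathlib

/-!
# Codimensions of ideals, factors of degree prime to `q`
-/

set_option autoImplicit false

namespace Run7.h846

open Polynomial Module

/-- finite algebras all of whose residue fields have degree divisible by `q` -/
lemma idx_fin (q : ℕ) (k : Type) [Field k] : ∀ (n : ℕ) (B : Type) [CommRing B] [Algebra k B]
    [FiniteDimensional k B], finrank k B = n →
    (∀ (C : Type) [Field C] [Algebra k C] (π : B →ₐ[k] C), Function.Surjective π → q ∣ finrank k C) →
    q ∣ n := by
  intro n
  induction n using Nat.strong_induction_on with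
  | _ n ih =>
    intro B _ _ _ hn H
    rcases subsingleton_or_nontrivial B with hB | hB
    · rw [← hn, finrank_zero_of_subsingleton]
      exact dvd_zero _
    have hart : IsArtinianRing B := IsArtinianRing.of_finite k B
    have hnoe : IsNoetherianRing B := inferInstance
    obtain ⟨P, hP⟩ := associatedPrimes.nonempty B B
    obtain ⟨hPp, b, hb⟩ := isAssociatedPrime_iff.1 hP
    have hPmax : P.IsMaximal := inferInstance
    have hmem : ∀ r : B, r ∈ P ↔ r * b = 0 := by
      intro r
      rw [hb, Submodule.mem_colon_singleton]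
      simp
    let μ : B →ₗ[k] B := LinearMap.mulRight k b
    have hμ : ∀ r, μ r = r * b := fun r => rfl
    have e1 := μ.finrank_range_add_finrank_ker
    have hker : LinearMap.ker μ = P.restrictScalars k := by
      ext r
      rw [LinearMap.mem_ker, hμ, Submodule.restrictScalars_mem, hmem]
    have hran : LinearMap.range μ = (Ideal.span {b}).restrictScalars k := by
      ext r
      rw [LinearMap.mem_range, Submodule.restrictScalars_mem, Ideal.mem_span_singleton']
      rfl
    rw [hker, hran, hn] at e1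
    have e2 := Submodule.finrank_quotient_add_finrank (P.restrictScalars k)
    have e3 := Submodule.finrank_quotient_add_finrank ((Ideal.span {b}).restrictScalars k)
    rw [hn] at e2 e3
    have e2' : finrank k (B ⧸ P) + finrank k (P.restrictScalars k) = n := e2
    have e3' : finrank k (B ⧸ Ideal.span {b}) + finrank k ((Ideal.span {b}).restrictScalars k) = n := e3
    let _ : Field (B ⧸ P) := Ideal.Quotient.field P
    have h1 : q ∣ finrank k (B ⧸ P) := H (B ⧸ P) (Ideal.Quotient.mkₐ k P) (Ideal.Quotient.mkₐ_surjective k P)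
    have hpos : 0 < finrank k (B ⧸ P) := Module.finrank_pos
    have h2 : q ∣ finrank k (B ⧸ Ideal.span {b}) := by
      refine ih _ (by omega) (B ⧸ Ideal.span {b}) rfl ?_
      intro C _ _ π hπ
      exact H C (π.comp (Ideal.Quotient.mkₐ k (Ideal.span {b})))
        (hπ.comp (Ideal.Quotient.mkₐ_surjective k _))
    have h3 : n = finrank k (B ⧸ P) + finrank k (B ⧸ Ideal.span {b}) := by omega
    rw [h3]
    exact dvd_add h1 h2

/-- ideals of an algebra all of whose finite residue fields have degree divisible by `q` -/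
lemma idx (q : ℕ) (k A : Type) [Field k] [CommRing A] [Algebra k A]
    (H : ∀ (C : Type) [Field C] [Algebra k C] [FiniteDimensional k C] (_ : A →ₐ[k] C),
      q ∣ finrank k C) (I : Ideal A) : q ∣ finrank k (A ⧸ I) := by
  by_cases hf : FiniteDimensional k (A ⧸ I)
  · refine idx_fin q k _ (A ⧸ I) rfl ?_
    intro C _ _ π hπ
    have : FiniteDimensional k C := FiniteDimensional.of_surjective π.toLinearMap hπ
    exact H C (π.comp (Ideal.Quotient.mkₐ k I))
  · rw [finrank_of_not_finite hf]
    exact dvd_zero _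

/-- an irreducible factor of degree prime to `q` -/
lemma exists_irred (q : ℕ) {L : Type*} [Field L] : ∀ (n : ℕ) (p : L[X]), p.natDegree = n → p ≠ 0 →
    ¬ q ∣ p.natDegree → ∃ r : L[X], Irreducible r ∧ r ∣ p ∧ ¬ q ∣ r.natDegree := by
  intro n
  induction n using Nat.strong_induction_on with
  | _ n ih =>
    intro p hn hp0 hq
    have hu : ¬ IsUnit p := by
      intro h
      apply hq
      rw [natDegree_eq_zero_of_isUnit h]
      exact dvd_zero _
    obtain ⟨r, hr, s, hs⟩ := WfDvdMonoid.exists_irreducible_factor hu hp0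
    by_cases h1 : q ∣ r.natDegree
    · have hr0 := hr.ne_zero
      have hs0 : s ≠ 0 := by
        rintro rfl
        rw [mul_zero] at hs
        exact hp0 hs
      have hd : p.natDegree = r.natDegree + s.natDegree := by rw [hs, natDegree_mul hr0 hs0]
      have hrpos := hr.natDegree_pos
      obtain ⟨r', h2, h3, h4⟩ := ih s.natDegree (by omega) s rfl hs0 (by
        intro h5
        apply hq
        rw [hd]
        exact dvd_add h1 h5)
      exact ⟨r', h2, h3.trans ⟨r, by rw [hs]; ring⟩, h4⟩
    · exact ⟨r, hr, ⟨s, hs⟩, h1⟩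

/-- clearing denominators -/
lemma clear_den (R F : Type*) [CommRing R] [IsDomain R] [Field F] [Algebra R F] [IsFractionRing R F]
    (P : F[X][X]) : ∃ (b : R) (P₁ : R[X][X]), b ≠ 0 ∧
      P₁.map (mapRingHom (algebraMap R F)) = C (C (algebraMap R F b)) * P := by
  classical
  obtain ⟨⟨b, hb⟩, hbP⟩ := IsLocalization.exist_integer_multiples_of_finset (nonZeroDivisors R)
    (P.support.biUnion fun n => (P.coeff n).support.image fun m => (P.coeff n).coeff m)
  have hlift : C (C (algebraMap R F b)) * P ∈ lifts (mapRingHom (algebraMap R F)) := by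
    rw [lifts_iff_coeff_lifts]
    intro n
    rw [coeff_C_mul]
    have h1 : C (algebraMap R F b) * P.coeff n ∈ lifts (algebraMap R F) := by
      rw [lifts_iff_coeff_lifts]
      intro m
      rw [coeff_C_mul]
      by_cases h0 : (P.coeff n).coeff m = 0
      · rw [h0, mul_zero]
        exact ⟨0, map_zero _⟩
      · have hn : n ∈ P.support := by
          rw [Polynomial.mem_support_iff]
          rintro h2
          rw [h2, coeff_zero] at h0
          exact h0 rfl
        obtain ⟨a, ha⟩ := hbP ((P.coeff n).coeff m) (Finset.mem_biUnion.2 ⟨n, hn,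
          Finset.mem_image.2 ⟨m, Polynomial.mem_support_iff.2 h0, rfl⟩⟩)
        exact ⟨a, by rw [ha]; exact Algebra.smul_def b _⟩
    obtain ⟨a, ha⟩ := (mem_lifts _).1 h1
    exact ⟨a, ha⟩
  obtain ⟨P₁, hP₁⟩ := (mem_lifts _).1 hlift
  exact ⟨b, P₁, nonZeroDivisors.ne_zero hb, hP₁⟩

/-- a factor of degree prime to `q` of the generic fibre gives one of the special fibres -/
theorem factor_fibre (q : ℕ) (R F : Type*) [CommRing R] [IsDomain R] [Field F] [Algebra R F]
    [IsFractionRing R F] (f : R[X][X]) (P : F[X][X]) (hPm : P.Monic)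
    (hP : P ∣ f.map (mapRingHom (algebraMap R F))) (hPq : ¬ q ∣ P.natDegree) :
    ∃ z₀ : R, z₀ ≠ 0 ∧ ∀ (L : Type) [Field L] (φ : R →+* L) (s : L), φ z₀ ≠ 0 →
      ∃ r : L[X], Irreducible r ∧ r ∣ f.map (eval₂RingHom φ s) ∧ ¬ q ∣ r.natDegree := by
  obtain ⟨Q, hQ⟩ := hP
  obtain ⟨b₁, P₁, hb₁, hP₁⟩ := clear_den R F P
  obtain ⟨b₂, Q₁, hb₂, hQ₁⟩ := clear_den R F Q
  have hinj1 : Function.Injective (mapRingHom (algebraMap R F)) :=
    Polynomial.map_injective _ (IsFractionRing.injective R F)
  have hinj : Function.Injective (mapRingHom (mapRingHom (algebraMap R F))) :=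
    Polynomial.map_injective _ hinj1
  have hprod : C (C (b₁ * b₂)) * f = P₁ * Q₁ := by
    apply hinj
    show (C (C (b₁ * b₂)) * f).map _ = (P₁ * Q₁).map _
    rw [Polynomial.map_mul, Polynomial.map_mul, hP₁, hQ₁, hQ, map_C]
    show C ((C (b₁ * b₂)).map (algebraMap R F)) * _ = _
    rw [map_C, map_mul, C_mul, C_mul]
    ring
  have hc : C (C (algebraMap R F b₁)) ≠ (0 : F[X][X]) := by
    rw [Ne, C_eq_zero, C_eq_zero, IsFractionRing.to_map_eq_zero_iff]
    exact hb₁
  have hdeg : P₁.natDegree = P.natDegree := by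
    have h1 := natDegree_map_eq_of_injective hinj1 P₁
    rw [← h1, hP₁, natDegree_mul hc hPm.ne_zero, natDegree_C, zero_add]
  have hlc : P₁.leadingCoeff = C b₁ := by
    apply hinj1
    have h1 := leadingCoeff_map_of_injective hinj1 (p := P₁)
    rw [hP₁, leadingCoeff_mul, hPm.leadingCoeff, mul_one, leadingCoeff_C] at h1
    rw [← h1]
    show _ = (C b₁).map (algebraMap R F)
    rw [map_C]
  refine ⟨b₁ * b₂, mul_ne_zero hb₁ hb₂, ?_⟩
  intro L _ φ s hz
  rw [map_mul] at hz
  let ev : R[X] →+* L := eval₂RingHom φ s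
  have hevC : ∀ a : R, ev (C a) = φ a := fun a => by
    show eval₂ φ s (C a) = φ a
    rw [eval₂_C]
  have h1 : (P₁.map ev).natDegree = P₁.natDegree := by
    apply natDegree_map_of_leadingCoeff_ne_zero
    rw [hlc, hevC]
    exact left_ne_zero_of_mul hz
  have h2 : P₁.map ev ≠ 0 := by
    intro h
    rw [h, natDegree_zero] at h1
    apply hPq
    rw [← hdeg, ← h1]
    exact dvd_zero _
  obtain ⟨r, hr1, hr2, hr3⟩ := exists_irred q _ (P₁.map ev) rfl h2 (by
    rw [h1, hdeg]
    exact hPq)
  refine ⟨r, hr1, ?_, hr3⟩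
  refine hr2.trans ?_
  have h3 : C (φ b₁ * φ b₂) * f.map ev = P₁.map ev * Q₁.map ev := by
    have h4 := congrArg (Polynomial.map ev) hprod
    rw [Polynomial.map_mul, Polynomial.map_mul, map_C, hevC, map_mul] at h4
    exact h4
  have h4 : f.map ev = P₁.map ev * (Q₁.map ev * C (φ b₁ * φ b₂)⁻¹) := by
    rw [← mul_assoc, ← h3, mul_comm, ← mul_assoc, ← C_mul, inv_mul_cancel₀ hz, C_1, one_mul]
  exact ⟨_, h4⟩

end Run7.h846
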