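import Mathlib

/-!
# Separability of the fibres
-/

set_option autoImplicit false

namespace Run7.h846

open Polynomial

/-- if one fibre is separable, then the fibres over a nonempty open set are separable -/
theorem sep_fibre (R F : Type*) [CommRing R] [IsDomain R] [CharZero R] [Field F] [Algebra R F]
    [IsFractionRing R F] (f : R[X][X]) (hf : f.Monic) (hn : f.natDegree ≠ 0) (c : R)
    (hsep : ((f.map (evalRingHom c)).map (algebraMap R F)).Separable) :
    ∃ z : R[X], z ≠ 0 ∧ ∀ (L : Type) [Field L] (φ : R →+* L) (s : L), z.eval₂ φ s ≠ 0 →
      (f.map (eval₂RingHom φ s)).Separable := by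
  have hcF : CharZero F := charZero_of_injective_algebraMap (IsFractionRing.injective R F)
  refine ⟨resultant f f.derivative f.natDegree (f.natDegree - 1), ?_, ?_⟩
  · intro h
    let ev : R[X] →+* F := (algebraMap R F).comp (evalRingHom c)
    have h1 := resultant_map_map f f.derivative f.natDegree (f.natDegree - 1) ev
    have h2 : (f.map ev).Separable := by
      rw [← Polynomial.map_map]
      exact hsep
    have h3 : (f.map ev).natDegree = f.natDegree := hf.natDegree_map _
    have h4 : f.derivative.map ev = (f.map ev).derivative := (derivative_map _ _).symm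
    have h5 : (f.map ev).derivative.natDegree = f.natDegree - 1 := by
      rw [natDegree_derivative, h3]
    have h6 := resultant_ne_zero (f.map ev) (f.map ev).derivative h2
    rw [h3, h5, ← h4, h1, h, map_zero] at h6
    exact h6 rfl
  · intro L _ φ s hz
    let ev : R[X] →+* L := eval₂RingHom φ s
    have h1 := resultant_map_map f f.derivative f.natDegree (f.natDegree - 1) ev
    have h3 : (f.map ev).natDegree = f.natDegree := hf.natDegree_map _
    have h4 : f.derivative.map ev = (f.map ev).derivative := (derivative_map _ _).symm
    obtain ⟨a, b, -, -, hab⟩ := exists_mul_add_mul_eq_C_resultant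
      (f.map ev) (f.map ev).derivative h3.le ((natDegree_derivative_le _).trans_eq (by rw [h3]))
      (Or.inl hn)
    rw [← h4, h1, h4] at hab
    have h5 : ev (resultant f f.derivative f.natDegree (f.natDegree - 1)) ≠ 0 := hz
    refine ⟨C (ev (resultant f f.derivative f.natDegree (f.natDegree - 1)))⁻¹ * a,
      C (ev (resultant f f.derivative f.natDegree (f.natDegree - 1)))⁻¹ * b, ?_⟩
    have h6 : C (ev (resultant f f.derivative f.natDegree (f.natDegree - 1)))⁻¹ *
        C (ev (resultant f f.derivative f.natDegree (f.natDegree - 1))) = 1 := by
      rw [← C_mul, inv_mul_cancel₀ h5, C_1]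
    rw [← h6, ← hab]
    ring

end Run7.h846
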