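import Pool.Agent.Run7.h846.Des
import Pool.Agent.Run7.h846.SepF
import Pool.Agent.Run7.h846.Idx

/-!
# Roots in the fibres and in their extensions
-/

set_option autoImplicit false

namespace Run7.h846

open Polynomial NumberField

/-- a root of the generic fibre gives one of the special fibres -/
theorem root_fibre (R F : Type*) [CommRing R] [IsDomain R] [Field F] [Algebra R F]
    [IsFractionRing R F] (f : R[X][X]) (θ : F[X])
    (hθ : (f.map (mapRingHom (algebraMap R F))).eval θ = 0) :
    ∃ b : R, b ≠ 0 ∧ ∀ (L : Type) [Field L] (φ : R →+* L) (s : L), φ b ≠ 0 →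
      ∃ x₀ : L, (f.map (eval₂RingHom φ s)).eval x₀ = 0 := by
  classical
  obtain ⟨⟨b, hb⟩, hbθ⟩ := IsLocalization.exist_integer_multiples (nonZeroDivisors R) θ.support
    (fun i => θ.coeff i)
  have hb0 : b ≠ 0 := nonZeroDivisors.ne_zero hb
  have hlift : C (algebraMap R F b) * θ ∈ lifts (algebraMap R F) := by
    rw [lifts_iff_coeff_lifts]
    intro i
    rw [coeff_C_mul]
    by_cases hi : i ∈ θ.support
    · obtain ⟨a, ha⟩ := hbθ i hi
      exact ⟨a, by rw [ha]; exact Algebra.smul_def b _⟩
    · rw [notMem_support_iff.1 hi, mul_zero]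
      exact ⟨0, map_zero _⟩
  obtain ⟨θ₀, hθ₀⟩ := (mem_lifts _).1 hlift
  refine ⟨b, hb0, ?_⟩
  intro L _ φ s hz
  let ev : R[X] →+* L := eval₂RingHom φ s
  -- the polynomial identity in `R[s]`
  have h1 : (f.scaleRoots (C b)).eval θ₀ = 0 := by
    have hinj : Function.Injective (mapRingHom (algebraMap R F)) :=
      Polynomial.map_injective _ (IsFractionRing.injective R F)
    apply hinj
    rw [map_zero, ← eval₂_at_apply]
    have h2 : mapRingHom (algebraMap R F) θ₀ = mapRingHom (algebraMap R F) (C b) * θ := by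
      show θ₀.map _ = (C b).map _ * θ
      rw [hθ₀, map_C]
    rw [h2, scaleRoots_eval₂_mul, ← eval_map, hθ, mul_zero]
  have hev : ev (C b) = φ b := by
    show eval₂ φ s (C b) = _
    rw [eval₂_C]
  have hb' : ev (C b) ≠ 0 := by
    rw [hev]
    exact hz
  refine ⟨ev θ₀ / ev (C b), ?_⟩
  have h2 : eval₂ ev (ev (C b) * (ev θ₀ / ev (C b))) (f.scaleRoots (C b)) = 0 := by
    rw [mul_div_cancel₀ _ hb', eval₂_at_apply, h1, map_zero]
  rw [scaleRoots_eval₂_mul] at h2
  rw [eval_map]
  rcases mul_eq_zero.1 h2 with h3 | h3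
  · exact absurd h3 (pow_ne_zero _ hb')
  · exact h3

/-- a root over an extension of degree prime to `q` -/
theorem root_ext (q : ℕ) (L : Type) [Field L] [NumberField L] (g r : L[X]) (hr : Irreducible r)
    (hrg : r ∣ g) (hq : ¬ q ∣ r.natDegree) :
    ∃ (L' : Type) (_ : Field L') (_ : NumberField L') (_ : Algebra L L') (x₀ : L'),
      ¬ q ∣ Module.finrank L L' ∧ (g.map (algebraMap L L')).eval x₀ = 0 := by
  have : Fact (Irreducible r) := ⟨hr⟩
  let pb : PowerBasis L (AdjoinRoot r) := AdjoinRoot.powerBasis hr.ne_zero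
  have hfd : FiniteDimensional L (AdjoinRoot r) := pb.finite
  have hch : CharZero (AdjoinRoot r) :=
    charZero_of_injective_algebraMap (algebraMap L (AdjoinRoot r)).injective
  have hSQ : FiniteDimensional ℚ (AdjoinRoot r) := FiniteDimensional.trans ℚ L (AdjoinRoot r)
  have hnf : NumberField (AdjoinRoot r) := { to_charZero := hch, to_finiteDimensional := hSQ }
  refine ⟨AdjoinRoot r, inferInstance, hnf, inferInstance, AdjoinRoot.root r, ?_, ?_⟩
  · rw [pb.finrank, AdjoinRoot.powerBasis_dim]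
    exact hq
  · obtain ⟨p, rfl⟩ := hrg
    rw [Polynomial.map_mul, eval_mul, eval_map]
    have h1 : eval₂ (algebraMap L (AdjoinRoot r)) (AdjoinRoot.root r) r = 0 :=
      AdjoinRoot.eval₂_root r
    rw [h1, zero_mul]

end Run7.h846
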