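import Mathlib

/-!
# Stable sets of roots and factors
-/

set_option autoImplicit false

namespace Run7.h846

open Polynomial

lemma lift_prod {K M Ω : Type*} [Field K] [Field M] [Algebra K M] [FiniteDimensional K M]
    [IsGalois K M] [Fintype Ω] (f : K[X][X]) (θ : Ω → M[X])
    (hf : f.map (mapRingHom (algebraMap K M)) = ∏ i, (X - C (θ i))) (s : Gal(M/K) → Ω ≃ Ω)
    (hs : ∀ (σ : Gal(M/K)) (i : Ω), (θ i).map (σ : M →+* M) = θ (s σ i)) (T : Finset Ω)
    (hT : ∀ σ, ∀ i ∈ T, s σ i ∈ T) : ∃ P : K[X][X], P.Monic ∧ P ∣ f ∧ P.natDegree = T.card := by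
  classical
  let Q : M[X][X] := ∏ i ∈ T, (X - C (θ i))
  have hQm : Q.Monic := monic_prod_of_monic _ _ fun i _ => monic_X_sub_C _
  have hQd : Q.natDegree = T.card := by
    show (∏ i ∈ T, (X - C (θ i))).natDegree = _
    rw [natDegree_prod_of_monic _ _ fun i _ => monic_X_sub_C _]
    simp
  have hTimg : ∀ σ, T.image (s σ) = T := by
    intro σ
    apply Finset.eq_of_subset_of_card_le
    · intro i hi
      obtain ⟨k, hk, rfl⟩ := Finset.mem_image.1 hi
      exact hT σ k hk
    · rw [Finset.card_image_of_injective _ (s σ).injective]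
  have hfix : ∀ σ : Gal(M/K), Q.map (mapRingHom (σ : M →+* M)) = Q := by
    intro σ
    show (∏ i ∈ T, (X - C (θ i))).map (mapRingHom (σ : M →+* M)) = ∏ i ∈ T, (X - C (θ i))
    rw [Polynomial.map_prod]
    conv_rhs => rw [← hTimg σ, Finset.prod_image (fun a _ b _ h => (s σ).injective h)]
    refine Finset.prod_congr rfl fun i _ => ?_
    rw [Polynomial.map_sub, map_X, map_C, ← hs]
    rfl
  have hlift : Q ∈ lifts (mapRingHom (algebraMap K M)) := by
    rw [lifts_iff_coeff_lifts]
    intro n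
    have h1 : Q.coeff n ∈ lifts (algebraMap K M) := by
      rw [lifts_iff_coeff_lifts]
      intro m
      rw [IsGalois.mem_range_algebraMap_iff_fixed]
      intro σ
      have h2 := congrArg (fun P => (coeff P n).coeff m) (hfix σ)
      beta_reduce at h2
      rw [coeff_map] at h2
      show (σ : M →+* M) _ = _
      rw [← coeff_map]
      exact h2
    obtain ⟨c, hc⟩ := (mem_lifts _).1 h1
    exact ⟨c, hc⟩
  obtain ⟨P, hP1, hP2, hP3⟩ := lifts_and_natDegree_eq_and_monic hlift hQm
  refine ⟨P, hP3, ?_, hP2.trans hQd⟩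
  rw [← Polynomial.map_dvd_map (mapRingHom (algebraMap K M))
    (Polynomial.map_injective _ (algebraMap K M).injective) hP3, hP1, hf]
  exact Finset.prod_dvd_prod_of_subset _ _ _ (Finset.subset_univ T)

/-- the roots of a monic divisor of a product of linear factors -/
lemma dvd_prod {A Ω : Type*} [CommRing A] [IsDomain A] [Fintype Ω] [DecidableEq Ω]
    (θ : Ω → A) (hθ : Function.Injective θ)
    (P : A[X]) (hPm : P.Monic) (hP : P ∣ ∏ i, (X - C (θ i))) :
    ∃ T : Finset Ω, (∀ i, i ∈ T ↔ P.eval (θ i) = 0) ∧ P.natDegree = T.card := by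
  classical
  have hm : (∏ i, (X - C (θ i)) : A[X]).Monic := monic_prod_of_monic _ _ fun i _ => monic_X_sub_C _
  have hne : (∏ i, (X - C (θ i)) : A[X]) ≠ 0 := hm.ne_zero
  have hroots : (∏ i, (X - C (θ i)) : A[X]).roots = Finset.univ.val.map θ := by
    rw [roots_prod _ _ hne]
    simp [Multiset.bind_singleton]
  have hsp : P.Splits :=
    Splits.of_dvd (Splits.prod fun i _ => Splits.X_sub_C (θ i)) hne hP
  have hcard : P.natDegree = P.roots.card := hsp.natDegree_eq_card_roots
  have hnd : P.roots.Nodup := by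
    refine Multiset.nodup_of_le (roots.le_of_dvd hne hP) ?_
    rw [hroots]
    exact (Finset.univ.nodup).map hθ
  have hmem : ∀ x ∈ P.roots, ∃ i, θ i = x := by
    intro x hx
    have h1 := Multiset.mem_of_le (roots.le_of_dvd hne hP) hx
    rw [hroots, Multiset.mem_map] at h1
    obtain ⟨i, _, hi⟩ := h1
    exact ⟨i, hi⟩
  refine ⟨Finset.univ.filter fun i => P.eval (θ i) = 0, fun i => by simp, ?_⟩
  rw [hcard, ← Multiset.toFinset_card_of_nodup hnd]
  symm
  apply Finset.card_bij (fun i _ => θ i)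
  · intro i hi
    rw [Multiset.mem_toFinset, mem_roots hPm.ne_zero]
    exact (Finset.mem_filter.1 hi).2
  · intro i _ i' _ h
    exact hθ h
  · intro x hx
    rw [Multiset.mem_toFinset] at hx
    obtain ⟨i, rfl⟩ := hmem x hx
    refine ⟨i, ?_, rfl⟩
    rw [Finset.mem_filter]
    exact ⟨Finset.mem_univ _, (mem_roots hPm.ne_zero).1 hx⟩

end Run7.h846
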