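import Mathlib

/-!
# Functions stable modulo constants
-/

set_option autoImplicit false

namespace Run7.h846

/-- the sum of all residues -/
lemma sum_zmod (q : ℕ) [NeZero q] (hq : q ≠ 2) (hp : q.Prime) : ∑ a : ZMod q, a = 0 := by
  have : Fact q.Prime := ⟨hp⟩
  have h1 : ∑ a : ZMod q, a = ∑ a : ZMod q, -a := (Equiv.sum_comp (Equiv.neg (ZMod q)) (fun a => a)).symm
  have h2 : (2 : ZMod q) * ∑ a : ZMod q, a = 0 := by
    rw [two_mul]
    nth_rewrite 2 [h1]
    rw [Finset.sum_neg_distrib, add_neg_cancel]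
  rcases mul_eq_zero.1 h2 with h3 | h3
  · exfalso
    have h4 : ((2 : ℕ) : ZMod q) = 0 := by exact_mod_cast h3
    rw [ZMod.natCast_eq_zero_iff] at h4
    have := (Nat.dvd_prime Nat.prime_two).1 h4
    have := hp.one_lt
    omega
  · exact h3

lemma grp (q : ℕ) (hq : q.Prime) {G Ω : Type*} [Group G] [Finite G] [Fintype Ω] [MulAction G Ω]
    (hqn : q ∣ Fintype.card Ω) (h4 : q = 2 → 4 ∣ Fintype.card Ω) (H : Subgroup G)
    (hH : ¬ q ∣ H.index) (χ : Ω → ℤ) (hχ : ¬ (q : ℤ) ∣ ∑ i, χ i)
    (hst : ∀ σ ∈ H, ∀ i i', (q : ℤ) ∣ (χ (σ • i) - χ (σ • i')) - (χ i - χ i')) :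
    ∃ T : Finset Ω, (∀ σ : G, ∀ i ∈ T, σ • i ∈ T) ∧ ¬ q ∣ T.card := by
  classical
  have hfact : Fact q.Prime := ⟨hq⟩
  have hne0 : NeZero q := ⟨hq.ne_zero⟩
  obtain ⟨P⟩ : Nonempty (Sylow q H) := Sylow.nonempty
  let P' : Subgroup G := (P : Subgroup H).map H.subtype
  have hP' : ¬ q ∣ P'.index := by
    show ¬ q ∣ ((P : Subgroup H).map H.subtype).index
    rw [Subgroup.index_map_subtype, hq.dvd_mul, not_or]
    exact ⟨P.not_dvd_index, hH⟩
  have hPp : IsPGroup q P' := P.isPGroup'.map H.subtype
  have hle : ∀ σ ∈ P', σ ∈ H := by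
    rintro _ ⟨σ, _, rfl⟩
    exact σ.2
  let ψ : Ω → ZMod q := fun i => (χ i : ZMod q)
  have hsum : ∑ i, ψ i ≠ 0 := by
    intro h
    apply hχ
    rw [← ZMod.intCast_zmod_eq_zero_iff_dvd]
    push_cast
    exact h
  have hψ : ∀ σ ∈ H, ∀ i i', ψ (σ • i) - ψ (σ • i') = ψ i - ψ i' := by
    intro σ hσ i i'
    have h1 := hst σ hσ i i'
    rw [← ZMod.intCast_zmod_eq_zero_iff_dvd] at h1
    push_cast at h1
    exact sub_eq_zero.1 h1
  have hfib : ∑ i, ψ i = ∑ a : ZMod q, ((Finset.univ.filter fun i => ψ i = a).card : ZMod q) * a := by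
    rw [← Finset.sum_fiberwise (s := Finset.univ) (g := ψ) (f := ψ)]
    refine Finset.sum_congr rfl fun a _ => ?_
    rw [Finset.sum_congr rfl (g := fun _ => a) (fun i hi => (Finset.mem_filter.1 hi).2),
      Finset.sum_const, nsmul_eq_mul]
  by_cases hA : ∃ σ ∈ P', ∃ i, ψ (σ • i) ≠ ψ i
  · exfalso
    obtain ⟨σ, hσ, i₀, hi₀⟩ := hA
    set c : ZMod q := ψ (σ • i₀) - ψ i₀ with hc
    have hc0 : c ≠ 0 := sub_ne_zero.2 hi₀
    have hsh : ∀ i, ψ (σ • i) = ψ i + c := by
      intro i
      have h1 := hψ σ (hle σ hσ) i i₀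
      rw [hc]
      linear_combination h1
    let N : ZMod q → ℕ := fun a => (Finset.univ.filter fun i => ψ i = a).card
    have hN1 : ∀ a, N (a + c) = N a := by
      intro a
      symm
      refine Finset.card_bij' (fun i _ => σ • i) (fun i _ => σ⁻¹ • i) ?_ ?_ ?_ ?_
      · intro i hi
        rw [Finset.mem_filter] at hi ⊢
        exact ⟨Finset.mem_univ _, by rw [hsh, hi.2]⟩
      · intro i hi
        rw [Finset.mem_filter] at hi ⊢
        refine ⟨Finset.mem_univ _, ?_⟩
        have h1 := hsh (σ⁻¹ • i)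
        rw [smul_inv_smul, hi.2] at h1
        exact (add_right_cancel h1).symm
      · intro i _
        exact inv_smul_smul _ _
      · intro i _
        exact smul_inv_smul _ _
    have hN2 : ∀ (k : ℕ) a, N (a + k * c) = N a := by
      intro k
      induction k with
      | zero => intro a; simp
      | succ k ih =>
        intro a
        have : a + ((k + 1 : ℕ) : ZMod q) * c = (a + k * c) + c := by
          push_cast
          ring
        rw [this, hN1, ih]
    have hN3 : ∀ a, N a = N 0 := by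
      intro a
      have h1 := hN2 (a / c).val 0
      rw [ZMod.natCast_zmod_val, div_mul_cancel₀ _ hc0, zero_add] at h1
      exact h1
    have hcard : Fintype.card Ω = q * N 0 := by
      have h1 : Fintype.card Ω = ∑ a : ZMod q, N a := by
        rw [← Finset.card_univ]
        exact Finset.card_eq_sum_card_fiberwise fun i _ => Finset.mem_univ _
      rw [h1, Finset.sum_congr rfl (fun a _ => hN3 a), Finset.sum_const, Finset.card_univ,
        ZMod.card, smul_eq_mul]
    apply hsum
    rw [hfib, Finset.sum_congr rfl (fun a _ => by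
      show (N a : ZMod q) * a = (N 0 : ZMod q) * a
      rw [hN3 a]), ← Finset.mul_sum]
    by_cases h2 : q = 2
    · have h3 := h4 h2
      have h5 : q ∣ N 0 := by
        rw [hcard] at h3
        subst h2
        omega
      rw [(ZMod.natCast_eq_zero_iff _ _).2 h5, zero_mul]
    · rw [sum_zmod q h2 hq, mul_zero]
  · push Not at hA
    have hex : ∃ a : ZMod q, ¬ q ∣ (Finset.univ.filter fun i => ψ i = a).card := by
      by_contra hcon
      push Not at hcon
      apply hsum
      rw [hfib]
      apply Finset.sum_eq_zero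
      intro a _
      rw [(ZMod.natCast_eq_zero_iff _ _).2 (hcon a), zero_mul]
    obtain ⟨a, ha⟩ := hex
    let F : SubMulAction P' Ω :=
      { carrier := {i | ψ i = a}
        smul_mem' := fun σ i hi => by
          show ψ ((σ : G) • i) = a
          rw [hA σ σ.2 i]
          exact hi }
    have hFcard : Nat.card F = (Finset.univ.filter fun i => ψ i = a).card := by
      rw [← Fintype.card_subtype]
      show Nat.card {x : Ω // ψ x = a} = _
      exact Nat.card_eq_fintype_card
    obtain ⟨x, hx⟩ := hPp.nonempty_fixed_point_of_prime_not_dvd_card F (by rw [hFcard]; exact ha)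
    have hxs : P' ≤ MulAction.stabilizer G (x : Ω) := by
      intro σ hσ
      rw [MulAction.mem_stabilizer_iff]
      exact congrArg Subtype.val (hx ⟨σ, hσ⟩)
    refine ⟨(MulAction.orbit G (x : Ω)).toFinset, ?_, ?_⟩
    · intro σ i hi
      rw [Set.mem_toFinset] at hi ⊢
      exact (MulAction.mem_orbit_of_mem_orbit σ hi)
    · intro hdvd
      apply hP'
      refine hdvd.trans ?_
      have h1 : (MulAction.orbit G (x : Ω)).toFinset.card = (MulAction.stabilizer G (x : Ω)).index := by
        rw [MulAction.index_stabilizer, Set.ncard_eq_toFinset_card']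
      rw [h1]
      exact Subgroup.index_dvd_of_le hxs

end Run7.h846
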