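import Pool.Agent.Run7.h846.Core

/-!
# The descent argument for classes modulo `q`-th powers
-/

set_option autoImplicit false

namespace Run7.h846

open NumberField IsDedekindDomain

/-- **the descent argument** for classes -/
theorem core2 {M : Type} [Field M] [NumberField M] (q : ℕ) (hq : q.Prime) (ζ : M)
    (hζ : IsPrimitiveRoot ζ q) (B : Set (HeightOneSpectrum (𝓞 M))) (hB : B.Finite) (p : ℕ)
    (hp : p.Prime) (N0 : ℕ) :
    ∃ Λ : Finset ℕ, Λ.Nonempty ∧ (∀ ℓ ∈ Λ, ℓ.Prime ∧ N0 < ℓ ∧ ∃ γ : ℤ, (ℓ : ℤ) ∣ γ ^ q - p) ∧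
      ∀ (Ω : Type) [Finite Ω], 3 ≤ Nat.card Ω → ∀ a : Ω → M, (∀ θ, a θ ≠ 0) →
        (∀ v : HeightOneSpectrum (𝓞 M), v ∉ B → (p : 𝓞 M) ∉ v.asIdeal →
          ∀ θ θ', (q : ℤ) ∣ ord v (a θ) - ord v (a θ')) →
        (∀ ℓ ∈ Λ, ∀ φ : 𝓞 M →+* ZMod ℓ, ∀ θ θ', ∀ (c : 𝓞 M) (w : M), w ≠ 0 →
          a θ = a θ' * c * w ^ q → φ c ≠ 0 → ∃ b : ZMod ℓ, φ c = b ^ q) →
        ∀ v : HeightOneSpectrum (𝓞 M), ∀ θ₀, ∀ e : ℤ, ¬ (q : ℤ) ∣ e →
          (∀ θ, θ ≠ θ₀ → (q : ℤ) ∣ ord v (a θ₀) - ord v (a θ) - e) →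
          ∀ (σ : M ≃+* M) (s : Ω ≃ Ω), (∀ θ θ', ∃ u : M, u ≠ 0 ∧
            σ (a θ) * a (s θ') = σ (a θ') * a (s θ) * u ^ q) → s θ₀ = θ₀ := by
  classical
  -- the places above `p`
  have hSfin : {v : HeightOneSpectrum (𝓞 M) | (p : 𝓞 M) ∈ v.asIdeal}.Finite := by
    have h1 : (p : 𝓞 M) ≠ 0 := by exact_mod_cast hp.ne_zero
    have h2 := Ideal.finite_factors (I := Ideal.span {(p : 𝓞 M)}) (by
      rw [Ne, Ideal.zero_eq_bot, Ideal.span_singleton_eq_bot]
      exact h1)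
    refine h2.subset fun v hv => ?_
    rw [Set.mem_ofPred_eq, Ideal.dvd_span_singleton]
    exact hv
  obtain ⟨R, hR0, hR⟩ := selS (M := M) q hq.pos (B ∪ {v | (p : 𝓞 M) ∈ v.asIdeal}) (hB.union hSfin)
  -- bad representatives
  have hbad : ∀ c : 𝓞 M, ∃ ℓ : ℕ, c ≠ 0 → (∀ (j : ℕ) (m : M), (c : M) ≠ (p : M) ^ j * m ^ q) →
      ℓ.Prime ∧ N0 < ℓ ∧ (∃ γ : ℤ, (ℓ : ℤ) ∣ γ ^ q - p) ∧
      ∃ φ : 𝓞 M →+* ZMod ℓ, φ c ≠ 0 ∧ ¬ ∃ b : ZMod ℓ, φ c = b ^ q := by
    intro c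
    by_cases hc : c ≠ 0
    · by_cases H : ∀ (j : ℕ) (m : M), (c : M) ≠ (p : M) ^ j * m ^ q
      · obtain ⟨ℓ, h⟩ := lemK q hq ζ hζ p hp.ne_zero c hc H N0
        exact ⟨ℓ, fun _ _ => h⟩
      · exact ⟨0, fun _ h => absurd h H⟩
    · exact ⟨0, fun h => absurd h hc⟩
  choose L hL using hbad
  -- a further representative
  obtain ⟨N1, hN1⟩ := exists_unram M
  obtain ⟨r, hr1, hr⟩ := Nat.exists_infinite_primes (N1 + p + 1)
  have hr0 : (r : 𝓞 M) ≠ 0 := by exact_mod_cast hr.ne_zero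
  have hv0 : ∃ v : HeightOneSpectrum (𝓞 M), (r : 𝓞 M) ∈ v.asIdeal := by
    have h1 : ¬ IsUnit (r : 𝓞 M) := by
      intro h
      have h3 : IsUnit ((r : ℤ)) := by
        by_contra h4
        have h5 : (r : ℤ) ∣ 1 := by
          have h6 := NumberField.isUnit_iff_norm.1 h
          have h7 : ((RingOfIntegers.norm ℚ (r : 𝓞 M) : 𝓞 ℚ) : ℚ) = (r : ℚ) ^ Module.finrank ℚ M := by
            rw [RingOfIntegers.coe_norm, show (((r : 𝓞 M) : M)) = algebraMap ℚ M (r : ℚ) by simp,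
              Algebra.norm_algebraMap]
          rw [h7, abs_of_nonneg (by positivity)] at h6
          have h8 : 0 < Module.finrank ℚ M := Module.finrank_pos
          have h9 : (r : ℚ) = 1 := by
            rw [pow_eq_one_iff_of_nonneg (by positivity) h8.ne'] at h6
            exact h6
          have h10 : r = 1 := by exact_mod_cast h9
          exact absurd h10 hr.one_lt.ne'
        exact h4 (isUnit_of_dvd_one h5)
      have h4 := Int.isUnit_iff.1 h3
      have := hr.one_lt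
      omega
    obtain ⟨P, hP, hPr⟩ := exists_max_ideal_of_mem_nonunits (a := (r : 𝓞 M)) h1
    refine ⟨⟨P, hP.isPrime, ?_⟩, hPr⟩
    rintro rfl
    exact hr0 hPr
  obtain ⟨v0, hv0⟩ := hv0
  have hrH : ∀ (j : ℕ) (m : M), ((r : 𝓞 M) : M) ≠ (p : M) ^ j * m ^ q := by
    intro j m h
    have h1 : ord v0 (r : M) = 1 := hN1 r hr (by omega) v0 hv0
    have hp0 : (p : M) ≠ 0 := by exact_mod_cast hp.ne_zero
    have hm0 : m ≠ 0 := by
      rintro rfl
      rw [zero_pow hq.ne_zero, mul_zero] at h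
      exact hr0 (by exact_mod_cast h)
    have h2 : ord v0 (p : M) = 0 := by
      have h3 : ((p : 𝓞 M) : M) = (p : M) := by simp
      have hp0' : (p : 𝓞 M) ≠ 0 := by exact_mod_cast hp.ne_zero
      rw [← h3]
      have h4 := ord_int_nonneg v0 (p : 𝓞 M)
      by_contra h5
      have h6 : 0 < ord v0 ((p : 𝓞 M) : M) := by omega
      rw [ord_int_pos_iff v0 hp0'] at h6
      have h7 : Nat.Coprime r p := by
        rw [hr.coprime_iff_not_dvd]
        intro h8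
        have := Nat.le_of_dvd hp.pos h8
        omega
      obtain ⟨a, b, hab⟩ := Nat.isCoprime_iff_coprime.2 h7
      have h8 : (1 : 𝓞 M) ∈ v0.asIdeal := by
        have h9 : ((a * r + b * p : ℤ) : 𝓞 M) = 1 := by
          rw [hab]
          simp
        rw [← h9]
        push_cast
        exact v0.asIdeal.add_mem (v0.asIdeal.mul_mem_left _ hv0) (v0.asIdeal.mul_mem_left _ h6)
      exact v0.isPrime.ne_top ((Ideal.eq_top_iff_one _).2 h8)
    have h3 : ((r : 𝓞 M) : M) = (r : M) := by simp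
    rw [← h3, h, ord_mul v0 (pow_ne_zero _ hp0) (pow_ne_zero _ hm0), ord_pow, ord_pow, h2, mul_zero,
      zero_add] at h1
    have h4 : (q : ℤ) ∣ 1 := ⟨_, h1.symm⟩
    have h5 := Int.eq_one_of_dvd_one (by positivity) h4
    have := hq.one_lt
    omega
  refine ⟨insert (L r) ((R.filter fun c : 𝓞 M => ∀ (j : ℕ) (m : M), (c : M) ≠ (p : M) ^ j * m ^ q).image L),
    ⟨L r, Finset.mem_insert_self _ _⟩, ?_, ?_⟩
  · intro ℓ hℓ
    rw [Finset.mem_insert, Finset.mem_image] at hℓ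
    rcases hℓ with rfl | ⟨c, hc, rfl⟩
    · obtain ⟨h1, h2, h3, _⟩ := hL r hr0 hrH
      exact ⟨h1, h2, h3⟩
    · rw [Finset.mem_filter] at hc
      obtain ⟨h1, h2, h3, _⟩ := hL c (hR0 c hc.1) hc.2
      exact ⟨h1, h2, h3⟩
  · intro Ω _ hΩ a ha0 hB' hΛ v θ₀ e he hθ₀ σ s hs
    by_contra hne
    -- a third element
    have hthird : ∃ θ' : Ω, θ' ≠ θ₀ ∧ s θ' ≠ θ₀ := by
      by_contra h
      push Not at h
      have h1 : (Set.univ : Set Ω) ⊆ {θ₀, s.symm θ₀} := by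
        intro θ _
        by_cases h2 : θ = θ₀
        · exact Or.inl h2
        · right
          rw [Set.mem_singleton_iff, ← h θ h2, Equiv.symm_apply_apply]
      have h2 := Set.ncard_le_ncard h1 (Set.toFinite _)
      rw [Set.ncard_univ] at h2
      have h3 := Set.ncard_insert_le θ₀ {s.symm θ₀}
      rw [Set.ncard_singleton] at h3
      omega
    obtain ⟨θ', hθ', hsθ'⟩ := hthird
    have hp0 : (p : M) ≠ 0 := by exact_mod_cast hp.ne_zero
    obtain ⟨c, hcR, w, hw0, hcw⟩ := hR (a θ₀ / a θ') (div_ne_zero (ha0 _) (ha0 _)) (by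
      intro u hu
      rw [Set.mem_union, not_or] at hu
      rw [ord_div u (ha0 _) (ha0 _)]
      exact hB' u hu.1 hu.2 _ _)
    have hcw' : a θ₀ = a θ' * c * w ^ q := by
      rw [div_eq_iff (ha0 _)] at hcw
      rw [hcw]
      ring
    by_cases hc : ∀ (j : ℕ) (m : M), (c : M) ≠ (p : M) ^ j * m ^ q
    · obtain ⟨_, _, _, φ, hφ1, hφ2⟩ := hL c (hR0 c hcR) hc
      refine hφ2 (hΛ (L c) ?_ φ θ₀ θ' c w hw0 hcw' hφ1)
      exact Finset.mem_insert_of_mem (Finset.mem_image_of_mem _ (Finset.mem_filter.2 ⟨hcR, hc⟩))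
    · push Not at hc
      obtain ⟨j, m, hjm⟩ := hc
      have hm0 : m ≠ 0 := by
        rintro rfl
        rw [zero_pow hq.ne_zero, mul_zero] at hjm
        exact hR0 c hcR (by exact_mod_cast hjm)
      have hmw0 : m * w ≠ 0 := mul_ne_zero hm0 hw0
      have e1 : a θ₀ = a θ' * ((p : M) ^ j * (m * w) ^ q) := by
        rw [hcw', hjm, mul_pow]
        ring
      obtain ⟨u, hu0, hu⟩ := hs θ₀ θ'
      have hσa0 : σ (a θ') ≠ 0 := by
        rw [Ne, map_eq_zero_iff σ σ.injective]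
        exact ha0 _
      have e2 : a (s θ₀) * u ^ q = a (s θ') * ((p : M) ^ j * (σ (m * w)) ^ q) := by
        have h1 := congrArg σ e1
        simp only [map_mul, map_pow, map_natCast] at h1
        rw [h1] at hu
        apply mul_left_cancel₀ hσa0
        simp only [map_mul]
        linear_combination -hu
      have hσ0 : σ (m * w) ≠ 0 := by
        rw [Ne, map_eq_zero_iff σ σ.injective]
        exact hmw0
      have f1 : ord v (a θ₀) = ord v (a θ') + (j * ord v (p : M) + q * ord v (m * w)) := by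
        conv_lhs => rw [e1]
        rw [ord_mul v (ha0 _) (mul_ne_zero (pow_ne_zero _ hp0) (pow_ne_zero _ hmw0)),
          ord_mul v (pow_ne_zero _ hp0) (pow_ne_zero _ hmw0), ord_pow, ord_pow]
      have f2 : ord v (a (s θ₀)) + q * ord v u =
          ord v (a (s θ')) + (j * ord v (p : M) + q * ord v (σ (m * w))) := by
        rw [← ord_pow, ← ord_mul v (ha0 _) (pow_ne_zero _ hu0), e2,
          ord_mul v (ha0 _) (mul_ne_zero (pow_ne_zero _ hp0) (pow_ne_zero _ hσ0)),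
          ord_mul v (pow_ne_zero _ hp0) (pow_ne_zero _ hσ0), ord_pow, ord_pow]
      obtain ⟨k1, g1⟩ := hθ₀ θ' hθ'
      obtain ⟨k2, g2⟩ := hθ₀ (s θ₀) hne
      obtain ⟨k3, g3⟩ := hθ₀ (s θ') hsθ'
      apply he
      refine ⟨k3 - k2 - ord v (σ (m * w)) + ord v (m * w) - k1 + ord v u, ?_⟩
      linarith

end Run7.h846
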