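import Pool.Agent.Run7.h846.Comp
import Pool.Agent.Run7.h846.Grp
import Pool.Agent.Run7.h846.Nf3

/-!
# The obstruction persists over the extensions of degree prime to `q`
-/

set_option autoImplicit false

namespace Run7.h846

open NumberField IsDedekindDomain Polynomial

section

variable {q : ℕ} {K M L E Ω : Type} [Field K] [NumberField K] [Field M] [NumberField M]
  [Algebra K M] [Field L] [Algebra K L] [Field E] [NumberField E] [Algebra M E] [Fintype Ω]
  {s : Gal(M/K) → Ω ≃ Ω} {j : L →+* E} {Θ : Ω → E} {Good : Set (HeightOneSpectrum (𝓞 E))}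
  {t : L} {g : L[X]}

lemma OD.uniq (h : OD q s j Θ Good t g) (σ : Gal(M/K)) (ρ : E →+* E)
    (h1 : ∀ x : M, ρ (algebraMap M E x) = algebraMap M E (σ x)) (h2 : ∀ x : L, ρ (j x) = j x)
    (i : Ω) : ρ (Θ i) = Θ (s σ i) := by
  obtain ⟨σ', h3, h4, h5⟩ := h.lift σ
  rw [← h5]
  exact h.gen (RingHom.eqLocusField ρ (σ' : E →+* E)) (fun x => (h1 x).trans (h3 x).symm)
    (fun x => (h2 x).trans (h4 x).symm) (Θ i)

lemma OD.one (h : OD q s j Θ Good t g) (i : Ω) : s 1 i = i := by
  apply h.inj
  have h1 := h.uniq 1 (RingHom.id E) (fun x => rfl) (fun x => rfl) i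
  exact h1.symm

lemma OD.mul (h : OD q s j Θ Good t g) (σ τ : Gal(M/K)) (i : Ω) : s (σ * τ) i = s σ (s τ i) := by
  apply h.inj
  obtain ⟨σ', h1, h2, h3⟩ := h.lift σ
  obtain ⟨τ', h4, h5, h6⟩ := h.lift τ
  rw [← h3, ← h6]
  have h7 := h.uniq (σ * τ) ((σ' : E →+* E).comp (τ' : E →+* E)) (fun x => by
    show σ' (τ' (algebraMap M E x)) = _
    rw [h4, h1]
    rfl) (fun x => by
    show σ' (τ' (j x)) = _
    rw [h5, h2]) i
  exact h7.symm

/-- the action on the roots -/
@[reducible] def OD.act (h : OD q s j Θ Good t g) : MulAction Gal(M/K) Ω where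
  smul σ i := s σ i
  one_smul := h.one
  mul_smul := h.mul

end

theorem ext1 {q : ℕ} (hq : q.Prime) {K M L E L' E' Ω : Type} [Field K] [NumberField K] [Field M]
    [NumberField M] [Algebra K M] [IsGalois K M] [Field L] [Algebra K L] [Field E] [NumberField E]
    [Algebra M E] [Algebra K E] [Algebra L E] [IsScalarTower K M E] [IsScalarTower K L E]
    [Field L'] [Field E'] [NumberField E'] [Algebra K L'] [Algebra K E'] [Algebra M E']
    [Algebra L' E'] [IsScalarTower K M E'] [IsScalarTower K L' E'] [Algebra L L'] [Algebra E E']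
    [Algebra L E'] [IsScalarTower L L' E'] [IsScalarTower L E E'] [IsScalarTower M E E']
    [FiniteDimensional L L'] [Fintype Ω] {s : Gal(M/K) → Ω ≃ Ω} {Θ : Ω → E}
    {Good : Set (HeightOneSpectrum (𝓞 E))} {t : L} {g : L[X]}
    (h : OD q s (algebraMap L E) Θ Good t g) (hqn : q ∣ Fintype.card Ω) (h3 : 3 ≤ Fintype.card Ω)
    (h4 : q = 2 → 4 ∣ Fintype.card Ω) (hT : ∀ T : Finset Ω, (∀ σ, ∀ i ∈ T, s σ i ∈ T) → q ∣ T.card)
    (hgen' : ∀ S : Subfield E', (∀ x : M, algebraMap M E' x ∈ S) →
      (∀ x : L', algebraMap L' E' x ∈ S) → ∀ x, x ∈ S)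
    (hL' : ¬ q ∣ Module.finrank L L') :
    Obs q L' (algebraMap L L' t) (g.map (algebraMap L L')) := by
  classical
  obtain ⟨hfd', r, hr, hidx⟩ := comp_index (K := K) (M := M) (L := L) (E := E) (L' := L') (E' := E')
    h.gen (fun σ => by
      obtain ⟨σ', h1, h2, _⟩ := h.lift σ
      exact ⟨σ', h1, h2⟩) hgen'
  let _ : MulAction Gal(M/K) Ω := h.act
  have hsm : ∀ (σ : Gal(M/K)) (i : Ω), σ • i = s σ i := fun _ _ => rfl
  have hH : ¬ q ∣ r.range.index := fun hd => hL' (hidx ▸ hd.mul_right _)
  have hd : ¬ (q : ℤ) ∣ (Module.finrank E E' : ℤ) := fun hd =>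
    hL' (hidx ▸ (Dvd.dvd.mul_left (by exact_mod_cast hd) _))
  have hgrp := fun χ hχ hst => grp q hq (G := Gal(M/K)) (Ω := Ω) hqn h4 r.range hH χ hχ hst
  have hno : ∀ χ : Ω → ℤ, ¬ (q : ℤ) ∣ ∑ i, χ i → ¬ ∀ σ ∈ r.range, ∀ i i',
      (q : ℤ) ∣ (χ (s σ i) - χ (s σ i')) - (χ i - χ i') := by
    intro χ hχ hst
    obtain ⟨T, hT1, hT2⟩ := hgrp χ hχ hst
    exact hT2 (hT T hT1)
  have hcard0 : (q : ℤ) ∣ (Fintype.card Ω : ℤ) := by exact_mod_cast hqn
  have hεj : ∀ x : L, algebraMap L' E' (algebraMap L L' x) = algebraMap E E' (algebraMap L E x) := by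
    intro x
    rw [← IsScalarTower.algebraMap_apply, ← IsScalarTower.algebraMap_apply]
  have hinjE : Function.Injective (algebraMap E E') := (algebraMap E E').injective
  -- automorphisms of `E'` over `L'`
  have hcomm : ∀ (σ' : Gal(E'/L')) (ρ : E →+* E),
      (∀ x : M, ρ (algebraMap M E x) = algebraMap M E (r σ' x)) →
      (∀ x : L, ρ (algebraMap L E x) = algebraMap L E x) →
      ∀ x : E, σ' (algebraMap E E' x) = algebraMap E E' (ρ x) := by
    intro σ' ρ h1 h2 x
    refine h.gen (RingHom.eqLocusField ((σ' : E' →+* E').comp (algebraMap E E'))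
      ((algebraMap E E').comp ρ)) (fun y => ?_) (fun y => ?_) x
    · show σ' (algebraMap E E' (algebraMap M E y)) = algebraMap E E' (ρ (algebraMap M E y))
      rw [h1, ← IsScalarTower.algebraMap_apply, ← IsScalarTower.algebraMap_apply, hr]
    · show σ' (algebraMap E E' (algebraMap L E y)) = algebraMap E E' (ρ (algebraMap L E y))
      rw [h2, ← hεj, σ'.commutes]
  have hΘ' : ∀ (σ' : Gal(E'/L')) (i : Ω), σ' (algebraMap E E' (Θ i)) = algebraMap E E' (Θ (s (r σ') i)) := by
    intro σ' i
    obtain ⟨ρ, h1, h2, h5⟩ := h.lift (r σ')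
    rw [hcomm σ' (ρ : E →+* E) h1 h2]
    show algebraMap E E' (ρ (Θ i)) = _
    rw [h5]
  refine ⟨?_, ?_, Ω, inferInstance, E', inferInstance, inferInstance, algebraMap L' E',
    fun i => algebraMap E E' (Θ i), {W' | ∃ W ∈ Good, Over W' W}, ?_, ?_, hqn, h3, ?_, ?_, ?_⟩
  · -- no point at infinity
    intro u hu
    have h1 := congrArg (Algebra.norm L) hu
    rw [map_mul, map_pow, map_one, Algebra.norm_algebraMap] at h1
    set v := Algebra.norm L u with hv
    set d := Module.finrank L L' with hdd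
    have hco : Nat.Coprime d q := (Nat.Coprime.symm ((Nat.Prime.coprime_iff_not_dvd hq).2 hL'))
    have hv0 : v ≠ 0 := by
      intro h0
      rw [h0, zero_pow hq.ne_zero, mul_zero] at h1
      exact zero_ne_one h1
    obtain ⟨a, b, hab⟩ := Nat.isCoprime_iff_coprime.2 hco
    -- `t = (t ^ d) ^ a * (t ^ b) ^ q`
    have ht : t = (t ^ d) ^ a * (t ^ b) ^ q := by
      rw [← zpow_natCast t d, ← zpow_mul, ← zpow_natCast (t ^ b) q, ← zpow_mul, ← zpow_add₀ h.t0]
      conv_lhs => rw [← zpow_one t]
      congr 1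
      linear_combination -hab
    have h2 : t ^ d = (v ^ q)⁻¹ := eq_inv_of_mul_eq_one_left h1
    have h5 : ((t ^ d) ^ a * (t ^ b) ^ q) * (v ^ a * (t ^ b)⁻¹) ^ q = 1 := by
      rw [h2]
      have htb : t ^ b ≠ 0 := zpow_ne_zero _ h.t0
      have hvq : v ^ q ≠ 0 := pow_ne_zero _ hv0
      rw [mul_pow, inv_zpow', zpow_neg, inv_pow]
      have h6 : (v ^ q) ^ a = (v ^ a) ^ q := by
        rw [← zpow_natCast v q, ← zpow_mul, ← zpow_natCast (v ^ a) q, ← zpow_mul, mul_comm]
      rw [h6]
      have h7 : (v ^ a) ^ q ≠ 0 := pow_ne_zero _ (zpow_ne_zero _ hv0)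
      have h8 : (t ^ b) ^ q ≠ 0 := pow_ne_zero _ htb
      field_simp
    rw [← ht] at h5
    exact h.inf _ h5
  · exact (_root_.map_ne_zero _).2 h.t0
  · rw [Polynomial.map_map]
    have h1 : (algebraMap L' E').comp (algebraMap L L') = (algebraMap E E').comp (algebraMap L E) := by
      ext x
      exact hεj x
    rw [h1, ← Polynomial.map_map, h.roots, Polynomial.map_prod]
    refine Finset.prod_congr rfl fun i _ => ?_
    rw [Polynomial.map_sub, map_X, map_C]
  · exact hinjE.comp h.inj
  · -- no root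
    intro x i hx
    have hx' : algebraMap L' E' x = algebraMap E E' (Θ i) := hx
    have hfix : ∀ σ ∈ r.range, s σ i = i := by
      rintro _ ⟨σ', rfl⟩
      apply h.inj
      apply hinjE
      rw [← hΘ', ← hx', σ'.commutes]
    refine hno (fun k => if k = i then 1 else 0) ?_ ?_
    · rw [Finset.sum_ite_eq' Finset.univ i, if_pos (Finset.mem_univ _)]
      intro hd1
      have := Int.eq_one_of_dvd_one (by positivity) hd1
      have := hq.one_lt
      omega
    · intro σ hσ k k'
      have h5 : ∀ k, (s σ k = i) ↔ k = i := by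
        intro k
        constructor
        · intro h6
          apply (s σ).injective
          rw [h6, hfix σ hσ]
        · rintro rfl
          exact hfix σ hσ
      simp only [h5, sub_self, dvd_zero]
  · -- good primes
    rintro W' ⟨W, hW, hWW⟩
    obtain ⟨h1, h2⟩ := h.good W hW
    constructor
    · intro h5
      apply h1
      rw [over_iff.1 hWW, map_natCast]
      exact h5
    · intro i i' hii'
      have h5 := h2 i i' hii'
      have h6 : Θ i - Θ i' ≠ 0 := by
        intro h7
        rw [h7, map_zero] at h5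
        exact zero_ne_one h5
      rw [← map_sub]
      have h8 : algebraMap E E' (Θ i - Θ i') ≠ 0 := (_root_.map_ne_zero _).2 h6
      rw [← ord_eq_zero_iff W' h8]
      obtain ⟨e, _, he⟩ := exists_ram (F := E) hWW
      rw [he, (ord_eq_zero_iff W h6).2 h5, mul_zero]
  · -- the classes
    intro u hu0 hloc hconj
    let a : Ω → E := fun i => Algebra.norm E (u i)
    have ha0 : ∀ i, a i ≠ 0 := fun i => Algebra.norm_ne_zero_iff.2 (hu0 i)
    have hasum : ∀ (W : HeightOneSpectrum (𝓞 E)) (i : Ω), ord W (a i) =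
        ∑ W' ∈ above E' W, (fdeg E W' : ℤ) * ord W' (u i) := fun W i => ord_norm W _ (hu0 i)
    have ht0 : algebraMap E E' (algebraMap L E t) ≠ 0 := (_root_.map_ne_zero _).2 ((_root_.map_ne_zero _).2 h.t0)
    obtain ⟨χ, hχ1, hχ2⟩ := h.core (Module.finrank E E') a hd ha0 (by
      intro W hW
      have hlocW : ∀ W' ∈ above E' W, ∃ i₀, ∀ i, i ≠ i₀ → (q : ℤ) ∣ ord W' (u i₀) - ord W' (u i) -
          ord W' (algebraMap E E' (algebraMap L E t)) := by
        intro W' hW'
        have h1 := hloc W' ⟨W, hW, mem_above.1 hW'⟩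
        rw [hεj] at h1
        exact h1
      constructor
      · intro h0 i i'
        rw [hasum, hasum, ← Finset.sum_sub_distrib]
        apply Finset.dvd_sum
        intro W' hW'
        rw [← mul_sub]
        apply Dvd.dvd.mul_left
        obtain ⟨e, _, he⟩ := exists_ram (F := E) (mem_above.1 hW')
        obtain ⟨i₀, hi₀⟩ := hlocW W' hW'
        rw [he, h0, mul_zero] at hi₀
        have hall : ∀ i, (q : ℤ) ∣ ord W' (u i₀) - ord W' (u i) := by
          intro i
          by_cases h1 : i = i₀
          · rw [h1, sub_self]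
            exact dvd_zero _
          · have := hi₀ i h1
            rwa [sub_zero] at this
        have h1 := dvd_sub (hall i') (hall i)
        rwa [sub_sub_sub_cancel_left] at h1
      · have h1 : ∑ i, ord W (a i) = ∑ W' ∈ above E' W, (fdeg E W' : ℤ) * ∑ i, ord W' (u i) := by
          simp only [hasum, Finset.mul_sum]
          rw [Finset.sum_comm]
        have h2 : (Module.finrank E E' : ℤ) * ord W (algebraMap L E t) =
            ∑ W' ∈ above E' W, (fdeg E W' : ℤ) * ord W' (algebraMap E E' (algebraMap L E t)) := by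
          rw [← ord_norm W _ ht0, Algebra.norm_algebraMap, ord_pow]
        rw [h1, h2, ← Finset.sum_sub_distrib]
        apply Finset.dvd_sum
        intro W' hW'
        rw [← mul_sub]
        apply Dvd.dvd.mul_left
        obtain ⟨i₀, hi₀⟩ := hlocW W' hW'
        set τ := ord W' (algebraMap E E' (algebraMap L E t)) with hτ
        have h5 : (∑ i, ord W' (u i)) - τ = (Fintype.card Ω : ℤ) * (ord W' (u i₀) - τ) -
            ∑ i ∈ Finset.univ.erase i₀, (ord W' (u i₀) - ord W' (u i) - τ) := by
          rw [← Finset.add_sum_erase _ _ (Finset.mem_univ i₀), Finset.sum_sub_distrib,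
            Finset.sum_sub_distrib, Finset.sum_const, Finset.sum_const,
            Finset.card_erase_of_mem (Finset.mem_univ _), Finset.card_univ, nsmul_eq_mul,
            nsmul_eq_mul, Nat.cast_sub (by omega)]
          push_cast
          ring
        rw [h5]
        apply dvd_sub
        · exact hcard0.mul_right _
        · apply Finset.dvd_sum
          intro i hi
          exact hi₀ i (Finset.ne_of_mem_erase hi))
    refine hno χ hχ1 ?_
    rintro _ ⟨σ', rfl⟩
    refine hχ2 (r σ') ?_
    intro ρ h1 h2 _ i i'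
    obtain ⟨w, hw0, hw⟩ := hconj (σ' : E' ≃+* E') (s (r σ')) (fun x => σ'.commutes x) (hΘ' σ') i i'
    have hn : ∀ z : E', Algebra.norm E (σ' z) = ρ (Algebra.norm E z) := by
      intro z
      have h5 := Algebra.norm_eq_of_equiv_equiv ρ (σ' : E' ≃+* E') (by
        ext z
        exact (hcomm σ' (ρ : E →+* E) h1 h2 z).symm) z
      rw [h5]
      exact (ρ.apply_symm_apply _).symm
    refine ⟨Algebra.norm E w, Algebra.norm_ne_zero_iff.2 hw0, ?_⟩
    show ρ (Algebra.norm E (u i)) * Algebra.norm E (u (s (r σ') i')) =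
      ρ (Algebra.norm E (u i')) * Algebra.norm E (u (s (r σ') i)) * Algebra.norm E w ^ q
    rw [← hn, ← hn, ← map_mul, ← map_mul, ← map_pow, ← map_mul]
    exact congrArg _ hw

theorem obsO_ext {q : ℕ} (hq : q.Prime) {K M L E Ω : Type} [Field K] [NumberField K] [Field M]
    [NumberField M] [Algebra K M] [IsGalois K M] [Field L] [Algebra K L] [Field E]
    [NumberField E] [Algebra M E] [Fintype Ω] {s : Gal(M/K) → Ω ≃ Ω} {j : L →+* E} {Θ : Ω → E}
    {Good : Set (HeightOneSpectrum (𝓞 E))} {t : L} {g : L[X]} (h : OD q s j Θ Good t g)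
    (hqn : q ∣ Fintype.card Ω) (h3 : 3 ≤ Fintype.card Ω) (h4 : q = 2 → 4 ∣ Fintype.card Ω)
    (hT : ∀ T : Finset Ω, (∀ σ, ∀ i ∈ T, s σ i ∈ T) → q ∣ T.card)
    (L' : Type) [Field L'] [Algebra L L'] [FiniteDimensional L L']
    (hL' : ¬ q ∣ Module.finrank L L') :
    Obs q L' (algebraMap L L' t) (g.map (algebraMap L L')) := by
  classical
  let _ : Algebra L E := j.toAlgebra
  let _ : Algebra K E := ((algebraMap M E).comp (algebraMap K M)).toAlgebra
  have i1 : IsScalarTower K M E := IsScalarTower.of_algebraMap_eq fun _ => rfl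
  have i2 : IsScalarTower K L E := IsScalarTower.of_algebraMap_eq fun x =>
    (RingHom.congr_fun h.comm x).symm
  let A := AlgebraicClosure E
  have : Algebra.IsAlgebraic L L' := inferInstance
  let emb : L' →ₐ[L] A := IsAlgClosed.lift
  let S₀ : Set A := Set.range (fun i => emb (Module.finBasis L L' i))
  have hSfin : Finite S₀ := Set.finite_range _
  let E' := IntermediateField.adjoin E S₀
  have hfd : FiniteDimensional E E' :=
    IntermediateField.finiteDimensional_adjoin fun x _ => Algebra.IsIntegral.isIntegral x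
  have hjA : ∀ x : L, algebraMap L A x = algebraMap E A (j x) := fun x =>
    IsScalarTower.algebraMap_apply L E A x
  have hgenL : ∀ S : Subfield A, (∀ x : E, algebraMap E A x ∈ S) → (∀ x ∈ S₀, x ∈ S) →
      ∀ x ∈ E', x ∈ S := by
    intro S h1 h2 x hx
    have h5 : E' ≤ S.toIntermediateField h1 := by
      rw [IntermediateField.adjoin_le_iff]
      exact h2
    exact h5 hx
  have hmem : ∀ x : L', emb x ∈ E' := by
    intro x
    rw [← (Module.finBasis L L').sum_repr x, map_sum]
    apply sum_mem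
    intro i _
    rw [map_smul, Algebra.smul_def, hjA]
    exact mul_mem (E'.algebraMap_mem _) (IntermediateField.subset_adjoin _ _ ⟨i, rfl⟩)
  let lam : L' →+* E' := (emb : L' →+* A).codRestrict E' hmem
  let _ : Algebra L' E' := lam.toAlgebra
  let _ : Algebra K L' := ((algebraMap L L').comp (algebraMap K L)).toAlgebra
  have hLL' : ∀ x : L, (algebraMap L' E' (algebraMap L L' x)) = algebraMap E E' (j x) := by
    intro x
    apply Subtype.ext
    show emb (algebraMap L L' x) = algebraMap E A (j x)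
    rw [emb.commutes, hjA]
  have i3 : IsScalarTower K L' E' := IsScalarTower.of_algebraMap_eq fun x => by
    show algebraMap E E' (algebraMap K E x) = algebraMap L' E' (algebraMap L L' (algebraMap K L x))
    rw [hLL']
    congr 1
    exact (RingHom.congr_fun h.comm x).symm
  have i4 : IsScalarTower L L' E' := IsScalarTower.of_algebraMap_eq fun x => by
    show algebraMap E E' (j x) = _
    rw [hLL']
  have i5 : IsScalarTower L E E' := inferInstance
  have i6 : IsScalarTower M E E' := inferInstance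
  have i7 : IsScalarTower K M E' := IsScalarTower.of_algebraMap_eq fun _ => rfl
  have hnf : NumberField E' := by
    have h1 : FiniteDimensional ℚ E := inferInstance
    have h2 : FiniteDimensional ℚ E' := FiniteDimensional.trans ℚ E E'
    exact { to_charZero := charZero_of_injective_algebraMap (algebraMap E E').injective,
            to_finiteDimensional := h2 }
  refine ext1 (E' := E') hq (K := K) (M := M) (L := L) (E := E) (L' := L') (s := s) (Θ := Θ)
    (Good := Good) h hqn h3 h4 hT ?_ hL'
  intro S h1 h2 x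
  -- `E` is contained in `S`
  have h5 : ∀ y : E, algebraMap E E' y ∈ S := by
    intro y
    exact h.gen (S.comap (algebraMap E E')) (fun z => h1 z) (fun z => by
      show algebraMap E E' (j z) ∈ S
      rw [← hLL']
      exact h2 _) y
  have h6 := hgenL (S.map (algebraMap E' A)) (fun y => ⟨algebraMap E E' y, h5 y, rfl⟩) (by
    rintro _ ⟨i, rfl⟩
    exact ⟨algebraMap L' E' (Module.finBasis L L' i), h2 _, rfl⟩) x x.2
  obtain ⟨y, hy, hyx⟩ := h6
  have h7 : y = x := Subtype.ext hyx
  exact h7 ▸ hy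

end Run7.h846
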