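import Pool.Agent.Run7.h846.Cyc
import Pool.Agent.Run7.h846.OExt

/-!
# The obstruction for zero-cycles of degree prime to `q`
-/

set_option autoImplicit false

namespace Run7.h846

open NumberField IsDedekindDomain Polynomial

/-- the obstruction for zero-cycles of degree prime to `q` on the curve `t y ^ q = g(x)` -/
def ObsZ (q : ℕ) (L : Type) [Field L] (t : L) (g : L[X]) : Prop :=
  t ≠ 0 ∧ ∃ (Ω : Type) (_ : Fintype Ω) (E : Type) (_ : Field E) (_ : NumberField E) (j : L →+* E)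
    (Θ : Ω → E) (Good : Set (HeightOneSpectrum (𝓞 E))),
    g.map j = ∏ i, (X - C (Θ i)) ∧ q ∣ Fintype.card Ω ∧
    (∀ W ∈ Good, ∀ i i', i ≠ i' → W.valuation E (Θ i - Θ i') = 1) ∧
    ∀ (d : ℤ) (u : Ω → E), ¬ (q : ℤ) ∣ d → (∀ i, u i ≠ 0) →
      (∀ W ∈ Good, (ord W (j t) = 0 → ∀ i i', (q : ℤ) ∣ ord W (u i) - ord W (u i')) ∧
        (q : ℤ) ∣ (∑ i, ord W (u i)) - d * ord W (j t)) →
      ¬ (∀ (σ : E ≃+* E) (s : Ω ≃ Ω), (∀ x, σ (j x) = j x) → (∀ i, σ (Θ i) = Θ (s i)) →
        ∀ i i', ∃ w : E, w ≠ 0 ∧ σ (u i) * u (s i') = σ (u i') * u (s i) * w ^ q)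

theorem obsZ_of_OD {q : ℕ} (hq : q.Prime) {K M L E Ω : Type} [Field K] [NumberField K] [Field M]
    [NumberField M] [Algebra K M] [IsGalois K M] [Field L] [Algebra K L] [Field E]
    [NumberField E] [Algebra M E] [Fintype Ω] {s : Gal(M/K) → Ω ≃ Ω} {j : L →+* E} {Θ : Ω → E}
    {Good : Set (HeightOneSpectrum (𝓞 E))} {t : L} {g : L[X]} (h : OD q s j Θ Good t g)
    (hqn : q ∣ Fintype.card Ω) (h4 : q = 2 → 4 ∣ Fintype.card Ω)
    (hT : ∀ T : Finset Ω, (∀ σ, ∀ i ∈ T, s σ i ∈ T) → q ∣ T.card) : ObsZ q L t g := by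
  classical
  refine ⟨h.t0, Ω, inferInstance, E, inferInstance, inferInstance, j, Θ, Good, h.roots, hqn,
    fun W hW => (h.good W hW).2, ?_⟩
  intro d u hd hu hloc H
  obtain ⟨χ, hχ, hst⟩ := h.core d u hd hu hloc
  let _ : MulAction Gal(M/K) Ω := h.act
  obtain ⟨T, hT1, hT2⟩ := grp q hq (G := Gal(M/K)) (Ω := Ω) hqn h4 ⊤ (by
    rw [Subgroup.index_top]
    exact hq.one_lt.ne' ∘ Nat.dvd_one.1) χ hχ (by
    intro σ _ i i'
    exact hst σ (fun σ' _ h2 h3 i i' => H σ' (s σ) h2 h3 i i') i i')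
  exact hT2 (hT T hT1)

theorem obsZ_noCycles {q : ℕ} (hq : q ≠ 0) {L : Type} [Field L] [NumberField L] {t : L} {g : L[X]}
    (h : ObsZ q L t g) (d : ℤ) (hd : ¬ (q : ℤ) ∣ d) (u : L[X]) (hu : IsCoprime u g)
    (hloc : ∀ v : HeightOneSpectrum (𝓞 L), ∃ (U V Z Q : (v.adicCompletion L)[X])
      (lam : v.adicCompletion L), lam ≠ 0 ∧ U.Monic ∧
      IsCoprime U (g.map (algebraMap L (v.adicCompletion L))) ∧ (q : ℤ) ∣ (U.natDegree : ℤ) - d ∧
      U ∣ g.map (algebraMap L (v.adicCompletion L)) - C (algebraMap L (v.adicCompletion L) t) * V ^ q ∧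
      C lam * U = u.map (algebraMap L (v.adicCompletion L)) * Z ^ q +
        g.map (algebraMap L (v.adicCompletion L)) * Q) : False := by
  classical
  obtain ⟨ht0, Ω, _, E, _, _, j, Θ, Good, hg, hqn, hGood, H⟩ := h
  have hjt : j t ≠ 0 := (_root_.map_ne_zero j).2 ht0
  have hg0 : ∀ i, g.eval₂ j (Θ i) = 0 := by
    intro i
    rw [← eval_map, hg, eval_prod]
    exact Finset.prod_eq_zero (Finset.mem_univ i) (by rw [eval_sub, eval_X, eval_C, sub_self])
  have hu0 : ∀ i, u.eval₂ j (Θ i) ≠ 0 := by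
    intro i hi
    obtain ⟨a, b, hab⟩ := hu
    have h1 := congrArg (eval₂ j (Θ i)) hab
    rw [eval₂_add, eval₂_mul, eval₂_mul, hi, hg0, mul_zero, mul_zero, add_zero, eval₂_one] at h1
    exact zero_ne_one h1
  refine H d (fun i => u.eval₂ j (Θ i)) hd hu0 ?_ ?_
  · intro W hW
    obtain ⟨v, ι, hι⟩ := exists_cpl j W
    obtain ⟨U, V, Z, Q, lam, hlam, hUm, hUc, hUd, hUV, hZ⟩ := hloc v
    let a : E →+* W.adicCompletion E := algebraMap E (W.adicCompletion E)
    have hcomp : ι.comp (algebraMap L (v.adicCompletion L)) = a.comp j := RingHom.ext hι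
    have hmm : ∀ p : L[X], (p.map (algebraMap L (v.adicCompletion L))).map ι = (p.map j).map a := by
      intro p
      rw [Polynomial.map_map, Polynomial.map_map, hcomp]
    let ν : Valuation (W.adicCompletion E) (WithZero (Multiplicative ℤ)) := Valued.v
    have hgW : (g.map (algebraMap L (v.adicCompletion L))).map ι = ∏ i, (X - C (a (Θ i))) := by
      rw [hmm, hg, Polynomial.map_prod]
      refine Finset.prod_congr rfl fun i _ => ?_
      rw [Polynomial.map_sub, map_X, map_C]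
    have hUm' : (U.map ι).Monic := hUm.map ι
    have hUc' : IsCoprime (U.map ι) (∏ i, (X - C (a (Θ i)))) := by
      rw [← hgW]
      exact hUc.map (mapRingHom ι)
    have hUV' : U.map ι ∣ (∏ i, (X - C (a (Θ i)))) - C (a (j t)) * (V.map ι) ^ q := by
      have h1 := Polynomial.map_dvd ι hUV
      rw [Polynomial.map_sub, hgW, Polynomial.map_mul, map_C, Polynomial.map_pow, hι] at h1
      exact h1
    have hΘ' : ∀ i i', i ≠ i' → ν (a (Θ i) - a (Θ i')) = 1 := by
      intro i i' hii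
      rw [← map_sub]
      exact (cpl_val W _).trans (hGood W hW i i' hii)
    have hajt : a (j t) ≠ 0 := (_root_.map_ne_zero a).2 hjt
    obtain ⟨hne, e, he⟩ := cyc_sum ν q Ω (fun i => a (Θ i)) (a (j t)) hajt _ (U.map ι) (V.map ι) rfl
      hUm' hUc' hUV'
    -- the values of `u`
    have hval : ∀ i, ∃ z : W.adicCompletion E, z ≠ 0 ∧
        ι lam * (U.map ι).eval (a (Θ i)) = a (u.eval₂ j (Θ i)) * z ^ q := by
      intro i
      have h1 := congrArg (fun p => (p.map ι).eval (a (Θ i))) hZ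
      beta_reduce at h1
      have hgi : ((g.map (algebraMap L (v.adicCompletion L))).map ι).eval (a (Θ i)) = 0 := by
        rw [hmm, eval_map, eval₂_at_apply, eval_map, hg0, map_zero]
      have hui : ((u.map (algebraMap L (v.adicCompletion L))).map ι).eval (a (Θ i)) =
          a (u.eval₂ j (Θ i)) := by
        rw [hmm, eval_map, eval₂_at_apply, eval_map]
      rw [Polynomial.map_mul, map_C, eval_mul, eval_C, Polynomial.map_add, Polynomial.map_mul,
        Polynomial.map_mul, Polynomial.map_pow, eval_add, eval_mul, eval_mul, eval_pow, hgi, hui,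
        zero_mul, add_zero] at h1
      refine ⟨(Z.map ι).eval (a (Θ i)), ?_, h1⟩
      intro h2
      rw [h2, zero_pow hq, mul_zero] at h1
      exact mul_ne_zero ((_root_.map_ne_zero ι).2 hlam) (hne i) h1
    choose z hz0 hz using hval
    have hoo : ∀ i, ord W (u.eval₂ j (Θ i)) =
        oo ν ((U.map ι).eval (a (Θ i))) + oo ν (ι lam) - q * oo ν (z i) := by
      intro i
      have h1 := congrArg (oo ν) (hz i)
      rw [oo_mul ν ((_root_.map_ne_zero ι).2 hlam) (hne i),
        oo_mul ν ((_root_.map_ne_zero a).2 (hu0 i)) (pow_ne_zero _ (hz0 i)), oo_pow] at h1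
      have h2 : oo ν (a (u.eval₂ j (Θ i))) = ord W (u.eval₂ j (Θ i)) := cpl_oo W _
      rw [h2] at h1
      linear_combination -h1
    have hot : oo ν (a (j t)) = ord W (j t) := cpl_oo W _
    constructor
    · intro ht i i'
      obtain ⟨w, hw, hσ⟩ := cpl_ext W
      have h1 := cyc_all (W.adicCompletion E) ν w hw hσ q Ω (fun i => a (Θ i)) hΘ' (a (j t)) hajt
        (hot.trans ht) _ (V.map ι) rfl i i' _ (U.map ι) rfl hUm' hUc' hUV'
      rw [hoo, hoo]
      have h2 : (q : ℤ) ∣ q * (oo ν (z i') - oo ν (z i)) := dvd_mul_right _ _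
      refine (dvd_add h1 h2).trans (dvd_of_eq ?_)
      ring
    · rw [Finset.sum_congr rfl fun i _ => hoo i, Finset.sum_sub_distrib, Finset.sum_add_distrib, he,
        Finset.sum_const, Finset.card_univ, nsmul_eq_mul, ← Finset.mul_sum, hot,
        natDegree_map_eq_of_injective ι.injective]
      obtain ⟨n', hn'⟩ := hqn
      obtain ⟨m', hm'⟩ := hUd
      have hm : (U.natDegree : ℤ) = d + q * m' := by linear_combination hm'
      rw [hn', hm]
      refine ⟨m' * ord W (j t) + e + n' * oo ν (ι lam) - ∑ i, oo ν (z i), ?_⟩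
      push_cast
      ring
  · intro σ s hσ hs i i'
    have hσj : (σ : E →+* E).comp j = j := RingHom.ext hσ
    have h1 : ∀ i, σ (u.eval₂ j (Θ i)) = u.eval₂ j (Θ (s i)) := by
      intro i
      show (σ : E →+* E) (u.eval₂ j (Θ i)) = _
      rw [hom_eval₂, hσj]
      show u.eval₂ j (σ (Θ i)) = _
      rw [hs]
    refine ⟨1, one_ne_zero, ?_⟩
    show σ (u.eval₂ j (Θ i)) * u.eval₂ j (Θ (s i')) = σ (u.eval₂ j (Θ i')) * u.eval₂ j (Θ (s i)) * 1 ^ q
    rw [h1, h1, one_pow, mul_one, mul_comm]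

/-- an effective zero-cycle of degree prime to `q` for a factor of `g` of degree prime to `q` -/
theorem cycle_of_factor (q : ℕ) (hq : q.Prime) {L : Type} [Field L] [CharZero L] (t : L) (ht : t ≠ 0)
    (g g₁ g₂ : L[X]) (hg₁ : g₁.Monic) (hg₂ : g₂.Monic) (hg : g = g₁ * g₂) (hco : IsCoprime g₁ g₂)
    (hqn : q ∣ g.natDegree) (hm : ¬ q ∣ g₁.natDegree) :
    ∃ (u U V : L[X]) (lam : L), lam ≠ 0 ∧ U.Monic ∧ IsCoprime U g ∧ IsCoprime u g ∧
      ¬ (q : ℤ) ∣ (U.natDegree : ℤ) ∧ U ∣ g - C t * V ^ q ∧ C lam * U = u := by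
  classical
  obtain ⟨a, ha0, ha⟩ : ∃ a : L, a ≠ 0 ∧ t * a ^ q ≠ 1 := by
    by_cases h1 : t = 1
    · refine ⟨2, two_ne_zero, ?_⟩
      rw [h1, one_mul]
      intro h2
      have h3 : ((2 ^ q : ℕ) : L) = ((1 : ℕ) : L) := by
        push_cast
        exact h2
      have h4 : 2 ^ q = 1 := Nat.cast_injective h3
      have h5 : 1 < 2 ^ q := Nat.one_lt_two_pow hq.ne_zero
      omega
    · exact ⟨1, one_ne_zero, by rw [one_pow, mul_one]; exact h1⟩
  obtain ⟨r, hr⟩ : ∃ r, q = r + 1 := ⟨q - 1, by have := hq.pos; omega⟩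
  let A : L[X] := C (t * a ^ q) * g₁ ^ r
  let U₀ : L[X] := A - g₂
  have hta : t * a ^ q ≠ 0 := mul_ne_zero ht (pow_ne_zero _ ha0)
  have hid : g - C t * (C a * g₁) ^ q = -g₁ * U₀ := by
    rw [hg]
    show g₁ * g₂ - C t * (C a * g₁) ^ q = -g₁ * (C (t * a ^ q) * g₁ ^ r - g₂)
    rw [mul_pow, ← C_pow, C_mul]
    nth_rewrite 2 [hr]
    rw [pow_succ]
    ring
  have hdg : g.natDegree = g₁.natDegree + g₂.natDegree := by rw [hg, hg₁.natDegree_mul hg₂]
  have hdA : A.natDegree = r * g₁.natDegree := by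
    show (C (t * a ^ q) * g₁ ^ r).natDegree = _
    rw [natDegree_C_mul hta, hg₁.natDegree_pow]
  have hlA : A.leadingCoeff = t * a ^ q := by
    show (C (t * a ^ q) * g₁ ^ r).leadingCoeff = _
    rw [leadingCoeff_mul, leadingCoeff_C, (hg₁.pow r).leadingCoeff, mul_one]
  -- the degree of `U₀`
  have hdeg : U₀.natDegree = max A.natDegree g₂.natDegree := by
    rcases lt_trichotomy A.natDegree g₂.natDegree with h1 | h1 | h1
    · rw [max_eq_right h1.le]
      exact natDegree_sub_eq_right_of_natDegree_lt h1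
    · rw [max_eq_right h1.le]
      apply le_antisymm
      · exact (natDegree_sub_le _ _).trans (by rw [h1, max_self])
      · apply le_natDegree_of_ne_zero
        show (A - g₂).coeff g₂.natDegree ≠ 0
        rw [coeff_sub, coeff_natDegree, hg₂.leadingCoeff, ← h1, coeff_natDegree, hlA]
        exact sub_ne_zero.2 ha
    · rw [max_eq_left h1.le]
      exact natDegree_sub_eq_left_of_natDegree_lt h1
  have hUq : ¬ q ∣ U₀.natDegree := by
    intro h1
    apply hm
    have h2 : q ∣ U₀.natDegree + g₁.natDegree := by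
      rw [hdeg]
      rcases le_total A.natDegree g₂.natDegree with h3 | h3
      · rw [max_eq_right h3, add_comm, ← hdg]
        exact hqn
      · rw [max_eq_left h3, hdA]
        exact ⟨g₁.natDegree, by rw [hr]; ring⟩
    exact (Nat.dvd_add_right h1).1 h2
  have hU₀0 : U₀ ≠ 0 := by
    intro h1
    apply hUq
    rw [h1, natDegree_zero]
    exact dvd_zero _
  have hlc : U₀.leadingCoeff ≠ 0 := leadingCoeff_ne_zero.2 hU₀0
  have hU₀c : IsCoprime U₀ g := by
    rw [hg]
    apply IsCoprime.mul_right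
    · -- modulo `g₁`
      have h1 : IsCoprime (-g₂) g₁ := (hco.symm).neg_left
      have hr1 : r ≠ 0 := by
        have := hq.two_le
        omega
      obtain ⟨r', hr'⟩ := Nat.exists_eq_succ_of_ne_zero hr1
      have h2 : U₀ = -g₂ + g₁ * (C (t * a ^ q) * g₁ ^ r') := by
        show C (t * a ^ q) * g₁ ^ r - g₂ = _
        rw [hr', Nat.succ_eq_add_one, pow_succ]
        ring
      rw [h2]
      exact h1.add_mul_left_left _
    · have h1 : IsCoprime A g₂ := by
        show IsCoprime (C (t * a ^ q) * g₁ ^ r) g₂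
        apply IsCoprime.mul_left
        · refine ⟨C (t * a ^ q)⁻¹, 0, ?_⟩
          rw [zero_mul, add_zero, ← C_mul, inv_mul_cancel₀ hta, C_1]
        · exact hco.pow_left
      have h2 : U₀ = A + g₂ * (-1) := by
        show A - g₂ = _
        ring
      rw [h2]
      exact h1.add_mul_left_left _
  have hCC : C U₀.leadingCoeff * (C U₀.leadingCoeff⁻¹ * U₀) = U₀ := by
    rw [← mul_assoc, ← C_mul, mul_inv_cancel₀ hlc, C_1, one_mul]
  refine ⟨U₀, C U₀.leadingCoeff⁻¹ * U₀, C a * g₁, U₀.leadingCoeff, hlc, ?_, ?_, hU₀c, ?_, ?_, hCC⟩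
  · unfold Monic
    rw [leadingCoeff_mul, leadingCoeff_C, inv_mul_cancel₀ hlc]
  · apply IsCoprime.mul_left
    · refine ⟨C U₀.leadingCoeff, 0, ?_⟩
      rw [zero_mul, add_zero, ← C_mul, mul_inv_cancel₀ hlc, C_1]
    · exact hU₀c
  · rw [natDegree_C_mul (inv_ne_zero hlc)]
    intro h1
    exact hUq (by exact_mod_cast h1)
  · rw [hid]
    refine ⟨-g₁ * C U₀.leadingCoeff, ?_⟩
    linear_combination g₁ * hCC

end Run7.h846
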