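import Pool.Agent.Run7.h846.Spec
import Pool.Agent.Run7.h846.LiftP

/-!
# Specialisation of split families, keeping the degrees of the factors
-/

set_option autoImplicit false

namespace Run7.h846

open Polynomial NumberField

theorem specO (q : ℕ) (R F E₀ : Type) [CommRing R] [IsDomain R] [Algebra ℚ R] [Algebra.FiniteType ℚ R]
    [Field F] [Algebra R F] [IsFractionRing R F] [Field E₀] [Algebra F E₀] [FiniteDimensional F E₀]
    (Ω : Type) [Fintype Ω] (θ : Ω → E₀[X]) (f : R[X][X]) (hfm : f.Monic)
    (hf : f.map (mapRingHom ((algebraMap F E₀).comp (algebraMap R F))) = ∏ i, (X - C (θ i)))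
    (hsep : ∀ i j, i ≠ j → (θ i).eval 0 ≠ (θ j).eval 0) (d : R) (hd : d ≠ 0)
    (hno : ∀ P : F[X][X], P.Monic → P ∣ f.map (mapRingHom (algebraMap R F)) → q ∣ P.natDegree) :
    ∃ (L₀ : Type) (_ : Field L₀) (_ : NumberField L₀) (N₀ : Type) (_ : Field N₀)
      (_ : NumberField N₀) (_ : Algebra L₀ N₀) (φ : R →+* L₀) (θ' : Ω → N₀[X]), φ d ≠ 0 ∧
      (f.map (mapRingHom φ)).map (mapRingHom (algebraMap L₀ N₀)) = ∏ i, (X - C (θ' i)) ∧
      (∀ i j, i ≠ j → (θ' i).eval 0 ≠ (θ' j).eval 0) ∧
      ∀ P : L₀[X][X], P.Monic → P ∣ f.map (mapRingHom φ) → q ∣ P.natDegree := by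
  classical
  obtain ⟨N, _, _, _, htow, hfdN, hgal, B, hB, hspec⟩ := pack R F E₀
  let ρ : R →+* N := (algebraMap F N).comp (algebraMap R F)
  have hρinj : Function.Injective ρ := (algebraMap F N).injective.comp (IsFractionRing.injective R F)
  let ψ : R →+* B := ρ.codRestrict B fun r => hB _ (ρ.isIntegralElem_map)
  have hψ : B.subtype.comp ψ = ρ := rfl
  let θN : Ω → N[X] := fun i => (θ i).map (algebraMap E₀ N)
  have hρ' : (algebraMap E₀ N).comp ((algebraMap F E₀).comp (algebraMap R F)) = ρ := by
    show _ = (algebraMap F N).comp (algebraMap R F)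
    rw [← RingHom.comp_assoc, ← IsScalarTower.algebraMap_eq F E₀ N]
  have hfN : f.map (mapRingHom ρ) = ∏ i, (X - C (θN i)) := by
    rw [← map_prod_lin (algebraMap E₀ N) θ, ← hf, Polynomial.map_map, mapRingHom_comp, hρ']
  -- integrality of the roots
  have hlift : ∀ i, ∃ P : B[X], P.map B.subtype = θN i := by
    intro i
    have h2 := coeff_integral ρ f hfm (θN i) (by rw [hfN]; exact eval_prod_lin θN i)
    have h3 : θN i ∈ lifts B.subtype := by
      rw [lifts_iff_coeff_lifts]
      intro n
      exact ⟨⟨_, hB _ (h2 n)⟩, rfl⟩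
    exact (mem_lifts _).1 h3
  choose θB hθB using hlift
  have hBinj : Function.Injective (mapRingHom B.subtype) :=
    Polynomial.map_injective _ B.subtype_injective
  have hfB : f.map (mapRingHom ψ) = ∏ i, (X - C (θB i)) := by
    apply Polynomial.map_injective _ hBinj
    rw [map_prod_lin, Polynomial.map_map, mapRingHom_comp, hψ, hfN]
    refine Finset.prod_congr rfl fun i _ => ?_
    rw [hθB]
  have hsepB : ∀ i j, i ≠ j → (θB i).eval 0 - (θB j).eval 0 ≠ 0 := by
    intro i j hij h
    apply hsep i j hij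
    apply (algebraMap E₀ N).injective
    have h1 : ∀ i, algebraMap E₀ N ((θ i).eval 0) = B.subtype ((θB i).eval 0) := by
      intro i
      rw [← eval0_map, ← eval0_map, hθB]
    rw [h1, h1, sub_eq_zero.1 h]
  let bb : B := ψ d * ∏ p ∈ (Finset.univ : Finset (Ω × Ω)).filter (fun p => p.1 ≠ p.2),
    ((θB p.1).eval 0 - (θB p.2).eval 0)
  have hψinj : Function.Injective ψ := by
    intro x y hxy
    exact hρinj (congrArg B.subtype hxy)
  have hbb : bb ≠ 0 := by
    apply mul_ne_zero
    · rw [Ne, map_eq_zero_iff ψ hψinj]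
      exact hd
    · rw [Finset.prod_ne_zero_iff]
      intro p hp
      rw [Finset.mem_filter] at hp
      exact hsepB _ _ hp.2
  obtain ⟨N₀, _, _, π, hπ, hσ⟩ := hspec bb hbb
  have hπd : π (ψ d) ≠ 0 := by
    intro h
    apply hπ
    show π (ψ d * _) = 0
    rw [map_mul, h, zero_mul]
  have hπsep : ∀ i j, i ≠ j → π ((θB i).eval 0) ≠ π ((θB j).eval 0) := by
    intro i j hij h
    apply hπ
    show π (ψ d * ∏ p ∈ (Finset.univ : Finset (Ω × Ω)).filter (fun p => p.1 ≠ p.2),
      ((θB p.1).eval 0 - (θB p.2).eval 0)) = 0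
    rw [map_mul, map_prod]
    have h1 : ∏ p ∈ (Finset.univ : Finset (Ω × Ω)).filter (fun p => p.1 ≠ p.2),
        π ((θB p.1).eval 0 - (θB p.2).eval 0) = 0 := by
      apply Finset.prod_eq_zero (i := (i, j))
      · rw [Finset.mem_filter]
        exact ⟨Finset.mem_univ _, hij⟩
      · rw [map_sub, h, sub_self]
    rw [h1, mul_zero]
  let L₀ : IntermediateField ℚ N₀ := IntermediateField.adjoin ℚ (Set.range (π.comp ψ))
  let φ : R →+* L₀ := (π.comp ψ).codRestrict L₀ fun r => IntermediateField.subset_adjoin _ _ ⟨r, rfl⟩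
  have hφ : (algebraMap L₀ N₀).comp φ = π.comp ψ := rfl
  let θ' : Ω → N₀[X] := fun i => (θB i).map π
  have hfN₀ : (f.map (mapRingHom φ)).map (mapRingHom (algebraMap L₀ N₀)) = ∏ i, (X - C (θ' i)) := by
    rw [Polynomial.map_map, mapRingHom_comp, hφ, ← mapRingHom_comp, ← Polynomial.map_map, hfB,
      map_prod_lin]
  refine ⟨L₀, inferInstance, inferInstance, N₀, inferInstance, inferInstance, inferInstance, φ, θ',
    ?_, hfN₀, ?_, ?_⟩
  · intro h
    apply hπd
    have h1 := congrArg (algebraMap L₀ N₀) h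
    rw [map_zero] at h1
    exact h1
  · intro i j hij h
    apply hπsep i j hij
    show π _ = π _
    rw [← eval0_map, ← eval0_map]
    exact h
  · intro P hPm hPf
    let g₀ : L₀[X] →+* N₀[X] := mapRingHom (algebraMap L₀ N₀)
    have hθ'inj : Function.Injective θ' := by
      intro i j hij
      by_contra hne
      apply hπsep i j hne
      show π _ = π _
      rw [← eval0_map, ← eval0_map]
      exact congrArg (eval 0) hij
    have hdvd : P.map g₀ ∣ ∏ i, (X - C (θ' i)) := by
      rw [← hfN₀]
      exact Polynomial.map_dvd g₀ hPf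
    obtain ⟨T, hT1, hT2⟩ := dvd_prod θ' hθ'inj (P.map g₀) (hPm.map _) hdvd
    rw [hPm.natDegree_map] at hT2
    rw [hT2]
    -- the permutation of the roots
    have hperm : ∀ σ : Gal(N/F), ∃ (σb : N₀ →+* N₀) (s : Ω → Ω), (∀ x : L₀, σb (x : N₀) = (x : N₀)) ∧
        ∀ i, (θN i).map (σ : N →+* N) = θN (s i) ∧ (θ' i).map σb = θ' (s i) := by
      intro σ
      obtain ⟨τ, σb, hτ, hσb⟩ := hσ σ
      have hτψ : τ.comp ψ = ψ := by
        ext r
        show ((τ (ψ r) : B) : N) = ρ r
        rw [hτ]
        exact σ.commutes (algebraMap R F r)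
      have hσL : ∀ x : L₀, σb (x : N₀) = (x : N₀) := by
        intro x
        have h3 : (IntermediateField.adjoin ℚ (Set.range (π.comp ψ))) ≤
            (AlgHom.equalizer (σb.toRatAlgHom) (AlgHom.id ℚ N₀)).toIntermediateField (by
              intro y hy
              rw [AlgHom.mem_equalizer] at hy ⊢
              rw [map_inv₀, map_inv₀, hy]) := by
          rw [IntermediateField.adjoin_le_iff]
          rintro _ ⟨r, rfl⟩
          show σb (π (ψ r)) = π (ψ r)
          rw [hσb]
          exact congrArg π (RingHom.congr_fun hτψ r)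
        exact h3 x.2
      have hex : ∀ i, ∃ i', (θB i).map τ = θB i' := by
        intro i
        have h2 : (∏ i, (X - C (θB i)) : B[X][X]).eval ((θB i).map τ) = 0 := by
          have h3 := map_root τ (∏ i, (X - C (θB i)) : B[X][X]) (θB i)
          rw [eval_prod_lin, Polynomial.map_zero] at h3
          have h4 : (∏ i, (X - C (θB i)) : B[X][X]).map (mapRingHom τ) = ∏ i, (X - C (θB i)) := by
            rw [← hfB, Polynomial.map_map, mapRingHom_comp, hτψ]
          rw [h4] at h3
          exact h3.symm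
        exact root_of_prod θB _ h2
      choose s hs using hex
      refine ⟨σb, s, hσL, fun i => ⟨?_, ?_⟩⟩
      · rw [← hθB i, ← hθB (s i), ← hs i, Polynomial.map_map, Polynomial.map_map]
        congr 1
        ext x
        exact (hτ x).symm
      · show ((θB i).map π).map σb = (θB (s i)).map π
        rw [← hs i, Polynomial.map_map, Polynomial.map_map]
        congr 1
        ext x
        exact hσb x
    choose σb s hσL hs using hperm
    have hθNinj : Function.Injective θN := by
      intro i j hij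
      by_contra hne
      apply hsepB i j hne
      have h1 : θB i = θB j := by
        apply Polynomial.map_injective _ B.subtype_injective
        rw [hθB, hθB, hij]
      rw [h1, sub_self]
    have hsinj : ∀ σ, Function.Injective (s σ) := by
      intro σ i j hij
      apply hθNinj
      have h1 := (hs σ i).1
      rw [hij, ← (hs σ j).1] at h1
      exact Polynomial.map_injective _ (σ : N ≃+* N).injective h1
    let s' : Gal(N/F) → Ω ≃ Ω := fun σ =>
      Equiv.ofBijective (s σ) (Finite.injective_iff_bijective.1 (hsinj σ))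
    have hTst : ∀ σ, ∀ i ∈ T, s' σ i ∈ T := by
      intro σ i hi
      rw [hT1] at hi ⊢
      have h1 : (P.map g₀).map (mapRingHom (σb σ)) = P.map g₀ := by
        rw [Polynomial.map_map]
        congr 1
        show (mapRingHom (σb σ)).comp (mapRingHom (algebraMap L₀ N₀)) = _
        rw [mapRingHom_comp]
        congr 1
        ext x
        exact hσL σ x
      have h2 := map_root (σb σ) (P.map g₀) (θ' i)
      rw [hi, Polynomial.map_zero, h1, (hs σ i).2] at h2
      exact h2.symm
    obtain ⟨Q, hQ1, hQ2, hQ3⟩ := lift_prod (f.map (mapRingHom (algebraMap R F))) θN (by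
      rw [Polynomial.map_map, mapRingHom_comp]
      exact hfN) s' (fun σ i => (hs σ i).1) T hTst
    rw [← hQ3]
    exact hno Q hQ1 hQ2

end Run7.h846
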