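import Pool.Agent.Run7.h846.SecLoc
import Pool.Agent.Run7.h846.Nf3
import Pool.Agent.W623.SecE.Glb

/-!
# The obstruction excludes points and sections
-/

set_option autoImplicit false

namespace Run7.h846

open Pool.Agent.W620.SC Pool.Agent.W623.SecC Pool.Agent.W623.SecE Polynomial
  NumberField IsDedekindDomain

universe v w

theorem obs_noPoint {q : ℕ} (hq : q ≠ 0) {L : Type} [Field L] {t : L} {g : L[X]} (h : Obs q L t g)
    (x y : L) : t * y ^ q ≠ g.eval x := by
  classical
  obtain ⟨-, ht0, X, _, E, _, _, j, Θ, Good, hg, hΘinj, hqn, h3, hnr, hGood, H⟩ := h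
  intro hxy
  have hne : Nonempty X := Fintype.card_pos_iff.1 (by omega)
  have hEq : j t * (j y) ^ q = ∏ i, (j x - Θ i) := by
    have h1 : j (g.eval x) = (g.map j).eval (j x) := by
      rw [eval_map, eval₂_at_apply]
    rw [← map_pow, ← map_mul, hxy, h1, hg, eval_prod]
    refine Finset.prod_congr rfl fun i _ => ?_
    rw [eval_sub, eval_X, eval_C]
  have hz : ∀ i, j x - Θ i ≠ 0 := fun i hi => hnr x i (sub_eq_zero.1 hi)
  have hjt0 : j t ≠ 0 := (_root_.map_ne_zero j).2 ht0
  have hy0 : j y ≠ 0 := by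
    intro h
    rw [h, zero_pow hq, mul_zero] at hEq
    obtain ⟨i, _, hi⟩ := Finset.prod_eq_zero_iff.1 hEq.symm
    exact hz i hi
  refine H (fun i => j x - Θ i) hz ?_ ?_
  · intro W hW
    apply loc W q hqn Θ _ (j t) (j x) (j y) hjt0 hy0 hz hEq
    intro i i' hii'
    have h1 := (hGood W hW).2 i i' hii'
    refine ⟨fun h => ?_, ?_⟩
    · rw [h, map_zero] at h1
      exact zero_ne_one h1
    · unfold ord
      rw [h1, WithZero.log_one, neg_zero]
  · intro σ s hσ hs i i'
    refine ⟨1, one_ne_zero, ?_⟩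
    show σ (j x - Θ i) * (j x - Θ (s i')) = σ (j x - Θ i') * (j x - Θ (s i)) * 1 ^ q
    rw [map_sub, map_sub, hσ, hs, hs, one_pow, mul_one, mul_comm]

/-- elements of `F` which are algebraic over `L` are in `L` if there is a section -/
lemma alg_mem_base_N {L : Type} [Field L] [CharZero L]
    {F : Type v} {Ω : Type w} [Field F] [Field Ω] [Algebra L F] [Algebra F Ω] [Algebra L Ω]
    [IsScalarTower L F Ω] [IsAlgClosed Ω] {N : IntermediateField F Ω}
    (G : NSec L N) (z : F) (hz : IsAlgebraic L z) : ∃ c : L, algebraMap L F c = z := by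
  have hac : IsAlgClosure L (algebraicClosure L Ω) := inferInstance
  have : Normal L (algebraicClosure L Ω) := IsAlgClosure.normal L _
  have hGal : IsGalois L (algebraicClosure L Ω) := ⟨⟩
  have h1 : IsIntegral L (algebraMap F Ω z) := by
    have h2 : IsIntegral L z := isAlgebraic_iff_isIntegral.1 hz
    exact h2.map (IsScalarTower.toAlgHom L F Ω)
  set b : algebraicClosure L Ω := ⟨algebraMap F Ω z, h1⟩ with hb
  have h2 : b ∈ (⊥ : IntermediateField L (algebraicClosure L Ω)) := by
    apply mem_of_fixed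
    intro σ _
    apply Subtype.ext
    rw [← G.compat σ b (algebraMap F N z) rfl, (G.toHom σ).commutes]
    rfl
  obtain ⟨c, hc⟩ := IntermediateField.mem_bot.1 h2
  refine ⟨c, (algebraMap F Ω).injective ?_⟩
  rw [← IsScalarTower.algebraMap_apply]
  exact congrArg Subtype.val hc

lemma secpt_N {L : Type} [Field L] [CharZero L]
    {F : Type v} {Ω : Type w} [Field F] [Field Ω] [Algebra L F] [Algebra F Ω] [Algebra L Ω]
    [IsScalarTower L F Ω] [IsAlgClosed Ω] {N : IntermediateField F Ω}
    (G : NSec L N) (f : L[X]) (a : L) (ha : a ≠ 0) (x y : F)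
    (hxy : algebraMap L F a * y ^ 2 = aeval x f) (hx : ¬ Transcendental L x) :
    ∃ x' y' : L, a * y' ^ 2 = f.eval x' := by
  rw [Transcendental, not_not] at hx
  obtain ⟨x', rfl⟩ := alg_mem_base_N G x hx
  have h1 : y ^ 2 = algebraMap L F (f.eval x' / a) := by
    rw [aeval_algebraMap_apply, aeval_def, Algebra.algebraMap_self, eval₂_id] at hxy
    rw [map_div₀, eq_div_iff ((_root_.map_ne_zero _).2 ha)]
    linear_combination hxy
  have hy : IsAlgebraic L y := by
    apply IsAlgebraic.of_pow (n := 2) (by norm_num)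
    rw [h1]
    exact isAlgebraic_algebraMap _
  obtain ⟨y', rfl⟩ := alg_mem_base_N G y hy
  refine ⟨x', y', (algebraMap L F).injective ?_⟩
  rw [map_mul, map_pow, hxy, aeval_algebraMap_apply, aeval_def, Algebra.algebraMap_self, eval₂_id]

theorem obs_noSection {L : Type} [Field L] [NumberField L] {t : L} {g : L[X]} (h : Obs 2 L t g)
    {F : Type v} {Ω : Type w} [Field F] [Field Ω] [Algebra L F] [Algebra F Ω] [Algebra L Ω]
    [IsScalarTower L F Ω] [IsAlgClosed Ω] [Algebra.IsAlgebraic F Ω]
    (U : Set (ValuationSubring F)) (hU : ∀ O ∈ U, ∀ c : L, algebraMap L F c ∈ O)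
    {N : IntermediateField F Ω} (hN : Adm L U N) (G : NSec L N) (x y : F) : algebraMap L F t * y ^ 2 ≠ aeval x g := by
  classical
  intro hxy
  by_cases hx : Transcendental L x
  swap
  · obtain ⟨x', y', h1⟩ := secpt_N G g t h.2.1 x y hxy hx
    exact obs_noPoint two_ne_zero h x' y' h1
  obtain ⟨-, ht0, X, _, E, _, _, j, Θ, Good, hg, hΘinj, hqn, h3, hnr, hGood, H⟩ := h
  have hXev : Even (Fintype.card X) := even_iff_two_dvd.2 hqn
  have hX4 : 4 ≤ Fintype.card X := by
    obtain ⟨m, hm⟩ := hXev
    omega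
  have hne : Nonempty X := Fintype.card_pos_iff.1 (by omega)
  obtain ⟨i₀⟩ := hne
  -- `E` inside the algebraic closure of `L`
  let _ : Algebra L E := j.toAlgebra
  have hj : ∀ z : L, algebraMap L E z = j z := fun _ => rfl
  have hLQ : IsScalarTower ℚ L E := IsScalarTower.of_algebraMap_eq fun z => by
    rw [hj, eq_ratCast, eq_ratCast, map_ratCast]
  have hLE : Algebra.IsAlgebraic L E := Algebra.IsAlgebraic.tower_top (K := ℚ) L
  have hac : IsAlgClosure L (algebraicClosure L Ω) := inferInstance
  have hkb : IsAlgClosed (algebraicClosure L Ω) := hac.1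
  let ι : E →ₐ[L] algebraicClosure L Ω := IsAlgClosed.lift
  let _ : Algebra E (algebraicClosure L Ω) := (ι : E →+* algebraicClosure L Ω).toAlgebra
  have hι : ∀ z : E, algebraMap E (algebraicClosure L Ω) z = ι z := fun _ => rfl
  have htow : IsScalarTower L E (algebraicClosure L Ω) := IsScalarTower.of_algebraMap_eq fun z => by
    rw [hι, ι.commutes]
  have htr := tr_const (k := L) (Ω := Ω) hx
  have hg0 : g ≠ 0 := by
    rintro rfl
    rw [Polynomial.map_zero] at hg
    have h1 : (∏ i, (Polynomial.X - C (Θ i)) : E[X]).Monic := monic_prod_of_monic _ _ fun i _ => monic_X_sub_C _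
    rw [← hg] at h1
    exact h1.ne_zero rfl
  have hfx0 : aeval x g ≠ 0 := fun h => hg0 ((transcendental_iff.1 hx) g h)
  have hy0 : y ≠ 0 := by
    rintro rfl
    rw [zero_pow (by norm_num), mul_zero] at hxy
    exact hfx0 hxy.symm
  -- the equation in terms of the roots
  have hxyΩ : ((algebraMap E (algebraicClosure L Ω) (j t) : algebraicClosure L Ω) : Ω) *
      algebraMap F Ω y ^ 2 = ∏ i, (algebraMap F Ω x -
        ((algebraMap E (algebraicClosure L Ω) (Θ i) : algebraicClosure L Ω) : Ω)) := by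
    have h1 : ((algebraMap E (algebraicClosure L Ω) (j t) : algebraicClosure L Ω) : Ω) =
        algebraMap F Ω (algebraMap L F t) := by
      rw [← hj, ← IsScalarTower.algebraMap_apply L E (algebraicClosure L Ω),
        ← IsScalarTower.algebraMap_apply L F Ω]
      rfl
    rw [h1, ← map_pow, ← map_mul, hxy]
    let η : E →+* Ω := (algebraMap (algebraicClosure L Ω) Ω).comp (algebraMap E (algebraicClosure L Ω))
    have h2 : algebraMap F Ω (aeval x g) = (g.map j).eval₂ η (algebraMap F Ω x) := by
      rw [aeval_def, hom_eval₂, eval₂_map]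
      congr 1
      ext z
      show algebraMap F Ω (algebraMap L F z) = algebraMap (algebraicClosure L Ω) Ω
        (algebraMap E (algebraicClosure L Ω) (j z))
      rw [← hj, ← IsScalarTower.algebraMap_apply L E (algebraicClosure L Ω),
        ← IsScalarTower.algebraMap_apply L F Ω]
      rfl
    rw [h2, hg, eval₂_finsetProd]
    refine Finset.prod_congr rfl fun i _ => ?_
    rw [eval₂_sub, eval₂_X, eval₂_C]
    rfl
  have hc0 : algebraMap E (algebraicClosure L Ω) (j t) ≠ 0 :=
    (_root_.map_ne_zero _).2 ((_root_.map_ne_zero j).2 ht0)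
  have hθinj : Function.Injective fun i => algebraMap E (algebraicClosure L Ω) (Θ i) :=
    (algebraMap E (algebraicClosure L Ω)).injective.comp hΘinj
  have hroot := fun i => ratio_root_N U hU hN (fun i => algebraMap E (algebraicClosure L Ω) (Θ i)) hθinj x y
    hy0 _ hc0 hxyΩ htr i i₀
  choose α hα using hroot
  have hneM : ∀ i, algebraMap F (N) x -
      cH hN (algebraMap E (algebraicClosure L Ω) (Θ i)) ≠ 0 := by
    intro i h
    refine htr (algebraMap E _ (Θ i)) ?_
    exact (congrArg (algebraMap (N) Ω) (sub_eq_zero.1 h)).symm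
  have hcls := fun i => exists_class (E := E) hN G _ (α i) (by
    intro σ
    rw [map_div₀, map_sub, map_sub, actE_const hN G, actE_const hN G, σ.commutes, σ.commutes]
    have h1 : actE G σ (algebraMap F (N) x) = algebraMap F (N) x :=
      (G.toHom (σ.restrictScalars L)).commutes x
    rw [h1]) (div_ne_zero (hneM i) (hneM i₀)) (hα i)
  choose κ β hκ0 hβ0 hβ hκβ using hcls
  refine H κ hκ0 ?_ ?_
  · intro W hW
    obtain ⟨h2W, hΘW⟩ := hGood W hW
    obtain ⟨r, hr⟩ := local_par U hU hN G hXev hX4 Θ (j t) ((_root_.map_ne_zero j).2 ht0) x y hy0 hxyΩ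
      htr i₀ κ β hκ0 hβ0 hβ hκβ W (by exact_mod_cast h2W) hΘW
    exact ⟨r, fun i hi => by exact_mod_cast hr i hi⟩
  · intro σ s hσ hs i i'
    exact class_conj hN G Θ x htr i₀ κ β hκ0 hβ0 hβ hκβ σ s hσ hs i i'

end Run7.h846
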