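import Pool.Agent.Run7.h846.Idx

/-!
# Spreading out points of degree prime to `q`
-/

set_option autoImplicit false

namespace Run7.h846

open Polynomial Module

/-- common denominators -/
lemma common_den (S Q : Type*) [CommRing S] [IsDomain S] [Field Q] [Algebra S Q] [IsFractionRing S Q]
    (l : List Q[X]) : ∃ z : S, z ≠ 0 ∧ ∀ P ∈ l, ∀ n, ∃ a : S, algebraMap S Q a = algebraMap S Q z * P.coeff n := by
  classical
  induction l with
  | nil => exact ⟨1, one_ne_zero, fun P hP => by simp at hP⟩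
  | cons P l ih =>
    obtain ⟨z, hz0, hz⟩ := ih
    obtain ⟨⟨b, hb⟩, hbP⟩ := IsLocalization.exist_integer_multiples (nonZeroDivisors S) P.support
      (fun i => P.coeff i)
    have hb0 : b ≠ 0 := nonZeroDivisors.ne_zero hb
    refine ⟨z * b, mul_ne_zero hz0 hb0, ?_⟩
    intro P' hP' n
    rw [List.mem_cons] at hP'
    rcases hP' with rfl | hP'
    · by_cases hn : n ∈ P'.support
      · obtain ⟨a, ha⟩ := hbP n hn
        refine ⟨z * a, ?_⟩
        rw [map_mul, ha, map_mul, mul_assoc]
        congr 1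
        exact Algebra.smul_def b _
      · rw [notMem_support_iff.1 hn, mul_zero]
        exact ⟨0, map_zero _⟩
    · obtain ⟨a, ha⟩ := hz P' hP' n
      refine ⟨b * a, ?_⟩
      rw [map_mul, ha, map_mul]
      ring

/-- spreading out a polynomial identity over the fraction field -/
theorem spread (q : ℕ) (S Q : Type) [CommRing S] [IsDomain S] [Field Q] [Algebra S Q]
    [IsFractionRing S Q] (μ : Q[X]) (hμ : μ.Monic) (hq : ¬ q ∣ μ.natDegree) (l : List Q[X]) :
    ∃ z : S, z ≠ 0 ∧ ∀ (L : Type) [Field L] (ev : S →+* L), ev z ≠ 0 →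
      ∃ (Sz : Type) (_ : CommRing Sz) (_ : Algebra S Sz) (ι : Sz →+* Q) (ψ : Sz →+* L),
        Function.Injective ι ∧ ι.comp (algebraMap S Sz) = algebraMap S Q ∧
        ψ.comp (algebraMap S Sz) = ev ∧ (∀ P ∈ l, ∃ P' : Sz[X], P'.map ι = P) ∧
        ∃ (μ' : Sz[X]) (r : L[X]), μ'.map ι = μ ∧ Irreducible r ∧ r ∣ μ'.map ψ ∧ ¬ q ∣ r.natDegree := by
  classical
  obtain ⟨z, hz0, hz⟩ := common_den S Q (μ :: l)
  refine ⟨z, hz0, ?_⟩
  intro L _ ev hev
  let Sz := Localization.Away z
  have hle : Submonoid.powers z ≤ nonZeroDivisors S := powers_le_nonZeroDivisors_of_noZeroDivisors hz0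
  have hunit : IsUnit (algebraMap S Q z) := by
    rw [isUnit_iff_ne_zero, Ne, IsFractionRing.to_map_eq_zero_iff]
    exact hz0
  let ι : Sz →+* Q := IsLocalization.Away.lift z hunit
  have hι : ι.comp (algebraMap S Sz) = algebraMap S Q := IsLocalization.Away.lift_comp z hunit
  let ψ : Sz →+* L := IsLocalization.Away.lift z (isUnit_iff_ne_zero.2 hev)
  have hψ : ψ.comp (algebraMap S Sz) = ev := IsLocalization.Away.lift_comp z _
  have hinj : Function.Injective ι := by
    rw [injective_iff_map_eq_zero]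
    intro a ha
    obtain ⟨n, s, hs⟩ := IsLocalization.Away.surj z a
    have h1 := congrArg ι hs
    rw [map_mul, ha, zero_mul] at h1
    have h2 : algebraMap S Q s = 0 := by
      rw [← hι]
      exact h1.symm
    rw [IsFractionRing.to_map_eq_zero_iff] at h2
    rw [h2, map_zero] at hs
    have h3 : IsUnit (algebraMap S Sz z ^ n) := (IsLocalization.Away.algebraMap_isUnit z).pow n
    exact (h3.mul_left_eq_zero).1 hs
  have hlift : ∀ P ∈ μ :: l, ∃ P' : Sz[X], P'.map ι = P := by
    intro P hP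
    have h1 : P ∈ lifts ι := by
      rw [lifts_iff_coeff_lifts]
      intro n
      obtain ⟨a, ha⟩ := hz P hP n
      have hu : IsUnit (algebraMap S Sz z) := IsLocalization.Away.algebraMap_isUnit z
      obtain ⟨u, hu⟩ := hu
      refine ⟨algebraMap S Sz a * ((u⁻¹ : Szˣ) : Sz), ?_⟩
      have h2 : ι (algebraMap S Sz z) = algebraMap S Q z := RingHom.congr_fun hι z
      have h3 : ι (algebraMap S Sz a) = algebraMap S Q a := RingHom.congr_fun hι a
      have h4 : algebraMap S Q z * ι ((u⁻¹ : Szˣ) : Sz) = 1 := by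
        rw [← h2, ← hu, ← map_mul, Units.mul_inv, map_one]
      rw [map_mul, h3, ha]
      linear_combination P.coeff n * h4
    exact (mem_lifts _).1 h1
  obtain ⟨μ', hμ'⟩ := hlift μ (by simp)
  have hμ'm : μ'.Monic := by
    have h1 := leadingCoeff_map_of_injective hinj (p := μ')
    rw [hμ', hμ.leadingCoeff] at h1
    apply hinj
    rw [← h1, map_one]
  have hdeg : (μ'.map ψ).natDegree = μ.natDegree := by
    rw [hμ'm.natDegree_map, ← hμ', hμ'm.natDegree_map]
  obtain ⟨r, hr1, hr2, hr3⟩ := exists_irred q _ (μ'.map ψ) rfl (hμ'm.map ψ).ne_zero (by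
    rw [hdeg]
    exact hq)
  exact ⟨Sz, inferInstance, inferInstance, ι, ψ, hinj, hι, hψ,
    fun P hP => hlift P (List.mem_cons_of_mem _ hP), μ', r, hμ', hr1, hr2, hr3⟩

/-- a point of degree prime to `q` of the generic fibre gives such points of almost all fibres -/
theorem spread_point (q : ℕ) (S Q : Type) [CommRing S] [IsDomain S] [Field Q] [CharZero Q]
    [Algebra S Q] [IsFractionRing S Q] (t : S) (g : S[X]) (E : Type) [Field E] [Algebra Q E]
    [FiniteDimensional Q E] (hE : ¬ q ∣ finrank Q E)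
    (hP : (∃ x y : E, algebraMap Q E (algebraMap S Q t) * y ^ q =
      ((g.map (algebraMap S Q)).map (algebraMap Q E)).eval x) ∨
      ∃ u : E, algebraMap Q E (algebraMap S Q t) * u ^ q = 1) :
    ∃ z : S, z ≠ 0 ∧ ∀ (L : Type) [Field L] (ev : S →+* L), ev z ≠ 0 →
      ∃ (L' : Type) (_ : Field L') (_ : Algebra L L') (_ : FiniteDimensional L L'),
        ¬ q ∣ finrank L L' ∧ ((∃ x y : L', algebraMap L L' (ev t) * y ^ q =
          ((g.map ev).map (algebraMap L L')).eval x) ∨
          ∃ u : L', algebraMap L L' (ev t) * u ^ q = 1) := by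
  classical
  let pb := Field.powerBasisOfFiniteOfSeparable Q E
  let α := pb.gen
  let μ := minpoly Q α
  have hαint : IsIntegral Q α := Algebra.IsIntegral.isIntegral α
  have hμm : μ.Monic := minpoly.monic hαint
  have hμd : μ.natDegree = finrank Q E := by
    rw [pb.finrank]
    exact pb.natDegree_minpoly
  have hμq : ¬ q ∣ μ.natDegree := by
    rw [hμd]
    exact hE
  rcases hP with ⟨x, y, hxy⟩ | ⟨u, hu⟩
  · obtain ⟨X₀, hX₀⟩ := pb.exists_eq_aeval' x
    obtain ⟨Y₀, hY₀⟩ := pb.exists_eq_aeval' y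
    have hdvd : μ ∣ C (algebraMap S Q t) * Y₀ ^ q - (g.map (algebraMap S Q)).comp X₀ := by
      apply minpoly.dvd
      rw [map_sub, map_mul, map_pow, aeval_C, ← hY₀, hxy, aeval_comp, ← hX₀, eval_map, aeval_def,
        sub_self]
    obtain ⟨V, hV⟩ := hdvd
    obtain ⟨z, hz0, hz⟩ := spread q S Q μ hμm hμq [X₀, Y₀, V]
    refine ⟨z, hz0, fun L _ ev hev => ?_⟩
    obtain ⟨Sz, _, _, ι, ψ, hinj, hι, hψ, hl, μ', r, hμ', hr1, hr2, hr3⟩ := hz L ev hev
    obtain ⟨X', hX'⟩ := hl X₀ (by simp)
    obtain ⟨Y', hY'⟩ := hl Y₀ (by simp)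
    obtain ⟨V', hV'⟩ := hl V (by simp)
    have hid : C (algebraMap S Sz t) * Y' ^ q - (g.map (algebraMap S Sz)).comp X' = μ' * V' := by
      apply Polynomial.map_injective ι hinj
      rw [Polynomial.map_sub, Polynomial.map_mul, Polynomial.map_pow, map_C, Polynomial.map_comp,
        Polynomial.map_mul, hX', hY', hV', hμ', Polynomial.map_map, hι, ← hV]
      congr 3
      exact RingHom.congr_fun hι t
    have hid2 := congrArg (Polynomial.map ψ) hid
    rw [Polynomial.map_sub, Polynomial.map_mul, Polynomial.map_pow, map_C, Polynomial.map_comp,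
      Polynomial.map_mul, Polynomial.map_map, hψ] at hid2
    have hψt : ψ (algebraMap S Sz t) = ev t := RingHom.congr_fun hψ t
    rw [hψt] at hid2
    have : Fact (Irreducible r) := ⟨hr1⟩
    have hfin : FiniteDimensional L (AdjoinRoot r) := (AdjoinRoot.powerBasis hr1.ne_zero).finite
    refine ⟨AdjoinRoot r, inferInstance, inferInstance, hfin, ?_, Or.inl
      ⟨aeval (AdjoinRoot.root r) (X'.map ψ), aeval (AdjoinRoot.root r) (Y'.map ψ), ?_⟩⟩
    · rw [(AdjoinRoot.powerBasis hr1.ne_zero).finrank, AdjoinRoot.powerBasis_dim]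
      exact hr3
    · have h1 := congrArg (aeval (AdjoinRoot.root r)) hid2
      obtain ⟨w, hw⟩ := hr2
      have h2 : aeval (AdjoinRoot.root r) r = 0 := AdjoinRoot.aeval_eq r ▸ AdjoinRoot.mk_self
      rw [map_mul, hw, map_mul, h2, zero_mul, zero_mul, map_sub, map_mul, map_pow, aeval_C,
        aeval_comp, sub_eq_zero] at h1
      rw [h1, eval_map, aeval_def]
  · obtain ⟨U₀, hU₀⟩ := pb.exists_eq_aeval' u
    have hdvd : μ ∣ C (algebraMap S Q t) * U₀ ^ q - 1 := by
      apply minpoly.dvd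
      rw [map_sub, map_mul, map_pow, aeval_C, ← hU₀, hu, map_one, sub_self]
    obtain ⟨V, hV⟩ := hdvd
    obtain ⟨z, hz0, hz⟩ := spread q S Q μ hμm hμq [U₀, V]
    refine ⟨z, hz0, fun L _ ev hev => ?_⟩
    obtain ⟨Sz, _, _, ι, ψ, hinj, hι, hψ, hl, μ', r, hμ', hr1, hr2, hr3⟩ := hz L ev hev
    obtain ⟨U', hU'⟩ := hl U₀ (by simp)
    obtain ⟨V', hV'⟩ := hl V (by simp)
    have hid : C (algebraMap S Sz t) * U' ^ q - 1 = μ' * V' := by
      apply Polynomial.map_injective ι hinj
      rw [Polynomial.map_sub, Polynomial.map_mul, Polynomial.map_pow, map_C, Polynomial.map_one,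
        Polynomial.map_mul, hU', hV', hμ', ← hV]
      congr 3
      exact RingHom.congr_fun hι t
    have hid2 := congrArg (Polynomial.map ψ) hid
    rw [Polynomial.map_sub, Polynomial.map_mul, Polynomial.map_pow, map_C, Polynomial.map_one,
      Polynomial.map_mul] at hid2
    have hψt : ψ (algebraMap S Sz t) = ev t := RingHom.congr_fun hψ t
    rw [hψt] at hid2
    have : Fact (Irreducible r) := ⟨hr1⟩
    have hfin : FiniteDimensional L (AdjoinRoot r) := (AdjoinRoot.powerBasis hr1.ne_zero).finite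
    refine ⟨AdjoinRoot r, inferInstance, inferInstance, hfin, ?_, Or.inr
      ⟨aeval (AdjoinRoot.root r) (U'.map ψ), ?_⟩⟩
    · rw [(AdjoinRoot.powerBasis hr1.ne_zero).finrank, AdjoinRoot.powerBasis_dim]
      exact hr3
    · have h1 := congrArg (aeval (AdjoinRoot.root r)) hid2
      obtain ⟨w, hw⟩ := hr2
      have h2 : aeval (AdjoinRoot.root r) r = 0 := AdjoinRoot.aeval_eq r ▸ AdjoinRoot.mk_self
      rw [map_mul, hw, map_mul, h2, zero_mul, zero_mul, map_sub, map_mul, map_pow, aeval_C,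
        map_one, sub_eq_zero] at h1
      exact h1

end Run7.h846
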