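import Pool.Agent.Run7.h846.Nf2
import Pool.Agent.Run7.h846.Nf3

/-!
# The theorem over a number field, in terms of classes
-/

set_option autoImplicit false

namespace Run7.h846

open NumberField Polynomial

theorem nf2S {K N : Type} [Field K] [NumberField K] [Field N] [NumberField N] [Algebra K N]
    (q : ℕ) (hq : q.Prime) (Ω : Type) [Fintype Ω] (h3 : 3 ≤ Fintype.card Ω)
    (hqn : q ∣ Fintype.card Ω) (θ : Ω → N[X]) (f : K[X][X])
    (hf : f.map (mapRingHom (algebraMap K N)) = ∏ i, (X - C (θ i)))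
    (hsep : ∀ i j, i ≠ j → (θ i).eval 0 ≠ (θ j).eval 0) (h₁ z₁ : K[X]) (hh : h₁.eval 0 ≠ 0)
    (hz : z₁.eval 0 ≠ 0) (e : ℕ) (he : ¬ q ∣ e) (hno : ∀ η : K[X], f.eval η ≠ 0) :
    ∃ (L : Type) (_ : Field L) (_ : NumberField L) (_ : Algebra K L) (s₀ : L),
      s₀ ≠ 0 ∧ z₁.eval₂ (algebraMap K L) s₀ ≠ 0 ∧
      Obs q L (s₀ ^ e * h₁.eval₂ (algebraMap K L) s₀)
        (f.map (eval₂RingHom (algebraMap K L) s₀)) := by
  classical
  obtain ⟨M, _, _, _, hGal, hspl⟩ := exists_galois N (X ^ q - C (1 : N))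
  -- a primitive root of unity
  have hζ : ∃ ζ : M, IsPrimitiveRoot ζ q := by
    have : NeZero q := ⟨hq.ne_zero⟩
    rw [Polynomial.map_sub, Polynomial.map_pow, map_X, C_1, Polynomial.map_one] at hspl
    have h1 : ((cyclotomic q M)).Splits := by
      have h2 : cyclotomic q M ∣ X ^ q - 1 := cyclotomic.dvd_X_pow_sub_one q M
      refine Splits.of_dvd hspl ?_ h2
      have := (monic_X_pow_sub_C (1 : M) hq.ne_zero).ne_zero
      rwa [C_1] at this
    have h2 : (cyclotomic q M).degree ≠ 0 := by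
      rw [degree_cyclotomic]
      have := Nat.totient_pos.2 hq.pos
      intro h
      have h4 : q.totient = 0 := by exact_mod_cast h
      omega
    obtain ⟨ζ, hζ⟩ := h1.exists_eval_eq_zero h2
    exact ⟨ζ, (isRoot_cyclotomic_iff).1 hζ⟩
  obtain ⟨ζ, hζ⟩ := hζ
  let algKM : Algebra K M := ((algebraMap N M).comp (algebraMap K N)).toAlgebra
  have htow : IsScalarTower K N M := IsScalarTower.of_algebraMap_eq fun x => rfl
  have hGalK : IsGalois K M := IsGalois.tower_top_of_isGalois ℚ K M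
  let Θ : Ω → M[X] := fun i => (θ i).map (algebraMap N M)
  have hfM : f.map (mapRingHom (algebraMap K M)) = ∏ i, (X - C (Θ i)) := by
    have h1 : mapRingHom (algebraMap K M) =
        (mapRingHom (algebraMap N M)).comp (mapRingHom (algebraMap K N)) := by
      rw [mapRingHom_comp]
      rfl
    rw [h1, ← Polynomial.map_map, hf, Polynomial.map_prod]
    refine Finset.prod_congr rfl fun i _ => ?_
    rw [Polynomial.map_sub, map_X, map_C]
    rfl
  have hsepM : ∀ i j, i ≠ j → (Θ i).eval 0 ≠ (Θ j).eval 0 := by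
    intro i j hij h
    apply hsep i j hij
    have h1 : ∀ k, (Θ k).eval 0 = algebraMap N M ((θ k).eval 0) := by
      intro k
      show ((θ k).map (algebraMap N M)).eval 0 = _
      rw [eval_map, eval₂_at_zero, coeff_zero_eq_eval_zero]
    rw [h1, h1] at h
    exact (algebraMap N M).injective h
  have hΘinj : Function.Injective Θ := by
    intro i j hij
    by_contra hne
    exact hsepM i j hne (by rw [hij])
  -- the action on the roots
  have hact : ∀ (σ : Gal(M/K)) (i : Ω), ∃ i' : Ω, (Θ i).map (σ : M →+* M) = Θ i' := by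
    intro σ i
    apply root_of_prod
    rw [← hfM]
    have h1 : (mapRingHom (σ : M →+* M)).comp (mapRingHom (algebraMap K M)) =
        mapRingHom (algebraMap K M) := by
      rw [mapRingHom_comp]
      congr 1
      ext x
      exact σ.commutes x
    have h2 : (f.map (mapRingHom (algebraMap K M))).eval ((Θ i).map (σ : M →+* M)) =
        mapRingHom (σ : M →+* M) ((f.map (mapRingHom (algebraMap K M))).eval (Θ i)) := by
      rw [eval_map, eval_map, hom_eval₂, h1]
      rfl
    rw [h2, hfM]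
    have h4 : (∏ i, (X - C (Θ i)) : M[X][X]).eval (Θ i) = 0 := by
      rw [eval_prod]
      apply Finset.prod_eq_zero (Finset.mem_univ i)
      rw [eval_sub, eval_X, eval_C, sub_self]
    rw [h4, map_zero]
  choose s0 hs0 using hact
  have hs0inj : ∀ σ, Function.Injective (s0 σ) := by
    intro σ i j hij
    apply hΘinj
    have h1 := hs0 σ i
    rw [hij, ← hs0 σ j] at h1
    exact Polynomial.map_injective _ (σ : M ≃+* M).injective h1
  let s : Gal(M/K) → Ω ≃ Ω := fun σ => Equiv.ofBijective (s0 σ) (Finite.injective_iff_bijective.1 (hs0inj σ))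
  have hs : ∀ (σ : Gal(M/K)) (i : Ω), (Θ i).map (σ : M →+* M) = Θ (s σ i) := hs0
  -- the discriminant
  let Q : M[X] := ∏ p ∈ (Finset.univ : Finset (Ω × Ω)).filter (fun p => p.1 ≠ p.2), (Θ p.1 - Θ p.2)
  have hQfix : ∀ σ : Gal(M/K), Q.map (σ : M →+* M) = Q := by
    intro σ
    show (∏ p ∈ (Finset.univ : Finset (Ω × Ω)).filter (fun p => p.1 ≠ p.2),
      (Θ p.1 - Θ p.2)).map (σ : M →+* M) = _
    rw [Polynomial.map_prod]
    refine Finset.prod_bij' (fun p _ => (s σ p.1, s σ p.2)) (fun p _ => ((s σ).symm p.1, (s σ).symm p.2))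
      ?_ ?_ ?_ ?_ ?_
    · intro p hp
      rw [Finset.mem_filter] at hp ⊢
      exact ⟨Finset.mem_univ _, fun h => hp.2 ((s σ).injective h)⟩
    · intro p hp
      rw [Finset.mem_filter] at hp ⊢
      exact ⟨Finset.mem_univ _, fun h => hp.2 ((s σ).symm.injective h)⟩
    · intro p _
      simp
    · intro p _
      simp
    · intro p _
      rw [Polynomial.map_sub, hs, hs]
  have hQlift : ∃ Q' : K[X], Q'.map (algebraMap K M) = Q := by
    have h1 : Q ∈ lifts (algebraMap K M) := by
      rw [lifts_iff_coeff_lifts]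
      intro n
      rw [IsGalois.mem_range_algebraMap_iff_fixed]
      intro σ
      have h2 := congrArg (fun P => coeff P n) (hQfix σ)
      beta_reduce at h2
      rw [coeff_map] at h2
      exact h2
    exact (mem_lifts _).1 h1
  obtain ⟨Q', hQ'⟩ := hQlift
  have hQ'0 : Q'.eval 0 ≠ 0 := by
    intro h
    have h1 : Q.eval 0 = 0 := by
      rw [← hQ', eval_map, eval₂_at_zero, coeff_zero_eq_eval_zero, h, map_zero]
    have h2 : Q.eval 0 = ∏ p ∈ (Finset.univ : Finset (Ω × Ω)).filter (fun p => p.1 ≠ p.2),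
      ((Θ p.1).eval 0 - (Θ p.2).eval 0) := by
      show (∏ p ∈ (Finset.univ : Finset (Ω × Ω)).filter (fun p => p.1 ≠ p.2),
        (Θ p.1 - Θ p.2)).eval 0 = _
      rw [eval_prod]
      refine Finset.prod_congr rfl fun p _ => ?_
      rw [eval_sub]
    rw [h2] at h1
    obtain ⟨p, hp, hp0⟩ := Finset.prod_eq_zero_iff.1 h1
    rw [Finset.mem_filter] at hp
    exact hsepM _ _ hp.2 (sub_eq_zero.1 hp0)
  let D : K[X] := Q' * (h₁ * z₁)
  have hD0 : D.eval 0 ≠ 0 := by
    show (Q' * (h₁ * z₁)).eval 0 ≠ 0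
    rw [eval_mul, eval_mul]
    exact mul_ne_zero hQ'0 (mul_ne_zero hh hz)
  have hΘD : ∀ i j, i ≠ j → (Θ i - Θ j) ∣ D.map (algebraMap K M) := by
    intro i j hij
    have hmem : (i, j) ∈ (Finset.univ : Finset (Ω × Ω)).filter (fun p => p.1 ≠ p.2) := by
      rw [Finset.mem_filter]
      exact ⟨Finset.mem_univ _, hij⟩
    have hdvd' := Finset.dvd_prod_of_mem (a := (i, j)) (fun p : Ω × Ω => Θ p.1 - Θ p.2) hmem
    have hdvd : Θ i - Θ j ∣ Q := hdvd'
    have hD' : D.map (algebraMap K M) = Q * (h₁ * z₁).map (algebraMap K M) := by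
      rw [← hQ', ← Polynomial.map_mul]
    rw [hD']
    exact hdvd.mul_right _
  have hhD : h₁ ∣ D := (Dvd.intro _ rfl : h₁ ∣ h₁ * z₁).mul_left _
  rcases nfG q hq ζ hζ Ω h3 hqn Θ f hfM s hs D hD0 hΘD h₁ hhD e he with h | h
  · exfalso
    obtain ⟨θ₀, hθ₀⟩ := h
    have h1 : Θ θ₀ ∈ lifts (algebraMap K M) := by
      rw [lifts_iff_coeff_lifts]
      intro n
      rw [IsGalois.mem_range_algebraMap_iff_fixed]
      intro σ
      have h2 := congrArg (fun P => coeff P n) (hs σ θ₀)
      beta_reduce at h2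
      rw [coeff_map, hθ₀] at h2
      exact h2
    obtain ⟨η, hη⟩ := (mem_lifts _).1 h1
    apply hno η
    have h2 : Function.Injective (mapRingHom (algebraMap K M)) :=
      Polynomial.map_injective _ (algebraMap K M).injective
    have h8 : mapRingHom (algebraMap K M) (f.eval η) =
        (f.map (mapRingHom (algebraMap K M))).eval (mapRingHom (algebraMap K M) η) := by
      rw [eval_map, eval₂_at_apply]
    have h9 : (∏ i, (X - C (Θ i)) : M[X][X]).eval (Θ θ₀) = 0 := by
      rw [eval_prod]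
      apply Finset.prod_eq_zero (Finset.mem_univ θ₀)
      rw [eval_sub, eval_X, eval_C, sub_self]
    have h10 : mapRingHom (algebraMap K M) η = Θ θ₀ := hη
    have h11 : mapRingHom (algebraMap K M) (f.eval η) = 0 := by
      rw [h8, h10, hfM]
      exact h9
    exact h2 (h11.trans (map_zero _).symm)
  · obtain ⟨L, iL1, iL2, iL3, s₀, hs₀, hDs, h5⟩ := h
    refine ⟨L, iL1, iL2, iL3, s₀, hs₀, ?_, h5⟩
    intro h7
    apply hDs
    show (Q' * (h₁ * z₁)).eval₂ (algebraMap K L) s₀ = 0
    rw [eval₂_mul, eval₂_mul, h7, mul_zero, mul_zero]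

end Run7.h846
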