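import Pool.Agent.Run7.h846.Main
import Pool.Agent.Run7.h846.Nf2S

/-!
# The theorem over a finitely generated domain, in terms of classes
-/

set_option autoImplicit false

namespace Run7.h846

open Polynomial NumberField

theorem mainS (K : Type) [Field K] [NumberField K] (R : Type) [CommRing R] [IsDomain R] [Algebra K R]
    [Algebra.FiniteType K R] (q : ℕ) (hq : q.Prime) (h : R[X]) (f : R[X][X])
    (hf : f.Monic) (hn : 3 ≤ f.natDegree) (hqn : q ∣ f.natDegree)
    (hsplit : (f.map (mapRingHom (algebraMap R (AlgebraicClosure (FractionRing R))))).Splits)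
    (c : R) (hh : h ≠ 0) (hc : ¬ q ∣ h.rootMultiplicity c)
    (hsep : ((f.map (evalRingHom c)).map (algebraMap R (FractionRing R))).Separable) (z : R[X])
    (hz : z ≠ 0)
    (hno : ∀ θ : (FractionRing R)[X],
      (f.map (mapRingHom (algebraMap R (FractionRing R)))).eval θ ≠ 0) :
    ∃ (L : Type) (_ : Field L) (_ : NumberField L) (_ : Algebra K L) (_ : FiniteDimensional K L)
      (φ : R →ₐ[K] L) (s : L), z.eval₂ (φ : R →+* L) s ≠ 0 ∧
      Obs q L (h.eval₂ (φ : R →+* L) s) (f.map (eval₂RingHom (φ : R →+* L) s)) := by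
  classical
  let _ : Algebra ℚ R := ((algebraMap K R).comp (algebraMap ℚ K)).toAlgebra
  have : IsScalarTower ℚ K R := IsScalarTower.of_algebraMap_eq fun _ => rfl
  have : Algebra.FiniteType ℚ R := Algebra.FiniteType.trans (S := K) inferInstance inferInstance
  let F := FractionRing R
  let Fb := AlgebraicClosure F
  let α : R →+* Fb := algebraMap R Fb
  have hα : α = (algebraMap F Fb).comp (algebraMap R F) := IsScalarTower.algebraMap_eq R F Fb
  have hαinj : Function.Injective α := by
    rw [hα]
    exact (algebraMap F Fb).injective.comp (IsFractionRing.injective R F)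
  -- the roots
  let fb : Fb[X][X] := f.map (mapRingHom α)
  have hfbm : fb.Monic := hf.map _
  have hfbs : fb.Splits := hsplit
  have hfb : fb = (fb.roots.map (X - C ·)).prod := hfbs.eq_prod_roots_of_monic hfbm
  let l : List Fb[X] := fb.roots.toList
  have hprodl : fb = ∏ i : Fin l.length, (X - C (l.get i)) := by
    have h2 : fb = (l.map (X - C ·)).prod := by
      conv_lhs => rw [hfb]
      rw [← Multiset.coe_toList fb.roots, Multiset.map_coe, Multiset.prod_coe]
    rw [h2]
    conv_lhs => rw [← List.ofFn_get l, List.map_ofFn, List.prod_ofFn]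
    rfl
  have hlen : l.length = f.natDegree := by
    have h1 := congrArg natDegree hprodl
    rw [natDegree_prod_of_monic _ _ fun i _ => monic_X_sub_C _] at h1
    simp only [natDegree_X_sub_C, Finset.sum_const, Finset.card_univ, Fintype.card_fin, smul_eq_mul,
      mul_one] at h1
    have h2 : fb.natDegree = f.natDegree := hf.natDegree_map _
    rw [← h1, h2]
  let Ω := Fin l.length
  let θ : Ω → Fb[X] := fun i => tr (α c) (l.get i)
  let f' : R[X][X] := f.map (tr c)
  have hf'm : f'.Monic := hf.map _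
  have hf'b : f'.map (mapRingHom α) = ∏ i : Ω, (X - C (θ i)) := by
    show (f.map (tr c)).map (mapRingHom α) = _
    rw [Polynomial.map_map, tr_map, ← Polynomial.map_map]
    show fb.map (tr (α c)) = _
    rw [hprodl, Polynomial.map_prod]
    refine Finset.prod_congr rfl fun i _ => ?_
    rw [Polynomial.map_sub, map_X, map_C]
  -- the field generated by the coefficients
  let S : Set Fb := ⋃ i : Ω, ((θ i).coeffs : Set Fb)
  have hSfin : S.Finite := Set.finite_iUnion fun i => Finset.finite_toSet _
  have : Finite S := hSfin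
  let E₀ := IntermediateField.adjoin F S
  have hfd : FiniteDimensional F E₀ :=
    IntermediateField.finiteDimensional_adjoin fun x _ => Algebra.IsIntegral.isIntegral x
  have hlift : ∀ i : Ω, ∃ P : E₀[X], P.map (algebraMap E₀ Fb) = θ i := by
    intro i
    have h1 : θ i ∈ lifts (algebraMap E₀ Fb) := by
      rw [lifts_iff_coeff_lifts]
      intro n
      by_cases h0 : (θ i).coeff n = 0
      · exact ⟨0, by rw [h0, map_zero]⟩
      · have h2 : (θ i).coeff n ∈ S := Set.mem_iUnion.2 ⟨i, coeff_mem_coeffs h0⟩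
        exact ⟨⟨_, IntermediateField.subset_adjoin F S h2⟩, rfl⟩
    exact (mem_lifts _).1 h1
  choose θE hθE using hlift
  have hE₀inj : Function.Injective (mapRingHom (algebraMap E₀ Fb)) :=
    Polynomial.map_injective _ (algebraMap E₀ Fb).injective
  have hf'E : f'.map (mapRingHom ((algebraMap F E₀).comp (algebraMap R F))) =
      ∏ i, (X - C (θE i)) := by
    apply Polynomial.map_injective _ hE₀inj
    rw [map_prod_lin, Polynomial.map_map, mapRingHom_comp]
    have h1 : (algebraMap E₀ Fb).comp ((algebraMap F E₀).comp (algebraMap R F)) = α := by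
      rw [hα]
      rfl
    rw [h1, hf'b]
    refine Finset.prod_congr rfl fun i _ => ?_
    rw [hθE]
  have hsep' : ∀ i j, i ≠ j → (θE i).eval 0 ≠ (θE j).eval 0 := by
    have h1 : ((f.map (evalRingHom c)).map α).Separable := by
      rw [hα, ← Polynomial.map_map]
      exact hsep.map
    have h2 : (f.map (evalRingHom c)).map α = ∏ i : Ω, (X - C ((θ i).eval 0)) := by
      have h3 : α.comp (evalRingHom c) = (evalRingHom (α c)).comp (mapRingHom α) := by
        ext x
        · simp
        · simp
      rw [Polynomial.map_map, h3, ← Polynomial.map_map]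
      show fb.map (evalRingHom (α c)) = _
      rw [hprodl, Polynomial.map_prod]
      refine Finset.prod_congr rfl fun i _ => ?_
      rw [Polynomial.map_sub, map_X, map_C]
      show X - C ((l.get i).eval (α c)) = X - C ((tr (α c) (l.get i)).eval 0)
      rw [tr_eval_zero]
    rw [h2, separable_prod_X_sub_C_iff] at h1
    intro i j hij hc
    apply hij
    apply h1
    show (θ i).eval 0 = (θ j).eval 0
    rw [← hθE, ← hθE, eval0_map, eval0_map, hc]
  obtain ⟨h₁, hh₁, hh₁0⟩ := split_off c h hh
  have hz' : tr c z ≠ 0 := by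
    rw [Ne, map_eq_zero_iff _ (tr_inj c)]
    exact hz
  obtain ⟨z₁, hz₁, hz₁0⟩ := split_off 0 (tr c z) hz'
  have htr0 : ∀ P : R[X], tr 0 P = P := by
    intro P
    simp [tr]
  rw [htr0] at hz₁
  have hno' : ∀ η : F[X], (f'.map (mapRingHom (algebraMap R F))).eval η ≠ 0 := by
    intro η hη
    apply hno (tr (-(algebraMap R F c)) η)
    have h1 : (f.map (mapRingHom (algebraMap R F))).map (tr (algebraMap R F c)) =
        f'.map (mapRingHom (algebraMap R F)) := by
      show _ = (f.map (tr c)).map (mapRingHom (algebraMap R F))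
      rw [Polynomial.map_map, Polynomial.map_map, tr_map]
    apply tr_inj (algebraMap R F c)
    rw [map_zero]
    have h2 : tr (algebraMap R F c) ((f.map (mapRingHom (algebraMap R F))).eval
        (tr (-(algebraMap R F c)) η)) =
        ((f.map (mapRingHom (algebraMap R F))).map (tr (algebraMap R F c))).eval
          (tr (algebraMap R F c) (tr (-(algebraMap R F c)) η)) := hom_eval _ _ _
    rw [h2, h1]
    have h3 : tr (algebraMap R F c) (tr (-(algebraMap R F c)) η) = η := by
      simp [tr, comp_assoc]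
    rw [h3]
    exact hη
  obtain ⟨L₀, _, _, N₀, _, _, _, φ, θ', hφd, hfN₀, hsepN₀, hnoL₀⟩ :=
    spec R F E₀ Ω θE f' hf'm hf'E hsep' (h₁.eval 0 * z₁.eval 0) (mul_ne_zero hh₁0 hz₁0) hno'
  rw [map_mul] at hφd
  have hΩ : Fintype.card Ω = f.natDegree := by
    rw [Fintype.card_fin, hlen]
  obtain ⟨L, _, _, _, s₀, hs₀, hzs₀, hobs⟩ := nf2S (K := L₀) (N := N₀) q hq Ω
    (by rw [hΩ]; exact hn) (by rw [hΩ]; exact hqn) θ' (f'.map (mapRingHom φ)) hfN₀ hsepN₀
    (h₁.map φ) (z₁.map φ) (by
      rw [eval0_map]
      exact left_ne_zero_of_mul hφd) (by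
      rw [eval0_map]
      exact right_ne_zero_of_mul hφd) (h.rootMultiplicity c) hc hnoL₀
  let Φr : R →+* L := (algebraMap L₀ L).comp φ
  let _ : Algebra K L := (Φr.comp (algebraMap K R)).toAlgebra
  have hfdL : FiniteDimensional K L := FiniteDimensional.right ℚ K L
  let Φ : R →ₐ[K] L := { Φr with commutes' := fun _ => rfl }
  have hΦ : (Φ : R →+* L) = Φr := rfl
  have hev : ∀ P : R[X], P.eval₂ (Φ : R →+* L) (s₀ + Φr c) = (tr c P).eval₂ Φr s₀ := by
    intro P
    have h1 := RingHom.congr_fun (tr_eval₂ Φr c s₀) P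
    exact h1.symm
  have hevφ : ∀ P : R[X], P.eval₂ Φr s₀ = (P.map φ).eval₂ (algebraMap L₀ L) s₀ := by
    intro P
    rw [eval₂_map]
  have hz0 : z.eval₂ (Φ : R →+* L) (s₀ + Φr c) ≠ 0 := by
    rw [hev, hz₁, eval₂_mul, eval₂_X_pow, hevφ]
    exact mul_ne_zero (pow_ne_zero _ hs₀) hzs₀
  have hhe : h.eval₂ (Φ : R →+* L) (s₀ + Φr c) =
      s₀ ^ (h.rootMultiplicity c) * (h₁.map φ).eval₂ (algebraMap L₀ L) s₀ := by
    rw [hev, hh₁, eval₂_mul, eval₂_X_pow, hevφ]
  have hfe : f.map (eval₂RingHom (Φ : R →+* L) (s₀ + Φr c)) =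
      (f'.map (mapRingHom φ)).map (eval₂RingHom (algebraMap L₀ L) s₀) := by
    rw [Polynomial.map_map]
    have h1 : (eval₂RingHom (algebraMap L₀ L) s₀).comp (mapRingHom φ) = eval₂RingHom Φr s₀ := by
      ext x
      · simp [Φr]
      · simp
    rw [h1]
    show _ = (f.map (tr c)).map (eval₂RingHom Φr s₀)
    rw [Polynomial.map_map, tr_eval₂]
    rfl
  refine ⟨L, inferInstance, inferInstance, inferInstance, hfdL, Φ, s₀ + Φr c, hz0, ?_⟩
  rw [hhe, hfe]
  exact hobs

end Run7.h846
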