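import Pool.Agent.Run7.h846.QCls
import Pool.Agent.Run7.h846.SecObs
import Pool.Agent.Y674.PS.Fun
import Pool.Agent.Y157.PS.Num
import Pool.Agent.Y157.PS.Ind2

/-!
# The obstruction excludes sections of geometrically pro-`q` fundamental groups
-/

set_option autoImplicit false

namespace Run7.h846

open Pool.Agent.Y157.PS Polynomial NumberField IsDedekindDomain

lemma secpt_q {q : ℕ} (hq : 0 < q) {L : Type} [Field L] [CharZero L]
    {F Ω : Type} [Field F] [Field Ω] [Algebra L F] [Algebra F Ω] [Algebra L Ω]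
    [IsScalarTower L F Ω] [IsAlgClosed Ω] {N : IntermediateField F Ω}
    (G : NSec L N) (f : L[X]) (a : L) (ha : a ≠ 0) (x y : F)
    (hxy : algebraMap L F a * y ^ q = aeval x f) (hx : ¬ Transcendental L x) :
    ∃ x' y' : L, a * y' ^ q = f.eval x' := by
  rw [Transcendental, not_not] at hx
  obtain ⟨x', rfl⟩ := alg_mem_base_N G x hx
  have h1 : y ^ q = algebraMap L F (f.eval x' / a) := by
    rw [aeval_algebraMap_apply, aeval_def, Algebra.algebraMap_self, eval₂_id] at hxy
    rw [map_div₀, eq_div_iff ((_root_.map_ne_zero _).2 ha)]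
    linear_combination hxy
  have hy : IsAlgebraic L y := by
    apply IsAlgebraic.of_pow (n := q) hq
    rw [h1]
    exact isAlgebraic_algebraMap _
  obtain ⟨y', rfl⟩ := alg_mem_base_N G y hy
  refine ⟨x', y', (algebraMap L F).injective ?_⟩
  rw [map_mul, map_pow, hxy, aeval_algebraMap_apply, aeval_def, Algebra.algebraMap_self, eval₂_id]

/-- no sections of the geometrically pro-`q` fundamental group -/
theorem obs_noPro {q : ℕ} (hq : q.Prime) {L : Type} [Field L] [NumberField L] {t : L} {g : L[X]}
    (h : Obs q L t g) {F Ω : Type} [Field F] [Field Ω] [Algebra L F] [Algebra F Ω] [Algebra L Ω]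
    [IsScalarTower L F Ω] [IsAlgClosed Ω] [Algebra.IsAlgebraic F Ω] (x y : F)
    (hx : Transcendental L x) (hxy : algebraMap L F t * y ^ q = aeval x g)
    (hF : IntermediateField.adjoin L {x, y} = (⊤ : IntermediateField L F))
    (G : NSec L (geomPro q L F Ω)) : False := by
  classical
  have hfact : Fact q.Prime := ⟨hq⟩
  obtain ⟨-, ht0, X, _, E, _, _, j, Θ, Good, hg, hΘinj, hqn, h3, hnr, hGood, H⟩ := h
  have hne : Nonempty X := Fintype.card_pos_iff.1 (by omega)
  obtain ⟨i₀⟩ := hne
  -- `E` inside the algebraic closure of `L`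
  let _ : Algebra L E := j.toAlgebra
  have hj : ∀ z : L, algebraMap L E z = j z := fun _ => rfl
  have hLQ : IsScalarTower ℚ L E := IsScalarTower.of_algebraMap_eq fun z => by
    rw [hj, eq_ratCast, eq_ratCast, map_ratCast]
  have hLE : Algebra.IsAlgebraic L E := Algebra.IsAlgebraic.tower_top (K := ℚ) L
  have hac : IsAlgClosure L (algebraicClosure L Ω) := inferInstance
  have hkb : IsAlgClosed (algebraicClosure L Ω) := hac.1
  let ι : E →ₐ[L] algebraicClosure L Ω := IsAlgClosed.lift
  let _ : Algebra E (algebraicClosure L Ω) := (ι : E →+* algebraicClosure L Ω).toAlgebra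
  have hι : ∀ z : E, algebraMap E (algebraicClosure L Ω) z = ι z := fun _ => rfl
  have htow : IsScalarTower L E (algebraicClosure L Ω) := IsScalarTower.of_algebraMap_eq fun z => by
    rw [hι, ι.commutes]
  have htr := Pool.Agent.W623.SecE.tr_const (k := L) (Ω := Ω) hx
  have hg0 : g ≠ 0 := by
    rintro rfl
    rw [Polynomial.map_zero] at hg
    have h1 : (∏ i, (Polynomial.X - C (Θ i)) : E[X]).Monic := monic_prod_of_monic _ _ fun i _ => monic_X_sub_C _
    rw [← hg] at h1
    exact h1.ne_zero rfl
  have hgdeg : g.natDegree = Fintype.card X := by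
    rw [← natDegree_map j, hg, natDegree_prod_of_monic _ _ fun i _ => monic_X_sub_C _]
    simp
  have hgsep : g.Separable := by
    rw [← separable_map j, hg]
    exact separable_prod_X_sub_C_iff.2 hΘinj
  have hfx0 : aeval x g ≠ 0 := fun h => hg0 ((transcendental_iff.1 hx) g h)
  have hy0 : y ≠ 0 := by
    rintro rfl
    rw [zero_pow hq.ne_zero, mul_zero] at hxy
    exact hfx0 hxy.symm
  have hroot : ∀ i, aeval (algebraMap E (algebraicClosure L Ω) (Θ i)) g = 0 := by
    intro i
    have h1 : (g.map j).eval (Θ i) = 0 := by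
      rw [hg, eval_prod]
      refine Finset.prod_eq_zero (Finset.mem_univ i) ?_
      rw [eval_sub, eval_X, eval_C, sub_self]
    rw [eval_map] at h1
    have h2 := congrArg (algebraMap E (algebraicClosure L Ω)) h1
    rw [hom_eval₂, map_zero] at h2
    rw [aeval_def, IsScalarTower.algebraMap_eq L E (algebraicClosure L Ω)]
    exact h2
  -- the equation in terms of the roots
  have hxyΩ : ((algebraMap E (algebraicClosure L Ω) (j t) : algebraicClosure L Ω) : Ω) *
      algebraMap F Ω y ^ q = ∏ i, (algebraMap F Ω x -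
        ((algebraMap E (algebraicClosure L Ω) (Θ i) : algebraicClosure L Ω) : Ω)) := by
    have h1 : ((algebraMap E (algebraicClosure L Ω) (j t) : algebraicClosure L Ω) : Ω) =
        algebraMap F Ω (algebraMap L F t) := by
      rw [← hj, ← IsScalarTower.algebraMap_apply L E (algebraicClosure L Ω),
        ← IsScalarTower.algebraMap_apply L F Ω]
      rfl
    rw [h1, ← map_pow, ← map_mul, hxy]
    let η : E →+* Ω := (algebraMap (algebraicClosure L Ω) Ω).comp (algebraMap E (algebraicClosure L Ω))
    have h2 : algebraMap F Ω (aeval x g) = (g.map j).eval₂ η (algebraMap F Ω x) := by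
      rw [aeval_def, hom_eval₂, eval₂_map]
      congr 1
      ext z
      show algebraMap F Ω (algebraMap L F z) = algebraMap (algebraicClosure L Ω) Ω
        (algebraMap E (algebraicClosure L Ω) (j z))
      rw [← hj, ← IsScalarTower.algebraMap_apply L E (algebraicClosure L Ω),
        ← IsScalarTower.algebraMap_apply L F Ω]
      rfl
    rw [h2, hg, eval₂_finsetProd]
    refine Finset.prod_congr rfl fun i _ => ?_
    rw [eval₂_sub, eval₂_X, eval₂_C]
    rfl
  have hN : ∀ c : algebraicClosure L Ω, (c : Ω) ∈ geomPro q L F Ω := const_geomPro q L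
  have hrt := fun i => a_rts q L F Ω g hgsep (by rw [hgdeg]; exact hqn) (by rw [hgdeg]; exact h3) t
    ht0 x y hx hxy hF (algebraMap E (algebraicClosure L Ω) (Θ i))
    (algebraMap E (algebraicClosure L Ω) (Θ i₀)) (hroot i) (hroot i₀)
  choose α hα using hrt
  have hneM : ∀ i, algebraMap F (geomPro q L F Ω) x -
      cC hN (algebraMap E (algebraicClosure L Ω) (Θ i)) ≠ 0 := by
    intro i h
    refine htr (algebraMap E _ (Θ i)) ?_
    exact (congrArg (algebraMap (geomPro q L F Ω) Ω) (sub_eq_zero.1 h)).symm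
  have hα' : ∀ i, α i ^ q = (algebraMap F (geomPro q L F Ω) x -
      cC hN (algebraMap E (algebraicClosure L Ω) (Θ i))) /
        (algebraMap F (geomPro q L F Ω) x -
      cC hN (algebraMap E (algebraicClosure L Ω) (Θ i₀))) := fun i => Subtype.ext (hα i)
  have hcls := fun i => exists_class_q (E := E) hq.pos hN G _ (α i) (by
    intro σ
    rw [map_div₀, map_sub, map_sub, actE_constC hN G, actE_constC hN G, σ.commutes, σ.commutes]
    have h1 : actE G σ (algebraMap F (geomPro q L F Ω) x) = algebraMap F (geomPro q L F Ω) x :=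
      (G.toHom (σ.restrictScalars L)).commutes x
    rw [h1]) (div_ne_zero (hneM i) (hneM i₀)) (hα' i)
  choose κ β hκ0 hβ0 hβ hκβ using hcls
  refine H κ hκ0 ?_ ?_
  · intro W hW
    obtain ⟨hqW, hΘW⟩ := hGood W hW
    exact local_q q G hqn h3 Θ (j t) ((_root_.map_ne_zero j).2 ht0) x y hx hy0 hF hxyΩ
      hN i₀ κ β hκ0 hβ0 hβ hκβ W hqW hΘW
  · intro σ s hσ hs i i'
    exact class_conj_q hq.pos hN G Θ x htr i₀ κ β hκ0 hβ0 hβ hκβ σ s hσ hs i i'

/-- the same for larger extensions -/
theorem obs_noProLarge {q : ℕ} (hq : q.Prime) {L : Type} [Field L] [NumberField L] {t : L}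
    {g : L[X]} (h : Obs q L t g) {F Ω : Type} [Field F] [Field Ω] [Algebra L F] [Algebra F Ω]
    [Algebra L Ω] [IsScalarTower L F Ω] [IsAlgClosed Ω] [Algebra.IsAlgebraic F Ω] (x y : F)
    (hx : Transcendental L x) (hxy : algebraMap L F t * y ^ q = aeval x g)
    (hF : IntermediateField.adjoin L {x, y} = (⊤ : IntermediateField L F))
    (N : IntermediateField F Ω) (hN : geomPro q L F Ω ≤ N) (G : NSec L N) : False := by
  have hfact : Fact q.Prime := ⟨hq⟩
  have halg := alg_of_eqn hq.pos g t h.2.1 x y hxy hF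
  obtain ⟨T, hTc, hT⟩ := a_ind2 q L F Ω x hx halg N hN _ G.toHom G.cont
  refine obs_noPro hq h x y hx hxy hF ⟨T, hTc, fun σ c z hz => ?_⟩
  rw [hT σ ⟨(z : Ω), hN z.2⟩ z rfl]
  exact G.compat σ c ⟨(z : Ω), hN z.2⟩ hz

/-- no sections of fundamental groups of curves which dominate the curve -/
theorem obs_noPi {q : ℕ} (hq : q.Prime) {L : Type} [Field L] [NumberField L] {t : L}
    {g : L[X]} (h : Obs q L t g) {F Ω : Type} [Field F] [Field Ω] [Algebra L F] [Algebra F Ω]
    [Algebra L Ω] [IsScalarTower L F Ω] [IsAlgClosed Ω] [Algebra.IsAlgebraic F Ω]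
    (U : Set (ValuationSubring F)) (hU : ∀ O ∈ U, ∀ c : L, algebraMap L F c ∈ O)
    (G : Pool.Agent.W620.SC.GSection L F Ω U) (x y : F) :
    algebraMap L F t * y ^ q ≠ aeval x g := by
  intro hxy
  have hfact : Fact q.Prime := ⟨hq⟩
  have ht0 := h.2.1
  by_cases hx : Transcendental L x
  swap
  · obtain ⟨x', y', h1⟩ := secpt_q hq.pos
      (⟨G.toHom, G.cont, G.compat⟩ : NSec L (Pool.Agent.W620.SC.unramified F Ω U)) g t ht0 x y hxy hx
    exact obs_noPoint hq.ne_zero h x' y' h1
  have htF0 : algebraMap L F t ≠ 0 := (_root_.map_ne_zero _).2 ht0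
  have hy : IsAlgebraic (IntermediateField.adjoin L {x}) y := by
    refine isAlgebraic_iff_isIntegral.2 (IsIntegral.of_pow hq.pos ?_)
    have h1 : y ^ q ∈ IntermediateField.adjoin L {x} := by
      have h2 : y ^ q = (algebraMap L F t)⁻¹ * aeval x g := by
        rw [← hxy, inv_mul_cancel_left₀ htF0]
      rw [h2]
      refine mul_mem (inv_mem (IntermediateField.algebraMap_mem _ t)) ?_
      have h3 : aeval x g = algebraMap (IntermediateField.adjoin L {x}) F
          (aeval (IntermediateField.AdjoinSimple.gen L x) g) := by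
        rw [← aeval_algebraMap_apply]
        rfl
      rw [h3]
      exact (aeval (IntermediateField.AdjoinSimple.gen L x) g).2
    exact isIntegral_algebraMap (x := (⟨_, h1⟩ : IntermediateField.adjoin L {x}))
  obtain ⟨F₀, Ω₀, _, _, _, _, _, _, _, _, i, x₀, y₀, hix, hiy, htop, S, hS, hScompat⟩ :=
    Pool.Agent.Y674.PS.funct a_inrt q L F Ω U hU G x y hx hy
  have hx0 : Transcendental L x₀ := by
    intro halg
    apply hx
    rw [← hix]
    exact (isAlgebraic_algHom_iff i i.toRingHom.injective).2 halg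
  have hxy0 : algebraMap L F₀ t * y₀ ^ q = aeval x₀ g := by
    apply i.toRingHom.injective
    have e1 : i (algebraMap L F₀ t * y₀ ^ q) = i (aeval x₀ g) := by
      rw [map_mul, map_pow, hiy, i.commutes, hxy, ← aeval_algHom_apply, hix]
    exact e1
  exact obs_noPro hq h x₀ y₀ hx0 hxy0 htop ⟨S, hS, hScompat⟩

end Run7.h846
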