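import Mathlib

/-!
# An auxiliary polynomial
-/

set_option autoImplicit false

namespace Run7.h846

open Polynomial

theorem algP (A : Type) [CommRing A] [IsDomain A] (D : A[X]) (hD : D.Monic) (p : A)
    (hfin : Finite (A ⧸ Ideal.span {p})) (hcop : IsCoprime (D.eval 0) p) :
    ∃ (N : ℕ) (S R : A[X]), D.natDegree < N ∧ R.natDegree < N ∧
      X ^ N - 1 = D * S + C p * R := by
  classical
  let B := A ⧸ Ideal.span {p}
  let f : A →+* B := Ideal.Quotient.mk _
  have hf : Function.Surjective f := Ideal.Quotient.mk_surjective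
  let Db : B[X] := D.map f
  have hDb : Db.Monic := hD.map f
  let Q := AdjoinRoot Db
  have hQ : Module.Finite B Q := hDb.finite_adjoinRoot
  have hQf : Finite Q := Module.finite_of_finite B
  have hu0 : IsUnit (f (D.eval 0)) := by
    obtain ⟨a, b, hab⟩ := hcop
    have h1 : f a * f (D.eval 0) = 1 := by
      rw [← map_mul, ← map_one f, ← hab, map_add, map_mul f b p]
      have : f p = 0 := Ideal.Quotient.eq_zero_iff_mem.2 (Ideal.mem_span_singleton_self p)
      rw [this, mul_zero, add_zero]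
    exact IsUnit.of_mul_eq_one_right _ h1
  have hroot : IsUnit (AdjoinRoot.root Db) := by
    have h1 : AdjoinRoot.mk Db (Db.divX * X + C (Db.coeff 0)) = 0 := by
      rw [divX_mul_X_add]
      exact AdjoinRoot.mk_self
    rw [map_add, map_mul, AdjoinRoot.mk_X, AdjoinRoot.mk_C] at h1
    have h2 : AdjoinRoot.mk Db Db.divX * AdjoinRoot.root Db = -AdjoinRoot.of Db (Db.coeff 0) :=
      eq_neg_of_add_eq_zero_left h1
    have h3 : IsUnit (-AdjoinRoot.of Db (Db.coeff 0)) := by
      apply IsUnit.neg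
      apply IsUnit.map
      rw [coeff_map, coeff_zero_eq_eval_zero]
      exact hu0
    rw [← h2] at h3
    exact isUnit_of_mul_isUnit_right h3
  obtain ⟨u, hu⟩ := hroot
  have hk : 0 < orderOf u := orderOf_pos u
  refine (fun N (hN : D.natDegree < N ∧ (AdjoinRoot.root Db) ^ N = 1) => ?_ :
    ∀ N, (D.natDegree < N ∧ (AdjoinRoot.root Db) ^ N = 1) → _) (orderOf u * (D.natDegree + 1))
    ⟨by nlinarith, by rw [← hu, ← Units.val_pow_eq_pow_val, pow_mul, pow_orderOf_eq_one, one_pow,
      Units.val_one]⟩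
  obtain ⟨hN1, hN2⟩ := hN
  have hdvd : Db ∣ X ^ N - 1 := by
    rw [← AdjoinRoot.mk_eq_zero, map_sub, map_pow, AdjoinRoot.mk_X, map_one, hN2, sub_self]
  obtain ⟨Sb, hSb⟩ := hdvd
  obtain ⟨S', hS'⟩ := Polynomial.map_surjective f hf Sb
  have h0 : (X ^ N - 1 - D * S').map f = 0 := by
    rw [Polynomial.map_sub, Polynomial.map_sub, Polynomial.map_pow, Polynomial.map_mul, map_X,
      Polynomial.map_one, hS', hSb, sub_self]
  have h1 : C p ∣ X ^ N - 1 - D * S' := by
    rw [C_dvd_iff_dvd_coeff]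
    intro i
    have h2 := congrArg (fun g => coeff g i) h0
    beta_reduce at h2
    rw [coeff_map, coeff_zero] at h2
    exact Ideal.mem_span_singleton.1 (Ideal.Quotient.eq_zero_iff_mem.1 h2)
  obtain ⟨R', hR'⟩ := h1
  have h2 := modByMonic_add_div R' D
  refine ⟨N, S' + C p * (R' /ₘ D), R' %ₘ D, hN1, ?_, ?_⟩
  · by_cases hD1 : D = 1
    · rw [hD1, modByMonic_one, natDegree_zero]
      omega
    · have := natDegree_modByMonic_lt R' hD hD1
      omega
  · calc X ^ N - 1 = D * S' + C p * R' := by rw [← hR']; ring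
      _ = D * S' + C p * (R' %ₘ D + D * (R' /ₘ D)) := by rw [h2]
      _ = _ := by ring

end Run7.h846
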