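import Pool.Agent.Run7.h846.NfO

/-!
# Composita with Galois extensions
-/

set_option autoImplicit false

namespace Run7.h846

open Polynomial

lemma comp_gal {K M P Q : Type*} [Field K] [Field M] [Field P] [Field Q] [Algebra K M] [Algebra K P]
    [Algebra K Q] [Algebra M Q] [Algebra P Q] [IsScalarTower K M Q] [IsScalarTower K P Q]
    [FiniteDimensional K M] [IsGalois K M]
    (hgen : ∀ S : Subfield Q, (∀ x : M, algebraMap M Q x ∈ S) → (∀ x : P, algebraMap P Q x ∈ S) →
      ∀ x, x ∈ S) :
    FiniteDimensional P Q ∧ IsGalois P Q ∧ ∃ r : Gal(Q/P) →* Gal(M/K), Function.Injective r ∧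
      ∀ (σ : Gal(Q/P)) (x : M), σ (algebraMap M Q x) = algebraMap M Q (r σ x) := by
  obtain ⟨T, hT₁, hT₂⟩ := IsGalois.is_separable_splitting_field K M
  let T' := T.map (algebraMap K P)
  have hT' : T'.map (algebraMap P Q) = (T.map (algebraMap K M)).map (algebraMap M Q) := by
    show (T.map (algebraMap K P)).map (algebraMap P Q) = _
    rw [Polynomial.map_map, Polynomial.map_map, ← IsScalarTower.algebraMap_eq,
      ← IsScalarTower.algebraMap_eq]
  have hsp : T'.IsSplittingField P Q := by
    constructor
    · rw [hT']
      exact hT₂.1.map _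
    · rw [eq_top_iff]
      have h1 : (IntermediateField.adjoin P (T'.rootSet Q)) = ⊤ := by
        rw [eq_top_iff]
        intro x _
        have hx := hgen (IntermediateField.adjoin P (T'.rootSet Q)).toSubfield ?_ ?_ x
        · exact hx
        · intro y
          have hy : y ∈ Algebra.adjoin K (T.rootSet M) := by
            rw [hT₂.2]
            trivial
          show algebraMap M Q y ∈ IntermediateField.adjoin P (T'.rootSet Q)
          induction hy using Algebra.adjoin_induction with
          | mem z hz =>
            apply IntermediateField.subset_adjoin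
            have hT0 : T ≠ 0 := hT₁.ne_zero
            rw [mem_rootSet] at hz ⊢
            refine ⟨(Polynomial.map_ne_zero_iff (algebraMap K P).injective).2 hT0, ?_⟩
            rw [aeval_def, eval₂_eq_eval_map, hT', eval_map, eval₂_at_apply, eval_map,
              ← aeval_def, hz.2, map_zero]
          | algebraMap a =>
            rw [← IsScalarTower.algebraMap_apply K M Q, IsScalarTower.algebraMap_apply K P Q]
            exact (IntermediateField.adjoin P (T'.rootSet Q)).algebraMap_mem _
          | add x y _ _ hx hy =>
            rw [map_add]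
            exact add_mem hx hy
          | mul x y _ _ hx hy =>
            rw [map_mul]
            exact mul_mem hx hy
        · intro y
          exact (IntermediateField.adjoin P (T'.rootSet Q)).algebraMap_mem y
      have h2 := IntermediateField.adjoin_toSubalgebra_of_isAlgebraic (F := P) (S := T'.rootSet Q)
        (fun x hx => isAlgebraic_of_mem_rootSet hx)
      rw [← h2, h1]
      exact le_of_eq rfl
  have hfd : FiniteDimensional P Q := IsSplittingField.finiteDimensional Q T'
  have hgal : IsGalois P Q := IsGalois.of_separable_splitting_field (p := T') hT₁.map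
  refine ⟨hfd, hgal, (AlgEquiv.restrictNormalHom M).comp (AlgEquiv.restrictScalarsHom K), ?_, ?_⟩
  · intro σ τ hστ
    have h0 : ∀ x : M, σ (algebraMap M Q x) = τ (algebraMap M Q x) := by
      intro x
      have h1 := AlgEquiv.restrictNormal_commutes (σ.restrictScalars K) M x
      have h2 := AlgEquiv.restrictNormal_commutes (τ.restrictScalars K) M x
      have h3 : (σ.restrictScalars K).restrictNormal M = (τ.restrictScalars K).restrictNormal M := hστ
      rw [h3] at h1
      exact h1.symm.trans h2
    ext x
    exact hgen (RingHom.eqLocusField (σ : Q →+* Q) (τ : Q →+* Q)) h0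
      (fun y => (σ.commutes y).trans (τ.commutes y).symm) x
  · intro σ x
    exact (AlgEquiv.restrictNormal_commutes (σ.restrictScalars K) M x).symm

lemma comp_index {K M L E L' E' : Type*} [Field K] [Field M] [Field L] [Field E] [Field L']
    [Field E'] [Algebra K M] [Algebra K L] [Algebra K E] [Algebra M E] [Algebra L E]
    [IsScalarTower K M E] [IsScalarTower K L E] [FiniteDimensional K M] [IsGalois K M]
    [Algebra K L'] [Algebra K E'] [Algebra M E'] [Algebra L' E'] [IsScalarTower K M E']
    [IsScalarTower K L' E'] [Algebra L L'] [Algebra E E'] [Algebra L E'] [IsScalarTower L L' E']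
    [IsScalarTower L E E'] [FiniteDimensional L L']
    (hgen : ∀ S : Subfield E, (∀ x : M, algebraMap M E x ∈ S) → (∀ x : L, algebraMap L E x ∈ S) →
      ∀ x, x ∈ S)
    (hlift : ∀ σ : Gal(M/K), ∃ σ' : E ≃+* E, (∀ x : M, σ' (algebraMap M E x) = algebraMap M E (σ x)) ∧
      (∀ x : L, σ' (algebraMap L E x) = algebraMap L E x))
    (hgen' : ∀ S : Subfield E', (∀ x : M, algebraMap M E' x ∈ S) →
      (∀ x : L', algebraMap L' E' x ∈ S) → ∀ x, x ∈ S) :
    FiniteDimensional L' E' ∧ ∃ r : Gal(E'/L') →* Gal(M/K),
      (∀ (σ : Gal(E'/L')) (x : M), σ (algebraMap M E' x) = algebraMap M E' (r σ x)) ∧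
      r.range.index * Module.finrank E E' = Module.finrank L L' := by
  obtain ⟨hfd, hgal, r, hrinj, hr⟩ := comp_gal (K := K) (M := M) (P := L) (Q := E) hgen
  obtain ⟨hfd', hgal', r', hrinj', hr'⟩ := comp_gal (K := K) (M := M) (P := L') (Q := E') hgen'
  refine ⟨hfd', r', hr', ?_⟩
  have hsurj : Function.Surjective r := by
    intro σ
    obtain ⟨σ', h1, h2⟩ := hlift σ
    refine ⟨AlgEquiv.ofRingEquiv (f := σ') h2, ?_⟩
    ext x
    apply (algebraMap M E).injective
    rw [← hr]
    exact h1 x
  have e1 : Nat.card Gal(E/L) = Module.finrank L E := IsGalois.card_aut_eq_finrank L E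
  have e2 : Nat.card Gal(E'/L') = Module.finrank L' E' := IsGalois.card_aut_eq_finrank L' E'
  have e3 : Nat.card Gal(E/L) = Nat.card Gal(M/K) := Nat.card_congr (Equiv.ofBijective r ⟨hrinj, hsurj⟩)
  have e4 : Nat.card r'.range = Nat.card Gal(E'/L') :=
    (Nat.card_congr (MonoidHom.ofInjective hrinj').toEquiv).symm
  have e5 : Module.finrank L E * Module.finrank E E' = Module.finrank L E' :=
    Module.finrank_mul_finrank L E E'
  have e6 : Module.finrank L L' * Module.finrank L' E' = Module.finrank L E' :=
    Module.finrank_mul_finrank L L' E'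
  have e7 := r'.range.card_mul_index
  have hpos : 0 < Nat.card r'.range := Nat.card_pos
  apply Nat.eq_of_mul_eq_mul_left hpos
  calc Nat.card r'.range * (r'.range.index * Module.finrank E E')
      = (Nat.card r'.range * r'.range.index) * Module.finrank E E' := by ring
    _ = Module.finrank L E * Module.finrank E E' := by rw [e7, ← e3, e1]
    _ = Module.finrank L L' * Module.finrank L' E' := by rw [e5, e6]
    _ = Nat.card r'.range * Module.finrank L L' := by rw [e4, e2]; ring

end Run7.h846
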