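import Mathlib

/-!
# Number fields Galois over `ℚ`
-/

set_option autoImplicit false

namespace Run7.h846

open Polynomial

/-- a number field Galois over `ℚ` which contains `M` and splits `f` -/
theorem exists_galois (M : Type) [Field M] [NumberField M] (f : M[X]) :
    ∃ (N : Type) (_ : Field N) (_ : NumberField N) (_ : Algebra M N), IsGalois ℚ N ∧
      (f.map (algebraMap M N)).Splits := by
  let S : Type := f.SplittingField
  have hS : FiniteDimensional M S := inferInstance
  have hch : CharZero S := charZero_of_injective_algebraMap (algebraMap M S).injective
  have hSt : IsScalarTower ℚ M S := inferInstance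
  have hSQ : FiniteDimensional ℚ S := FiniteDimensional.trans ℚ M S
  have hnf : NumberField S := { to_charZero := hch, to_finiteDimensional := hSQ }
  let A : Type := AlgebraicClosure S
  have hchA : CharZero A := charZero_of_injective_algebraMap (algebraMap S A).injective
  have hStA : IsScalarTower ℚ S A := inferInstance
  have h1 : Algebra.IsAlgebraic ℚ A := Algebra.IsAlgebraic.trans ℚ S A
  have h2 : IsAlgClosure ℚ A := ⟨inferInstance, h1⟩
  have h3 : Normal ℚ A := IsAlgClosure.normal ℚ A
  let N : Type := IntermediateField.normalClosure ℚ S A
  have hno : Normal ℚ N := normalClosure.normal (F := ℚ) (K := S) (L := A)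
  have hfd : FiniteDimensional ℚ N := inferInstance
  have hchN : CharZero N := inferInstance
  have hnfN : NumberField N := { to_charZero := hchN, to_finiteDimensional := hfd }

  let i : S →+* N := algebraMap S N
  let alg : Algebra M N := (i.comp (algebraMap M S)).toAlgebra
  refine ⟨N, inferInstance, hnfN, alg, ⟨⟩, ?_⟩
  have h4 : algebraMap M N = i.comp (algebraMap M S) := rfl
  rw [h4, ← Polynomial.map_map]
  exact (SplittingField.splits f).map i

end Run7.h846
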