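import Pool.Agent.W401.Cheb.Main
import Pool.Agent.Run7.h846.ExGal

/-!
# A prime at which a given number is not a `q`-th power
-/

set_option autoImplicit false

namespace Run7.h846

open NumberField Polynomial

/-- Kummer theory for two radicals -/
lemma kummer_two {M N : Type} [Field M] [Field N] [Algebra M N] [FiniteDimensional M N] [IsGalois M N]
    (q : ℕ) (hq : q.Prime) (ζ : M) (hζ : IsPrimitiveRoot ζ q) (p c : M) (π κ : N)
    (hπ : π ^ q = algebraMap M N p) (hκ : κ ^ q = algebraMap M N c) (hp0 : p ≠ 0) (hc0 : c ≠ 0)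
    (H : ∀ g : Gal(N/M), g π = π → g κ = κ) : ∃ (j : ℕ) (m : M), c = p ^ j * m ^ q := by
  classical
  have hπ0 : π ≠ 0 := by
    rintro rfl
    rw [zero_pow hq.ne_zero] at hπ
    exact hp0 ((map_eq_zero _).1 hπ.symm)
  have hκ0 : κ ≠ 0 := by
    rintro rfl
    rw [zero_pow hq.ne_zero] at hκ
    exact hc0 ((map_eq_zero _).1 hκ.symm)
  have hζN : IsPrimitiveRoot (algebraMap M N ζ) q := hζ.map_of_injective (algebraMap M N).injective
  have : NeZero q := ⟨hq.ne_zero⟩
  -- the characters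
  have char : ∀ (x : N) (hx : x ≠ 0) (d : M), x ^ q = algebraMap M N d → ∀ g : Gal(N/M),
      ∃ i : ℕ, g x = (algebraMap M N ζ) ^ i * x := by
    intro x hx d hd g
    have h1 : (g x / x) ^ q = 1 := by
      rw [div_pow, ← map_pow, hd, AlgEquiv.commutes, div_self]
      rw [← hd]
      exact pow_ne_zero _ hx
    obtain ⟨i, _, hi⟩ := hζN.eq_pow_of_pow_eq_one h1
    exact ⟨i, by rw [hi, div_mul_cancel₀ _ hx]⟩
  have hiter : ∀ (g : Gal(N/M)) (x : N) (i n : ℕ), g x = (algebraMap M N ζ) ^ i * x →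
      (g ^ n) x = (algebraMap M N ζ) ^ (i * n) * x := by
    intro g x i n h
    induction n with
    | zero => simp
    | succ n ih =>
      rw [pow_succ', AlgEquiv.mul_apply, ih, map_mul, h, ← map_pow, AlgEquiv.commutes, mul_add, pow_add,
        mul_one]
      simp only [map_pow]
      ring
  by_cases hall : ∀ g : Gal(N/M), g π = π
  · have h1 : κ ∈ Set.range (algebraMap M N) :=
      (IsGalois.mem_range_algebraMap_iff_fixed κ).2 fun g => H g (hall g)
    obtain ⟨m, hm⟩ := h1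
    refine ⟨0, m, (algebraMap M N).injective ?_⟩
    rw [← hκ, pow_zero, one_mul, map_pow, hm]
  · push Not at hall
    obtain ⟨g₀, hg₀⟩ := hall
    obtain ⟨b, hb⟩ := char π hπ0 p hπ g₀
    obtain ⟨k, hk⟩ := char κ hκ0 c hκ g₀
    have hbq : Nat.Coprime b q := by
      rw [Nat.coprime_comm, hq.coprime_iff_not_dvd]
      intro h
      obtain ⟨s, rfl⟩ := h
      rw [pow_mul, hζN.pow_eq_one, one_pow, one_mul] at hb
      exact hg₀ hb
    -- `j` with `b j ≡ k`
    have hinv : ∀ a : ℕ, ∃ n : ℕ, (algebraMap M N ζ) ^ (b * n) = (algebraMap M N ζ) ^ a := by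
      intro a
      obtain ⟨n, hn⟩ : ∃ n : ℕ, b * n ≡ a [MOD q] := by
        obtain ⟨u, hu⟩ := Nat.exists_mul_mod_eq_one_of_coprime hbq hq.one_lt
        refine ⟨u * a, ?_⟩
        have : b * u ≡ 1 [MOD q] := by
          unfold Nat.ModEq
          rw [hu.2, Nat.mod_eq_of_lt hq.one_lt]
        have h2 := this.mul_right a
        rw [one_mul, mul_assoc] at h2
        exact h2
      refine ⟨n, ?_⟩
      rw [← pow_mod_orderOf, ← hζN.eq_orderOf, hn, hζN.eq_orderOf, pow_mod_orderOf]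
    obtain ⟨j, hj⟩ := hinv k
    have hfix0 : g₀ (κ / π ^ j) = κ / π ^ j := by
      rw [map_div₀, map_pow, hb, hk, mul_pow, ← pow_mul, hj]
      have : (algebraMap M N ζ) ^ k ≠ 0 := pow_ne_zero _ (hζN.ne_zero hq.ne_zero)
      field_simp
    have hfix : ∀ g : Gal(N/M), g (κ / π ^ j) = κ / π ^ j := by
      intro g
      obtain ⟨a, ha⟩ := char π hπ0 p hπ g
      obtain ⟨n, hn⟩ := hinv a
      have h1 : (g₀ ^ n) π = g π := by
        rw [hiter g₀ π b n hb, hn, ha]
      have h2 : ((g₀ ^ n)⁻¹ * g) π = π := by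
        rw [AlgEquiv.mul_apply, ← h1, ← AlgEquiv.mul_apply, inv_mul_cancel]
        rfl
      have h3 := H _ h2
      have h4 : g κ = (g₀ ^ n) κ := by
        have h5 := congrArg (g₀ ^ n) h3
        rw [AlgEquiv.mul_apply, ← AlgEquiv.mul_apply, mul_inv_cancel] at h5
        exact h5
      have h6 : ∀ m : ℕ, (g₀ ^ m) (κ / π ^ j) = κ / π ^ j := by
        intro m
        induction m with
        | zero => rfl
        | succ m ih => rw [pow_succ', AlgEquiv.mul_apply, ih, hfix0]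
      rw [map_div₀, map_pow, h4, ← h1, ← map_pow, ← map_div₀]
      exact h6 n
    obtain ⟨m, hm⟩ := (IsGalois.mem_range_algebraMap_iff_fixed (κ / π ^ j)).2 hfix
    refine ⟨j, m, (algebraMap M N).injective ?_⟩
    rw [map_mul, map_pow, map_pow, hm, ← hκ, ← hπ, div_pow]
    have : π ^ j ≠ 0 := pow_ne_zero _ hπ0
    have h7 : (π ^ q) ^ j = (π ^ j) ^ q := by rw [← pow_mul, ← pow_mul, mul_comm]
    rw [h7]
    field_simp

/-- elements fixed by the Frobenius -/
lemma fixed_frob {ℓ : ℕ} [Fact ℓ.Prime] {k : Type} [Field k] [Algebra (ZMod ℓ) k] {x : k}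
    (h : x ^ ℓ = x) : ∃ y : ZMod ℓ, algebraMap (ZMod ℓ) k y = x := by
  have : CharP k ℓ := charP_of_injective_algebraMap (algebraMap (ZMod ℓ) k).injective ℓ
  have h1 : x ∈ (⊥ : Subfield k) := (Subfield.mem_bot_iff_pow_eq_self (F := k) (p := ℓ)).2 h
  rw [← ZMod.fieldRange_castHom_eq_bot ℓ] at h1
  obtain ⟨y, hy⟩ := h1
  refine ⟨y, ?_⟩
  rw [← hy]
  exact congrArg (fun f : ZMod ℓ →+* k => f y) (Subsingleton.elim _ _)

/-- **primes of non-residues** -/
theorem lemK {M : Type} [Field M] [NumberField M] (q : ℕ) (hq : q.Prime) (ζ : M)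
    (hζ : IsPrimitiveRoot ζ q) (p : ℕ) (hp : p ≠ 0) (c : 𝓞 M) (hc : c ≠ 0)
    (H : ∀ (j : ℕ) (m : M), (c : M) ≠ (p : M) ^ j * m ^ q) (N0 : ℕ) :
    ∃ (ℓ : ℕ), ℓ.Prime ∧ N0 < ℓ ∧ (∃ γ : ℤ, (ℓ : ℤ) ∣ γ ^ q - p) ∧
      ∃ φ : 𝓞 M →+* ZMod ℓ, φ c ≠ 0 ∧ ¬ ∃ b : ZMod ℓ, φ c = b ^ q := by
  classical
  obtain ⟨N, _, _, _, hGal, hspl⟩ := exists_galois M ((X ^ q - C (p : M)) * (X ^ q - C (c : M)))
  have hGalM : IsGalois M N := IsGalois.tower_top_of_isGalois ℚ M N
  have hc0 : (c : M) ≠ 0 := by simpa using hc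
  have hp0 : (p : M) ≠ 0 := by exact_mod_cast hp
  have hroot : ∀ d : M, ((X ^ q - C d : M[X]).map (algebraMap M N)).Splits →
      ∃ x : N, x ^ q = algebraMap M N d := by
    intro d hd
    have hdeg : ((X ^ q - C d : M[X]).map (algebraMap M N)).degree ≠ 0 := by
      rw [degree_map, degree_X_pow_sub_C hq.pos]
      exact_mod_cast hq.ne_zero
    obtain ⟨x, hx⟩ := hd.exists_eval_eq_zero hdeg
    refine ⟨x, ?_⟩
    rw [eval_map, eval₂_sub, eval₂_pow, eval₂_X, eval₂_C, sub_eq_zero] at hx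
    exact hx
  rw [Polynomial.map_mul] at hspl
  have hne1 : ((X ^ q - C (p : M) : M[X]).map (algebraMap M N)) *
      ((X ^ q - C (c : M) : M[X]).map (algebraMap M N)) ≠ 0 := by
    rw [← Polynomial.map_mul]
    exact (Polynomial.map_ne_zero_iff (algebraMap M N).injective).2
      (mul_ne_zero (monic_X_pow_sub_C _ hq.ne_zero).ne_zero (monic_X_pow_sub_C _ hq.ne_zero).ne_zero)
  obtain ⟨π, hπ⟩ := hroot _ (Splits.of_dvd hspl hne1 (Dvd.intro _ rfl))
  obtain ⟨κ, hκ⟩ := hroot _ (Splits.of_dvd hspl hne1 (Dvd.intro_left _ rfl))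
  -- the Galois element
  have hg : ∃ g : Gal(N/M), g π = π ∧ g κ ≠ κ := by
    by_contra h
    push Not at h
    obtain ⟨j, m, hjm⟩ := kummer_two q hq ζ hζ (p : M) (c : M) π κ hπ hκ hp0 hc0 h
    exact H j m hjm
  obtain ⟨g, hgπ, hgκ⟩ := hg
  let gQ : Gal(N/ℚ) := g.restrictScalars ℚ
  -- integrality
  have hπi : IsIntegral ℤ π := by
    apply IsIntegral.of_pow hq.pos
    rw [hπ, map_natCast]
    have h := isIntegral_algebraMap (R := ℤ) (A := N) (x := (p : ℤ))
    simpa using h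
  have hκi : IsIntegral ℤ κ := by
    apply IsIntegral.of_pow hq.pos
    rw [hκ, show (c : M) = algebraMap (𝓞 M) M c from rfl]
    have h := RingOfIntegers.isIntegral_coe c
    exact IsIntegral.algebraMap h
  let πi : 𝓞 N := ⟨π, hπi⟩
  let κi : 𝓞 N := ⟨κ, hκi⟩
  -- a large prime
  let nrm : ℕ := Ideal.absNorm (Ideal.span {c})
  have hnrm : nrm ≠ 0 := by
    rw [Ne, Ideal.absNorm_eq_zero_iff, Ideal.span_singleton_eq_bot]
    exact hc
  obtain ⟨ℓ, ⟨hℓp, hxp⟩, hℓ⟩ := (Pool.Agent.W401.Cheb.infinite_frob N gQ).exists_gt (N0 + nrm + q)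
  have hℓf : Fact ℓ.Prime := ⟨hℓp⟩
  have hex : ∃ φ : 𝓞 N →+* AlgebraicClosure (ZMod ℓ), Pool.Agent.W401.Cheb.HasFrob ℓ φ gQ := by
    unfold Pool.Agent.W401.Cheb.xp at hxp
    rw [dif_pos hℓp] at hxp
    by_contra h
    push Not at h
    apply hxp
    have : IsEmpty {φ : 𝓞 N →+* AlgebraicClosure (ZMod ℓ) // Pool.Agent.W401.Cheb.HasFrob ℓ φ gQ} :=
      ⟨fun x => h x.1 x.2⟩
    exact Nat.card_of_isEmpty
  obtain ⟨φN, hφN⟩ := hex
  let k := AlgebraicClosure (ZMod ℓ)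
  have hchk : CharP k ℓ := charP_of_injective_algebraMap (algebraMap (ZMod ℓ) k).injective ℓ
  let ψ : 𝓞 M →+* k := φN.comp (algebraMap (𝓞 M) (𝓞 N))
  have hψfix : ∀ x : 𝓞 M, ψ x ^ ℓ = ψ x := by
    intro x
    have h1 := hφN (algebraMap (𝓞 M) (𝓞 N) x)
    have h2 : gQ • (algebraMap (𝓞 M) (𝓞 N) x) = algebraMap (𝓞 M) (𝓞 N) x := by
      apply RingOfIntegers.ext
      show g (algebraMap M N (x : M)) = _
      rw [AlgEquiv.commutes]
      rfl
    rw [h2] at h1
    exact h1.symm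
  have hlift : ∀ x : 𝓞 M, ∃ y : ZMod ℓ, algebraMap (ZMod ℓ) k y = ψ x := fun x => fixed_frob (hψfix x)
  choose φ0 hφ0 using hlift
  have hinj : Function.Injective (algebraMap (ZMod ℓ) k) := (algebraMap (ZMod ℓ) k).injective
  let φ : 𝓞 M →+* ZMod ℓ :=
    { toFun := φ0
      map_one' := hinj (by rw [hφ0, map_one, map_one])
      map_mul' := fun x y => hinj (by rw [hφ0, map_mul, map_mul, hφ0, hφ0])
      map_zero' := hinj (by rw [hφ0, map_zero, map_zero])
      map_add' := fun x y => hinj (by rw [hφ0, map_add, map_add, hφ0, hφ0]) }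
  have hφ : ∀ x, algebraMap (ZMod ℓ) k (φ x) = ψ x := hφ0
  -- `π`
  have hπk : φN πi ^ ℓ = φN πi := by
    have h1 := hφN πi
    have h2 : gQ • πi = πi := by
      apply RingOfIntegers.ext
      exact hgπ
    rw [h2] at h1
    exact h1.symm
  obtain ⟨y, hy⟩ := fixed_frob hπk
  have hπq : πi ^ q = algebraMap (𝓞 M) (𝓞 N) (p : 𝓞 M) := by
    apply RingOfIntegers.ext
    rw [RingOfIntegers.coe_eq_algebraMap, map_pow]
    show π ^ q = _
    rw [hπ, map_natCast, map_natCast]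
    rfl
  have hκq : κi ^ q = algebraMap (𝓞 M) (𝓞 N) c := by
    apply RingOfIntegers.ext
    rw [RingOfIntegers.coe_eq_algebraMap, map_pow]
    show κ ^ q = _
    rw [hκ]
    rfl
  have hyq : y ^ q = (p : ZMod ℓ) := by
    apply hinj
    rw [map_pow, hy, ← map_pow, hπq, map_natCast, map_natCast, map_natCast]
  have hφc : φ c ≠ 0 := by
    intro h
    have h1 : (nrm : 𝓞 M) ∈ Ideal.span {c} := Ideal.absNorm_mem _
    rw [Ideal.mem_span_singleton] at h1
    obtain ⟨d, hd⟩ := h1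
    have h2 : φ (nrm : 𝓞 M) = 0 := by rw [hd, map_mul, h, zero_mul]
    rw [map_natCast, ZMod.natCast_eq_zero_iff] at h2
    have := Nat.le_of_dvd (Nat.pos_of_ne_zero hnrm) h2
    omega
  refine ⟨ℓ, hℓp, by omega, ⟨(y.val : ℤ), ?_⟩, φ, hφc, ?_⟩
  · rw [← ZMod.intCast_zmod_eq_zero_iff_dvd]
    push_cast
    rw [ZMod.natCast_val, ZMod.cast_id, hyq, sub_self]
  · rintro ⟨b, hb⟩
    -- `ζ` modulo `ℓ`
    have hζi : IsIntegral ℤ ζ := by
      apply IsIntegral.of_pow hq.pos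
      rw [hζ.pow_eq_one]
      exact isIntegral_one
    let ζi : 𝓞 M := ⟨ζ, hζi⟩
    have hζip : IsPrimitiveRoot ζi q := by
      apply IsPrimitiveRoot.of_map_of_injective (f := algebraMap (𝓞 M) M)
      · exact hζ
      · exact RingOfIntegers.coe_injective
    have : NeZero (q : k) := by
      refine ⟨?_⟩
      intro h
      rw [CharP.cast_eq_zero_iff k ℓ q] at h
      have := Nat.le_of_dvd hq.pos h
      omega
    have hζk : IsPrimitiveRoot (ψ ζi) q := by
      refine (hζip.isRoot_cyclotomic hq.pos |> fun h => ?_)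
      rw [← isRoot_cyclotomic_iff]
      have h1 : (cyclotomic q (𝓞 M)).eval ζi = 0 := h
      show (cyclotomic q k).eval (ψ ζi) = 0
      rw [← map_cyclotomic q ψ, eval_map, eval₂_hom, h1, map_zero]
    have hkap : (φN κi) ^ q = (algebraMap (ZMod ℓ) k b) ^ q := by
      rw [← map_pow, hκq, ← map_pow, ← hb, hφ]
      rfl
    have hb0 : algebraMap (ZMod ℓ) k b ≠ 0 := by
      rw [Ne, map_eq_zero]
      rintro rfl
      rw [zero_pow hq.ne_zero] at hb
      exact hφc hb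
    have hkap1 : (φN κi / algebraMap (ZMod ℓ) k b) ^ q = 1 := by
      rw [div_pow, hkap, div_self (pow_ne_zero _ hb0)]
    have : NeZero q := ⟨hq.ne_zero⟩
    obtain ⟨i, _, hi⟩ := hζk.eq_pow_of_pow_eq_one hkap1
    have hkap2 : φN κi = (ψ ζi) ^ i * algebraMap (ZMod ℓ) k b := by
      rw [hi, div_mul_cancel₀ _ hb0]
    have hkap0 : φN κi ≠ 0 := by
      intro h
      rw [h, zero_pow hq.ne_zero] at hkap
      exact pow_ne_zero _ hb0 hkap.symm
    have hkfix : (φN κi) ^ ℓ = φN κi := by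
      rw [hkap2, mul_pow, ← pow_mul, mul_comm i ℓ, pow_mul, hψfix]
      congr 1
      rw [← map_pow, ZMod.pow_card]
    -- `g κ = ζ ^ a κ`
    have hgk := hφN κi
    rw [hkfix] at hgk
    have hκ0 : κ ≠ 0 := by
      rintro rfl
      rw [zero_pow hq.ne_zero] at hκ
      exact hc0 ((map_eq_zero _).1 hκ.symm)
    have h1 : (g κ / κ) ^ q = 1 := by
      rw [div_pow, ← map_pow, hκ, AlgEquiv.commutes, div_self]
      rw [← hκ]
      exact pow_ne_zero _ hκ0
    have hζN : IsPrimitiveRoot (algebraMap M N ζ) q := hζ.map_of_injective (algebraMap M N).injective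
    obtain ⟨a, ha, hga⟩ := hζN.eq_pow_of_pow_eq_one h1
    have hga2 : gQ • κi = (algebraMap (𝓞 M) (𝓞 N) ζi) ^ a * κi := by
      apply RingOfIntegers.ext
      rw [RingOfIntegers.coe_eq_algebraMap, RingOfIntegers.coe_eq_algebraMap, map_mul, map_pow]
      show g κ = (algebraMap M N ζ) ^ a * κ
      rw [hga, div_mul_cancel₀ _ hκ0]
    rw [hga2, map_mul, map_pow] at hgk
    have hone : (ψ ζi) ^ a = 1 := by
      have : (ψ ζi) ^ a * φN κi = 1 * φN κi := by
        rw [one_mul]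
        exact hgk
      exact mul_right_cancel₀ hkap0 this
    rw [hζk.pow_eq_one_iff_dvd] at hone
    have ha0 : a = 0 := Nat.eq_zero_of_dvd_of_lt hone ha
    rw [ha0, pow_zero] at hga
    apply hgκ
    rw [eq_div_iff hκ0, one_mul] at hga
    exact hga.symm

end Run7.h846
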