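import Mathlib

/-!
# Additive valuations of number fields and norms
-/

set_option autoImplicit false

namespace Run7.h846

open NumberField IsDedekindDomain

/-- the additive valuation of a nonzero element (`0` at `0`) -/
noncomputable def ord {K : Type} [Field K] [NumberField K] (v : HeightOneSpectrum (𝓞 K)) (x : K) : ℤ :=
  - WithZero.log (v.valuation K x)

section one

variable {K : Type} [Field K] [NumberField K] (v : HeightOneSpectrum (𝓞 K))

lemma val_ne {x : K} (hx : x ≠ 0) : v.valuation K x ≠ 0 := (Valuation.ne_zero_iff _).2 hx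

lemma ord_mul {x y : K} (hx : x ≠ 0) (hy : y ≠ 0) : ord v (x * y) = ord v x + ord v y := by
  unfold ord
  rw [map_mul, WithZero.log_mul (val_ne v hx) (val_ne v hy)]
  ring

lemma ord_one : ord v (1 : K) = 0 := by
  unfold ord
  rw [map_one, WithZero.log_one, neg_zero]

lemma ord_inv (x : K) : ord v x⁻¹ = - ord v x := by
  unfold ord
  rw [map_inv₀, WithZero.log_inv]

lemma ord_div {x y : K} (hx : x ≠ 0) (hy : y ≠ 0) : ord v (x / y) = ord v x - ord v y := by
  rw [div_eq_mul_inv, ord_mul v hx (inv_ne_zero hy), ord_inv]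
  ring

lemma ord_pow (x : K) (n : ℕ) : ord v (x ^ n) = n * ord v x := by
  unfold ord
  rw [map_pow, WithZero.log_pow, nsmul_eq_mul]
  ring

lemma ord_zpow (x : K) (n : ℤ) : ord v (x ^ n) = n * ord v x := by
  unfold ord
  rw [map_zpow₀, WithZero.log_zpow, zsmul_eq_mul]
  push_cast
  ring

lemma ord_neg (x : K) : ord v (-x) = ord v x := by
  unfold ord
  rw [Valuation.map_neg]

lemma ord_prod {ι : Type*} (s : Finset ι) (g : ι → K) (h : ∀ i ∈ s, g i ≠ 0) :
    ord v (∏ i ∈ s, g i) = ∑ i ∈ s, ord v (g i) := by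
  classical
  induction s using Finset.induction_on with
  | empty => simp [ord_one]
  | insert a s ha ih =>
    rw [Finset.prod_insert ha, Finset.sum_insert ha, ord_mul v (h a (Finset.mem_insert_self _ _))
      (Finset.prod_ne_zero_iff.2 fun i hi => h i (Finset.mem_insert_of_mem hi)),
      ih fun i hi => h i (Finset.mem_insert_of_mem hi)]

lemma ord_nonneg_iff {x : K} (hx : x ≠ 0) : 0 ≤ ord v x ↔ v.valuation K x ≤ 1 := by
  unfold ord
  rw [← WithZero.log_le_log (val_ne v hx) one_ne_zero, WithZero.log_one]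
  omega

lemma ord_pos_iff {x : K} (hx : x ≠ 0) : 0 < ord v x ↔ v.valuation K x < 1 := by
  unfold ord
  rw [← WithZero.log_lt_log (val_ne v hx) one_ne_zero, WithZero.log_one]
  omega

lemma ord_eq_zero_iff {x : K} (hx : x ≠ 0) : ord v x = 0 ↔ v.valuation K x = 1 := by
  constructor
  · intro h
    apply le_antisymm ((ord_nonneg_iff v hx).1 h.ge)
    rw [← not_lt, ← ord_pos_iff v hx]
    omega
  · intro h
    unfold ord
    rw [h, WithZero.log_one, neg_zero]

lemma ord_int_nonneg (r : 𝓞 K) : 0 ≤ ord v (r : K) := by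
  by_cases h : (r : K) = 0
  · unfold ord
    rw [h, map_zero, WithZero.log_zero, neg_zero]
  · exact (ord_nonneg_iff v h).2 (v.valuation_le_one r)

lemma ord_int_pos_iff {r : 𝓞 K} (hr : r ≠ 0) : 0 < ord v (r : K) ↔ r ∈ v.asIdeal := by
  rw [ord_pos_iff v (by simpa using hr)]
  exact v.valuation_lt_one_iff_mem r

lemma ord_int_ge_iff' {r : 𝓞 K} (hr : r ≠ 0) (n : ℕ) :
    (n : ℤ) ≤ ord v (r : K) ↔ r ∈ v.asIdeal ^ n := by
  rw [← v.intValuation_le_pow_iff_mem]
  have h0 : (r : K) ≠ 0 := by simpa using hr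
  unfold ord
  rw [show (r : K) = algebraMap (𝓞 K) K r from rfl, HeightOneSpectrum.valuation_of_algebraMap]
  have h1 : v.intValuation r ≠ 0 := by
    rw [← HeightOneSpectrum.valuation_of_algebraMap (K := K)]
    exact val_ne v h0
  rw [← WithZero.log_le_log h1 WithZero.exp_ne_zero, WithZero.log_exp]
  omega

/-- ultrametric inequality -/
lemma ord_add_ge {x y : K} (hx : x ≠ 0) (hy : y ≠ 0) (hxy : x + y ≠ 0) :
    min (ord v x) (ord v y) ≤ ord v (x + y) := by
  unfold ord
  have h := (v.valuation K).map_add x y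
  rcases le_max_iff.1 h with h | h
  · have := (WithZero.log_le_log (val_ne v hxy) (val_ne v hx)).2 h
    omega
  · have := (WithZero.log_le_log (val_ne v hxy) (val_ne v hy)).2 h
    omega

lemma ord_add_of_lt {x y : K} (hx : x ≠ 0) (hy : y ≠ 0) (h : ord v x < ord v y) :
    x + y ≠ 0 ∧ ord v (x + y) = ord v x := by
  have h1 : v.valuation K y < v.valuation K x := by
    rw [← WithZero.log_lt_log (val_ne v hy) (val_ne v hx)]
    unfold ord at h
    omega
  have h2 := (v.valuation K).map_add_eq_of_lt_left h1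
  refine ⟨?_, ?_⟩
  · rw [← Valuation.ne_zero_iff (v.valuation K), h2]
    exact val_ne v hx
  · unfold ord
    rw [h2]

end one

end Run7.h846
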