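import Pool.Agent.H645R3.ABC3
import Pool.Agent.Run7.h846.Val

/-!
# Finiteness of the Selmer group of a finite set of places
-/

set_option autoImplicit false

namespace Run7.h846

open NumberField IsDedekindDomain

variable {M : Type} [Field M] [NumberField M]

lemma ord_eq_vl (v : HeightOneSpectrum (𝓞 M)) (y : Mˣ) : ord v (y : M) = - H645.ABC.vl v y := by
  unfold ord H645.ABC.vl
  rw [← HeightOneSpectrum.valuationOfNeZero_eq]
  rfl

/-- finitely many classes modulo `q`-th powers of elements with valuation divisible by `q`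
outside a finite set -/
theorem selS (q : ℕ) (hq : 0 < q) (S : Set (HeightOneSpectrum (𝓞 M))) (hS : S.Finite) :
    ∃ R : Finset (𝓞 M), (∀ c ∈ R, c ≠ 0) ∧
      ∀ z : M, z ≠ 0 → (∀ v ∉ S, (q : ℤ) ∣ ord v z) → ∃ c ∈ R, ∃ w : M, w ≠ 0 ∧ z = (c : M) * w ^ q := by
  classical
  obtain ⟨ι, hι, c, hc⟩ := H645.ABC.selmer (K := M) q hq
  have : NeZero q := ⟨hq.ne'⟩
  have : Finite S := hS
  let P : Mˣ → Prop := fun z => ∀ v ∉ S, (q : ℤ) ∣ ord v (z : M)
  let res : Mˣ → (S → ZMod q) := fun z v => ((ord v.1 (z : M) : ℤ) : ZMod q)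
  -- representatives of residue vectors
  let rp : (S → ZMod q) → Mˣ := fun r => if h : ∃ z, P z ∧ res z = r then h.choose else 1
  have hrp : ∀ z, P z → P (rp (res z)) ∧ res (rp (res z)) = res z := by
    intro z hz
    have h : ∃ z', P z' ∧ res z' = res z := ⟨z, hz, rfl⟩
    show P (if h : ∃ z', P z' ∧ res z' = res z then h.choose else 1) ∧
      res (if h : ∃ z', P z' ∧ res z' = res z then h.choose else 1) = res z
    rw [dif_pos h]
    exact h.choose_spec
  let cl : Mˣ → (S → ZMod q) × ι := fun z => (res z, c (z / rp (res z)))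
  have key : ∀ z, P z → ∀ v : HeightOneSpectrum (𝓞 M), (q : ℤ) ∣ H645.ABC.vl v (z / rp (res z)) := by
    intro z hz v
    rw [H645.ABC.vl_div]
    have h1 := ord_eq_vl v z
    have h2 := ord_eq_vl v (rp (res z))
    by_cases hv : v ∈ S
    · have h3 := congrFun (hrp z hz).2 ⟨v, hv⟩
      have h4 : (q : ℤ) ∣ ord v (z : M) - ord v ((rp (res z) : Mˣ) : M) :=
        (ZMod.intCast_eq_intCast_iff_dvd_sub _ _ q).1 h3
      rw [h1, h2] at h4
      have h5 : H645.ABC.vl v z - H645.ABC.vl v (rp (res z)) =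
        -(-H645.ABC.vl v z - -H645.ABC.vl v (rp (res z))) := by ring
      rw [h5, dvd_neg]
      exact h4
    · have h3 := hz v hv
      have h4 := (hrp z hz).1 v hv
      rw [h1, dvd_neg] at h3
      rw [h2, dvd_neg] at h4
      exact dvd_sub h3 h4
  have hcl : ∀ z z', P z → P z' → cl z = cl z' → ∃ w : Mˣ, z = z' * w ^ q := by
    intro z z' hz hz' h
    have h1 : res z = res z' := congrArg Prod.fst h
    have h2 : c (z / rp (res z)) = c (z' / rp (res z')) := congrArg Prod.snd h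
    obtain ⟨w, hw⟩ := hc _ _ (key z hz) (key z' hz') h2
    refine ⟨w, ?_⟩
    rw [h1] at hw
    rw [div_eq_iff_eq_mul] at hw
    rw [hw, div_mul_eq_mul_div, div_mul_cancel]
  -- representatives of classes, made integral
  have hint : ∀ z : Mˣ, ∃ (a : 𝓞 M) (w : M), a ≠ 0 ∧ w ≠ 0 ∧ (z : M) = (a : M) * w ^ q := by
    intro z
    obtain ⟨n, d, hd, hnd⟩ := IsFractionRing.div_surjective (A := 𝓞 M) (z : M)
    have hd0 : d ≠ 0 := nonZeroDivisors.ne_zero hd
    have hdK : algebraMap (𝓞 M) M d ≠ 0 := by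
      rw [Ne, FaithfulSMul.algebraMap_eq_zero_iff]
      exact hd0
    have hn0 : n ≠ 0 := by
      rintro rfl
      rw [map_zero, zero_div] at hnd
      exact z.ne_zero hnd.symm
    refine ⟨n * d ^ (q - 1), (algebraMap (𝓞 M) M d)⁻¹, mul_ne_zero hn0 (pow_ne_zero _ hd0),
      inv_ne_zero hdK, ?_⟩
    rw [← hnd, show ((n * d ^ (q - 1) : 𝓞 M) : M) =
      algebraMap (𝓞 M) M n * (algebraMap (𝓞 M) M d) ^ (q - 1) by
        rw [← map_pow, ← map_mul]]
    have : (algebraMap (𝓞 M) M d) ^ q = (algebraMap (𝓞 M) M d) ^ (q - 1) * algebraMap (𝓞 M) M d := by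
      rw [← pow_succ]
      congr 1
      omega
    rw [inv_pow, this]
    field_simp
  choose A W hA hW hAW using hint
  have hfin : Finite ((S → ZMod q) × ι) := inferInstance
  have : Fintype ((S → ZMod q) × ι) := Fintype.ofFinite _
  let g : (S → ZMod q) × ι → Mˣ := fun k => if h : ∃ z, P z ∧ cl z = k then h.choose else 1
  have hg : ∀ z, P z → P (g (cl z)) ∧ cl (g (cl z)) = cl z := by
    intro z hz
    have h : ∃ z', P z' ∧ cl z' = cl z := ⟨z, hz, rfl⟩
    show P (if h : ∃ z', P z' ∧ cl z' = cl z then h.choose else 1) ∧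
      cl (if h : ∃ z', P z' ∧ cl z' = cl z then h.choose else 1) = cl z
    rw [dif_pos h]
    exact h.choose_spec
  refine ⟨Finset.univ.image fun k => A (g k), ?_, ?_⟩
  · intro c hc
    obtain ⟨k, _, rfl⟩ := Finset.mem_image.1 hc
    exact hA _
  · intro z hz0 hz
    let u : Mˣ := Units.mk0 z hz0
    have hu : P u := hz
    obtain ⟨hg1, hg2⟩ := hg u hu
    obtain ⟨w, hw⟩ := hcl u (g (cl u)) hu hg1 hg2.symm
    refine ⟨A (g (cl u)), Finset.mem_image_of_mem _ (Finset.mem_univ _), W (g (cl u)) * w,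
      mul_ne_zero (hW _) w.ne_zero, ?_⟩
    have h1 : (u : M) = (g (cl u) : M) * (w : M) ^ q := by
      conv_lhs => rw [hw]
      push_cast
      rfl
    rw [show z = (u : M) from rfl, h1, hAW (g (cl u)), mul_pow]
    ring

end Run7.h846
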