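import Pool.Agent.Run7.h846.Eis
import Pool.Agent.TH115.TC.Compl

/-!
# Completions, and the local analysis of a point of a covering
-/

set_option autoImplicit false

namespace Run7.h846

open NumberField IsDedekindDomain Polynomial

section nu

variable {k : Type} [Field k] (ν : Valuation k (WithZero (Multiplicative ℤ)))

/-- the additive valuation -/
noncomputable def oo (x : k) : ℤ := - WithZero.log (ν x)

lemma nu_ne {x : k} (hx : x ≠ 0) : ν x ≠ 0 := (Valuation.ne_zero_iff _).2 hx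

lemma oo_mul {x y : k} (hx : x ≠ 0) (hy : y ≠ 0) : oo ν (x * y) = oo ν x + oo ν y := by
  unfold oo
  rw [map_mul, WithZero.log_mul (nu_ne ν hx) (nu_ne ν hy)]
  ring

lemma oo_pow (x : k) (n : ℕ) : oo ν (x ^ n) = n * oo ν x := by
  unfold oo
  rw [map_pow, WithZero.log_pow, nsmul_eq_mul]
  ring

lemma oo_one : oo ν (1 : k) = 0 := by
  unfold oo
  rw [map_one, WithZero.log_one, neg_zero]

lemma oo_prod {ι : Type*} (s : Finset ι) (g : ι → k) (h : ∀ i ∈ s, g i ≠ 0) :
    oo ν (∏ i ∈ s, g i) = ∑ i ∈ s, oo ν (g i) := by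
  classical
  induction s using Finset.induction_on with
  | empty => simp [oo_one]
  | insert a s ha ih =>
    rw [Finset.prod_insert ha, Finset.sum_insert ha,
      oo_mul ν (h a (Finset.mem_insert_self _ _)) (Finset.prod_ne_zero_iff.2 fun i hi =>
        h i (Finset.mem_insert_of_mem hi)), ih fun i hi => h i (Finset.mem_insert_of_mem hi)]

/-- the valuations of `x - w Θ i` -/
lemma near_root {Ω : Type} [Fintype Ω] [Nonempty Ω] (Θ : Ω → k)
    (hΘ : ∀ i i', i ≠ i' → ν (Θ i - Θ i') = 1) (x w : k) (hxw : ¬ (x = 0 ∧ w = 0)) :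
    ∃ (μ : ℤ) (i₀ : Ω), ∀ i, i ≠ i₀ → x - w * Θ i ≠ 0 ∧ oo ν (x - w * Θ i) = μ := by
  classical
  by_cases hw : w = 0
  · subst hw
    have hx : x ≠ 0 := fun h => hxw ⟨h, rfl⟩
    refine ⟨oo ν x, Classical.arbitrary Ω, fun i _ => ?_⟩
    rw [zero_mul, sub_zero]
    exact ⟨hx, rfl⟩
  · let b : Ω → k := fun i => x / w - Θ i
    have hb : ∀ i, x - w * Θ i = w * b i := by
      intro i
      show _ = w * (x / w - Θ i)
      rw [mul_sub, mul_div_cancel₀ _ hw]
    obtain ⟨i₀, -, hi₀⟩ := Finset.exists_min_image Finset.univ (fun i => ν (b i))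
      Finset.univ_nonempty
    have hdiff : ∀ i i', i ≠ i' → ν (b i' - b i) = 1 := by
      intro i i' h
      rw [← hΘ i i' h]
      congr 1
      show x / w - Θ i' - (x / w - Θ i) = _
      ring
    have hge : ∀ i, i ≠ i₀ → 1 ≤ ν (b i) := by
      intro i hi
      have h1 := hdiff i₀ i (Ne.symm hi)
      have h2 : ν (b i - b i₀) ≤ max (ν (b i)) (ν (b i₀)) := Valuation.map_sub _ _ _
      rw [h1, max_eq_left (hi₀ i (Finset.mem_univ i))] at h2
      exact h2
    have heq : ∀ i i', i ≠ i₀ → i' ≠ i₀ → ν (b i) ≤ ν (b i') := by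
      intro i i' hi hi'
      by_cases hii : i = i'
      · rw [hii]
      · have h1 := hdiff i' i (Ne.symm hii)
        have h2 : ν (b i) ≤ max (ν (b i - b i')) (ν (b i')) := by
          have h3 := Valuation.map_add ν (b i - b i') (b i')
          rwa [sub_add_cancel] at h3
        rw [h1, max_eq_right (hge i' hi')] at h2
        exact h2
    by_cases hex : ∃ i, i ≠ i₀
    · obtain ⟨i₁, hi₁⟩ := hex
      refine ⟨oo ν (w * b i₁), i₀, fun i hi => ?_⟩
      have hbi : b i ≠ 0 := by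
        intro h
        have h1 := hge i hi
        rw [h, map_zero] at h1
        exact absurd h1 (not_le.2 zero_lt_one)
      have h2 : ν (b i) = ν (b i₁) := le_antisymm (heq i i₁ hi hi₁) (heq i₁ i hi₁ hi)
      rw [hb]
      refine ⟨mul_ne_zero hw hbi, ?_⟩
      unfold oo
      rw [map_mul, map_mul, h2]
    · push Not at hex
      exact ⟨0, i₀, fun i hi => absurd (hex i) hi⟩

/-- the local analysis of a point of a covering -/
theorem loc_point (q : ℕ) {Ω : Type} [Fintype Ω] [Nonempty Ω] (hqn : q ∣ Fintype.card Ω) (Θ : Ω → k)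
    (hΘ : ∀ i i', i ≠ i' → ν (Θ i - Θ i') = 1) (u : Ω → k) (hu : ∀ i, u i ≠ 0) (t c : k)
    (ht : t ≠ 0) (hc : c ≠ 0) (hprod : ∏ i, u i = t * c ^ q) (x w : k) (hxw : ¬ (x = 0 ∧ w = 0))
    (Z : Ω → k) (hZ : ∀ i, x - w * Θ i = u i * Z i ^ q) (hq : q ≠ 0) :
    ∃ i₀, ∀ i, i ≠ i₀ → (q : ℤ) ∣ oo ν (u i₀) - oo ν (u i) - oo ν t := by
  classical
  obtain ⟨μ, i₀, h⟩ := near_root ν Θ hΘ x w hxw
  have h1 : ∀ i, i ≠ i₀ → ∃ m : ℤ, oo ν (u i) = μ + q * m := by
    intro i hi
    obtain ⟨h2, h3⟩ := h i hi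
    have hZi : Z i ≠ 0 := by
      intro h4
      apply h2
      rw [hZ, h4, zero_pow hq, mul_zero]
    rw [hZ, oo_mul ν (hu i) (pow_ne_zero _ hZi), oo_pow] at h3
    exact ⟨- oo ν (Z i), by linear_combination h3⟩
  choose! m hm using h1
  have h2 : oo ν (∏ i, u i) = oo ν t + q * oo ν c := by
    rw [hprod, oo_mul ν ht (pow_ne_zero _ hc), oo_pow]
  rw [oo_prod ν _ _ fun i _ => hu i, ← Finset.add_sum_erase _ _ (Finset.mem_univ i₀),
    Finset.sum_congr rfl fun i hi => hm i (Finset.ne_of_mem_erase hi), Finset.sum_add_distrib,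
    Finset.sum_const, Finset.card_erase_of_mem (Finset.mem_univ _), Finset.card_univ,
    ← Finset.mul_sum, nsmul_eq_mul] at h2
  obtain ⟨n, hn⟩ := hqn
  have hpos : 0 < Fintype.card Ω := Fintype.card_pos
  have hcard : ((Fintype.card Ω - 1 : ℕ) : ℤ) = q * n - 1 := by
    rw [Nat.cast_sub (by omega), hn]
    push_cast
    ring
  rw [hcard] at h2
  refine ⟨i₀, fun i hi => ⟨oo ν c - ∑ i ∈ Finset.univ.erase i₀, m i - n * μ - m i, ?_⟩⟩
  rw [hm i hi]
  linear_combination h2

end nu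

/-- the map of completions -/
theorem exists_cpl {L E : Type} [Field L] [NumberField L] [Field E] [NumberField E] (j : L →+* E)
    (W : HeightOneSpectrum (𝓞 E)) :
    ∃ (v : HeightOneSpectrum (𝓞 L)) (ι : v.adicCompletion L →+* W.adicCompletion E),
      ∀ x : L, ι (algebraMap L (v.adicCompletion L) x) = algebraMap E (W.adicCompletion E) (j x) := by
  let _ : Algebra L E := j.toAlgebra
  obtain ⟨v, hv⟩ := exists_under (F := L) W
  obtain ⟨ι, hι, -, -⟩ := Pool.Agent.TH115.GD.exists_compl_map v W j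
    (fun x hx => over_val_le hv hx) (fun x hx => over_val_lt hv hx)
  exact ⟨v, ι, hι⟩

lemma cpl_val {E : Type} [Field E] [NumberField E] (W : HeightOneSpectrum (𝓞 E)) (x : E) :
    (Valued.v (R := W.adicCompletion E) (Γ₀ := WithZero (Multiplicative ℤ)))
      (algebraMap E (W.adicCompletion E) x) = W.valuation E x :=
  HeightOneSpectrum.valuedAdicCompletion_eq_valuation' W x

lemma cpl_oo {E : Type} [Field E] [NumberField E] (W : HeightOneSpectrum (𝓞 E)) (x : E) :
    oo (Valued.v (R := W.adicCompletion E) (Γ₀ := WithZero (Multiplicative ℤ)))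
      (algebraMap E (W.adicCompletion E) x) = ord W x := by
  unfold oo ord
  rw [cpl_val]

end Run7.h846
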