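import Pool.Agent.Run7.h846.Des
import Pool.Agent.N787.PJ.Ext

/-!
# The local analysis of a zero-cycle of degree `m` on `t y ^ q = g(x)`
-/

set_option autoImplicit false

namespace Run7.h846

open NumberField IsDedekindDomain Polynomial
open scoped NNReal

/-- a polynomial which splits is a product over a finite type -/
lemma split_fin {k : Type} [Field k] (p : k[X]) (hp : p.Monic) (hs : p.Splits) :
    ∃ (n : ℕ) (α : Fin n → k), p = ∏ i, (X - C (α i)) ∧ p.natDegree = n := by
  obtain ⟨l, hl⟩ : ∃ l, l = p.roots.toList := ⟨_, rfl⟩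
  have h2 := hs.eq_prod_roots_of_monic hp
  have h3 : p = ∏ i : Fin l.length, (X - C (l.get i)) := by
    have h4 : p = (l.map (X - C ·)).prod := by
      conv_lhs => rw [h2]
      rw [← Multiset.coe_toList p.roots, Multiset.map_coe, Multiset.prod_coe, hl]
    rw [h4]
    conv_lhs => rw [← List.ofFn_get l, List.map_ofFn, List.prod_ofFn]
    rfl
  refine ⟨l.length, l.get, h3, ?_⟩
  conv_lhs => rw [h3]
  rw [natDegree_prod_of_monic _ _ fun i _ => monic_X_sub_C _]
  simp only [natDegree_X_sub_C, Finset.sum_const, Finset.card_univ, Fintype.card_fin, smul_eq_mul,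
    mul_one]

section nu

variable {k : Type} [Field k] (ν : Valuation k (WithZero (Multiplicative ℤ)))

lemma oo_neg (x : k) : oo ν (-x) = oo ν x := by
  unfold oo
  rw [Valuation.map_neg]

lemma oo_neg_one_pow_mul (n : ℕ) (x : k) : oo ν ((-1) ^ n * x) = oo ν x := by
  unfold oo
  rw [map_mul, map_pow, Valuation.map_neg, map_one, one_pow, one_mul]

/-- the sum of the valuations -/
theorem cyc_sum (q : ℕ) (Ω : Type) [Fintype Ω] (Θ : Ω → k) (t : k) (ht : t ≠ 0) (g U V : k[X])
    (hg : g = ∏ i, (X - C (Θ i))) (hU : U.Monic) (hco : IsCoprime U g) (hV : U ∣ g - C t * V ^ q) :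
    (∀ i, U.eval (Θ i) ≠ 0) ∧
      ∃ e : ℤ, ∑ i, oo ν (U.eval (Θ i)) = U.natDegree * oo ν t + q * e := by
  classical
  have hg0 : ∀ i, g.eval (Θ i) = 0 := by
    intro i
    rw [hg, eval_prod]
    exact Finset.prod_eq_zero (Finset.mem_univ i) (by rw [eval_sub, eval_X, eval_C, sub_self])
  have hne : ∀ i, U.eval (Θ i) ≠ 0 := by
    intro i hi
    obtain ⟨a, b, hab⟩ := hco
    have h1 := congrArg (eval (Θ i)) hab
    rw [eval_add, eval_mul, eval_mul, hi, hg0, mul_zero, mul_zero, add_zero, eval_one] at h1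
    exact zero_ne_one h1
  refine ⟨hne, ?_⟩
  let kb := AlgebraicClosure k
  let a : k →+* kb := algebraMap k kb
  obtain ⟨n, α, hα, hn⟩ := split_fin (U.map a) (hU.map _) (IsAlgClosed.splits _)
  rw [hU.natDegree_map] at hn
  -- the values at the roots of `U`
  have h1 : a (resultant U g) = ∏ i, g.eval₂ a (α i) := res_prod a U g α hα
  have h2 : a (resultant U V) = ∏ i, V.eval₂ a (α i) := res_prod a U V α hα
  have h3 : ∀ i, g.eval₂ a (α i) = a t * (V.eval₂ a (α i)) ^ q := by
    intro i
    obtain ⟨r, hr⟩ := hV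
    have h4 : U.eval₂ a (α i) = 0 := by
      rw [← eval_map, hα, eval_prod]
      exact Finset.prod_eq_zero (Finset.mem_univ i) (by rw [eval_sub, eval_X, eval_C, sub_self])
    have h5 := congrArg (eval₂ a (α i)) hr
    rw [eval₂_sub, eval₂_mul, eval₂_C, eval₂_pow, eval₂_mul, h4, zero_mul, sub_eq_zero] at h5
    exact h5
  have h4 : resultant U g = t ^ n * (resultant U V) ^ q := by
    apply a.injective
    rw [h1, map_mul, map_pow, map_pow, h2, Finset.prod_congr rfl fun i _ => h3 i,
      Finset.prod_mul_distrib, Finset.prod_const, Finset.card_univ, Fintype.card_fin,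
      Finset.prod_pow]
  have h5 : resultant g U = ∏ i, U.eval (Θ i) := by
    have h6 := res_prod (RingHom.id k) g U Θ (by rw [Polynomial.map_id]; exact hg)
    simpa only [RingHom.id_apply, eval₂_id] using h6
  have h6 : ∏ i, U.eval (Θ i) = (-1) ^ (g.natDegree * U.natDegree) * (t ^ n * (resultant U V) ^ q) := by
    rw [← h5, ← h4]
    exact resultant_comm g U g.natDegree U.natDegree
  have h7 : ∏ i, U.eval (Θ i) ≠ 0 := Finset.prod_ne_zero_iff.2 fun i _ => hne i
  have h8 : (resultant U V) ^ q ≠ 0 := by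
    intro h
    apply h7
    rw [h6, h, mul_zero, mul_zero]
  have h9 : oo ν (∏ i, U.eval (Θ i)) = n * oo ν t + q * oo ν (resultant U V) := by
    rw [h6, oo_neg_one_pow_mul, oo_mul ν (pow_ne_zero _ ht) h8, oo_pow, oo_pow]
  refine ⟨oo ν (resultant U V), ?_⟩
  rw [← oo_prod ν _ _ fun i _ => hne i, h9, hn]

end nu

/-- the valuations of an irreducible factor -/
theorem cyc_irr (k : Type) [Field k] (ν : Valuation k (WithZero (Multiplicative ℤ)))
    (w : Valuation (AlgebraicClosure k) ℝ≥0)
    (hw : ∀ x : k, w (algebraMap k (AlgebraicClosure k) x) = Pool.Agent.N787.PJ.hm (ν x))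
    (hσ : ∀ (σ : AlgebraicClosure k ≃ₐ[k] AlgebraicClosure k) (x : AlgebraicClosure k),
      w (σ x) = w x)
    (q : ℕ) (Ω : Type) [Fintype Ω] (Θ : Ω → k) (hΘ : ∀ i i', i ≠ i' → ν (Θ i - Θ i') = 1)
    (t : k) (ht : t ≠ 0) (ht0 : oo ν t = 0) (g U V : k[X])
    (hg : g = ∏ i, (X - C (Θ i))) (hU : U.Monic) (hirr : Irreducible U) (hco : IsCoprime U g)
    (hV : U ∣ g - C t * V ^ q) (i i' : Ω) :
    (q : ℤ) ∣ oo ν (U.eval (Θ i)) - oo ν (U.eval (Θ i')) := by
  classical
  obtain ⟨hne, e, he⟩ := cyc_sum ν q Ω Θ t ht g U V hg hU hco hV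
  rw [ht0, mul_zero, zero_add] at he
  let kb := AlgebraicClosure k
  let a : k →+* kb := algebraMap k kb
  obtain ⟨n, α, hα, hn⟩ := split_fin (U.map a) (hU.map _) (IsAlgClosed.splits _)
  rw [hU.natDegree_map] at hn
  have hn0 : n ≠ 0 := by
    rw [← hn]
    exact hirr.natDegree_pos.ne'
  have hroot : ∀ l, aeval (α l) U = 0 := by
    intro l
    rw [aeval_def, ← eval_map]
    show (U.map a).eval (α l) = 0
    rw [hα, eval_prod]
    exact Finset.prod_eq_zero (Finset.mem_univ l) (by rw [eval_sub, eval_X, eval_C, sub_self])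
  have hmin : ∀ l, minpoly k (α l) = U := fun l => (minpoly.eq_of_irreducible_of_monic hirr (hroot l) hU).symm
  let l₀ : Fin n := ⟨0, Nat.pos_of_ne_zero hn0⟩
  have hconj : ∀ l (x : k), w (a x - α l) = w (a x - α l₀) := by
    intro l x
    have h1 : IsConjRoot k (α l₀) (α l) := (hmin l₀).trans (hmin l).symm
    obtain ⟨σ, hσ1⟩ := isConjRoot_iff_exists_algEquiv.1 h1
    have h2 : a x - α l₀ = σ (a x - α l) := by
      rw [map_sub, hσ1]
      congr 1
      exact (σ.commutes x).symm
    rw [h2, hσ]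
  have hval : ∀ x : k, w (a (U.eval x)) = w (a x - α l₀) ^ n := by
    intro x
    have h1 : a (U.eval x) = ∏ l, (a x - α l) := by
      have h2 : a (U.eval x) = (U.map a).eval (a x) := by
        rw [eval_map, eval₂_at_apply]
      rw [h2, hα, eval_prod]
      refine Finset.prod_congr rfl fun l _ => ?_
      rw [eval_sub, eval_X, eval_C]
    rw [h1, map_prod, Finset.prod_congr rfl fun l _ => hconj l x, Finset.prod_const,
      Finset.card_univ, Fintype.card_fin]
  have hmono : StrictMono Pool.Agent.N787.PJ.hm := Pool.Agent.N787.PJ.hm_mono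
  have hdiff : ∀ i i', i ≠ i' → w (a (Θ i) - a (Θ i')) = 1 := by
    intro i i' h
    rw [← map_sub, hw, hΘ i i' h, map_one]
  have hoo : ∀ x y : k, w (a x) = w (a y) → oo ν x = oo ν y := by
    intro x y h
    rw [hw, hw] at h
    unfold oo
    rw [hmono.injective h]
  have hsub : ∀ i j, i ≠ j → w (a (Θ i) - α l₀) ≤ max 1 (w (a (Θ j) - α l₀)) := by
    intro i j h
    have h1 : a (Θ i) - α l₀ = (a (Θ i) - a (Θ j)) + (a (Θ j) - α l₀) := by ring
    have h2 := Valuation.map_add w (a (Θ i) - a (Θ j)) (a (Θ j) - α l₀)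
    rw [← h1, hdiff i j h] at h2
    exact h2
  by_cases hbig : ∃ j, 1 < w (a (Θ j) - α l₀)
  · obtain ⟨j, hj⟩ := hbig
    have hall : ∀ i, w (a (Θ i) - α l₀) = w (a (Θ j) - α l₀) := by
      intro i
      by_cases hij : i = j
      · rw [hij]
      · have h1 := hsub i j hij
        rw [max_eq_right hj.le] at h1
        have h2 := hsub j i (Ne.symm hij)
        refine le_antisymm h1 ?_
        rcases le_max_iff.1 h2 with h3 | h3
        · exact absurd h3 (not_le.2 hj)
        · exact h3
    have h1 : oo ν (U.eval (Θ i)) = oo ν (U.eval (Θ i')) := by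
      apply hoo
      rw [hval, hval, hall i, hall i']
    rw [h1, sub_self]
    exact dvd_zero _
  · push Not at hbig
    -- all valuations but at most one are zero
    have hone : ∀ x : k, w (a x - α l₀) = 1 → oo ν (U.eval x) = 0 := by
      intro x hx
      rw [← oo_one ν]
      apply hoo
      rw [hval, hx, one_pow, map_one, map_one]
    by_cases hsm : ∃ j, w (a (Θ j) - α l₀) < 1
    · obtain ⟨j, hj⟩ := hsm
      have hzero : ∀ i, i ≠ j → oo ν (U.eval (Θ i)) = 0 := by
        intro i hi
        apply hone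
        refine le_antisymm (hbig i) ?_
        have h1 : a (Θ i) - a (Θ j) = (a (Θ i) - α l₀) - (a (Θ j) - α l₀) := by ring
        have h2 : w (a (Θ i) - a (Θ j)) ≤ max (w (a (Θ i) - α l₀)) (w (a (Θ j) - α l₀)) := by
          rw [h1]
          exact Valuation.map_sub _ _ _
        rw [hdiff i j hi] at h2
        rcases le_max_iff.1 h2 with h3 | h3
        · exact h3
        · exact absurd h3 (not_le.2 hj)
      rw [Finset.sum_eq_single j (fun i _ hi => hzero i hi) (fun h => absurd (Finset.mem_univ _) h)]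
        at he
      have hdv : ∀ i, (q : ℤ) ∣ oo ν (U.eval (Θ i)) := by
        intro i
        by_cases hij : i = j
        · rw [hij, he]
          exact dvd_mul_right _ _
        · rw [hzero i hij]
          exact dvd_zero _
      exact dvd_sub (hdv i) (hdv i')
    · push Not at hsm
      rw [hone _ (le_antisymm (hbig i) (hsm i)), hone _ (le_antisymm (hbig i') (hsm i')), sub_self]
      exact dvd_zero _

/-- the valuations of a monic polynomial -/
theorem cyc_all (k : Type) [Field k] (ν : Valuation k (WithZero (Multiplicative ℤ)))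
    (w : Valuation (AlgebraicClosure k) ℝ≥0)
    (hw : ∀ x : k, w (algebraMap k (AlgebraicClosure k) x) = Pool.Agent.N787.PJ.hm (ν x))
    (hσ : ∀ (σ : AlgebraicClosure k ≃ₐ[k] AlgebraicClosure k) (x : AlgebraicClosure k),
      w (σ x) = w x)
    (q : ℕ) (Ω : Type) [Fintype Ω] (Θ : Ω → k) (hΘ : ∀ i i', i ≠ i' → ν (Θ i - Θ i') = 1)
    (t : k) (ht : t ≠ 0) (ht0 : oo ν t = 0) (g V : k[X])
    (hg : g = ∏ i, (X - C (Θ i))) (i i' : Ω) : ∀ (n : ℕ) (U : k[X]), U.natDegree = n → U.Monic →
    IsCoprime U g → U ∣ g - C t * V ^ q →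
    (q : ℤ) ∣ oo ν (U.eval (Θ i)) - oo ν (U.eval (Θ i')) := by
  intro n
  induction n using Nat.strong_induction_on with
  | _ n ih =>
    intro U hn hU hco hV
    by_cases h1 : U = 1
    · rw [h1, eval_one, eval_one, sub_self]
      exact dvd_zero _
    have hnu : ¬ IsUnit U := fun h => h1 (hU.eq_one_of_isUnit h)
    obtain ⟨P, hPm, hPi, hPU⟩ := exists_monic_irreducible_factor U hnu
    obtain ⟨U', hU'⟩ := hPU
    have hU'm : U'.Monic := by
      rw [hU'] at hU
      exact hPm.of_mul_monic_left hU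
    have hdeg : U.natDegree = P.natDegree + U'.natDegree := by
      rw [hU', hPm.natDegree_mul hU'm]
    have hPpos := hPi.natDegree_pos
    have hPc : IsCoprime P g := by
      rw [hU'] at hco
      exact hco.of_mul_left_left
    have hU'c : IsCoprime U' g := by
      rw [hU'] at hco
      exact hco.of_mul_left_right
    have hP := cyc_irr k ν w hw hσ q Ω Θ hΘ t ht ht0 g P V hg hPm hPi hPc
      ((Dvd.intro _ hU'.symm).trans hV) i i'
    have hQ := ih U'.natDegree (by omega) U' rfl hU'm hU'c ((Dvd.intro_left _ hU'.symm).trans hV)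
    have hne1 := (cyc_sum ν q Ω Θ t ht g P V hg hPm hPc ((Dvd.intro _ hU'.symm).trans hV)).1
    have hne2 := (cyc_sum ν q Ω Θ t ht g U' V hg hU'm hU'c
      ((Dvd.intro_left _ hU'.symm).trans hV)).1
    rw [hU', eval_mul, eval_mul, oo_mul ν (hne1 i) (hne2 i), oo_mul ν (hne1 i') (hne2 i')]
    have h2 := dvd_add hP hQ
    refine h2.trans (dvd_of_eq ?_)
    ring

/-- the extension of the valuation of a completion -/
theorem cpl_ext {E : Type} [Field E] [NumberField E] (W : HeightOneSpectrum (𝓞 E)) :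
    ∃ w : Valuation (AlgebraicClosure (W.adicCompletion E)) ℝ≥0,
      (∀ x : W.adicCompletion E, w (algebraMap _ _ x) = Pool.Agent.N787.PJ.hm
        ((Valued.v (R := W.adicCompletion E) (Γ₀ := WithZero (Multiplicative ℤ))) x)) ∧
      ∀ (σ : AlgebraicClosure (W.adicCompletion E) ≃ₐ[W.adicCompletion E]
        AlgebraicClosure (W.adicCompletion E)) (x : AlgebraicClosure (W.adicCompletion E)),
        w (σ x) = w x := by
  apply Pool.Agent.N787.PJ.ext_val (W.adicCompletion E)
  obtain ⟨π, hπ⟩ := W.valuation_exists_uniformizer E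
  refine ⟨algebraMap E _ π, ?_, ?_⟩
  · intro h
    have h1 := cpl_val W π
    rw [h, map_zero, hπ] at h1
    exact WithZero.exp_ne_zero h1.symm
  · rw [cpl_val, hπ]
    intro h
    rw [← WithZero.exp_zero, WithZero.exp_inj] at h
    omega

end Run7.h846
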