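import Pool.Agent.H391R2.HitSpec

/-!
# Specialisations with full decomposition group
-/

set_option autoImplicit false

namespace Run7.h846

open Polynomial Pointwise Pool.Agent.H391R2

theorem decomp {A B : Type} [CommRing A] [IsDomain A] [Algebra ℚ A] [CommRing B] [IsDomain B]
    [Algebra A B] (G : Type) [Group G] [Finite G] [MulSemiringAction G B]
    [SMulCommClass G A B] [Algebra.IsInvariant A B G]
    (hprim : ∀ H : Subgroup G, H ≠ ⊤ → ∃ w : B, (∀ h ∈ H, h • w = w) ∧ ∃ g : G, g • w ≠ w)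
    (hSP : SP A) (D : A) (hD : D ≠ 0) :
    ∃ φ₀ : A →+* ℚ, φ₀ D ≠ 0 ∧ ∀ 𝔪 : Ideal B, 𝔪.IsPrime →
      𝔪.comap (algebraMap A B) = RingHom.ker φ₀ → ∀ g : G, g • 𝔪 = 𝔪 := by
  classical
  have := Fintype.ofFinite G
  have hprim' : ∀ H : Subgroup G, ∃ w : B, H ≠ ⊤ → (∀ h ∈ H, h • w = w) ∧ ∃ g : G, g • w ≠ w := by
    intro H
    by_cases hH : H ≠ ⊤
    · obtain ⟨w, hw⟩ := hprim H hH
      exact ⟨w, fun _ => hw⟩
    · exact ⟨0, fun h => absurd h hH⟩
  choose w hw using hprim'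
  have hlift : ∀ H : Subgroup G, ∃ P : A[X],
      P.map (algebraMap A B) = MulSemiringAction.charpoly G (w H) ∧ P.Monic := by
    intro H
    obtain ⟨P, h1, _, h2⟩ := Polynomial.lifts_and_natDegree_eq_and_monic
      (Algebra.IsInvariant.charpoly_mem_lifts A B G (w H)) (MulSemiringAction.monic_charpoly G (w H))
    exact ⟨P, h1, h2⟩
  choose P hP hPm using hlift
  let Q : A[X] := ∏ H ∈ (Finset.univ : Finset (Subgroup G)).filter (fun H => H ≠ ⊤), P H
  have hQm : Q.Monic := monic_prod_of_monic _ _ fun H _ => hPm H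
  have hPeval : ∀ (H : Subgroup G) (a : A), algebraMap A B ((P H).eval a) =
      ∏ g : G, (algebraMap A B a - g • w H) := by
    intro H a
    rw [← eval₂_at_apply, ← eval_map, hP, MulSemiringAction.charpoly_eq, eval_prod]
    refine Finset.prod_congr rfl fun g _ => ?_
    rw [eval_sub, eval_X, eval_C]
  have hroot : ∀ a : A, Q.eval a ≠ 0 := by
    intro a ha
    rw [eval_prod] at ha
    obtain ⟨H, hH, hHa⟩ := Finset.prod_eq_zero_iff.1 ha
    rw [Finset.mem_filter] at hH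
    have h1 := hPeval H a
    rw [hHa, map_zero] at h1
    obtain ⟨g, _, hg⟩ := Finset.prod_eq_zero_iff.1 h1.symm
    rw [sub_eq_zero] at hg
    have h2 : w H = algebraMap A B a := by
      have h3 : g⁻¹ • algebraMap A B a = algebraMap A B a := smul_algebraMap _ _
      rw [← h3, hg, inv_smul_smul]
    obtain ⟨_, g', hg'⟩ := hw H hH.2
    apply hg'
    rw [h2]
    exact smul_algebraMap _ _
  obtain ⟨φ₀, hφD, hφ⟩ := hSP Q hQm hroot D hD
  refine ⟨φ₀, hφD, ?_⟩
  intro 𝔪 h𝔪 hcomap g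
  by_contra hne
  have hsurj : Function.Surjective φ₀ := by
    intro r
    refine ⟨algebraMap ℚ A r, ?_⟩
    have : φ₀.comp (algebraMap ℚ A) = RingHom.id ℚ := Subsingleton.elim _ _
    exact RingHom.congr_fun this r
  have hmax : (RingHom.ker φ₀).IsMaximal := RingHom.ker_isMaximal_of_surjective φ₀ hsurj
  have hlies : 𝔪.LiesOver (RingHom.ker φ₀) := ⟨hcomap.symm⟩
  have hint : Algebra.IsIntegral A B := Algebra.IsInvariant.isIntegral A B G
  have h𝔪max : 𝔪.IsMaximal := Ideal.IsMaximal.of_liesOver_isMaximal 𝔪 (RingHom.ker φ₀)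
  let _ : Field (A ⧸ RingHom.ker φ₀) := Ideal.Quotient.field _
  let _ : Field (B ⧸ 𝔪) := Ideal.Quotient.field _
  have hchar : CharZero (A ⧸ RingHom.ker φ₀) := algebraRat.charZero _
  have hnormal : Normal (A ⧸ RingHom.ker φ₀) (B ⧸ 𝔪) :=
    Ideal.Quotient.normal G (RingHom.ker φ₀) 𝔪
  have hsep : Algebra.IsSeparable (A ⧸ RingHom.ker φ₀) (B ⧸ 𝔪) := inferInstance
  have hgal : IsGalois (A ⧸ RingHom.ker φ₀) (B ⧸ 𝔪) := ⟨⟩
  have hfin : Module.Finite (A ⧸ RingHom.ker φ₀) (B ⧸ 𝔪) :=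
    Ideal.Quotient.finite_of_isInvariant G (RingHom.ker φ₀) 𝔪
  let H : Subgroup G := MulAction.stabilizer G 𝔪
  have hH : H ≠ ⊤ := by
    intro h
    apply hne
    have : g ∈ H := by
      rw [h]
      trivial
    exact this
  have hfixed : ∀ τ : Gal((B ⧸ 𝔪)/(A ⧸ RingHom.ker φ₀)),
      τ (Ideal.Quotient.mk 𝔪 (w H)) = Ideal.Quotient.mk 𝔪 (w H) := by
    intro τ
    obtain ⟨h, rfl⟩ := Ideal.Quotient.stabilizerHom_surjective G (RingHom.ker φ₀) 𝔪 τ
    have h1 : Ideal.Quotient.stabilizerHom 𝔪 (RingHom.ker φ₀) G h (Ideal.Quotient.mk 𝔪 (w H)) =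
        Ideal.Quotient.mk 𝔪 ((h : G) • w H) := rfl
    rw [h1, (hw H hH).1 h h.2]
  obtain ⟨a, ha⟩ := (IsGalois.mem_range_algebraMap_iff_fixed _).2 hfixed
  obtain ⟨a', rfl⟩ := Ideal.Quotient.mk_surjective a
  have h1 : algebraMap A B a' - w H ∈ 𝔪 := by
    rw [← Ideal.Quotient.eq_zero_iff_mem, map_sub, sub_eq_zero]
    exact ha
  have h2 : algebraMap A B ((P H).eval a') ∈ 𝔪 := by
    rw [hPeval, ← Finset.mul_prod_erase _ _ (Finset.mem_univ (1 : G)), one_smul]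
    exact 𝔪.mul_mem_right _ h1
  have h3 : (P H).eval a' ∈ RingHom.ker φ₀ := by
    rw [← hcomap]
    exact h2
  apply hφ (φ₀ a')
  rw [eval_map, eval₂_at_apply]
  show φ₀ ((∏ H ∈ (Finset.univ : Finset (Subgroup G)).filter (fun H => H ≠ ⊤), P H).eval a') = 0
  rw [eval_prod, map_prod]
  apply Finset.prod_eq_zero (i := H)
  · rw [Finset.mem_filter]
    exact ⟨Finset.mem_univ _, hH⟩
  · exact h3

end Run7.h846
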