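import Pool.Agent.Run7.h846.Cpl
import Pool.Agent.Run7.h846.Nf3

/-!
# The obstruction excludes coverings with points over all completions
-/

set_option autoImplicit false

namespace Run7.h846

open NumberField IsDedekindDomain Polynomial

/-- the resultant with a product of linear factors -/
lemma res_prod {L E : Type} [Field L] [Field E] (j : L →+* E) (g u : L[X]) {Ω : Type} [Fintype Ω]
    (Θ : Ω → E) (hg : g.map j = ∏ i, (X - C (Θ i))) :
    j (resultant g u) = ∏ i, u.eval₂ j (Θ i) := by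
  have hm : (g.map j).Monic := by
    rw [hg]
    exact monic_prod_of_monic _ _ fun i _ => monic_X_sub_C _
  have hs : (g.map j).Splits := by
    rw [hg]
    exact Splits.prod fun i _ => Splits.X_sub_C _
  have h1 := resultant_map_map g u g.natDegree u.natDegree j
  have h2 := resultant_eq_prod_eval (g.map j) (u.map j) u.natDegree natDegree_map_le hs
  rw [natDegree_map, h1, hm.leadingCoeff, one_pow, one_mul] at h2
  rw [h2, hg]
  have h3 : (∏ i, (X - C (Θ i))).roots = Finset.univ.val.map Θ := by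
    have := roots_multiset_prod_X_sub_C (Finset.univ.val.map Θ)
    rw [Multiset.map_map] at this
    exact this
  rw [h3, Multiset.map_map]
  show ∏ i, (u.map j).eval (Θ i) = _
  refine Finset.prod_congr rfl fun i _ => ?_
  rw [eval_map]

theorem obs_noCover {q : ℕ} (hq : q ≠ 0) {L : Type} [Field L] [NumberField L] {t : L} {g : L[X]}
    (h : Obs q L t g) (u : L[X]) (c : L) (hc : c ≠ 0) (hres : resultant g u = t * c ^ q)
    (hloc : ∀ v : HeightOneSpectrum (𝓞 L), ∃ (x w : v.adicCompletion L) (Z Q : (v.adicCompletion L)[X]),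
      ¬ (x = 0 ∧ w = 0) ∧ C x - C w * X = u.map (algebraMap L (v.adicCompletion L)) * Z ^ q +
        g.map (algebraMap L (v.adicCompletion L)) * Q) : False := by
  classical
  obtain ⟨-, ht0, Ω, _, E, _, _, j, Θ, Good, hg, hΘinj, hqn, h3, hnr, hGood, H⟩ := h
  have hne : Nonempty Ω := Fintype.card_pos_iff.1 (by omega)
  have hprod : ∏ i, u.eval₂ j (Θ i) = j t * j c ^ q := by
    rw [← res_prod j g u Θ hg, hres, map_mul, map_pow]
  have hjt : j t ≠ 0 := (map_ne_zero j).2 ht0
  have hjc : j c ≠ 0 := (map_ne_zero j).2 hc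
  have hu : ∀ i, u.eval₂ j (Θ i) ≠ 0 := by
    intro i hi
    have h1 : ∏ i, u.eval₂ j (Θ i) = 0 := Finset.prod_eq_zero (Finset.mem_univ i) hi
    rw [hprod] at h1
    exact mul_ne_zero hjt (pow_ne_zero _ hjc) h1
  refine H (fun i => u.eval₂ j (Θ i)) hu ?_ ?_
  · intro W hW
    obtain ⟨v, ι, hι⟩ := exists_cpl j W
    obtain ⟨x, w, Z, Q, hxw, hZ⟩ := hloc v
    let a : E →+* W.adicCompletion E := algebraMap E (W.adicCompletion E)
    have hcomp : ι.comp (algebraMap L (v.adicCompletion L)) = a.comp j := RingHom.ext hι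
    have hev : ∀ (p : L[X]) (i : Ω),
        (p.map (algebraMap L (v.adicCompletion L))).eval₂ ι (a (Θ i)) = a (p.eval₂ j (Θ i)) := by
      intro p i
      rw [eval₂_map, hcomp, hom_eval₂]
    have hg0 : ∀ i, g.eval₂ j (Θ i) = 0 := by
      intro i
      rw [← eval_map, hg, eval_prod]
      exact Finset.prod_eq_zero (Finset.mem_univ i) (by rw [eval_sub, eval_X, eval_C, sub_self])
    obtain ⟨i₀, hi₀⟩ := loc_point (Valued.v (R := W.adicCompletion E)
      (Γ₀ := WithZero (Multiplicative ℤ))) q hqn (fun i => a (Θ i)) (by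
        intro i i' hii'
        rw [← map_sub]
        rw [cpl_val]
        exact (hGood W hW).2 i i' hii') (fun i => a (u.eval₂ j (Θ i)))
      (fun i => (map_ne_zero a).2 (hu i)) (a (j t)) (a (j c)) ((map_ne_zero a).2 hjt)
      ((map_ne_zero a).2 hjc) (by
        rw [← map_prod, hprod, map_mul, map_pow]) (ι x) (ι w) (by
        rintro ⟨h1, h2⟩
        exact hxw ⟨(map_eq_zero ι).1 h1, (map_eq_zero ι).1 h2⟩)
      (fun i => Z.eval₂ ι (a (Θ i))) (by
        intro i
        have h1 := congrArg (eval₂ ι (a (Θ i))) hZ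
        rw [eval₂_sub, eval₂_mul, eval₂_C, eval₂_C, eval₂_X, eval₂_add, eval₂_mul, eval₂_pow,
          eval₂_mul, hev, hev, hg0, map_zero, zero_mul, add_zero] at h1
        exact h1) hq
    refine ⟨i₀, fun i hi => ?_⟩
    have h1 := hi₀ i hi
    rw [cpl_oo, cpl_oo, cpl_oo] at h1
    exact h1
  · intro σ s hσ hs i i'
    have hσj : (σ : E →+* E).comp j = j := RingHom.ext hσ
    have h1 : ∀ i, σ (u.eval₂ j (Θ i)) = u.eval₂ j (Θ (s i)) := by
      intro i
      show (σ : E →+* E) (u.eval₂ j (Θ i)) = _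
      rw [hom_eval₂, hσj]
      show u.eval₂ j (σ (Θ i)) = _
      rw [hs]
    refine ⟨1, one_ne_zero, ?_⟩
    show σ (u.eval₂ j (Θ i)) * u.eval₂ j (Θ (s i')) = σ (u.eval₂ j (Θ i')) * u.eval₂ j (Θ (s i)) * 1 ^ q
    rw [h1, h1, one_pow, mul_one, mul_comm]

/-- a covering for a root of `g` -/
lemma cover_of_root (q : ℕ) (hq : q ≠ 0) {L : Type} [Field L] (t : L) (ht : t ≠ 0) (g : L[X])
    (hg : g.Monic) (x₀ : L) (hx : g.eval x₀ = 0) (hd : g.derivative.eval x₀ ≠ 0) :
    ∃ (u Z Q : L[X]), resultant g u = t ∧ C x₀ - C 1 * X = u * Z ^ q + g * Q := by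
  classical
  obtain ⟨g₁, hg₁⟩ := dvd_iff_isRoot.2 (show IsRoot g x₀ from hx)
  have hg₁m : g₁.Monic := by
    have h1 := hg
    rw [hg₁] at h1
    exact (monic_X_sub_C x₀).of_mul_monic_left h1
  have hg₁0 : g₁.eval x₀ ≠ 0 := by
    intro h
    apply hd
    rw [hg₁, derivative_mul, eval_add, eval_mul, eval_mul, h, eval_sub, eval_X, eval_C, sub_self]
    simp
  let A : L := t / (g₁.eval x₀) ^ 2
  let u : L[X] := C x₀ - X + C A * g₁
  let Z : L[X] := 1 - C (g₁.eval x₀)⁻¹ * g₁
  -- the resultant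
  have hu0 : u.eval x₀ = t / g₁.eval x₀ := by
    show (C x₀ - X + C A * g₁).eval x₀ = _
    rw [eval_add, eval_sub, eval_C, eval_X, sub_self, zero_add, eval_mul, eval_C]
    show t / (g₁.eval x₀) ^ 2 * g₁.eval x₀ = _
    field_simp
  have hres : resultant g u = t := by
    let Lb := AlgebraicClosure L
    let a : L →+* Lb := algebraMap L Lb
    have hinj : Function.Injective a := a.injective
    apply hinj
    have hs : (g₁.map a).Splits := IsAlgClosed.splits _
    have h2 := hs.eq_prod_roots_of_monic (hg₁m.map a)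
    obtain ⟨l, hl⟩ : ∃ l, l = (g₁.map a).roots.toList := ⟨_, rfl⟩
    have h3 : g₁.map a = ∏ i : Fin l.length, (X - C (l.get i)) := by
      have h4 : g₁.map a = (l.map (X - C ·)).prod := by
        conv_lhs => rw [h2]
        rw [← Multiset.coe_toList (g₁.map a).roots, Multiset.map_coe, Multiset.prod_coe, hl]
      rw [h4]
      conv_lhs => rw [← List.ofFn_get l, List.map_ofFn, List.prod_ofFn]
      rfl
    have h4 : g.map a = ∏ i : Option (Fin l.length), (X - C (i.elim (a x₀) l.get)) := by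
      rw [Fintype.prod_option, hg₁, Polynomial.map_mul, h3, Polynomial.map_sub, map_X, map_C]
      rfl
    rw [res_prod a g u _ h4, Fintype.prod_option]
    have h5 : ∀ i : Fin l.length, u.eval₂ a (l.get i) = a x₀ - l.get i := by
      intro i
      have h6 : g₁.eval₂ a (l.get i) = 0 := by
        rw [← eval_map, h3, eval_prod]
        exact Finset.prod_eq_zero (Finset.mem_univ i) (by rw [eval_sub, eval_X, eval_C, sub_self])
      show (C x₀ - X + C A * g₁).eval₂ a (l.get i) = _
      rw [eval₂_add, eval₂_sub, eval₂_C, eval₂_X, eval₂_mul, h6, mul_zero, add_zero]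
    have h7 : ∏ i : Fin l.length, (a x₀ - l.get i) = a (g₁.eval x₀) := by
      have h8 : a (g₁.eval x₀) = (g₁.map a).eval (a x₀) := by
        rw [eval_map, eval₂_at_apply]
      rw [h8, h3, eval_prod]
      refine Finset.prod_congr rfl fun i _ => ?_
      rw [eval_sub, eval_X, eval_C]
    show u.eval₂ a (a x₀) * ∏ i : Fin l.length, u.eval₂ a (l.get i) = _
    rw [Finset.prod_congr rfl fun i _ => h5 i, h7, eval₂_at_apply, hu0, ← map_mul,
      div_mul_cancel₀ _ hg₁0]
  -- the point of the covering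
  have hZ0 : Z.eval x₀ = 0 := by
    show (1 - C (g₁.eval x₀)⁻¹ * g₁).eval x₀ = 0
    rw [eval_sub, eval_one, eval_mul, eval_C, inv_mul_cancel₀ hg₁0, sub_self]
  have hcop : IsCoprime (X - C x₀) g₁ := by
    rw [(irreducible_X_sub_C x₀).coprime_iff_not_dvd, dvd_iff_isRoot]
    exact hg₁0
  have hd1 : g₁ ∣ C x₀ - C 1 * X - u * Z ^ q := by
    have h1 : g₁ ∣ 1 - Z ^ q := by
      have h2 : g₁ ∣ 1 - Z := ⟨C (g₁.eval x₀)⁻¹, by
        show 1 - (1 - C (g₁.eval x₀)⁻¹ * g₁) = _
        ring⟩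
      have h3 := sub_dvd_pow_sub_pow 1 Z q
      rw [one_pow] at h3
      exact h2.trans h3
    obtain ⟨r, hr⟩ := h1
    refine ⟨(C x₀ - X) * r - C A * Z ^ q, ?_⟩
    rw [C_1, one_mul]
    have h4 : Z ^ q = 1 - g₁ * r := by
      rw [← hr]
      ring
    show C x₀ - X - (C x₀ - X + C A * g₁) * Z ^ q = _
    linear_combination (-(C x₀ - X)) * h4
  have hd2 : (X - C x₀) ∣ C x₀ - C 1 * X - u * Z ^ q := by
    rw [dvd_iff_isRoot]
    show eval x₀ _ = 0
    rw [eval_sub, eval_sub, eval_C, eval_mul, eval_C, eval_X, one_mul, sub_self, eval_mul, eval_pow,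
      hZ0, zero_pow hq, mul_zero, sub_zero]
  obtain ⟨Q, hQ⟩ := hcop.mul_dvd hd2 hd1
  refine ⟨u, Z, Q, hres, ?_⟩
  rw [hg₁]
  linear_combination hQ

end Run7.h846
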