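import Pool.Agent.Run7.h846.Tot

/-!
# Norms modulo a totally ramified prime
-/

set_option autoImplicit false

namespace Run7.h846

open NumberField IsDedekindDomain

variable {M E : Type} [Field M] [NumberField M] [Field E] [NumberField E] [Algebra M E]

lemma ord_pos_val {F : Type} [Field F] [NumberField F] (v : HeightOneSpectrum (𝓞 F)) {x : F}
    (h : x = 0 ∨ 0 < ord v x) : v.valuation F x < 1 := by
  rcases h with rfl | h
  · rw [map_zero]
    exact zero_lt_one
  · by_cases hx : x = 0
    · rw [hx, map_zero]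
      exact zero_lt_one
    · exact (ord_pos_iff v hx).1 h

lemma val_prod_sub {F : Type} [Field F] [NumberField F] (v : HeightOneSpectrum (𝓞 F)) {ι : Type*}
    (s : Finset ι) (g : ι → F) (b : F) (hb : v.valuation F b ≤ 1)
    (hg : ∀ i ∈ s, v.valuation F (g i - b) < 1) :
    v.valuation F (∏ i ∈ s, g i) ≤ 1 ∧ v.valuation F (∏ i ∈ s, g i - b ^ s.card) < 1 := by
  classical
  induction s using Finset.induction_on with
  | empty =>
    rw [Finset.prod_empty, Finset.card_empty, pow_zero, sub_self, map_zero, map_one]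
    exact ⟨le_refl _, zero_lt_one⟩
  | insert a s ha ih =>
    obtain ⟨ih1, ih2⟩ := ih fun i hi => hg i (Finset.mem_insert_of_mem hi)
    have h1 := hg a (Finset.mem_insert_self _ _)
    have h2 : v.valuation F (g a) ≤ 1 := by
      have h3 : g a = (g a - b) + b := by ring
      rw [h3]
      exact (v.valuation F).map_add_le h1.le hb
    rw [Finset.prod_insert ha, Finset.card_insert_of_notMem ha]
    refine ⟨?_, ?_⟩
    · rw [map_mul]
      exact mul_le_one' h2 ih1
    · have h3 : g a * ∏ i ∈ s, g i - b ^ (s.card + 1) =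
        (g a - b) * ∏ i ∈ s, g i + b * (∏ i ∈ s, g i - b ^ s.card) := by ring
      rw [h3]
      apply (v.valuation F).map_add_lt
      · rw [map_mul]
        exact mul_lt_one_of_nonneg_of_lt_one_left zero_le h1 ih1
      · rw [map_mul]
        exact mul_lt_one_of_nonneg_of_lt_one_right hb zero_le ih2

/-- **norms modulo a totally ramified prime are powers** -/
theorem normres [IsGalois M E] {v : HeightOneSpectrum (𝓞 M)} {W : HeightOneSpectrum (𝓞 E)}
    (h : Over W v) (huniq : ∀ W' : HeightOneSpectrum (𝓞 E), Over W' v → W' = W)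
    (hf : fdeg M W = 1) (q : ℕ) (hram : ∀ a : M, ord W (algebraMap M E a) = q * ord v a)
    (hfin : Module.finrank M E = q) (ℓ : ℕ) [Fact ℓ.Prime] (φ : 𝓞 M →+* ZMod ℓ)
    (hφ : RingHom.ker φ = v.asIdeal) (u : E) (hu : u ≠ 0) (c : 𝓞 M) (w : M) (hw : w ≠ 0)
    (hN : Algebra.norm M u = c * w ^ q) (hc : φ c ≠ 0) : ∃ b : ZMod ℓ, φ c = b ^ q := by
  classical
  have hc0 : c ≠ 0 := by
    rintro rfl
    exact hc (map_zero _)
  have hcM : (c : M) ≠ 0 := by simpa using hc0
  have hcv : c ∉ v.asIdeal := by
    rw [← hφ, RingHom.mem_ker]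
    exact hc
  have hordc : ord v (c : M) = 0 := by
    have h1 := ord_int_nonneg v c
    have h2 := (ord_int_pos_iff v hc0).not.2 hcv
    omega
  -- there is one prime only
  have habove : above E v = {W} := by
    ext W'
    rw [mem_above, Finset.mem_singleton]
    exact ⟨fun h' => huniq W' h', fun h' => h' ▸ h⟩
  have hordu : ord W u = q * ord v w := by
    have h1 := ord_norm v u hu
    rw [habove, Finset.sum_singleton, hf, hN, ord_mul v hcM (pow_ne_zero _ hw), ord_pow, hordc,
      zero_add] at h1
    push_cast at h1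
    linarith
  have hwE : algebraMap M E w ≠ 0 := by
    rw [Ne, map_eq_zero]
    exact hw
  let u' : E := u / algebraMap M E w
  have hu'0 : u' ≠ 0 := div_ne_zero hu hwE
  have hordu' : ord W u' = 0 := by
    rw [ord_div W hu hwE, hordu, hram]
    ring
  have hu'v : W.valuation E u' ≤ 1 := ((ord_eq_zero_iff W hu'0).1 hordu').le
  have hNu' : Algebra.norm M u' = c := by
    have h1 : u = u' * algebraMap M E w := by
      rw [div_mul_cancel₀ _ hwE]
    have h2 : Algebra.norm M u = Algebra.norm M u' * w ^ q := by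
      conv_lhs => rw [h1]
      rw [map_mul, Algebra.norm_algebraMap, hfin]
    rw [h2] at hN
    exact mul_right_cancel₀ (pow_ne_zero _ hw) hN
  -- an integer congruent to `u'`
  obtain ⟨n, hn⟩ := W.exists_valuation_sub_lt_of_integer hu'v 1
  obtain ⟨b, hb⟩ := res_surj h hf n
  have hn' : W.valuation E (algebraMap (𝓞 E) E n - u') < 1 := hn
  have hbv : W.valuation E (u' - algebraMap M E (b : M)) < 1 := by
    have h1 : u' - algebraMap M E (b : M) = -(algebraMap (𝓞 E) E n - u') +
        algebraMap (𝓞 E) E (n - algebraMap (𝓞 M) (𝓞 E) b) := by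
      rw [map_sub, show algebraMap (𝓞 E) E (algebraMap (𝓞 M) (𝓞 E) b) = algebraMap M E (b : M) from rfl]
      ring
    rw [h1]
    apply (W.valuation E).map_add_lt
    · rw [Valuation.map_neg]
      exact hn'
    · exact (W.valuation_lt_one_iff_mem _).2 hb
  have hbint : W.valuation E (algebraMap M E (b : M)) ≤ 1 := by
    rw [show algebraMap M E (b : M) = algebraMap (𝓞 E) E (algebraMap (𝓞 M) (𝓞 E) b) from rfl]
    exact W.valuation_le_one _
  have hconj : ∀ τ : Gal(E/M), W.valuation E (τ u' - algebraMap M E (b : M)) < 1 := by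
    intro τ
    have h1 : τ u' - algebraMap M E (b : M) = τ (u' - algebraMap M E (b : M)) := by
      rw [map_sub, AlgEquiv.commutes]
    rw [h1]
    by_cases h2 : u' - algebraMap M E (b : M) = 0
    · rw [h2, map_zero, map_zero]
      exact zero_lt_one
    · apply ord_pos_val
      right
      rw [ord_aut h huniq, ord_pos_iff W h2]
      exact hbv
  have hprod := (val_prod_sub W (Finset.univ : Finset (Gal(E/M))) (fun τ => τ u')
    (algebraMap M E (b : M)) hbint fun τ _ => hconj τ).2
  rw [← Algebra.norm_eq_prod_automorphisms, hNu', Finset.card_univ, ← Nat.card_eq_fintype_card,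
    IsGalois.card_aut_eq_finrank, hfin] at hprod
  have h1 : algebraMap M E (c : M) - algebraMap M E (b : M) ^ q =
      algebraMap (𝓞 E) E (algebraMap (𝓞 M) (𝓞 E) (c - b ^ q)) := by
    rw [map_sub, map_sub, map_pow, map_pow]
    rfl
  rw [h1] at hprod
  have h2 := (W.valuation_lt_one_iff_mem _).1 hprod
  rw [← over_iff.1 h, ← hφ, RingHom.mem_ker, map_sub, map_pow, sub_eq_zero] at h2
  exact ⟨φ b, h2⟩

end Run7.h846
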