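import Pool.Agent.Run7.h846.Ext
import Pool.Agent.Run7.h846.NRes

/-!
# Integrality at a prime, and Eisenstein polynomials
-/

set_option autoImplicit false

namespace Run7.h846

open NumberField IsDedekindDomain Polynomial

variable {F E : Type} [Field F] [NumberField F] [Field E] [NumberField E] [Algebra F E]

lemma over_val_le {W : HeightOneSpectrum (𝓞 E)} {v : HeightOneSpectrum (𝓞 F)} (h : Over W v) {c : F}
    (hc : v.valuation F c ≤ 1) : W.valuation E (algebraMap F E c) ≤ 1 := by
  have h1 : W.asIdeal.LiesOver v.asIdeal := h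
  rw [← HeightOneSpectrum.valuation_liesOver E v W c]
  exact pow_le_one' hc _

lemma over_val_lt {W : HeightOneSpectrum (𝓞 E)} {v : HeightOneSpectrum (𝓞 F)} (h : Over W v) {c : F}
    (hc : v.valuation F c < 1) : W.valuation E (algebraMap F E c) < 1 := by
  have h1 : W.asIdeal.LiesOver v.asIdeal := h
  rw [← HeightOneSpectrum.valuation_liesOver E v W c]
  exact pow_lt_one' hc (Ideal.IsDedekindDomain.ramificationIdx'_ne_zero_of_liesOver W.asIdeal v.ne_bot)

omit [NumberField F] [Algebra F E] in
lemma eval_val_le {W : HeightOneSpectrum (𝓞 E)} (f : F →+* E) (g : F[X])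
    (hg : ∀ i, W.valuation E (f (g.coeff i)) ≤ 1) (s : E) (hs : W.valuation E s ≤ 1) :
    W.valuation E (g.eval₂ f s) ≤ 1 := by
  rw [eval₂_eq_sum_range]
  apply Valuation.map_sum_le
  intro i _
  rw [map_mul, map_pow]
  exact mul_le_one' (hg i) (pow_le_one' hs i)

omit [NumberField F] [Algebra F E] in
lemma root_val_le {W : HeightOneSpectrum (𝓞 E)} (f : F →+* E) (g : F[X]) (hm : g.Monic)
    (hg : ∀ i, W.valuation E (f (g.coeff i)) ≤ 1) (s : E) (hs : g.eval₂ f s = 0) :
    W.valuation E s ≤ 1 := by
  by_contra hlt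
  push Not at hlt
  rw [eval₂_eq_sum_range, Finset.sum_range_succ, hm.coeff_natDegree, map_one, one_mul] at hs
  have h1 : s ^ g.natDegree = -∑ i ∈ Finset.range g.natDegree, f (g.coeff i) * s ^ i :=
    eq_neg_of_add_eq_zero_right hs
  by_cases hN : g.natDegree = 0
  · rw [hN] at h1
    simp at h1
  have h2 : W.valuation E (s ^ g.natDegree) ≤ W.valuation E s ^ (g.natDegree - 1) := by
    rw [h1, Valuation.map_neg]
    apply Valuation.map_sum_le
    intro i hi
    rw [Finset.mem_range] at hi
    rw [map_mul, map_pow]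
    calc W.valuation E (f (g.coeff i)) * W.valuation E s ^ i ≤ 1 * W.valuation E s ^ i :=
          mul_le_mul_left (hg i) _
      _ = W.valuation E s ^ i := one_mul _
      _ ≤ W.valuation E s ^ (g.natDegree - 1) := pow_le_pow_right' hlt.le (by omega)
  rw [map_pow] at h2
  have h3 : W.valuation E s ^ (g.natDegree - 1) < W.valuation E s ^ g.natDegree :=
    pow_lt_pow_right₀ hlt (by omega)
  exact absurd h2 (not_le.2 h3)

/-- **Eisenstein's criterion** -/
theorem eis (W : HeightOneSpectrum (𝓞 F)) (P : F[X]) (hm : P.Monic) (hN : P.natDegree ≠ 0)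
    (hlow : ∀ i < P.natDegree, W.valuation F (P.coeff i) < 1) (h0 : ord W (P.coeff 0) = 1) :
    Irreducible P := by
  classical
  have ha0 : P.coeff 0 ≠ 0 := by
    intro h
    rw [h] at h0
    unfold ord at h0
    rw [map_zero, WithZero.log_zero] at h0
    omega
  obtain ⟨Q, hQm, hQi, hQP⟩ := exists_monic_irreducible_factor P (by
    intro h
    exact hN (natDegree_eq_zero_of_isUnit h))
  obtain ⟨E', _, _, _, s, hs, _, _, _, hfr, _⟩ := exists_adj F Q hQm hQi
  have hPs : P.eval₂ (algebraMap F E') s = 0 := by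
    obtain ⟨T, hT⟩ := hQP
    rw [hT, eval₂_mul, hs, zero_mul]
  obtain ⟨W', hW'⟩ := exists_over (E := E') W
  obtain ⟨e, he, hea⟩ := exists_ram hW'
  have hcoef : ∀ i, W.valuation F (P.coeff i) ≤ 1 := by
    intro i
    rcases lt_trichotomy i P.natDegree with h | h | h
    · exact (hlow i h).le
    · rw [h, hm.coeff_natDegree, map_one]
    · rw [coeff_eq_zero_of_natDegree_lt h, map_zero]
      exact zero_le
  have hs1 : W'.valuation E' s ≤ 1 := root_val_le (algebraMap F E') P hm
    (fun i => over_val_le hW' (hcoef i)) s hPs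
  -- `P = X ^ N + X A + a`
  let A : F[X] := (P - X ^ P.natDegree).divX
  have hA : P = X ^ P.natDegree + A * X + C (P.coeff 0) := by
    have h1 := divX_mul_X_add (P - X ^ P.natDegree)
    have h2 : (P - X ^ P.natDegree).coeff 0 = P.coeff 0 := by
      rw [coeff_sub, coeff_X_pow, if_neg (Ne.symm hN), sub_zero]
    rw [h2] at h1
    show P = X ^ P.natDegree + (P - X ^ P.natDegree).divX * X + C (P.coeff 0)
    rw [add_assoc, h1]
    ring
  have hAc : ∀ i, W.valuation F (A.coeff i) < 1 := by
    intro i
    show W.valuation F ((P - X ^ P.natDegree).divX.coeff i) < 1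
    rw [coeff_divX, coeff_sub, coeff_X_pow]
    rcases lt_trichotomy (i + 1) P.natDegree with h | h | h
    · rw [if_neg h.ne, sub_zero]
      exact hlow _ h
    · rw [if_pos h, h, hm.coeff_natDegree, sub_self, map_zero]
      exact zero_lt_one
    · rw [if_neg h.ne', sub_zero, coeff_eq_zero_of_natDegree_lt h, map_zero]
      exact zero_lt_one
  let A' : F[X] := C (P.coeff 0)⁻¹ * A
  have hA' : ∀ i, W.valuation F (A'.coeff i) ≤ 1 := by
    intro i
    show W.valuation F ((C (P.coeff 0)⁻¹ * A).coeff i) ≤ 1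
    rw [coeff_C_mul]
    by_cases h : A.coeff i = 0
    · rw [h, mul_zero, map_zero]
      exact zero_le
    · rw [← ord_nonneg_iff W (mul_ne_zero (inv_ne_zero ha0) h), ord_mul W (inv_ne_zero ha0) h, ord_inv,
        h0]
      have := (ord_pos_iff W h).2 (hAc i)
      omega
  have hAA' : A.eval₂ (algebraMap F E') s = algebraMap F E' (P.coeff 0) * A'.eval₂ (algebraMap F E') s := by
    show _ = _ * (C (P.coeff 0)⁻¹ * A).eval₂ (algebraMap F E') s
    rw [eval₂_mul, eval₂_C, ← mul_assoc, ← map_mul, mul_inv_cancel₀ ha0, map_one, one_mul]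
  have hA's : W'.valuation E' (A'.eval₂ (algebraMap F E') s) ≤ 1 :=
    eval_val_le (algebraMap F E') A' (fun i => over_val_le hW' (hA' i)) s hs1
  have heq : s ^ P.natDegree =
      -(algebraMap F E' (P.coeff 0) * (1 + A'.eval₂ (algebraMap F E') s * s)) := by
    rw [hA, eval₂_add, eval₂_add, eval₂_mul, eval₂_pow, eval₂_X, eval₂_C, hAA'] at hPs
    have h2 : (X ^ P.natDegree + A * X + C (P.coeff 0)).natDegree = P.natDegree := by rw [← hA]
    linear_combination hPs
  have hacv : W'.valuation E' (algebraMap F E' (P.coeff 0)) < 1 := by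
    apply over_val_lt hW'
    exact hlow 0 (Nat.pos_of_ne_zero hN)
  have hsN : W'.valuation E' (s ^ P.natDegree) < 1 := by
    rw [heq, Valuation.map_neg, map_mul]
    apply mul_lt_one_of_nonneg_of_lt_one_left zero_le hacv
    apply (W'.valuation E').map_add_le (le_of_eq (map_one _))
    rw [map_mul]
    exact mul_le_one' hA's hs1
  have hslt : W'.valuation E' s < 1 := by
    rw [map_pow] at hsN
    by_contra h
    push Not at h
    have h1 : W'.valuation E' s = 1 := le_antisymm hs1 h
    rw [h1, one_pow] at hsN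
    exact lt_irrefl _ hsN
  have hs0 : s ≠ 0 := by
    rintro rfl
    rw [zero_pow hN] at heq
    have h1 : (1 : E') + A'.eval₂ (algebraMap F E') 0 * 0 ≠ 0 := by
      rw [mul_zero, add_zero]
      exact one_ne_zero
    have h2 : algebraMap F E' (P.coeff 0) ≠ 0 := by
      rw [Ne, map_eq_zero]
      exact ha0
    exact (neg_ne_zero.2 (mul_ne_zero h2 h1)) heq.symm
  have hone : W'.valuation E' (1 + A'.eval₂ (algebraMap F E') s * s) = 1 := by
    have h1 : W'.valuation E' (A'.eval₂ (algebraMap F E') s * s) < 1 := by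
      rw [map_mul]
      exact mul_lt_one_of_nonneg_of_lt_one_right hA's zero_le hslt
    have h2 := (W'.valuation E').map_add_eq_of_lt_left (x := 1)
      (y := A'.eval₂ (algebraMap F E') s * s) (by rw [map_one]; exact h1)
    rw [h2, map_one]
  have hone0 : (1 + A'.eval₂ (algebraMap F E') s * s) ≠ 0 := by
    intro h
    rw [h, map_zero] at hone
    exact zero_ne_one hone
  have hord : (P.natDegree : ℤ) * ord W' s = e := by
    have h2 : algebraMap F E' (P.coeff 0) ≠ 0 := by
      rw [Ne, map_eq_zero]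
      exact ha0
    rw [← ord_pow, heq, ord_neg, ord_mul W' h2 hone0, (ord_eq_zero_iff W' hone0).2 hone, hea, h0]
    ring
  have hs2 : 0 < ord W' s := (ord_pos_iff W' hs0).2 hslt
  have hle : (P.natDegree : ℤ) ≤ e := by
    rw [← hord]
    nlinarith
  -- the degree
  have hdeg : (e : ℤ) ≤ Q.natDegree := by
    have h2 : algebraMap F E' (P.coeff 0) ≠ 0 := by
      rw [Ne, map_eq_zero]
      exact ha0
    have h3 := ord_norm W _ h2
    rw [Algebra.norm_algebraMap, hfr, ord_pow, h0, mul_one] at h3
    rw [h3]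
    have h4 : ∀ W'' ∈ above E' W, 0 ≤ (fdeg F W'' : ℤ) * ord W'' (algebraMap F E' (P.coeff 0)) := by
      intro W'' hW''
      obtain ⟨e'', _, hea''⟩ := exists_ram (mem_above.1 hW'')
      rw [hea'', h0]
      positivity
    have h5 := Finset.single_le_sum h4 (mem_above.2 hW')
    refine le_trans ?_ h5
    rw [hea, h0, mul_one]
    have h6 : (1 : ℤ) ≤ fdeg F W' := by exact_mod_cast fdeg_pos W'
    nlinarith
  have hPQ : P.natDegree ≤ Q.natDegree := by
    have := hle.trans hdeg
    exact_mod_cast this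
  have := eq_of_monic_of_dvd_of_natDegree_le hQm hm hQP hPQ
  rw [← this] at hQi
  exact hQi

end Run7.h846
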