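import Mathlib

/-!
# Simple extensions
-/

set_option autoImplicit false

namespace Run7.h846

open Polynomial NumberField

/-- the norm of `γ - ρ` -/
lemma norm_sub_gen {F E : Type} [Field F] [Field E] [Algebra F E] (pb : PowerBasis F E) (γ : F) :
    Algebra.norm F (algebraMap F E γ - pb.gen) = (minpoly F pb.gen).eval γ := by
  classical
  have h1 := charpoly_leftMulMatrix pb
  rw [← h1, Matrix.eval_charpoly, Algebra.norm_eq_matrix_det pb.basis, map_sub]
  congr 1
  rw [AlgHom.commutes]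
  rfl

/-- adjoining a root of an irreducible polynomial -/
theorem exists_adj (F : Type) [Field F] [NumberField F] (P : F[X]) (hm : P.Monic)
    (hi : Irreducible P) :
    ∃ (E : Type) (_ : Field E) (_ : NumberField E) (_ : Algebra F E) (s : E),
      P.eval₂ (algebraMap F E) s = 0 ∧
      (∀ γ : F, Algebra.norm F (algebraMap F E γ - s) = P.eval γ) ∧
      (∀ (E' : Type) [Field E'] (g : F →+* E') (s' : E'), P.eval₂ g s' = 0 →
        ∃ h : E →+* E', h.comp (algebraMap F E) = g ∧ h s = s') ∧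
      (∀ (E' : Type) [Field E'] (h h' : E →+* E'), h.comp (algebraMap F E) = h'.comp (algebraMap F E) →
        h s = h' s → h = h') ∧ Module.finrank F E = P.natDegree ∧
      (∀ (q : ℕ) (d : F), q.Prime → P = X ^ q - C d → (∃ ζ : F, IsPrimitiveRoot ζ q) →
        IsGalois F E) := by
  have hfact : Fact (Irreducible P) := ⟨hi⟩
  let E : Type := AdjoinRoot P
  let pb : PowerBasis F E := AdjoinRoot.powerBasis hi.ne_zero
  have hfd : FiniteDimensional F E := pb.finite
  have hch : CharZero E := charZero_of_injective_algebraMap (algebraMap F E).injective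
  have hSQ : FiniteDimensional ℚ E := FiniteDimensional.trans ℚ F E
  have hnf : NumberField E := { to_charZero := hch, to_finiteDimensional := hSQ }
  have hpb : pb.gen = AdjoinRoot.root P := AdjoinRoot.powerBasis_gen hi.ne_zero
  refine ⟨E, inferInstance, hnf, inferInstance, AdjoinRoot.root P, AdjoinRoot.eval₂_root P, ?_, ?_, ?_,
    ?_, ?_⟩
  · intro γ
    have h1 := norm_sub_gen pb γ
    rw [hpb] at h1
    refine h1.trans ?_
    have h2 : minpoly F (AdjoinRoot.root P) = P := by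
      rw [AdjoinRoot.minpoly_root hi.ne_zero, hm.leadingCoeff, inv_one, C_1, mul_one]
    rw [h2]
  · intro E' _ g s' hs'
    refine ⟨AdjoinRoot.lift g s' hs', ?_, AdjoinRoot.lift_root hs'⟩
    ext x
    exact AdjoinRoot.lift_of hs'
  · intro E' _ h h' h1 h2
    refine RingHom.ext fun x => ?_
    obtain ⟨Q, rfl⟩ := AdjoinRoot.mk_surjective x
    have h3 : ∀ k : E →+* E', k (AdjoinRoot.mk P Q) =
        Q.eval₂ (k.comp (algebraMap F E)) (k (AdjoinRoot.root P)) := by
      intro k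
      rw [← AdjoinRoot.aeval_eq, aeval_def, hom_eval₂]
    rw [h3 h, h3 h', h1, h2]
  · rw [pb.finrank]
    show (AdjoinRoot.powerBasis hi.ne_zero).dim = P.natDegree
    rw [AdjoinRoot.powerBasis_dim]
  · rintro q d hq rfl ⟨ζ, hζ⟩
    have : NeZero q := ⟨hq.ne_zero⟩
    have hζ' : (primitiveRoots q F).Nonempty := ⟨ζ, (mem_primitiveRoots hq.pos).2 hζ⟩
    have := isSplittingField_AdjoinRoot_X_pow_sub_C hζ' hi
    exact isGalois_of_isSplittingField_X_pow_sub_C hζ' hi E

/-- a square of simple extensions -/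
theorem square {F₁ F₂ : Type} [Field F₁] [NumberField F₁] [Field F₂] [NumberField F₂] (i : F₁ →+* F₂)
    (P : F₁[X]) (hm : P.Monic) (hi : Irreducible (P.map i)) :
    ∃ (E₁ : Type) (_ : Field E₁) (_ : NumberField E₁) (_ : Algebra F₁ E₁) (E₂ : Type) (_ : Field E₂)
      (_ : NumberField E₂) (_ : Algebra F₂ E₂) (j : E₁ →+* E₂) (s : E₁),
      P.eval₂ (algebraMap F₁ E₁) s = 0 ∧
      j.comp (algebraMap F₁ E₁) = (algebraMap F₂ E₂).comp i ∧
      (∀ γ : F₂, Algebra.norm F₂ (algebraMap F₂ E₂ γ - j s) = (P.map i).eval γ) ∧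
      (∀ τ : F₂ ≃+* F₂, (τ : F₂ →+* F₂).comp i = i → ∃ τ' : E₂ ≃+* E₂,
        (τ' : E₂ →+* E₂).comp (algebraMap F₂ E₂) = (algebraMap F₂ E₂).comp (τ : F₂ →+* F₂) ∧
        (τ' : E₂ →+* E₂).comp j = j) ∧
      Module.finrank F₂ E₂ = P.natDegree ∧
      (∀ (q : ℕ) (d : F₂), q.Prime → P.map i = X ^ q - C d → (∃ ζ : F₂, IsPrimitiveRoot ζ q) →
        IsGalois F₂ E₂) := by
  have hi₁ : Irreducible P := hm.irreducible_of_irreducible_map i P hi
  obtain ⟨E₁, _, _, _, s, hs, _, hlift, huniq, _, _⟩ := exists_adj F₁ P hm hi₁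
  obtain ⟨E₂, _, _, _, s₂, hs₂, hn₂, hlift₂, huniq₂, hfr₂, hg₂⟩ := exists_adj F₂ (P.map i) (hm.map i) hi
  obtain ⟨j, hj1, hj2⟩ := hlift E₂ ((algebraMap F₂ E₂).comp i) s₂ (by
    rw [← eval₂_map]
    exact hs₂)
  refine ⟨E₁, _, inferInstance, inferInstance, E₂, _, inferInstance, inferInstance, j, s, hs, hj1, ?_,
    ?_, ?_, hg₂⟩
  · intro γ
    rw [hj2]
    exact hn₂ γ
  · intro τ hτ
    have hτ' : (τ.symm : F₂ →+* F₂).comp i = i := by
      ext x
      have h1 := RingHom.congr_fun hτ x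
      show τ.symm (i x) = i x
      rw [RingEquiv.symm_apply_eq]
      exact h1.symm
    have hroot : ∀ τ : F₂ ≃+* F₂, (τ : F₂ →+* F₂).comp i = i →
        (P.map i).eval₂ ((algebraMap F₂ E₂).comp (τ : F₂ →+* F₂)) s₂ = 0 := by
      intro τ hτ
      rw [eval₂_map, RingHom.comp_assoc, hτ, ← eval₂_map]
      exact hs₂
    obtain ⟨g, hg1, hg2⟩ := hlift₂ E₂ ((algebraMap F₂ E₂).comp (τ : F₂ →+* F₂)) s₂ (hroot τ hτ)
    obtain ⟨g', hg'1, hg'2⟩ := hlift₂ E₂ ((algebraMap F₂ E₂).comp (τ.symm : F₂ →+* F₂)) s₂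
      (hroot τ.symm hτ')
    have h1 : g.comp g' = RingHom.id E₂ := by
      apply huniq₂
      · rw [RingHom.comp_assoc, hg'1, ← RingHom.comp_assoc, hg1, RingHom.comp_assoc, RingHom.id_comp]
        have : (τ : F₂ →+* F₂).comp (τ.symm : F₂ →+* F₂) = RingHom.id F₂ := by
          ext x
          simp
        rw [this, RingHom.comp_id]
      · show g (g' s₂) = s₂
        rw [hg'2, hg2]
    have h2 : g'.comp g = RingHom.id E₂ := by
      apply huniq₂
      · rw [RingHom.comp_assoc, hg1, ← RingHom.comp_assoc, hg'1, RingHom.comp_assoc, RingHom.id_comp]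
        have : (τ.symm : F₂ →+* F₂).comp (τ : F₂ →+* F₂) = RingHom.id F₂ := by
          ext x
          simp
        rw [this, RingHom.comp_id]
      · show g' (g s₂) = s₂
        rw [hg2, hg'2]
    let τ' : E₂ ≃+* E₂ := RingEquiv.ofRingHom g g' h1 h2
    have hτg : (τ' : E₂ →+* E₂) = g := by
      ext x
      rfl
    refine ⟨τ', ?_, ?_⟩
    · rw [hτg, hg1]
    · rw [hτg]
      apply huniq
      · rw [RingHom.comp_assoc, hj1, ← RingHom.comp_assoc, hg1, RingHom.comp_assoc, hτ]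
      · show g (j s) = j s
        rw [hj2, hg2]
  · rw [hfr₂, natDegree_map]

end Run7.h846
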