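import Pool.Agent.Run7.h846.Nbh

/-!
# Sections of `d y^q = ∏ f_i^{m_i}` give sections of curves `a_i y^q = f_i`
-/

set_option autoImplicit false

namespace Run7.h846

open Pool.Agent.W620.SC Pool.Agent.Y157.PC Polynomial IntermediateField

section

variable {k Ω : Type} [Field k] [Field Ω] [Algebra k Ω]

lemma eval_memW {W : ValuationSubring Ω} (hW : ∀ c : k, algebraMap k Ω c ∈ W) (p : k[X]) {z : Ω}
    (hz : z ∈ W) : aeval z p ∈ W := by
  rw [aeval_eq_sum_range]
  refine sum_mem fun i _ => ?_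
  rw [Algebra.smul_def]
  exact mul_mem (hW _) (pow_mem hz _)

lemma one_notMem_nonunits (W : ValuationSubring Ω) : (1 : Ω) ∉ W.nonunits := by
  intro h
  rcases (W.mem_nonunits_iff_or).1 h with h | h
  · exact one_ne_zero h
  · exact h (by rw [inv_one]; exact one_mem _)

lemma nonunits_mulW {W : ValuationSubring Ω} {a b : Ω} (ha : a ∈ W) (hb : b ∈ W.nonunits) :
    a * b ∈ W.nonunits := by
  rw [ValuationSubring.mem_nonunits_iff] at hb ⊢
  rw [map_mul]
  exact lt_of_le_of_lt (mul_le_of_le_one_left' ((W.valuation_le_one_iff _).2 ha)) hb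

lemma nonunits_addW {W : ValuationSubring Ω} {a b : Ω} (ha : a ∈ W.nonunits) (hb : b ∈ W.nonunits) :
    a + b ∈ W.nonunits := by
  rw [ValuationSubring.mem_nonunits_iff] at ha hb ⊢
  exact lt_of_le_of_lt (W.valuation.map_add _ _) (max_lt ha hb)

/-- the value of a monic polynomial at a pole -/
lemma monic_at_pole {W : ValuationSubring Ω} (hW : ∀ c : k, algebraMap k Ω c ∈ W) (f : k[X])
    (hf : f.Monic) (z : Ω) (hz : z ∉ W) :
    z ≠ 0 ∧ aeval z f / z ^ f.natDegree ∈ W ∧ z ^ f.natDegree / aeval z f ∈ W := by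
  have hz0 : z ≠ 0 := by
    rintro rfl
    exact hz (zero_mem _)
  have hzi : z⁻¹ ∈ W.nonunits := (W.mem_nonunits_iff_or).2 (Or.inr (by rwa [inv_inv]))
  have hziW : z⁻¹ ∈ W := (W.mem_or_inv_mem z).resolve_left hz
  have : Invertible z := invertibleOfNonzero hz0
  have h1 := eval₂_reverse_mul_pow (algebraMap k Ω) z f
  rw [invOf_eq_inv] at h1
  set r := eval₂ (algebraMap k Ω) z⁻¹ f.reverse with hr
  have h2 : r = aeval z⁻¹ f.reverse.divX * z⁻¹ + 1 := by
    have h3 := congrArg (aeval z⁻¹) (divX_mul_X_add f.reverse)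
    rw [map_add, map_mul, aeval_X, aeval_C, coeff_zero_reverse, hf.leadingCoeff, map_one] at h3
    rw [hr, ← aeval_def, h3]
  have hrW : r ∈ W := by
    rw [h2]
    exact add_mem (mul_mem (eval_memW hW _ hziW) hziW) (one_mem _)
  have hrn : r ∉ W.nonunits := by
    intro h
    apply one_notMem_nonunits W
    have h3 : (1 : Ω) = r + (-(aeval z⁻¹ f.reverse.divX)) * z⁻¹ := by
      rw [h2]
      ring
    rw [h3]
    exact nonunits_addW h (nonunits_mulW (neg_mem (eval_memW hW _ hziW)) hzi)
  have hri : r⁻¹ ∈ W := by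
    by_contra h
    exact hrn ((W.mem_nonunits_iff_or).2 (Or.inr h))
  have hzn : z ^ f.natDegree ≠ 0 := pow_ne_zero _ hz0
  have h4 : aeval z f / z ^ f.natDegree = r := by
    rw [aeval_def, ← h1, mul_div_cancel_right₀ _ hzn]
  refine ⟨hz0, by rw [h4]; exact hrW, ?_⟩
  rw [← inv_div, h4]
  exact hri

end

section

variable {k F Ω : Type} [Field k] [Field F] [Field Ω] [Algebra k F] [Algebra F Ω] [Algebra k Ω]
  [IsScalarTower k F Ω] [IsAlgClosed Ω]

theorem root_unr {U : Set (ValuationSubring F)} (hU : ∀ O ∈ U, ∀ c : k, algebraMap k F c ∈ O)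
    {q : ℕ} (hq : 0 < q) {I : Type} [Fintype I] [DecidableEq I] (f : I → k[X])
    (hcop : ∀ i j, i ≠ j → IsCoprime (f i) (f j)) (hdeg : ∀ i, q ∣ (f i).natDegree)
    (hmon : ∀ i, (f i).Monic) (m : I → ℕ) (hm : ∀ i, (m i).Coprime q) (d : k) (hd : d ≠ 0)
    (x y : F) (hx : Transcendental k x)
    (hxy : algebraMap k F d * y ^ q = ∏ i, aeval x (f i) ^ m i) (i : I) (Y : Ω)
    (hY : Y ^ q = algebraMap F Ω (aeval x (f i))) : Y ∈ unramified F Ω U := by
  rw [mem_unramified]
  intro W hWU σ hσ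
  have hW : ∀ c : k, algebraMap k Ω c ∈ W := by
    intro c
    have h1 := hU _ hWU c
    rw [ValuationSubring.mem_comap, ← IsScalarTower.algebraMap_apply] at h1
    exact h1
  obtain ⟨X', hX'⟩ : ∃ X' : Ω, X' = algebraMap F Ω x := ⟨_, rfl⟩
  have hP0 : ∀ j, aeval x (f j) ≠ 0 := fun j h =>
    (hmon j).ne_zero (transcendental_iff.1 hx _ h)
  have hPe : ∀ g : k[X], algebraMap F Ω (aeval x g) = aeval X' g := fun g => by
    rw [hX', aeval_algebraMap_apply]
  have hPΩ0 : ∀ j, algebraMap F Ω (aeval x (f j)) ≠ 0 := fun j => (_root_.map_ne_zero _).2 (hP0 j)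
  have hσF : ∀ z : F, σ (algebraMap F Ω z) = algebraMap F Ω z := σ.commutes
  have hYq : σ (Y ^ q) = Y ^ q := by rw [hY, hσF]
  have hY0 : Y ≠ 0 := by
    rintro rfl
    rw [zero_pow hq.ne'] at hY
    exact hPΩ0 i hY.symm
  by_cases hX : X' ∈ W
  · have hPW : ∀ g : k[X], algebraMap F Ω (aeval x g) ∈ W := fun g => by
      rw [hPe]
      exact eval_memW hW g hX
    by_cases hn : algebraMap F Ω (aeval x (f i)) ∈ W.nonunits
    · have hunit : ∀ j, j ≠ i → (algebraMap F Ω (aeval x (f j)))⁻¹ ∈ W := by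
        intro j hj
        obtain ⟨u, v, huv⟩ := hcop i j hj.symm
        by_contra hcon
        have h1 : algebraMap F Ω (aeval x (f j)) ∈ W.nonunits :=
          (W.mem_nonunits_iff_or).2 (Or.inr hcon)
        apply one_notMem_nonunits W
        have h2 := congrArg (fun g => algebraMap F Ω (aeval x g)) huv
        simp only [map_add, map_mul, map_one] at h2
        rw [← h2]
        exact nonunits_addW (nonunits_mulW (hPW u) hn) (nonunits_mulW (hPW v) h1)
      have hZ := fun j => IsAlgClosed.exists_pow_nat_eq (algebraMap F Ω (aeval x (f j))) hq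
      choose Z hZ using hZ
      have hZ0 : ∀ j, Z j ≠ 0 := by
        intro j h
        have h1 := hZ j
        rw [h, zero_pow hq.ne'] at h1
        exact hPΩ0 j h1.symm
      have hZσ : ∀ j, j ≠ i → σ (Z j) = Z j := fun j hj =>
        inertia_root hW hσ hq (t := 1) (by rw [hZ, hσF]) (map_one _) one_ne_zero (hZ0 j)
          (by rw [one_pow, div_one, hZ]; exact hPW _)
          (by rw [one_pow, one_div, hZ]; exact hunit j hj)
      obtain ⟨δ, hδ⟩ := IsAlgClosed.exists_pow_nat_eq (algebraMap k Ω d) hq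
      have hδ0 : δ ≠ 0 := by
        rintro rfl
        rw [zero_pow hq.ne'] at hδ
        exact (_root_.map_ne_zero _).2 hd hδ.symm
      have hδc : δ ∈ algebraicClosure k Ω := by
        rw [mem_algebraicClosure_iff]
        refine IsAlgebraic.of_pow (n := q) hq ?_
        rw [hδ]
        exact isAlgebraic_algebraMap _
      have hδσ : σ δ = δ := inertia_const hW hσ hδc
      have hprod : ∏ j, algebraMap F Ω (aeval x (f j)) ^ m j =
          (δ * algebraMap F Ω y) ^ q := by
        have h1 := congrArg (algebraMap F Ω) hxy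
        rw [map_mul, ← IsScalarTower.algebraMap_apply k F Ω, map_prod, map_pow] at h1
        rw [mul_pow, hδ, h1]
        exact Finset.prod_congr rfl fun j _ => (map_pow _ _ _).symm
      have hy0 : algebraMap F Ω y ≠ 0 := by
        intro h
        rw [h, mul_zero, zero_pow hq.ne'] at hprod
        exact Finset.prod_ne_zero_iff.2 (fun j _ => pow_ne_zero _ (hPΩ0 j)) hprod
      have hδy0 : δ * algebraMap F Ω y ≠ 0 := mul_ne_zero hδ0 hy0
      set Q : Ω := ∏ j ∈ Finset.univ.erase i, Z j ^ m j with hQ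
      have hQσ : σ Q = Q := by
        rw [hQ, map_prod]
        refine Finset.prod_congr rfl fun j hj => ?_
        rw [map_pow, hZσ j (Finset.ne_of_mem_erase hj)]
      have hQ0 : Q ≠ 0 := Finset.prod_ne_zero_iff.2 fun j _ => pow_ne_zero _ (hZ0 j)
      set R : Ω := Y ^ m i * Q / (δ * algebraMap F Ω y) with hR
      have hRq : R ^ q = 1 := by
        rw [hR, div_pow, ← hprod, div_eq_one_iff_eq]
        · rw [mul_pow, ← Finset.mul_prod_erase _ _ (Finset.mem_univ i), ← pow_mul, mul_comm (m i),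
            pow_mul, hY, hQ, ← Finset.prod_pow]
          congr 1
          refine Finset.prod_congr rfl fun j _ => ?_
          rw [← pow_mul, mul_comm, pow_mul, hZ]
        · exact Finset.prod_ne_zero_iff.2 fun j _ => pow_ne_zero _ (hPΩ0 j)
      have hRc : R ∈ algebraicClosure k Ω := by
        rw [mem_algebraicClosure_iff]
        refine IsAlgebraic.of_pow (n := q) hq ?_
        rw [hRq]
        exact isAlgebraic_one
      have hRσ : σ R = R := inertia_const hW hσ hRc
      have hYm : σ (Y ^ m i) = Y ^ m i := by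
        have h1 : Y ^ m i = R * (δ * algebraMap F Ω y) / Q := by
          rw [hR, div_mul_cancel₀ _ hδy0, mul_div_cancel_right₀ _ hQ0]
        rw [h1, map_div₀, map_mul, map_mul, hRσ, hδσ, hσF, hQσ]
      have h1 : (σ Y / Y) ^ q = 1 := by rw [div_pow, ← map_pow, hYq, div_self (pow_ne_zero _ hY0)]
      have h2 : (σ Y / Y) ^ m i = 1 := by
        rw [div_pow, ← map_pow, hYm, div_self (pow_ne_zero _ hY0)]
      have h3 := pow_gcd_eq_one.2 ⟨h2, h1⟩
      rw [(hm i : Nat.gcd (m i) q = 1), pow_one, div_eq_one_iff_eq hY0] at h3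
      exact h3
    · have hni : (algebraMap F Ω (aeval x (f i)))⁻¹ ∈ W := by
        by_contra h
        exact hn ((W.mem_nonunits_iff_or).2 (Or.inr h))
      exact inertia_root hW hσ hq (t := 1) hYq (map_one _) one_ne_zero hY0
          (by rw [one_pow, div_one, hY]; exact hPW _)
          (by rw [one_pow, one_div, hY]; exact hni)
  · obtain ⟨hX0, h1, h2⟩ := monic_at_pole hW (f i) (hmon i) X' hX
    obtain ⟨n, hn⟩ := hdeg i
    have h3 : (X' ^ n) ^ q = X' ^ (f i).natDegree := by rw [← pow_mul, hn, mul_comm]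
    exact inertia_root hW hσ hq (t := X' ^ n) hYq (by rw [map_pow, hX', hσF])
      (pow_ne_zero _ hX0) hY0 (by rw [h3, hY, hPe]; exact h1) (by rw [h3, hY, hPe]; exact h2)

end

section

variable {k F Ω : Type} [Field k] [Field F] [Field Ω] [Algebra k F] [Algebra F Ω] [Algebra k Ω]
  [IsScalarTower k F Ω] [IsAlgClosed Ω] [CharZero k] [Algebra.IsAlgebraic F Ω]

/-- **the factor theorem** -/
theorem factor {U : Set (ValuationSubring F)} (hU : ∀ O ∈ U, ∀ c : k, algebraMap k F c ∈ O)
    (G : GSection k F Ω U)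
    {q : ℕ} (hq : 0 < q) {I : Type} [Fintype I] [DecidableEq I] (f : I → k[X])
    (hcop : ∀ i j, i ≠ j → IsCoprime (f i) (f j)) (hdeg : ∀ i, q ∣ (f i).natDegree)
    (hmon : ∀ i, (f i).Monic) (m : I → ℕ) (hm : ∀ i, (m i).Coprime q) (d : k) (hd : d ≠ 0)
    (x y : F) (hx : Transcendental k x)
    (hxy : algebraMap k F d * y ^ q = ∏ i, aeval x (f i) ^ m i) :
    ∃ (a : I → k) (w : k), (∀ i, a i ≠ 0) ∧ w ≠ 0 ∧ d * w ^ q = ∏ i, a i ^ m i ∧
      ∀ i, ∃ (F' : IntermediateField F Ω) (β : F') (U' : Set (ValuationSubring F')),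
        (∀ O ∈ U', ∀ c : k, algebraMap k F' c ∈ O) ∧
        algebraMap k F' (a i) * β ^ q = aeval (algebraMap F F' x) (f i) ∧
        Nonempty (GSection k F' Ω U') := by
  have hP0 : ∀ j, aeval x (f j) ≠ 0 := fun j h =>
    (hmon j).ne_zero (transcendental_iff.1 hx _ h)
  have hN : ∀ c : algebraicClosure k Ω, (c : Ω) ∈ unramified F Ω U := by
    intro c
    rw [mem_unramified]
    intro W hWU σ hσ
    refine inertia_const (k := k) (fun c => ?_) hσ c.2
    have h1 := hU _ hWU c
    rw [ValuationSubring.mem_comap, ← IsScalarTower.algebraMap_apply] at h1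
    exact h1
  let G' : NSec k (unramified F Ω U) := ⟨G.toHom, G.cont, G.compat⟩
  have hY := fun i => IsAlgClosed.exists_pow_nat_eq (algebraMap F Ω (aeval x (f i))) hq
  choose Y hY using hY
  have hYU : ∀ i, Y i ∈ unramified F Ω U := fun i =>
    root_unr hU hq f hcop hdeg hmon m hm d hd x y hx hxy i (Y i) (hY i)
  have hcls := fun i => exists_class_q (E := k) hq hN G'
    (algebraMap F (unramified F Ω U) (aeval x (f i))) ⟨Y i, hYU i⟩
    (fun σ => (G'.toHom (σ.restrictScalars k)).commutes _) ((_root_.map_ne_zero _).2 (hP0 i))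
    (Subtype.ext (hY i))
  choose a β ha0 hβ0 hβ hκ using hcls
  have hβ' : ∀ i σ, G.toHom σ (β i) = β i := fun i σ => hβ i σ
  have hyeq : cC hN (algebraMap k _ d) * algebraMap F (unramified F Ω U) y ^ q =
      ∏ i, (cC hN (algebraMap k _ (a i)) * β i ^ q) ^ m i := by
    have h1 := congrArg (algebraMap F (unramified F Ω U)) hxy
    rw [map_mul, map_prod, map_pow] at h1
    have h2 : cC hN (algebraMap k _ d) = algebraMap F (unramified F Ω U) (algebraMap k F d) := by
      apply Subtype.ext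
      show algebraMap k Ω d = algebraMap F Ω (algebraMap k F d)
      rw [← IsScalarTower.algebraMap_apply]
    rw [h2, h1]
    refine Finset.prod_congr rfl fun i _ => ?_
    rw [hκ i, map_pow]
  have hB0 : ∏ i, β i ^ m i ≠ 0 := Finset.prod_ne_zero_iff.2 fun i _ => pow_ne_zero _ (hβ0 i)
  have hcd0 : cC hN (algebraMap k (algebraicClosure k Ω) d) ≠ 0 :=
    (_root_.map_ne_zero _).2 ((_root_.map_ne_zero _).2 hd)
  obtain ⟨w, hw⟩ := class_pow_q (E := k) hq hN G'
    (algebraMap F (unramified F Ω U) y / ∏ i, β i ^ m i) ((∏ i, a i ^ m i) / d) (by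
      intro σ
      rw [map_div₀, map_prod]
      congr 1
      · exact (G'.toHom (σ.restrictScalars k)).commutes y
      · refine Finset.prod_congr rfl fun i _ => ?_
        rw [map_pow, hβ]) (by
      rw [div_pow, map_div₀, map_div₀, div_eq_div_iff (pow_ne_zero _ hB0) hcd0, mul_comm, hyeq,
        map_prod, map_prod, ← Finset.prod_pow, ← Finset.prod_mul_distrib]
      refine Finset.prod_congr rfl fun i _ => ?_
      rw [mul_pow, map_pow, map_pow, ← pow_mul, ← pow_mul, mul_comm q])
  have hprod0 : ∏ i, a i ^ m i ≠ 0 := Finset.prod_ne_zero_iff.2 fun i _ => pow_ne_zero _ (ha0 i)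
  have hw0 : w ≠ 0 := by
    rintro rfl
    rw [zero_pow hq.ne'] at hw
    exact div_ne_zero hprod0 hd hw.symm
  refine ⟨a, w, ha0, hw0, by rw [hw, mul_div_cancel₀ _ hd], fun i => ?_⟩
  have hle : adjoin F {((β i : unramified F Ω U) : Ω)} ≤ unramified F Ω U := by
    rw [adjoin_simple_le_iff]
    exact (β i).2
  have hmemβ : ((β i : unramified F Ω U) : Ω) ∈ adjoin F {((β i : unramified F Ω U) : Ω)} :=
    mem_adjoin_simple_self F _
  refine ⟨adjoin F {((β i : unramified F Ω U) : Ω)}, ⟨_, hmemβ⟩, aboveU U _, ?_, ?_,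
    nbh U G _ hle ?_⟩
  · intro O hO c
    have h1 : algebraMap k F c ∈ O.comap (algebraMap F (adjoin F {((β i : unramified F Ω U) : Ω)})) :=
      hU _ hO c
    rw [ValuationSubring.mem_comap, ← IsScalarTower.algebraMap_apply] at h1
    exact h1
  · apply Subtype.ext
    have h1 := congrArg (algebraMap (unramified F Ω U) Ω) (hκ i)
    rw [map_mul, map_pow] at h1
    have h2 : ((aeval (algebraMap F (adjoin F {((β i : unramified F Ω U) : Ω)}) x) (f i) :
        adjoin F {((β i : unramified F Ω U) : Ω)}) : Ω) = algebraMap F Ω (aeval x (f i)) := by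
      rw [aeval_algebraMap_apply]
      rfl
    rw [h2]
    exact h1
  · intro σ z hz
    have key : ∀ v (hv : v ∈ adjoin F {((β i : unramified F Ω U) : Ω)}),
        G.toHom σ ⟨v, hle hv⟩ = ⟨v, hle hv⟩ := by
      intro v hv
      induction hv using adjoin_induction with
      | mem v hv =>
        rw [Set.mem_singleton_iff] at hv
        subst hv
        exact hβ' i σ
      | algebraMap v => exact (G.toHom σ).commutes v
      | add u v hu hv h1 h2 =>
        have h3 : (⟨u + v, hle (add_mem hu hv)⟩ : unramified F Ω U) =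
          ⟨u, hle hu⟩ + ⟨v, hle hv⟩ := rfl
        rw [h3, map_add, h1, h2]
      | inv u hu h1 =>
        have h3 : (⟨u⁻¹, hle (inv_mem hu)⟩ : unramified F Ω U) = (⟨u, hle hu⟩)⁻¹ := rfl
        rw [h3, map_inv₀, h1]
      | mul u v hu hv h1 h2 =>
        have h3 : (⟨u * v, hle (mul_mem hu hv)⟩ : unramified F Ω U) =
          ⟨u, hle hu⟩ * ⟨v, hle hv⟩ := rfl
        rw [h3, map_mul, h1, h2]
    exact key z hz

end

end Run7.h846
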