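import Pool.Agent.Run7.h846.FacG
import Pool.Agent.TH377.NC.Dvr

/-!
# Extensions of degree prime to `q` of a discretely valued field
-/

set_option autoImplicit false

namespace Run7.h846

open Polynomial Pool.Agent.TH377.LocG Pool.Agent.TH377.NC

lemma fg_of_equiv {κ κ' : Type} [Field κ] [Field κ'] (e : κ ≃+* κ') (h : FG κ) : FG κ' := by
  classical
  obtain ⟨s, hs⟩ := h
  refine ⟨s.image e, ?_⟩
  rw [Finset.coe_image]
  have h1 := Subfield.closure_le (K := κ) (s := (s : Set κ))
    (t := (Subfield.closure (e '' (s : Set κ))).comap (e : κ →+* κ'))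
  have h2 := h1.2 (fun x hx => Subfield.subset_closure ⟨x, hx, rfl⟩)
  rw [hs] at h2
  refine top_le_iff.1 fun y _ => ?_
  have h3 := h2 (Subfield.mem_top (e.symm y))
  rw [Subfield.mem_comap] at h3
  simpa using h3

lemma fg_of_finite {κ κ' : Type} [Field κ] [Field κ'] [Algebra κ κ'] [FiniteDimensional κ κ']
    (h : FG κ) : FG κ' := by
  classical
  obtain ⟨s, hs⟩ := h
  let b := Module.finBasis κ κ'
  refine ⟨s.image (algebraMap κ κ') ∪ Finset.univ.image b, ?_⟩
  set T := Subfield.closure
    ((s.image (algebraMap κ κ') ∪ Finset.univ.image b : Finset κ') : Set κ') with hT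
  have h1 := Subfield.closure_le (K := κ) (s := (s : Set κ)) (t := T.comap (algebraMap κ κ'))
  have h2 := h1.2 (fun x hx => Subfield.subset_closure (by
    rw [Finset.coe_union]
    exact Or.inl (Finset.mem_coe.2 (Finset.mem_image_of_mem _ (Finset.mem_coe.1 hx)))))
  rw [hs] at h2
  refine top_le_iff.1 fun y _ => ?_
  rw [← b.sum_repr y]
  refine sum_mem fun i _ => ?_
  rw [Algebra.smul_def]
  refine mul_mem (h2 (Subfield.mem_top _)) (Subfield.subset_closure ?_)
  rw [Finset.coe_union]
  exact Or.inr (by simp)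

/-- a place of degree prime to `q` -/
theorem ext_data {R k L : Type} [CommRing R] [IsDomain R]
    [IsDiscreteValuationRing R] [Field k] [Algebra R k] [IsFractionRing R k] [CharZero k]
    [Field L] [Algebra k L] [FiniteDimensional k L] {q : ℕ} (hqL : ¬ q ∣ Module.finrank k L)
    {ϖ : R} (hϖ : Irreducible ϖ) :
    ∃ (A : Type) (_ : CommRing A) (_ : IsDomain A) (_ : IsDiscreteValuationRing A)
      (_ : Algebra A L) (_ : IsFractionRing A L) (ι : R →+* A)
      (_ : (algebraMap A L).comp ι = (algebraMap k L).comp (algebraMap R k))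
      (τ : IsLocalRing.ResidueField R →+* IsLocalRing.ResidueField A)
      (_ : (IsLocalRing.residue A).comp ι = τ.comp (IsLocalRing.residue R))
      (ϖ' t : A) (e f : ℕ), Irreducible ϖ' ∧ IsUnit t ∧ ¬ q ∣ e * f ∧ ι ϖ = t * ϖ' ^ e ∧
      (∀ (N : ℕ) (P : (IsLocalRing.ResidueField R)[X]), FactorDiv N P →
        ∀ h : (IsLocalRing.ResidueField A)[X], Irreducible h → h ∣ P.map τ →
          N ∣ f * h.natDegree) ∧
      (FG (IsLocalRing.ResidueField R) → FG (IsLocalRing.ResidueField A)) := by
  classical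
  let _ : Algebra R L := ((algebraMap k L).comp (algebraMap R k)).toAlgebra
  have hst : IsScalarTower R k L := IsScalarTower.of_algebraMap_eq fun _ => rfl
  -- the integral closure
  have hsep : Algebra.IsSeparable k L := inferInstance
  let S := integralClosure R L
  have hfr : IsFractionRing S L := integralClosure.isFractionRing_of_finite_extension k L
  have hded : IsDedekindDomain S := integralClosure.isDedekindDomain R k L
  have hfinS : Module.Finite R S := IsIntegralClosure.finite R k L S
  have hRL : Function.Injective (algebraMap R L) := by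
    rw [IsScalarTower.algebraMap_eq R k L]
    exact (algebraMap k L).injective.comp (IsFractionRing.injective R k)
  have hRS : Function.Injective (algebraMap R S) := by
    intro x y hxy
    apply hRL
    rw [IsScalarTower.algebraMap_apply R S L, hxy, ← IsScalarTower.algebraMap_apply R S L]
  have htf : Module.IsTorsionFree R S :=
    (Module.isTorsionFree_iff_algebraMap_injective (R := R) (A := S)).2 hRS
  have hflat : Module.Flat R S := inferInstance
  set p : Ideal R := IsLocalRing.maximalIdeal R with hp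
  have hp0 : p ≠ ⊥ := IsDiscreteValuationRing.not_a_field R
  have hprime : p.IsPrime := inferInstance
  have hmaxp : p.IsMaximal := inferInstance
  have hrank : Module.finrank R S = Module.finrank k L := (IsFractionRing.finrank_eq R k S L).symm
  have hft : Finite (p.primesOver S) := inferInstance
  let _ : Fintype (p.primesOver S) := Fintype.ofFinite _
  obtain ⟨Q, hQ⟩ : ∃ Q : p.primesOver S,
      ¬ q ∣ Q.1.ramificationIdx R * Q.1.inertiaDeg R := by
    by_contra h1
    rw [not_exists] at h1
    apply hqL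
    rw [← hrank, ← Ideal.sum_ramification_inertia_eq_finrank p S]
    exact Finset.dvd_sum fun q _ => not_not.1 (h1 q)
  set e := Q.1.ramificationIdx R with he
  set fd := Q.1.inertiaDeg R with hfd
  have hqp : Q.1.IsPrime := Q.2.1
  have hlies : Q.1.LiesOver p := Q.2.2
  have hq0 : Q.1 ≠ ⊥ := by
    intro h
    apply hp0
    have h1 := hlies.over
    rw [h] at h1
    rw [h1]
    exact Ideal.comap_bot_of_injective _ hRS
  have hqm : Q.1.IsMaximal := Ideal.IsPrime.isMaximal hqp hq0
  obtain ⟨A, iA1, iA2, iA3, iA4, j, ε, hfrA, hjL, hjr, hbn⟩ := local_ringS (L := L) Q.1 hqp hq0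
  let _ : Field (R ⧸ p) := Ideal.Quotient.field _
  let _ : Field (S ⧸ Q.1) := Ideal.Quotient.field _
  have hfinq : FiniteDimensional (R ⧸ p) (S ⧸ Q.1) := inferInstance
  set ι : (R ⧸ p) →+* (S ⧸ Q.1) := algebraMap (R ⧸ p) (S ⧸ Q.1) with hι
  have hfdeq : fd = Module.finrank (R ⧸ p) (S ⧸ Q.1) := Ideal.inertiaDeg_eq_of_isMaximal p Q.1
  have hϖS : algebraMap R S ϖ ≠ 0 := by
    intro h
    exact hϖ.ne_zero (hRS (by rw [h, map_zero]))
  obtain ⟨ϖ', t, n, hϖ', ht, hb2, hb3⟩ := hbn (algebraMap R S ϖ) hϖS
  have hspan : p = Ideal.span {ϖ} := hϖ.maximalIdeal_eq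
  have hmp : p.map (algebraMap R S) = Ideal.span {algebraMap R S ϖ} := by
    rw [hspan, Ideal.map_span, Set.image_singleton]
  have hmapp : ∀ i, p.map (algebraMap R S) ≤ Q.1 ^ i ↔ i ≤ n := by
    intro i
    rw [← hb3, hmp, Ideal.span_singleton_le_iff_mem]
  have hen : e = n := by
    have h1 : p.ramificationIdx' Q.1 = n :=
      Ideal.ramificationIdx'_spec ((hmapp n).2 le_rfl) (fun h => by
        have := (hmapp (n + 1)).1 h
        omega)
    have h2 : p.ramificationIdx' Q.1 = Q.1.ramificationIdx R :=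
      Ideal.ramificationIdx'_eq_ramificationIdx _ _ hp0
    rw [he, ← h2, h1]
  let τ' : (R ⧸ p) →+* IsLocalRing.ResidueField A :=
    (ε : (S ⧸ Q.1) →+* IsLocalRing.ResidueField A).comp ι
  let τ : IsLocalRing.ResidueField R →+* IsLocalRing.ResidueField A := τ'
  have key : ∀ (N : ℕ) (P : (R ⧸ p)[X]), FactorDiv N P →
        ∀ h : (IsLocalRing.ResidueField A)[X], Irreducible h → h ∣ P.map τ' →
          N ∣ fd * h.natDegree := by
    intro N P hP h hirr hdvd
    have h1 : Irreducible (h.map (ε.symm : IsLocalRing.ResidueField A →+* (S ⧸ Q.1))) :=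
      (MulEquiv.irreducible_iff (Polynomial.mapEquiv ε.symm)).2 hirr
    have h2 : h.map (ε.symm : IsLocalRing.ResidueField A →+* (S ⧸ Q.1)) ∣
        P.map ι := by
      have h3 := Polynomial.map_dvd (ε.symm : IsLocalRing.ResidueField A →+* (S ⧸ Q.1)) hdvd
      have h4 : (ε.symm : IsLocalRing.ResidueField A →+* (S ⧸ Q.1)).comp τ' = ι := by
        ext z
        simp [τ']
      rwa [Polynomial.map_map, h4] at h3
    have h3 := factor_ext P _ hP _ h1 h2
    rwa [natDegree_map, ← hfdeq] at h3
  refine ⟨A, iA1, iA2, iA3, iA4, hfrA, j.comp (algebraMap R S), ?_, τ, ?_, ϖ', t, e, fd, hϖ', ht,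
    hQ, ?_, ?_, ?_⟩
  · rw [← RingHom.comp_assoc, hjL]
    rfl
  · rw [← RingHom.comp_assoc, hjr]
    rfl
  · apply IsFractionRing.injective A L
    have h1 : algebraMap A L ((j.comp (algebraMap R S)) ϖ) = algebraMap S L (algebraMap R S ϖ) := by
      rw [RingHom.comp_apply, ← RingHom.comp_apply, hjL]
    rw [h1, hb2, hen, map_mul, map_pow]
  · exact key
  · intro hfg
    have h1 : FG (R ⧸ p) := hfg
    have h2 : FG (S ⧸ Q.1) := fg_of_finite h1
    exact fg_of_equiv ε h2

end Run7.h846
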