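import Pool.Agent.Run7.h846.FacP
import Pool.Agent.TH377.LocG.Res
import Pool.Agent.W623.SecF.Fg
import Pool.Agent.W623.SecF.FV

/-!
# Products of twisted polynomials, arbitrary residue fields
-/

set_option autoImplicit false

namespace Run7.h846

open Pool.Agent.W620.SC Pool.Agent.Y157.PS Pool.Agent.W623.SecC Polynomial
open Pool.Agent.TH377.LocG

/-- there are no sections for the curves `a y ^ q = g(x)` when the valuation of `a` is not divisible by
`q` -/
def NoSec {A : Type} [CommRing A] (q : ℕ) (ϖ : A) (k : Type) [Field k] [Algebra A k]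
    (g : A[X]) : Prop :=
  ∀ (F Ω : Type) [Field F] [Field Ω] [Algebra k F] [Algebra F Ω] [Algebra k Ω]
    [IsScalarTower k F Ω] [IsAlgClosed Ω] [Algebra.IsAlgebraic F Ω]
    (U : Set (ValuationSubring F)), (∀ O ∈ U, ∀ c : k, algebraMap k F c ∈ O) → GSection k F Ω U →
    ∀ (a : k) (u : Aˣ) (j : ℤ), ¬ (q : ℤ) ∣ j → a = algebraMap A k u * algebraMap A k ϖ ^ j →
    ∀ (x y : F), Transcendental k x →
      algebraMap k F a * y ^ q = aeval x (g.map (algebraMap A k)) → False

section gen

variable {A k : Type} [CommRing A] [IsDomain A] [IsDiscreteValuationRing A] [Field k] [CharZero k]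
  [Algebra A k] [IsFractionRing A k]

theorem fac_gen {F Ω : Type} [Field F] [Field Ω] [Algebra k F] [Algebra F Ω] [Algebra k Ω]
    [IsScalarTower k F Ω] [IsAlgClosed Ω] [Algebra.IsAlgebraic F Ω] {q : ℕ} (hq : q.Prime) {ϖ : A}
    (hϖ : Irreducible ϖ) {I : Type} [Fintype I] (f : I → k[X]) (g : I → A[X]) (α β : I → k)
    (h : ∀ i, GoodAff A (f i) (g i) (α i) (β i))
    (hcop : ∀ i j, i ≠ j → IsCoprime (f i) (f j))
    (hdeg : ∀ i, q ∣ (f i).natDegree) (m : I → ℕ)
    (hm : ∀ i, (m i).Coprime q) (d : k) (hd0 : d ≠ 0) (hd : ¬ PV q ϖ d)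
    (hloc : ∀ i, NoSec q ϖ k (g i))
    (hroot : ∀ i, ∀ b : A, (g i).eval b ∉ IsLocalRing.maximalIdeal A)
    (U : Set (ValuationSubring F)) (hU : ∀ O ∈ U, ∀ c : k, algebraMap k F c ∈ O)
    (G : GSection k F Ω U) (x y : F)
    (hxy : algebraMap k F d * y ^ q = ∏ i, aeval x (f i) ^ m i) : False := by
  classical
  by_cases hx : Transcendental k x
  · obtain ⟨a, w, ha0, hw0, hdw, hfac⟩ := factor hU G hq.pos f hcop hdeg (fun i => (h i).monic) m
      hm d hd0 x y hx hxy
    obtain ⟨i, u, j, hj, hai⟩ := factor_val hϖ a m w d ha0 hw0 hdw hd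
    obtain ⟨F', b, U', hU', hb, ⟨G'⟩⟩ := hfac i
    have hα := (h i).1
    have hαn : α i ^ (f i).natDegree ≠ 0 := pow_ne_zero _ hα
    have h1 : ¬ PV q ϖ (a i / α i ^ (f i).natDegree) := by
      intro h2
      have h4 : PV q ϖ (a i) := by
        rw [← div_mul_cancel₀ (a i) hαn]
        exact h2.mul hϖ (PV.npow hϖ hα (hdeg i))
      rw [hai] at h4
      exact not_PV hϖ hj h4
    obtain ⟨u', j', hj', ha'⟩ := (PV_iff (q := q) hϖ (div_ne_zero (ha0 i) hαn)).resolve_left h1
    have hα' : algebraMap k F' (α i) ≠ 0 := (_root_.map_ne_zero _).2 hα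
    have hxF : Transcendental k (algebraMap F F' x) := by
      intro halg
      exact hx ((isAlgebraic_algebraMap_iff (algebraMap F F').injective).1 halg)
    have hx1 : Transcendental k
        ((algebraMap F F' x - algebraMap k F' (β i)) / algebraMap k F' (α i)) := by
      intro halg
      apply hxF
      have h2 : algebraMap F F' x =
          ((algebraMap F F' x - algebraMap k F' (β i)) / algebraMap k F' (α i)) *
            algebraMap k F' (α i) + algebraMap k F' (β i) := by
        rw [div_mul_cancel₀ _ hα', sub_add_cancel]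
      rw [h2]
      exact (halg.mul (isAlgebraic_algebraMap _)).add (isAlgebraic_algebraMap _)
    haveI hst' : IsScalarTower k F' Ω := IsScalarTower.of_algebraMap_eq fun c => by
      rw [IsScalarTower.algebraMap_apply k F F', ← IsScalarTower.algebraMap_apply F F' Ω,
        ← IsScalarTower.algebraMap_apply k F Ω]
    exact hloc i F' Ω U' hU' G' _ u' j' hj' ha' _ b hx1 (by
        rw [(h i).aeval] at hb
        rw [map_div₀, div_mul_eq_mul_div, hb, mul_div_cancel_left₀ _
          ((_root_.map_ne_zero _).2 hαn)])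
  · rw [Transcendental, not_not] at hx
    let G' : NSec k (unramified F Ω U) := ⟨G.toHom, G.cont, G.compat⟩
    obtain ⟨x', rfl⟩ := alg_mem_base_N G' x hx
    have hprod : ∏ i, aeval (algebraMap k F x') (f i) ^ m i =
        algebraMap k F (∏ i, (f i).eval x' ^ m i) := by
      rw [map_prod]
      refine Finset.prod_congr rfl fun i _ => ?_
      rw [aeval_algebraMap_apply, aeval_def, Algebra.algebraMap_self, eval₂_id, map_pow]
    rw [hprod] at hxy
    have h1 : y ^ q = algebraMap k F ((∏ i, (f i).eval x' ^ m i) / d) := by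
      rw [map_div₀, eq_div_iff ((_root_.map_ne_zero _).2 hd0)]
      linear_combination hxy
    have hy : IsAlgebraic k y := by
      apply IsAlgebraic.of_pow (n := q) hq.pos
      rw [h1]
      exact isAlgebraic_algebraMap _
    obtain ⟨y', rfl⟩ := alg_mem_base_N G' y hy
    have h2 : d * y' ^ q = ∏ i, (f i).eval x' ^ m i := by
      apply (algebraMap k F).injective
      rw [map_mul, map_pow, hxy]
    exact point_root hϖ f g α β h hdeg m d hd hq.pos dvd_rfl x' y' h2 hroot

/-- a factor of degree prime to `N` -/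
lemma FactorDiv.noRoot {κ : Type} [Field κ] {N : ℕ} (hN : N ≠ 1) {P : κ[X]}
    (h : FactorDiv N P) (r : κ) : P.eval r ≠ 0 := by
  intro hr
  have h1 := h (X - C r) (irreducible_X_sub_C r) (dvd_iff_isRoot.2 hr)
  rw [natDegree_X_sub_C] at h1
  exact hN (Nat.dvd_one.1 h1)

omit [CharZero k] [Algebra A k] [IsFractionRing A k] [IsDomain A] [IsDiscreteValuationRing A]
  [Field k] in
lemma root_residue [IsLocalRing A] (g : A[X])
    (h : ∀ r, (g.map (IsLocalRing.residue A)).eval r ≠ 0) (b : A) :
    g.eval b ∉ IsLocalRing.maximalIdeal A := by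
  intro hb
  apply h (IsLocalRing.residue A b)
  rw [eval_map, eval₂_at_apply, IsLocalRing.residue_eq_zero_iff]
  exact hb

/-- the theory for arbitrary residue fields -/
theorem noSec_factorDiv {q : ℕ} (hq : 0 < q) {ϖ : A} (hϖ : Irreducible ϖ) (g : A[X]) (hg : g.Monic)
    (hs : (g.map (IsLocalRing.residue A)).Separable)
    (hσ : FactorDiv (Nat.gcd 2 q * q) (g.map (IsLocalRing.residue A))) : NoSec q ϖ k g := by
  intro F Ω _ _ _ _ _ _ _ _ U hU G a u j hj ha x y hx hxy
  have h := local_U (F := F) (Ω := Ω) q hq (I := Unit) (fun _ => g) (fun _ => 1)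
    (fun _ => by rw [hg.leadingCoeff]; exact isUnit_one) (by simpa using hs) (by simpa using hσ)
    ϖ hϖ a (u : A) u.isUnit j hj ha (fun _ => Nat.coprime_one_right _) U hU x y (by
      simpa using hxy)
  exact h.false G

end gen

/-- a discrete valuation ring as a valuation subring -/
lemma toVS (A L : Type) [CommRing A] [IsDomain A] [IsDiscreteValuationRing A] [Field L] [Algebra A L]
    [IsFractionRing A L] : ∃ (O : ValuationSubring L) (_ : IsDiscreteValuationRing O) (e : A ≃+* O),
      ∀ a, ((e a : O) : L) = algebraMap A L a := by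
  let v := ValuationRing.valuation A L
  have hmem : ∀ x : L, x ∈ v.valuationSubring ↔ ∃ a : A, algebraMap A L a = x := by
    intro x
    exact ValuationRing.mem_integer_iff A L x
  let e : A ≃+* v.valuationSubring := RingEquiv.ofBijective
    ((algebraMap A L).codRestrict v.valuationSubring.toSubring fun a => (hmem _).2 ⟨a, rfl⟩) ⟨by
      intro a b hab
      exact IsFractionRing.injective A L (congrArg Subtype.val hab), by
      rintro ⟨x, hx⟩
      obtain ⟨a, ha⟩ := (hmem x).1 hx
      exact ⟨a, Subtype.ext ha⟩⟩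
  exact ⟨v.valuationSubring, IsDiscreteValuationRing.RingEquivClass.isDiscreteValuationRing e, e, fun a => rfl⟩

/-- The field is finitely generated. -/
def FG (κ : Type) [Field κ] : Prop := ∃ s : Finset κ, Subfield.closure (s : Set κ) = ⊤

lemma fg_val {κ : Type} [Field κ] (h : FG κ) :
    ∀ S : Finset κ, ∃ O : ValuationSubring κ, Finite (IsLocalRing.ResidueField O) ∧
      (2 : κ)⁻¹ ∈ O ∧ ∀ s ∈ S, s ∈ O := by
  classical
  intro S
  obtain ⟨s, hs⟩ := h
  obtain ⟨O, hO, h1⟩ := Pool.Agent.W623.SecF.FV.of_fg s hs (insert (2 : κ)⁻¹ S)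
  exact ⟨O, hO, h1 _ (Finset.mem_insert_self _ _), fun s hs => h1 s (Finset.mem_insert_of_mem hs)⟩

section fg

variable {A k : Type} [CommRing A] [IsDomain A] [IsDiscreteValuationRing A] [Field k] [CharZero k]
  [Algebra A k] [IsFractionRing A k]

/-- the theory for finitely generated residue fields -/
theorem noSec_fg {ϖ : A} (hϖ : Irreducible ϖ) (hfg : FG (IsLocalRing.ResidueField A))
    (h2 : (2 : IsLocalRing.ResidueField A) ≠ 0) (g : A[X]) (hg : g.Monic)
    (hs : (g.map (IsLocalRing.residue A)).Separable) (hev : 2 ∣ g.natDegree)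
    (h4 : 4 ≤ g.natDegree) (hroot : ∀ b : A, g.eval b ∉ IsLocalRing.maximalIdeal A) :
    NoSec 2 ϖ k g := by
  intro F Ω _ _ _ _ _ _ _ _ U hU G a u j hj ha x y hx hxy
  obtain ⟨O, hO, e, he⟩ := toVS A k
  let ρ : O →+* IsLocalRing.ResidueField A := (IsLocalRing.residue A).comp (e.symm : O →+* A)
  have hρ : Function.Surjective ρ := by
    intro c
    obtain ⟨b, rfl⟩ := IsLocalRing.residue_surjective c
    exact ⟨e b, by simp [ρ]⟩
  let ee : A →+* O := (e : A →+* O)
  have hρe : ρ.comp ee = IsLocalRing.residue A := by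
    ext b
    simp [ρ, ee]
  have hOk : (algebraMap O k).comp ee = algebraMap A k := by
    ext b
    exact he b
  have hinj : Function.Injective ee := e.injective
  have hkk : (g.map ee).map (algebraMap O k) = g.map (algebraMap A k) := by
    rw [Polynomial.map_map, hOk]
  obtain ⟨b, hb⟩ := Pool.Agent.W623.SecC.fg_root (F := F) (Ω := Ω) O ρ hρ (g.map ee)
    (by rw [(hg.map ee).leadingCoeff]; exact isUnit_one)
    (by rw [Polynomial.map_map, hρe]; exact hs) (ee ϖ)
    ((MulEquiv.irreducible_iff e).2 hϖ) a (ee u)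
    (u.isUnit.map ee) j (by
      rw [← Int.not_even_iff_odd, even_iff_two_dvd]
      exact_mod_cast hj)
    (by
      rw [ha]
      have h3 : ∀ c, algebraMap O k (ee c) = algebraMap A k c := fun c => he c
      rw [h3, h3])
    (by rw [natDegree_map_eq_of_injective hinj]; exact even_iff_two_dvd.2 hev) h2 (fg_val hfg)
    (by rw [natDegree_map_eq_of_injective hinj]; exact h4) U hU G x y (by rw [hkk]; exact hxy)
  obtain ⟨b', rfl⟩ := e.surjective b
  apply hroot b'
  have h5 : (g.map ee).eval (e b') = e (g.eval b') := by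
    rw [eval_map]
    exact eval₂_at_apply ee b'
  rw [h5] at hb
  intro hu
  apply hb
  exact hu.map e

end fg

end Run7.h846
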