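import Pool.Agent.Run7.h846.FacE
import Pool.Agent.Run7.h846.Idx

/-!
# Products of twisted polynomials over extensions of degree prime to `q`
-/

set_option autoImplicit false

namespace Run7.h846

open Pool.Agent.W620.SC Pool.Agent.W623.SecC Polynomial
open Pool.Agent.TH377.LocG

/-- the curve `d y ^ n = ∏ f_i(x) ^ m_i` has a point, or there is a section for a curve over it -/
def NoPS {L : Type} [Field L] {I : Type} [Fintype I] (n : ℕ) (d : L) (f : I → L[X])
    (m : I → ℕ) : Prop :=
  (¬ ∃ x y : L, d * y ^ n = ∏ i, (f i).eval x ^ m i) ∧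
  ∀ (F Ω : Type) [Field F] [Field Ω] [Algebra L F] [Algebra F Ω] [Algebra L Ω]
    [IsScalarTower L F Ω] [IsAlgClosed Ω] [Algebra.IsAlgebraic F Ω]
    (U : Set (ValuationSubring F)), (∀ O ∈ U, ∀ c : L, algebraMap L F c ∈ O) → GSection L F Ω U →
    ∀ x y : F, algebraMap L F d * y ^ n = ∏ i, aeval x (f i) ^ m i → False

/-- the condition on the reductions of the factors: all irreducible factors have a degree divisible by
`q` (by `4` if `q = 2`), or `q = 2`, the residue field is finitely generated of characteristic different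
from `2` and all irreducible factors have even degree -/
def CondF (q : ℕ) {κ : Type} [Field κ] (P : κ[X]) : Prop :=
  FactorDiv (Nat.gcd 2 q * q) P ∨
    (q = 2 ∧ FG κ ∧ (2 : κ) ≠ 0 ∧ 4 ≤ P.natDegree ∧ FactorDiv 2 P)

lemma CondF.dvd {q : ℕ} {κ : Type} [Field κ] {P : κ[X]} (h : CondF q P) : FactorDiv q P := by
  rcases h with h | ⟨rfl, -, -, -, h⟩
  · exact fun g hg hgP => (Dvd.intro_left _ rfl).trans (h g hg hgP)
  · exact h

section

variable {A k : Type} [CommRing A] [IsDomain A] [IsDiscreteValuationRing A] [Field k] [CharZero k]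
  [Algebra A k] [IsFractionRing A k]

theorem fac_nops {q : ℕ} (hq : q.Prime) {ϖ : A}
    (hϖ : Irreducible ϖ) {I : Type} [Fintype I] (f : I → k[X]) (g : I → A[X]) (α β : I → k)
    (h : ∀ i, GoodAff A (f i) (g i) (α i) (β i))
    (hcop : ∀ i j, i ≠ j → IsCoprime (f i) (f j))
    (hdeg : ∀ i, q ∣ (f i).natDegree) (m : I → ℕ)
    (hm : ∀ i, (m i).Coprime q) (d : k) (hd0 : d ≠ 0) (hd : ¬ PV q ϖ d)
    (hloc : ∀ i, NoSec q ϖ k (g i))
    (hroot : ∀ i, ∀ b : A, (g i).eval b ∉ IsLocalRing.maximalIdeal A) {n : ℕ} (hn : 0 < n)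
    (hqn : q ∣ n) : NoPS n d f m := by
  constructor
  · rintro ⟨x, y, hxy⟩
    exact point_root hϖ f g α β h hdeg m d hd hn hqn x y hxy hroot
  · intro F Ω _ _ _ _ _ _ _ _ U hU G x y hxy
    obtain ⟨n', rfl⟩ := hqn
    refine fac_gen hq hϖ f g α β h hcop hdeg m hm d hd0 hd hloc hroot U hU G x (y ^ n') ?_
    rw [← pow_mul, mul_comm n' q, hxy]

omit [CharZero k] in
lemma GoodAff.ext {f : k[X]} {g : A[X]} {α β : k} (h : GoodAff A f g α β) {B L : Type} [CommRing B]
    [IsDomain B] [IsDiscreteValuationRing B] [Field L] [Algebra B L] [Algebra k L]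
    (ι : A →+* B) (hι : (algebraMap B L).comp ι = (algebraMap k L).comp (algebraMap A k))
    (τ : IsLocalRing.ResidueField A →+* IsLocalRing.ResidueField B)
    (hτ : (IsLocalRing.residue B).comp ι = τ.comp (IsLocalRing.residue A)) :
    GoodAff B (f.map (algebraMap k L)) (g.map ι) (algebraMap k L α) (algebraMap k L β) := by
  obtain ⟨hα, hg, hs, he⟩ := h
  refine ⟨(_root_.map_ne_zero _).2 hα, hg.map ι, ?_, ?_⟩
  · rw [Polynomial.map_map, hτ, ← Polynomial.map_map]
    exact hs.map
  · have h1 := congrArg (Polynomial.map (algebraMap k L)) he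
    rw [Polynomial.map_comp, Polynomial.map_mul, Polynomial.map_add, Polynomial.map_mul, map_C, map_C,
      map_X, map_C, map_pow, Polynomial.map_map] at h1
    rw [h1, natDegree_map, Polynomial.map_map, hι]

/-- **the theorem over extensions of degree prime to `q`** -/
theorem fac_ext {q : ℕ} (hq : q.Prime) {ϖ : A}
    (hϖ : Irreducible ϖ) {I : Type} [Fintype I] (f : I → k[X]) (g : I → A[X]) (α β : I → k)
    (h : ∀ i, GoodAff A (f i) (g i) (α i) (β i))
    (hcop : ∀ i j, i ≠ j → IsCoprime (f i) (f j)) (m : I → ℕ)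
    (hm : ∀ i, (m i).Coprime q) (d : k) (hd0 : d ≠ 0) (hd : ¬ PV q ϖ d)
    (hcond : ∀ i, CondF q ((g i).map (IsLocalRing.residue A))) {n : ℕ} (hn : 0 < n)
    (hqn : q ∣ n) (L : Type) [Field L] [Algebra k L] [FiniteDimensional k L]
    (hqL : ¬ q ∣ Module.finrank k L) :
    NoPS n (algebraMap k L d) (fun i => (f i).map (algebraMap k L)) m := by
  have hLc : CharZero L := charZero_of_injective_algebraMap (algebraMap k L).injective
  obtain ⟨B, _, _, _, _, _, ι, hι, τ, hτ, ϖ', t, e, fd, hϖ', ht, hef, hιϖ, hfac, hfg⟩ :=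
    ext_data (q := q) hqL hϖ
  have hqe : ¬ q ∣ e := fun h => hef (h.mul_right _)
  have hqf : ¬ q ∣ fd := fun h => hef (h.mul_left _)
  have hG : ∀ i, GoodAff B ((f i).map (algebraMap k L)) ((g i).map ι) (algebraMap k L (α i))
      (algebraMap k L (β i)) := fun i => (h i).ext ι hι τ hτ
  have hred : ∀ i, ((g i).map ι).map (IsLocalRing.residue B) =
      ((g i).map (IsLocalRing.residue A)).map τ := fun i => by
    rw [Polynomial.map_map, Polynomial.map_map, hτ]
  have hcopq : Nat.Coprime q fd := (hq.coprime_iff_not_dvd).2 hqf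
  -- the divisibility of the degrees of the factors
  have hdivN : ∀ N : ℕ, Nat.Coprime N fd → ∀ i, FactorDiv N ((g i).map (IsLocalRing.residue A)) →
      FactorDiv N (((g i).map ι).map (IsLocalRing.residue B)) := by
    intro N hN i hP r hr hrd
    rw [hred] at hrd
    exact hN.dvd_of_dvd_mul_left (hfac N _ hP r hr hrd)
  have hdeg0 : ∀ i, q ∣ (f i).natDegree := by
    intro i
    have h1 := (hcond i).dvd.natDegree (((h i).2.1.map _).ne_zero)
    rwa [(h i).2.1.natDegree_map, (h i).natDegree] at h1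
  have hqcond : ∀ i, FactorDiv q (((g i).map ι).map (IsLocalRing.residue B)) :=
    fun i => hdivN q hcopq i (hcond i).dvd
  have hroot : ∀ i, ∀ b : B, ((g i).map ι).eval b ∉ IsLocalRing.maximalIdeal B :=
    fun i => root_residue _ fun r => FactorDiv.noRoot hq.ne_one (hqcond i) r
  refine fac_nops hq hϖ' _ _ _ _ hG (fun i j hij => ?_) (fun i => ?_) m hm _
    ((_root_.map_ne_zero _).2 hd0) ?_ (fun i => ?_) hroot hn hqn
  · exact (hcop i j hij).map (mapRingHom (algebraMap k L))
  · rw [natDegree_map]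
    exact hdeg0 i
  · -- the valuation of `d`
    obtain ⟨u, j, hj, hdu⟩ := (PV_iff (q := q) hϖ hd0).resolve_left hd
    obtain ⟨tu, rfl⟩ := ht
    have h1 : ∀ c : A, algebraMap k L (algebraMap A k c) = algebraMap B L (ι c) := fun c =>
      (RingHom.congr_fun hι c).symm
    have h2 : algebraMap k L d = algebraMap B L ((Units.map (ι : A →* B) u * tu ^ j : Bˣ) : B) *
        algebraMap B L ϖ' ^ ((e : ℤ) * j) := by
      have h3 : algebraMap B L ((tu ^ j : Bˣ) : B) = algebraMap B L (tu : B) ^ j := by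
        have h4 := congrArg Units.val (map_zpow (Units.map (algebraMap B L : B →* L)) tu j)
        rw [Units.val_zpow_eq_zpow_val] at h4
        exact h4
      rw [hdu, map_mul, map_zpow₀, h1, h1, hιϖ, map_mul, mul_zpow, map_pow, Units.val_mul, map_mul,
        h3, zpow_mul, zpow_natCast]
      simp only [Units.coe_map, MonoidHom.coe_coe]
      ring
    rw [h2]
    refine not_PV hϖ' fun h3 => ?_
    have h4 := (Int.Prime.dvd_mul' hq h3)
    rcases h4 with h4 | h4
    · exact hqe (by exact_mod_cast h4)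
    · exact hj h4
  · rcases hcond i with hc | ⟨rfl, hκ, h2, h4, hc⟩
    · refine noSec_factorDiv hq.pos hϖ' _ (hG i).2.1 (hG i).2.2.1 (hdivN _ ?_ i hc)
      refine Nat.Coprime.mul_left ?_ hcopq
      rcases hq.eq_two_or_odd' with rfl | hodd
      · simpa using hcopq
      · have h5 : Nat.gcd 2 q = 1 := (Nat.coprime_two_left.2 hodd)
        rw [h5]
        exact Nat.coprime_one_left fd
    · refine noSec_fg hϖ' (hfg hκ) ?_ _ (hG i).2.1 (hG i).2.2.1 ?_ ?_ (hroot i)
      · intro h5
        apply h2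
        have h6 : τ 2 = 0 := by rw [map_ofNat]; exact h5
        exact (map_eq_zero τ).1 h6
      · rw [(hG i).natDegree, natDegree_map]
        exact hdeg0 i
      · rwa [(h i).2.1.natDegree_map, (h i).natDegree, ← natDegree_map (algebraMap k L),
          ← (hG i).natDegree] at h4

end

end Run7.h846
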