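import Pool.Agent.W623.SecC.Pts

/-!
# Valuations modulo `q`
-/

set_option autoImplicit false

namespace Run7.h846

open Polynomial Pool.Agent.W623.SecC

section

variable {A k : Type} [CommRing A] [IsDomain A] [IsDiscreteValuationRing A] [Field k]
  [Algebra A k] [IsFractionRing A k]

/-- the valuation of `z` is divisible by `q` -/
def PV (q : ℕ) (ϖ : A) (z : k) : Prop :=
  ∃ (u : Aˣ) (j : ℤ), z = algebraMap A k u * algebraMap A k ϖ ^ ((q : ℤ) * j)

lemma algUnit_ne (u : Aˣ) : algebraMap A k (u : A) ≠ 0 := (u.isUnit.map (algebraMap A k)).ne_zero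

lemma algUnit_inv (u : Aˣ) : algebraMap A k ((u⁻¹ : Aˣ) : A) = (algebraMap A k (u : A))⁻¹ := by
  refine (inv_eq_of_mul_eq_one_right ?_).symm
  rw [← map_mul, Units.mul_inv, map_one]

variable {q : ℕ} {ϖ : A} (hϖ : Irreducible ϖ)
include hϖ

lemma algϖ_ne : algebraMap A k ϖ ≠ 0 := by
  rw [Ne, map_eq_zero_iff _ (IsFractionRing.injective A k)]
  exact hϖ.ne_zero

omit hϖ in
lemma PV.one : PV q ϖ (1 : k) := ⟨1, 0, by simp⟩

lemma PV.mul {a b : k} (ha : PV q ϖ a) (hb : PV q ϖ b) : PV q ϖ (a * b) := by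
  obtain ⟨u, i, rfl⟩ := ha
  obtain ⟨v, j, rfl⟩ := hb
  refine ⟨u * v, i + j, ?_⟩
  rw [mul_add, zpow_add₀ (algϖ_ne (k := k) hϖ), Units.val_mul, map_mul]
  ring

omit hϖ in
lemma PV.inv {a : k} (ha : PV q ϖ a) : PV q ϖ a⁻¹ := by
  obtain ⟨u, i, rfl⟩ := ha
  refine ⟨u⁻¹, -i, ?_⟩
  rw [mul_inv, algUnit_inv, mul_neg, zpow_neg]

lemma PV.div {a b : k} (ha : PV q ϖ a) (hb : PV q ϖ b) : PV q ϖ (a / b) := by
  rw [div_eq_mul_inv]
  exact ha.mul hϖ hb.inv

lemma PV.pow {a : k} (ha : PV q ϖ a) (n : ℕ) : PV q ϖ (a ^ n) := by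
  induction n with
  | zero => rw [pow_zero]; exact PV.one
  | succ n ih => rw [pow_succ]; exact ih.mul hϖ ha

lemma PV.prod {I : Type} (s : Finset I) (f : I → k) (h : ∀ i ∈ s, PV q ϖ (f i)) :
    PV q ϖ (∏ i ∈ s, f i) := by
  classical
  induction s using Finset.induction_on with
  | empty => rw [Finset.prod_empty]; exact PV.one
  | insert a s ha ih =>
    rw [Finset.prod_insert ha]
    exact (h a (Finset.mem_insert_self a s)).mul hϖ
      (ih fun i hi => h i (Finset.mem_insert_of_mem hi))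

lemma PV.npow {a : k} (ha : a ≠ 0) {n : ℕ} (hn : q ∣ n) : PV q ϖ (a ^ n) := by
  obtain ⟨u, j, rfl⟩ := exists_unit_zpow ϖ hϖ a ha
  obtain ⟨l, rfl⟩ := hn
  refine ⟨u ^ (q * l), j * l, ?_⟩
  rw [mul_pow, Units.val_pow_eq_pow_val, map_pow, ← zpow_natCast (algebraMap A k ϖ ^ j),
    ← zpow_mul]
  congr 2
  push_cast
  ring

lemma not_PV {u : Aˣ} {m : ℤ} (hm : ¬ (q : ℤ) ∣ m) :
    ¬ PV q ϖ (algebraMap A k u * algebraMap A k ϖ ^ m) := by
  rintro ⟨v, j, h⟩
  have h0 := algϖ_ne (k := k) hϖ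
  have h1 : algebraMap A k ϖ ^ (m - q * j) = algebraMap A k ((v * u⁻¹ : Aˣ) : A) := by
    rw [zpow_sub₀ h0, Units.val_mul, map_mul, algUnit_inv]
    have h2 := algUnit_ne (k := k) u
    have h3 : algebraMap A k ϖ ^ ((q : ℤ) * j) ≠ 0 := zpow_ne_zero _ h0
    field_simp
    linear_combination h
  have h2 := zpow_unit_eq ϖ hϖ _ (Units.isUnit _) _ h1
  apply hm
  exact ⟨j, by omega⟩

lemma PV_iff {z : k} (hz : z ≠ 0) : PV q ϖ z ∨ ∃ (u : Aˣ) (j : ℤ), ¬ (q : ℤ) ∣ j ∧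
    z = algebraMap A k u * algebraMap A k ϖ ^ j := by
  obtain ⟨u, j, h⟩ := exists_unit_zpow ϖ hϖ z hz
  by_cases hj : (q : ℤ) ∣ j
  · obtain ⟨l, rfl⟩ := hj
    exact Or.inl ⟨u, l, h⟩
  · exact Or.inr ⟨u, j, hj, h⟩

/-- one of the factors has a valuation not divisible by `q` -/
lemma factor_val {I : Type} [Fintype I] (a : I → k) (m : I → ℕ) (w d : k) (ha : ∀ i, a i ≠ 0)
    (hw : w ≠ 0) (h : d * w ^ q = ∏ i, a i ^ m i) (hd : ¬ PV q ϖ d) :
    ∃ (i : I) (u : Aˣ) (j : ℤ), ¬ (q : ℤ) ∣ j ∧ a i = algebraMap A k u * algebraMap A k ϖ ^ j := by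
  by_contra hcon
  push Not at hcon
  apply hd
  have h1 : ∀ i, PV q ϖ (a i) := fun i => (PV_iff hϖ (ha i)).resolve_right fun ⟨u, j, hj, h⟩ =>
    hcon i u j hj h
  have h2 : d = (∏ i, a i ^ m i) / w ^ q := by
    rw [← h, mul_div_cancel_right₀ _ (pow_ne_zero _ hw)]
  rw [h2]
  exact (PV.prod hϖ _ _ fun i _ => (h1 i).pow hϖ _).div hϖ (PV.npow hϖ hw dvd_rfl)

/-- the values of a polynomial without roots modulo the maximal ideal -/
lemma eval_PV (f : A[X]) (hlc : IsUnit f.leadingCoeff)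
    (hdvd : q ∣ f.natDegree) (hroot : ∀ b : A, f.eval b ∉ IsLocalRing.maximalIdeal A) (x : k) :
    PV q ϖ ((f.map (algebraMap A k)).eval x) := by
  rcases mem_or_inv ϖ hϖ x with ⟨b, rfl⟩ | ⟨hx, b, hb, hbx⟩
  · obtain ⟨u, hu⟩ : IsUnit (f.eval b) := by
      by_contra h
      exact hroot b ((IsLocalRing.mem_maximalIdeal _).2 h)
    refine ⟨u, 0, ?_⟩
    rw [mul_zero, zpow_zero, mul_one, eval_map, eval₂_at_apply, hu]
  · have hr : IsUnit ((reverse f).eval b) := by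
      by_contra h
      have h1 : (reverse f).eval b ∈ IsLocalRing.maximalIdeal A :=
        (IsLocalRing.mem_maximalIdeal _).2 h
      rw [← divX_mul_X_add (reverse f), eval_add, eval_mul, eval_X, eval_C,
        coeff_zero_reverse] at h1
      have h2 : f.leadingCoeff ∈ IsLocalRing.maximalIdeal A := by
        have h3 := Ideal.mul_mem_left (IsLocalRing.maximalIdeal A)
          (eval b (reverse f).divX) hb
        exact (Ideal.add_mem_iff_right _ h3).1 h1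
      exact (IsLocalRing.mem_maximalIdeal _).1 h2 hlc
    obtain ⟨v, hv⟩ := hr
    let _ := invertibleOfNonzero hx
    have h2 := Polynomial.eval₂_reverse_mul_pow (algebraMap A k) x f
    rw [invOf_eq_inv, ← hbx, eval₂_at_apply, ← hv] at h2
    rw [eval_map, ← h2]
    refine PV.mul hϖ ⟨v, 0, ?_⟩ (PV.npow hϖ hx hdvd)
    rw [mul_zero, zpow_zero, mul_one]

end

end Run7.h846
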