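import Pool.Agent.Run7.h846.Fac
import Pool.Agent.Run7.h846.FacV
import Pool.Agent.Run7.h846.QObs
import Pool.Agent.Y157.PS.Padic

/-!
# Products of polynomials with good reduction after an affine change of the coordinate
-/

set_option autoImplicit false

namespace Run7.h846

open Pool.Agent.W620.SC Pool.Agent.Y157.PS Pool.Agent.W623.SecC Polynomial

/-- `f(α x + β) = α^(deg f) g(x)` for a monic polynomial `g` over `A` with a separable reduction -/
def GoodAff (A : Type) {k : Type} [CommRing A] [IsLocalRing A] [Field k] [Algebra A k]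
    (f : k[X]) (g : A[X]) (α β : k) : Prop :=
  α ≠ 0 ∧ g.Monic ∧ (g.map (IsLocalRing.residue A)).Separable ∧
    f.comp (C α * X + C β) = C (α ^ f.natDegree) * g.map (algebraMap A k)

section basic

variable {A k : Type} [CommRing A] [IsDomain A] [IsDiscreteValuationRing A] [Field k]
  [Algebra A k] [IsFractionRing A k] {f : k[X]} {g : A[X]} {α β : k}

lemma GoodAff.natDegree (h : GoodAff A f g α β) : g.natDegree = f.natDegree := by
  obtain ⟨hα, hg, -, he⟩ := h
  have h1 := congrArg Polynomial.natDegree he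
  rw [natDegree_comp, natDegree_linear hα, mul_one, natDegree_C_mul (pow_ne_zero _ hα),
    hg.natDegree_map] at h1
  exact h1.symm

lemma GoodAff.monic (h : GoodAff A f g α β) : f.Monic := by
  obtain ⟨hα, hg, -, he⟩ := h
  have h1 := congrArg Polynomial.leadingCoeff he
  rw [leadingCoeff_comp (by rw [natDegree_linear hα]; exact one_ne_zero), leadingCoeff_linear hα,
    leadingCoeff_mul, leadingCoeff_C, (hg.map (algebraMap A k)).leadingCoeff, mul_one] at h1
  have h2 : f.leadingCoeff * α ^ f.natDegree = 1 * α ^ f.natDegree := by rw [h1, one_mul]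
  exact mul_right_cancel₀ (pow_ne_zero _ hα) h2

lemma GoodAff.aeval {F : Type} [Field F] [Algebra k F] (h : GoodAff A f g α β) (x : F) :
    Polynomial.aeval x f = algebraMap k F (α ^ f.natDegree) *
      Polynomial.aeval ((x - algebraMap k F β) / algebraMap k F α) (g.map (algebraMap A k)) := by
  obtain ⟨hα, -, -, he⟩ := h
  have h1 := congrArg (Polynomial.aeval ((x - algebraMap k F β) / algebraMap k F α)) he
  have hα' : algebraMap k F α ≠ 0 := (_root_.map_ne_zero _).2 hα
  rw [aeval_comp, map_mul, aeval_C] at h1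
  rw [← h1]
  congr 1
  rw [map_add, map_mul, aeval_C, aeval_X, aeval_C, mul_div_cancel₀ _ hα', sub_add_cancel]

lemma GoodAff.eval (h : GoodAff A f g α β) (x : k) :
    f.eval x = α ^ f.natDegree * (g.map (algebraMap A k)).eval ((x - β) / α) := by
  have h1 := h.aeval (F := k) x
  simpa only [aeval_def, Algebra.algebraMap_self, eval₂_id, RingHom.id_apply] using h1

lemma GoodAff.root (h : GoodAff A f g α β) (e : k) (he : (g.map (algebraMap A k)).eval e = 0) :
    f.eval (α * e + β) = 0 := by
  rw [h.eval, add_sub_cancel_right, mul_div_cancel_left₀ _ h.1, he, mul_zero]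

lemma GoodAff.PV {q : ℕ} {ϖ : A} (hϖ : Irreducible ϖ) (h : GoodAff A f g α β)
    (hq : q ∣ f.natDegree) (hroot : ∀ b : A, g.eval b ∉ IsLocalRing.maximalIdeal A) (x : k) :
    PV q ϖ (f.eval x) := by
  rw [h.eval]
  exact (PV.npow hϖ h.1 hq).mul hϖ (eval_PV hϖ g (by rw [h.2.1.leadingCoeff]; exact isUnit_one)
    (by rw [h.natDegree]; exact hq) hroot _)

/-- points, when there are no roots modulo the maximal ideal -/
lemma point_root {q : ℕ} {ϖ : A} (hϖ : Irreducible ϖ) {I : Type} [Fintype I]
    (f : I → k[X]) (g : I → A[X]) (α β : I → k) (h : ∀ i, GoodAff A (f i) (g i) (α i) (β i))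
    (hdeg : ∀ i, q ∣ (f i).natDegree) (m : I → ℕ) (d : k) (hd : ¬ Run7.h846.PV q ϖ d) {n : ℕ}
    (hn : 0 < n) (hqn : q ∣ n) (x y : k) (hxy : d * y ^ n = ∏ i, (f i).eval x ^ m i)
    (hroot : ∀ i, ∀ b : A, (g i).eval b ∉ IsLocalRing.maximalIdeal A) : False := by
  have hPV : Run7.h846.PV q ϖ (∏ i, (f i).eval x ^ m i) :=
    PV.prod hϖ _ _ fun i _ => ((h i).PV hϖ (hdeg i) (hroot i) x).pow hϖ _
  have h0 : ∏ i, (f i).eval x ^ m i ≠ 0 := by
    obtain ⟨u, j, h⟩ := hPV
    rw [h]
    exact mul_ne_zero (algUnit_ne u) (zpow_ne_zero _ (algϖ_ne hϖ))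
  have hy : y ≠ 0 := by
    rintro rfl
    rw [zero_pow hn.ne', mul_zero] at hxy
    exact h0 hxy.symm
  apply hd
  have h2 : d = (∏ i, (f i).eval x ^ m i) / y ^ n := by
    rw [← hxy, mul_div_cancel_right₀ _ (pow_ne_zero _ hy)]
  rw [h2]
  exact hPV.div hϖ (PV.npow hϖ hy hqn)

end basic

section padic

variable {A k F Ω : Type} [CommRing A] [IsDomain A] [IsDiscreteValuationRing A]
    [IsAdicComplete (IsLocalRing.maximalIdeal A) A]
    [Finite (IsLocalRing.ResidueField A)] [Field k] [CharZero k] [Algebra A k] [IsFractionRing A k]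
    [Field F] [Field Ω] [Algebra k F] [Algebra F Ω] [Algebra k Ω] [IsScalarTower k F Ω]
    [IsAlgClosed Ω] [Algebra.IsAlgebraic F Ω]

/-- the local theorem for fundamental groups -/
theorem padic_pi {q : ℕ} [Fact q.Prime] (hqA : IsUnit (q : A)) (g : A[X]) (hg : g.Monic)
    (hs : (g.map (IsLocalRing.residue A)).Separable) (hdvd : q ∣ g.natDegree)
    (h3 : 3 ≤ g.natDegree) {ϖ : A} (hϖ : Irreducible ϖ) (a : k) (u : Aˣ) (j : ℤ)
    (hj : ¬ (q : ℤ) ∣ j) (ha : a = algebraMap A k u * algebraMap A k ϖ ^ j)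
    (U : Set (ValuationSubring F)) (hU : ∀ O ∈ U, ∀ c : k, algebraMap k F c ∈ O)
    (G : GSection k F Ω U) (x y : F) (hx : Transcendental k x)
    (hxy : algebraMap k F a * y ^ q = aeval x (g.map (algebraMap A k))) :
    ∃ e : k, (g.map (algebraMap A k)).eval e = 0 := by
  have hq : q.Prime := Fact.out
  have ha0 : a ≠ 0 := by
    rw [ha]
    exact mul_ne_zero (algUnit_ne u) (zpow_ne_zero _ (algϖ_ne hϖ))
  have haF0 : algebraMap k F a ≠ 0 := (_root_.map_ne_zero _).2 ha0
  have hy : IsAlgebraic (IntermediateField.adjoin k {x}) y := by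
    refine isAlgebraic_iff_isIntegral.2 (IsIntegral.of_pow hq.pos ?_)
    have h1 : y ^ q ∈ IntermediateField.adjoin k {x} := by
      have h2 : y ^ q = (algebraMap k F a)⁻¹ * aeval x (g.map (algebraMap A k)) := by
        rw [← hxy, inv_mul_cancel_left₀ haF0]
      rw [h2]
      refine mul_mem (inv_mem (IntermediateField.algebraMap_mem _ a)) ?_
      have h3 : aeval x (g.map (algebraMap A k)) = algebraMap (IntermediateField.adjoin k {x}) F
          (aeval (IntermediateField.AdjoinSimple.gen k x) (g.map (algebraMap A k))) := by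
        rw [← aeval_algebraMap_apply]
        rfl
      rw [h3]
      exact (aeval (IntermediateField.AdjoinSimple.gen k x) (g.map (algebraMap A k))).2
    exact isIntegral_algebraMap (x := (⟨_, h1⟩ : IntermediateField.adjoin k {x}))
  obtain ⟨F₀, Ω₀, _, _, _, _, _, _, _, _, i, x₀, y₀, hix, hiy, htop, S, hS, hScompat⟩ :=
    Pool.Agent.Y674.PS.funct a_inrt q k F Ω U hU G x y hx hy
  have hx0 : Transcendental k x₀ := by
    intro halg
    apply hx
    rw [← hix]
    exact (isAlgebraic_algHom_iff i i.toRingHom.injective).2 halg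
  have hxy0 : algebraMap k F₀ a * y₀ ^ q = aeval x₀ (g.map (algebraMap A k)) := by
    apply i.toRingHom.injective
    have e1 : i (algebraMap k F₀ a * y₀ ^ q) = i (aeval x₀ (g.map (algebraMap A k))) := by
      rw [map_mul, map_pow, hiy, i.commutes, hxy, ← aeval_algHom_apply, hix]
    exact e1
  obtain ⟨W, ⟨-, ⟨e, he, -⟩, -⟩, -⟩ := padic hqA g (by rw [hg.leadingCoeff]; exact isUnit_one)
    hs hdvd h3 ϖ hϖ a j hj (u : A) u.isUnit ha x₀ y₀ hx0 hxy0 htop S hS hScompat
  refine ⟨e, ?_⟩
  rwa [aeval_def, Algebra.algebraMap_self, eval₂_id] at he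

theorem fac_padic {q : ℕ} [Fact q.Prime] (hqA : IsUnit (q : A)) {ϖ : A} (hϖ : Irreducible ϖ)
    {I : Type} [Fintype I] (f : I → k[X]) (g : I → A[X]) (α β : I → k)
    (h : ∀ i, GoodAff A (f i) (g i) (α i) (β i))
    (hcop : ∀ i j, i ≠ j → IsCoprime (f i) (f j))
    (hdeg : ∀ i, q ∣ (f i).natDegree) (h3 : ∀ i, 3 ≤ (f i).natDegree) (m : I → ℕ)
    (hm : ∀ i, (m i).Coprime q) (d : k) (hd0 : d ≠ 0) (hd : ¬ PV q ϖ d)
    (U : Set (ValuationSubring F)) (hU : ∀ O ∈ U, ∀ c : k, algebraMap k F c ∈ O)
    (G : GSection k F Ω U) (x y : F)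
    (hxy : algebraMap k F d * y ^ q = ∏ i, aeval x (f i) ^ m i) :
    ∃ i, ∃ e : k, (f i).eval e = 0 := by
  classical
  have hq : q.Prime := Fact.out
  by_cases hx : Transcendental k x
  · obtain ⟨a, w, ha0, hw0, hdw, hfac⟩ := factor hU G hq.pos f hcop hdeg (fun i => (h i).monic) m
      hm d hd0 x y hx hxy
    obtain ⟨i, u, j, hj, hai⟩ := factor_val hϖ a m w d ha0 hw0 hdw hd
    obtain ⟨F', b, U', hU', hb, ⟨G'⟩⟩ := hfac i
    refine ⟨i, ?_⟩
    have hα := (h i).1
    have hαn : α i ^ (f i).natDegree ≠ 0 := pow_ne_zero _ hα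
    have h1 : ¬ PV q ϖ (a i / α i ^ (f i).natDegree) := by
      intro h2
      have h4 : PV q ϖ (a i) := by
        rw [← div_mul_cancel₀ (a i) hαn]
        exact h2.mul hϖ (PV.npow hϖ hα (hdeg i))
      rw [hai] at h4
      exact not_PV hϖ hj h4
    obtain ⟨u', j', hj', ha'⟩ := (PV_iff (q := q) hϖ (div_ne_zero (ha0 i) hαn)).resolve_left h1
    have hα' : algebraMap k F' (α i) ≠ 0 := (_root_.map_ne_zero _).2 hα
    have hxF : Transcendental k (algebraMap F F' x) := by
      intro halg
      exact hx ((isAlgebraic_algebraMap_iff (algebraMap F F').injective).1 halg)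
    have hx1 : Transcendental k
        ((algebraMap F F' x - algebraMap k F' (β i)) / algebraMap k F' (α i)) := by
      intro halg
      apply hxF
      have h2 : algebraMap F F' x =
          ((algebraMap F F' x - algebraMap k F' (β i)) / algebraMap k F' (α i)) *
            algebraMap k F' (α i) + algebraMap k F' (β i) := by
        rw [div_mul_cancel₀ _ hα', sub_add_cancel]
      rw [h2]
      exact (halg.mul (isAlgebraic_algebraMap _)).add (isAlgebraic_algebraMap _)
    haveI hst' : IsScalarTower k F' Ω := IsScalarTower.of_algebraMap_eq fun c => by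
      rw [IsScalarTower.algebraMap_apply k F F', ← IsScalarTower.algebraMap_apply F F' Ω,
        ← IsScalarTower.algebraMap_apply k F Ω]
    obtain ⟨e, he⟩ := padic_pi hqA (g i) (h i).2.1 (h i).2.2.1 (by rw [(h i).natDegree]; exact hdeg i)
      (by rw [(h i).natDegree]; exact h3 i) hϖ _ u' j' hj' ha' U' hU' G' _ b hx1 (by
        rw [(h i).aeval] at hb
        rw [map_div₀, div_mul_eq_mul_div, hb, mul_div_cancel_left₀ _
          ((_root_.map_ne_zero _).2 hαn)])
    exact ⟨_, (h i).root e he⟩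
  · rw [Transcendental, not_not] at hx
    let G' : NSec k (unramified F Ω U) := ⟨G.toHom, G.cont, G.compat⟩
    obtain ⟨x', rfl⟩ := alg_mem_base_N G' x hx
    have hprod : ∏ i, aeval (algebraMap k F x') (f i) ^ m i =
        algebraMap k F (∏ i, (f i).eval x' ^ m i) := by
      rw [map_prod]
      refine Finset.prod_congr rfl fun i _ => ?_
      rw [aeval_algebraMap_apply, aeval_def, Algebra.algebraMap_self, eval₂_id, map_pow]
    rw [hprod] at hxy
    have h1 : y ^ q = algebraMap k F ((∏ i, (f i).eval x' ^ m i) / d) := by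
      rw [map_div₀, eq_div_iff ((_root_.map_ne_zero _).2 hd0)]
      linear_combination hxy
    have hy : IsAlgebraic k y := by
      apply IsAlgebraic.of_pow (n := q) hq.pos
      rw [h1]
      exact isAlgebraic_algebraMap _
    obtain ⟨y', rfl⟩ := alg_mem_base_N G' y hy
    have h2 : d * y' ^ q = ∏ i, (f i).eval x' ^ m i := by
      apply (algebraMap k F).injective
      rw [map_mul, map_pow, hxy]
    by_contra hcon
    push Not at hcon
    refine point_root hϖ f g α β h hdeg m d hd hq.pos dvd_rfl x' y' h2 fun i b hb => ?_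
    haveI : HenselianLocalRing A :=
      { is_henselian := fun f hf a₀ h1 h2 => by
          have h3 := HenselianRing.is_henselian (R := A) (I := IsLocalRing.maximalIdeal A) f hf a₀ h1
            (h2.map (Ideal.Quotient.mk (IsLocalRing.maximalIdeal A)))
          exact h3 }
    obtain ⟨θ, hθ⟩ := hensel_root (g i) (by rw [(h i).2.1.leadingCoeff]; exact isUnit_one)
      (h i).2.2.1 b hb
    refine hcon i _ ((h i).root (algebraMap A k θ) ?_)
    rw [eval_map, eval₂_at_apply, hθ, map_zero]

end padic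

end Run7.h846
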