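import Pool.Agent.Run7.h846.Val

/-!
# Local analysis of a superelliptic equation
-/

set_option autoImplicit false

namespace Run7.h846

open NumberField IsDedekindDomain

theorem loc {E : Type} [Field E] [NumberField E] (W : HeightOneSpectrum (𝓞 E)) (q : ℕ)
    {Ω : Type} [Fintype Ω] [Nonempty Ω] (hn : q ∣ Fintype.card Ω) (θ : Ω → E)
    (hd : ∀ i j, i ≠ j → θ i - θ j ≠ 0 ∧ ord W (θ i - θ j) = 0) (t x y : E) (ht : t ≠ 0)
    (hy : y ≠ 0) (hx : ∀ i, x - θ i ≠ 0) (heq : t * y ^ q = ∏ i, (x - θ i)) :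
    ∃ i₀, ∀ i, i ≠ i₀ → (q : ℤ) ∣ ord W (x - θ i₀) - ord W (x - θ i) - ord W t := by
  classical
  have hsum : ord W t + q * ord W y = ∑ i, ord W (x - θ i) := by
    rw [← ord_prod W _ _ fun i _ => hx i, ← heq, ord_mul W ht (pow_ne_zero _ hy), ord_pow]
  by_cases hneg : ∃ i, ord W (x - θ i) < 0
  · obtain ⟨i₁, hi₁⟩ := hneg
    have hall : ∀ j, ord W (x - θ j) = ord W (x - θ i₁) := by
      intro j
      by_cases hj : i₁ = j
      · rw [hj]
      · obtain ⟨h1, h2⟩ := hd i₁ j hj
        have h3 := (ord_add_of_lt W (hx i₁) h1 (by rw [h2]; exact hi₁)).2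
        rw [← h3]
        congr 1
        ring
    rw [Finset.sum_congr rfl fun i _ => hall i, Finset.sum_const, Finset.card_univ, nsmul_eq_mul]
      at hsum
    obtain ⟨k, hk⟩ := hn
    rw [hk] at hsum
    refine ⟨i₁, fun i _ => ⟨- (k * ord W (x - θ i₁) - ord W y), ?_⟩⟩
    rw [hall i, sub_self, zero_sub]
    push_cast at hsum
    linear_combination -hsum
  · push Not at hneg
    by_cases hpos : ∃ i, 0 < ord W (x - θ i)
    · obtain ⟨i₀, hi₀⟩ := hpos
      have hzero : ∀ i, i ≠ i₀ → ord W (x - θ i) = 0 := by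
        intro i hi
        obtain ⟨h1, h2⟩ := hd i₀ i (Ne.symm hi)
        by_contra h3
        have h4 : 0 < ord W (x - θ i) := lt_of_le_of_ne (hneg i) (Ne.symm h3)
        have h5 : θ i₀ - θ i = (x - θ i) + -(x - θ i₀) := by ring
        have h6 := ord_add_ge W (hx i) (neg_ne_zero.2 (hx i₀)) (by rw [← h5]; exact h1)
        rw [← h5, h2, ord_neg] at h6
        omega
      rw [Finset.sum_eq_single i₀ (fun i _ hi => hzero i hi) (fun h => absurd (Finset.mem_univ _) h)]
        at hsum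
      refine ⟨i₀, fun i hi => ⟨ord W y, ?_⟩⟩
      rw [hzero i hi]
      linear_combination -hsum
    · push Not at hpos
      have hzero : ∀ i, ord W (x - θ i) = 0 := fun i => le_antisymm (hpos i) (hneg i)
      rw [Finset.sum_congr rfl fun i _ => hzero i, Finset.sum_const_zero] at hsum
      refine ⟨Classical.arbitrary Ω, fun i _ => ⟨ord W y, ?_⟩⟩
      rw [hzero, hzero]
      linear_combination -hsum

end Run7.h846
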