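import Pool.Agent.Run7.h846.MqAut

/-! Chains over function fields of one variable: the height argument. -/

set_option autoImplicit false

namespace Run7.h846.MQ

open MvPolynomial Matrix Height

theorem Link.map {R S : Type*} [CommRing R] [CommRing S] (φ : R →+* S)
    {T : Fin 4 → Fin 4 → Fin 4 → R} {x y : Fin 4 → R} (h : Link T x y) :
    Link (fun i j l => φ (T i j l)) (fun i => φ (x i)) (fun i => φ (y i)) := by
  funext l
  have h1 := congrArg φ (congrFun h l)
  simpa [vecMul, dotProduct, Mat, map_sum, map_mul] using h1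

section

variable {K : Type} [Field K] [CharZero K] {E : Type} [Field E] [Algebra K E]

theorem htC_zero [FF.IsFF K E] (q : Fin 4 × (Fin 4 × Fin 4) → MvPolynomial (Fin 4) K) :
    letI := ffAdm K E
    htC E q = 0 := by
  letI := ffAdm K E
  unfold htC
  have h1 : totalWeight E = 0 := by
    change Multiset.card (0 : Multiset (AbsoluteValue E ℝ)) = 0
    exact Multiset.card_zero
  have h2 : mulHeightBound (fun a => map (algebraMap K E) (q a)) = 1 := by
    apply bound_one (k := K)
    intro j s
    rw [coeff_map]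
    exact isAlgebraic_algebraMap _
  rw [h1, h2]
  simp

variable {T : Fin 4 → Fin 4 → Fin 4 → K} {M : ℕ}
  {q : ℕ → Fin 4 × (Fin 4 × Fin 4) → MvPolynomial (Fin 4) K}

theorem chain_aut {u : ℕ → Fin 4 → E} (hu : Chain (bc K T) u) (τ : E ≃ₐ[K] E) :
    Chain (bc K T) (fun k i => τ (u k i)) := by
  constructor
  · intro k h
    apply hu.ne k
    funext i
    have := congrFun h i
    exact (map_eq_zero_iff τ τ.injective).1 this
  · intro k
    have h1 := (hu.link k).map (τ : E →+* E)
    have e : rotn (bc K T : Fin 4 → Fin 4 → Fin 4 → E) k = bc K (rotn T k) :=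
      rotn_map (algebraMap K E) T k
    have h2 : (fun i j l => (τ : E →+* E) (rotn (bc K T) k i j l)) = rotn (bc K T) k := by
      rw [e]
      funext i j l
      exact τ.commutes _
    rw [h2] at h1
    exact h1

theorem chain_alg_aux (h : Certs T M q) [FF.IsFF K E] {u : ℕ → Fin 4 → E}
    (hu : Chain (bc K T) u) {A p : ℕ} (hp : 0 < p) (hpd : 3 ∣ p)
    (τ : E ≃ₐ[K] E) (hτ : ∀ j, τ (u A j) = u (A + p) j) (a : Fin 4) (ha : u A a = 1)
    (j : Fin 4) : ¬ Transcendental K (u A j) := by
  letI := ffAdm K E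
  intro htr
  have hper : ∀ k, logHeight (u (A + (k + p))) = logHeight (u (A + k)) := by
    intro k
    have hr : rotn (bc K T : Fin 4 → Fin 4 → Fin 4 → E) A = rotn (bc K T) (A + p) := by
      obtain ⟨c, rfl⟩ := hpd
      rw [rotn_add_mul]
    have h1 := chain_fwd (w := fun k i => τ (u k i)) (w' := u) h.nd hr (chain_aut hu τ).ne hu.ne
      (fun k => (chain_aut hu τ).link _) (fun k => hu.link _)
      (by
        have : (fun i => τ (u A i)) = u (A + p) := funext hτ
        simp only [this]
        exact Pro.refl _) k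
    have h2 := logHeight_pro h1
    have h3 := ht_aut τ (u (A + k)) (hu.ne _)
    rw [h3] at h2
    rw [h2]
    congr 2
    omega
  have hC : bigC E q = 0 := by
    unfold bigC
    rw [htC_zero, htC_zero, htC_zero]
    simp
  have h4 := seq_bound (fun k => logHeight (u (A + k))) 0 p hp (fun k => ?_) hper 0
  · simp only [add_zero] at h4
    have h5 := logHeight_comp_le (![j, a] : Fin 2 → Fin 4) (u A)
    have h6 : u A ∘ ![j, a] = ![u A j, u A a] := by
      funext i
      fin_cases i <;> rfl
    rw [h6, ← logHeight₁_div_eq_logHeight, ha, div_one] at h5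
    have h7 := ht_pos htr
    linarith
  · have h1 := chain_ineq h hu (A + k)
    have h2 := htC_le (F := E) h (A + k + 1)
    rw [hC] at h2
    rw [show A + (k + 1) = A + k + 1 by ring, show A + (k + 2) = A + k + 2 by ring]
    linarith

theorem chain_alg (h : Certs T M q) (hD : Irreducible (detP T)) {F : MvPolynomial (Fin 4) K}
    {dF : ℕ} (hFh : F.IsHomogeneous dF) (hDF : ¬ detP T ∣ F) {u : ℕ → Fin 4 → E}
    (hu : Chain (bc K T) u) (a : ℕ → Fin 4) (hua : ∀ k, u k (a k) = 1)
    (hgen : ∀ k, 1 ≤ k → IntermediateField.adjoin K (Set.range (u k)) = ⊤)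
    {n : ℕ} (hn : 0 < n) (hF : ∀ m, aeval (u (3 * n * m)) F = 0) : Algebra.IsAlgebraic K E := by
  by_contra hna
  have hdet : ∀ m, aeval (u (3 * n * m)) (detP T) = 0 := by
    intro m
    rw [aeval_detP]
    have h1 := hu.det (3 * n * m)
    have e : rotn (bc K T : Fin 4 → Fin 4 → Fin 4 → E) (3 * n * m) =
        bc K (rotn T (3 * n * m)) := rotn_map (algebraMap K E) T _
    rw [e] at h1
    have h2 : rotn T (3 * n * m) = T := by
      have := rotn_add_mul T 0 (n * m)
      rw [zero_add] at this
      rw [mul_assoc, this]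
      rfl
    rwa [h2] at h1
  have htr : ∀ k, 1 ≤ k → ∃ j, Transcendental K (u k j) := by
    intro k hk
    by_contra hc
    push Not at hc
    apply hna
    have h1 : Algebra.IsAlgebraic K (IntermediateField.adjoin K (Set.range (u k))) := by
      apply IntermediateField.isAlgebraic_adjoin
      rintro _ ⟨j, rfl⟩
      exact (not_not.1 (hc j)).isIntegral
    refine ⟨fun x => ?_⟩
    have hx : x ∈ IntermediateField.adjoin K (Set.range (u k)) := by rw [hgen k hk]; trivial
    have h2 := h1.isAlgebraic ⟨x, hx⟩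
    exact h2.algebraMap (A := E)
  let f : ℕ → Ideal (MvPolynomial (Fin 4) K) := fun m =>
    RingHom.ker (aeval (u (3 * n * (m + 1))) : MvPolynomial (Fin 4) K →ₐ[K] E)
  have hpos : ∀ m, 1 ≤ 3 * n * (m + 1) := fun m => Nat.mul_pos (by omega) (by omega)
  have hfin : (Set.range f).Finite := by
    have h1 : (⋃ b : Fin 4, (Ideal.span {detP T, F, X b - 1}).minimalPrimes).Finite :=
      Set.finite_iUnion fun b => Ideal.finite_minimalPrimes_of_isNoetherianRing _ _
    refine h1.subset ?_
    rintro _ ⟨m, rfl⟩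
    rw [Set.mem_iUnion]
    obtain ⟨j0, hj0⟩ := htr _ (hpos m)
    exact ⟨a _, ker_min hD (detP_hom T) hFh hDF _ _ (hua _) (hdet _) (hF _) j0 hj0⟩
  obtain ⟨m, m', hne, hmm⟩ : ∃ m m', m < m' ∧ f m = f m' := by
    by_contra hc
    push Not at hc
    have hinj : Function.Injective f := by
      intro x y hxy
      rcases lt_trichotomy x y with h1 | h1 | h1
      · exact absurd hxy (hc x y h1)
      · exact h1
      · exact absurd hxy.symm (hc y x h1)
    exact Set.infinite_range_of_injective hinj hfin
  obtain ⟨j0, hj0⟩ := htr _ (hpos m)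
  haveI : FF.IsFF K E := isFF_of hD (detP_hom T) hFh hDF _ _ (hua _) (hdet _) (hF _)
    (hgen _ (hpos m)) j0 hj0
  obtain ⟨τ, hτ⟩ := exists_aut _ _ (hgen _ (hpos m)) (hgen _ (hpos m')) hmm
  obtain ⟨d, rfl⟩ := Nat.exists_eq_add_of_lt hne
  refine chain_alg_aux h hu (A := 3 * n * (m + 1)) (p := 3 * (n * (d + 1))) ?_ ⟨_, rfl⟩ τ
    (fun j => ?_) _ (hua _) j0 hj0
  · positivity
  · rw [hτ]
    congr 2
    ring

end

end Run7.h846.MQ
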