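import Pool.Agent.Helper386.D5V.Helper386_FF_Div

/-! Heights on function fields of one variable. -/

set_option autoImplicit false
set_option linter.all false

namespace Run7.h846.MQ

open FF Height Function

section

variable {k E : Type} [Field k] [Field E] [Algebra k E]

/-- the absolute value of a place -/
noncomputable def absP (P : Place k E) : AbsoluteValue E ℝ := by
  classical
  exact
  { toFun := fun f => if f = 0 then 0 else Real.exp (-(P.deg * P.ord f : ℝ))
    map_mul' := by
      intro f g
      by_cases hf : f = 0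
      · simp [hf]
      by_cases hg : g = 0
      · simp [hg]
      simp only [hf, hg, mul_eq_zero, or_self, if_false]
      rw [← Real.exp_add, P.ord_mul hf hg]
      congr 1
      push_cast
      ring
    nonneg' := by
      intro f
      split_ifs
      · exact le_rfl
      · exact (Real.exp_pos _).le
    eq_zero' := by
      intro f
      constructor
      · intro h
        by_contra hf
        rw [if_neg hf] at h
        exact (Real.exp_pos _).ne' h
      · intro h
        rw [if_pos h]
    add_le' := by
      intro f g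
      by_cases hf : f = 0
      · simp only [hf, zero_add, if_true]
        exact le_rfl
      by_cases hg : g = 0
      · simp only [hg, add_zero, if_true]
        exact le_rfl
      by_cases hfg : f + g = 0
      · rw [if_pos hfg, if_neg hf, if_neg hg]
        positivity
      rw [if_neg hfg, if_neg hf, if_neg hg]
      have hd : (0 : ℝ) ≤ P.deg := Nat.cast_nonneg _
      rcases min_le_iff.1 (P.ord_add hf hg hfg) with h | h
      · have h1 : (P.ord f : ℝ) ≤ P.ord (f + g) := by exact_mod_cast h
        have h2 : Real.exp (-(P.deg * P.ord (f + g) : ℝ)) ≤ Real.exp (-(P.deg * P.ord f : ℝ)) :=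
          Real.exp_le_exp.2 (by nlinarith)
        have := Real.exp_pos (-(P.deg * P.ord g : ℝ))
        linarith
      · have h1 : (P.ord g : ℝ) ≤ P.ord (f + g) := by exact_mod_cast h
        have h2 : Real.exp (-(P.deg * P.ord (f + g) : ℝ)) ≤ Real.exp (-(P.deg * P.ord g : ℝ)) :=
          Real.exp_le_exp.2 (by nlinarith)
        have := Real.exp_pos (-(P.deg * P.ord f : ℝ))
        linarith }

theorem absP_apply (P : Place k E) {f : E} (hf : f ≠ 0) :
    absP P f = Real.exp (-(P.deg * P.ord f : ℝ)) := if_neg hf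

theorem absP_non (P : Place k E) : IsNonarchimedean (absP P) := by
  intro f g
  by_cases hf : f = 0
  · rw [hf, zero_add]
    exact le_max_right _ _
  by_cases hg : g = 0
  · rw [hg, add_zero]
    exact le_max_left _ _
  by_cases hfg : f + g = 0
  · rw [hfg, map_zero]
    exact le_max_of_le_left (apply_nonneg _ _)
  rw [absP_apply P hfg, absP_apply P hf, absP_apply P hg]
  have hd : (0 : ℝ) ≤ P.deg := Nat.cast_nonneg _
  rcases min_le_iff.1 (P.ord_add hf hg hfg) with h | h
  · have h1 : (P.ord f : ℝ) ≤ P.ord (f + g) := by exact_mod_cast h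
    exact le_max_of_le_left (Real.exp_le_exp.2 (by nlinarith))
  · have h1 : (P.ord g : ℝ) ≤ P.ord (f + g) := by exact_mod_cast h
    exact le_max_of_le_right (Real.exp_le_exp.2 (by nlinarith))

theorem absP_const (P : Place k E) {f : E} (hf0 : f ≠ 0) (hf : IsAlgebraic k f) :
    absP P f = 1 := by
  rw [absP_apply P hf0, P.ord_eq_zero_of_isAlgebraic hf0 hf]
  simp

variable [CharZero k] [IsFF k E]

theorem absP_inj : Injective (absP : Place k E → AbsoluteValue E ℝ) := by
  intro P Q h
  apply Place.eq_of_le
  intro f hf h0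
  have h1 : absP P f = absP Q f := by rw [h]
  rw [absP_apply P hf, absP_apply Q hf] at h1
  have h2 := Real.exp_injective h1
  have hP : (0 : ℝ) < P.deg := by exact_mod_cast P.deg_pos
  have hQ : (0 : ℝ) < Q.deg := by exact_mod_cast Q.deg_pos
  have h0' : (0 : ℝ) ≤ P.ord f := by exact_mod_cast h0
  have h3 : (P.deg * P.ord f : ℝ) = Q.deg * Q.ord f := by linarith
  have h4 : (0 : ℝ) ≤ Q.deg * Q.ord f := by rw [← h3]; positivity
  have h5 : (0 : ℝ) ≤ Q.ord f := by
    by_contra hc
    push Not at hc
    nlinarith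
  exact_mod_cast h5

/-- finitely many zeros and poles, and the product formula -/
theorem supp_sum {f : E} (hf : f ≠ 0) : ∃ S : Finset (Place k E),
    (∀ P, P ∉ S → P.ord f = 0) ∧ ∑ P ∈ S, (P.deg * P.ord f : ℤ) = 0 := by
  classical
  by_cases ht : Transcendental k f
  · obtain ⟨S, hS, -, hS3⟩ := zeros (k := k) (K := E) ht
    obtain ⟨S', hS', hS3'⟩ := poles (k := k) (K := E) ht
    refine ⟨S ∪ S', fun P hP => ?_, ?_⟩
    · rw [Finset.mem_union, not_or, hS, hS'] at hP
      omega
    · have hd : Disjoint S S' := by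
        rw [Finset.disjoint_left]
        intro P h1 h2
        rw [hS] at h1
        rw [hS'] at h2
        omega
      rw [Finset.sum_union hd]
      have e1 : ∑ P ∈ S, (P.deg * P.ord f : ℤ) =
          ((∑ w ∈ S, (w.ord f).toNat * w.deg : ℕ) : ℤ) := by
        push_cast
        refine Finset.sum_congr rfl fun P hP => ?_
        rw [hS] at hP
        rw [Int.toNat_of_nonneg hP.le]
        ring
      have e2 : ∑ P ∈ S', (P.deg * P.ord f : ℤ) =
          -((∑ w ∈ S', (-w.ord f).toNat * w.deg : ℕ) : ℤ) := by
        push_cast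
        rw [← Finset.sum_neg_distrib]
        refine Finset.sum_congr rfl fun P hP => ?_
        rw [hS'] at hP
        rw [Int.toNat_of_nonneg (by omega)]
        ring
      rw [e1, e2, hS3, hS3']
      ring
  · refine ⟨∅, fun P _ => P.ord_eq_zero_of_isAlgebraic hf (not_not.1 ht), by simp⟩

theorem fin_supp {f : E} (hf : f ≠ 0) :
    (fun v : Set.range (absP : Place k E → AbsoluteValue E ℝ) => v.val f).HasFiniteMulSupport := by
  obtain ⟨S, hS, -⟩ := supp_sum (k := k) hf
  have hfin : ((S : Set (Place k E)).image absP).Finite := S.finite_toSet.image _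
  refine Set.Finite.of_finite_image (f := Subtype.val) (hfin.subset ?_)
    (Subtype.val_injective.injOn)
  rintro _ ⟨⟨_, P, rfl⟩, hv, rfl⟩
  refine ⟨P, ?_, rfl⟩
  by_contra hP
  apply hv
  change absP P f = 1
  rw [absP_apply P hf, hS P hP]
  simp

theorem finprod_range (g : AbsoluteValue E ℝ → ℝ) :
    ∏ᶠ v : Set.range (absP : Place k E → AbsoluteValue E ℝ), g v.val =
      ∏ᶠ P : Place k E, g (absP P) := by
  symm
  exact finprod_eq_of_bijective (fun P => (⟨absP P, P, rfl⟩ : Set.range absP))
    ⟨fun P Q h => absP_inj (congrArg Subtype.val h), fun ⟨_, P, h⟩ => ⟨P, Subtype.ext h⟩⟩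
    (fun P => rfl)

theorem prod_formula {f : E} (hf : f ≠ 0) :
    ∏ᶠ v : Set.range (absP : Place k E → AbsoluteValue E ℝ), v.val f = 1 := by
  rw [finprod_range (fun v => v f)]
  obtain ⟨S, hS, hsum⟩ := supp_sum (k := k) hf
  rw [finprod_eq_prod_of_mulSupport_subset (s := S)]
  · have : ∀ P ∈ S, absP P f = Real.exp (-(P.deg * P.ord f : ℝ)) := fun P _ => absP_apply P hf
    rw [Finset.prod_congr rfl this, ← Real.exp_sum, Finset.sum_neg_distrib]
    have h1 : ∑ P ∈ S, (P.deg * P.ord f : ℝ) = ((∑ P ∈ S, (P.deg * P.ord f : ℤ) : ℤ) : ℝ) := by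
      push_cast
      rfl
    rw [h1, hsum]
    simp
  · intro P hP
    by_contra hPS
    apply hP
    change absP P f = 1
    rw [absP_apply P hf, hS P hPS]
    simp

/-- the heights of a function field -/
@[reducible] noncomputable def ffAdm (k E : Type) [Field k] [Field E] [Algebra k E] [CharZero k]
    [IsFF k E] : AdmissibleAbsValues E where
  archAbsVal := 0
  nonarchAbsVal := Set.range (absP : Place k E → AbsoluteValue E ℝ)
  isNonarchimedean := by
    rintro _ ⟨P, rfl⟩
    exact absP_non P
  hasFiniteMulSupport := fun hx => fin_supp hx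
  product_formula := by
    intro x hx
    simp only [Multiset.map_zero, Multiset.prod_zero, one_mul]
    exact prod_formula hx

open AdmissibleAbsValues

/-- the constants of the height inequalities are trivial -/
theorem bound_one {ι ι' : Type} [Finite ι'] [Nonempty ι'] (q : ι' → MvPolynomial ι E)
    (h : ∀ j s, IsAlgebraic k (MvPolynomial.coeff s (q j))) :
    letI := ffAdm k E
    mulHeightBound q = 1 := by
  letI := ffAdm k E
  rw [mulHeightBound_eq]
  change (Multiset.map _ (0 : Multiset (AbsoluteValue E ℝ))).prod * _ = 1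
  rw [Multiset.map_zero, Multiset.prod_zero, one_mul]
  have key : ∀ v : nonarchAbsVal (K := E),
      ⨆ j, max (⨆ s : (q j).support, v.val (MvPolynomial.coeff s (q j))) 1 = 1 := by
    rintro ⟨_, P, rfl⟩
    have h1 : ∀ j, max (⨆ s : (q j).support, absP P (MvPolynomial.coeff s (q j))) 1 = (1 : ℝ) := by
      intro j
      apply max_eq_right
      refine Real.iSup_le (fun s => ?_) zero_le_one
      exact (absP_const P (MvPolynomial.mem_support_iff.1 s.2) (h j s)).le
    simp only [h1]
    exact ciSup_const
  simp only [key]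
  exact finprod_one

theorem ht_pos {f : E} (hf : Transcendental k f) :
    letI := ffAdm k E
    0 < logHeight₁ f := by
  classical
  letI := ffAdm k E
  obtain ⟨S, hS, hS3⟩ := poles (k := k) (K := E) hf
  rw [logHeight₁_eq_log_mulHeight₁]
  apply Real.log_pos
  rw [mulHeight₁_eq]
  change 1 < (Multiset.map _ (0 : Multiset (AbsoluteValue E ℝ))).prod * _
  rw [Multiset.map_zero, Multiset.prod_zero, one_mul]
  have e : ∏ᶠ v : nonarchAbsVal (K := E), max (v.val f) 1 =
      ∏ᶠ P : Place k E, max (absP P f) 1 := finprod_range (fun v => max (v f) 1)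
  rw [e]
  have hf0 : f ≠ 0 := by
    rintro rfl
    exact hf isAlgebraic_zero
  have hnot : ∀ P, P ∉ S → max (absP P f) 1 = 1 := by
    intro P hP
    rw [hS, not_lt] at hP
    apply max_eq_right
    rw [absP_apply P hf0, Real.exp_le_one_iff]
    have h1 : (0 : ℝ) ≤ P.ord f := by exact_mod_cast hP
    have h2 : (0 : ℝ) ≤ P.deg := Nat.cast_nonneg _
    nlinarith
  rw [finprod_eq_prod_of_mulSupport_subset (s := S)]
  · have hne : S.Nonempty := by
      rw [Finset.nonempty_iff_ne_empty]
      rintro rfl
      rw [Finset.sum_empty] at hS3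
      have := IsFF.finite (k := k) hf
      have h1 : 0 < Module.finrank (IntermediateField.adjoin k {f}) E := Module.finrank_pos
      omega
    obtain ⟨P, hP⟩ := hne
    have h1 : ∀ Q ∈ S, 1 ≤ max (absP Q f) 1 := fun Q _ => le_max_right _ _
    have h2 : max (absP P f) 1 ≤ ∏ Q ∈ S, max (absP Q f) 1 := by
      rw [← Finset.mul_prod_erase S _ hP]
      have h3 : (1 : ℝ) ≤ ∏ Q ∈ S.erase P, max (absP Q f) 1 := by
        calc (1 : ℝ) = ∏ Q ∈ S.erase P, (1 : ℝ) := by simp
          _ ≤ _ := Finset.prod_le_prod (fun _ _ => zero_le_one) fun _ _ => le_max_right _ _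
      have h4 : (0 : ℝ) ≤ max (absP P f) 1 := le_max_of_le_right zero_le_one
      nlinarith
    refine lt_of_lt_of_le ?_ h2
    apply lt_max_of_lt_left
    rw [absP_apply P hf0, Real.one_lt_exp_iff]
    rw [hS] at hP
    have h3 : (P.ord f : ℝ) < 0 := by exact_mod_cast hP
    have h4 : (0 : ℝ) < P.deg := by exact_mod_cast P.deg_pos
    nlinarith
  · intro P hP
    by_contra hPS
    exact hP (hnot P hPS)

/-- transport of places -/
def comapP (P : Place k E) (τ : E ≃ₐ[k] E) : Place k E where
  ord f := P.ord (τ f)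
  ord_zero := by rw [map_zero, P.ord_zero]
  ord_mul := by
    intro f g hf hg
    rw [map_mul, P.ord_mul ((map_ne_zero τ).2 hf) ((map_ne_zero τ).2 hg)]
  ord_add := by
    intro f g hf hg hfg
    rw [map_add]
    exact P.ord_add ((map_ne_zero τ).2 hf) ((map_ne_zero τ).2 hg)
      (by rw [← map_add]; exact (map_ne_zero τ).2 hfg)
  ord_const := by
    intro c hc
    rw [AlgEquiv.commutes, P.ord_const hc]
  surj := by
    obtain ⟨t, ht0, ht⟩ := P.surj
    exact ⟨τ.symm t, (map_ne_zero τ.symm).2 ht0, by rw [τ.apply_symm_apply, ht]⟩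

theorem comapP_deg (P : Place k E) (τ : E ≃ₐ[k] E) : (comapP P τ).deg = P.deg := by
  have hreg : ∀ f, (comapP P τ).Reg f ↔ P.Reg (τ f) := by
    intro f
    unfold Place.Reg
    rw [map_eq_zero_iff τ τ.injective]
    rfl
  let e : (comapP P τ).O ≃+* P.O :=
    { toFun := fun f => ⟨τ f.1, (hreg _).1 f.2⟩
      invFun := fun f => ⟨τ.symm f.1, (hreg _).2 (by rw [τ.apply_symm_apply]; exact f.2)⟩
      left_inv := fun f => Subtype.ext (τ.symm_apply_apply _)
      right_inv := fun f => Subtype.ext (τ.apply_symm_apply _)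
      map_mul' := fun f g => Subtype.ext (map_mul τ _ _)
      map_add' := fun f g => Subtype.ext (map_add τ _ _) }
  let r : (comapP P τ).RF ≃+* P.RF := IsLocalRing.ResidueField.mapEquiv e
  have hr : ∀ c : k, r (algebraMap k (comapP P τ).RF c) = algebraMap k P.RF c := by
    intro c
    rw [Place.algebraMap_RF, Place.algebraMap_RF, Place.red_of_reg _ (Place.reg_const _ c),
      Place.red_of_reg _ (Place.reg_const _ c)]
    change IsLocalRing.ResidueField.map _ (IsLocalRing.residue _ _) = IsLocalRing.residue _ _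
    rw [IsLocalRing.ResidueField.map_residue]
    congr 1
    exact Subtype.ext (τ.commutes c)
  exact (AlgEquiv.ofRingEquiv (f := r) hr).toLinearEquiv.finrank_eq

theorem absP_comap (P : Place k E) (τ : E ≃ₐ[k] E) (f : E) :
    absP (comapP P τ) f = absP P (τ f) := by
  by_cases hf : f = 0
  · rw [hf, map_zero, map_zero, map_zero]
  · rw [absP_apply _ hf, absP_apply _ ((map_ne_zero τ).2 hf), comapP_deg]
    rfl

/-- automorphisms preserve the height -/
theorem ht_aut (τ : E ≃ₐ[k] E) {ι : Type} [Finite ι] (x : ι → E) (hx : x ≠ 0) :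
    letI := ffAdm k E
    logHeight (fun i => τ (x i)) = logHeight x := by
  letI := ffAdm k E
  have hx' : (fun i => τ (x i)) ≠ 0 := by
    intro h
    apply hx
    funext i
    have := congrFun h i
    exact (map_eq_zero_iff τ τ.injective).1 this
  rw [logHeight_eq_log_mulHeight, logHeight_eq_log_mulHeight, mulHeight_eq hx, mulHeight_eq hx']
  change Real.log ((Multiset.map _ (0 : Multiset (AbsoluteValue E ℝ))).prod * _) =
    Real.log ((Multiset.map _ (0 : Multiset (AbsoluteValue E ℝ))).prod * _)
  rw [Multiset.map_zero, Multiset.map_zero]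
  congr 2
  have e1 : ∏ᶠ v : nonarchAbsVal (K := E), (⨆ i, v.val (τ (x i))) =
      ∏ᶠ P : Place k E, (⨆ i, absP P (τ (x i))) := finprod_range (fun v => ⨆ i, v (τ (x i)))
  have e2 : ∏ᶠ v : nonarchAbsVal (K := E), (⨆ i, v.val (x i)) =
      ∏ᶠ P : Place k E, (⨆ i, absP P (x i)) := finprod_range (fun v => ⨆ i, v (x i))
  rw [e1, e2]
  refine finprod_eq_of_bijective (fun P => comapP P τ) ⟨fun P Q h => ?_, fun P => ?_⟩ fun P => ?_
  · apply Place.ext
    funext f
    have h1 := congrArg (fun R : Place k E => R.ord (τ.symm f)) h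
    change P.ord (τ (τ.symm f)) = Q.ord (τ (τ.symm f)) at h1
    rwa [τ.apply_symm_apply] at h1
  · refine ⟨comapP P τ.symm, ?_⟩
    apply Place.ext
    funext f
    change P.ord (τ.symm (τ f)) = P.ord f
    rw [τ.symm_apply_apply]
  · simp only [absP_comap]

end

end Run7.h846.MQ
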