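import Mathlib

/-! Transcendence degree of the points on the intersection of two hypersurfaces. -/

set_option autoImplicit false

namespace Run7.h846.MQ

open MvPolynomial

section

variable {K : Type} [Field K]

theorem hom_scale {n : ℕ} {p : MvPolynomial (Fin 4) K} (hp : p.IsHomogeneous n) {A : Type}
    [CommRing A] [Algebra K A] (t : A) (u : Fin 4 → A) :
    aeval (fun j => t * u j) p = t ^ n * aeval u p := by
  rw [aeval_def, aeval_def, eval₂_eq, eval₂_eq, Finset.mul_sum]
  refine Finset.sum_congr rfl fun d hd => ?_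
  simp only [mul_pow, Finset.prod_mul_distrib]
  rw [Finset.prod_pow_eq_pow_sum, ← hp.degree_eq_sum_deg_support hd]
  ring

theorem cons_indep {A A' : Type} [CommRing A] [IsDomain A] [CommRing A'] [Algebra K A]
    [Algebra K A'] (ψ : A →ₐ[K] A') {m : ℕ} (a : A) (ha : a ≠ 0) (hψ : ψ a = 0) (y : Fin m → A)
    (hy : AlgebraicIndependent K (fun i => ψ (y i))) :
    AlgebraicIndependent K (Fin.cons a y : Fin (m + 1) → A) := by
  rw [algebraicIndependent_iff]
  intro P hP
  by_contra hP0
  -- polynomials in `a`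
  let Φ : Polynomial (MvPolynomial (Fin m) K) →+* A :=
    Polynomial.eval₂RingHom ((aeval y : MvPolynomial (Fin m) K →ₐ[K] A) : _ →+* A) a
  have hΦ : ∀ Q : MvPolynomial (Fin (m + 1)) K,
      Φ (finSuccEquiv K m Q) = aeval (Fin.cons a y : Fin (m + 1) → A) Q := by
    intro Q
    induction Q using MvPolynomial.induction_on with
    | C c =>
      rw [aeval_C]
      have e : finSuccEquiv K m (C c) = Polynomial.C (C c) := by
        have h := congrArg (fun f => f c) (finSuccEquiv_comp_C_eq_C (R := K) m)
        have h' : (finSuccEquiv K m).symm (Polynomial.C (C c)) = C c := by simpa using h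
        rw [← h', AlgEquiv.apply_symm_apply]
      rw [e]
      simp [Φ]
    | add p q hp hq => rw [map_add, map_add, map_add, hp, hq]
    | mul_X p i hp =>
      rw [map_mul, map_mul, map_mul, hp, aeval_X]
      congr 1
      refine Fin.cases ?_ (fun j => ?_) i
      · rw [finSuccEquiv_X_zero]
        simp [Φ]
      · rw [finSuccEquiv_X_succ]
        simp [Φ]
  have hp0 : finSuccEquiv K m P ≠ 0 := by
    intro h
    exact hP0 ((map_eq_zero_iff _ (finSuccEquiv K m).injective).1 h)
  obtain ⟨p', hp'⟩ : ∃ p', finSuccEquiv K m P =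
      Polynomial.X ^ (finSuccEquiv K m P).natTrailingDegree * p' :=
    Polynomial.X_pow_dvd_iff.2 fun d hd => Polynomial.coeff_eq_zero_of_lt_natTrailingDegree hd
  have hc : p'.coeff 0 ≠ 0 := by
    have h1 : (finSuccEquiv K m P).coeff (finSuccEquiv K m P).natTrailingDegree ≠ 0 := by
      rw [← Polynomial.trailingCoeff]
      exact Polynomial.trailingCoeff_nonzero_iff_nonzero.2 hp0
    have h2 : (finSuccEquiv K m P).coeff (finSuccEquiv K m P).natTrailingDegree =
        (Polynomial.X ^ (finSuccEquiv K m P).natTrailingDegree * p').coeff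
          (finSuccEquiv K m P).natTrailingDegree :=
      congrArg (fun r => Polynomial.coeff r (finSuccEquiv K m P).natTrailingDegree) hp'
    rw [h2] at h1
    have h3 : (Polynomial.X ^ (finSuccEquiv K m P).natTrailingDegree * p').coeff
        (finSuccEquiv K m P).natTrailingDegree = p'.coeff 0 := by
      have := Polynomial.coeff_X_pow_mul p' (finSuccEquiv K m P).natTrailingDegree 0
      rwa [zero_add] at this
    rwa [h3] at h1
  have h4 : Φ p' = 0 := by
    have h5 : Φ (finSuccEquiv K m P) = 0 := by rw [hΦ, hP]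
    rw [hp', map_mul, map_pow] at h5
    have h6 : Φ Polynomial.X = a := by simp [Φ]
    rw [h6] at h5
    exact (mul_eq_zero.1 h5).resolve_left (pow_ne_zero _ ha)
  apply hc
  rw [algebraicIndependent_iff] at hy
  apply hy
  have h7 : ψ (Φ p') = aeval (fun i => ψ (y i)) (p'.coeff 0) := by
    change ψ (Polynomial.eval₂ _ a p') = _
    rw [show ψ (Polynomial.eval₂ _ a p') = (ψ : A →+* A') (Polynomial.eval₂ _ a p') from rfl,
      Polynomial.hom_eval₂]
    change Polynomial.eval₂ _ (ψ a) p' = _
    rw [hψ, Polynomial.eval₂_at_zero]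
    change ψ (aeval y (p'.coeff 0)) = _
    rw [← AlgHom.comp_apply]
    congr 1
    ext i
    simp
  rw [← h7, h4, map_zero]

/-- the points on `D = F = 0` have transcendence degree at most one -/
theorem trd_le {D F : MvPolynomial (Fin 4) K} (hD : Irreducible D) {dD dF : ℕ}
    (hDh : D.IsHomogeneous dD) (hFh : F.IsHomogeneous dF) (hDF : ¬ D ∣ F) {A : Type} [CommRing A]
    [IsDomain A] [Algebra K A] (v : Fin 4 → A) (a : Fin 4) (hva : v a = 1)
    (h1 : aeval v D = 0) (h2 : aeval v F = 0) (f : Fin 2 → MvPolynomial (Fin 4) K) :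
    ¬ AlgebraicIndependent K (fun i => aeval v (f i)) := by
  intro hI
  have hprime : Prime D := hD.prime
  have hspan : (Ideal.span {D} : Ideal (MvPolynomial (Fin 4) K)).IsPrime :=
    (Ideal.span_singleton_prime hD.ne_zero).2 hprime
  -- step 3
  let ψ3 : Polynomial A →ₐ[K] A := (Polynomial.aeval (1 : A)).restrictScalars K
  let u : Fin 4 → Polynomial A := fun j => Polynomial.X * Polynomial.C (v j)
  have hu : ∀ {n : ℕ} {p : MvPolynomial (Fin 4) K}, p.IsHomogeneous n →
      aeval u p = Polynomial.X ^ n * Polynomial.C (aeval v p) := by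
    intro n p hp
    have := hom_scale hp (Polynomial.X : Polynomial A) (fun j => Polynomial.C (v j))
    rw [this]
    congr 1
    have e : (Polynomial.C (aeval v p) : Polynomial A) =
        ((Algebra.ofId A (Polynomial A)).restrictScalars K) (aeval v p) := rfl
    rw [e, ← AlgHom.comp_apply]
    congr 1
    ext j
    simp [Algebra.ofId_apply]
  have hψ3 : ∀ p : MvPolynomial (Fin 4) K, ψ3 (aeval u p) = aeval v p := by
    intro p
    rw [← AlgHom.comp_apply]
    congr 1
    ext j
    simp [ψ3, u]
  have i3 : AlgebraicIndependent K (Fin.cons (Polynomial.X - 1) (fun i => aeval u (f i)) :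
      Fin 3 → Polynomial A) := by
    refine cons_indep ψ3 _ ?_ ?_ _ ?_
    · have := Polynomial.X_sub_C_ne_zero (1 : A)
      rwa [Polynomial.C_1] at this
    · simp [ψ3]
    · simp only [hψ3]
      exact hI
  -- step 2
  have hDu : ∀ g ∈ (Ideal.span {D} : Ideal (MvPolynomial (Fin 4) K)),
      (aeval u : MvPolynomial (Fin 4) K →ₐ[K] Polynomial A) g = 0 := by
    intro g hg
    obtain ⟨r, rfl⟩ := Ideal.mem_span_singleton'.1 hg
    rw [map_mul, hu hDh, h1, map_zero, mul_zero, mul_zero]
  let ψ2 : (MvPolynomial (Fin 4) K ⧸ Ideal.span {D}) →ₐ[K] Polynomial A :=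
    Ideal.Quotient.liftₐ _ (aeval u) hDu
  let ψ1 : MvPolynomial (Fin 4) K →ₐ[K] (MvPolynomial (Fin 4) K ⧸ Ideal.span {D}) :=
    Ideal.Quotient.mkₐ K _
  have hψ21 : ∀ p, ψ2 (ψ1 p) = aeval u p := fun p => rfl
  have i2 : AlgebraicIndependent K (Fin.cons (ψ1 F) (Fin.cons (ψ1 (X a - 1)) (fun i => ψ1 (f i))) :
      Fin 4 → (MvPolynomial (Fin 4) K ⧸ Ideal.span {D})) := by
    refine cons_indep ψ2 _ ?_ ?_ _ ?_
    · intro h
      apply hDF
      rw [← Ideal.mem_span_singleton]
      exact Ideal.Quotient.eq_zero_iff_mem.1 h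
    · rw [hψ21, hu hFh, h2, map_zero, mul_zero]
    · convert i3 using 1
      funext i
      refine Fin.cases ?_ (fun j => ?_) i
      · simp only [Fin.cons_zero, hψ21]
        rw [map_sub, aeval_X, map_one]
        simp [u, hva]
      · simp only [Fin.cons_succ, hψ21]
  -- step 1
  have i1 : AlgebraicIndependent K (Fin.cons D (Fin.cons F (Fin.cons (X a - 1) f)) :
      Fin 5 → MvPolynomial (Fin 4) K) := by
    refine cons_indep ψ1 _ hD.ne_zero ?_ _ ?_
    · exact Ideal.Quotient.eq_zero_iff_mem.2 (Ideal.mem_span_singleton_self D)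
    · convert i2 using 1
      funext i
      refine Fin.cases ?_ (fun j => ?_) i
      · simp only [Fin.cons_zero]
      · simp only [Fin.cons_succ]
        refine Fin.cases ?_ (fun l => ?_) j
        · simp only [Fin.cons_zero]
        · simp only [Fin.cons_succ]
  have h8 := i1.cardinalMk_le_trdeg
  rw [MvPolynomial.trdeg_of_isDomain] at h8
  simp only [Cardinal.mk_fin, Cardinal.lift_natCast, Nat.cast_le] at h8
  omega

end

end Run7.h846.MQ
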