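import Pool.Agent.Run7.h846.MqPer
import Pool.Agent.Run7.h846.MqFF
import Pool.Agent.Run7.h846.MqTrd

/-! Chains over function fields of one variable. -/

set_option autoImplicit false

namespace Run7.h846.MQ

open MvPolynomial Matrix Height

section

variable {K : Type} [Field K] {E : Type} [Field E] [Algebra K E]

theorem exists_equiv (I : Ideal (MvPolynomial (Fin 4) K)) [I.IsPrime] (v : Fin 4 → E)
    (hv : IntermediateField.adjoin K (Set.range v) = ⊤) (hk : ∀ p, p ∈ I ↔ aeval v p = 0) :
    ∃ e : FractionRing (MvPolynomial (Fin 4) K ⧸ I) ≃ₐ[K] E,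
      ∀ j, e (algebraMap (MvPolynomial (Fin 4) K ⧸ I) _ (Ideal.Quotient.mk I (X j))) = v j := by
  let g : (MvPolynomial (Fin 4) K ⧸ I) →ₐ[K] E :=
    Ideal.Quotient.liftₐ I (aeval v) fun a ha => (hk a).1 ha
  have hgm : ∀ p, g (Ideal.Quotient.mk I p) = aeval v p := fun p => rfl
  have hg : Function.Injective g := by
    rw [injective_iff_map_eq_zero]
    intro a ha
    obtain ⟨p, rfl⟩ := Ideal.Quotient.mk_surjective a
    rw [hgm] at ha
    exact Ideal.Quotient.eq_zero_iff_mem.2 ((hk p).2 ha)
  let e : FractionRing (MvPolynomial (Fin 4) K ⧸ I) →ₐ[K] E := IsFractionRing.liftAlgHom hg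
  have he : ∀ a, e (algebraMap (MvPolynomial (Fin 4) K ⧸ I) _ a) = g a := by
    intro a
    change IsFractionRing.liftAlgHom hg _ = _
    rw [IsFractionRing.liftAlgHom_apply, IsFractionRing.lift_algebraMap]
    rfl
  have hsurj : Function.Surjective e := by
    intro x
    have hx : x ∈ IntermediateField.adjoin K (Set.range v) := by rw [hv]; trivial
    obtain ⟨r, s, rfl⟩ := (IntermediateField.mem_adjoin_range_iff K v x).1 hx
    refine ⟨algebraMap (MvPolynomial (Fin 4) K ⧸ I) _ (Ideal.Quotient.mk I r) /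
      algebraMap (MvPolynomial (Fin 4) K ⧸ I) _ (Ideal.Quotient.mk I s), ?_⟩
    rw [map_div₀, he, he, hgm, hgm]
  refine ⟨AlgEquiv.ofBijective e ⟨e.toRingHom.injective, hsurj⟩, fun j => ?_⟩
  change e _ = _
  rw [he, hgm, aeval_X]

theorem exists_aut (u u' : Fin 4 → E) (hu : IntermediateField.adjoin K (Set.range u) = ⊤)
    (hu' : IntermediateField.adjoin K (Set.range u') = ⊤)
    (h : RingHom.ker (aeval u : MvPolynomial (Fin 4) K →ₐ[K] E) =
      RingHom.ker (aeval u' : MvPolynomial (Fin 4) K →ₐ[K] E)) :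
    ∃ τ : E ≃ₐ[K] E, ∀ j, τ (u j) = u' j := by
  have hp : (RingHom.ker (aeval u : MvPolynomial (Fin 4) K →ₐ[K] E)).IsPrime :=
    RingHom.ker_isPrime _
  obtain ⟨e, he⟩ := exists_equiv (RingHom.ker (aeval u : MvPolynomial (Fin 4) K →ₐ[K] E)) u hu
    fun p => Iff.rfl
  obtain ⟨e', he'⟩ := exists_equiv (RingHom.ker (aeval u : MvPolynomial (Fin 4) K →ₐ[K] E)) u' hu'
    fun p => by rw [h]; rfl
  refine ⟨e.symm.trans e', fun j => ?_⟩
  rw [AlgEquiv.trans_apply, ← he j, AlgEquiv.symm_apply_apply, he' j]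

variable {D F : MvPolynomial (Fin 4) K} {dD dF : ℕ}

theorem alg_of_trd (hD : Irreducible D) (hDh : D.IsHomogeneous dD) (hFh : F.IsHomogeneous dF)
    (hDF : ¬ D ∣ F) (v : Fin 4 → E) (a : Fin 4) (hva : v a = 1) (h1 : aeval v D = 0)
    (h2 : aeval v F = 0) (j0 : Fin 4) (hj0 : Transcendental K (v j0)) (j : Fin 4) :
    IsAlgebraic (Algebra.adjoin K {v j0}) (v j) := by
  by_contra hc
  have i0 : AlgebraicIndependent K (fun _ : Unit => v j0) := by
    rw [algebraicIndependent_unique_type_iff]
    exact hj0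
  have i1 : AlgebraicIndependent K (fun o : Option Unit => o.elim (v j) (fun _ => v j0)) := by
    rw [i0.option_iff_transcendental, Set.range_const]
    exact hc
  have i2 := i1.comp (fun i : Fin 2 => if i = 0 then none else some ()) (by
    intro x y hxy
    fin_cases x <;> fin_cases y <;> simp_all)
  apply trd_le hD hDh hFh hDF v a hva h1 h2 (fun i => if i = 0 then X j else X j0)
  convert i2 using 1
  funext i
  fin_cases i <;> simp

theorem isFF_of (hD : Irreducible D) (hDh : D.IsHomogeneous dD) (hFh : F.IsHomogeneous dF)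
    (hDF : ¬ D ∣ F) (v : Fin 4 → E) (a : Fin 4) (hva : v a = 1) (h1 : aeval v D = 0)
    (h2 : aeval v F = 0) (hgen : IntermediateField.adjoin K (Set.range v) = ⊤) (j0 : Fin 4)
    (hj0 : Transcendental K (v j0)) : FF.IsFF K E := by
  refine FF.IsFF.of_finite hj0 ?_
  have h3 : ∀ x ∈ Set.range v, IsIntegral (IntermediateField.adjoin K {v j0}) x := by
    rintro _ ⟨j, rfl⟩
    have h4 := alg_of_trd hD hDh hFh hDF v a hva h1 h2 j0 hj0 j
    rw [← isAlgebraic_iff_isIntegral]
    open scoped IntermediateField.algebraAdjoinAdjoin in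
    exact h4.extendScalars (R := Algebra.adjoin K {v j0})
      (S := IntermediateField.adjoin K {v j0}) (FaithfulSMul.algebraMap_injective _ _)
  have h5 : FiniteDimensional (IntermediateField.adjoin K {v j0})
      (IntermediateField.adjoin (IntermediateField.adjoin K {v j0}) (Set.range v)) := by
    have : Finite (Set.range v) := Set.finite_range v
    exact IntermediateField.finiteDimensional_adjoin h3
  have h6 : IntermediateField.adjoin (IntermediateField.adjoin K {v j0}) (Set.range v) = ⊤ := by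
    rw [eq_top_iff]
    intro x _
    have hx : x ∈ IntermediateField.adjoin K (Set.range v) := by rw [hgen]; trivial
    have h7 : IntermediateField.adjoin K (Set.range v) ≤
        (IntermediateField.adjoin (IntermediateField.adjoin K {v j0})
          (Set.range v)).restrictScalars K := by
      rw [IntermediateField.adjoin_le_iff]
      exact IntermediateField.subset_adjoin _ _
    exact h7 hx
  rw [h6] at h5
  exact IntermediateField.topEquiv.toLinearEquiv.finiteDimensional

theorem ker_min (hD : Irreducible D) (hDh : D.IsHomogeneous dD) (hFh : F.IsHomogeneous dF)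
    (hDF : ¬ D ∣ F) (v : Fin 4 → E) (a : Fin 4) (hva : v a = 1) (h1 : aeval v D = 0)
    (h2 : aeval v F = 0) (j0 : Fin 4) (hj0 : Transcendental K (v j0)) :
    RingHom.ker (aeval v : MvPolynomial (Fin 4) K →ₐ[K] E) ∈
      (Ideal.span {D, F, X a - 1}).minimalPrimes := by
  refine ⟨⟨RingHom.ker_isPrime _, ?_⟩, ?_⟩
  · rw [Ideal.span_le]
    rintro g (rfl | rfl | rfl)
    · exact h1
    · exact h2
    · change aeval v (X a - 1) = 0
      rw [map_sub, aeval_X, map_one, hva, sub_self]
  · rintro Q ⟨hQ, hQI⟩ hQP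
    by_contra hPQ
    obtain ⟨g, hgP, hgQ⟩ := Set.not_subset.1 hPQ
    let ψ : (MvPolynomial (Fin 4) K ⧸ Q) →ₐ[K] E :=
      Ideal.Quotient.liftₐ Q (aeval v) fun b hb => hQP hb
    have hψ : ∀ p, ψ (Ideal.Quotient.mk Q p) = aeval v p := fun p => rfl
    have hi := cons_indep ψ (m := 1) (Ideal.Quotient.mk Q g)
      (fun h => hgQ (Ideal.Quotient.eq_zero_iff_mem.1 h)) (by rw [hψ]; exact hgP)
      (fun _ => Ideal.Quotient.mk Q (X j0)) (by
        rw [algebraicIndependent_unique_type_iff]
        rw [hψ, aeval_X]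
        exact hj0)
    have hm : ∀ p : MvPolynomial (Fin 4) K,
        aeval (fun j => Ideal.Quotient.mk Q (X j)) p = Ideal.Quotient.mk Q p := by
      intro p
      have : (aeval (fun j => Ideal.Quotient.mk Q (X j)) : MvPolynomial (Fin 4) K →ₐ[K] _) =
          Ideal.Quotient.mkₐ K Q := by
        ext j
        simp
      rw [this]
      rfl
    have hin : ∀ p ∈ ({D, F, X a - 1} : Set (MvPolynomial (Fin 4) K)),
        (Ideal.Quotient.mk Q p) = 0 := fun p hp =>
      Ideal.Quotient.eq_zero_iff_mem.2 (hQI (Ideal.subset_span hp))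
    apply trd_le hD hDh hFh hDF (A := MvPolynomial (Fin 4) K ⧸ Q)
      (fun j => Ideal.Quotient.mk Q (X j)) a ?_ ?_ ?_ (fun i => if i = 0 then g else X j0)
    · convert hi using 1
      funext i
      rw [hm]
      fin_cases i <;> simp
    · have := hin (X a - 1) (by simp)
      rw [map_sub, map_one, sub_eq_zero] at this
      exact this
    · rw [hm]; exact hin D (by simp)
    · rw [hm]; exact hin F (by simp)

end

end Run7.h846.MQ
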