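import Pool.Agent.Run7.h846.MqKer

/-! Determinantal quartic surfaces: certificates of nondegeneracy, and the height inequality. -/

set_option autoImplicit false

namespace Run7.h846.MQ

open MvPolynomial Matrix

section cert

variable {K : Type} [Field K]

/-- the generic matrix -/
noncomputable def genM (T : Fin 4 → Fin 4 → Fin 4 → K) : Matrix (Fin 4) (Fin 4)
    (MvPolynomial (Fin 4) K) := Mat (fun i j l => C (T i j l)) X

/-- the entries of the adjugate of the generic matrix -/
noncomputable def adjP (T : Fin 4 → Fin 4 → Fin 4 → K) (a : Fin 4 × Fin 4) :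
    MvPolynomial (Fin 4) K := (genM T).adjugate a.1 a.2

/-- the determinant of the generic matrix -/
noncomputable def detP (T : Fin 4 → Fin 4 → Fin 4 → K) : MvPolynomial (Fin 4) K := (genM T).det

theorem genM_hom (T : Fin 4 → Fin 4 → Fin 4 → K) (j l : Fin 4) :
    (genM T j l).IsHomogeneous 1 := by
  unfold genM Mat
  refine IsHomogeneous.sum _ _ _ fun i _ => ?_
  have := (isHomogeneous_C (Fin 4) (T i j l)).mul (isHomogeneous_X K i)
  simpa using this

theorem detP_hom (T : Fin 4 → Fin 4 → Fin 4 → K) : (detP T).IsHomogeneous 4 := by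
  unfold detP
  rw [det_apply]
  refine IsHomogeneous.sum _ _ _ fun σ _ => ?_
  have h1 : (∏ i, genM T (σ i) i).IsHomogeneous 4 := by
    have := IsHomogeneous.prod Finset.univ (fun i => genM T (σ i) i) (fun _ => 1)
      fun i _ => genM_hom T _ _
    simpa using this
  rcases Int.units_eq_one_or (Equiv.Perm.sign σ) with h | h
  · rw [h, one_smul]
    exact h1
  · rw [h, Units.neg_smul, one_smul]
    exact h1.neg

theorem adjP_hom (T : Fin 4 → Fin 4 → Fin 4 → K) (a : Fin 4 × Fin 4) :
    (adjP T a).IsHomogeneous 3 := by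
  classical
  unfold adjP
  rw [adjugate_apply, det_apply]
  refine IsHomogeneous.sum _ _ _ fun σ _ => ?_
  have h1 : (∏ i, (genM T).updateRow a.2 (Pi.single a.1 1) (σ i) i).IsHomogeneous 3 := by
    have h2 : ∀ i ∈ (Finset.univ : Finset (Fin 4)),
        ((genM T).updateRow a.2 (Pi.single a.1 1) (σ i) i).IsHomogeneous
          (if σ i = a.2 then 0 else 1) := by
      intro i _
      split_ifs with h
      · rw [h, updateRow_self]
        by_cases h3 : i = a.1
        · subst h3
          rw [Pi.single_eq_same]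
          exact isHomogeneous_one _ _
        · rw [Pi.single_eq_of_ne h3]
          exact isHomogeneous_zero _ _ _
      · rw [updateRow_ne h]
        exact genM_hom T _ _
    have h3 := IsHomogeneous.prod Finset.univ _ _ h2
    have h4 : ∑ i : Fin 4, (if σ i = a.2 then 0 else 1) = 3 := by
      rw [Equiv.sum_comp σ (fun i => if i = a.2 then 0 else 1)]
      generalize a.2 = b
      fin_cases b <;> rfl
    rwa [h4] at h3
  rcases Int.units_eq_one_or (Equiv.Perm.sign σ) with h | h
  · rw [h, one_smul]
    exact h1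
  · rw [h, Units.neg_smul, one_smul]
    exact h1.neg

/-- the base change of a trilinear form -/
def bc (K : Type) {F : Type} [Field K] [Field F] [Algebra K F] (T : Fin 4 → Fin 4 → Fin 4 → K) :
    Fin 4 → Fin 4 → Fin 4 → F := fun i j l => algebraMap K F (T i j l)

theorem genM_aeval {F : Type} [Field F] [Algebra K F] (T : Fin 4 → Fin 4 → Fin 4 → K)
    (x : Fin 4 → F) : (aeval x).toRingHom.mapMatrix (genM T) = Mat (bc K T) x := by
  unfold genM
  rw [Mat_map]
  unfold bc
  congr 1
  · funext i j l
    exact (aeval_C x (T i j l))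
  · funext i
    exact aeval_X x i

theorem aeval_adjP {F : Type} [Field F] [Algebra K F] (T : Fin 4 → Fin 4 → Fin 4 → K)
    (x : Fin 4 → F) (a : Fin 4 × Fin 4) :
    aeval x (adjP T a) = (Mat (bc K T) x).adjugate a.1 a.2 := by
  rw [← genM_aeval, ← RingHom.map_adjugate]
  rfl

theorem aeval_detP {F : Type} [Field F] [Algebra K F] (T : Fin 4 → Fin 4 → Fin 4 → K)
    (x : Fin 4 → F) : aeval x (detP T) = (Mat (bc K T) x).det := by
  rw [← genM_aeval, ← RingHom.map_det]
  rfl

/-- a certificate of nondegeneracy -/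
structure Cert (T : Fin 4 → Fin 4 → Fin 4 → K) (M : ℕ)
    (q : Fin 4 × (Fin 4 × Fin 4) → MvPolynomial (Fin 4) K) : Prop where
  hom : ∀ a, (q a).IsHomogeneous M
  eq : ∀ a, ∑ j, q (a, j) * adjP T j = X a ^ (M + 3)

attribute [local instance] MvPolynomial.gradedAlgebra in
theorem hc_mul (c p : MvPolynomial (Fin 4) K) (hp : p.IsHomogeneous 3) (M : ℕ) :
    homogeneousComponent (M + 3) (c * p) = homogeneousComponent M c * p := by
  have h := DirectSum.coe_decompose_mul_add_of_right_mem
    (MvPolynomial.homogeneousSubmodule (Fin 4) K) (a := c) (b := p) (i := M) (j := 3)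
    ((mem_homogeneousSubmodule 3 p).2 hp)
  have e : ∀ (φ : MvPolynomial (Fin 4) K) (i : ℕ),
      (DirectSum.decompose (MvPolynomial.homogeneousSubmodule (Fin 4) K) φ i :
        MvPolynomial (Fin 4) K) = homogeneousComponent i φ :=
    fun φ i => decomposition.decompose'_apply φ i
  rw [e, e] at h
  exact h

theorem exists_cert (T : Fin 4 → Fin 4 → Fin 4 → K)
    (hnd : ∀ x : Fin 4 → AlgebraicClosure K, x ≠ 0 → (Mat (bc K T) x).adjugate ≠ 0) :
    ∃ M₀ : ℕ, ∀ M, M₀ ≤ M → ∃ q, Cert T M q := by
  have h1 : ∀ a : Fin 4, ∃ n : ℕ, X a ^ n ∈ Ideal.span (Set.range (adjP T)) := by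
    intro a
    have h2 : X a ∈ (Ideal.span (Set.range (adjP T))).radical := by
      rw [← vanishingIdeal_zeroLocus_eq_radical (K := AlgebraicClosure K), zeroLocus_span]
      intro x hx
      rw [aeval_X]
      by_contra hxa
      have hx0 : x ≠ 0 := fun h => hxa (by rw [h]; rfl)
      apply hnd x hx0
      ext i j
      rw [← aeval_adjP T x (i, j)]
      exact hx _ ⟨(i, j), rfl⟩
    exact h2
  choose n hn using h1
  refine ⟨∑ a, n a, fun M hM => ?_⟩
  have h3 : ∀ a, ∃ c : Fin 4 × Fin 4 → MvPolynomial (Fin 4) K,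
      ∑ j, c j * adjP T j = X a ^ (M + 3) := by
    intro a
    have h4 : n a ≤ M + 3 := by
      have := Finset.single_le_sum (f := n) (fun i _ => Nat.zero_le _) (Finset.mem_univ a)
      omega
    have h5 : X a ^ (M + 3) ∈ Ideal.span (Set.range (adjP T)) := by
      rw [← Nat.sub_add_cancel h4, pow_add]
      exact Ideal.mul_mem_left _ _ (hn a)
    obtain ⟨c, hc⟩ := (Ideal.mem_span_range_iff_exists_fun).1 h5
    exact ⟨c, by simpa using hc⟩
  choose c hc using h3
  refine ⟨fun a => homogeneousComponent M (c a.1 a.2), fun a => homogeneousComponent_isHomogeneous _ _,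
    fun a => ?_⟩
  have h6 : homogeneousComponent (M + 3) (∑ j, c a j * adjP T j) =
      ∑ j, homogeneousComponent M (c a j) * adjP T j := by
    rw [map_sum]
    exact Finset.sum_congr rfl fun j _ => hc_mul _ _ (adjP_hom T j) M
  simp only
  rw [← h6, hc a]
  have h7 : (X a ^ (M + 3) : MvPolynomial (Fin 4) K).IsHomogeneous (M + 3) := by
    have := (isHomogeneous_X K a).pow (M + 3)
    simpa using this
  exact homogeneousComponent_eq_self h7

/-- the certificate gives nondegeneracy over all extensions -/
theorem Cert.adj_ne {T : Fin 4 → Fin 4 → Fin 4 → K} {M : ℕ}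
    {q : Fin 4 × (Fin 4 × Fin 4) → MvPolynomial (Fin 4) K} (h : Cert T M q)
    {F : Type} [Field F] [Algebra K F] {x : Fin 4 → F} (hx : x ≠ 0) :
    (Mat (bc K T) x).adjugate ≠ 0 := by
  intro h0
  apply hx
  funext a
  have h1 := congrArg (aeval x) (h.eq a)
  rw [map_sum, map_pow, aeval_X] at h1
  have h2 : ∀ j, aeval x (q (a, j) * adjP T j) = 0 := by
    intro j
    rw [map_mul, aeval_adjP, h0]
    simp
  rw [Finset.sum_congr rfl fun j _ => h2 j, Finset.sum_const_zero] at h1
  exact eq_zero_of_pow_eq_zero h1.symm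

end cert

section height

open Height

variable {K F : Type} [Field K] [Field F] [Algebra K F] [AdmissibleAbsValues F]

/-- the constant of the height inequality -/
noncomputable def htC (F : Type) [Field F] [Algebra K F] [AdmissibleAbsValues F]
    (q : Fin 4 × (Fin 4 × Fin 4) → MvPolynomial (Fin 4) K) : ℝ :=
  Real.log ((16 : ℝ) ^ totalWeight F *
    max (mulHeightBound (fun a => map (algebraMap K F) (q a))) 1)

theorem ht_ineq {T : Fin 4 → Fin 4 → Fin 4 → K} {M : ℕ}
    {q : Fin 4 × (Fin 4 × Fin 4) → MvPolynomial (Fin 4) K} (h : Cert T M q)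
    {x y z : Fin 4 → F} (hy : y ≠ 0) (hz : z ≠ 0) {c : F} (hc : c ≠ 0)
    (hadj : ∀ i j, (Mat (bc K T) x).adjugate i j = c * y i * z j) :
    3 * logHeight x - htC F q ≤ logHeight y + logHeight z := by
  have h1 := logHeight_eval_ge (M := M) (N := 3)
    (q := fun a => map (algebraMap K F) (q a)) (fun a => (h.hom a).map _)
    (fun j => map (algebraMap K F) (adjP T j)) (x := x) (by
      intro a
      have h2 := congrArg (aeval x) (h.eq a)
      rw [map_sum, map_pow, aeval_X] at h2
      rw [← h2]
      refine Finset.sum_congr rfl fun j _ => ?_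
      rw [map_mul, aeval_def, aeval_def, eval_map, eval_map])
  have h3 : (fun j => eval x (map (algebraMap K F) (adjP T j))) =
      c • (fun a : Fin 4 × Fin 4 => y a.1 * z a.2) := by
    funext j
    rw [eval_map, ← aeval_def, aeval_adjP, hadj]
    simp only [Pi.smul_apply, smul_eq_mul]
    ring
  rw [h3, logHeight_smul_eq_logHeight _ hc, logHeight_fun_mul_eq hy hz] at h1
  have h4 : Nat.card (Fin 4 × Fin 4) = 16 := by simp
  rw [h4] at h1
  unfold htC
  push_cast at h1
  linarith

end height

end Run7.h846.MQ
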