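import Pool.Agent.Run7.h846.MqAlg

/-! Density of the orbits: descent to a finitely generated field, and the ultrapower. -/

set_option autoImplicit false

namespace Run7.h846.MQ

open MvPolynomial Matrix

theorem Link.of_map {R S : Type*} [CommRing R] [CommRing S] (φ : R →+* S)
    (hφ : Function.Injective φ) {T : Fin 4 → Fin 4 → Fin 4 → R} {x y : Fin 4 → R}
    (h : Link (fun i j l => φ (T i j l)) (fun i => φ (x i)) (fun i => φ (y i))) : Link T x y := by
  funext l
  apply hφ
  have h1 := congrFun h l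
  simpa [vecMul, dotProduct, Mat, map_sum, map_mul] using h1

theorem Link.smul {R : Type*} [CommRing R] {T : Fin 4 → Fin 4 → Fin 4 → R} {x y : Fin 4 → R}
    (h : Link T x y) (c d : R) : Link T (c • x) (d • y) := by
  unfold Link
  rw [Mat_smul, vecMul_smul, smul_vecMul, h, smul_zero, smul_zero]

section

variable {K : Type} [Field K] [CharZero K] {Ω : Type} [Field Ω] [Algebra K Ω]
  {T : Fin 4 → Fin 4 → Fin 4 → K} {M : ℕ}
  {q : ℕ → Fin 4 × (Fin 4 × Fin 4) → MvPolynomial (Fin 4) K}

omit [CharZero K] in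
theorem adj_mem (T : Fin 4 → Fin 4 → Fin 4 → K) (x : Fin 4 → Ω) (i j : Fin 4) :
    (Mat (bc K T) x).adjugate i j ∈ IntermediateField.adjoin K (Set.range x) := by
  rw [← aeval_adjP T x (i, j)]
  apply IntermediateField.algebra_adjoin_le_adjoin K (Set.range x)
  rw [Algebra.adjoin_range_eq_range_aeval]
  exact ⟨_, rfl⟩

omit [CharZero K] in
theorem adjoin_step (h : Certs T M q) {v : ℕ → Fin 4 → Ω} (hv : Chain (bc K T) v)
    (a : ℕ → Fin 4) (hva : ∀ k, v k (a k) = 1) (k : ℕ) :
    (∀ i, v k i ∈ IntermediateField.adjoin K (Set.range (v (k + 1)))) ∧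
    (∀ i, v (k + 2) i ∈ IntermediateField.adjoin K (Set.range (v (k + 1)))) := by
  obtain ⟨c, hc, hadj⟩ := hv.adj h.nd k
  have e : rotn (bc K T : Fin 4 → Fin 4 → Fin 4 → Ω) (k + 1) = bc K (rotn T (k + 1)) :=
    rotn_map (algebraMap K Ω) T _
  rw [e] at hadj
  have hm := adj_mem (rotn T (k + 1)) (v (k + 1))
  have h0 : (Mat (bc K (rotn T (k + 1))) (v (k + 1))).adjugate (a k) (a (k + 2)) = c := by
    rw [hadj, hva, hva, mul_one, mul_one]
  constructor
  · intro i
    have h1 : v k i = (Mat (bc K (rotn T (k + 1))) (v (k + 1))).adjugate i (a (k + 2)) / c := by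
      rw [hadj, hva, eq_div_iff hc]
      ring
    rw [h1]
    have h2 := hm (a k) (a (k + 2))
    rw [h0] at h2
    exact div_mem (hm _ _) h2
  · intro i
    have h1 : v (k + 2) i = (Mat (bc K (rotn T (k + 1))) (v (k + 1))).adjugate (a k) i / c := by
      rw [hadj, hva, eq_div_iff hc]
      ring
    rw [h1]
    have h2 := hm (a k) (a (k + 2))
    rw [h0] at h2
    exact div_mem (hm _ _) h2

omit [CharZero K] in
theorem adjoin_eq (h : Certs T M q) {v : ℕ → Fin 4 → Ω} (hv : Chain (bc K T) v)
    (a : ℕ → Fin 4) (hva : ∀ k, v k (a k) = 1) (k : ℕ) :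
    IntermediateField.adjoin K (Set.range (v (k + 1))) =
      IntermediateField.adjoin K (Set.range (v 1)) := by
  induction k with
  | zero => rfl
  | succ k ih =>
    rw [← ih]
    apply le_antisymm
    · rw [IntermediateField.adjoin_le_iff]
      rintro _ ⟨i, rfl⟩
      exact (adjoin_step h hv a hva k).2 i
    · rw [IntermediateField.adjoin_le_iff]
      rintro _ ⟨i, rfl⟩
      exact (adjoin_step h hv a hva (k + 1)).1 i

/-- a chain over an extension field on a hypersurface -/
theorem chain_alg' (h : Certs T M q) (hD : Irreducible (detP T)) {F : MvPolynomial (Fin 4) K}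
    {dF : ℕ} (hFh : F.IsHomogeneous dF) (hDF : ¬ detP T ∣ F) {v : ℕ → Fin 4 → Ω}
    (hv : Chain (bc K T) v) (a : ℕ → Fin 4) (hva : ∀ k, v k (a k) = 1)
    {n : ℕ} (hn : 0 < n) (hF : ∀ m, aeval (v (3 * n * m)) F = 0) (k : ℕ) (j : Fin 4) :
    IsAlgebraic K (v k j) := by
  set E : IntermediateField K Ω := IntermediateField.adjoin K (Set.range (v 1)) with hE
  have hmem : ∀ k j, v k j ∈ E := by
    intro k j
    rcases Nat.eq_zero_or_pos k with rfl | hk
    · exact (adjoin_step h hv a hva 0).1 j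
    · obtain ⟨k, rfl⟩ := Nat.exists_eq_succ_of_ne_zero hk.ne'
      rw [hE, ← adjoin_eq h hv a hva k]
      exact IntermediateField.subset_adjoin _ _ ⟨j, rfl⟩
  let u : ℕ → Fin 4 → E := fun k j => ⟨v k j, hmem k j⟩
  have hu : Chain (bc K T) u := by
    constructor
    · intro k h0
      apply hv.ne k
      funext i
      exact congrArg Subtype.val (congrFun h0 i)
    · intro k
      apply Link.of_map (algebraMap E Ω) (FaithfulSMul.algebraMap_injective _ _)
      have h1 := hv.link k
      have e1 : rotn (bc K T : Fin 4 → Fin 4 → Fin 4 → Ω) k = bc K (rotn T k) :=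
        rotn_map (algebraMap K Ω) T _
      have e2 : rotn (bc K T : Fin 4 → Fin 4 → Fin 4 → E) k = bc K (rotn T k) :=
        rotn_map (algebraMap K E) T _
      rw [e1] at h1
      rw [e2]
      exact h1
  have hgen : ∀ k, 1 ≤ k → IntermediateField.adjoin K (Set.range (u k)) = ⊤ := by
    intro k hk
    obtain ⟨k, rfl⟩ := Nat.exists_eq_succ_of_ne_zero (by omega : k ≠ 0)
    apply IntermediateField.lift_injective E
    rw [IntermediateField.lift_adjoin, IntermediateField.lift_top, ← Set.range_comp]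
    exact adjoin_eq h hv a hva k
  have halg := chain_alg h hD hFh hDF hu a (fun k => Subtype.ext (hva k)) hgen hn (fun m => by
    apply FaithfulSMul.algebraMap_injective E Ω
    rw [map_zero]
    have h1 := hF m
    have h2 : (E.val.comp (aeval (u (3 * n * m)))) = aeval (v (3 * n * m)) := by
      ext j
      simp [u]
    rw [← h2] at h1
    exact h1)
  exact (halg.isAlgebraic (u k j)).algebraMap (A := Ω)

end

/-! ### The ultrapower -/

section ultra

/-- the ultrapower of a field -/
def UU (K : Type) : Type := Filter.Germ ((Filter.hyperfilter ℕ : Ultrafilter ℕ) : Filter ℕ) K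

variable {K : Type} [Field K]

noncomputable instance : Field (UU K) :=
  inferInstanceAs (Field (Filter.Germ ((Filter.hyperfilter ℕ : Ultrafilter ℕ) : Filter ℕ) K))

/-- the class of a sequence -/
noncomputable def gm : (ℕ → K) →+* UU K :=
  Filter.Germ.coeRingHom ((Filter.hyperfilter ℕ : Ultrafilter ℕ) : Filter ℕ)

noncomputable instance : Algebra K (UU K) := (gm.comp (algebraMap K (ℕ → K))).toAlgebra

/-- the class of a sequence -/
noncomputable def gmA : (ℕ → K) →ₐ[K] UU K := { gm with commutes' := fun _ => rfl }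

theorem gmA_zero (f : ℕ → K) :
    gmA f = 0 ↔ ∀ᶠ i in ((Filter.hyperfilter ℕ : Ultrafilter ℕ) : Filter ℕ), f i = 0 := by
  have h0 : (0 : UU K) = gmA (0 : ℕ → K) := (map_zero gmA).symm
  rw [h0]
  exact Filter.Germ.coe_eq

theorem gmA_div (f g : ℕ → K) : gmA (fun i => f i / g i) = gmA f / gmA g :=
  Filter.Germ.coe_div f g

theorem gmA_aeval {f : Fin 4 → ℕ → K} (p : MvPolynomial (Fin 4) K) :
    aeval (fun j => gmA (f j)) p = gmA (fun i => aeval (fun j => f j i) p) := by
  have h1 : aeval (fun j => gmA (f j)) p = gmA (aeval f p) := by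
    rw [← AlgHom.comp_apply]
    congr 1
    ext j
    simp
  rw [h1]
  congr 1
  funext i
  have h2 : (Pi.evalAlgHom K (fun _ : ℕ => K) i).comp (aeval f) = aeval (fun j => f j i) := by
    ext j
    simp
  rw [← h2]
  rfl

theorem alg_fin {f : ℕ → K} (hf : IsAlgebraic K (gmA f)) : ∃ R : Set K, R.Finite ∧
    ∀ᶠ i in ((Filter.hyperfilter ℕ : Ultrafilter ℕ) : Filter ℕ), f i ∈ R := by
  obtain ⟨p, hp0, hp⟩ := hf
  rw [Polynomial.aeval_algHom_apply, gmA_zero] at hp
  refine ⟨{x | p.IsRoot x}, Polynomial.finite_setOf_isRoot hp0, hp.mono fun i hi => ?_⟩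
  have h2 : (Polynomial.aeval f p) i = Polynomial.aeval (f i) p := by
    have := Polynomial.aeval_algHom_apply (Pi.evalAlgHom K (fun _ : ℕ => K) i) f p
    exact this.symm
  rw [h2] at hi
  change Polynomial.eval (f i) p = 0
  rwa [Polynomial.coe_aeval_eq_eval] at hi

variable [CharZero K] {T : Fin 4 → Fin 4 → Fin 4 → K} {M : ℕ}
  {q : ℕ → Fin 4 × (Fin 4 × Fin 4) → MvPolynomial (Fin 4) K}

/-- orbits are dense -/
theorem orbit_dense (h : Certs T M q) (hD : Irreducible (detP T)) {F : MvPolynomial (Fin 4) K}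
    {dF : ℕ} (hFh : F.IsHomogeneous dF) {w : ℕ → Fin 4 → K} (hw : Chain T w)
    {n : ℕ} (hn : 0 < n) (hnp : ∀ i j, i < j → ¬ Pro (w (3 * n * i)) (w (3 * n * j)))
    (hF : ∀ i, aeval (w (3 * n * i)) F = 0) : detP T ∣ F := by
  by_contra hDF
  let W : ℕ → Fin 4 → UU K := fun k j => gmA (fun i => w (k + 3 * n * i) j)
  have hW0 : ∀ k, ∃ a, W k a ≠ 0 := by
    intro k
    by_contra hc
    push Not at hc
    have h1 : ∀ j, ∀ᶠ i in ((Filter.hyperfilter ℕ : Ultrafilter ℕ) : Filter ℕ),
        w (k + 3 * n * i) j = 0 := fun j => (gmA_zero _).1 (hc j)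
    obtain ⟨i, hi⟩ := (Filter.eventually_all.2 h1).exists
    exact hw.ne _ (funext hi)
  choose a ha using hW0
  let v : ℕ → Fin 4 → UU K := fun k => (W k (a k))⁻¹ • W k
  have hva : ∀ k, v k (a k) = 1 := fun k => inv_mul_cancel₀ (ha k)
  have hWl : ∀ k, Link (rotn (bc K T) k) (W k) (W (k + 1)) := by
    intro k
    have e1 : rotn (bc K T : Fin 4 → Fin 4 → Fin 4 → UU K) k = bc K (rotn T k) :=
      rotn_map (algebraMap K (UU K)) T _
    rw [e1]
    have h1 : Link (fun i j l => algebraMap K (ℕ → K) (rotn T k i j l))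
        (fun j i => w (k + 3 * n * i) j) (fun j i => w (k + 1 + 3 * n * i) j) := by
      funext l
      funext i
      have h2 := congrFun (hw.link (k + 3 * n * i)) l
      have h3 : rotn T (k + 3 * n * i) = rotn T k := by
        rw [mul_assoc, rotn_add_mul]
      rw [h3] at h2
      have h4 : k + 1 + 3 * n * i = k + 3 * n * i + 1 := by ring
      simp only [vecMul, dotProduct, Mat, Finset.sum_apply, Pi.mul_apply, Pi.zero_apply,
        Pi.algebraMap_apply, Algebra.algebraMap_self_apply, h4] at h2 ⊢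
      exact h2
    exact h1.map gm
  have hv : Chain (bc K T) v := by
    constructor
    · intro k h0
      have := congrFun h0 (a k)
      rw [hva] at this
      exact one_ne_zero this
    · intro k
      exact (hWl k).smul _ _
  have hvF : ∀ m, aeval (v (3 * n * m)) F = 0 := by
    intro m
    have h1 : v (3 * n * m) = fun j => (W (3 * n * m) (a (3 * n * m)))⁻¹ * W (3 * n * m) j := rfl
    rw [h1, hom_scale hFh]
    have h2 : aeval (W (3 * n * m)) F = 0 := by
      change aeval (fun j => gmA (fun i => w (3 * n * m + 3 * n * i) j)) F = 0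
      rw [gmA_aeval, gmA_zero]
      refine Filter.Eventually.of_forall fun i => ?_
      have := hF (m + i)
      rw [mul_add] at this
      exact this
    rw [h2, mul_zero]
  have halg := chain_alg' h hD hFh hDF hv a hva hn hvF 0
  have hR : ∀ j, ∃ R : Set K, R.Finite ∧
      ∀ᶠ i in ((Filter.hyperfilter ℕ : Ultrafilter ℕ) : Filter ℕ),
        w (3 * n * i) j / w (3 * n * i) (a 0) ∈ R := by
    intro j
    have h1 := halg j
    have h2 : v 0 j = gmA (fun i => w (3 * n * i) j / w (3 * n * i) (a 0)) := by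
      rw [gmA_div]
      change (W 0 (a 0))⁻¹ * W 0 j = _
      have e : ∀ j, W 0 j = gmA (fun i => w (3 * n * i) j) := by
        intro j
        simp only [W, zero_add]
      rw [e, e, div_eq_inv_mul]
    rw [h2] at h1
    exact alg_fin h1
  choose R hRf hR using hR
  have hne0 : ∀ᶠ i in ((Filter.hyperfilter ℕ : Ultrafilter ℕ) : Filter ℕ),
      w (3 * n * i) (a 0) ≠ 0 := by
    have h1 := ha 0
    have h2 : ¬ ∀ᶠ i in ((Filter.hyperfilter ℕ : Ultrafilter ℕ) : Filter ℕ),
        w (0 + 3 * n * i) (a 0) = 0 := fun hc => h1 ((gmA_zero _).2 hc)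
    simp only [zero_add] at h2
    exact Ultrafilter.eventually_not.2 h2
  have hS := (Filter.eventually_all.2 hR).and hne0
  have hinf : {i | (∀ j, w (3 * n * i) j / w (3 * n * i) (a 0) ∈ R j) ∧
      w (3 * n * i) (a 0) ≠ 0}.Infinite := by
    intro hfin
    exact hfin.notMem_hyperfilter hS
  have htf : {r : Fin 4 → K | ∀ j, r j ∈ R j}.Finite := Set.Finite.pi' hRf
  obtain ⟨x, hx, y, hy, hxy, hfe⟩ := hinf.exists_lt_map_eq_of_mapsTo
    (f := fun i => fun j => w (3 * n * i) j / w (3 * n * i) (a 0))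
    (t := {r : Fin 4 → K | ∀ j, r j ∈ R j}) (fun i hi => hi.1) htf
  apply hnp x y hxy
  refine ⟨w (3 * n * x) (a 0) / w (3 * n * y) (a 0), div_ne_zero hx.2 hy.2, ?_⟩
  funext j
  have h1 : w (3 * n * x) j / w (3 * n * x) (a 0) = w (3 * n * y) j / w (3 * n * y) (a 0) :=
    congrFun hfe j
  have hx2 := hx.2
  have hy2 := hy.2
  rw [Pi.smul_apply, smul_eq_mul]
  rw [div_eq_div_iff hx2 hy2] at h1
  field_simp
  linear_combination h1

end ultra

end Run7.h846.MQ
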