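import Pool.Agent.Run7.h846.MqMulti

/-! Determinantal quartic surfaces: several places and extensions of the ground field. -/

set_option autoImplicit false

namespace Run7.h846.MQ

open MvPolynomial Matrix Height

section

variable {K : Type} [Field K]

theorem map_adjP {L : Type} [Field L] [Algebra K L] (T : Fin 4 → Fin 4 → Fin 4 → K)
    (a : Fin 4 × Fin 4) : map (algebraMap K L) (adjP T a) = adjP (bc K T : _ → _ → _ → L) a := by
  have h1 : (map (algebraMap K L) : MvPolynomial (Fin 4) K →+* _).mapMatrix (genM T) =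
      genM (bc K T : _ → _ → _ → L) := by
    unfold genM
    rw [Mat_map]
    congr 1
    · funext i j l
      exact map_C _ _
    · funext i
      exact map_X _ _
  unfold adjP
  rw [← h1, ← RingHom.map_adjugate]
  rfl

theorem Cert.base {L : Type} [Field L] [Algebra K L] {T : Fin 4 → Fin 4 → Fin 4 → K} {M : ℕ}
    {q : Fin 4 × (Fin 4 × Fin 4) → MvPolynomial (Fin 4) K} (h : Cert T M q) :
    Cert (bc K T : _ → _ → _ → L) M (fun a => map (algebraMap K L) (q a)) := by
  refine ⟨fun a => (h.hom a).map _, fun a => ?_⟩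
  have h1 := congrArg (map (algebraMap K L)) (h.eq a)
  rw [map_sum, map_pow, map_X] at h1
  rw [← h1]
  refine Finset.sum_congr rfl fun j _ => ?_
  rw [map_mul, map_adjP]

theorem Certs.base {L : Type} [Field L] [Algebra K L] {T : Fin 4 → Fin 4 → Fin 4 → K} {M : ℕ}
    {q : ℕ → Fin 4 × (Fin 4 × Fin 4) → MvPolynomial (Fin 4) K} (h : Certs T M q) :
    Certs (bc K T : _ → _ → _ → L) M (fun k a => map (algebraMap K L) (q k a)) := by
  refine ⟨fun k => ?_, fun k => ?_⟩
  · have e : rotn (bc K T : Fin 4 → Fin 4 → Fin 4 → L) k = bc K (rotn T k) :=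
      rotn_map (algebraMap K L) T _
    rw [e]
    exact (h.1 k).base
  · simp only [h.2 k]

theorem exists_B {T : Fin 4 → Fin 4 → Fin 4 → K} {M : ℕ}
    {q : ℕ → Fin 4 × (Fin 4 × Fin 4) → MvPolynomial (Fin 4) K} (h : Certs T M q) :
    ∃ B : Finset K, (∀ i j l, T i j l ∈ B) ∧ ∀ k a s, coeff s (q k a) ∈ B := by
  classical
  have hBfin : (Set.range (fun a : Fin 4 × Fin 4 × Fin 4 => T a.1 a.2.1 a.2.2) ∪
      ⋃ k : Fin 3, ⋃ a : Fin 4 × (Fin 4 × Fin 4),
        (fun s => coeff s (q k a)) '' ((q k a).support : Set (Fin 4 →₀ ℕ))).Finite :=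
    (Set.finite_range _).union (Set.finite_iUnion fun k => Set.finite_iUnion fun a =>
      (Finset.finite_toSet _).image _)
  refine ⟨insert 0 hBfin.toFinset, fun i j l => ?_, fun k a s => ?_⟩
  · rw [Finset.mem_insert, Set.Finite.mem_toFinset]
    exact Or.inr (Or.inl ⟨(i, j, l), rfl⟩)
  · by_cases hs : s ∈ (q k a).support
    · rw [Finset.mem_insert, Set.Finite.mem_toFinset]
      right
      right
      have h0 : ∀ n k, q (k + 3 * n) = q k := by
        intro n
        induction n with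
        | zero => intro k; rfl
        | succ n ih => intro k; rw [mul_add, ← add_assoc, mul_one, h.2, ih]
      have h1 : q k = q (k % 3) := by
        have := h0 (k / 3) (k % 3)
        rwa [Nat.mod_add_div] at this
      rw [Set.mem_iUnion]
      refine ⟨⟨k % 3, Nat.mod_lt _ (by norm_num)⟩, ?_⟩
      rw [Set.mem_iUnion]
      refine ⟨a, s, ?_, ?_⟩
      · simp only [← h1]
        exact hs
      · simp only [← h1]
    · rw [notMem_support_iff.1 hs]
      exact Finset.mem_insert_self _ _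

theorem good_of_B {T : Fin 4 → Fin 4 → Fin 4 → K} {M : ℕ}
    {q : ℕ → Fin 4 × (Fin 4 × Fin 4) → MvPolynomial (Fin 4) K} (h : Certs T M q)
    {B : Finset K} (hB : (∀ i j l, T i j l ∈ B) ∧ ∀ k a s, coeff s (q k a) ∈ B)
    {L : Type} [Field L] [Algebra K L] {F : Type} [NontriviallyNormedField F]
    [IsUltrametricDist F] [Algebra L F] (hF : ∀ b ∈ B, ‖algebraMap L F (algebraMap K L b)‖ ≤ 1) :
    GoodR F (bc K T : _ → _ → _ → L) := by
  refine Good.goodR (h.base (L := L)) ⟨fun i j l => hF _ (hB.1 i j l), fun k a s => ?_⟩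
  rw [coeff_map]
  exact hF _ (hB.2 k a s)

theorem exists_R [NumberField K] {T : Fin 4 → Fin 4 → Fin 4 → K} {M : ℕ}
    {q : ℕ → Fin 4 × (Fin 4 × Fin 4) → MvPolynomial (Fin 4) K} (hq : Certs T M q) :
    ∃ R : Finset (Fin 4 → K), (∀ r ∈ R, r ≠ 0 ∧ eval r (detP T) = 0) ∧
      ∀ w : ℕ → Fin 4 → K, Chain T w → (∃ n, 0 < n ∧ Pro (w 0) (w (3 * n))) →
      ∃ r ∈ R, Pro (w 0) r := by
  classical
  obtain ⟨R₀, hR₀, hrep⟩ := finite_reps K (bigC K q)
  let R : Finset (Fin 4 → K) := hR₀.toFinset.filter fun r => r ≠ 0 ∧ eval r (detP T) = 0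
  refine ⟨R, fun r hr => (Finset.mem_filter.1 hr).2, ?_⟩
  have hbc : (bc K T : Fin 4 → Fin 4 → Fin 4 → K) = T := rfl
  intro w hw ⟨n, hn, hpro⟩
  have hdet : eval (w 0) (detP T) = 0 := by
    have h1 := hw.det 0
    have h3 := aeval_detP (F := K) T (w 0)
    rw [hbc] at h3
    exact h3.trans h1
  have h1 := per_bound (F := K) hq (w := w) hw hn hpro.symm 0
  obtain ⟨r, hr, hwr⟩ := hrep (w 0) (hw.ne 0) h1
  refine ⟨r, ?_, hwr⟩
  rw [Finset.mem_filter, Set.Finite.mem_toFinset]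
  obtain ⟨c, hc, hcr⟩ := hwr.symm
  refine ⟨hr, ?_, ?_⟩
  · rw [hcr]
    exact smul_ne_zero hc (hw.ne 0)
  · have h1 := hom_scale (detP_hom T) (A := K) c (w 0)
    have h2 : (fun j => c * w 0 j) = c • w 0 := rfl
    rw [h2, ← hcr] at h1
    change aeval r (detP T) = 0
    rw [h1]
    change c ^ 4 * eval (w 0) (detP T) = 0
    rw [hdet, mul_zero]

/-- simultaneous local density near the rational points outside of a finite set -/
theorem density_R [NumberField K] {T : Fin 4 → Fin 4 → Fin 4 → K} {M : ℕ}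
    {q : ℕ → Fin 4 × (Fin 4 × Fin 4) → MvPolynomial (Fin 4) K} (hq : Certs T M q)
    (hD : Irreducible (detP T)) :
    ∃ R : Finset (Fin 4 → K), (∀ r ∈ R, r ≠ 0 ∧ eval r (detP T) = 0) ∧
      ∀ (m : ℕ) (F : Fin m → Type) [∀ v, NontriviallyNormedField (F v)]
        [∀ v, IsUltrametricDist (F v)] [∀ v, ProperSpace (F v)] [∀ v, Algebra K (F v)],
        (∀ v, GoodR (F v) T) →
        ∀ y : Fin 4 → K, y ≠ 0 → eval y (detP T) = 0 → (∀ r ∈ R, ∀ c : K, y ≠ c • r) →
        ∀ U : ∀ v, Set (Fin 4 → F v),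
          (∀ v, U v ∈ nhds (fun i => algebraMap K (F v) (y i))) →
        ∀ f : MvPolynomial (Fin 4) K,
          (∀ y' : Fin 4 → K, y' ≠ 0 → eval y' (detP T) = 0 →
            (∀ v, ∃ c : F v, c ≠ 0 ∧ (fun i => c * algebraMap K (F v) (y' i)) ∈ U v) →
            eval y' f = 0) → detP T ∣ f := by
  obtain ⟨R, hR, hper⟩ := exists_R hq
  refine ⟨R, hR, ?_⟩
  intro m F _ _ _ _ hG y hy0 hyD hyR U hU f hf
  have hbc : (bc K T : Fin 4 → Fin 4 → Fin 4 → K) = T := rfl
  have h3 := aeval_detP (F := K) T y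
  rw [hbc] at h3
  obtain ⟨w, hw, rfl⟩ := exists_chain T y hy0 (by rw [← h3]; exact hyD)
  refine dense_multi hq hG hD hw (fun n hn hpro => ?_) hU hf
  obtain ⟨r, hr, c, -, hcr⟩ := hper w hw ⟨n, hn, hpro⟩
  exact hyR r hr c hcr

end

end Run7.h846.MQ
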