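import Pool.Agent.Run7.h846.MqMain

/-! The local Zariski closures of the rational points of determinantal quartic surfaces:
the final form. -/

set_option autoImplicit false

namespace Run7.h846.MQ

open MvPolynomial Matrix Height

section

variable {K : Type} [Field K] [NumberField K]

theorem exists_certs (T : Fin 4 → Fin 4 → Fin 4 → K)
    (hnd : ∀ k, k < 3 → ∀ x : Fin 4 → AlgebraicClosure K, x ≠ 0 →
      (Mat (bc K (rotn T k)) x).adjugate ≠ 0) :
    ∃ (M : ℕ) (q : ℕ → Fin 4 × (Fin 4 × Fin 4) → MvPolynomial (Fin 4) K), Certs T M q := by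
  choose! M₀ hM₀ using fun k (hk : k < 3) => exists_cert (rotn T k) (hnd k hk)
  choose! q hq using fun k (hk : k < 3) => hM₀ k hk (M₀ 0 + M₀ 1 + M₀ 2)
    (by interval_cases k <;> omega)
  refine ⟨M₀ 0 + M₀ 1 + M₀ 2, fun k => q (k % 3), fun k => ?_, fun k => ?_⟩
  · have h1 := hq (k % 3) (Nat.mod_lt _ (by norm_num))
    have h2 : rotn T k = rotn T (k % 3) := by
      have := rotn_add_mul T (k % 3) (k / 3)
      rwa [Nat.mod_add_div] at this
    rw [h2]
    exact h1
  · simp only
    congr 1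
    omega

/-- the reduction is nondegenerate at almost all places -/
theorem exists_places (T : Fin 4 → Fin 4 → Fin 4 → K)
    (hnd : ∀ k, k < 3 → ∀ x : Fin 4 → AlgebraicClosure K, x ≠ 0 →
      (Mat (bc K (rotn T k)) x).adjugate ≠ 0) :
    ∃ B : Finset K, ∀ (L : Type) [NontriviallyNormedField L] [IsUltrametricDist L]
      [Algebra K L], (∀ b ∈ B, ‖algebraMap K L b‖ ≤ 1) → GoodR L T := by
  classical
  obtain ⟨M, q, hq⟩ := exists_certs T hnd
  have hBfin : (Set.range (fun a : Fin 4 × Fin 4 × Fin 4 => T a.1 a.2.1 a.2.2) ∪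
      ⋃ k : Fin 3, ⋃ a : Fin 4 × (Fin 4 × Fin 4),
        (fun s => coeff s (q k a)) '' ((q k a).support : Set (Fin 4 →₀ ℕ))).Finite :=
    (Set.finite_range _).union (Set.finite_iUnion fun k => Set.finite_iUnion fun a =>
      (Finset.finite_toSet _).image _)
  refine ⟨hBfin.toFinset, ?_⟩
  intro L _ _ _ hσ
  refine Good.goodR hq ⟨?_, ?_⟩
  · intro i j l
    refine hσ _ ?_
    rw [Set.Finite.mem_toFinset]
    exact Or.inl ⟨(i, j, l), rfl⟩
  · intro k a s
    by_cases hs : s ∈ (q k a).support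
    · refine hσ _ ?_
      rw [Set.Finite.mem_toFinset]
      right
      have h0 : ∀ n k, q (k + 3 * n) = q k := by
        intro n
        induction n with
        | zero => intro k; rfl
        | succ n ih => intro k; rw [mul_add, ← add_assoc, mul_one, hq.2, ih]
      have h1 : q k = q (k % 3) := by
        have := h0 (k / 3) (k % 3)
        rwa [Nat.mod_add_div] at this
      rw [Set.mem_iUnion]
      refine ⟨⟨k % 3, Nat.mod_lt _ (by norm_num)⟩, ?_⟩
      rw [Set.mem_iUnion]
      refine ⟨a, s, ?_, ?_⟩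
      · simp only [← h1]
        exact hs
      · simp only [← h1]
    · rw [notMem_support_iff.1 hs, map_zero, norm_zero]
      exact zero_le_one

/-- the exceptional points -/
theorem exists_points (T : Fin 4 → Fin 4 → Fin 4 → K) (hD : Irreducible (detP T))
    (hnd : ∀ k, k < 3 → ∀ x : Fin 4 → AlgebraicClosure K, x ≠ 0 →
      (Mat (bc K (rotn T k)) x).adjugate ≠ 0) :
    ∃ R : Finset (Fin 4 → K), (∀ r ∈ R, r ≠ 0 ∧ eval r (detP T) = 0) ∧
      ∀ (L : Type) [NontriviallyNormedField L] [IsUltrametricDist L] [ProperSpace L]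
        [Algebra K L], GoodR L T →
        (∀ x : Fin 4 → L, JJ (algebraMap K L) (detP T) x = {f | detP T ∣ f} ∨
          ∃ S ⊆ R, JJ (algebraMap K L) (detP T) x =
            {f | ∀ r ∈ S, ∀ t : K, eval (t • r) f = 0}) ∧
        ∀ y : Fin 4 → K, y ≠ 0 → eval y (detP T) = 0 → (∀ r ∈ R, ∀ c : K, y ≠ c • r) →
          JJ (algebraMap K L) (detP T) (fun i => algebraMap K L (y i)) = {f | detP T ∣ f} := by
  classical
  obtain ⟨M, q, hq⟩ := exists_certs T hnd
  obtain ⟨R₀, hR₀, hrep⟩ := finite_reps K (bigC K q)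
  let R : Finset (Fin 4 → K) := hR₀.toFinset.filter fun r => r ≠ 0 ∧ eval r (detP T) = 0
  refine ⟨R, fun r hr => (Finset.mem_filter.1 hr).2, ?_⟩
  intro L _ _ _ _ hG
  have hbc : (bc K T : Fin 4 → Fin 4 → Fin 4 → K) = T := rfl
  have hdet : ∀ {w : ℕ → Fin 4 → K}, Chain T w → eval (w 0) (detP T) = 0 := by
    intro w hw
    have h1 := hw.det 0
    have h3 := aeval_detP (F := K) T (w 0)
    rw [hbc] at h3
    exact h3.trans h1
  have hper : ∀ w : ℕ → Fin 4 → K, Chain T w → (∃ n, 0 < n ∧ Pro (w 0) (w (3 * n))) →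
      ∃ r ∈ R, Pro (w 0) r := by
    intro w hw ⟨n, hn, hpro⟩
    have h1 := per_bound (F := K) hq (w := w) hw hn hpro.symm 0
    obtain ⟨r, hr, hwr⟩ := hrep (w 0) (hw.ne 0) h1
    refine ⟨r, ?_, hwr⟩
    rw [Finset.mem_filter, Set.Finite.mem_toFinset]
    obtain ⟨c, hc, hcr⟩ := hwr.symm
    refine ⟨hr, ?_, ?_⟩
    · rw [hcr]
      exact smul_ne_zero hc (hw.ne 0)
    · have h1 := hom_scale (detP_hom T) (A := K) c (w 0)
      have h2 : (fun j => c * w 0 j) = c • w 0 := rfl
      rw [h2, ← hcr] at h1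
      change aeval r (detP T) = 0
      rw [h1]
      change c ^ 4 * eval (w 0) (detP T) = 0
      rw [hdet hw, mul_zero]
  refine ⟨fun x => dichotomy hq hG hD R (fun r hr => (Finset.mem_filter.1 hr).2) hper x, ?_⟩
  intro y hy0 hyD hyR
  have h3 := aeval_detP (F := K) T y
  rw [hbc] at h3
  obtain ⟨w, hw, rfl⟩ := exists_chain T y hy0 (by rw [← h3]; exact hyD)
  ext f
  constructor
  · rintro ⟨U, hU, hf⟩
    refine dense_of_nonper hq hG hD hw (fun n hn hpro => ?_) (one_ne_zero (α := L)) (U := U) ?_ hf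
    · obtain ⟨r, hr, c, -, hcr⟩ := hper w hw ⟨n, hn, hpro⟩
      exact hyR r hr c hcr
    · simp only [one_mul]
      exact hU
  · rintro ⟨g, rfl⟩
    refine ⟨Set.univ, Filter.univ_mem, fun y _ hyD _ t => ?_⟩
    have h1 := hom_scale (detP_hom T) (A := K) t y
    have h2 : (fun j => t * y j) = t • y := rfl
    rw [h2] at h1
    have h3 : eval (t • y) (detP T) = 0 := by
      change aeval (t • y) (detP T) = 0
      rw [h1]
      change t ^ 4 * eval y (detP T) = 0
      rw [hyD, mul_zero]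
    rw [map_mul, h3, zero_mul]

end

end Run7.h846.MQ
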