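import Mathlib

/-! Determinantal quartic surfaces: linear algebra. -/

set_option autoImplicit false

namespace Run7.h846.MQ

open Matrix

section ker

variable {F : Type*} [Field F] {n : Type*} [Fintype n] [DecidableEq n]

/-- kernel vectors of a matrix with a nonzero cofactor are proportional -/
theorem ker_prop (A : Matrix n n F) {a b : n} (hN : A.adjugate a b ≠ 0) {u y : n → F}
    (hu : A *ᵥ u = 0) (hy : A *ᵥ y = 0) : u a • y = y a • u := by
  have hB : (A.updateRow b (Pi.single a 1)).det ≠ 0 := by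
    rwa [Matrix.adjugate_apply] at hN
  have key : ∀ v : n → F, A *ᵥ v = 0 →
      (A.updateRow b (Pi.single a 1)) *ᵥ v = Pi.single b (v a) := by
    intro v hv
    funext r
    by_cases hr : r = b
    · subst hr
      simp [mulVec, updateRow_self]
    · have h1 := congrFun hv r
      simp only [mulVec, updateRow_ne hr, Pi.single_eq_of_ne hr]
      exact h1
  have h : u a • y - y a • u = 0 := by
    apply Matrix.eq_zero_of_mulVec_eq_zero hB
    rw [mulVec_sub, mulVec_smul, mulVec_smul, key u hu, key y hy]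
    funext r
    by_cases hr : r = b
    · subst hr
      simp [mul_comm]
    · simp [Pi.single_eq_of_ne hr]
  exact sub_eq_zero.1 h

theorem ker_ne (A : Matrix n n F) {a b : n} (hdet : A.det = 0) (hN : A.adjugate a b ≠ 0)
    {y : n → F} (hy0 : y ≠ 0) (hy : A *ᵥ y = 0) : y a ≠ 0 := by
  intro h0
  have hu : A *ᵥ (fun i => A.adjugate i b) = 0 := by
    have h1 : A * A.adjugate = 0 := by rw [mul_adjugate, hdet, zero_smul]
    funext r
    have := congrFun (congrFun h1 r) b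
    simpa [Matrix.mul_apply, mulVec, dotProduct] using this
  have h2 := ker_prop A hN hu hy
  rw [h0, zero_smul] at h2
  exact hy0 ((smul_eq_zero.1 h2).resolve_left hN)

/-- the adjugate of a matrix of corank one -/
theorem adj_rank_one (A : Matrix n n F) (hdet : A.det = 0) (hN : A.adjugate ≠ 0) {y z : n → F}
    (hy0 : y ≠ 0) (hz0 : z ≠ 0) (hy : A *ᵥ y = 0) (hz : z ᵥ* A = 0) :
    ∃ c : F, c ≠ 0 ∧ ∀ i j, A.adjugate i j = c * y i * z j := by
  obtain ⟨a, b, hab⟩ : ∃ a b, A.adjugate a b ≠ 0 := by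
    by_contra hc
    push Not at hc
    exact hN (Matrix.ext hc)
  have hT : (Aᵀ).adjugate b a ≠ 0 := by
    rwa [← Matrix.adjugate_transpose, Matrix.transpose_apply]
  have hzT : Aᵀ *ᵥ z = 0 := by rwa [mulVec_transpose]
  have hya := ker_ne A hdet hab hy0 hy
  have hzb := ker_ne Aᵀ (by rwa [det_transpose]) hT hz0 hzT
  have hcol : ∀ j, A *ᵥ (fun i => A.adjugate i j) = 0 := by
    intro j
    have h1 : A * A.adjugate = 0 := by rw [mul_adjugate, hdet, zero_smul]
    funext r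
    have := congrFun (congrFun h1 r) j
    simpa [Matrix.mul_apply, mulVec, dotProduct] using this
  have hrow : ∀ i, Aᵀ *ᵥ (fun j => A.adjugate i j) = 0 := by
    intro i
    have h1 : A.adjugate * A = 0 := by rw [adjugate_mul, hdet, zero_smul]
    rw [mulVec_transpose]
    funext r
    have := congrFun (congrFun h1 i) r
    simpa [Matrix.mul_apply, vecMul, dotProduct] using this
  have e1 : ∀ i j, A.adjugate a j * y i = y a * A.adjugate i j := fun i j =>
    congrFun (ker_prop A hab (hcol j) hy) i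
  have e2 : ∀ j, A.adjugate a b * z j = z b * A.adjugate a j := fun j =>
    congrFun (ker_prop Aᵀ hT (hrow a) hzT) j
  refine ⟨A.adjugate a b / (y a * z b), div_ne_zero hab (mul_ne_zero hya hzb), fun i j => ?_⟩
  rw [div_mul_eq_mul_div, div_mul_eq_mul_div, eq_div_iff (mul_ne_zero hya hzb)]
  have h1 := e1 i j
  have h2 := e2 j
  calc A.adjugate i j * (y a * z b) = (y a * A.adjugate i j) * z b := by ring
    _ = (A.adjugate a j * y i) * z b := by rw [← h1]
    _ = (z b * A.adjugate a j) * y i := by ring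
    _ = (A.adjugate a b * z j) * y i := by rw [← h2]
    _ = A.adjugate a b * y i * z j := by ring

end ker

/-! ### Trilinear forms -/

section tri

/-- the matrix `T(x, ·, ·)` -/
def Mat {R : Type*} [CommRing R] (T : Fin 4 → Fin 4 → Fin 4 → R) (x : Fin 4 → R) :
    Matrix (Fin 4) (Fin 4) R := fun j l => ∑ i, T i j l * x i

/-- rotation of the variables -/
def rot {R : Type*} (T : Fin 4 → Fin 4 → Fin 4 → R) : Fin 4 → Fin 4 → Fin 4 → R :=
  fun j l i => T i j l

/-- the iterated rotation -/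
def rotn {R : Type*} (T : Fin 4 → Fin 4 → Fin 4 → R) (k : ℕ) : Fin 4 → Fin 4 → Fin 4 → R :=
  rot^[k] T

theorem rotn_succ {R : Type*} (T : Fin 4 → Fin 4 → Fin 4 → R) (k : ℕ) :
    rotn T (k + 1) = rot (rotn T k) := Function.iterate_succ_apply' _ _ _

theorem rotn_add_three {R : Type*} (T : Fin 4 → Fin 4 → Fin 4 → R) (k : ℕ) :
    rotn T (k + 3) = rotn T k := by
  rw [rotn_succ, rotn_succ, rotn_succ]
  rfl

theorem rotn_add_mul {R : Type*} (T : Fin 4 → Fin 4 → Fin 4 → R) (k m : ℕ) :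
    rotn T (k + 3 * m) = rotn T k := by
  induction m with
  | zero => rfl
  | succ m ih => rw [mul_add, ← add_assoc, mul_one, rotn_add_three, ih]

theorem Mat_map {R S : Type*} [CommRing R] [CommRing S] (φ : R →+* S)
    (T : Fin 4 → Fin 4 → Fin 4 → R) (x : Fin 4 → R) :
    φ.mapMatrix (Mat T x) = Mat (fun i j l => φ (T i j l)) (fun i => φ (x i)) := by
  ext j l
  simp [Mat, map_sum]

theorem Mat_smul {R : Type*} [CommRing R] (T : Fin 4 → Fin 4 → Fin 4 → R) (c : R)
    (x : Fin 4 → R) : Mat T (c • x) = c • Mat T x := by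
  ext j l
  simp only [Mat, Pi.smul_apply, smul_eq_mul, Matrix.smul_apply, Finset.mul_sum]
  exact Finset.sum_congr rfl fun i _ => by ring

theorem rotn_map {R S : Type*} (φ : R → S) (T : Fin 4 → Fin 4 → Fin 4 → R) (k : ℕ) :
    rotn (fun i j l => φ (T i j l)) k = fun i j l => φ (rotn T k i j l) := by
  induction k with
  | zero => rfl
  | succ k ih => rw [rotn_succ, rotn_succ, ih]; rfl

/-- `T(x, y, ·) = 0` -/
def Link {R : Type*} [CommRing R] (T : Fin 4 → Fin 4 → Fin 4 → R) (x y : Fin 4 → R) : Prop :=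
  y ᵥ* Mat T x = 0

theorem link_iff {R : Type*} [CommRing R] (T : Fin 4 → Fin 4 → Fin 4 → R) (x y : Fin 4 → R) :
    Link T x y ↔ Mat (rot T) y *ᵥ x = 0 := by
  have h : ∀ l, (y ᵥ* Mat T x) l = (Mat (rot T) y *ᵥ x) l := by
    intro l
    simp only [vecMul, mulVec, dotProduct, Mat, rot, Finset.mul_sum, Finset.sum_mul]
    rw [Finset.sum_comm]
    exact Finset.sum_congr rfl fun i _ => Finset.sum_congr rfl fun j _ => by ring
  unfold Link
  constructor
  · intro h1
    funext l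
    rw [← h l, h1]
  · intro h1
    funext l
    rw [h l, h1]

end tri

section chain

variable {F : Type*} [Field F]

/-- nondegenerate at the points over `F` -/
def ND (T : Fin 4 → Fin 4 → Fin 4 → F) : Prop :=
  ∀ (k : ℕ) (x : Fin 4 → F), x ≠ 0 → (Mat (rotn T k) x).adjugate ≠ 0

/-- a chain of points -/
structure Chain (T : Fin 4 → Fin 4 → Fin 4 → F) (w : ℕ → Fin 4 → F) : Prop where
  ne : ∀ k, w k ≠ 0
  link : ∀ k, Link (rotn T k) (w k) (w (k + 1))

variable {T : Fin 4 → Fin 4 → Fin 4 → F} {w : ℕ → Fin 4 → F}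

theorem Chain.left (h : Chain T w) (k : ℕ) : w (k + 1) ᵥ* Mat (rotn T k) (w k) = 0 := h.link k

theorem Chain.right (h : Chain T w) (k : ℕ) : Mat (rotn T (k + 1)) (w (k + 1)) *ᵥ w k = 0 := by
  rw [rotn_succ]
  exact (link_iff _ _ _).1 (h.link k)

theorem Chain.det (h : Chain T w) (k : ℕ) : (Mat (rotn T k) (w k)).det = 0 :=
  Matrix.exists_vecMul_eq_zero_iff.1 ⟨w (k + 1), h.ne _, h.left k⟩

theorem Chain.adj (h : Chain T w) (hND : ND T) (k : ℕ) : ∃ c : F, c ≠ 0 ∧
    ∀ i j, (Mat (rotn T (k + 1)) (w (k + 1))).adjugate i j = c * w k i * w (k + 2) j :=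
  adj_rank_one _ (h.det _) (hND _ _ (h.ne _)) (h.ne _) (h.ne _) (h.right k) (h.left (k + 1))

theorem exists_next (T : Fin 4 → Fin 4 → Fin 4 → F) (x : Fin 4 → F) (hx : x ≠ 0)
    (hdet : (Mat T x).det = 0) : ∃ y : Fin 4 → F, y ≠ 0 ∧ Link T x y ∧ (Mat (rot T) y).det = 0 := by
  obtain ⟨y, hy0, hy⟩ := Matrix.exists_vecMul_eq_zero_iff.2 hdet
  refine ⟨y, hy0, hy, ?_⟩
  exact Matrix.exists_mulVec_eq_zero_iff.1 ⟨x, hx, (link_iff T x y).1 hy⟩

theorem exists_chain (T : Fin 4 → Fin 4 → Fin 4 → F) (x : Fin 4 → F) (hx : x ≠ 0)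
    (hdet : (Mat T x).det = 0) : ∃ w : ℕ → Fin 4 → F, Chain T w ∧ w 0 = x := by
  classical
  choose! f hf using fun (T : Fin 4 → Fin 4 → Fin 4 → F) (x : Fin 4 → F) (hx : x ≠ 0)
    (hdet : (Mat T x).det = 0) => exists_next T x hx hdet
  let w : ℕ → Fin 4 → F := fun k => Nat.rec x (fun n v => f (rotn T n) v) k
  have hw : ∀ k, w k ≠ 0 ∧ (Mat (rotn T k) (w k)).det = 0 := by
    intro k
    induction k with
    | zero => exact ⟨hx, hdet⟩
    | succ k ih =>
      have h1 := hf (rotn T k) (w k) ih.1 ih.2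
      refine ⟨h1.1, ?_⟩
      rw [rotn_succ]
      exact h1.2.2
  exact ⟨w, ⟨fun k => (hw k).1, fun k => (hf (rotn T k) (w k) (hw k).1 (hw k).2).2.1⟩, rfl⟩

/-- proportional vectors -/
def Pro (x y : Fin 4 → F) : Prop := ∃ c : F, c ≠ 0 ∧ x = c • y

theorem Pro.refl (x : Fin 4 → F) : Pro x x := ⟨1, one_ne_zero, by simp⟩

theorem Pro.symm {x y : Fin 4 → F} (h : Pro x y) : Pro y x := by
  obtain ⟨c, hc, rfl⟩ := h
  exact ⟨c⁻¹, inv_ne_zero hc, by rw [smul_smul, inv_mul_cancel₀ hc, one_smul]⟩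

theorem Pro.trans {x y z : Fin 4 → F} (h : Pro x y) (h' : Pro y z) : Pro x z := by
  obtain ⟨c, hc, rfl⟩ := h
  obtain ⟨d, hd, rfl⟩ := h'
  exact ⟨c * d, mul_ne_zero hc hd, by rw [smul_smul]⟩

theorem pro_of_ker {A : Matrix (Fin 4) (Fin 4) F} (hdet : A.det = 0) (hN : A.adjugate ≠ 0)
    {u y : Fin 4 → F} (hu0 : u ≠ 0) (hy0 : y ≠ 0) (hu : A *ᵥ u = 0) (hy : A *ᵥ y = 0) :
    Pro u y := by
  obtain ⟨a, b, hab⟩ : ∃ a b, A.adjugate a b ≠ 0 := by
    by_contra hc
    push Not at hc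
    exact hN (Matrix.ext hc)
  have h1 := ker_prop A hab hu hy
  have hu1 := ker_ne A hdet hab hu0 hu
  have hy1 := ker_ne A hdet hab hy0 hy
  refine ⟨u a / y a, div_ne_zero hu1 hy1, ?_⟩
  funext i
  have := congrFun h1 i
  simp only [Pi.smul_apply, smul_eq_mul] at this ⊢
  rw [div_mul_eq_mul_div, eq_div_iff hy1, this]
  ring

theorem step_fwd {T : Fin 4 → Fin 4 → Fin 4 → F} {x x' y y' : Fin 4 → F}
    (hN : (Mat T x).adjugate ≠ 0) (hy0 : y ≠ 0) (hy0' : y' ≠ 0)
    (h : Link T x y) (h' : Link T x' y') (hx : Pro x' x) : Pro y y' := by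
  obtain ⟨c, hc, rfl⟩ := hx
  have h2 : y' ᵥ* Mat T x = 0 := by
    have h3 : y' ᵥ* (c • Mat T x) = 0 := by rw [← Mat_smul]; exact h'
    rw [vecMul_smul] at h3
    exact (smul_eq_zero.1 h3).resolve_left hc
  have hdet : (Mat T x).det = 0 := Matrix.exists_vecMul_eq_zero_iff.1 ⟨y, hy0, h⟩
  refine pro_of_ker (A := (Mat T x)ᵀ) (by rwa [det_transpose]) ?_ hy0 hy0' ?_ ?_
  · rw [← Matrix.adjugate_transpose]
    intro h4
    exact hN (by rw [← Matrix.transpose_transpose (Mat T x).adjugate, h4, transpose_zero])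
  · rw [mulVec_transpose]; exact h
  · rw [mulVec_transpose]; exact h2

theorem step_bwd {T : Fin 4 → Fin 4 → Fin 4 → F} {x x' y y' : Fin 4 → F}
    (hN : (Mat (rot T) y).adjugate ≠ 0) (hx0 : x ≠ 0) (hx0' : x' ≠ 0)
    (h : Link T x y) (h' : Link T x' y') (hy : Pro y' y) : Pro x x' := by
  obtain ⟨c, hc, rfl⟩ := hy
  rw [link_iff] at h h'
  rw [Mat_smul, smul_mulVec] at h'
  have h2 := (smul_eq_zero.1 h').resolve_left hc
  have hdet : (Mat (rot T) y).det = 0 := Matrix.exists_mulVec_eq_zero_iff.1 ⟨x, hx0, h⟩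
  exact pro_of_ker hdet hN hx0 hx0' h h2

/-- two chains which agree somewhere agree from there on -/
theorem chain_fwd {w' : ℕ → Fin 4 → F} (hND : ND T) {a b : ℕ}
    (hab : rotn T a = rotn T b) (h : ∀ k, w k ≠ 0) (h' : ∀ k, w' k ≠ 0)
    (hl : ∀ k, Link (rotn T (a + k)) (w (a + k)) (w (a + k + 1)))
    (hl' : ∀ k, Link (rotn T (b + k)) (w' (b + k)) (w' (b + k + 1)))
    (h0 : Pro (w a) (w' b)) (k : ℕ) : Pro (w (a + k)) (w' (b + k)) := by
  have hr : ∀ k, rotn T (a + k) = rotn T (b + k) := by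
    intro k
    induction k with
    | zero => exact hab
    | succ k ih => rw [← add_assoc, ← add_assoc, rotn_succ, rotn_succ, ih]
  induction k with
  | zero => exact h0
  | succ k ih =>
    have h1 := hl k
    have h2 := hl' k
    rw [← hr] at h2
    exact step_fwd (hND _ _ (h _)) (h _) (h' _) h1 h2 ih.symm

end chain

end Run7.h846.MQ
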