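import Pool.Agent.Run7.h846.MqPer

/-! Recurrence at the places of good reduction. -/

set_option autoImplicit false

namespace Run7.h846.MQ

open MvPolynomial Matrix

section norm

variable {L : Type} [NontriviallyNormedField L] [IsUltrametricDist L]

theorem norm_add_le' {a b : L} {r : ℝ} (ha : ‖a‖ ≤ r) (hb : ‖b‖ ≤ r) : ‖a + b‖ ≤ r :=
  (IsUltrametricDist.norm_add_le_max a b).trans (max_le ha hb)

theorem norm_sum_le' {ι : Type*} (s : Finset ι) (a : ι → L) {r : ℝ} (hr : 0 ≤ r)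
    (ha : ∀ i ∈ s, ‖a i‖ ≤ r) : ‖∑ i ∈ s, a i‖ ≤ r := by
  classical
  induction s using Finset.induction_on with
  | empty => simpa using hr
  | insert i s his ih =>
    rw [Finset.sum_insert his]
    exact norm_add_le' (ha i (Finset.mem_insert_self i s))
      (ih fun j hj => ha j (Finset.mem_insert_of_mem hj))

omit [IsUltrametricDist L] in
theorem norm_prod_le' {ι : Type*} (s : Finset ι) (a : ι → L)
    (ha : ∀ i ∈ s, ‖a i‖ ≤ 1) : ‖∏ i ∈ s, a i‖ ≤ 1 := by
  rw [norm_prod]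
  exact Finset.prod_le_one (fun _ _ => norm_nonneg _) ha

theorem norm_prod_sub_le {ι : Type*} (s : Finset ι) (a b : ι → L) {r : ℝ} (hr : 0 ≤ r)
    (ha : ∀ i ∈ s, ‖a i‖ ≤ 1) (hb : ∀ i ∈ s, ‖b i‖ ≤ 1) (hab : ∀ i ∈ s, ‖a i - b i‖ ≤ r) :
    ‖∏ i ∈ s, a i - ∏ i ∈ s, b i‖ ≤ r := by
  classical
  induction s using Finset.induction_on with
  | empty => simpa using hr
  | insert i s his ih =>
    rw [Finset.prod_insert his, Finset.prod_insert his]
    have e : a i * ∏ j ∈ s, a j - b i * ∏ j ∈ s, b j =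
        (a i - b i) * ∏ j ∈ s, a j + b i * (∏ j ∈ s, a j - ∏ j ∈ s, b j) := by ring
    rw [e]
    apply norm_add_le'
    · rw [norm_mul]
      have h1 := hab i (Finset.mem_insert_self i s)
      have h2 := norm_prod_le' s a fun j hj => ha j (Finset.mem_insert_of_mem hj)
      have h3 := norm_nonneg (a i - b i)
      have h4 := norm_nonneg (∏ j ∈ s, a j)
      nlinarith
    · rw [norm_mul]
      have h1 := hb i (Finset.mem_insert_self i s)
      have h2 := ih (fun j hj => ha j (Finset.mem_insert_of_mem hj))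
        (fun j hj => hb j (Finset.mem_insert_of_mem hj))
        (fun j hj => hab j (Finset.mem_insert_of_mem hj))
      have h3 := norm_nonneg (b i)
      have h4 := norm_nonneg (∏ j ∈ s, a j - ∏ j ∈ s, b j)
      nlinarith

theorem norm_sign_smul (g : Equiv.Perm (Fin 4)) (a : L) : ‖Equiv.Perm.sign g • a‖ = ‖a‖ := by
  rcases Int.units_eq_one_or (Equiv.Perm.sign g) with h | h
  · rw [h, one_smul]
  · rw [h, Units.neg_smul, one_smul, norm_neg]

theorem norm_det_le (A : Matrix (Fin 4) (Fin 4) L) (hA : ∀ i j, ‖A i j‖ ≤ 1) : ‖A.det‖ ≤ 1 := by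
  rw [det_apply]
  refine norm_sum_le' _ _ zero_le_one fun g _ => ?_
  rw [norm_sign_smul]
  exact norm_prod_le' _ _ fun i _ => hA _ _

theorem norm_det_sub_le (A B : Matrix (Fin 4) (Fin 4) L) {r : ℝ} (hr : 0 ≤ r)
    (hA : ∀ i j, ‖A i j‖ ≤ 1) (hB : ∀ i j, ‖B i j‖ ≤ 1) (hAB : ∀ i j, ‖A i j - B i j‖ ≤ r) :
    ‖A.det - B.det‖ ≤ r := by
  rw [det_apply, det_apply, ← Finset.sum_sub_distrib]
  refine norm_sum_le' _ _ hr fun g _ => ?_
  rw [← smul_sub, norm_sign_smul]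
  exact norm_prod_sub_le _ _ _ hr (fun i _ => hA _ _) (fun i _ => hB _ _) (fun i _ => hAB _ _)

omit [IsUltrametricDist L] in
theorem upd_le (A : Matrix (Fin 4) (Fin 4) L) (hA : ∀ i j, ‖A i j‖ ≤ 1) (a b i j : Fin 4) :
    ‖A.updateRow b (Pi.single a 1) i j‖ ≤ 1 := by
  by_cases h : i = b
  · subst h
    rw [updateRow_self]
    by_cases h2 : j = a
    · subst h2
      simp
    · rw [Pi.single_eq_of_ne h2, norm_zero]
      exact zero_le_one
  · rw [updateRow_ne h]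
    exact hA _ _

theorem norm_adj_le (A : Matrix (Fin 4) (Fin 4) L) (hA : ∀ i j, ‖A i j‖ ≤ 1) (a b : Fin 4) :
    ‖A.adjugate a b‖ ≤ 1 := by
  rw [adjugate_apply]
  exact norm_det_le _ fun i j => upd_le A hA a b i j

theorem norm_adj_sub_le (A B : Matrix (Fin 4) (Fin 4) L) {r : ℝ} (hr : 0 ≤ r)
    (hA : ∀ i j, ‖A i j‖ ≤ 1) (hB : ∀ i j, ‖B i j‖ ≤ 1) (hAB : ∀ i j, ‖A i j - B i j‖ ≤ r)
    (a b : Fin 4) : ‖A.adjugate a b - B.adjugate a b‖ ≤ r := by
  rw [adjugate_apply, adjugate_apply]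
  refine norm_det_sub_le _ _ hr (fun i j => upd_le A hA a b i j) (fun i j => upd_le B hB a b i j)
    fun i j => ?_
  by_cases h : i = b
  · subst h
    rw [updateRow_self, updateRow_self, sub_self, norm_zero]
    exact hr
  · rw [updateRow_ne h, updateRow_ne h]
    exact hAB _ _

theorem norm_Mat_le {T : Fin 4 → Fin 4 → Fin 4 → L} (hT : ∀ i j l, ‖T i j l‖ ≤ 1)
    {x : Fin 4 → L} (hx : ∀ i, ‖x i‖ ≤ 1) (j l : Fin 4) : ‖Mat T x j l‖ ≤ 1 := by
  unfold Mat
  refine norm_sum_le' _ _ zero_le_one fun i _ => ?_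
  rw [norm_mul]
  exact mul_le_one₀ (hT _ _ _) (norm_nonneg _) (hx _)

theorem norm_Mat_sub_le {T : Fin 4 → Fin 4 → Fin 4 → L} (hT : ∀ i j l, ‖T i j l‖ ≤ 1)
    {x y : Fin 4 → L} {r : ℝ} (hr : 0 ≤ r) (hxy : ∀ i, ‖x i - y i‖ ≤ r) (j l : Fin 4) :
    ‖Mat T x j l - Mat T y j l‖ ≤ r := by
  unfold Mat
  rw [← Finset.sum_sub_distrib]
  refine norm_sum_le' _ _ hr fun i _ => ?_
  rw [← mul_sub, norm_mul]
  have h1 := hT i j l
  have h2 := hxy i
  have h3 := norm_nonneg (T i j l)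
  have h4 := norm_nonneg (x i - y i)
  nlinarith

/-- vectors of norm one -/
def U1 (v : Fin 4 → L) : Prop := (∀ i, ‖v i‖ ≤ 1) ∧ ∃ i, ‖v i‖ = 1

omit [IsUltrametricDist L] in
theorem exists_U1 (v : Fin 4 → L) (hv : v ≠ 0) : ∃ c : L, c ≠ 0 ∧ U1 (c • v) := by
  obtain ⟨i, hi⟩ := Finite.exists_max (fun i => ‖v i‖)
  have h0 : v i ≠ 0 := by
    intro h0
    apply hv
    funext j
    have := hi j
    rw [h0, norm_zero] at this
    exact norm_le_zero_iff.1 this
  have h1 : 0 < ‖v i‖ := norm_pos_iff.2 h0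
  refine ⟨(v i)⁻¹, inv_ne_zero h0, fun j => ?_, i, ?_⟩
  · rw [Pi.smul_apply, smul_eq_mul, norm_mul, norm_inv, inv_mul_le_iff₀ h1, mul_one]
    exact hi j
  · rw [Pi.smul_apply, smul_eq_mul, inv_mul_cancel₀ h0, norm_one]

/-- proportional up to `r` -/
def Close (r : ℝ) (v v' : Fin 4 → L) : Prop := ∃ u : L, ‖u‖ = 1 ∧ ∀ i, ‖v i - u * v' i‖ ≤ r

omit [IsUltrametricDist L] in
theorem Close.symm {r : ℝ} {v v' : Fin 4 → L} (h : Close r v v') : Close r v' v := by
  obtain ⟨u, hu, h⟩ := h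
  have hu0 : u ≠ 0 := by
    rintro rfl
    rw [norm_zero] at hu
    exact zero_ne_one hu
  refine ⟨u⁻¹, by rw [norm_inv, hu, inv_one], fun i => ?_⟩
  have e : v' i - u⁻¹ * v i = -u⁻¹ * (v i - u * v' i) := by
    field_simp
    ring
  rw [e, norm_mul, norm_neg, norm_inv, hu, inv_one, one_mul]
  exact h i

theorem Close.trans {r : ℝ} {v v' v'' : Fin 4 → L} (h : Close r v v') (h' : Close r v' v'') :
    Close r v v'' := by
  obtain ⟨u, hu, h⟩ := h
  obtain ⟨u', hu', h'⟩ := h'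
  refine ⟨u * u', by rw [norm_mul, hu, hu', one_mul], fun i => ?_⟩
  have e : v i - u * u' * v'' i = (v i - u * v' i) + u * (v' i - u' * v'' i) := by ring
  rw [e]
  apply norm_add_le' (h i)
  rw [norm_mul, hu, one_mul]
  exact h' i

theorem close_aux {x y x' y' : Fin 4 → L} (hx : U1 x) (hy : U1 y) (hx' : U1 x') (hy' : U1 y')
    {s : L} (hs : ‖s‖ ≤ 1) {r : ℝ} (hr : r < 1)
    (h : ∀ i j, ‖x i * y j - s * (x' i * y' j)‖ ≤ r) : Close r x x' := by
  obtain ⟨j, hj⟩ := hy.2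
  have hj0 : y j ≠ 0 := by
    intro h0
    rw [h0, norm_zero] at hj
    exact zero_ne_one hj
  have h1 : ∀ i, ‖x i - s * y' j / y j * x' i‖ ≤ r := by
    intro i
    have e : x i - s * y' j / y j * x' i = (x i * y j - s * (x' i * y' j)) / y j := by
      field_simp
    rw [e, norm_div, hj, div_one]
    exact h i j
  have hu : ‖s * y' j / y j‖ ≤ 1 := by
    rw [norm_div, norm_mul, hj, div_one]
    exact mul_le_one₀ hs (norm_nonneg _) (hy'.1 j)
  refine ⟨s * y' j / y j, le_antisymm hu ?_, h1⟩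
  obtain ⟨i, hi⟩ := hx.2
  by_contra hc
  push Not at hc
  have h2 : ‖s * y' j / y j * x' i‖ < 1 := by
    rw [norm_mul]
    have h3 := hx'.1 i
    have h4 := norm_nonneg (s * y' j / y j)
    have h5 := norm_nonneg (x' i)
    nlinarith
  have h3 : ‖x i‖ ≤ max ‖x i - s * y' j / y j * x' i‖ ‖s * y' j / y j * x' i‖ := by
    have := IsUltrametricDist.norm_add_le_max (x i - s * y' j / y j * x' i)
      (s * y' j / y j * x' i)
    rwa [sub_add_cancel] at this
  have h4 := max_lt (lt_of_le_of_lt (h1 i) hr) h2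
  rw [hi] at h3
  linarith

end norm

section chain

variable {K : Type} [Field K] {L : Type} [NontriviallyNormedField L] [IsUltrametricDist L]
  [Algebra K L] {T : Fin 4 → Fin 4 → Fin 4 → K} {M : ℕ}
  {q : ℕ → Fin 4 × (Fin 4 × Fin 4) → MvPolynomial (Fin 4) K}

/-- integral coefficients -/
structure Good (L : Type) [NontriviallyNormedField L] [Algebra K L]
    (T : Fin 4 → Fin 4 → Fin 4 → K)
    (q : ℕ → Fin 4 × (Fin 4 × Fin 4) → MvPolynomial (Fin 4) K) : Prop where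
  tri : ∀ i j l, ‖algebraMap K L (T i j l)‖ ≤ 1
  cert : ∀ k a s, ‖algebraMap K L (coeff s (q k a))‖ ≤ 1

theorem aeval_le {p : MvPolynomial (Fin 4) K} (hp : ∀ s, ‖algebraMap K L (coeff s p)‖ ≤ 1)
    {x : Fin 4 → L} (hx : ∀ i, ‖x i‖ ≤ 1) : ‖aeval x p‖ ≤ 1 := by
  rw [aeval_def, eval₂_eq]
  refine norm_sum_le' _ _ zero_le_one fun d _ => ?_
  rw [norm_mul]
  refine mul_le_one₀ (hp d) (norm_nonneg _) ?_
  refine norm_prod_le' _ _ fun i _ => ?_
  rw [norm_pow]
  exact pow_le_one₀ (norm_nonneg _) (hx i)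

theorem exists_adj (h : Certs T M q) (hG : Good L T q) (k : ℕ) {x : Fin 4 → L} (hx : U1 x) :
    ∃ i j, 1 ≤ ‖(Mat (bc K (rotn T k)) x).adjugate i j‖ := by
  by_contra hc
  push Not at hc
  obtain ⟨a, ha⟩ := hx.2
  have h1 := congrArg (aeval x) ((h.1 k).eq a)
  rw [map_sum, map_pow, aeval_X] at h1
  have h2 : ‖x a ^ (M + 3)‖ = 1 := by rw [norm_pow, ha, one_pow]
  rw [← h1] at h2
  obtain ⟨m, hm⟩ := Finite.exists_max
    (fun j : Fin 4 × Fin 4 => ‖(Mat (bc K (rotn T k)) x).adjugate j.1 j.2‖)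
  have h3 : ‖∑ j, aeval x (q k (a, j) * adjP (rotn T k) j)‖ ≤
      ‖(Mat (bc K (rotn T k)) x).adjugate m.1 m.2‖ := by
    refine norm_sum_le' _ _ (norm_nonneg _) fun j _ => ?_
    rw [map_mul, aeval_adjP, norm_mul]
    have h4 := aeval_le (hG.cert k (a, j)) hx.1
    have h5 := hm j
    have h6 := norm_nonneg (aeval x (q k (a, j)))
    have h7 := norm_nonneg ((Mat (bc K (rotn T k)) x).adjugate j.1 j.2)
    nlinarith
  have h4 := hc m.1 m.2
  linarith

/-- nondegenerate reduction -/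
structure GoodR (L : Type) [NontriviallyNormedField L] [Algebra K L]
    (T : Fin 4 → Fin 4 → Fin 4 → K) : Prop where
  tri : ∀ i j l, ‖algebraMap K L (T i j l)‖ ≤ 1
  adj : ∀ (k : ℕ) (x : Fin 4 → L), U1 x → (Mat (bc K (rotn T k)) x).det = 0 →
    ∃ i j, 1 ≤ ‖(Mat (bc K (rotn T k)) x).adjugate i j‖

theorem Good.goodR (h : Certs T M q) (hG : Good L T q) : GoodR L T :=
  ⟨hG.tri, fun k _ hx _ => exists_adj h hG k hx⟩

omit [IsUltrametricDist L] in
theorem GoodR.rot (hG : GoodR L T) (k : ℕ) :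
    ∀ i j l, ‖algebraMap K L (rotn T k i j l)‖ ≤ 1 := by
  induction k with
  | zero => exact hG.tri
  | succ k ih =>
    rw [rotn_succ]
    intro i j l
    exact ih _ _ _

/-- chains of vectors of norm one -/
structure UChain (L : Type) [NontriviallyNormedField L] [Algebra K L]
    (T : Fin 4 → Fin 4 → Fin 4 → K) (w : ℕ → Fin 4 → L) : Prop where
  chain : Chain (bc K T) w
  unit : ∀ k, U1 (w k)

theorem UChain.adj (h : Certs T M q) (hG : GoodR L T) {w : ℕ → Fin 4 → L}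
    (hw : UChain L T w) (k : ℕ) : ∃ c : L, ‖c‖ = 1 ∧
      ∀ i j, (Mat (bc K (rotn T (k + 1))) (w (k + 1))).adjugate i j = c * w k i * w (k + 2) j := by
  obtain ⟨c, hc, hadj⟩ := hw.chain.adj h.nd k
  have e : rotn (bc K T : Fin 4 → Fin 4 → Fin 4 → L) (k + 1) = bc K (rotn T (k + 1)) :=
    rotn_map (algebraMap K L) T _
  rw [e] at hadj
  refine ⟨c, le_antisymm ?_ ?_, hadj⟩
  · obtain ⟨i, hi⟩ := (hw.unit k).2
    obtain ⟨j, hj⟩ := (hw.unit (k + 2)).2
    have h1 := norm_adj_le _ (norm_Mat_le (T := bc K (rotn T (k + 1))) (hG.rot (k + 1))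
      (hw.unit (k + 1)).1) i j
    rw [hadj, norm_mul, norm_mul, hi, hj, mul_one, mul_one] at h1
    exact h1
  · have hdet := hw.chain.det (k + 1)
    rw [e] at hdet
    obtain ⟨i, j, hij⟩ := hG.adj (k + 1) _ (hw.unit (k + 1)) hdet
    rw [hadj, norm_mul, norm_mul] at hij
    have h1 := (hw.unit k).1 i
    have h2 := (hw.unit (k + 2)).1 j
    have h3 := norm_nonneg c
    have h4 := norm_nonneg (w k i)
    have h5 := norm_nonneg (w (k + 2) j)
    have h6 : ‖c‖ * ‖w k i‖ * ‖w (k + 2) j‖ ≤ ‖c‖ * ‖w k i‖ := by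
      have := mul_nonneg h3 h4
      nlinarith
    have h7 : ‖c‖ * ‖w k i‖ ≤ ‖c‖ := by nlinarith
    linarith

theorem close_step (h : Certs T M q) (hG : GoodR L T) {w w' : ℕ → Fin 4 → L}
    (hw : UChain L T w) (hw' : UChain L T w') {r : ℝ} (hr0 : 0 ≤ r) (hr : r < 1) {k : ℕ}
    (hc : Close r (w (k + 1)) (w' (k + 1))) :
    Close r (w k) (w' k) ∧ Close r (w (k + 2)) (w' (k + 2)) := by
  obtain ⟨c, hc1, hadj⟩ := hw.adj h hG k
  obtain ⟨c', hc1', hadj'⟩ := hw'.adj h hG k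
  obtain ⟨u, hu, hclose⟩ := hc
  have hT : ∀ i j l, ‖(bc K (rotn T (k + 1)) : Fin 4 → Fin 4 → Fin 4 → L) i j l‖ ≤ 1 :=
    hG.rot (k + 1)
  have hux : ∀ i, ‖(u • w' (k + 1)) i‖ ≤ 1 := by
    intro i
    rw [Pi.smul_apply, smul_eq_mul, norm_mul, hu, one_mul]
    exact (hw'.unit (k + 1)).1 i
  have h1 : ∀ i j, ‖(Mat (bc K (rotn T (k + 1))) (w (k + 1))).adjugate i j -
      (Mat (bc K (rotn T (k + 1))) (u • w' (k + 1))).adjugate i j‖ ≤ r := fun i j =>
    norm_adj_sub_le _ _ hr0 (norm_Mat_le hT (hw.unit (k + 1)).1) (norm_Mat_le hT hux)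
      (norm_Mat_sub_le hT hr0 hclose) i j
  have hc0 : c ≠ 0 := by
    rintro rfl
    rw [norm_zero] at hc1
    exact zero_ne_one hc1
  have h2 : ∀ i j, ‖w k i * w (k + 2) j - c⁻¹ * u ^ 3 * c' * (w' k i * w' (k + 2) j)‖ ≤ r := by
    intro i j
    have h3 := h1 i j
    have h4 : (Mat (bc K (rotn T (k + 1))) (u • w' (k + 1))).adjugate i j =
        u ^ 3 * (c' * w' k i * w' (k + 2) j) := by
      rw [Mat_smul, adjugate_smul, ← hadj']
      rfl
    rw [h4, hadj] at h3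
    have e : w k i * w (k + 2) j - c⁻¹ * u ^ 3 * c' * (w' k i * w' (k + 2) j) =
        c⁻¹ * (c * w k i * w (k + 2) j - u ^ 3 * (c' * w' k i * w' (k + 2) j)) := by
      field_simp
    rw [e, norm_mul, norm_inv, hc1, inv_one, one_mul]
    exact h3
  have hs : ‖c⁻¹ * u ^ 3 * c'‖ ≤ 1 := by
    rw [norm_mul, norm_mul, norm_inv, norm_pow, hc1, hu, hc1']
    norm_num
  refine ⟨close_aux (hw.unit _) (hw.unit _) (hw'.unit _) (hw'.unit _) hs hr h2,
    close_aux (hw.unit (k + 2)) (hw.unit k) (hw'.unit (k + 2)) (hw'.unit k) hs hr fun i j => ?_⟩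
  rw [mul_comm (w (k + 2) i), mul_comm (w' (k + 2) i)]
  exact h2 j i

theorem close_all (h : Certs T M q) (hG : GoodR L T) {w w' : ℕ → Fin 4 → L}
    (hw : UChain L T w) (hw' : UChain L T w') {r : ℝ} (hr0 : 0 ≤ r) (hr : r < 1) {k : ℕ}
    (hc : Close r (w (k + 1)) (w' (k + 1))) (m : ℕ) : Close r (w m) (w' m) := by
  have hup : ∀ d, Close r (w (k + 1 + d)) (w' (k + 1 + d)) := by
    intro d
    induction d with
    | zero => exact hc
    | succ d ih =>
      have e : k + 1 + d = (k + d) + 1 := by ring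
      rw [e] at ih
      have h1 := (close_step h hG hw hw' hr0 hr ih).2
      have e2 : k + 1 + (d + 1) = k + d + 2 := by ring
      rw [e2]
      exact h1
  have hdown : ∀ d, d ≤ k + 1 → Close r (w (k + 1 - d)) (w' (k + 1 - d)) := by
    intro d
    induction d with
    | zero => intro _; exact hc
    | succ d ih =>
      intro hd
      have h1 := ih (by omega)
      have e : k + 1 - d = (k + 1 - (d + 1)) + 1 := by omega
      rw [e] at h1
      exact (close_step h hG hw hw' hr0 hr h1).1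
  rcases le_or_gt m (k + 1) with hm | hm
  · have h1 := hdown (k + 1 - m) (by omega)
    have e : k + 1 - (k + 1 - m) = m := by omega
    rwa [e] at h1
  · have h1 := hup (m - (k + 1))
    have e : k + 1 + (m - (k + 1)) = m := by omega
    rwa [e] at h1

omit [IsUltrametricDist L] in
theorem UChain.shift {w : ℕ → Fin 4 → L} (hw : UChain L T w) (n : ℕ) :
    UChain L T (fun k => w (k + 3 * n)) := by
  refine ⟨⟨fun k => hw.chain.ne _, fun k => ?_⟩, fun k => hw.unit _⟩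
  have h1 := hw.chain.link (k + 3 * n)
  rw [rotn_add_mul] at h1
  have e : k + 1 + 3 * n = k + 3 * n + 1 := by ring
  rw [e]
  exact h1

/-- the orbits are recurrent -/
theorem recur [ProperSpace L] (h : Certs T M q) (hG : GoodR L T) {w : ℕ → Fin 4 → L}
    (hw : UChain L T w) {r : ℝ} (hr0 : 0 < r) (hr : r < 1) :
    ∃ n, 0 < n ∧ ∀ i, Close r (w 0) (w (3 * n * i)) := by
  have hcpt : IsCompact (Metric.closedBall (0 : Fin 4 → L) 1) := isCompact_closedBall _ _
  have hmem : ∀ m, w (3 * (m + 1)) ∈ Metric.closedBall (0 : Fin 4 → L) 1 := by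
    intro m
    rw [mem_closedBall_zero_iff, pi_norm_le_iff_of_nonneg zero_le_one]
    exact (hw.unit _).1
  obtain ⟨a, -, φ, hφ, hlim⟩ := hcpt.tendsto_subseq hmem
  obtain ⟨N, hN⟩ := (Metric.tendsto_atTop.1 hlim) r hr0
  have h1 := hN N le_rfl
  have h2 := hN (N + 1) (Nat.le_succ N)
  have hlt : φ N < φ (N + 1) := hφ (Nat.lt_succ_self N)
  obtain ⟨d, hd⟩ := Nat.exists_eq_add_of_lt hlt
  have h3 : ∀ i, ‖w (3 * (φ N + 1)) i - 1 * w (3 * (φ (N + 1) + 1)) i‖ ≤ r := by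
    intro i
    have a1 : ‖w (3 * (φ N + 1)) i - a i‖ ≤ r := by
      have := (dist_pi_lt_iff hr0).1 h1 i
      rw [dist_eq_norm] at this
      exact this.le
    have a2 : ‖a i - w (3 * (φ (N + 1) + 1)) i‖ ≤ r := by
      have := (dist_pi_lt_iff hr0).1 h2 i
      rw [dist_comm, dist_eq_norm] at this
      exact this.le
    have e : w (3 * (φ N + 1)) i - 1 * w (3 * (φ (N + 1) + 1)) i =
        (w (3 * (φ N + 1)) i - a i) + (a i - w (3 * (φ (N + 1) + 1)) i) := by ring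
    rw [e]
    exact norm_add_le' a1 a2
  have h4 : Close r (w (3 * φ N + 2 + 1)) (w (3 * φ N + 2 + 1 + 3 * (d + 1))) := by
    refine ⟨1, norm_one, ?_⟩
    have e1 : 3 * φ N + 2 + 1 = 3 * (φ N + 1) := by ring
    have e2 : 3 * φ N + 2 + 1 + 3 * (d + 1) = 3 * (φ (N + 1) + 1) := by rw [hd]; ring
    rw [e2, e1]
    exact h3
  have h5 := close_all h hG hw (hw.shift (d + 1)) hr0.le hr h4
  refine ⟨d + 1, Nat.succ_pos d, fun i => ?_⟩
  induction i with
  | zero =>
    rw [mul_zero]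
    exact ⟨1, norm_one, fun i => by rw [one_mul, sub_self, norm_zero]; exact hr0.le⟩
  | succ i ih =>
    refine ih.trans ?_
    have h6 := h5 (3 * (d + 1) * i)
    have e : 3 * (d + 1) * (i + 1) = 3 * (d + 1) * i + 3 * (d + 1) := by ring
    rw [e]
    exact h6

end chain

end Run7.h846.MQ
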