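import Pool.Agent.Run7.h846.MqDense
import Pool.Agent.Run7.h846.MqLoc

/-! The local Zariski closures of the rational points of determinantal quartic surfaces. -/

set_option autoImplicit false

namespace Run7.h846.MQ

open MvPolynomial Matrix Height

section

variable {K : Type} [Field K]

theorem hom_comp_zero [Infinite K] (f : MvPolynomial (Fin 4) K) (y : Fin 4 → K)
    (h : ∀ t : K, eval (t • y) f = 0) (d : ℕ) : eval y (homogeneousComponent d f) = 0 := by
  classical
  by_cases hd : d ∈ Finset.range (f.totalDegree + 1)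
  · let P : Polynomial K := ∑ e ∈ Finset.range (f.totalDegree + 1),
      Polynomial.monomial e (eval y (homogeneousComponent e f))
    have hP : P = 0 := by
      apply Polynomial.funext
      intro t
      rw [Polynomial.eval_zero, ← h t]
      conv_rhs => rw [← sum_homogeneousComponent f]
      rw [map_sum, Polynomial.eval_finsetSum]
      refine Finset.sum_congr rfl fun e _ => ?_
      rw [Polynomial.eval_monomial]
      have h1 := hom_scale (homogeneousComponent_isHomogeneous e f) (A := K) t y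
      have h2 : (fun j => t * y j) = t • y := rfl
      rw [h2] at h1
      change _ = aeval (t • y) _
      rw [h1]
      change _ = t ^ e * eval y _
      ring
    have h1 := congrArg (fun Q => Polynomial.coeff Q d) hP
    simp only [P, Polynomial.finsetSum_coeff, Polynomial.coeff_monomial, Polynomial.coeff_zero,
      Finset.sum_ite_eq', hd, if_true] at h1
    exact h1
  · rw [Finset.mem_range, not_lt] at hd
    rw [homogeneousComponent_eq_zero _ _ (by omega), map_zero]

theorem chain_bwd {T : Fin 4 → Fin 4 → Fin 4 → K} (hND : ND T) {w : ℕ → Fin 4 → K}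
    (hw : Chain T w) (p : ℕ) : ∀ k, Pro (w k) (w (k + 3 * p)) → Pro (w 0) (w (3 * p)) := by
  intro k
  induction k with
  | zero => intro h; rwa [zero_add] at h
  | succ k ih =>
    intro h
    apply ih
    have h1 := hw.link k
    have h2 := hw.link (k + 3 * p)
    rw [rotn_add_mul] at h2
    have e : k + 1 + 3 * p = k + 3 * p + 1 := by ring
    rw [e] at h
    refine step_bwd (T := rotn T k) ?_ (hw.ne _) (hw.ne _) h1 h2 h.symm
    have h3 := hND (k + 1) (w (k + 1)) (hw.ne _)
    rwa [rotn_succ] at h3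

variable [CharZero K] {L : Type} [NontriviallyNormedField L] [IsUltrametricDist L]
  [ProperSpace L] [Algebra K L] {T : Fin 4 → Fin 4 → Fin 4 → K} {M : ℕ}
  {q : ℕ → Fin 4 × (Fin 4 × Fin 4) → MvPolynomial (Fin 4) K}

theorem dense_of_nonper (h : Certs T M q) (hG : GoodR L T) (hD : Irreducible (detP T))
    {w : ℕ → Fin 4 → K} (hw : Chain T w) (hnp : ∀ n, 0 < n → ¬ Pro (w 0) (w (3 * n)))
    {c : L} (hc : c ≠ 0) {U : Set (Fin 4 → L)}
    (hU : U ∈ nhds (fun i => c * algebraMap K L (w 0 i)))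
    {f : MvPolynomial (Fin 4) K}
    (hf : ∀ y : Fin 4 → K, y ≠ 0 → eval y (detP T) = 0 →
      (∃ c : L, c ≠ 0 ∧ (fun i => c * algebraMap K L (y i)) ∈ U) →
      ∀ t : K, eval (t • y) f = 0) : detP T ∣ f := by
  have hND : ND T := by
    have := h.nd (F := K)
    exact this
  have hdet : ∀ m, eval (w (3 * m)) (detP T) = 0 := by
    intro m
    have h1 := hw.det (3 * m)
    have h2 : rotn T (3 * m) = T := by
      have := rotn_add_mul T 0 m
      rw [zero_add] at this
      rw [this]
      rfl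
    rw [h2] at h1
    have h3 := aeval_detP (F := K) T (w (3 * m))
    have h4 : (bc K T : Fin 4 → Fin 4 → Fin 4 → K) = T := rfl
    rw [h4, h1] at h3
    exact h3
  have hne : ∀ k, (fun i => algebraMap K L (w k i)) ≠ 0 := by
    intro k h0
    apply hw.ne k
    funext i
    exact (map_eq_zero (algebraMap K L)).1 (congrFun h0 i)
  choose lam hlam0 hlam using fun k => exists_U1 (fun i => algebraMap K L (w k i)) (hne k)
  have hW : UChain L T (fun k => lam k • fun i => algebraMap K L (w k i)) := by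
    refine ⟨⟨fun k h0 => ?_, fun k => ?_⟩, hlam⟩
    · exact hne k ((smul_eq_zero.1 h0).resolve_left (hlam0 k))
    · have h1 := (hw.link k).map (algebraMap K L)
      have e1 : rotn (bc K T : Fin 4 → Fin 4 → Fin 4 → L) k = bc K (rotn T k) :=
        rotn_map (algebraMap K L) T _
      rw [e1]
      exact Link.smul h1 _ _
  obtain ⟨δ, hδ, hball⟩ := Metric.mem_nhds_iff.1 hU
  set s : L := c / lam 0 with hs
  have hs0 : s ≠ 0 := div_ne_zero hc (hlam0 0)
  have hsn : 0 < ‖s‖ := norm_pos_iff.2 hs0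
  obtain ⟨r, hr0, hr1, hrs⟩ : ∃ r : ℝ, 0 < r ∧ r < 1 ∧ ‖s‖ * r < δ := by
    refine ⟨min (1 / 2) (δ / (2 * ‖s‖)), lt_min (by norm_num) (by positivity),
      lt_of_le_of_lt (min_le_left _ _) (by norm_num), ?_⟩
    have h1 : ‖s‖ * min (1 / 2) (δ / (2 * ‖s‖)) ≤ ‖s‖ * (δ / (2 * ‖s‖)) :=
      mul_le_mul_of_nonneg_left (min_le_right _ _) hsn.le
    have h2 : ‖s‖ * (δ / (2 * ‖s‖)) = δ / 2 := by field_simp
    linarith
  obtain ⟨n, hn, hrec⟩ := recur h hG hW hr0 hr1
  have hmem : ∀ i, ∃ c' : L, c' ≠ 0 ∧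
      (fun j => c' * algebraMap K L (w (3 * n * i) j)) ∈ U := by
    intro i
    obtain ⟨u, hu, hclose⟩ := hrec i
    have hu0 : u ≠ 0 := by
      rintro rfl
      rw [norm_zero] at hu
      exact zero_ne_one hu
    refine ⟨s * u * lam (3 * n * i), mul_ne_zero (mul_ne_zero hs0 hu0) (hlam0 _), hball ?_⟩
    rw [Metric.mem_ball, dist_pi_lt_iff hδ]
    intro j
    rw [dist_comm, dist_eq_norm]
    have e : c * algebraMap K L (w 0 j) - s * u * lam (3 * n * i) *
        algebraMap K L (w (3 * n * i) j) = s * ((lam 0 • fun i => algebraMap K L (w 0 i)) j -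
          u * (lam (3 * n * i) • fun l => algebraMap K L (w (3 * n * i) l)) j) := by
      have hl := hlam0 0
      simp only [Pi.smul_apply, smul_eq_mul, hs]
      field_simp
    rw [e, norm_mul]
    exact lt_of_le_of_lt (mul_le_mul_of_nonneg_left (hclose j) hsn.le) hrs
  have hcomp : ∀ d, detP T ∣ homogeneousComponent d f := by
    intro d
    refine orbit_dense h hD (homogeneousComponent_isHomogeneous d f) hw hn ?_ fun i => ?_
    · intro i j hij hpro
      obtain ⟨e, rfl⟩ := Nat.exists_eq_add_of_lt hij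
      have e1 : 3 * n * (i + e + 1) = 3 * n * i + 3 * (n * (e + 1)) := by ring
      rw [e1] at hpro
      exact hnp (n * (e + 1)) (by positivity) (chain_bwd hND hw _ _ hpro)
    · have e1 : 3 * n * i = 3 * (n * i) := by ring
      have h1 := hf (w (3 * n * i)) (hw.ne _) (by rw [e1]; exact hdet _) (hmem i)
      exact hom_comp_zero f _ h1 d
  rw [← sum_homogeneousComponent f]
  exact Finset.dvd_sum fun d _ => hcomp d

/-- the ideal of the local Zariski closure -/
def JJ (σ : K →+* L) (D : MvPolynomial (Fin 4) K) (x : Fin 4 → L) :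
    Set (MvPolynomial (Fin 4) K) :=
  {f | ∃ U ∈ nhds x, ∀ y : Fin 4 → K, y ≠ 0 → eval y D = 0 →
    (∃ c : L, c ≠ 0 ∧ (fun i => c * σ (y i)) ∈ U) → ∀ t : K, eval (t • y) f = 0}

/-- the dichotomy at a place of good reduction -/
theorem dichotomy (h : Certs T M q) (hG : GoodR L T) (hD : Irreducible (detP T))
    (R : Finset (Fin 4 → K)) (hR : ∀ r ∈ R, r ≠ 0 ∧ eval r (detP T) = 0)
    (hper : ∀ w : ℕ → Fin 4 → K, Chain T w → (∃ n, 0 < n ∧ Pro (w 0) (w (3 * n))) →
      ∃ r ∈ R, Pro (w 0) r) (x : Fin 4 → L) :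
    JJ (algebraMap K L) (detP T) x = {f | detP T ∣ f} ∨
    ∃ S ⊆ R, JJ (algebraMap K L) (detP T) x = {f | ∀ r ∈ S, ∀ t : K, eval (t • r) f = 0} := by
  classical
  have hchain : ∀ y : Fin 4 → K, y ≠ 0 → eval y (detP T) = 0 →
      ∃ w : ℕ → Fin 4 → K, Chain T w ∧ w 0 = y := by
    intro y hy hy0
    refine exists_chain T y hy ?_
    have h3 := aeval_detP (F := K) T y
    have h4 : (bc K T : Fin 4 → Fin 4 → Fin 4 → K) = T := rfl
    rw [h4] at h3
    rw [← h3]
    exact hy0
  by_cases hcase : ∀ U ∈ nhds x, ∃ y : Fin 4 → K, y ≠ 0 ∧ eval y (detP T) = 0 ∧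
      (∃ c : L, c ≠ 0 ∧ (fun i => c * algebraMap K L (y i)) ∈ U) ∧ ¬ ∃ r ∈ R, Pro y r
  · left
    ext f
    constructor
    · rintro ⟨U, hU, hf⟩
      obtain ⟨V, hVU, hVo, hxV⟩ := mem_nhds_iff.1 hU
      obtain ⟨y, hy0, hyD, ⟨c, hc, hcV⟩, hyR⟩ := hcase V (hVo.mem_nhds hxV)
      obtain ⟨w, hw, rfl⟩ := hchain y hy0 hyD
      refine dense_of_nonper h hG hD hw (fun n hn hpro => hyR (hper w hw ⟨n, hn, hpro⟩)) hc
        (hVo.mem_nhds hcV) fun y' hy' hyD' hy'' => ?_
      obtain ⟨c', hc', hcV'⟩ := hy''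
      exact hf y' hy' hyD' ⟨c', hc', hVU hcV'⟩
    · rintro ⟨g, rfl⟩
      refine ⟨Set.univ, Filter.univ_mem, fun y _ hyD _ t => ?_⟩
      have h1 := hom_scale (detP_hom T) (A := K) t y
      have h2 : (fun j => t * y j) = t • y := rfl
      rw [h2] at h1
      have h3 : eval (t • y) (detP T) = 0 := by
        change aeval (t • y) (detP T) = 0
        rw [h1]
        change t ^ 4 * eval y (detP T) = 0
        rw [hyD, mul_zero]
      rw [map_mul, h3, zero_mul]
  · right
    push Not at hcase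
    obtain ⟨U₀, hU₀, hcase⟩ := hcase
    let S : Finset (Fin 4 → K) := R.filter fun r => ∀ U ∈ nhds x,
      ∃ c : L, c ≠ 0 ∧ (fun i => c * algebraMap K L (r i)) ∈ U
    refine ⟨S, Finset.filter_subset _ _, ?_⟩
    ext f
    constructor
    · rintro ⟨U, hU, hf⟩ r hr t
      rw [Finset.mem_filter] at hr
      exact hf r (hR r hr.1).1 (hR r hr.1).2 (hr.2 U hU) t
    · intro hf
      have hV : ∀ r ∈ R, ∃ V ∈ nhds x, r ∉ S →
          ¬ ∃ c : L, c ≠ 0 ∧ (fun i => c * algebraMap K L (r i)) ∈ V := by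
        intro r hr
        by_cases hrS : r ∈ S
        · exact ⟨Set.univ, Filter.univ_mem, fun h => absurd hrS h⟩
        · have h1 : ¬ ∀ U ∈ nhds x, ∃ c : L, c ≠ 0 ∧
              (fun i => c * algebraMap K L (r i)) ∈ U :=
            fun h2 => hrS (Finset.mem_filter.2 ⟨hr, h2⟩)
          rw [not_forall] at h1
          obtain ⟨V, hV⟩ := h1
          rw [Classical.not_imp] at hV
          exact ⟨V, hV.1, fun _ => hV.2⟩
      choose! V hVn hVS using hV
      have hUn : U₀ ∩ ⋂ r ∈ R, V r ∈ nhds x :=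
        Filter.inter_mem hU₀ ((Filter.biInter_finset_mem R).2 hVn)
      refine ⟨_, hUn, fun y hy0 hyD hyU t => ?_⟩
      obtain ⟨c, hc, hcU⟩ := hyU
      obtain ⟨r, hr, hpro⟩ := hcase y hy0 hyD ⟨c, hc, hcU.1⟩
      obtain ⟨a, ha, rfl⟩ := hpro
      have hrS : r ∈ S := by
        by_contra hrS
        apply hVS r hr hrS
        refine ⟨c * algebraMap K L a, mul_ne_zero hc ((map_ne_zero _).2 ha), ?_⟩
        have h1 := Set.mem_iInter₂.1 hcU.2 r hr
        convert h1 using 2
        rw [Pi.smul_apply, smul_eq_mul, map_mul]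
        ring
      have := hf r hrS (t * a)
      rwa [mul_smul] at this

end

end Run7.h846.MQ
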