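import Pool.Agent.Run7.h846.MqFin

/-! Determinantal quartic surfaces: several places. -/

set_option autoImplicit false

namespace Run7.h846.MQ

open MvPolynomial Matrix Height

section close

variable {K : Type} [Field K] {L : Type} [NontriviallyNormedField L] [IsUltrametricDist L]
  [Algebra K L] {T : Fin 4 → Fin 4 → Fin 4 → K} {M : ℕ}
  {q : ℕ → Fin 4 × (Fin 4 × Fin 4) → MvPolynomial (Fin 4) K}

theorem close_iter (h : Certs T M q) (hG : GoodR L T) {w : ℕ → Fin 4 → L}
    (hw : UChain L T w) {r : ℝ} (hr0 : 0 < r) (hr : r < 1) {a d : ℕ}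
    (hc : Close r (w (3 * (a + 1))) (w (3 * (a + d + 1 + 1)))) (i : ℕ) :
    Close r (w 0) (w (3 * (d + 1) * i)) := by
  have h4 : Close r (w (3 * a + 2 + 1)) (w (3 * a + 2 + 1 + 3 * (d + 1))) := by
    have e1 : 3 * a + 2 + 1 = 3 * (a + 1) := by ring
    have e2 : 3 * a + 2 + 1 + 3 * (d + 1) = 3 * (a + d + 1 + 1) := by ring
    rw [e2, e1]
    exact hc
  have h5 := close_all h hG hw (hw.shift (d + 1)) hr0.le hr h4
  induction i with
  | zero =>
    rw [mul_zero]
    exact ⟨1, norm_one, fun i => by rw [one_mul, sub_self, norm_zero]; exact hr0.le⟩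
  | succ i ih =>
    refine ih.trans ?_
    have h6 := h5 (3 * (d + 1) * i)
    have e : 3 * (d + 1) * (i + 1) = 3 * (d + 1) * i + 3 * (d + 1) := by ring
    rw [e]
    exact h6

end close

section multi

variable {K : Type} [Field K] {ι : Type} [Fintype ι] {L : ι → Type}
  [∀ v, NontriviallyNormedField (L v)] [∀ v, IsUltrametricDist (L v)]
  [∀ v, ProperSpace (L v)] [∀ v, Algebra K (L v)]
  {T : Fin 4 → Fin 4 → Fin 4 → K} {M : ℕ}
  {q : ℕ → Fin 4 × (Fin 4 × Fin 4) → MvPolynomial (Fin 4) K}

/-- simultaneous recurrence -/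
theorem recur_multi (h : Certs T M q) (hG : ∀ v, GoodR (L v) T) {w : ∀ v, ℕ → Fin 4 → L v}
    (hw : ∀ v, UChain (L v) T (w v)) {r : ℝ} (hr0 : 0 < r) (hr : r < 1) :
    ∃ n, 0 < n ∧ ∀ v i, Close r (w v 0) (w v (3 * n * i)) := by
  have hcpt : IsCompact (Set.univ.pi fun v => Metric.closedBall (0 : Fin 4 → L v) 1) :=
    isCompact_univ_pi fun v => isCompact_closedBall _ _
  have hmem : ∀ m, (fun v => w v (3 * (m + 1))) ∈
      (Set.univ.pi fun v => Metric.closedBall (0 : Fin 4 → L v) 1) := by
    intro m v _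
    rw [mem_closedBall_zero_iff, pi_norm_le_iff_of_nonneg zero_le_one]
    exact ((hw v).unit _).1
  obtain ⟨a, -, φ, hφ, hlim⟩ := hcpt.tendsto_subseq hmem
  obtain ⟨N, hN⟩ := (Metric.tendsto_atTop.1 hlim) r hr0
  have h1 := hN N le_rfl
  have h2 := hN (N + 1) (Nat.le_succ N)
  have hlt : φ N < φ (N + 1) := hφ (Nat.lt_succ_self N)
  obtain ⟨d, hd⟩ := Nat.exists_eq_add_of_lt hlt
  refine ⟨d + 1, Nat.succ_pos d, fun v i => ?_⟩
  refine close_iter h (hG v) (hw v) hr0 hr (a := φ N) (d := d) ?_ i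
  rw [← hd]
  refine ⟨1, norm_one, fun i => ?_⟩
  have a1 : ‖w v (3 * (φ N + 1)) i - a v i‖ ≤ r := by
    have := (dist_pi_lt_iff hr0).1 ((dist_pi_lt_iff hr0).1 h1 v) i
    rw [dist_eq_norm] at this
    exact this.le
  have a2 : ‖a v i - w v (3 * (φ (N + 1) + 1)) i‖ ≤ r := by
    have := (dist_pi_lt_iff hr0).1 ((dist_pi_lt_iff hr0).1 h2 v) i
    rw [dist_comm, dist_eq_norm] at this
    exact this.le
  have e : w v (3 * (φ N + 1)) i - 1 * w v (3 * (φ (N + 1) + 1)) i =
      (w v (3 * (φ N + 1)) i - a v i) + (a v i - w v (3 * (φ (N + 1) + 1)) i) := by ring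
  rw [e]
  exact norm_add_le' a1 a2

variable [CharZero K]

theorem dense_multi (h : Certs T M q) (hG : ∀ v, GoodR (L v) T) (hD : Irreducible (detP T))
    {w : ℕ → Fin 4 → K} (hw : Chain T w) (hnp : ∀ n, 0 < n → ¬ Pro (w 0) (w (3 * n)))
    {U : ∀ v, Set (Fin 4 → L v)}
    (hU : ∀ v, U v ∈ nhds (fun i => algebraMap K (L v) (w 0 i)))
    {f : MvPolynomial (Fin 4) K}
    (hf : ∀ y : Fin 4 → K, y ≠ 0 → eval y (detP T) = 0 →
      (∀ v, ∃ c : L v, c ≠ 0 ∧ (fun i => c * algebraMap K (L v) (y i)) ∈ U v) →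
      eval y f = 0) : detP T ∣ f := by
  have hND : ND T := by
    have := h.nd (F := K)
    exact this
  have hdet : ∀ m, eval (w (3 * m)) (detP T) = 0 := by
    intro m
    have h1 := hw.det (3 * m)
    have h2 : rotn T (3 * m) = T := by
      have := rotn_add_mul T 0 m
      rw [zero_add] at this
      rw [this]
      rfl
    rw [h2] at h1
    have h3 := aeval_detP (F := K) T (w (3 * m))
    have h4 : (bc K T : Fin 4 → Fin 4 → Fin 4 → K) = T := rfl
    rw [h4, h1] at h3
    exact h3
  have hne : ∀ v k, (fun i => algebraMap K (L v) (w k i)) ≠ 0 := by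
    intro v k h0
    apply hw.ne k
    funext i
    exact (map_eq_zero (algebraMap K (L v))).1 (congrFun h0 i)
  choose lam hlam0 hlam using fun v k => exists_U1 (fun i => algebraMap K (L v) (w k i)) (hne v k)
  have hW : ∀ v, UChain (L v) T (fun k => lam v k • fun i => algebraMap K (L v) (w k i)) := by
    intro v
    refine ⟨⟨fun k h0 => ?_, fun k => ?_⟩, hlam v⟩
    · exact hne v k ((smul_eq_zero.1 h0).resolve_left (hlam0 v k))
    · have h1 := (hw.link k).map (algebraMap K (L v))
      have e1 : rotn (bc K T : Fin 4 → Fin 4 → Fin 4 → L v) k = bc K (rotn T k) :=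
        rotn_map (algebraMap K (L v)) T _
      rw [e1]
      exact Link.smul h1 _ _
  choose δ hδ hball using fun v => Metric.mem_nhds_iff.1 (hU v)
  have hsn : ∀ v, 0 < ‖(lam v 0)⁻¹‖ := fun v => norm_pos_iff.2 (inv_ne_zero (hlam0 v 0))
  obtain ⟨r, hr0, hr1, hrs⟩ : ∃ r : ℝ, 0 < r ∧ r < 1 ∧ ∀ v, ‖(lam v 0)⁻¹‖ * r < δ v := by
    have h1 : ∀ v, ∀ᶠ r in nhdsWithin (0 : ℝ) (Set.Ioi 0), ‖(lam v 0)⁻¹‖ * r < δ v := by
      intro v
      have h2 : Filter.Tendsto (fun r : ℝ => ‖(lam v 0)⁻¹‖ * r) (nhds 0) (nhds 0) := by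
        have hc : Continuous (fun r : ℝ => ‖(lam v 0)⁻¹‖ * r) := by fun_prop
        have h3 := hc.tendsto 0
        rwa [mul_zero] at h3
      exact (h2.eventually (gt_mem_nhds (hδ v))).filter_mono nhdsWithin_le_nhds
    have h2 : ∀ᶠ r in nhdsWithin (0 : ℝ) (Set.Ioi 0), r < 1 :=
      (gt_mem_nhds (zero_lt_one (α := ℝ))).filter_mono nhdsWithin_le_nhds
    have h3 : ∀ᶠ r in nhdsWithin (0 : ℝ) (Set.Ioi 0), 0 < r := self_mem_nhdsWithin
    obtain ⟨r, ⟨hr1, hr2⟩, hr3⟩ := ((h3.and h2).and (Filter.eventually_all.2 h1)).exists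
    exact ⟨r, hr1, hr2, hr3⟩
  obtain ⟨n, hn, hrec⟩ := recur_multi h hG hW hr0 hr1
  have hmem : ∀ i v, ∃ c' : L v, c' ≠ 0 ∧
      (fun j => c' * algebraMap K (L v) (w (3 * n * i) j)) ∈ U v := by
    intro i v
    obtain ⟨u, hu, hclose⟩ := hrec v i
    have hu0 : u ≠ 0 := by
      rintro rfl
      rw [norm_zero] at hu
      exact zero_ne_one hu
    refine ⟨(lam v 0)⁻¹ * u * lam v (3 * n * i),
      mul_ne_zero (mul_ne_zero (inv_ne_zero (hlam0 v 0)) hu0) (hlam0 v _), hball v ?_⟩
    rw [Metric.mem_ball, dist_pi_lt_iff (hδ v)]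
    intro j
    rw [dist_comm, dist_eq_norm]
    have e : algebraMap K (L v) (w 0 j) - (lam v 0)⁻¹ * u * lam v (3 * n * i) *
        algebraMap K (L v) (w (3 * n * i) j) =
          (lam v 0)⁻¹ * ((lam v 0 • fun i => algebraMap K (L v) (w 0 i)) j -
          u * (lam v (3 * n * i) • fun l => algebraMap K (L v) (w (3 * n * i) l)) j) := by
      have hl := hlam0 v 0
      simp only [Pi.smul_apply, smul_eq_mul]
      field_simp
    rw [e, norm_mul]
    exact lt_of_le_of_lt (mul_le_mul_of_nonneg_left (hclose j) (hsn v).le) (hrs v)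
  have hscale : ∀ y : Fin 4 → K, y ≠ 0 → eval y (detP T) = 0 →
      (∀ v, ∃ c : L v, c ≠ 0 ∧ (fun i => c * algebraMap K (L v) (y i)) ∈ U v) →
      ∀ t : K, t ≠ 0 → eval (t • y) f = 0 := by
    intro y hy hyD hyU t ht
    refine hf _ (smul_ne_zero ht hy) ?_ fun v => ?_
    · have h1 := hom_scale (detP_hom T) (A := K) t y
      have h2 : (fun j => t * y j) = t • y := rfl
      rw [h2] at h1
      change aeval (t • y) (detP T) = 0
      rw [h1]
      change t ^ 4 * eval y (detP T) = 0
      rw [hyD, mul_zero]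
    · obtain ⟨c, hc, hcU⟩ := hyU v
      refine ⟨c * (algebraMap K (L v) t)⁻¹,
        mul_ne_zero hc (inv_ne_zero ((map_ne_zero _).2 ht)), ?_⟩
      convert hcU using 2
      rw [Pi.smul_apply, smul_eq_mul, map_mul]
      have := (map_ne_zero (algebraMap K (L v))).2 ht
      field_simp
  have hcomp : ∀ d, detP T ∣ homogeneousComponent d f := by
    intro d
    refine orbit_dense h hD (homogeneousComponent_isHomogeneous d f) hw hn ?_ fun i => ?_
    · intro i j hij hpro
      obtain ⟨e, rfl⟩ := Nat.exists_eq_add_of_lt hij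
      have e1 : 3 * n * (i + e + 1) = 3 * n * i + 3 * (n * (e + 1)) := by ring
      rw [e1] at hpro
      exact hnp (n * (e + 1)) (by positivity) (chain_bwd hND hw _ _ hpro)
    · have e1 : 3 * n * i = 3 * (n * i) := by ring
      have h1 := hscale (w (3 * n * i)) (hw.ne _) (by rw [e1]; exact hdet _) (hmem i)
      refine hom_comp_zero f _ (fun t => ?_) d
      by_cases ht : t = 0
      · subst ht
        -- the value at the origin, by continuity of polynomials
        have hP : ∀ s : K, eval (s • w (3 * n * i)) f = 0 := by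
          let g : Polynomial K := aeval (fun j => Polynomial.C (w (3 * n * i) j) * Polynomial.X) f
          have hg : ∀ s : K, Polynomial.eval s g = eval (s • w (3 * n * i)) f := by
            intro s
            have h3 : (Polynomial.aeval s : Polynomial K →ₐ[K] K).comp
                (aeval (fun j => Polynomial.C (w (3 * n * i) j) * Polynomial.X)) =
                aeval (s • w (3 * n * i)) := by
              ext j
              rw [AlgHom.comp_apply, aeval_X, aeval_X, map_mul, Polynomial.aeval_X,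
                Polynomial.aeval_C]
              change w (3 * n * i) j * s = s * w (3 * n * i) j
              ring
            have h4 := congrArg (fun (φ : MvPolynomial (Fin 4) K →ₐ[K] K) => φ f) h3
            simp only [AlgHom.comp_apply, Polynomial.coe_aeval_eq_eval] at h4
            exact h4
          have hg0 : g = 0 := by
            refine Polynomial.eq_zero_of_infinite_isRoot g ?_
            have hinf : ({0}ᶜ : Set K).Infinite := (Set.finite_singleton 0).infinite_compl
            refine hinf.mono fun s hs => ?_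
            change Polynomial.eval s g = 0
            rw [hg s]
            exact h1 s hs
          intro s
          rw [← hg s, hg0, Polynomial.eval_zero]
        exact hP 0
      · exact h1 t ht
  rw [← sum_homogeneousComponent f]
  exact Finset.dvd_sum fun d _ => hcomp d

end multi

end Run7.h846.MQ
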