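import Pool.Agent.Run7.h846.MqCert

/-! Determinantal quartic surfaces: heights of periodic points. -/

set_option autoImplicit false

namespace Run7.h846.MQ

open MvPolynomial Matrix Height

theorem seq_bound (h : ℕ → ℝ) (C : ℝ) (p : ℕ) (hp : 0 < p)
    (h1 : ∀ k, 3 * h (k + 1) - C ≤ h k + h (k + 2)) (h2 : ∀ k, h (k + p) = h k) (k : ℕ) :
    h k ≤ C := by
  obtain ⟨k0, hk0, hmax⟩ := Finset.exists_max_image (Finset.range p) h ⟨0, Finset.mem_range.2 hp⟩
  have h3 : ∀ n k, h (k + n * p) = h k := by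
    intro n
    induction n with
    | zero => intro k; simp
    | succ n ih => intro k; rw [add_mul, one_mul, ← add_assoc, h2, ih]
  have h4 : ∀ k, h k ≤ h k0 := by
    intro k
    have := h3 (k / p) (k % p)
    rw [Nat.mod_add_div' k p] at this
    rw [this]
    exact hmax _ (Finset.mem_range.2 (Nat.mod_lt _ hp))
  have h5 := h1 (k0 + p - 1)
  have e1 : k0 + p - 1 + 1 = k0 + p := by omega
  rw [e1, h2] at h5
  have h6 := h4 (k0 + p - 1)
  have h7 := h4 (k0 + p - 1 + 2)
  have h8 := h4 k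
  linarith

section

variable {F : Type} [Field F] [AdmissibleAbsValues F]

theorem logHeight_pro {x y : Fin 4 → F} (h : Pro x y) : logHeight x = logHeight y := by
  obtain ⟨c, hc, rfl⟩ := h
  exact logHeight_smul_eq_logHeight _ hc

/-- certificates for the three rotations -/
def Certs {K : Type} [Field K] (T : Fin 4 → Fin 4 → Fin 4 → K) (M : ℕ)
    (q : ℕ → Fin 4 × (Fin 4 × Fin 4) → MvPolynomial (Fin 4) K) : Prop :=
  (∀ k, Cert (rotn T k) M (q k)) ∧ ∀ k, q (k + 3) = q k

variable {K : Type} [Field K] [Algebra K F] {T : Fin 4 → Fin 4 → Fin 4 → K} {M : ℕ}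
  {q : ℕ → Fin 4 × (Fin 4 × Fin 4) → MvPolynomial (Fin 4) K}

theorem bc_rotn (T : Fin 4 → Fin 4 → Fin 4 → K) (k : ℕ) :
    rotn (bc K T : Fin 4 → Fin 4 → Fin 4 → F) k = bc K (rotn T k) :=
  rotn_map (algebraMap K F) T k

omit [AdmissibleAbsValues F] in
theorem Certs.nd (h : Certs T M q) : ND (bc K T : Fin 4 → Fin 4 → Fin 4 → F) := by
  intro k x hx
  have e : rotn (bc K T : Fin 4 → Fin 4 → Fin 4 → F) k = bc K (rotn T k) :=
    rotn_map (algebraMap K F) T k
  rw [e]
  exact (h.1 k).adj_ne hx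

/-- the height inequality along a chain -/
theorem chain_ineq (h : Certs T M q) {w : ℕ → Fin 4 → F}
    (hw : Chain (bc K T) w) (k : ℕ) :
    3 * logHeight (w (k + 1)) - htC F (q (k + 1)) ≤ logHeight (w k) + logHeight (w (k + 2)) := by
  obtain ⟨c, hc, hadj⟩ := hw.adj h.nd k
  rw [bc_rotn] at hadj
  exact ht_ineq (h.1 (k + 1)) (hw.ne _) (hw.ne _) hc hadj

/-- the constant -/
noncomputable def bigC (F : Type) [Field F] [AdmissibleAbsValues F] [Algebra K F]
    (q : ℕ → Fin 4 × (Fin 4 × Fin 4) → MvPolynomial (Fin 4) K) : ℝ :=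
  |htC F (q 0)| + |htC F (q 1)| + |htC F (q 2)|

theorem htC_le (h : Certs T M q) (k : ℕ) : htC F (q k) ≤ bigC F q := by
  have h0 : ∀ n k, q (k + 3 * n) = q k := by
    intro n
    induction n with
    | zero => intro k; rfl
    | succ n ih => intro k; rw [mul_add, ← add_assoc, mul_one, h.2, ih]
  have h1 : q k = q (k % 3) := by
    have := h0 (k / 3) (k % 3)
    rwa [Nat.mod_add_div] at this
  rw [h1]
  have h2 : k % 3 < 3 := Nat.mod_lt _ (by norm_num)
  unfold bigC
  have a0 := abs_nonneg (htC F (q 0))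
  have a1 := abs_nonneg (htC F (q 1))
  have a2 := abs_nonneg (htC F (q 2))
  have b0 := le_abs_self (htC F (q 0))
  have b1 := le_abs_self (htC F (q 1))
  have b2 := le_abs_self (htC F (q 2))
  interval_cases k % 3 <;> linarith

theorem chain_shift (h : Certs T M q) {w : ℕ → Fin 4 → F}
    (hw : Chain (bc K T) w) {a b : ℕ} (hab : a % 3 = b % 3)
    (h0 : Pro (w a) (w b)) (k : ℕ) : Pro (w (a + k)) (w (b + k)) := by
  have hr : rotn (bc K T : Fin 4 → Fin 4 → Fin 4 → F) a = rotn (bc K T) b := by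
    have h1 := rotn_add_mul (bc K T : Fin 4 → Fin 4 → Fin 4 → F) (a % 3) (a / 3)
    have h2 := rotn_add_mul (bc K T : Fin 4 → Fin 4 → Fin 4 → F) (b % 3) (b / 3)
    rw [Nat.mod_add_div] at h1 h2
    rw [h1, h2, hab]
  exact chain_fwd h.nd hr hw.ne hw.ne (fun k => hw.link _) (fun k => hw.link _) h0 k

/-- periodic points have bounded height -/
theorem per_bound (h : Certs T M q) {w : ℕ → Fin 4 → F}
    (hw : Chain (bc K T) w) {n : ℕ} (hn : 0 < n) (h0 : Pro (w (3 * n)) (w 0)) (k : ℕ) :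
    logHeight (w k) ≤ bigC F q := by
  refine seq_bound (fun k => logHeight (w k)) (bigC F q) (3 * n) (by omega) (fun k => ?_)
    (fun k => ?_) k
  · have h1 := chain_ineq h hw k
    have h2 := htC_le (F := F) h (k + 1)
    linarith
  · have h1 := chain_shift h hw (a := 3 * n) (b := 0) (by omega) h0 k
    rw [zero_add, add_comm] at h1
    exact logHeight_pro h1

end

/-- points of bounded height -/
theorem finite_reps (K : Type) [Field K] [NumberField K] (B : ℝ) :
    ∃ R : Set (Fin 4 → K), R.Finite ∧ ∀ x : Fin 4 → K, x ≠ 0 → logHeight x ≤ B →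
      ∃ r ∈ R, Pro x r := by
  refine ⟨{r | ∀ i, r i ∈ {a : K | logHeight₁ a ≤ B}}, ?_, fun x hx hB => ?_⟩
  · exact Set.Finite.pi' fun _ => NumberField.finite_setOfPred_logHeight₁_le K B
  · obtain ⟨a, ha⟩ : ∃ a, x a ≠ 0 := by
      by_contra hc
      push Not at hc
      exact hx (funext hc)
    refine ⟨(x a)⁻¹ • x, fun i => ?_, ⟨x a, ha, by rw [smul_smul, mul_inv_cancel₀ ha, one_smul]⟩⟩
    have e : ((x a)⁻¹ • x) i = x i / x a := by
      rw [Pi.smul_apply, smul_eq_mul, div_eq_inv_mul]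
    rw [Set.mem_setOf_eq, e, logHeight₁_div_eq_logHeight]
    refine le_trans ?_ hB
    have h1 := logHeight_comp_le (![i, a] : Fin 2 → Fin 4) x
    have h2 : x ∘ ![i, a] = ![x i, x a] := by
      funext j
      fin_cases j <;> rfl
    rwa [h2] at h1

end Run7.h846.MQ
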