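import Pool.Agent.Run7.h846.SecDat

/-!
# The classes of a section
-/

set_option autoImplicit false

namespace Run7.h846

open Pool.Agent.W620.SC Pool.Agent.W623.SecC Pool.Agent.W623.SecE Polynomial IntermediateField

universe u v w

section

variable {L E : Type u} {F : Type v} {Ω : Type w} [Field L] [Field E] [Field F] [Field Ω]
  [Algebra F Ω] [Algebra L Ω] [Algebra L E]
  [Algebra E (algebraicClosure L Ω)] [IsScalarTower L E (algebraicClosure L Ω)]
  [CharZero L] [IsAlgClosed Ω]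

omit [Algebra F Ω] in
lemma isGaloisE : IsGalois E (algebraicClosure L Ω) := by
  have hac : IsAlgClosure L (algebraicClosure L Ω) := inferInstance
  have hkb : IsAlgClosed (algebraicClosure L Ω) := hac.1
  have h1 : Algebra.IsAlgebraic E (algebraicClosure L Ω) :=
    Algebra.IsAlgebraic.tower_top (K := L) E
  have h2 : IsAlgClosure E (algebraicClosure L Ω) := ⟨hkb, h1⟩
  have h3 : Normal E (algebraicClosure L Ω) := IsAlgClosure.normal E _
  have h4 : CharZero E := charZero_of_injective_algebraMap (algebraMap L E).injective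
  exact ⟨⟩

lemma fixE (z : algebraicClosure L Ω) (h : ∀ σ : algebraicClosure L Ω ≃ₐ[E] algebraicClosure L Ω, σ z = z) :
    ∃ e : E, algebraMap E (algebraicClosure L Ω) e = z := by
  have := isGaloisE (L := L) (E := E) (Ω := Ω)
  have h1 : z ∈ (⊥ : IntermediateField E (algebraicClosure L Ω)) :=
    mem_of_fixed _ fun σ _ => h σ
  exact IntermediateField.mem_bot.1 h1

variable [Algebra.IsAlgebraic F Ω]

/-- the class of an element -/
lemma exists_class {U : Set (ValuationSubring F)} {N : IntermediateField F Ω} (hN : Adm L U N)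
    (G : NSec L N) (z α : N)
    (hz : ∀ σ : algebraicClosure L Ω ≃ₐ[E] algebraicClosure L Ω, actE G σ z = z) (hz0 : z ≠ 0)
    (hα : α ^ 2 = z) :
    ∃ (κ : E) (β : N), κ ≠ 0 ∧ β ≠ 0 ∧
      (∀ σ : algebraicClosure L Ω ≃ₐ[E] algebraicClosure L Ω, actE G σ β = β) ∧
      cH hN (algebraMap E _ κ) * β ^ 2 = z := by
  have hac : IsAlgClosure L (algebraicClosure L Ω) := inferInstance
  have hkb : IsAlgClosed (algebraicClosure L Ω) := hac.1
  have hgal := isGaloisE (L := L) (E := E) (Ω := Ω)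
  have hα0 : α ≠ 0 := by
    rintro rfl
    rw [zero_pow (by norm_num)] at hα
    exact hz0 hα.symm
  obtain ⟨E₁, hE₁, hE₁'⟩ := actE_cont (E := E) G α
  obtain ⟨b, hb0, hb⟩ := exists_fixed_multiple (actE (E := E) G) (cH hN) (actE_const hN G) ⊤ α
    hα0 (by
      intro σ _
      have h1 : (actE G σ α / α) ^ 2 = cH hN 1 := by
        rw [div_pow, ← map_pow, hα, hz, div_self hz0, map_one]
      obtain ⟨ζ, hζ⟩ := root_mem (cH hN) (n := 2) (by norm_num) h1
      exact ⟨ζ, by rw [hζ, div_mul_cancel₀ _ hα0]⟩) E₁ hE₁'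
  obtain ⟨c', hc'⟩ := fixE (E := E) (b ^ 2) (by
    intro σ
    apply (cH hN).injective
    have h1 : cH hN (b ^ 2) = (cH hN b * α) ^ 2 / z := by
      rw [mul_pow, hα, map_pow, mul_div_cancel_right₀ _ hz0]
    rw [← actE_const hN G, h1, map_div₀, map_pow, hb σ (Subgroup.mem_top _), hz])
  have hc'0 : c' ≠ 0 := by
    rintro rfl
    rw [map_zero] at hc'
    exact pow_ne_zero 2 hb0 hc'.symm
  have hcb0 : cH hN b ≠ 0 := (_root_.map_ne_zero _).2 hb0
  refine ⟨c'⁻¹, cH hN b * α, inv_ne_zero hc'0, mul_ne_zero hcb0 hα0,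
    fun σ => hb σ (Subgroup.mem_top _), ?_⟩
  rw [map_inv₀, hc', map_inv₀, map_pow, mul_pow, hα, ← mul_assoc,
    inv_mul_cancel₀ (pow_ne_zero 2 hcb0), one_mul]

omit [Algebra.IsAlgebraic F Ω] in
/-- squares of fixed elements -/
lemma class_sq {U : Set (ValuationSubring F)} {N : IntermediateField F Ω} (hN : Adm L U N)
    (G : NSec L N) (w : N) (e : E)
    (hw : ∀ σ : algebraicClosure L Ω ≃ₐ[E] algebraicClosure L Ω, actE G σ w = w)
    (h : w ^ 2 = cH hN (algebraMap E _ e)) : ∃ w' : E, w' ^ 2 = e := by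
  have hac : IsAlgClosure L (algebraicClosure L Ω) := inferInstance
  have hkb : IsAlgClosed (algebraicClosure L Ω) := hac.1
  obtain ⟨a, rfl⟩ := root_mem (cH hN) (n := 2) (by norm_num) h
  obtain ⟨w', rfl⟩ := fixE (E := E) a (by
    intro σ
    apply (cH hN).injective
    rw [← actE_const hN G, hw])
  refine ⟨w', ?_⟩
  apply (algebraMap E (algebraicClosure L Ω)).injective
  apply (cH hN).injective
  rw [← h, map_pow, map_pow]

omit [Algebra F Ω] [Algebra.IsAlgebraic F Ω] [CharZero L] in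
/-- automorphisms of `E` extend -/
lemma extend_auto (σ : E ≃+* E) (hσ : ∀ x : L, σ (algebraMap L E x) = algebraMap L E x) :
    ∃ τ : algebraicClosure L Ω ≃ₐ[L] algebraicClosure L Ω, ∀ e : E,
      τ (algebraMap E _ e) = algebraMap E _ (σ e) := by
  have hac : IsAlgClosure L (algebraicClosure L Ω) := inferInstance
  have hkb : IsAlgClosed (algebraicClosure L Ω) := hac.1
  have h1 : Algebra.IsAlgebraic E (algebraicClosure L Ω) :=
    Algebra.IsAlgebraic.tower_top (K := L) E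
  have h2 : IsAlgClosure E (algebraicClosure L Ω) := ⟨hkb, h1⟩
  have h3 := IsAlgClosure.equivOfEquiv_algebraMap (algebraicClosure L Ω) (algebraicClosure L Ω) σ
  refine ⟨AlgEquiv.ofRingEquiv
    (f := IsAlgClosure.equivOfEquiv (algebraicClosure L Ω) (algebraicClosure L Ω) σ) ?_, h3⟩
  intro x
  rw [IsScalarTower.algebraMap_apply L E (algebraicClosure L Ω), h3, hσ]

/-- the conjugates of the classes -/
lemma class_conj {U : Set (ValuationSubring F)} {N : IntermediateField F Ω} (hN : Adm L U N)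
    (G : NSec L N) {X : Type*} (Θ : X → E) (x : F)
    (htr : ∀ a : algebraicClosure L Ω, (a : Ω) ≠ algebraMap F Ω x) (i₀ : X) (κ : X → E)
    (β : X → N) (hκ0 : ∀ i, κ i ≠ 0) (hβ0 : ∀ i, β i ≠ 0)
    (hβ : ∀ i, ∀ σ : algebraicClosure L Ω ≃ₐ[E] algebraicClosure L Ω, actE G σ (β i) = β i)
    (hκβ : ∀ i, cH hN (algebraMap E _ (κ i)) * β i ^ 2 =
      (algebraMap F (N) x - cH hN (algebraMap E _ (Θ i))) /
        (algebraMap F (N) x - cH hN (algebraMap E _ (Θ i₀))))
    (σ : E ≃+* E) (s : X ≃ X) (hσ : ∀ x : L, σ (algebraMap L E x) = algebraMap L E x)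
    (hs : ∀ i, σ (Θ i) = Θ (s i)) (i i' : X) :
    ∃ w : E, w ≠ 0 ∧ σ (κ i) * κ (s i') = σ (κ i') * κ (s i) * w ^ 2 := by
  obtain ⟨τ, hτ⟩ := extend_auto (L := L) (Ω := Ω) σ hσ
  set X' := algebraMap F (N) x with hX'
  have hne : ∀ i, X' - cH hN (algebraMap E _ (Θ i)) ≠ 0 := by
    intro i h
    refine htr (algebraMap E _ (Θ i)) ?_
    exact (congrArg (algebraMap (N) Ω) (sub_eq_zero.1 h)).symm
  have hGc : ∀ e : E, G.toHom τ (cH hN (algebraMap E _ e)) = cH hN (algebraMap E _ (σ e)) := by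
    intro e
    rw [← hτ]
    exact G.const hN τ _
  have hGX : G.toHom τ X' = X' := (G.toHom τ).commutes x
  have h1 : ∀ i, cH hN (algebraMap E _ (σ (κ i))) * (G.toHom τ (β i)) ^ 2 =
      (X' - cH hN (algebraMap E _ (Θ (s i)))) / (X' - cH hN (algebraMap E _ (Θ (s i₀)))) := by
    intro i
    have h2 := congrArg (G.toHom τ) (hκβ i)
    rw [map_mul, map_pow, map_div₀, map_sub, map_sub, hGc, hGc, hGc, hGX, hs, hs] at h2
    exact h2
  -- the fixed elements
  have hGβ : ∀ i, ∀ ρ : algebraicClosure L Ω ≃ₐ[E] algebraicClosure L Ω,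
      actE G ρ (G.toHom τ (β i)) = G.toHom τ (β i) := by
    intro i ρ
    have h2 : ∀ e : E, (τ⁻¹ * ρ.restrictScalars L * τ) (algebraMap E _ e) = algebraMap E _ e := by
      intro e
      show τ.symm (ρ (τ (algebraMap E _ e))) = _
      rw [hτ, ρ.commutes, ← hτ, τ.symm_apply_apply]
    let ρ' : algebraicClosure L Ω ≃ₐ[E] algebraicClosure L Ω :=
      AlgEquiv.ofRingEquiv (f := (τ⁻¹ * ρ.restrictScalars L * τ : algebraicClosure L Ω ≃ₐ[L]
        algebraicClosure L Ω).toRingEquiv) h2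
    have h3 : ρ'.restrictScalars L = τ⁻¹ * ρ.restrictScalars L * τ := by
      ext z
      rfl
    have h4 := hβ i ρ'
    rw [actE_apply, h3] at h4
    rw [actE_apply]
    have h5 : ρ.restrictScalars L * τ = τ * (τ⁻¹ * ρ.restrictScalars L * τ) := by group
    show (G.toHom (ρ.restrictScalars L) * G.toHom τ) (β i) = _
    rw [← map_mul, h5, map_mul]
    show G.toHom τ (G.toHom (τ⁻¹ * ρ.restrictScalars L * τ) (β i)) = _
    rw [h4]
  have hGβ0 : ∀ i, G.toHom τ (β i) ≠ 0 := fun i => (_root_.map_ne_zero _).2 (hβ0 i)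
  have hcκ : ∀ i, cH hN (algebraMap E (algebraicClosure L Ω) (κ i)) ≠ 0 := fun i =>
    (_root_.map_ne_zero _).2 ((_root_.map_ne_zero _).2 (hκ0 i))
  have hσκ0 : ∀ i, σ (κ i) ≠ 0 := fun i => (_root_.map_ne_zero _).2 (hκ0 i)
  have hcσκ : ∀ i, cH hN (algebraMap E (algebraicClosure L Ω) (σ (κ i))) ≠ 0 := fun i =>
    (_root_.map_ne_zero _).2 ((_root_.map_ne_zero _).2 (hσκ0 i))
  -- the relation
  have h2 : ∀ i, cH hN (algebraMap E _ (σ (κ i))) * (G.toHom τ (β i)) ^ 2 *
      (cH hN (algebraMap E _ (κ (s i₀))) * β (s i₀) ^ 2) =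
      cH hN (algebraMap E _ (κ (s i))) * β (s i) ^ 2 := by
    intro i
    rw [h1, hκβ, hκβ, div_mul_div_cancel₀ (hne _)]
  obtain ⟨w', hw'⟩ := class_sq (E := E) hN G
    (β (s i) * G.toHom τ (β i') / (β (s i') * G.toHom τ (β i)))
    (σ (κ i) * κ (s i') / (σ (κ i') * κ (s i))) (by
      intro ρ
      rw [map_div₀, map_mul, map_mul, hβ, hβ, hGβ, hGβ]) (by
      rw [map_div₀, map_mul, map_mul, map_div₀, map_mul, map_mul, div_pow, mul_pow, mul_pow,
        div_eq_div_iff (mul_ne_zero (pow_ne_zero _ (hβ0 _)) (pow_ne_zero _ (hGβ0 _)))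
          (mul_ne_zero (hcσκ _) (hcκ _))]
      have h3 := h2 i
      have h4 := h2 i'
      have h5 : cH hN (algebraMap E _ (κ (s i₀))) * β (s i₀) ^ 2 ≠ 0 :=
        mul_ne_zero (hcκ _) (pow_ne_zero _ (hβ0 _))
      apply mul_right_cancel₀ h5
      linear_combination (-(cH hN (algebraMap E _ (κ (s i'))) * β (s i') ^ 2)) * h3 +
        (cH hN (algebraMap E _ (κ (s i))) * β (s i) ^ 2) * h4)
  refine ⟨w', ?_, ?_⟩
  · rintro rfl
    rw [zero_pow (by norm_num)] at hw'
    exact div_ne_zero (mul_ne_zero (hσκ0 _) (hκ0 _)) (mul_ne_zero (hσκ0 _) (hκ0 _)) hw'.symm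
  · rw [hw', mul_div_cancel₀ _ (mul_ne_zero (hσκ0 _) (hκ0 _))]

end

end Run7.h846
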