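import Pool.Agent.Y157.PC.Unr
import Pool.Agent.Run7.h846.QCls

/-!
# Neighbourhoods of sections: enlarging the field by elements fixed by the section
-/

set_option autoImplicit false

namespace Run7.h846

open Pool.Agent.W620.SC Pool.Agent.Y157.PC Polynomial IntermediateField

section

variable {F Ω : Type} [Field F] [Field Ω] [Algebra F Ω]

/-- the valuation rings of `F'` above `U` -/
def aboveU (U : Set (ValuationSubring F)) (F' : IntermediateField F Ω) :
    Set (ValuationSubring F') := {O | O.comap (algebraMap F F') ∈ U}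

theorem unr_above (U : Set (ValuationSubring F)) (F' : IntermediateField F Ω)
    (hF' : F' ≤ unramified F Ω U) (z : Ω) :
    z ∈ unramified F' Ω (aboveU U F') ↔ z ∈ unramified F Ω U := by
  rw [mem_unramified, mem_unramified]
  constructor
  · intro h W hW σ hσ
    have hfix : ∀ a : F', σ (algebraMap F' Ω a) = algebraMap F' Ω a := fun a =>
      (mem_unramified.1 (hF' a.2)) W hW σ hσ
    let σ' : Ω ≃ₐ[F'] Ω := AlgEquiv.ofRingEquiv (f := (σ : Ω ≃+* Ω)) hfix
    exact h W hW σ' (mem_inertia W σ' (fun z => inertia_dec hσ z)
      (fun z hz => (inertia_spec hσ hz).2))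
  · intro h W hW σ hσ
    exact h W hW (σ.restrictScalars F) (mem_inertia W _ (fun z => inertia_dec hσ z)
      (fun z hz => (inertia_spec hσ hz).2))

end

section

variable {k F Ω : Type} [Field k] [Field F] [Field Ω] [Algebra k F] [Algebra F Ω] [Algebra k Ω]
  [IsScalarTower k F Ω] [CharZero k] [IsAlgClosed Ω] [Algebra.IsAlgebraic F Ω]

/-- a section is a section for the extensions of `F` which it fixes -/
theorem nbh (U : Set (ValuationSubring F)) (G : GSection k F Ω U) (F' : IntermediateField F Ω)
    (hF' : F' ≤ unramified F Ω U)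
    (hfix : ∀ σ, ∀ z : unramified F Ω U, (z : Ω) ∈ F' → G.toHom σ z = z) :
    Nonempty (GSection k F' Ω (aboveU U F')) := by
  classical
  have hFcz : CharZero F := charZero_of_injective_algebraMap (algebraMap k F).injective
  have hmem := unr_above U F' hF'
  let e : unramified F Ω U ≃+* unramified F' Ω (aboveU U F') :=
    { toFun := fun z => ⟨z.1, (hmem _).2 z.2⟩
      invFun := fun z => ⟨z.1, (hmem _).1 z.2⟩
      left_inv := fun z => rfl
      right_inv := fun z => rfl
      map_mul' := fun z w => rfl
      map_add' := fun z w => rfl }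
  have he : ∀ z, ((e z : unramified F' Ω (aboveU U F')) : Ω) = z := fun z => rfl
  have he' : ∀ z, ((e.symm z : unramified F Ω U) : Ω) = z := fun z => rfl
  let T : (algebraicClosure k Ω ≃ₐ[k] algebraicClosure k Ω) →*
      (unramified F' Ω (aboveU U F') ≃ₐ[F'] unramified F' Ω (aboveU U F')) :=
    { toFun := fun σ => AlgEquiv.ofRingEquiv
        (f := (e.symm.trans (G.toHom σ : unramified F Ω U ≃+* unramified F Ω U)).trans e) (by
          intro a
          show e (G.toHom σ (e.symm (algebraMap F' _ a))) = _
          rw [hfix σ (e.symm (algebraMap F' _ a)) a.2, e.apply_symm_apply])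
      map_one' := by
        ext z
        show ((e (G.toHom 1 (e.symm z)) : unramified F' Ω (aboveU U F')) : Ω) = z
        rw [map_one]
        rfl
      map_mul' := fun σ τ => by
        ext z
        show ((e (G.toHom (σ * τ) (e.symm z)) : unramified F' Ω (aboveU U F')) : Ω) =
          (e (G.toHom σ (e.symm (e (G.toHom τ (e.symm z))))) : unramified F' Ω (aboveU U F'))
        rw [map_mul, e.symm_apply_apply]
        rfl }
  have hT : ∀ σ z, (T σ z : Ω) = (G.toHom σ (e.symm z) : Ω) := fun σ z => rfl
  refine ⟨⟨T, ?_, fun σ c z hz => ?_⟩⟩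
  · refine continuous_of_continuousAt_one T ?_
    rw [ContinuousAt, map_one]
    intro S hS
    rw [krullTopology_mem_nhds_one_iff] at hS
    obtain ⟨L, hL, hLS⟩ := hS
    obtain ⟨α, hα⟩ := Field.exists_primitive_element F' L
    have hN : NSec k (unramified F Ω U) := ⟨G.toHom, G.cont, G.compat⟩
    obtain ⟨E, hE, hE'⟩ := NSec.fin (⟨G.toHom, G.cont, G.compat⟩ : NSec k (unramified F Ω U))
      (e.symm (α : unramified F' Ω (aboveU U F')))
    rw [Filter.mem_map, krullTopology_mem_nhds_one_iff]
    refine ⟨E, hE, fun σ hσ => hLS ?_⟩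
    have h1 : T σ (α : unramified F' Ω (aboveU U F')) = α := by
      apply Subtype.ext
      rw [hT, hE' σ hσ]
      rfl
    show T σ ∈ L.fixingSubgroup
    rw [IntermediateField.mem_fixingSubgroup_iff]
    intro x hx
    have h2 : (⟨x, hx⟩ : L) ∈ F'⟮α⟯ := by
      rw [hα]
      exact mem_top
    have h3 : ∀ y ∈ F'⟮α⟯, T σ (y : unramified F' Ω (aboveU U F')) =
        (y : unramified F' Ω (aboveU U F')) := by
      intro y hy
      induction hy using adjoin_induction with
      | mem z hz =>
        rw [Set.mem_singleton_iff] at hz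
        subst hz
        exact h1
      | algebraMap z => exact (T σ).commutes z
      | add y z _ _ hy hz =>
        show T σ ((y : unramified F' Ω (aboveU U F')) + z) = y + z
        rw [map_add, hy, hz]
      | inv y _ hy =>
        show T σ ((y : unramified F' Ω (aboveU U F'))⁻¹) = (y : unramified F' Ω (aboveU U F'))⁻¹
        rw [map_inv₀, hy]
      | mul y z _ _ hy hz =>
        show T σ ((y : unramified F' Ω (aboveU U F')) * z) = y * z
        rw [map_mul, hy, hz]
    exact h3 _ h2
  · rw [hT]
    exact G.compat σ c (e.symm z) hz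

end

end Run7.h846
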