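import Pool.Agent.Run7.h846.Eis

/-!
# Preliminaries
-/

set_option autoImplicit false

namespace Run7.h846

open NumberField IsDedekindDomain Polynomial

lemma exists_above_prime (M : Type) [Field M] [NumberField M] (r : ℕ) (hr : r.Prime) :
    ∃ v : HeightOneSpectrum (𝓞 M), (r : 𝓞 M) ∈ v.asIdeal := by
  have hr0 : (r : 𝓞 M) ≠ 0 := by exact_mod_cast hr.ne_zero
  have h1 : ¬ IsUnit (r : 𝓞 M) := by
    intro h
    have h6 := NumberField.isUnit_iff_norm.1 h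
    have h7 : ((RingOfIntegers.norm ℚ (r : 𝓞 M) : 𝓞 ℚ) : ℚ) = (r : ℚ) ^ Module.finrank ℚ M := by
      rw [RingOfIntegers.coe_norm, show (((r : 𝓞 M) : M)) = algebraMap ℚ M (r : ℚ) by simp,
        Algebra.norm_algebraMap]
    rw [h7, abs_of_nonneg (by positivity)] at h6
    have h8 : 0 < Module.finrank ℚ M := Module.finrank_pos
    have h9 : (r : ℚ) = 1 := by
      rw [pow_eq_one_iff_of_nonneg (by positivity) h8.ne'] at h6
      exact h6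
    have h10 : r = 1 := by exact_mod_cast h9
    exact absurd h10 hr.one_lt.ne'
  obtain ⟨P, hP, hPr⟩ := exists_max_ideal_of_mem_nonunits (a := (r : 𝓞 M)) h1
  refine ⟨⟨P, hP.isPrime, ?_⟩, hPr⟩
  rintro rfl
  exact hr0 hPr

/-- a monic integral form of a polynomial, after scaling the variable -/
theorem scale_monic {K : Type} [Field K] [NumberField K] (D : K[X]) (hD : D.eval 0 ≠ 0) :
    ∃ (c : 𝓞 K) (lam : K) (Dh : (𝓞 K)[X]), c ≠ 0 ∧ lam ≠ 0 ∧ Dh.Monic ∧ Dh.eval 0 ≠ 0 ∧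
      ∀ (L : Type) [Field L] (g : K →+* L) (x : L),
        D.eval₂ g x = g lam * Dh.eval₂ (g.comp (algebraMap (𝓞 K) K)) (g c * x) := by
  classical
  have hD0 : D ≠ 0 := by
    rintro rfl
    rw [eval_zero] at hD
    exact hD rfl
  let D1 : K[X] := C (D.leadingCoeff⁻¹) * D
  have hl : D.leadingCoeff ≠ 0 := leadingCoeff_ne_zero.2 hD0
  have hm1 : D1.Monic := monic_C_mul_of_mul_leadingCoeff_eq_one (inv_mul_cancel₀ hl)
  obtain ⟨⟨c, hc⟩, hcD⟩ := IsLocalization.exist_integer_multiples (nonZeroDivisors (𝓞 K))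
    (Finset.range D1.natDegree) (fun i => D1.coeff i)
  have hc0 : c ≠ 0 := nonZeroDivisors.ne_zero hc
  have hcK : (algebraMap (𝓞 K) K c) ≠ 0 := by
    rw [Ne, FaithfulSMul.algebraMap_eq_zero_iff]
    exact hc0
  let D2 : K[X] := D1.scaleRoots (algebraMap (𝓞 K) K c)
  have hm2 : D2.Monic := (monic_scaleRoots_iff _).2 hm1
  have hlift : D2 ∈ lifts (algebraMap (𝓞 K) K) := by
    rw [lifts_iff_coeff_lifts]
    intro i
    show (D1.scaleRoots (algebraMap (𝓞 K) K c)).coeff i ∈ _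
    rw [coeff_scaleRoots]
    rcases lt_trichotomy i D1.natDegree with h | h | h
    · obtain ⟨b, hb⟩ := hcD i (Finset.mem_range.2 h)
      refine ⟨b * c ^ (D1.natDegree - i - 1), ?_⟩
      rw [map_mul, map_pow, hb]
      show c • D1.coeff i * _ = _
      rw [Algebra.smul_def]
      have h2 : D1.natDegree - i = (D1.natDegree - i - 1) + 1 := by omega
      conv_rhs => rw [h2, pow_succ]
      ring
    · rw [h, hm1.coeff_natDegree, Nat.sub_self, pow_zero, one_mul]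
      exact ⟨1, map_one _⟩
    · rw [coeff_eq_zero_of_natDegree_lt h, zero_mul]
      exact ⟨0, map_zero _⟩
  obtain ⟨Dh, hDh, _, hmh⟩ := lifts_and_natDegree_eq_and_monic hlift hm2
  have key : ∀ (L : Type) [Field L] (g : K →+* L) (x : L),
      D.eval₂ g x = g (D.leadingCoeff * ((algebraMap (𝓞 K) K c) ^ D1.natDegree)⁻¹) *
        Dh.eval₂ (g.comp (algebraMap (𝓞 K) K)) (g c * x) := by
    intro L _ g x
    have h1 : Dh.eval₂ (g.comp (algebraMap (𝓞 K) K)) (g c * x) =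
        g (algebraMap (𝓞 K) K c) ^ D1.natDegree * D1.eval₂ g x := by
      rw [← eval₂_map, hDh]
      exact scaleRoots_eval₂_mul g x _
    have h2 : D1.eval₂ g x = g (D.leadingCoeff⁻¹) * D.eval₂ g x := by
      show (C (D.leadingCoeff⁻¹) * D).eval₂ g x = _
      rw [eval₂_mul, eval₂_C]
    rw [h1, h2, map_mul, map_inv₀, map_inv₀, map_pow]
    have h3 : g D.leadingCoeff ≠ 0 := by
      rw [Ne, map_eq_zero]
      exact hl
    have h4 : g (algebraMap (𝓞 K) K c) ≠ 0 := by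
      rw [Ne, map_eq_zero]
      exact hcK
    field_simp
  refine ⟨c, D.leadingCoeff * ((algebraMap (𝓞 K) K c) ^ D1.natDegree)⁻¹, Dh, hc0,
    mul_ne_zero hl (inv_ne_zero (pow_ne_zero _ hcK)), hmh, ?_, key⟩
  intro h
  have h1 := key K (RingHom.id K) 0
  rw [mul_zero, RingHom.id_comp, eval₂_at_zero, eval₂_at_zero, coeff_zero_eq_eval_zero,
    coeff_zero_eq_eval_zero, h, map_zero, mul_zero] at h1
  exact hD h1

/-- a common denominator -/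
theorem good_den {M : Type} [Field M] [NumberField M] (T : Finset M) :
    ∃ b : 𝓞 M, b ≠ 0 ∧ ∀ v : HeightOneSpectrum (𝓞 M), b ∉ v.asIdeal → ∀ x ∈ T,
      v.valuation M x ≤ 1 := by
  obtain ⟨⟨b, hb⟩, hbT⟩ := IsLocalization.exist_integer_multiples_of_finset
    (nonZeroDivisors (𝓞 M)) T
  refine ⟨b, nonZeroDivisors.ne_zero hb, ?_⟩
  intro v hv x hx
  obtain ⟨y, hy⟩ := hbT x hx
  have h1 : algebraMap (𝓞 M) M y = algebraMap (𝓞 M) M b * x := by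
    rw [hy]
    exact Algebra.smul_def b x
  have h2 : v.valuation M (algebraMap (𝓞 M) M y) ≤ 1 := v.valuation_le_one y
  rw [h1, map_mul] at h2
  have h3 : v.valuation M (algebraMap (𝓞 M) M b) = 1 := by
    apply le_antisymm (v.valuation_le_one b)
    rw [← not_lt, v.valuation_lt_one_iff_mem]
    exact hv
  rw [h3, one_mul] at h2
  exact h2

lemma finite_mem {M : Type} [Field M] [NumberField M] (b : 𝓞 M) (hb : b ≠ 0) :
    {v : HeightOneSpectrum (𝓞 M) | b ∈ v.asIdeal}.Finite := by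
  have h2 := Ideal.finite_factors (I := Ideal.span {b}) (by
    rw [Ne, Ideal.zero_eq_bot, Ideal.span_singleton_eq_bot]
    exact hb)
  refine h2.subset fun v hv => ?_
  rw [Set.mem_ofPred_eq, Ideal.dvd_span_singleton]
  exact hv

/-- large primes are coprime to a given element -/
lemma isCoprime_of_gt {K : Type} [Field K] [NumberField K] (b : 𝓞 K) (hb : b ≠ 0) (p : ℕ)
    (hp : p.Prime) (hlt : Ideal.absNorm (Ideal.span {b}) < p) : IsCoprime b (p : 𝓞 K) := by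
  have hn0 : Ideal.absNorm (Ideal.span {b}) ≠ 0 := by
    rw [Ne, Ideal.absNorm_eq_zero_iff, Ideal.span_singleton_eq_bot]
    exact hb
  have h1 : (Ideal.absNorm (Ideal.span {b}) : 𝓞 K) ∈ Ideal.span {b} := Ideal.absNorm_mem _
  rw [Ideal.mem_span_singleton] at h1
  obtain ⟨d, hd⟩ := h1
  have h3 : Nat.Coprime (Ideal.absNorm (Ideal.span {b})) p := by
    rw [Nat.coprime_comm, hp.coprime_iff_not_dvd]
    intro h4
    have := Nat.le_of_dvd (Nat.pos_of_ne_zero hn0) h4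
    omega
  obtain ⟨x, y, hxy⟩ := Nat.isCoprime_iff_coprime.2 h3
  refine ⟨x * d, y, ?_⟩
  have h6 : ((x * Ideal.absNorm (Ideal.span {b}) + y * p : ℤ) : 𝓞 K) = 1 := by
    rw [hxy]
    simp
  push_cast at h6
  rw [hd] at h6
  linear_combination h6

lemma notMem_of_gt {K : Type} [Field K] [NumberField K] (b : 𝓞 K) (hb : b ≠ 0) (p : ℕ)
    (hp : p.Prime) (hlt : Ideal.absNorm (Ideal.span {b}) < p) (v : HeightOneSpectrum (𝓞 K))
    (hv : (p : 𝓞 K) ∈ v.asIdeal) : b ∉ v.asIdeal := by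
  intro hbv
  obtain ⟨x, y, hxy⟩ := isCoprime_of_gt b hb p hp hlt
  have h5 : (1 : 𝓞 K) ∈ v.asIdeal := by
    rw [← hxy]
    exact v.asIdeal.add_mem (v.asIdeal.mul_mem_left _ hbv) (v.asIdeal.mul_mem_left _ hv)
  exact v.isPrime.ne_top ((Ideal.eq_top_iff_one _).2 h5)

/-- the Chinese remainder theorem -/
theorem crt_sq (Λ : Finset ℕ) (hΛ : ∀ ℓ ∈ Λ, ℓ.Prime) (g : ℕ → ℤ) :
    ∃ γ : ℤ, ∀ ℓ ∈ Λ, ((ℓ : ℤ) ^ 2) ∣ γ - g ℓ := by
  classical
  induction Λ using Finset.induction_on with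
  | empty => exact ⟨0, fun ℓ h => absurd h (Finset.notMem_empty ℓ)⟩
  | insert ℓ Λ hℓ ih =>
    obtain ⟨γ, hγ⟩ := ih fun ℓ' h => hΛ ℓ' (Finset.mem_insert_of_mem h)
    have hcop : IsCoprime ((ℓ : ℤ) ^ 2) (∏ ℓ' ∈ Λ, (ℓ' : ℤ) ^ 2) := by
      apply IsCoprime.prod_right
      intro ℓ' hℓ'
      apply IsCoprime.pow
      rw [Nat.isCoprime_iff_coprime]
      rw [Nat.coprime_primes (hΛ ℓ (Finset.mem_insert_self _ _)) (hΛ ℓ' (Finset.mem_insert_of_mem hℓ'))]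
      rintro rfl
      exact hℓ hℓ'
    obtain ⟨a, b, hab⟩ := hcop
    refine ⟨γ * (a * (ℓ : ℤ) ^ 2) + g ℓ * (b * ∏ ℓ' ∈ Λ, (ℓ' : ℤ) ^ 2), ?_⟩
    intro ℓ' hℓ'
    rcases Finset.mem_insert.1 hℓ' with rfl | h
    · refine ⟨γ * a - g ℓ' * a, ?_⟩
      linear_combination g ℓ' * hab
    · obtain ⟨k, hk⟩ := hγ ℓ' h
      obtain ⟨m, hm⟩ : (ℓ' : ℤ) ^ 2 ∣ ∏ ℓ' ∈ Λ, (ℓ' : ℤ) ^ 2 :=
        Finset.dvd_prod_of_mem (fun ℓ' : ℕ => (ℓ' : ℤ) ^ 2) h
      refine ⟨k - γ * (b * m) + g ℓ * (b * m), ?_⟩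
      have h1 : a * (ℓ : ℤ) ^ 2 = 1 - b * ∏ ℓ' ∈ Λ, (ℓ' : ℤ) ^ 2 := by linear_combination hab
      rw [h1, hm]
      linear_combination hk

/-- the choice of `γ` -/
theorem exists_gamma (q p : ℕ) (hp : p.Prime) (Λ : Finset ℕ)
    (hΛ : ∀ ℓ ∈ Λ, ℓ.Prime ∧ p + q < ℓ ∧ ∃ γ : ℤ, (ℓ : ℤ) ∣ γ ^ q - p) (hq : q.Prime) :
    ∃ γ : ℤ, ∀ ℓ ∈ Λ, (ℓ : ℤ) ∣ γ ^ q - p ∧ ¬ ((ℓ : ℤ) ^ 2) ∣ γ ^ q - p := by
  classical
  have h1 : ∀ ℓ : ℕ, ∃ g : ℤ, ℓ ∈ Λ → (ℓ : ℤ) ∣ g ^ q - p ∧ ¬ ((ℓ : ℤ) ^ 2) ∣ g ^ q - p := by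
    intro ℓ
    by_cases hℓ : ℓ ∈ Λ
    · obtain ⟨hℓp, hlt, γ, hγ⟩ := hΛ ℓ hℓ
      by_cases h2 : ((ℓ : ℤ) ^ 2) ∣ γ ^ q - p
      · refine ⟨γ + ℓ, fun _ => ?_⟩
        have h3 : ∃ k : ℤ, (γ + ℓ) ^ q = γ ^ q + q * γ ^ (q - 1) * ℓ + k * (ℓ : ℤ) ^ 2 := by
          obtain ⟨k, hk⟩ := Polynomial.powAddExpansion γ (ℓ : ℤ) q
          exact ⟨k, hk⟩
        obtain ⟨k, hk⟩ := h3
        have hpr : Prime (ℓ : ℤ) := Nat.prime_iff_prime_int.1 hℓp
        constructor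
        · rw [hk]
          obtain ⟨m, hm⟩ := hγ
          exact ⟨m + q * γ ^ (q - 1) + k * ℓ, by linear_combination hm⟩
        · intro h4
          obtain ⟨m, hm⟩ := h2
          obtain ⟨m', hm'⟩ := h4
          have h5 : (ℓ : ℤ) * ((q : ℤ) * γ ^ (q - 1)) = ℓ * (ℓ * (m' - m - k)) := by
            linear_combination hm' - hm - hk
          have hℓ0 : (ℓ : ℤ) ≠ 0 := hpr.ne_zero
          have h6 : (ℓ : ℤ) ∣ (q : ℤ) * γ ^ (q - 1) := ⟨_, mul_left_cancel₀ hℓ0 h5⟩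
          rcases hpr.dvd_or_dvd h6 with h7 | h7
          · have h8 := Nat.le_of_dvd hq.pos (Int.natCast_dvd_natCast.1 h7)
            omega
          · have h8 : (ℓ : ℤ) ∣ γ := hpr.dvd_of_dvd_pow h7
            have h9 : (ℓ : ℤ) ∣ p := by
              have h10 : (ℓ : ℤ) ∣ γ ^ q := dvd_pow h8 hq.ne_zero
              have h11 := dvd_sub h10 hγ
              rwa [sub_sub_cancel] at h11
            have h10 := Nat.le_of_dvd hp.pos (Int.natCast_dvd_natCast.1 h9)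
            omega
      · exact ⟨γ, fun _ => ⟨hγ, h2⟩⟩
    · exact ⟨0, fun h => absurd h hℓ⟩
  choose g hg using h1
  obtain ⟨γ, hγ⟩ := crt_sq Λ (fun ℓ h => (hΛ ℓ h).1) g
  refine ⟨γ, fun ℓ hℓ => ?_⟩
  have h2 : ((ℓ : ℤ) ^ 2) ∣ γ ^ q - (g ℓ) ^ q := (hγ ℓ hℓ).trans (sub_dvd_pow_sub_pow _ _ _)
  obtain ⟨h3, h4⟩ := hg ℓ hℓ
  constructor
  · have h5 : (ℓ : ℤ) ∣ γ ^ q - (g ℓ) ^ q := (dvd_pow_self _ two_ne_zero).trans h2
    have h6 : γ ^ q - (p : ℤ) = (γ ^ q - (g ℓ) ^ q) + ((g ℓ) ^ q - p) := by ring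
    rw [h6]
    exact dvd_add h5 h3
  · intro h5
    apply h4
    have h6 : (g ℓ) ^ q - (p : ℤ) = (γ ^ q - p) - (γ ^ q - (g ℓ) ^ q) := by ring
    rw [h6]
    exact dvd_sub h5 h2

end Run7.h846
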