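import Pool.Agent.Run7.h846.AlgP
import Pool.Agent.Run7.h846.Core
import Pool.Agent.Run7.h846.Loc
import Pool.Agent.Run7.h846.Pre
import Pool.Agent.Run7.h846.Tower

/-!
# The theorem over a number field, with all roots given
-/

set_option autoImplicit false

namespace Run7.h846

open NumberField IsDedekindDomain Polynomial

lemma val_one_of_mul {E : Type} [Field E] [NumberField E] (W : HeightOneSpectrum (𝓞 E)) {x y : E}
    (hx : W.valuation E x ≤ 1) (hy : W.valuation E y ≤ 1) (hxy : W.valuation E (x * y) = 1) :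
    W.valuation E x = 1 := by
  apply le_antisymm hx
  by_contra h
  push Not at h
  rw [map_mul] at hxy
  exact absurd hxy (mul_lt_one_of_nonneg_of_lt_one_left zero_le h hy).ne

lemma ord_exact {M : Type} [Field M] [NumberField M] (v : HeightOneSpectrum (𝓞 M)) (ℓ : ℕ)
    (hℓ : ℓ.Prime) (a : ℤ) (hℓv : (ℓ : 𝓞 M) ∈ v.asIdeal) (h1 : ord v (ℓ : M) = 1)
    (ha : (ℓ : ℤ) ∣ a) (ha2 : ¬ ((ℓ : ℤ) ^ 2) ∣ a) : ord v (a : M) = 1 := by
  obtain ⟨m, hm⟩ := ha
  have hℓm : ¬ (ℓ : ℤ) ∣ m := by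
    rintro ⟨k, rfl⟩
    exact ha2 ⟨k, by rw [hm]; ring⟩
  have hm0 : m ≠ 0 := by
    rintro rfl
    exact hℓm (dvd_zero _)
  have hpr : Prime (ℓ : ℤ) := Nat.prime_iff_prime_int.1 hℓ
  have hcop : IsCoprime (ℓ : ℤ) m := (hpr.coprime_iff_not_dvd).2 hℓm
  have hmv : (m : 𝓞 M) ∉ v.asIdeal := by
    intro h
    obtain ⟨x, y, hxy⟩ := hcop
    have h5 : (1 : 𝓞 M) ∈ v.asIdeal := by
      have h6 : ((x * ℓ + y * m : ℤ) : 𝓞 M) = 1 := by
        rw [hxy]
        simp
      rw [← h6]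
      push_cast
      exact v.asIdeal.add_mem (v.asIdeal.mul_mem_left _ hℓv) (v.asIdeal.mul_mem_left _ h)
    exact v.isPrime.ne_top ((Ideal.eq_top_iff_one _).2 h5)
  have hm0' : (m : 𝓞 M) ≠ 0 := by exact_mod_cast hm0
  have h2 : ord v ((m : 𝓞 M) : M) = 0 := by
    have h3 := ord_int_nonneg v (m : 𝓞 M)
    have h4 := (ord_int_pos_iff v hm0').not.2 hmv
    omega
  have h3 : ((m : 𝓞 M) : M) = (m : M) := by simp
  rw [h3] at h2
  rw [hm]
  push_cast
  rw [ord_mul v (by exact_mod_cast hℓ.ne_zero) (by exact_mod_cast hm0), h1, h2, add_zero]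

lemma coeffs_val {M : Type} [Field M] [NumberField M] (v : HeightOneSpectrum (𝓞 M)) (T : Finset M)
    (hT : ∀ x ∈ T, v.valuation M x ≤ 1) (P : M[X]) (hP : P.coeffs ⊆ T) (i : ℕ) :
    v.valuation M (P.coeff i) ≤ 1 := by
  by_cases h : P.coeff i = 0
  · rw [h, map_zero]
    exact zero_le
  · exact hT _ (hP (coeff_mem_coeffs h))

lemma good_den3 {M : Type} [Field M] [NumberField M] (a₁ a₂ a₃ a₄ : M) (P₁ P₂ : M[X]) {ι : Type}
    [Fintype ι] (Q₁ Q₂ : ι → M[X]) :
    ∃ b : 𝓞 M, b ≠ 0 ∧ ∀ v : HeightOneSpectrum (𝓞 M), b ∉ v.asIdeal →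
      (v.valuation M a₁ ≤ 1 ∧ v.valuation M a₂ ≤ 1 ∧ v.valuation M a₃ ≤ 1 ∧ v.valuation M a₄ ≤ 1) ∧
      (∀ n, v.valuation M (P₁.coeff n) ≤ 1) ∧ (∀ n, v.valuation M (P₂.coeff n) ≤ 1) ∧
      (∀ i n, v.valuation M ((Q₁ i).coeff n) ≤ 1) ∧ (∀ i n, v.valuation M ((Q₂ i).coeff n) ≤ 1) := by
  classical
  let T₁ : Finset M := {a₁, a₂, a₃, a₄}
  let T₂ : Finset M := Finset.univ.biUnion fun i => (Q₁ i).coeffs
  let T₃ : Finset M := Finset.univ.biUnion fun i => (Q₂ i).coeffs
  obtain ⟨b, hb0, hb⟩ := good_den (T₁ ∪ (P₁.coeffs ∪ (P₂.coeffs ∪ (T₂ ∪ T₃))))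
  refine ⟨b, hb0, fun v hv => ?_⟩
  have h1 : ∀ x ∈ T₁, v.valuation M x ≤ 1 := fun x hx => hb v hv x (Finset.mem_union_left _ hx)
  refine ⟨⟨h1 _ ?_, h1 _ ?_, h1 _ ?_, h1 _ ?_⟩, fun n => ?_, fun n => ?_, fun i n => ?_, fun i n => ?_⟩
  · simp [T₁]
  · simp [T₁]
  · simp [T₁]
  · simp [T₁]
  · refine coeffs_val v _ (hb v hv) P₁ ?_ n
    exact fun x hx => Finset.mem_union_right _ (Finset.mem_union_left _ hx)
  · refine coeffs_val v _ (hb v hv) P₂ ?_ n
    exact fun x hx => Finset.mem_union_right _ (Finset.mem_union_right _ (Finset.mem_union_left _ hx))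
  · refine coeffs_val v _ (hb v hv) (Q₁ i) ?_ n
    exact fun x hx => Finset.mem_union_right _ (Finset.mem_union_right _ (Finset.mem_union_right _
      (Finset.mem_union_left _ (Finset.mem_biUnion.2 ⟨i, Finset.mem_univ _, hx⟩))))
  · refine coeffs_val v _ (hb v hv) (Q₂ i) ?_ n
    exact fun x hx => Finset.mem_union_right _ (Finset.mem_union_right _ (Finset.mem_union_right _
      (Finset.mem_union_right _ (Finset.mem_biUnion.2 ⟨i, Finset.mem_univ _, hx⟩))))

theorem nf {K M : Type} [Field K] [NumberField K] [Field M] [NumberField M] [Algebra K M]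
    (q : ℕ) (hq : q.Prime) (ζ : M) (hζ : IsPrimitiveRoot ζ q)
    (Ω : Type) [Fintype Ω] (h3 : 3 ≤ Fintype.card Ω) (hqn : q ∣ Fintype.card Ω)
    (θ : Ω → M[X]) (f : K[X][X]) (hf : f.map (mapRingHom (algebraMap K M)) = ∏ i, (X - C (θ i)))
    (s : Gal(M/K) → Ω ≃ Ω) (hs : ∀ (σ : Gal(M/K)) (i : Ω), (θ i).map (σ : M →+* M) = θ (s σ i))
    (D : K[X]) (hD0 : D.eval 0 ≠ 0)
    (hθD : ∀ i j, i ≠ j → (θ i - θ j) ∣ D.map (algebraMap K M))
    (h₁ : K[X]) (hh₁ : h₁ ∣ D) (e : ℕ) (he : ¬ q ∣ e) :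
    (∃ θ₀ : Ω, ∀ σ, s σ θ₀ = θ₀) ∨
    ∃ (L : Type) (_ : Field L) (_ : NumberField L) (_ : Algebra K L) (s₀ : L),
      s₀ ≠ 0 ∧ D.eval₂ (algebraMap K L) s₀ ≠ 0 ∧
      (∀ u : L, s₀ ^ e * h₁.eval₂ (algebraMap K L) s₀ * u ^ q ≠ 1) ∧
      (∀ x y : L, s₀ ^ e * h₁.eval₂ (algebraMap K L) s₀ * y ^ q ≠
        (f.map (eval₂RingHom (algebraMap K L) s₀)).eval x) := by
  classical
  by_cases hfix : ∃ θ₀ : Ω, ∀ σ, s σ θ₀ = θ₀
  · exact Or.inl hfix
  right
  obtain ⟨c, lam, Dh, hc0, hlam, hDhm, hDh0, hDh⟩ := scale_monic D hD0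
  obtain ⟨k₁, hk₁⟩ := hh₁
  have hθD' : ∀ i j, ∃ k : M[X], i ≠ j → D.map (algebraMap K M) = (θ i - θ j) * k := by
    intro i j
    by_cases hij : i ≠ j
    · obtain ⟨k, hk⟩ := hθD i j hij
      exact ⟨k, fun _ => hk⟩
    · exact ⟨0, fun h => absurd h hij⟩
  choose k hk using hθD'
  let α := algebraMap K M
  obtain ⟨b, hb0, hb⟩ := good_den3 (α (c : K))⁻¹ (α lam) (α lam)⁻¹
    (α ((Dh.eval 0 : 𝓞 K) : K))⁻¹ (h₁.map α) (k₁.map α) (fun p : Ω × Ω => θ p.1 - θ p.2)
    (fun p : Ω × Ω => k p.1 p.2)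
  obtain ⟨N1, hN1⟩ := exists_unram M
  obtain ⟨p, hp1, hp⟩ := Nat.exists_infinite_primes (N1 + Ideal.absNorm (Ideal.span {b}) +
    Ideal.absNorm (Ideal.span {Dh.eval 0}) + q + 1)
  obtain ⟨v₁, hv₁p⟩ := exists_above_prime M p hp
  have hv₁ : ord v₁ (p : M) = 1 := hN1 p hp (by omega) v₁ hv₁p
  have hbv₁ : b ∉ v₁.asIdeal := notMem_of_gt b hb0 p hp (by omega) v₁ hv₁p
  obtain ⟨Λ, hΛne, hΛ, hcore⟩ := core q hq ζ hζ {v | b ∈ v.asIdeal} (finite_mem b hb0) p hp
    (p + q + N1)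
  obtain ⟨γ, hγ⟩ := exists_gamma q p hp Λ (fun ℓ hℓ => by
    obtain ⟨h1, h2, h4⟩ := hΛ ℓ hℓ
    exact ⟨h1, by omega, h4⟩) hq
  let δ : ℤ := γ ^ q - p
  have hordδ : ∀ ℓ ∈ Λ, ∀ v : HeightOneSpectrum (𝓞 M), (ℓ : 𝓞 M) ∈ v.asIdeal → ord v (δ : M) = 1 := by
    intro ℓ hℓ v hv
    obtain ⟨h1, h2, _⟩ := hΛ ℓ hℓ
    exact ord_exact v ℓ h1 δ hv (hN1 ℓ h1 (by omega) v hv) (hγ ℓ hℓ).1 (hγ ℓ hℓ).2
  have hδ0 : (δ : M) ≠ 0 := by
    obtain ⟨ℓ, hℓ⟩ := hΛne
    intro h
    have h1 : δ = 0 := by exact_mod_cast h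
    have h2 := (hγ ℓ hℓ).2
    apply h2
    show _ ∣ δ
    rw [h1]
    exact dvd_zero _
  have hδ : ∀ x : M, x ^ q ≠ (δ : M) := by
    intro x hx
    obtain ⟨ℓ, hℓ⟩ := hΛne
    obtain ⟨v, hv⟩ := exists_above_prime M ℓ (hΛ ℓ hℓ).1
    have h1 := hordδ ℓ hℓ v hv
    rw [← hx, ord_pow] at h1
    have h2 : (q : ℤ) ∣ 1 := ⟨_, h1.symm⟩
    have h5 := Int.eq_one_of_dvd_one (by positivity) h2
    have := hq.one_lt
    omega
  -- the auxiliary polynomial
  have hpK0 : (p : 𝓞 K) ≠ 0 := by exact_mod_cast hp.ne_zero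
  have hfinq : Finite (𝓞 K ⧸ Ideal.span {(p : 𝓞 K)}) := by
    apply Ring.HasFiniteQuotients.finiteQuotient
    rw [Ne, Ideal.span_singleton_eq_bot]
    exact hpK0
  obtain ⟨N, S, R, hDN, hRN, hNS⟩ := algP (𝓞 K) Dh hDhm (p : 𝓞 K) hfinq
    (isCoprime_of_gt (Dh.eval 0) hDh0 p hp (by omega))
  have hcM0 : α (c : K) ≠ 0 := by
    rw [Ne, map_eq_zero]
    exact_mod_cast hc0
  have hlM0 : α lam ≠ 0 := by
    rw [Ne, map_eq_zero]
    exact hlam
  have hdM0 : α ((Dh.eval 0 : 𝓞 K) : K) ≠ 0 := by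
    rw [Ne, map_eq_zero]
    exact_mod_cast hDh0
  have hone : ∀ (E : Type) [Field E] [NumberField E] [Algebra M E] (W : HeightOneSpectrum (𝓞 E))
      (x : M), x ≠ 0 → W.valuation E (algebraMap M E x) ≤ 1 →
      W.valuation E (algebraMap M E x⁻¹) ≤ 1 → W.valuation E (algebraMap M E x) = 1 := by
    intro E _ _ _ W x hx h1 h2
    apply val_one_of_mul W h1 h2
    rw [← map_mul, mul_inv_cancel₀ hx, map_one, map_one]
  have hintE : ∀ (E : Type) [Field E] [NumberField E] [Algebra M E] (W : HeightOneSpectrum (𝓞 E))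
      (x : 𝓞 K), W.valuation E (algebraMap M E (α (x : K))) ≤ 1 := by
    intro E _ _ _ W x
    exact val_int_le W (isInt_map (((algebraMap M E).comp α).comp (algebraMap (𝓞 K) K))
      (RingOfIntegers.isIntegral x))
  have hv₁d : v₁.valuation M (algebraMap K M ((Dh.eval 0 : 𝓞 K) : K)) = 1 := by
    have h1 : v₁.valuation M (α ((Dh.eval 0 : 𝓞 K) : K)) ≤ 1 :=
      val_int_le v₁ (isInt_map (α.comp (algebraMap (𝓞 K) K)) (RingOfIntegers.isIntegral _))
    exact val_one_of_mul v₁ h1 (hb v₁ hbv₁).1.2.2.2 (by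
      rw [mul_inv_cancel₀ hdM0, map_one])
  obtain ⟨L, _, _, _, E₁, _, _, _, E, _, _, _, _, _, j, s', ρ, hj, hnorm, hρ, hnρ, hgal, hfr, haut, hW⟩ :=
    tower q hq ⟨ζ, hζ⟩ p γ δ (by show γ ^ q - (γ ^ q - p) = p; ring) hδ Dh S R N hDN hRN hNS hDh0 v₁
      hv₁ hp.ne_zero hv₁d
  let g : K →+* L := algebraMap K L
  have hjg : ∀ x : K, j (g x) = algebraMap M E (α x) := fun x => RingHom.congr_fun hj x
  have hjgr : j.comp g = (algebraMap M E).comp α := hj
  have hgc : g (c : K) ≠ 0 := by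
    rw [Ne, map_eq_zero]
    exact_mod_cast hc0
  let s₀ : L := s' * (g (c : K))⁻¹
  have hgcs : g (c : K) * s₀ = s' := by
    show g (c : K) * (s' * (g (c : K))⁻¹) = s'
    field_simp
  let Θ : Ω → E := fun i => (θ i).eval₂ (algebraMap M E) (j s₀)
  -- good primes
  have hgood : ∀ (W : HeightOneSpectrum (𝓞 E)) (v : HeightOneSpectrum (𝓞 M)), Over W v →
      b ∉ v.asIdeal → W.valuation E (j s₀) ≤ 1 ∧ ord W (j s₀) = ord W (j s') ∧
      W.valuation E (j (h₁.eval₂ g s₀)) = 1 ∧ W.valuation E (j (D.eval₂ g s₀)) = 1 ∧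
      (∀ i i', i ≠ i' → W.valuation E (Θ i - Θ i') = 1) ∧ W.valuation E (j s') ≤ 1 := by
    intro W v hWv hbv
    obtain ⟨⟨hb1, hb2, hb3, hb4⟩, hb5, hb6, hb7, hb8⟩ := hb v hbv
    have hcE : W.valuation E (algebraMap M E (α (c : K))) = 1 :=
      hone E W _ hcM0 (hintE E W c) (over_val_le hWv hb1)
    have hlE : W.valuation E (algebraMap M E (α lam)) = 1 :=
      hone E W _ hlM0 (over_val_le hWv hb2) (over_val_le hWv hb3)
    have hdE : W.valuation E (algebraMap M E (α ((Dh.eval 0 : 𝓞 K) : K))) = 1 :=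
      hone E W _ hdM0 (hintE E W _) (over_val_le hWv hb4)
    obtain ⟨h1, h2⟩ := hW W (by
      have := hjg ((Dh.eval 0 : 𝓞 K) : K)
      show W.valuation E (j (g ((Dh.eval 0 : 𝓞 K) : K))) = 1
      rw [this]
      exact hdE)
    have hjs₀ : j s' = algebraMap M E (α (c : K)) * j s₀ := by
      rw [← hjg, ← map_mul, hgcs]
    have hvs₀ : W.valuation E (j s₀) ≤ 1 := by
      rw [hjs₀, map_mul, hcE, one_mul] at h1
      exact h1
    have hDs₀ : W.valuation E (j (D.eval₂ g s₀)) = 1 := by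
      rw [hDh L g s₀, hgcs, map_mul, map_mul, hjg, hlE, one_mul]
      exact h2
    have hevalM : ∀ P : K[X], j (P.eval₂ g s₀) = (P.map α).eval₂ (algebraMap M E) (j s₀) := by
      intro P
      rw [hom_eval₂, hjgr, eval₂_map]
    have hle : ∀ P : M[X], (∀ n, v.valuation M (P.coeff n) ≤ 1) →
        W.valuation E (P.eval₂ (algebraMap M E) (j s₀)) ≤ 1 := by
      intro P hP
      apply eval_val_le (algebraMap M E) P _ (j s₀) hvs₀
      intro i
      exact over_val_le hWv (hP i)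
    refine ⟨hvs₀, ?_, ?_, hDs₀, ?_, h1⟩
    · by_cases hz : j s₀ = 0
      · rw [hjs₀, hz, mul_zero]
      · have hcE0 : algebraMap M E (α (c : K)) ≠ 0 := by
          rw [Ne, map_eq_zero]
          exact hcM0
        rw [hjs₀, ord_mul W hcE0 hz, (ord_eq_zero_iff W hcE0).2 hcE, zero_add]
    · apply val_one_of_mul W (y := j (k₁.eval₂ g s₀))
      · rw [hevalM]
        exact hle _ hb5
      · rw [hevalM]
        exact hle _ hb6
      · rw [← map_mul, ← eval₂_mul, ← hk₁]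
        exact hDs₀
    · intro i i' hii'
      have h5 : Θ i - Θ i' = (θ i - θ i').eval₂ (algebraMap M E) (j s₀) := by
        rw [eval₂_sub]
      rw [h5]
      apply val_one_of_mul W (y := (k i i').eval₂ (algebraMap M E) (j s₀))
      · exact hle _ (hb7 (i, i'))
      · exact hle _ (hb8 (i, i'))
      · rw [← eval₂_mul, ← hk i i' hii', ← hevalM]
        exact hDs₀
  -- a prime above `v₁` at which `s'` is a uniformiser
  have hjs'0 : j s' ≠ 0 := by
    intro h
    rw [h, neg_zero, Algebra.norm_zero] at hnorm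
    exact hp.ne_zero (by exact_mod_cast hnorm.symm)
  have hsumv : ∀ v : HeightOneSpectrum (𝓞 M), ord v (p : M) =
      ∑ W ∈ above E v, (fdeg M W : ℤ) * ord W (j s') := by
    intro v
    rw [← hnorm, ord_norm v _ (neg_ne_zero.2 hjs'0)]
    refine Finset.sum_congr rfl fun W _ => ?_
    rw [ord_neg]
  have hjs'nn : ∀ (W : HeightOneSpectrum (𝓞 E)) (v : HeightOneSpectrum (𝓞 M)), Over W v →
      b ∉ v.asIdeal → 0 ≤ ord W (j s') := fun W v hWv hbv =>
    (ord_nonneg_iff W hjs'0).2 (hgood W v hWv hbv).2.2.2.2.2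
  have hfpos : ∀ W : HeightOneSpectrum (𝓞 E), (0 : ℤ) < fdeg M W := fun W => by
    exact_mod_cast fdeg_pos W
  obtain ⟨Ws, hWs, hWs1, hWs2⟩ := sum_eq_one (above E v₁)
    (fun W => (fdeg M W : ℤ) * ord W (j s')) (fun W hW => mul_nonneg (hfpos W).le
      (hjs'nn W v₁ (mem_above.1 hW) hbv₁)) (by rw [← hsumv, hv₁])
  have hWsord : ord Ws (j s') = 1 ∧ (fdeg M Ws : ℤ) = 1 := by
    have h1 := hfpos Ws
    have h2 := hjs'nn Ws v₁ (mem_above.1 hWs) hbv₁

    rcases lt_or_eq_of_le h2 with h4 | h4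
    · constructor <;> nlinarith
    · rw [← h4, mul_zero] at hWs1
      omega
  have hjs₀0 : j s₀ ≠ 0 := by
    intro h
    apply hjs'0
    rw [← hgcs, map_mul, h, mul_zero]
  have hs₀0 : s₀ ≠ 0 := by
    rintro h
    rw [h, map_zero] at hjs₀0
    exact hjs₀0 rfl
  have hval_ne : ∀ (W : HeightOneSpectrum (𝓞 E)) (x : E), W.valuation E x = 1 → x ≠ 0 := by
    intro W x hx h
    rw [h, map_zero] at hx
    exact zero_ne_one hx
  have hh0 : j (h₁.eval₂ g s₀) ≠ 0 := hval_ne Ws _ (hgood Ws v₁ (mem_above.1 hWs) hbv₁).2.2.1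
  have hDs0 : j (D.eval₂ g s₀) ≠ 0 := hval_ne Ws _ (hgood Ws v₁ (mem_above.1 hWs) hbv₁).2.2.2.1
  let t : L := s₀ ^ e * h₁.eval₂ g s₀
  have hjt : j t = (j s₀) ^ e * j (h₁.eval₂ g s₀) := by
    show j (s₀ ^ e * h₁.eval₂ g s₀) = _
    rw [map_mul, map_pow]
  have hjt0 : j t ≠ 0 := by
    rw [hjt]
    exact mul_ne_zero (pow_ne_zero _ hjs₀0) hh0
  have hordt : ∀ (W : HeightOneSpectrum (𝓞 E)) (v : HeightOneSpectrum (𝓞 M)), Over W v →
      b ∉ v.asIdeal → ord W (j t) = e * ord W (j s') := by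
    intro W v hWv hbv
    obtain ⟨_, h2, h4, _, _, _⟩ := hgood W v hWv hbv
    rw [hjt, ord_mul W (pow_ne_zero _ hjs₀0) hh0, ord_pow, h2, (ord_eq_zero_iff W hh0).2 h4, add_zero]
  refine ⟨L, inferInstance, inferInstance, inferInstance, s₀, hs₀0, ?_, ?_, ?_⟩
  · intro h
    apply hDs0
    show j (D.eval₂ (algebraMap K L) s₀) = 0
    rw [h, map_zero]
  · -- no point at infinity
    intro u hu
    have hu' : j t * (j u) ^ q = 1 := by
      rw [← map_pow, ← map_mul]
      show j (s₀ ^ e * h₁.eval₂ (algebraMap K L) s₀ * u ^ q) = 1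
      rw [hu, map_one]
    have hju0 : j u ≠ 0 := by
      intro h
      rw [h, zero_pow hq.ne_zero, mul_zero] at hu'
      exact zero_ne_one hu'
    have h1 := congrArg (ord Ws) hu'
    rw [ord_mul Ws hjt0 (pow_ne_zero _ hju0), ord_pow, ord_one, hordt Ws v₁ (mem_above.1 hWs) hbv₁,
      hWsord.1, mul_one] at h1
    apply he
    have h2 : (q : ℤ) ∣ (e : ℤ) := ⟨-ord Ws (j u), by linear_combination h1⟩
    exact_mod_cast h2
  · -- no affine point
    intro x y hxy
    have hEq : j t * (j y) ^ q = ∏ i, (j x - Θ i) := by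
      have h1 : j ((f.map (eval₂RingHom g s₀)).eval x) = ∏ i, (j x - Θ i) := by
        have h2 : j ((f.map (eval₂RingHom g s₀)).eval x) =
            ((f.map (mapRingHom α)).map (eval₂RingHom (algebraMap M E) (j s₀))).eval (j x) := by
          rw [eval_map, eval_map, eval₂_map, hom_eval₂]
          congr 1
          ext z
          · show j (eval₂ g s₀ (C z)) = eval₂ (algebraMap M E) (j s₀) ((C z).map α)
            rw [eval₂_C, map_C, eval₂_C]
            exact hjg z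
          · show j (eval₂ g s₀ X) = eval₂ (algebraMap M E) (j s₀) (X.map α)
            rw [eval₂_X, map_X, eval₂_X]
        rw [h2, hf, Polynomial.map_prod, eval_prod]
        refine Finset.prod_congr rfl fun i _ => ?_
        rw [Polynomial.map_sub, map_X, map_C, eval_sub, eval_X, eval_C]
        rfl
      rw [← h1, ← map_pow, ← map_mul]
      exact congrArg j hxy
    -- conjugation
    have hΘσ : ∀ σ : Gal(M/K), ∃ σ' : E ≃+* E, (∀ x : M, σ' (algebraMap M E x) = algebraMap M E (σ x)) ∧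
        (∀ x : L, σ' (j x) = j x) ∧ ∀ i, σ' (Θ i) = Θ (s σ i) := by
      intro σ
      obtain ⟨σ', h1, h2⟩ := haut σ
      refine ⟨σ', h1, h2, fun i => ?_⟩
      show (σ' : E →+* E) ((θ i).eval₂ (algebraMap M E) (j s₀)) =
        (θ (s σ i)).eval₂ (algebraMap M E) (j s₀)
      rw [hom_eval₂, ← hs σ i, eval₂_map]
      congr 1
      · ext z
        exact h1 z
      · exact h2 s₀
    have hΘne : ∀ i i', i ≠ i' → Θ i - Θ i' ≠ 0 := fun i i' hii' =>
      hval_ne Ws _ ((hgood Ws v₁ (mem_above.1 hWs) hbv₁).2.2.2.2.1 i i' hii')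
    by_cases hz : ∃ i, j x - Θ i = 0
    · obtain ⟨i, hi⟩ := hz
      apply hfix
      refine ⟨i, fun σ => ?_⟩
      obtain ⟨σ', _, h2, h4⟩ := hΘσ σ
      by_contra hne
      apply hΘne _ _ hne
      rw [← h4 i]
      have h5 : Θ i = j x := (sub_eq_zero.1 hi).symm
      rw [h5, h2, sub_self]
    · push Not at hz
      have hy0 : j y ≠ 0 := by
        intro h
        rw [h, zero_pow hq.ne_zero, mul_zero] at hEq
        obtain ⟨i, _, hi⟩ := Finset.prod_eq_zero_iff.1 hEq.symm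
        exact hz i hi
      have hne : Nonempty Ω := Fintype.card_pos_iff.1 (by omega)
      -- local analysis at the good primes
      have hlocal : ∀ (W : HeightOneSpectrum (𝓞 E)) (v : HeightOneSpectrum (𝓞 M)), Over W v →
          b ∉ v.asIdeal → ∃ i₀, ∀ i, i ≠ i₀ →
            (q : ℤ) ∣ ord W (j x - Θ i₀) - ord W (j x - Θ i) - e * ord W (j s') := by
        intro W v hWv hbv
        rw [← hordt W v hWv hbv]
        apply loc W q hqn Θ _ (j t) (j x) (j y) hjt0 hy0 hz hEq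
        intro i i' hii'
        exact ⟨hΘne i i' hii', (ord_eq_zero_iff W (hΘne i i' hii')).2
          ((hgood W v hWv hbv).2.2.2.2.1 i i' hii')⟩
      let a : Ω → M := fun i => Algebra.norm M (j x - Θ i)
      have ha0 : ∀ i, a i ≠ 0 := fun i => Algebra.norm_ne_zero_iff.2 (hz i)
      have hasum : ∀ (v : HeightOneSpectrum (𝓞 M)) (i : Ω), ord v (a i) =
          ∑ W ∈ above E v, (fdeg M W : ℤ) * ord W (j x - Θ i) := fun v i => ord_norm v _ (hz i)
      have hΩ3 : 3 ≤ Nat.card Ω := by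
        rw [Nat.card_eq_fintype_card]
        exact h3
      -- the local component at `v₁`
      obtain ⟨θ₀, hθ₀⟩ := hlocal Ws v₁ (mem_above.1 hWs) hbv₁
      apply hfix
      refine ⟨θ₀, fun σ => ?_⟩
      refine hcore Ω hΩ3 a ha0 ?_ ?_ v₁ θ₀ (e : ℤ) (by exact_mod_cast he) ?_ (σ : M ≃+* M) (s σ) ?_
      · -- outside `p`
        intro v hv hpv i i'
        have hbv : b ∉ v.asIdeal := hv
        have hp0 : (p : 𝓞 M) ≠ 0 := by exact_mod_cast hp.ne_zero
        have hordp : ord v (p : M) = 0 := by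
          have h1 : ((p : 𝓞 M) : M) = (p : M) := by simp
          rw [← h1]
          have h2 := ord_int_nonneg v (p : 𝓞 M)
          have h4 := (ord_int_pos_iff v hp0).not.2 hpv
          omega
        have hzero : ∀ W ∈ above E v, ord W (j s') = 0 := by
          intro W hW
          have h1 := hsumv v
          rw [hordp] at h1
          have h2 := (Finset.sum_eq_zero_iff_of_nonneg fun W hW => mul_nonneg (hfpos W).le
            (hjs'nn W v (mem_above.1 hW) hbv)).1 h1.symm W hW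
          rcases mul_eq_zero.1 h2 with h4 | h4
          · exact absurd h4 (hfpos W).ne'
          · exact h4
        rw [hasum, hasum, ← Finset.sum_sub_distrib]
        apply Finset.dvd_sum
        intro W hW
        obtain ⟨i₀, hi₀⟩ := hlocal W v (mem_above.1 hW) hbv
        rw [hzero W hW, mul_zero] at hi₀
        have hall : ∀ i, (q : ℤ) ∣ ord W (j x - Θ i₀) - ord W (j x - Θ i) := by
          intro i
          by_cases h : i = i₀
          · rw [h, sub_self]
            exact dvd_zero _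
          · have := hi₀ i h
            rwa [sub_zero] at this
        have h1 : (fdeg M W : ℤ) * ord W (j x - Θ i) - fdeg M W * ord W (j x - Θ i') =
            fdeg M W * ((ord W (j x - Θ i₀) - ord W (j x - Θ i')) -
              (ord W (j x - Θ i₀) - ord W (j x - Θ i))) := by ring
        rw [h1]
        exact Dvd.dvd.mul_left (dvd_sub (hall i') (hall i)) _
      · -- the primes of `Λ`
        intro ℓ hℓ φ i i' c' w hw0 haii hφc
        have hℓp := (hΛ ℓ hℓ).1
        have hfact : Fact ℓ.Prime := ⟨hℓp⟩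
        have hker : (RingHom.ker φ).IsPrime := RingHom.ker_isPrime φ
        have hℓ0 : (ℓ : 𝓞 M) ≠ 0 := by exact_mod_cast hℓp.ne_zero
        have hℓker : (ℓ : 𝓞 M) ∈ RingHom.ker φ := by
          rw [RingHom.mem_ker, map_natCast, CharP.cast_eq_zero]
        have hkerne : RingHom.ker φ ≠ ⊥ := by
          intro h
          rw [h] at hℓker
          exact hℓ0 hℓker
        let v : HeightOneSpectrum (𝓞 M) := ⟨RingHom.ker φ, hker, hkerne⟩
        have hδv := hordδ ℓ hℓ v hℓker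
        let ε : M := (-1) ^ q
        have hε : ord v ε = 0 := by
          show ord v ((-1) ^ q) = 0
          rw [ord_pow, ord_neg, ord_one, mul_zero]
        have hε0 : ε ≠ 0 := pow_ne_zero _ (neg_ne_zero.2 one_ne_zero)
        obtain ⟨W, hWv, huniq, hfW, hram⟩ := tot (M := M) (E := E₁) (v := v) q (-ρ) (ε * δ) (by
            rw [neg_pow, hρ, map_mul, map_intCast]
            show _ = algebraMap M E₁ ((-1) ^ q) * _
            rw [map_pow, map_neg, map_one]) (by
            rw [ord_mul v hε0 hδ0, hε, hδv, zero_add]) (mul_ne_zero hε0 hδ0) (by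
            rw [hnρ]
            push_cast
            rw [ord_neg]
            exact hδv)
        have hgal' : IsGalois M E₁ := hgal
        have hzi : (j x - Θ i) / (j x - Θ i') ≠ 0 := div_ne_zero (hz i) (hz i')
        have hnu : Algebra.norm M (Algebra.norm E₁ ((j x - Θ i) / (j x - Θ i'))) = c' * w ^ q := by
          rw [Algebra.norm_norm]
          have h1 : Algebra.norm M ((j x - Θ i) / (j x - Θ i')) * a i' = a i := by
            show _ * Algebra.norm M (j x - Θ i') = Algebra.norm M (j x - Θ i)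
            rw [← map_mul, div_mul_cancel₀ _ (hz i')]
          rw [haii] at h1
          apply mul_right_cancel₀ (ha0 i')
          rw [h1]
          ring
        exact normres hWv huniq hfW q hram hfr ℓ φ rfl _ (Algebra.norm_ne_zero_iff.2 hzi) c' w hw0
          hnu hφc
      · -- at `v₁`
        intro i hi
        rw [hasum, hasum, ← Finset.sum_sub_distrib, ← Finset.add_sum_erase _ _ hWs]
        have h1 : (fdeg M Ws : ℤ) = 1 := hWsord.2
        have h2 := hθ₀ i hi
        rw [hWsord.1, mul_one] at h2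
        have h4 : (q : ℤ) ∣ ∑ W ∈ (above E v₁).erase Ws, ((fdeg M W : ℤ) * ord W (j x - Θ θ₀) -
            fdeg M W * ord W (j x - Θ i)) := by
          apply Finset.dvd_sum
          intro W hW
          have hWne : W ≠ Ws := (Finset.mem_erase.1 hW).1
          have hWa := (Finset.mem_erase.1 hW).2
          have h5 := hWs2 W hWa hWne
          beta_reduce at h5
          have h6 : ord W (j s') = 0 := by
            rcases mul_eq_zero.1 h5 with h7 | h7
            · exact absurd h7 (hfpos W).ne'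
            · exact h7
          obtain ⟨i₀, hi₀⟩ := hlocal W v₁ (mem_above.1 hWa) hbv₁
          rw [h6, mul_zero] at hi₀
          have hall : ∀ i, (q : ℤ) ∣ ord W (j x - Θ i₀) - ord W (j x - Θ i) := by
            intro i
            by_cases h : i = i₀
            · rw [h, sub_self]
              exact dvd_zero _
            · have := hi₀ i h
              rwa [sub_zero] at this
          have h8 : (fdeg M W : ℤ) * ord W (j x - Θ θ₀) - fdeg M W * ord W (j x - Θ i) =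
              fdeg M W * ((ord W (j x - Θ i₀) - ord W (j x - Θ i)) -
                (ord W (j x - Θ i₀) - ord W (j x - Θ θ₀))) := by ring
          rw [h8]
          exact Dvd.dvd.mul_left (dvd_sub (hall i) (hall θ₀)) _
        rw [h1, one_mul, one_mul]
        have h5 : ord Ws (j x - Θ θ₀) - ord Ws (j x - Θ i) +
            (∑ W ∈ (above E v₁).erase Ws, ((fdeg M W : ℤ) * ord W (j x - Θ θ₀) -
            fdeg M W * ord W (j x - Θ i))) - e =
            (ord Ws (j x - Θ θ₀) - ord Ws (j x - Θ i) - e) +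
            ∑ W ∈ (above E v₁).erase Ws, ((fdeg M W : ℤ) * ord W (j x - Θ θ₀) -
            fdeg M W * ord W (j x - Θ i)) := by ring
        rw [h5]
        exact dvd_add h2 h4
      · -- conjugation
        intro i
        obtain ⟨σ', h1, h2, h4⟩ := hΘσ σ
        have h5 := Algebra.norm_eq_of_equiv_equiv (σ : M ≃+* M) σ' (by
          ext z
          exact (h1 z).symm) (j x - Θ i)
        have h6 : σ' (j x - Θ i) = j x - Θ (s σ i) := by
          rw [map_sub, h2, h4]
        rw [h6] at h5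
        show (σ : M ≃+* M) (Algebra.norm M (j x - Θ i)) = Algebra.norm M (j x - Θ (s σ i))
        rw [h5, RingEquiv.apply_symm_apply]

end Run7.h846
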