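import Pool.Agent.Run7.h846.Tower
import Pool.Agent.Run7.h846.Ext

/-!
# The tower of fields, with generators
-/

set_option autoImplicit false

namespace Run7.h846

open NumberField IsDedekindDomain Polynomial

/-- adjoining a root of an irreducible polynomial -/
theorem exists_adj2 (F : Type) [Field F] [NumberField F] (P : F[X]) (hm : P.Monic)
    (hi : Irreducible P) :
    ∃ (E : Type) (_ : Field E) (_ : NumberField E) (_ : Algebra F E) (s : E),
      P.eval₂ (algebraMap F E) s = 0 ∧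
      (∀ γ : F, Algebra.norm F (algebraMap F E γ - s) = P.eval γ) ∧
      (∀ (E' : Type) [Field E'] (g : F →+* E') (s' : E'), P.eval₂ g s' = 0 →
        ∃ h : E →+* E', h.comp (algebraMap F E) = g ∧ h s = s') ∧
      (∀ (E' : Type) [Field E'] (h h' : E →+* E'), h.comp (algebraMap F E) = h'.comp (algebraMap F E) →
        h s = h' s → h = h') ∧ Module.finrank F E = P.natDegree ∧
      (∀ (q : ℕ) (d : F), q.Prime → P = X ^ q - C d → (∃ ζ : F, IsPrimitiveRoot ζ q) →
        IsGalois F E) ∧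
      ∀ S : Subfield E, (∀ x : F, algebraMap F E x ∈ S) → s ∈ S → ∀ x : E, x ∈ S := by
  have hfact : Fact (Irreducible P) := ⟨hi⟩
  let E : Type := AdjoinRoot P
  let pb : PowerBasis F E := AdjoinRoot.powerBasis hi.ne_zero
  have hfd : FiniteDimensional F E := pb.finite
  have hch : CharZero E := charZero_of_injective_algebraMap (algebraMap F E).injective
  have hSQ : FiniteDimensional ℚ E := FiniteDimensional.trans ℚ F E
  have hnf : NumberField E := { to_charZero := hch, to_finiteDimensional := hSQ }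
  have hpb : pb.gen = AdjoinRoot.root P := AdjoinRoot.powerBasis_gen hi.ne_zero
  refine ⟨E, inferInstance, hnf, inferInstance, AdjoinRoot.root P, AdjoinRoot.eval₂_root P, ?_, ?_, ?_,
    ?_, ?_, ?_⟩
  · intro γ
    have h1 := norm_sub_gen pb γ
    rw [hpb] at h1
    refine h1.trans ?_
    have h2 : minpoly F (AdjoinRoot.root P) = P := by
      rw [AdjoinRoot.minpoly_root hi.ne_zero, hm.leadingCoeff, inv_one, C_1, mul_one]
    rw [h2]
  · intro E' _ g s' hs'
    refine ⟨AdjoinRoot.lift g s' hs', ?_, AdjoinRoot.lift_root hs'⟩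
    ext x
    exact AdjoinRoot.lift_of hs'
  · intro E' _ h h' h1 h2
    refine RingHom.ext fun x => ?_
    obtain ⟨Q, rfl⟩ := AdjoinRoot.mk_surjective x
    have h3 : ∀ k : E →+* E', k (AdjoinRoot.mk P Q) =
        Q.eval₂ (k.comp (algebraMap F E)) (k (AdjoinRoot.root P)) := by
      intro k
      rw [← AdjoinRoot.aeval_eq, aeval_def, hom_eval₂]
    rw [h3 h, h3 h', h1, h2]
  · rw [pb.finrank]
    show (AdjoinRoot.powerBasis hi.ne_zero).dim = P.natDegree
    rw [AdjoinRoot.powerBasis_dim]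
  · rintro q d hq rfl ⟨ζ, hζ⟩
    have : NeZero q := ⟨hq.ne_zero⟩
    have hζ' : (primitiveRoots q F).Nonempty := ⟨ζ, (mem_primitiveRoots hq.pos).2 hζ⟩
    have := isSplittingField_AdjoinRoot_X_pow_sub_C hζ' hi
    exact isGalois_of_isSplittingField_X_pow_sub_C hζ' hi E
  · intro S hS hs x
    obtain ⟨Q, rfl⟩ := AdjoinRoot.mk_surjective x
    have h3 : AdjoinRoot.mk P Q = Q.eval₂ (algebraMap F E) (AdjoinRoot.root P) := by
      rw [← AdjoinRoot.aeval_eq, aeval_def]
    rw [h3, eval₂_eq_sum_range]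
    exact sum_mem fun i _ => mul_mem (hS _) (pow_mem hs _)

/-- a square of simple extensions -/
theorem square2 {F₁ F₂ : Type} [Field F₁] [NumberField F₁] [Field F₂] [NumberField F₂] (i : F₁ →+* F₂)
    (P : F₁[X]) (hm : P.Monic) (hi : Irreducible (P.map i)) :
    ∃ (E₁ : Type) (_ : Field E₁) (_ : NumberField E₁) (_ : Algebra F₁ E₁) (E₂ : Type) (_ : Field E₂)
      (_ : NumberField E₂) (_ : Algebra F₂ E₂) (j : E₁ →+* E₂) (s : E₁),
      P.eval₂ (algebraMap F₁ E₁) s = 0 ∧
      j.comp (algebraMap F₁ E₁) = (algebraMap F₂ E₂).comp i ∧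
      (∀ γ : F₂, Algebra.norm F₂ (algebraMap F₂ E₂ γ - j s) = (P.map i).eval γ) ∧
      (∀ τ : F₂ ≃+* F₂, (τ : F₂ →+* F₂).comp i = i → ∃ τ' : E₂ ≃+* E₂,
        (τ' : E₂ →+* E₂).comp (algebraMap F₂ E₂) = (algebraMap F₂ E₂).comp (τ : F₂ →+* F₂) ∧
        (τ' : E₂ →+* E₂).comp j = j) ∧
      Module.finrank F₂ E₂ = P.natDegree ∧
      (∀ (q : ℕ) (d : F₂), q.Prime → P.map i = X ^ q - C d → (∃ ζ : F₂, IsPrimitiveRoot ζ q) →
        IsGalois F₂ E₂) ∧
      ∀ S : Subfield E₂, (∀ x : F₂, algebraMap F₂ E₂ x ∈ S) → j s ∈ S → ∀ x : E₂, x ∈ S := by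
  have hi₁ : Irreducible P := hm.irreducible_of_irreducible_map i P hi
  obtain ⟨E₁, _, _, _, s, hs, _, hlift, huniq, _, _, _⟩ := exists_adj2 F₁ P hm hi₁
  obtain ⟨E₂, _, _, _, s₂, hs₂, hn₂, hlift₂, huniq₂, hfr₂, hg₂, hgen₂⟩ :=
    exists_adj2 F₂ (P.map i) (hm.map i) hi
  obtain ⟨j, hj1, hj2⟩ := hlift E₂ ((algebraMap F₂ E₂).comp i) s₂ (by
    rw [← eval₂_map]
    exact hs₂)
  refine ⟨E₁, _, inferInstance, inferInstance, E₂, _, inferInstance, inferInstance, j, s, hs, hj1, ?_,
    ?_, ?_, hg₂, fun S h1 h2 => hgen₂ S h1 (by rwa [← hj2])⟩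
  · intro γ
    rw [hj2]
    exact hn₂ γ
  · intro τ hτ
    have hτ' : (τ.symm : F₂ →+* F₂).comp i = i := by
      ext x
      have h1 := RingHom.congr_fun hτ x
      show τ.symm (i x) = i x
      rw [RingEquiv.symm_apply_eq]
      exact h1.symm
    have hroot : ∀ τ : F₂ ≃+* F₂, (τ : F₂ →+* F₂).comp i = i →
        (P.map i).eval₂ ((algebraMap F₂ E₂).comp (τ : F₂ →+* F₂)) s₂ = 0 := by
      intro τ hτ
      rw [eval₂_map, RingHom.comp_assoc, hτ, ← eval₂_map]
      exact hs₂
    obtain ⟨g, hg1, hg2⟩ := hlift₂ E₂ ((algebraMap F₂ E₂).comp (τ : F₂ →+* F₂)) s₂ (hroot τ hτ)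
    obtain ⟨g', hg'1, hg'2⟩ := hlift₂ E₂ ((algebraMap F₂ E₂).comp (τ.symm : F₂ →+* F₂)) s₂
      (hroot τ.symm hτ')
    have h1 : g.comp g' = RingHom.id E₂ := by
      apply huniq₂
      · rw [RingHom.comp_assoc, hg'1, ← RingHom.comp_assoc, hg1, RingHom.comp_assoc, RingHom.id_comp]
        have : (τ : F₂ →+* F₂).comp (τ.symm : F₂ →+* F₂) = RingHom.id F₂ := by
          ext x
          simp
        rw [this, RingHom.comp_id]
      · show g (g' s₂) = s₂
        rw [hg'2, hg2]
    have h2 : g'.comp g = RingHom.id E₂ := by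
      apply huniq₂
      · rw [RingHom.comp_assoc, hg1, ← RingHom.comp_assoc, hg'1, RingHom.comp_assoc, RingHom.id_comp]
        have : (τ.symm : F₂ →+* F₂).comp (τ : F₂ →+* F₂) = RingHom.id F₂ := by
          ext x
          simp
        rw [this, RingHom.comp_id]
      · show g' (g s₂) = s₂
        rw [hg2, hg'2]
    let τ' : E₂ ≃+* E₂ := RingEquiv.ofRingHom g g' h1 h2
    have hτg : (τ' : E₂ →+* E₂) = g := by
      ext x
      rfl
    refine ⟨τ', ?_, ?_⟩
    · rw [hτg, hg1]
    · rw [hτg]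
      apply huniq
      · rw [RingHom.comp_assoc, hj1, ← RingHom.comp_assoc, hg1, RingHom.comp_assoc, hτ]
      · show g (j s) = j s
        rw [hj2, hg2]
  · rw [hfr₂, natDegree_map]

theorem tower2 {K M : Type} [Field K] [NumberField K] [Field M] [NumberField M] [Algebra K M]
    (q : ℕ) (hq : q.Prime) (hζ : ∃ ζ : M, IsPrimitiveRoot ζ q) (p : ℕ) (γ δ : ℤ)
    (hγ : γ ^ q - δ = p) (hδ : ∀ b : M, b ^ q ≠ (δ : M)) (D S R : (𝓞 K)[X]) (N : ℕ)
    (hDN : D.natDegree < N) (hRN : R.natDegree < N)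
    (hNS : X ^ N - 1 = D * S + C (p : 𝓞 K) * R) (hd0 : D.eval 0 ≠ 0)
    (v₁ : HeightOneSpectrum (𝓞 M)) (hv₁ : ord v₁ (p : M) = 1) (hp0 : p ≠ 0)
    (hv₁' : v₁.valuation M (algebraMap K M ((D.eval 0 : 𝓞 K) : K)) = 1) :
    ∃ (L : Type) (_ : Field L) (_ : NumberField L) (_ : Algebra K L) (E₁ : Type) (_ : Field E₁)
      (_ : NumberField E₁) (_ : Algebra M E₁) (E : Type) (_ : Field E) (_ : NumberField E)
      (_ : Algebra M E) (_ : Algebra E₁ E) (_ : IsScalarTower M E₁ E) (j : L →+* E) (s : L) (ρ : E₁),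
      j.comp (algebraMap K L) = (algebraMap M E).comp (algebraMap K M) ∧
      Algebra.norm M (-j s) = (p : M) ∧ ρ ^ q = (δ : E₁) ∧ Algebra.norm M (-ρ) = ((-δ : ℤ) : M) ∧
      IsGalois M E₁ ∧ Module.finrank M E₁ = q ∧
      (∀ σ : Gal(M/K), ∃ σ' : E ≃+* E,
        (∀ x : M, σ' (algebraMap M E x) = algebraMap M E (σ x)) ∧ ∀ x : L, σ' (j x) = j x) ∧
      (∀ S : Subfield E, (∀ x : M, algebraMap M E x ∈ S) → (∀ x : L, j x ∈ S) → ∀ x : E, x ∈ S) ∧
      (∀ W : HeightOneSpectrum (𝓞 E),
        W.valuation E (j (algebraMap K L ((D.eval 0 : 𝓞 K) : K))) = 1 →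
        W.valuation E (j s) ≤ 1 ∧
          W.valuation E (j (D.eval₂ ((algebraMap K L).comp (algebraMap (𝓞 K) K)) s)) = 1) := by
  classical
  have hN0 : N ≠ 0 := by omega
  -- the first square
  obtain ⟨L₁, _, _, _, E₁, _, _, _, j₁, ρ, hρ0, hj₁, hn₁, haut₁, hfr₁, hgal₁, hgen₁⟩ :=
    square2 (algebraMap K M) (X ^ q - C (δ : K)) (monic_X_pow_sub_C _ hq.ne_zero) (by
      rw [Polynomial.map_sub, Polynomial.map_pow, map_X, map_C, map_intCast]
      exact X_pow_sub_C_irreducible_of_prime hq hδ)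
  have hρ : ρ ^ q = (δ : L₁) := by
    rw [eval₂_sub, eval₂_pow, eval₂_X, eval₂_C, sub_eq_zero, map_intCast] at hρ0
    exact hρ0
  have hmap₁ : (X ^ q - C (δ : K)).map (algebraMap K M) = X ^ q - C (δ : M) := by
    rw [Polynomial.map_sub, Polynomial.map_pow, map_X, map_C, map_intCast]
  have hρint : IsIntegral ℤ ρ := by
    apply IsIntegral.of_pow hq.pos
    rw [hρ]
    have h := isIntegral_algebraMap (R := ℤ) (A := L₁) (x := δ)
    simpa using h
  have hγint : ∀ (T : Type) [Field T], IsIntegral ℤ (γ : T) := by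
    intro T _
    have h := isIntegral_algebraMap (R := ℤ) (A := T) (x := γ)
    simpa using h
  have hpint : ∀ (T : Type) [Field T], IsIntegral ℤ (p : T) := by
    intro T _
    have h := isIntegral_algebraMap (R := ℤ) (A := T) (x := (p : ℤ))
    simpa using h
  let t : L₁ := (γ : L₁) - ρ
  have htint : IsIntegral ℤ t := (hγint L₁).sub hρint
  have hj₁t : j₁ t = algebraMap M E₁ (γ : M) - j₁ ρ := by
    show j₁ ((γ : L₁) - ρ) = _
    rw [map_sub, map_intCast, map_intCast]
  have hnt : Algebra.norm M (j₁ t) = (p : M) := by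
    rw [hj₁t, hn₁, hmap₁, eval_sub, eval_pow, eval_X, eval_C]
    have : ((γ ^ q - δ : ℤ) : M) = ((p : ℤ) : M) := by rw [hγ]
    push_cast at this
    exact this
  have ht0 : j₁ t ≠ 0 := by
    intro h
    rw [h, Algebra.norm_zero] at hnt
    exact hp0 (by exact_mod_cast hnt.symm)
  -- the prime `W₁`
  have hW₁ : ∃ W₁ : HeightOneSpectrum (𝓞 E₁), Over W₁ v₁ ∧ ord W₁ (j₁ t) = 1 := by
    have h1 := ord_norm v₁ (j₁ t) ht0
    rw [hnt, hv₁] at h1
    have hnn : ∀ W : HeightOneSpectrum (𝓞 E₁), 0 ≤ ord W (j₁ t) := fun W =>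
      (ord_nonneg_iff W ht0).2 (val_int_le W (isInt_map j₁ htint))
    obtain ⟨W, hW, h2, _⟩ := sum_eq_one _ _ (fun W _ => mul_nonneg (by positivity) (hnn W)) h1.symm
    refine ⟨W, mem_above.1 hW, ?_⟩
    have h3 : (0 : ℤ) < fdeg M W := by exact_mod_cast fdeg_pos W
    have h4 := hnn W
    rcases lt_or_eq_of_le h4 with h5 | h5
    · nlinarith
    · rw [← h5, mul_zero] at h2
      omega
  obtain ⟨W₁, hW₁v, hW₁t⟩ := hW₁
  -- the second polynomial
  let g : 𝓞 K →+* L₁ := (algebraMap K L₁).comp (algebraMap (𝓞 K) K)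
  have hgint : ∀ x : 𝓞 K, IsIntegral ℤ (g x) := fun x => isInt_map g (RingOfIntegers.isIntegral x)
  have hg0 : g (D.eval 0) ≠ 0 := by
    intro h
    have h1 : algebraMap (𝓞 K) K (D.eval 0) = 0 := (map_eq_zero (algebraMap K L₁)).1 h
    rw [FaithfulSMul.algebraMap_eq_zero_iff] at h1
    exact hd0 h1
  let κ : L₁ := (t + p * g (R.eval 0)) / g (D.eval 0)
  let Q : L₁[X] := -(C (p : L₁) * R.map g) + C κ * D.map g
  let P : L₁[X] := X ^ N + Q
  have hQdeg : Q.degree < N := by
    apply lt_of_le_of_lt (degree_add_le _ _)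
    rw [max_lt_iff]
    constructor
    · rw [degree_neg]
      apply lt_of_le_of_lt degree_le_natDegree
      refine Nat.cast_lt.2 (lt_of_le_of_lt (natDegree_C_mul_le _ _) ?_)
      exact lt_of_le_of_lt natDegree_map_le hRN
    · apply lt_of_le_of_lt degree_le_natDegree
      refine Nat.cast_lt.2 (lt_of_le_of_lt (natDegree_C_mul_le _ _) ?_)
      exact lt_of_le_of_lt natDegree_map_le hDN
  have hPm : P.Monic := monic_X_pow_add hQdeg
  have hPN : P.natDegree = N := by
    show (X ^ N + Q).natDegree = N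
    rw [natDegree_add_eq_left_of_degree_lt, natDegree_X_pow]
    rw [degree_X_pow]
    exact hQdeg
  have hP1 : P = 1 + D.map g * (S.map g + C κ) := by
    have h1 := congrArg (Polynomial.map g) hNS
    rw [Polynomial.map_sub, Polynomial.map_pow, map_X, Polynomial.map_one, Polynomial.map_add,
      Polynomial.map_mul, Polynomial.map_mul, map_C, map_natCast] at h1
    show X ^ N + (-(C (p : L₁) * R.map g) + C κ * D.map g) = _
    linear_combination h1
  have hev0 : ∀ G : (𝓞 K)[X], (G.map g).eval 0 = g (G.eval 0) := by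
    intro G
    rw [eval_map, ← coeff_zero_eq_eval_zero, eval₂_at_zero]
  have hP0 : P.eval 0 = t := by
    show (X ^ N + (-(C (p : L₁) * R.map g) + C κ * D.map g)).eval 0 = t
    rw [eval_add, eval_add, eval_neg, eval_mul, eval_mul, eval_pow, eval_X, eval_C, eval_C, hev0, hev0,
      zero_pow hN0]
    show 0 + (-(p * g (R.eval 0)) + (t + p * g (R.eval 0)) / g (D.eval 0) * g (D.eval 0)) = t
    rw [div_mul_cancel₀ _ hg0]
    ring
  -- it is irreducible
  have hfac : ∀ x : 𝓞 K, j₁ (g x) = algebraMap M E₁ (algebraMap K M (x : K)) := by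
    intro x
    exact RingHom.congr_fun hj₁ (x : K)
  have hv₁p : v₁.valuation M (p : M) < 1 := by
    rw [← ord_pos_iff v₁ (by exact_mod_cast hp0), hv₁]
    exact zero_lt_one
  have hirr : Irreducible (P.map j₁) := by
    apply eis W₁ (P.map j₁) (hPm.map j₁)
    · rw [natDegree_map, hPN]
      exact hN0
    · intro i hi
      rw [natDegree_map, hPN] at hi
      have h1 : (P.map j₁).coeff i = -(algebraMap M E₁ (p : M) * j₁ (g (R.coeff i))) +
          j₁ κ * j₁ (g (D.coeff i)) := by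
        rw [coeff_map]
        show j₁ ((X ^ N + (-(C (p : L₁) * R.map g) + C κ * D.map g)).coeff i) = _
        rw [coeff_add, coeff_add, coeff_neg, coeff_C_mul, coeff_C_mul, coeff_map, coeff_map,
          coeff_X_pow, if_neg hi.ne, zero_add, map_add, map_neg, map_mul, map_mul, map_natCast,
          map_natCast]
      rw [h1]
      have hpW : W₁.valuation E₁ (algebraMap M E₁ (p : M)) < 1 := over_val_lt hW₁v hv₁p
      have hint : ∀ x : 𝓞 K, W₁.valuation E₁ (j₁ (g x)) ≤ 1 := fun x =>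
        val_int_le W₁ (isInt_map j₁ (hgint x))
      have htW : W₁.valuation E₁ (j₁ t) < 1 := by
        rw [← ord_pos_iff W₁ ht0, hW₁t]
        exact zero_lt_one
      have hdW : W₁.valuation E₁ (j₁ (g (D.eval 0))) = 1 := by
        rw [hfac]
        have h1' : W₁.asIdeal.LiesOver v₁.asIdeal := hW₁v
        rw [← HeightOneSpectrum.valuation_liesOver E₁ v₁ W₁, hv₁', one_pow]
      have hκ : W₁.valuation E₁ (j₁ κ) < 1 := by
        show W₁.valuation E₁ (j₁ ((t + p * g (R.eval 0)) / g (D.eval 0))) < 1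
        rw [map_div₀, map_div₀, hdW, div_one, map_add, map_mul, map_natCast]
        apply (W₁.valuation E₁).map_add_lt htW
        rw [map_mul]
        apply mul_lt_one_of_nonneg_of_lt_one_left zero_le _ (hint _)
        rw [map_natCast] at hpW
        exact hpW
      apply (W₁.valuation E₁).map_add_lt
      · rw [Valuation.map_neg, map_mul]
        exact mul_lt_one_of_nonneg_of_lt_one_left zero_le hpW (hint _)
      · rw [map_mul]
        exact mul_lt_one_of_nonneg_of_lt_one_left zero_le hκ (hint _)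
    · rw [coeff_map, coeff_zero_eq_eval_zero, hP0]
      exact hW₁t
  -- the second square
  obtain ⟨L, _, _, _, E, _, _, _, j, s, hs, hj, hn, haut, _, _, hgen⟩ := square2 j₁ P hPm hirr
  let algKL : Algebra K L := ((algebraMap L₁ L).comp (algebraMap K L₁)).toAlgebra
  let algME : Algebra M E := ((algebraMap E₁ E).comp (algebraMap M E₁)).toAlgebra
  have htower : IsScalarTower M E₁ E := IsScalarTower.of_algebraMap_eq fun x => rfl
  refine ⟨L, _, inferInstance, algKL, E₁, _, inferInstance, inferInstance, E, _, inferInstance, algME,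
    inferInstance, htower, j, s, j₁ ρ, ?_, ?_, ?_, ?_, ?_, ?_, ?_, ?_, ?_⟩
  · show j.comp ((algebraMap L₁ L).comp (algebraMap K L₁)) =
      ((algebraMap E₁ E).comp (algebraMap M E₁)).comp (algebraMap K M)
    rw [← RingHom.comp_assoc, hj, RingHom.comp_assoc, hj₁, RingHom.comp_assoc]
  · have h1 : Algebra.norm M (-j s) = Algebra.norm M (Algebra.norm E₁ (-j s)) :=
      Algebra.norm_norm.symm
    have h2 : Algebra.norm E₁ (-j s) = j₁ t := by
      have h3 := hn 0
      rw [map_zero, zero_sub] at h3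
      rw [h3, eval_map, eval₂_at_zero, coeff_zero_eq_eval_zero, hP0]
    rw [h1, h2, hnt]
  · rw [← map_pow, hρ, map_intCast]
  · have h1 := hn₁ 0
    rw [map_zero, zero_sub, hmap₁, eval_sub, eval_pow, eval_X, eval_C, zero_pow hq.ne_zero] at h1
    rw [h1]
    push_cast
    ring
  · exact hgal₁ q (δ : M) hq hmap₁ hζ
  · rw [hfr₁, natDegree_X_pow_sub_C]
  · intro σ
    obtain ⟨τ₁, h1, h2⟩ := haut₁ (σ : M ≃+* M) (by
      ext x
      exact σ.commutes x)
    obtain ⟨τ, h3, h4⟩ := haut τ₁ h2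
    refine ⟨τ, fun x => ?_, fun x => RingHom.congr_fun h4 x⟩
    show τ (algebraMap E₁ E (algebraMap M E₁ x)) = algebraMap E₁ E (algebraMap M E₁ (σ x))
    have h5 := RingHom.congr_fun h3 (algebraMap M E₁ x)
    have h6 := RingHom.congr_fun h1 x
    refine h5.trans ?_
    exact congrArg (algebraMap E₁ E) h6
  · intro S hSM hSL x
    refine hgen S (fun y => ?_) (hSL s) x
    exact hgen₁ (S.comap (algebraMap E₁ E)) (fun z => hSM z) (by
      show algebraMap E₁ E (j₁ ρ) ∈ S
      have h5 := RingHom.congr_fun hj ρ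
      rw [← RingHom.comp_apply, ← hj]
      exact hSL _) y
  · intro W hW
    let f : L₁ →+* E := j.comp (algebraMap L₁ L)
    have hfs : P.eval₂ f (j s) = 0 := by
      have h1 : P.eval₂ f (j s) = j (P.eval₂ (algebraMap L₁ L) s) := by
        rw [hom_eval₂]
      rw [h1, hs, map_zero]
    have hfint : ∀ x : L₁, IsIntegral ℤ x → W.valuation E (f x) ≤ 1 := fun x hx =>
      val_int_le W (isInt_map f hx)
    have hdW : W.valuation E (f (g (D.eval 0))) = 1 := hW
    have hκ : W.valuation E (f κ) ≤ 1 := by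
      show W.valuation E (f ((t + p * g (R.eval 0)) / g (D.eval 0))) ≤ 1
      rw [map_div₀, map_div₀, hdW, div_one]
      apply hfint
      exact htint.add ((hpint L₁).mul (hgint _))
    have hs1 : W.valuation E (j s) ≤ 1 := by
      apply root_val_le f P hPm _ (j s) hfs
      intro i
      have h1 : P.coeff i = (if i = N then (1 : L₁) else 0) + (-((p : L₁) * g (R.coeff i)) +
          κ * g (D.coeff i)) := by
        show (X ^ N + (-(C (p : L₁) * R.map g) + C κ * D.map g)).coeff i = _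
        rw [coeff_add, coeff_add, coeff_neg, coeff_C_mul, coeff_C_mul, coeff_map, coeff_map,
          coeff_X_pow]
      rw [h1, map_add]
      apply (W.valuation E).map_add_le
      · split_ifs
        · rw [map_one, map_one]
        · rw [map_zero, map_zero]
          exact zero_le
      · rw [map_add]
        apply (W.valuation E).map_add_le
        · apply hfint
          exact ((hpint L₁).mul (hgint _)).neg
        · rw [map_mul, map_mul]
          exact mul_le_one' hκ (hfint _ (hgint _))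
    refine ⟨hs1, ?_⟩
    have h2 : j (D.eval₂ ((algebraMap K L).comp (algebraMap (𝓞 K) K)) s) =
        D.eval₂ (f.comp g) (j s) := by
      rw [hom_eval₂]
      rfl
    rw [h2]
    have hDle : W.valuation E (D.eval₂ (f.comp g) (j s)) ≤ 1 := by
      rw [← eval₂_map]
      apply eval_val_le f _ _ _ hs1
      intro i
      rw [coeff_map]
      exact hfint _ (hgint _)
    have hSle : W.valuation E (S.eval₂ (f.comp g) (j s) + f κ) ≤ 1 := by
      apply (W.valuation E).map_add_le _ hκ
      rw [← eval₂_map]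
      apply eval_val_le f _ _ _ hs1
      intro i
      rw [coeff_map]
      exact hfint _ (hgint _)
    have h3 : D.eval₂ (f.comp g) (j s) * (S.eval₂ (f.comp g) (j s) + f κ) = -1 := by
      rw [hP1, eval₂_add, eval₂_one, eval₂_mul, eval₂_add, eval₂_C, eval₂_map, eval₂_map] at hfs
      linear_combination hfs
    apply le_antisymm hDle
    by_contra hlt
    push Not at hlt
    have h4 : W.valuation E (D.eval₂ (f.comp g) (j s) * (S.eval₂ (f.comp g) (j s) + f κ)) < 1 := by
      rw [map_mul]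
      exact mul_lt_one_of_nonneg_of_lt_one_left zero_le hlt hSle
    rw [h3, Valuation.map_neg, map_one] at h4
    exact lt_irrefl _ h4

end Run7.h846
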