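import Pool.Agent.Run7.h846.Nf
import Pool.Agent.Run7.h846.Core3
import Pool.Agent.Run7.h846.Tower2

/-!
# The theorem over a number field, in terms of classes, over all extensions of degree prime to `q`
-/

set_option autoImplicit false

namespace Run7.h846

open NumberField IsDedekindDomain Polynomial

/-- the data of the obstruction for the curve `t y ^ q = g(x)` over `L` -/
structure OD (q : ℕ) {K M L E Ω : Type} [Field K] [NumberField K] [Field M] [NumberField M]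
    [Algebra K M] [Field L] [Algebra K L] [Field E] [NumberField E] [Algebra M E] [Fintype Ω]
    (s : Gal(M/K) → Ω ≃ Ω) (j : L →+* E) (Θ : Ω → E) (Good : Set (HeightOneSpectrum (𝓞 E)))
    (t : L) (g : L[X]) : Prop where
  inf : ∀ u : L, t * u ^ q ≠ 1
  t0 : t ≠ 0
  comm : j.comp (algebraMap K L) = (algebraMap M E).comp (algebraMap K M)
  gen : ∀ S : Subfield E, (∀ x : M, algebraMap M E x ∈ S) → (∀ x : L, j x ∈ S) → ∀ x : E, x ∈ S
  lift : ∀ σ : Gal(M/K), ∃ σ' : E ≃+* E, (∀ x : M, σ' (algebraMap M E x) = algebraMap M E (σ x)) ∧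
    (∀ x : L, σ' (j x) = j x) ∧ ∀ i, σ' (Θ i) = Θ (s σ i)
  roots : g.map j = ∏ i, (X - C (Θ i))
  inj : Function.Injective Θ
  good : ∀ W ∈ Good, (q : 𝓞 E) ∉ W.asIdeal ∧ ∀ i i', i ≠ i' → W.valuation E (Θ i - Θ i') = 1
  core : ∀ (d : ℤ) (u : Ω → E), ¬ (q : ℤ) ∣ d → (∀ i, u i ≠ 0) →
    (∀ W ∈ Good, (ord W (j t) = 0 → ∀ i i', (q : ℤ) ∣ ord W (u i) - ord W (u i')) ∧
      (q : ℤ) ∣ (∑ i, ord W (u i)) - d * ord W (j t)) →
    ∃ χ : Ω → ℤ, ¬ (q : ℤ) ∣ ∑ i, χ i ∧ ∀ σ : Gal(M/K),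
      (∀ σ' : E ≃+* E, (∀ x : M, σ' (algebraMap M E x) = algebraMap M E (σ x)) →
        (∀ x : L, σ' (j x) = j x) → (∀ i, σ' (Θ i) = Θ (s σ i)) →
        ∀ i i', ∃ w : E, w ≠ 0 ∧ σ' (u i) * u (s σ i') = σ' (u i') * u (s σ i) * w ^ q) →
      ∀ i i', (q : ℤ) ∣ (χ (s σ i) - χ (s σ i')) - (χ i - χ i')

theorem nfO {K M : Type} [Field K] [NumberField K] [Field M] [NumberField M] [Algebra K M]
    (q : ℕ) (hq : q.Prime) (ζ : M) (hζ : IsPrimitiveRoot ζ q)
    (Ω : Type) [Fintype Ω]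
    (θ : Ω → M[X]) (f : K[X][X]) (hf : f.map (mapRingHom (algebraMap K M)) = ∏ i, (X - C (θ i)))
    (s : Gal(M/K) → Ω ≃ Ω) (hs : ∀ (σ : Gal(M/K)) (i : Ω), (θ i).map (σ : M →+* M) = θ (s σ i))
    (D : K[X]) (hD0 : D.eval 0 ≠ 0)
    (hθD : ∀ i j, i ≠ j → (θ i - θ j) ∣ D.map (algebraMap K M))
    (h₁ : K[X]) (hh₁ : h₁ ∣ D) (e : ℕ) (he : ¬ q ∣ e) :
    ∃ (L : Type) (_ : Field L) (_ : NumberField L) (_ : Algebra K L) (s₀ : L),
      s₀ ≠ 0 ∧ D.eval₂ (algebraMap K L) s₀ ≠ 0 ∧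
      ∃ (E : Type) (_ : Field E) (_ : NumberField E) (_ : Algebra M E) (j : L →+* E) (Θ : Ω → E)
        (Good : Set (HeightOneSpectrum (𝓞 E))),
      OD q s j Θ Good (s₀ ^ e * h₁.eval₂ (algebraMap K L) s₀)
        (f.map (eval₂RingHom (algebraMap K L) s₀)) := by
  classical
  obtain ⟨c, lam, Dh, hc0, hlam, hDhm, hDh0, hDh⟩ := scale_monic D hD0
  obtain ⟨k₁, hk₁⟩ := hh₁
  have hθD' : ∀ i j, ∃ k : M[X], i ≠ j → D.map (algebraMap K M) = (θ i - θ j) * k := by
    intro i j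
    by_cases hij : i ≠ j
    · obtain ⟨k, hk⟩ := hθD i j hij
      exact ⟨k, fun _ => hk⟩
    · exact ⟨0, fun h => absurd h hij⟩
  choose k hk using hθD'
  let α := algebraMap K M
  obtain ⟨b', hb'0, hb'⟩ := good_den3 (α (c : K))⁻¹ (α lam) (α lam)⁻¹
    (α ((Dh.eval 0 : 𝓞 K) : K))⁻¹ (h₁.map α) (k₁.map α) (fun p : Ω × Ω => θ p.1 - θ p.2)
    (fun p : Ω × Ω => k p.1 p.2)
  obtain ⟨b, hb0, hb, hbq⟩ : ∃ b : 𝓞 M, b ≠ 0 ∧ (∀ v : HeightOneSpectrum (𝓞 M), b ∉ v.asIdeal →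
      (v.valuation M (α (c : K))⁻¹ ≤ 1 ∧ v.valuation M (α lam) ≤ 1 ∧ v.valuation M (α lam)⁻¹ ≤ 1 ∧
        v.valuation M (α ((Dh.eval 0 : 𝓞 K) : K))⁻¹ ≤ 1) ∧
      (∀ n, v.valuation M ((h₁.map α).coeff n) ≤ 1) ∧ (∀ n, v.valuation M ((k₁.map α).coeff n) ≤ 1) ∧
      (∀ (i : Ω × Ω) n, v.valuation M ((θ i.1 - θ i.2).coeff n) ≤ 1) ∧
      (∀ (i : Ω × Ω) n, v.valuation M ((k i.1 i.2).coeff n) ≤ 1)) ∧
      ∀ v : HeightOneSpectrum (𝓞 M), b ∉ v.asIdeal → (q : 𝓞 M) ∉ v.asIdeal := by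
    refine ⟨b' * q, mul_ne_zero hb'0 (by exact_mod_cast hq.ne_zero), fun v hv => hb' v fun h => ?_,
      fun v hv h => ?_⟩
    · exact hv (v.asIdeal.mul_mem_right _ h)
    · exact hv (v.asIdeal.mul_mem_left _ h)
  obtain ⟨N1, hN1⟩ := exists_unram M
  obtain ⟨p, hp1, hp⟩ := Nat.exists_infinite_primes (N1 + Ideal.absNorm (Ideal.span {b}) +
    Ideal.absNorm (Ideal.span {Dh.eval 0}) + q + 1)
  obtain ⟨v₁, hv₁p⟩ := exists_above_prime M p hp
  have hv₁ : ord v₁ (p : M) = 1 := hN1 p hp (by omega) v₁ hv₁p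
  have hbv₁ : b ∉ v₁.asIdeal := notMem_of_gt b hb0 p hp (by omega) v₁ hv₁p
  obtain ⟨Λ, hΛne, hΛ, hcore⟩ := core3 q hq ζ hζ {v | b ∈ v.asIdeal} (finite_mem b hb0) p hp
    (p + q + N1)
  obtain ⟨γ, hγ⟩ := exists_gamma q p hp Λ (fun ℓ hℓ => by
    obtain ⟨h1, h2, h4⟩ := hΛ ℓ hℓ
    exact ⟨h1, by omega, h4⟩) hq
  let δ : ℤ := γ ^ q - p
  have hordδ : ∀ ℓ ∈ Λ, ∀ v : HeightOneSpectrum (𝓞 M), (ℓ : 𝓞 M) ∈ v.asIdeal → ord v (δ : M) = 1 := by
    intro ℓ hℓ v hv
    obtain ⟨h1, h2, _⟩ := hΛ ℓ hℓ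
    exact ord_exact v ℓ h1 δ hv (hN1 ℓ h1 (by omega) v hv) (hγ ℓ hℓ).1 (hγ ℓ hℓ).2
  have hδ0 : (δ : M) ≠ 0 := by
    obtain ⟨ℓ, hℓ⟩ := hΛne
    intro h
    have h1 : δ = 0 := by exact_mod_cast h
    have h2 := (hγ ℓ hℓ).2
    apply h2
    show _ ∣ δ
    rw [h1]
    exact dvd_zero _
  have hδ : ∀ x : M, x ^ q ≠ (δ : M) := by
    intro x hx
    obtain ⟨ℓ, hℓ⟩ := hΛne
    obtain ⟨v, hv⟩ := exists_above_prime M ℓ (hΛ ℓ hℓ).1
    have h1 := hordδ ℓ hℓ v hv
    rw [← hx, ord_pow] at h1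
    have h2 : (q : ℤ) ∣ 1 := ⟨_, h1.symm⟩
    have h5 := Int.eq_one_of_dvd_one (by positivity) h2
    have := hq.one_lt
    omega
  -- the auxiliary polynomial
  have hpK0 : (p : 𝓞 K) ≠ 0 := by exact_mod_cast hp.ne_zero
  have hfinq : Finite (𝓞 K ⧸ Ideal.span {(p : 𝓞 K)}) := by
    apply Ring.HasFiniteQuotients.finiteQuotient
    rw [Ne, Ideal.span_singleton_eq_bot]
    exact hpK0
  obtain ⟨N, S, R, hDN, hRN, hNS⟩ := algP (𝓞 K) Dh hDhm (p : 𝓞 K) hfinq
    (isCoprime_of_gt (Dh.eval 0) hDh0 p hp (by omega))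
  have hcM0 : α (c : K) ≠ 0 := by
    rw [Ne, map_eq_zero]
    exact_mod_cast hc0
  have hlM0 : α lam ≠ 0 := by
    rw [Ne, map_eq_zero]
    exact hlam
  have hdM0 : α ((Dh.eval 0 : 𝓞 K) : K) ≠ 0 := by
    rw [Ne, map_eq_zero]
    exact_mod_cast hDh0
  have hone : ∀ (E : Type) [Field E] [NumberField E] [Algebra M E] (W : HeightOneSpectrum (𝓞 E))
      (x : M), x ≠ 0 → W.valuation E (algebraMap M E x) ≤ 1 →
      W.valuation E (algebraMap M E x⁻¹) ≤ 1 → W.valuation E (algebraMap M E x) = 1 := by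
    intro E _ _ _ W x hx h1 h2
    apply val_one_of_mul W h1 h2
    rw [← map_mul, mul_inv_cancel₀ hx, map_one, map_one]
  have hintE : ∀ (E : Type) [Field E] [NumberField E] [Algebra M E] (W : HeightOneSpectrum (𝓞 E))
      (x : 𝓞 K), W.valuation E (algebraMap M E (α (x : K))) ≤ 1 := by
    intro E _ _ _ W x
    exact val_int_le W (isInt_map (((algebraMap M E).comp α).comp (algebraMap (𝓞 K) K))
      (RingOfIntegers.isIntegral x))
  have hv₁d : v₁.valuation M (algebraMap K M ((Dh.eval 0 : 𝓞 K) : K)) = 1 := by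
    have h1 : v₁.valuation M (α ((Dh.eval 0 : 𝓞 K) : K)) ≤ 1 :=
      val_int_le v₁ (isInt_map (α.comp (algebraMap (𝓞 K) K)) (RingOfIntegers.isIntegral _))
    exact val_one_of_mul v₁ h1 (hb v₁ hbv₁).1.2.2.2 (by
      rw [mul_inv_cancel₀ hdM0, map_one])
  obtain ⟨L, _, _, _, E₁, _, _, _, E, _, _, _, _, _, j, s', ρ, hj, hnorm, hρ, hnρ, hgal, hfr, haut, hgen, hW⟩ :=
    tower2 q hq ⟨ζ, hζ⟩ p γ δ (by show γ ^ q - (γ ^ q - p) = p; ring) hδ Dh S R N hDN hRN hNS hDh0 v₁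
      hv₁ hp.ne_zero hv₁d
  let g : K →+* L := algebraMap K L
  have hjg : ∀ x : K, j (g x) = algebraMap M E (α x) := fun x => RingHom.congr_fun hj x
  have hjgr : j.comp g = (algebraMap M E).comp α := hj
  have hgc : g (c : K) ≠ 0 := by
    rw [Ne, map_eq_zero]
    exact_mod_cast hc0
  let s₀ : L := s' * (g (c : K))⁻¹
  have hgcs : g (c : K) * s₀ = s' := by
    show g (c : K) * (s' * (g (c : K))⁻¹) = s'
    field_simp
  let Θ : Ω → E := fun i => (θ i).eval₂ (algebraMap M E) (j s₀)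
  -- good primes
  have hgood : ∀ (W : HeightOneSpectrum (𝓞 E)) (v : HeightOneSpectrum (𝓞 M)), Over W v →
      b ∉ v.asIdeal → W.valuation E (j s₀) ≤ 1 ∧ ord W (j s₀) = ord W (j s') ∧
      W.valuation E (j (h₁.eval₂ g s₀)) = 1 ∧ W.valuation E (j (D.eval₂ g s₀)) = 1 ∧
      (∀ i i', i ≠ i' → W.valuation E (Θ i - Θ i') = 1) ∧ W.valuation E (j s') ≤ 1 := by
    intro W v hWv hbv
    obtain ⟨⟨hb1, hb2, hb3, hb4⟩, hb5, hb6, hb7, hb8⟩ := hb v hbv
    have hcE : W.valuation E (algebraMap M E (α (c : K))) = 1 :=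
      hone E W _ hcM0 (hintE E W c) (over_val_le hWv hb1)
    have hlE : W.valuation E (algebraMap M E (α lam)) = 1 :=
      hone E W _ hlM0 (over_val_le hWv hb2) (over_val_le hWv hb3)
    have hdE : W.valuation E (algebraMap M E (α ((Dh.eval 0 : 𝓞 K) : K))) = 1 :=
      hone E W _ hdM0 (hintE E W _) (over_val_le hWv hb4)
    obtain ⟨h1, h2⟩ := hW W (by
      have := hjg ((Dh.eval 0 : 𝓞 K) : K)
      show W.valuation E (j (g ((Dh.eval 0 : 𝓞 K) : K))) = 1
      rw [this]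
      exact hdE)
    have hjs₀ : j s' = algebraMap M E (α (c : K)) * j s₀ := by
      rw [← hjg, ← map_mul, hgcs]
    have hvs₀ : W.valuation E (j s₀) ≤ 1 := by
      rw [hjs₀, map_mul, hcE, one_mul] at h1
      exact h1
    have hDs₀ : W.valuation E (j (D.eval₂ g s₀)) = 1 := by
      rw [hDh L g s₀, hgcs, map_mul, map_mul, hjg, hlE, one_mul]
      exact h2
    have hevalM : ∀ P : K[X], j (P.eval₂ g s₀) = (P.map α).eval₂ (algebraMap M E) (j s₀) := by
      intro P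
      rw [hom_eval₂, hjgr, eval₂_map]
    have hle : ∀ P : M[X], (∀ n, v.valuation M (P.coeff n) ≤ 1) →
        W.valuation E (P.eval₂ (algebraMap M E) (j s₀)) ≤ 1 := by
      intro P hP
      apply eval_val_le (algebraMap M E) P _ (j s₀) hvs₀
      intro i
      exact over_val_le hWv (hP i)
    refine ⟨hvs₀, ?_, ?_, hDs₀, ?_, h1⟩
    · by_cases hz : j s₀ = 0
      · rw [hjs₀, hz, mul_zero]
      · have hcE0 : algebraMap M E (α (c : K)) ≠ 0 := by
          rw [Ne, map_eq_zero]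
          exact hcM0
        rw [hjs₀, ord_mul W hcE0 hz, (ord_eq_zero_iff W hcE0).2 hcE, zero_add]
    · apply val_one_of_mul W (y := j (k₁.eval₂ g s₀))
      · rw [hevalM]
        exact hle _ hb5
      · rw [hevalM]
        exact hle _ hb6
      · rw [← map_mul, ← eval₂_mul, ← hk₁]
        exact hDs₀
    · intro i i' hii'
      have h5 : Θ i - Θ i' = (θ i - θ i').eval₂ (algebraMap M E) (j s₀) := by
        rw [eval₂_sub]
      rw [h5]
      apply val_one_of_mul W (y := (k i i').eval₂ (algebraMap M E) (j s₀))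
      · exact hle _ (hb7 (i, i'))
      · exact hle _ (hb8 (i, i'))
      · rw [← eval₂_mul, ← hk i i' hii', ← hevalM]
        exact hDs₀
  -- a prime above `v₁` at which `s'` is a uniformiser
  have hjs'0 : j s' ≠ 0 := by
    intro h
    rw [h, neg_zero, Algebra.norm_zero] at hnorm
    exact hp.ne_zero (by exact_mod_cast hnorm.symm)
  have hsumv : ∀ v : HeightOneSpectrum (𝓞 M), ord v (p : M) =
      ∑ W ∈ above E v, (fdeg M W : ℤ) * ord W (j s') := by
    intro v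
    rw [← hnorm, ord_norm v _ (neg_ne_zero.2 hjs'0)]
    refine Finset.sum_congr rfl fun W _ => ?_
    rw [ord_neg]
  have hjs'nn : ∀ (W : HeightOneSpectrum (𝓞 E)) (v : HeightOneSpectrum (𝓞 M)), Over W v →
      b ∉ v.asIdeal → 0 ≤ ord W (j s') := fun W v hWv hbv =>
    (ord_nonneg_iff W hjs'0).2 (hgood W v hWv hbv).2.2.2.2.2
  have hfpos : ∀ W : HeightOneSpectrum (𝓞 E), (0 : ℤ) < fdeg M W := fun W => by
    exact_mod_cast fdeg_pos W
  obtain ⟨Ws, hWs, hWs1, hWs2⟩ := sum_eq_one (above E v₁)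
    (fun W => (fdeg M W : ℤ) * ord W (j s')) (fun W hW => mul_nonneg (hfpos W).le
      (hjs'nn W v₁ (mem_above.1 hW) hbv₁)) (by rw [← hsumv, hv₁])
  have hWsord : ord Ws (j s') = 1 ∧ (fdeg M Ws : ℤ) = 1 := by
    have h1 := hfpos Ws
    have h2 := hjs'nn Ws v₁ (mem_above.1 hWs) hbv₁

    rcases lt_or_eq_of_le h2 with h4 | h4
    · constructor <;> nlinarith
    · rw [← h4, mul_zero] at hWs1
      omega
  have hjs₀0 : j s₀ ≠ 0 := by
    intro h
    apply hjs'0
    rw [← hgcs, map_mul, h, mul_zero]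
  have hs₀0 : s₀ ≠ 0 := by
    rintro h
    rw [h, map_zero] at hjs₀0
    exact hjs₀0 rfl
  have hval_ne : ∀ (W : HeightOneSpectrum (𝓞 E)) (x : E), W.valuation E x = 1 → x ≠ 0 := by
    intro W x hx h
    rw [h, map_zero] at hx
    exact zero_ne_one hx
  have hh0 : j (h₁.eval₂ g s₀) ≠ 0 := hval_ne Ws _ (hgood Ws v₁ (mem_above.1 hWs) hbv₁).2.2.1
  have hDs0 : j (D.eval₂ g s₀) ≠ 0 := hval_ne Ws _ (hgood Ws v₁ (mem_above.1 hWs) hbv₁).2.2.2.1
  let t : L := s₀ ^ e * h₁.eval₂ g s₀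
  have hjt : j t = (j s₀) ^ e * j (h₁.eval₂ g s₀) := by
    show j (s₀ ^ e * h₁.eval₂ g s₀) = _
    rw [map_mul, map_pow]
  have hjt0 : j t ≠ 0 := by
    rw [hjt]
    exact mul_ne_zero (pow_ne_zero _ hjs₀0) hh0
  have hordt : ∀ (W : HeightOneSpectrum (𝓞 E)) (v : HeightOneSpectrum (𝓞 M)), Over W v →
      b ∉ v.asIdeal → ord W (j t) = e * ord W (j s') := by
    intro W v hWv hbv
    obtain ⟨_, h2, h4, _, _, _⟩ := hgood W v hWv hbv
    rw [hjt, ord_mul W (pow_ne_zero _ hjs₀0) hh0, ord_pow, h2, (ord_eq_zero_iff W hh0).2 h4, add_zero]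
  have hΘσ : ∀ σ : Gal(M/K), ∃ σ' : E ≃+* E, (∀ x : M, σ' (algebraMap M E x) = algebraMap M E (σ x)) ∧
      (∀ x : L, σ' (j x) = j x) ∧ ∀ i, σ' (Θ i) = Θ (s σ i) := by
    intro σ
    obtain ⟨σ', h1, h2⟩ := haut σ
    refine ⟨σ', h1, h2, fun i => ?_⟩
    show (σ' : E →+* E) ((θ i).eval₂ (algebraMap M E) (j s₀)) =
      (θ (s σ i)).eval₂ (algebraMap M E) (j s₀)
    rw [hom_eval₂, ← hs σ i, eval₂_map]
    congr 1
    · ext z
      exact h1 z
    · exact h2 s₀
  have hΘne : ∀ i i', i ≠ i' → Θ i - Θ i' ≠ 0 := fun i i' hii' =>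
    hval_ne Ws _ ((hgood Ws v₁ (mem_above.1 hWs) hbv₁).2.2.2.2.1 i i' hii')
  have ht0 : t ≠ 0 := by
    intro h
    rw [h, map_zero] at hjt0
    exact hjt0 rfl
  refine ⟨L, inferInstance, inferInstance, inferInstance, s₀, hs₀0, ?_, E,
    inferInstance, inferInstance, inferInstance, j, Θ,
    {W | ∃ v : HeightOneSpectrum (𝓞 M), Over W v ∧ b ∉ v.asIdeal}, ?_⟩
  · intro h
    apply hDs0
    show j (D.eval₂ (algebraMap K L) s₀) = 0
    rw [h, map_zero]
  refine { inf := ?_, t0 := ht0, comm := hj, gen := hgen, lift := hΘσ, roots := ?_, inj := ?_,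
           good := ?_, core := ?_ }
  · -- no point at infinity
    intro u hu
    have hu' : j t * (j u) ^ q = 1 := by
      rw [← map_pow, ← map_mul]
      show j (s₀ ^ e * h₁.eval₂ (algebraMap K L) s₀ * u ^ q) = 1
      rw [hu, map_one]
    have hju0 : j u ≠ 0 := by
      intro h
      rw [h, zero_pow hq.ne_zero, mul_zero] at hu'
      exact zero_ne_one hu'
    have h1 := congrArg (ord Ws) hu'
    rw [ord_mul Ws hjt0 (pow_ne_zero _ hju0), ord_pow, ord_one, hordt Ws v₁ (mem_above.1 hWs) hbv₁,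
      hWsord.1, mul_one] at h1
    apply he
    have h2 : (q : ℤ) ∣ (e : ℤ) := ⟨-ord Ws (j u), by linear_combination h1⟩
    exact_mod_cast h2
  · -- the roots
    have h2 : (f.map (eval₂RingHom g s₀)).map j =
        (f.map (mapRingHom α)).map (eval₂RingHom (algebraMap M E) (j s₀)) := by
      rw [Polynomial.map_map, Polynomial.map_map]
      congr 1
      ext z
      · show j (eval₂ g s₀ (C z)) = eval₂ (algebraMap M E) (j s₀) ((C z).map α)
        rw [eval₂_C, map_C, eval₂_C]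
        exact hjg z
      · show j (eval₂ g s₀ X) = eval₂ (algebraMap M E) (j s₀) (X.map α)
        rw [eval₂_X, map_X, eval₂_X]
    show (f.map (eval₂RingHom g s₀)).map j = _
    rw [h2, hf, Polynomial.map_prod]
    refine Finset.prod_congr rfl fun i _ => ?_
    rw [Polynomial.map_sub, map_X, map_C]
    rfl
  · intro i i' hii'
    by_contra hne
    exact hΘne i i' hne (sub_eq_zero.2 hii')
  · rintro W ⟨v, hWv, hbv⟩
    refine ⟨fun h => ?_, (hgood W v hWv hbv).2.2.2.2.1⟩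
    apply hbq v hbv
    have h1 : algebraMap (𝓞 M) (𝓞 E) (q : 𝓞 M) ∈ W.asIdeal := by
      rw [map_natCast]
      exact h
    exact (over_iff.1 hWv _).2 h1
  · intro d u hd hu0 hu
    have hlocal0 : ∀ (W : HeightOneSpectrum (𝓞 E)) (v : HeightOneSpectrum (𝓞 M)), Over W v →
        b ∉ v.asIdeal → ord W (j s') = 0 → ∀ i i', (q : ℤ) ∣ ord W (u i) - ord W (u i') := by
      intro W v hWv hbv h0
      refine (hu W ⟨v, hWv, hbv⟩).1 ?_
      show ord W (j t) = 0
      rw [hordt W v hWv hbv, h0, mul_zero]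
    have hlocal1 : ∀ (W : HeightOneSpectrum (𝓞 E)) (v : HeightOneSpectrum (𝓞 M)), Over W v →
        b ∉ v.asIdeal → (q : ℤ) ∣ (∑ i, ord W (u i)) - d * (e * ord W (j s')) := by
      intro W v hWv hbv
      rw [← hordt W v hWv hbv]
      exact (hu W ⟨v, hWv, hbv⟩).2
    let a : Ω → M := fun i => Algebra.norm M (u i)
    have ha0 : ∀ i, a i ≠ 0 := fun i => Algebra.norm_ne_zero_iff.2 (hu0 i)
    have hasum : ∀ (v : HeightOneSpectrum (𝓞 M)) (i : Ω), ord v (a i) =
        ∑ W ∈ above E v, (fdeg M W : ℤ) * ord W (u i) := fun v i => ord_norm v _ (hu0 i)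
    refine ⟨fun i => ord v₁ (a i), ?_, ?_⟩
    · intro hdvd
      have h1 : ∑ i, ord v₁ (a i) = ∑ W ∈ above E v₁, (fdeg M W : ℤ) * ∑ i, ord W (u i) := by
        simp only [hasum, Finset.mul_sum]
        rw [Finset.sum_comm]
      have h2 : (q : ℤ) ∣ (∑ i, ord v₁ (a i)) - d * e := by
        have h3 : d * (e : ℤ) = ∑ W ∈ above E v₁, (fdeg M W : ℤ) * (d * (e * ord W (j s'))) := by
          have h4 := hsumv v₁
          rw [hv₁] at h4
          calc d * (e : ℤ) = d * e * 1 := by ring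
            _ = d * e * ∑ W ∈ above E v₁, (fdeg M W : ℤ) * ord W (j s') := by rw [← h4]
            _ = _ := by
              rw [Finset.mul_sum]
              refine Finset.sum_congr rfl fun W _ => ?_
              ring
        rw [h1, h3, ← Finset.sum_sub_distrib]
        apply Finset.dvd_sum
        intro W hW
        rw [← mul_sub]
        exact Dvd.dvd.mul_left (hlocal1 W v₁ (mem_above.1 hW) hbv₁) _
      have h3 : (q : ℤ) ∣ d * e := by
        have := dvd_sub hdvd h2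
        rwa [sub_sub_cancel] at this
      rcases (Nat.prime_iff_prime_int.1 hq).dvd_or_dvd h3 with h4 | h4
      · exact hd h4
      · exact he (by exact_mod_cast h4)
    · intro σ hconj
      refine hcore Ω a ha0 ?_ ?_ (σ : M ≃+* M) (s σ) ?_ v₁
      · -- outside `p`
        intro v hv hpv i i'
        have hbv : b ∉ v.asIdeal := hv
        have hp0 : (p : 𝓞 M) ≠ 0 := by exact_mod_cast hp.ne_zero
        have hordp : ord v (p : M) = 0 := by
          have h1 : ((p : 𝓞 M) : M) = (p : M) := by simp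
          rw [← h1]
          have h2 := ord_int_nonneg v (p : 𝓞 M)
          have h4 := (ord_int_pos_iff v hp0).not.2 hpv
          omega
        have hzero : ∀ W ∈ above E v, ord W (j s') = 0 := by
          intro W hW
          have h1 := hsumv v
          rw [hordp] at h1
          have h2 := (Finset.sum_eq_zero_iff_of_nonneg fun W hW => mul_nonneg (hfpos W).le
            (hjs'nn W v (mem_above.1 hW) hbv)).1 h1.symm W hW
          rcases mul_eq_zero.1 h2 with h4 | h4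
          · exact absurd h4 (hfpos W).ne'
          · exact h4
        rw [hasum, hasum, ← Finset.sum_sub_distrib]
        apply Finset.dvd_sum
        intro W hW
        rw [← mul_sub]
        exact Dvd.dvd.mul_left (hlocal0 W v (mem_above.1 hW) hbv (hzero W hW) i i') _
      · -- the primes of `Λ`
        intro ℓ hℓ φ i i' c' w hw0 haii hφc
        have hℓp := (hΛ ℓ hℓ).1
        have hfact : Fact ℓ.Prime := ⟨hℓp⟩
        have hker : (RingHom.ker φ).IsPrime := RingHom.ker_isPrime φ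
        have hℓ0 : (ℓ : 𝓞 M) ≠ 0 := by exact_mod_cast hℓp.ne_zero
        have hℓker : (ℓ : 𝓞 M) ∈ RingHom.ker φ := by
          rw [RingHom.mem_ker, map_natCast, CharP.cast_eq_zero]
        have hkerne : RingHom.ker φ ≠ ⊥ := by
          intro h
          rw [h] at hℓker
          exact hℓ0 hℓker
        let v : HeightOneSpectrum (𝓞 M) := ⟨RingHom.ker φ, hker, hkerne⟩
        have hδv := hordδ ℓ hℓ v hℓker
        let ε : M := (-1) ^ q
        have hε : ord v ε = 0 := by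
          show ord v ((-1) ^ q) = 0
          rw [ord_pow, ord_neg, ord_one, mul_zero]
        have hε0 : ε ≠ 0 := pow_ne_zero _ (neg_ne_zero.2 one_ne_zero)
        obtain ⟨W, hWv, huniq, hfW, hram⟩ := tot (M := M) (E := E₁) (v := v) q (-ρ) (ε * δ) (by
            rw [neg_pow, hρ, map_mul, map_intCast]
            show _ = algebraMap M E₁ ((-1) ^ q) * _
            rw [map_pow, map_neg, map_one]) (by
            rw [ord_mul v hε0 hδ0, hε, hδv, zero_add]) (mul_ne_zero hε0 hδ0) (by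
            rw [hnρ]
            push_cast
            rw [ord_neg]
            exact hδv)
        have hgal' : IsGalois M E₁ := hgal
        have hzi : (u i) / (u i') ≠ 0 := div_ne_zero (hu0 i) (hu0 i')
        have hnu : Algebra.norm M (Algebra.norm E₁ ((u i) / (u i'))) = c' * w ^ q := by
          rw [Algebra.norm_norm]
          have h1 : Algebra.norm M ((u i) / (u i')) * a i' = a i := by
            show _ * Algebra.norm M (u i') = Algebra.norm M (u i)
            rw [← map_mul, div_mul_cancel₀ _ (hu0 i')]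
          rw [haii] at h1
          apply mul_right_cancel₀ (ha0 i')
          rw [h1]
          ring
        exact normres hWv huniq hfW q hram hfr ℓ φ rfl _ (Algebra.norm_ne_zero_iff.2 hzi) c' w hw0
          hnu hφc
      · -- conjugation
        intro i i'
        obtain ⟨σ', h1, h2, h4⟩ := hΘσ σ
        obtain ⟨w, hw0, hw⟩ := hconj σ' h1 h2 h4 i i'
        have hn : ∀ z : E, Algebra.norm M (σ' z) = σ (Algebra.norm M z) := by
          intro z
          have h5 := Algebra.norm_eq_of_equiv_equiv (σ : M ≃+* M) σ' (by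
            ext z
            exact (h1 z).symm) z
          rw [h5]
          exact ((σ : M ≃+* M).apply_symm_apply _).symm
        refine ⟨Algebra.norm M w, Algebra.norm_ne_zero_iff.2 hw0, ?_⟩
        show σ (Algebra.norm M (u i)) * Algebra.norm M (u (s σ i')) =
          σ (Algebra.norm M (u i')) * Algebra.norm M (u (s σ i)) * Algebra.norm M w ^ q
        rw [← hn, ← hn, ← map_mul, ← map_mul, ← map_pow, ← map_mul, hw]

end Run7.h846
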