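import Pool.Agent.Run7.h846.Val

/-!
# The valuation of a norm
-/

set_option autoImplicit false

set_option linter.unusedSectionVars false

namespace Run7.h846

open NumberField IsDedekindDomain

section cnt

variable {F : Type} [Field F] [NumberField F]

/-- the exponent of `v` in the ideal `I` -/
noncomputable def cnt (v : HeightOneSpectrum (𝓞 F)) (I : Ideal (𝓞 F)) : ℕ :=
  open scoped Classical in (Associates.mk v.asIdeal).count (Associates.mk I).factors

lemma cnt_mul (v : HeightOneSpectrum (𝓞 F)) {I J : Ideal (𝓞 F)} (hI : I ≠ 0) (hJ : J ≠ 0) :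
    cnt v (I * J) = cnt v I + cnt v J := by
  classical
  unfold cnt
  rw [← Associates.mk_mul_mk, Associates.count_mul (Associates.mk_ne_zero.2 hI)
    (Associates.mk_ne_zero.2 hJ) v.associates_irreducible]

lemma cnt_top (v : HeightOneSpectrum (𝓞 F)) : cnt v (1 : Ideal (𝓞 F)) = 0 := by
  have h := cnt_mul v (one_ne_zero (α := Ideal (𝓞 F))) one_ne_zero
  rw [one_mul] at h
  omega

lemma cnt_pow (v : HeightOneSpectrum (𝓞 F)) {I : Ideal (𝓞 F)} (hI : I ≠ 0) (n : ℕ) :
    cnt v (I ^ n) = n * cnt v I := by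
  induction n with
  | zero => rw [pow_zero, cnt_top, zero_mul]
  | succ n ih => rw [pow_succ, cnt_mul v (pow_ne_zero _ hI) hI, ih]; ring

lemma cnt_self (v : HeightOneSpectrum (𝓞 F)) : cnt v v.asIdeal = 1 := by
  classical
  unfold cnt
  exact Associates.count_self v.associates_irreducible

lemma cnt_ne (v : HeightOneSpectrum (𝓞 F)) {w : HeightOneSpectrum (𝓞 F)} (h : v ≠ w) :
    cnt v w.asIdeal = 0 := by
  classical
  unfold cnt
  apply Associates.count_eq_zero_of_ne v.associates_irreducible w.associates_irreducible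
  intro h1
  apply h
  rw [Associates.mk_eq_mk_iff_associated, associated_iff_eq] at h1
  exact HeightOneSpectrum.ext h1

lemma ord_eq_cnt (v : HeightOneSpectrum (𝓞 F)) {r : 𝓞 F} (hr : r ≠ 0) :
    ord v (r : F) = cnt v (Ideal.span {r}) := by
  classical
  unfold ord cnt
  rw [show (r : F) = algebraMap (𝓞 F) F r from rfl, HeightOneSpectrum.valuation_of_algebraMap,
    HeightOneSpectrum.intValuation_if_neg _ hr, WithZero.log_exp, neg_neg]

end cnt

variable {F E : Type} [Field F] [NumberField F] [Field E] [NumberField E] [Algebra F E]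

/-- `W` lies over `v` -/
def Over (W : HeightOneSpectrum (𝓞 E)) (v : HeightOneSpectrum (𝓞 F)) : Prop :=
  W.asIdeal.LiesOver v.asIdeal

lemma over_iff {W : HeightOneSpectrum (𝓞 E)} {v : HeightOneSpectrum (𝓞 F)} :
    Over W v ↔ ∀ x : 𝓞 F, x ∈ v.asIdeal ↔ algebraMap (𝓞 F) (𝓞 E) x ∈ W.asIdeal := by
  constructor
  · intro h x
    rw [h.over]
    exact Iff.rfl
  · intro h
    refine ⟨?_⟩
    ext x
    exact h x

lemma finite_over (v : HeightOneSpectrum (𝓞 F)) : {W : HeightOneSpectrum (𝓞 E) | Over W v}.Finite := by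
  have h1 : ((IsDedekindDomain.primesOverFinset v.asIdeal (𝓞 E) : Finset (Ideal (𝓞 E))) : Set (Ideal (𝓞 E))).Finite :=
    Finset.finite_toSet _
  refine Set.Finite.of_finite_image (f := fun W => W.asIdeal) (h1.subset ?_) ?_
  · rintro _ ⟨W, hW, rfl⟩
    rw [Finset.mem_coe, IsDedekindDomain.mem_primesOverFinset_iff v.ne_bot]
    exact ⟨W.isPrime, hW⟩
  · intro W _ W' _ h
    exact HeightOneSpectrum.ext h

/-- the primes over `v` -/
noncomputable def above (E : Type) [Field E] [NumberField E] [Algebra F E]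
    (v : HeightOneSpectrum (𝓞 F)) : Finset (HeightOneSpectrum (𝓞 E)) :=
  (finite_over (E := E) v).toFinset

lemma mem_above {v : HeightOneSpectrum (𝓞 F)} {W : HeightOneSpectrum (𝓞 E)} :
    W ∈ above E v ↔ Over W v := by
  unfold above
  rw [Set.Finite.mem_toFinset]
  exact Iff.rfl

/-- the residue degree -/
noncomputable def fdeg (F : Type) [Field F] [NumberField F] [Algebra F E]
    (W : HeightOneSpectrum (𝓞 E)) : ℕ := W.asIdeal.inertiaDeg (𝓞 F)

lemma exists_over (v : HeightOneSpectrum (𝓞 F)) : ∃ W : HeightOneSpectrum (𝓞 E), Over W v := by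
  obtain ⟨P, hP, hPv⟩ := Ideal.exists_maximal_ideal_liesOver_of_isIntegral (S := 𝓞 E) v.asIdeal
  have hP0 : P ≠ ⊥ := Ideal.ne_bot_of_liesOver_of_ne_bot v.ne_bot P
  exact ⟨⟨P, hP.isPrime, hP0⟩, hPv⟩

lemma exists_under (W : HeightOneSpectrum (𝓞 E)) : ∃ v : HeightOneSpectrum (𝓞 F), Over W v := by
  have h : W.asIdeal.under (𝓞 F) ≠ ⊥ := Ideal.under_ne_bot (𝓞 F) W.ne_bot
  exact ⟨⟨W.asIdeal.under (𝓞 F), inferInstance, h⟩, ⟨rfl⟩⟩

lemma over_unique {W : HeightOneSpectrum (𝓞 E)} {v v' : HeightOneSpectrum (𝓞 F)} (h : Over W v)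
    (h' : Over W v') : v = v' := by
  apply HeightOneSpectrum.ext
  rw [h.over, h'.over]

theorem cnt_relNorm (v : HeightOneSpectrum (𝓞 F)) (I : Ideal (𝓞 E)) (hI : I ≠ 0) :
    cnt v (Ideal.relNorm (𝓞 F) I) = ∑ W ∈ above E v, fdeg F W * cnt W I := by
  classical
  induction I using UniqueFactorizationMonoid.induction_on_prime with
  | h₁ => exact absurd rfl hI
  | h₂ x hx =>
    rw [Ideal.isUnit_iff] at hx
    subst hx
    rw [Ideal.relNorm_top, ← Ideal.one_eq_top, cnt_top]
    symm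
    apply Finset.sum_eq_zero
    intro W _
    rw [← Ideal.one_eq_top, cnt_top, mul_zero]
  | h₃ J P hJ hP ih =>
    rw [map_mul, cnt_mul v _ _, ih hJ]
    · have hcm : ∀ W ∈ above E v, fdeg F W * cnt W (P * J) = fdeg F W * cnt W P + fdeg F W * cnt W J := by
        intro W _
        rw [cnt_mul W hP.ne_zero hJ, mul_add]
      rw [Finset.sum_congr rfl hcm, Finset.sum_add_distrib]
      congr 1
      let W₀ : HeightOneSpectrum (𝓞 E) := ⟨P, Ideal.isPrime_of_prime hP, hP.ne_zero⟩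
      obtain ⟨v₀, hv₀⟩ := exists_under (F := F) W₀
      have h1 : P.LiesOver v₀.asIdeal := hv₀
      have h2 : P.IsMaximal := W₀.isMaximal
      have h3 : v₀.asIdeal.IsMaximal := v₀.isMaximal
      rw [Ideal.relNorm_eq_pow_of_isMaximal P v₀.asIdeal, cnt_pow v v₀.ne_bot]
      by_cases hvv : v = v₀
      · subst hvv
        rw [cnt_self, mul_one, Finset.sum_eq_single W₀]
        · rw [show P = W₀.asIdeal from rfl, cnt_self, mul_one]
          rfl
        · intro W _ hW
          rw [show P = W₀.asIdeal from rfl, cnt_ne W hW, mul_zero]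
        · intro h
          exact absurd (mem_above.2 hv₀) h
      · rw [cnt_ne v hvv, mul_zero]
        symm
        apply Finset.sum_eq_zero
        intro W hW
        have hne : W ≠ W₀ := by
          rintro rfl
          exact hvv (over_unique (mem_above.1 hW) hv₀)
        rw [show P = W₀.asIdeal from rfl, cnt_ne W hne, mul_zero]
    · rw [Ne, Ideal.zero_eq_bot, Ideal.relNorm_eq_bot_iff]
      exact hP.ne_zero
    · rw [Ne, Ideal.zero_eq_bot, Ideal.relNorm_eq_bot_iff]
      exact hJ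

theorem ord_norm_int (v : HeightOneSpectrum (𝓞 F)) (z : 𝓞 E) (hz : z ≠ 0) :
    ord v (Algebra.norm F (z : E)) = ∑ W ∈ above E v, (fdeg F W : ℤ) * ord W (z : E) := by
  have h1 : Ideal.span {z} ≠ (0 : Ideal (𝓞 E)) := by
    rw [Ne, Ideal.zero_eq_bot, Ideal.span_singleton_eq_bot]
    exact hz
  have h2 := cnt_relNorm v (Ideal.span {z}) h1
  rw [Ideal.relNorm_singleton] at h2
  have h3 : (algebraMap (𝓞 F) F (Algebra.intNorm (𝓞 F) (𝓞 E) z)) = Algebra.norm F (z : E) :=
    Algebra.algebraMap_intNorm (A := 𝓞 F) (K := F) (L := E) (B := 𝓞 E) z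
  have h4 : Algebra.intNorm (𝓞 F) (𝓞 E) z ≠ 0 := by
    rw [Ne, Algebra.intNorm_eq_zero]
    exact hz
  rw [← h3]
  rw [show (algebraMap (𝓞 F) F (Algebra.intNorm (𝓞 F) (𝓞 E) z)) =
    ((Algebra.intNorm (𝓞 F) (𝓞 E) z : 𝓞 F) : F) from rfl, ord_eq_cnt v h4, h2]
  push_cast
  refine Finset.sum_congr rfl fun W _ => ?_
  rw [ord_eq_cnt W hz]

/-- the valuation of a norm -/
theorem ord_norm (v : HeightOneSpectrum (𝓞 F)) (z : E) (hz : z ≠ 0) :
    ord v (Algebra.norm F z) = ∑ W ∈ above E v, (fdeg F W : ℤ) * ord W z := by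
  have hfin : FiniteDimensional F E := inferInstance
  obtain ⟨a, d, hd, hzad⟩ := IsFractionRing.div_surjective (A := 𝓞 E) z
  have hd0 : d ≠ 0 := nonZeroDivisors.ne_zero hd
  have ha0 : a ≠ 0 := by
    rintro rfl
    rw [map_zero, zero_div] at hzad
    exact hz hzad.symm
  have hdE : (algebraMap (𝓞 E) E d) ≠ 0 := by
    rw [Ne, FaithfulSMul.algebraMap_eq_zero_iff]
    exact hd0
  have haE : (algebraMap (𝓞 E) E a) ≠ 0 := by
    rw [Ne, FaithfulSMul.algebraMap_eq_zero_iff]
    exact ha0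
  have hzd : algebraMap (𝓞 E) E a = z * algebraMap (𝓞 E) E d := by
    rw [← hzad, div_mul_cancel₀ _ hdE]
  have hN : ord v (Algebra.norm F z) =
      ord v (Algebra.norm F (algebraMap (𝓞 E) E a)) - ord v (Algebra.norm F (algebraMap (𝓞 E) E d)) := by
    rw [hzd, map_mul, ord_mul v (Algebra.norm_ne_zero_iff.2 hz) (Algebra.norm_ne_zero_iff.2 hdE)]
    ring
  rw [hN]
  have h1 := ord_norm_int v a ha0
  have h2 := ord_norm_int v d hd0
  rw [show ((a : 𝓞 E) : E) = algebraMap (𝓞 E) E a from rfl] at h1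
  rw [show ((d : 𝓞 E) : E) = algebraMap (𝓞 E) E d from rfl] at h2
  rw [h1, h2, ← Finset.sum_sub_distrib]
  refine Finset.sum_congr rfl fun W _ => ?_
  rw [← hzad, ord_div W haE hdE]
  ring

lemma fdeg_pos (W : HeightOneSpectrum (𝓞 E)) : 0 < fdeg F W := by
  obtain ⟨v, hv⟩ := exists_under (F := F) W
  have h1 : W.asIdeal.LiesOver v.asIdeal := hv
  have h2 : v.asIdeal.IsMaximal := v.isMaximal
  exact Ideal.inertiaDeg_pos _ _

/-- ramification -/
lemma exists_ram {W : HeightOneSpectrum (𝓞 E)} {v : HeightOneSpectrum (𝓞 F)} (h : Over W v) :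
    ∃ e : ℕ, 0 < e ∧ ∀ a : F, ord W (algebraMap F E a) = e * ord v a := by
  have h1 : W.asIdeal.LiesOver v.asIdeal := h
  refine ⟨v.asIdeal.ramificationIdx' W.asIdeal, Nat.pos_of_ne_zero
    (Ideal.IsDedekindDomain.ramificationIdx'_ne_zero_of_liesOver W.asIdeal v.ne_bot), fun a => ?_⟩
  unfold ord
  rw [← HeightOneSpectrum.valuation_liesOver E v W a, WithZero.log_pow, nsmul_eq_mul]
  ring

end Run7.h846
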