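import Mathlib

/-! Local Zariski closures of rational points and families of automorphisms. -/

set_option autoImplicit false

namespace Run7.h846.OB

open MvPolynomial

section

variable {K : Type} [Field K] {n : ℕ}

/-- the substitution `X ↦ A(t) X` -/
noncomputable def Phi (A : Matrix (Fin n) (Fin n) (Polynomial K)) :
    MvPolynomial (Fin n) K →ₐ[K] Polynomial (MvPolynomial (Fin n) K) :=
  aeval fun j => ∑ l, (A j l).map C * Polynomial.C (X l)

/-- the value of the matrix at `t` -/
noncomputable def mv {B : Type} [CommRing B] [Algebra K B]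
    (A : Matrix (Fin n) (Fin n) (Polynomial K)) (t : B) (y : Fin n → B) : Fin n → B :=
  fun j => ∑ l, Polynomial.aeval t (A j l) * y l

theorem Phi_eval {B : Type} [CommRing B] [Algebra K B]
    (A : Matrix (Fin n) (Fin n) (Polynomial K)) (t : B) (y : Fin n → B)
    (f : MvPolynomial (Fin n) K) :
    Polynomial.eval₂ ((aeval y : MvPolynomial (Fin n) K →ₐ[K] B) : _ →+* B) t (Phi A f) =
      aeval (mv A t y) f := by
  induction f using MvPolynomial.induction_on with
  | C c =>
    rw [aeval_C]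
    have e : Phi A (C c) = Polynomial.C (C c) := by
      unfold Phi
      rw [aeval_C]
      rfl
    rw [e, Polynomial.eval₂_C]
    change aeval y (C c) = _
    rw [aeval_C]
  | add p q hp hq => rw [map_add, map_add, Polynomial.eval₂_add, hp, hq]
  | mul_X p i hp =>
    rw [map_mul, map_mul, Polynomial.eval₂_mul, hp, aeval_X]
    congr 1
    have e : Phi A (X i) = ∑ l, (A i l).map C * Polynomial.C (X l) := by
      unfold Phi
      rw [aeval_X]
    rw [e, Polynomial.eval₂_finset_sum]
    unfold mv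
    refine Finset.sum_congr rfl fun l _ => ?_
    rw [Polynomial.eval₂_mul, Polynomial.eval₂_C, Polynomial.eval₂_map]
    congr 1
    · rw [Polynomial.aeval_def]
      congr 1
      ext c
      change aeval y (C c) = _
      rw [aeval_C]
    · exact aeval_X y l

/-- the coefficients vanish if the values do -/
theorem coeff_zero (A : Matrix (Fin n) (Fin n) (Polynomial K)) (y : Fin n → K)
    (f : MvPolynomial (Fin n) K) {s : Set K} (hs : s.Infinite)
    (h : ∀ t ∈ s, eval (mv A t y) f = 0) (b : ℕ) : eval y ((Phi A f).coeff b) = 0 := by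
  have h1 : (Phi A f).map (eval y) = 0 := by
    refine Polynomial.eq_zero_of_infinite_isRoot _ (hs.mono fun t ht => ?_)
    have h2 := Phi_eval A t y f
    have h3 := h t ht
    change Polynomial.eval t ((Phi A f).map (eval y)) = 0
    rw [Polynomial.eval_map]
    change Polynomial.eval₂ _ t (Phi A f) = aeval (mv A t y) f at h2
    refine Eq.trans ?_ (h2.trans h3)
    rfl
  have h2 := congrArg (fun P => Polynomial.coeff P b) h1
  simpa [Polynomial.coeff_map] using h2

/-- the values vanish if the coefficients do -/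
theorem value_zero {B : Type} [CommRing B] [Algebra K B]
    (A : Matrix (Fin n) (Fin n) (Polynomial K)) (y : Fin n → B)
    (f : MvPolynomial (Fin n) K) (h : ∀ b, aeval y ((Phi A f).coeff b) = 0) (t : B) :
    aeval (mv A t y) f = 0 := by
  rw [← Phi_eval, Polynomial.eval₂_eq_sum_range]
  refine Finset.sum_eq_zero fun b _ => ?_
  change aeval y ((Phi A f).coeff b) * t ^ b = 0
  rw [h b, zero_mul]

variable {L : Type} [NontriviallyNormedField L]

/-- the rational points near `x` -/
def Pts (σ : K →+* L) (S : Set (MvPolynomial (Fin n) K)) (U : Set (Fin n → L)) :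
    Set (Fin n → K) :=
  {y | y ≠ 0 ∧ (∀ g ∈ S, eval y g = 0) ∧ ∃ c : L, c ≠ 0 ∧ (fun i => c * σ (y i)) ∈ U}

/-- the ideal of the local Zariski closure -/
def JI (σ : K →+* L) (S : Set (MvPolynomial (Fin n) K)) (x : Fin n → L) :
    Ideal (MvPolynomial (Fin n) K) where
  carrier := {f | ∃ U ∈ nhds x, ∀ y ∈ Pts σ S U, ∀ t : K, eval (t • y) f = 0}
  add_mem' := by
    rintro f g ⟨U, hU, hf⟩ ⟨V, hV, hg⟩
    refine ⟨U ∩ V, Filter.inter_mem hU hV, fun y hy t => ?_⟩
    obtain ⟨h0, h1, c, hc, h2, h3⟩ := hy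
    rw [map_add, hf y ⟨h0, h1, c, hc, h2⟩, hg y ⟨h0, h1, c, hc, h3⟩, add_zero]
  zero_mem' := ⟨Set.univ, Filter.univ_mem, fun y _ t => map_zero _⟩
  smul_mem' := by
    rintro a f ⟨U, hU, hf⟩
    refine ⟨U, hU, fun y hy t => ?_⟩
    rw [smul_eq_mul, map_mul, hf y hy, mul_zero]

theorem mem_JI {σ : K →+* L} {S : Set (MvPolynomial (Fin n) K)} {x : Fin n → L}
    {f : MvPolynomial (Fin n) K} :
    f ∈ JI σ S x ↔ ∃ U ∈ nhds x, ∀ y ∈ Pts σ S U, ∀ t : K, eval (t • y) f = 0 := Iff.rfl

theorem JI_radical (σ : K →+* L) (S : Set (MvPolynomial (Fin n) K)) (x : Fin n → L) :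
    (JI σ S x).radical = JI σ S x := by
  apply le_antisymm _ Ideal.le_radical
  rintro f ⟨k, U, hU, hf⟩
  refine ⟨U, hU, fun y hy t => ?_⟩
  have := hf y hy t
  rw [map_pow] at this
  exact eq_zero_of_pow_eq_zero this

/-- the scalar matrices -/
noncomputable def scal (K : Type) [Field K] (n : ℕ) : Matrix (Fin n) (Fin n) (Polynomial K) :=
  Matrix.diagonal fun _ => Polynomial.X

theorem smul_eq_mv {B : Type} [CommRing B] [Algebra K B] (t : B) (y : Fin n → B) :
    t • y = mv (scal K n) t y := by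
  funext j
  unfold mv scal
  rw [Finset.sum_eq_single j]
  · simp
  · intro l _ hl
    rw [Matrix.diagonal_apply_ne _ (Ne.symm hl)]
    simp
  · simp

theorem infinite_small (σ : K →+* L) (hσ : DenseRange σ) {δ : ℝ} (hδ : 0 < δ) :
    {t : K | ‖σ t‖ < δ}.Infinite := by
  obtain ⟨a, ha0, ha⟩ := NormedField.exists_norm_lt L (show 0 < min δ 1 from lt_min hδ zero_lt_one)
  have hopen : IsOpen {z : L | 0 < ‖z‖ ∧ ‖z‖ < min δ 1} :=
    (isOpen_lt continuous_const continuous_norm).inter (isOpen_lt continuous_norm continuous_const)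
  obtain ⟨t, ht⟩ := hσ.exists_mem_open hopen ⟨a, ha0, ha⟩
  have h1 : ‖σ t‖ < 1 := lt_of_lt_of_le ht.2 (min_le_right _ _)
  have h2 : ‖σ t‖ < δ := lt_of_lt_of_le ht.2 (min_le_left _ _)
  refine Set.infinite_of_injective_forall_mem (f := fun k : ℕ => t ^ (k + 1)) ?_ ?_
  · intro k l hkl
    have h3 : ‖σ t‖ ^ (k + 1) = ‖σ t‖ ^ (l + 1) := by
      rw [← norm_pow, ← norm_pow, ← map_pow, ← map_pow]
      exact congrArg (fun z => ‖σ z‖) hkl
    have h4 := pow_right_injective₀ ht.1 h1.ne h3
    omega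
  · intro k
    change ‖σ (t ^ (k + 1))‖ < δ
    rw [map_pow, norm_pow, pow_succ]
    have h3 : ‖σ t‖ ^ k ≤ 1 := pow_le_one₀ (norm_nonneg _) h1.le
    have h4 := ht.1
    nlinarith

/-- invariance under the scalars -/
theorem JI_scale [Infinite K] {σ : K →+* L} {S : Set (MvPolynomial (Fin n) K)} {x : Fin n → L}
    {f : MvPolynomial (Fin n) K} (hf : f ∈ JI σ S x) (b : ℕ) :
    (Phi (scal K n) f).coeff b ∈ JI σ S x := by
  obtain ⟨U, hU, hf⟩ := hf
  refine ⟨U, hU, fun y hy t => ?_⟩
  refine coeff_zero _ _ _ Set.infinite_univ (fun s _ => ?_) b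
  rw [← smul_eq_mv (K := K), smul_smul]
  exact hf y hy _

/-- invariance under the families of automorphisms -/
theorem JI_family {σ : K →+* L} (hσ : DenseRange σ) {S : Set (MvPolynomial (Fin n) K)}
    {A : Matrix (Fin n) (Fin n) (Polynomial K)}
    (hA0 : ∀ j l, (A j l).eval 0 = if j = l then 1 else 0)
    (hAS : ∀ y : Fin n → K, (∀ g ∈ S, eval y g = 0) → ∀ t : K, ∀ g ∈ S, eval (mv A t y) g = 0)
    {x : Fin n → L} {f : MvPolynomial (Fin n) K} (hf : f ∈ JI σ S x) (b : ℕ) :
    (Phi A f).coeff b ∈ JI σ S x := by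
  obtain ⟨U, hU, hf⟩ := hf
  -- the family is continuous
  let G : L × (Fin n → L) → (Fin n → L) := fun p j =>
    ∑ l, Polynomial.eval p.1 ((A j l).map σ) * p.2 l
  have hG : Continuous G := by
    refine continuous_pi fun j => continuous_finsetSum _ fun l _ => ?_
    exact (((A j l).map σ).continuous.comp continuous_fst).mul
      ((continuous_apply l).comp continuous_snd)
  have hG0 : G (0, x) = x := by
    funext j
    change ∑ l, Polynomial.eval 0 ((A j l).map σ) * x l = x j
    rw [Finset.sum_eq_single j]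
    · have : Polynomial.eval (0 : L) ((A j j).map σ) = σ ((A j j).eval 0) := by
        rw [Polynomial.eval_map, ← map_zero σ, Polynomial.eval₂_at_apply]
      rw [this, hA0, if_pos rfl, map_one, one_mul]
    · intro l _ hl
      have : Polynomial.eval (0 : L) ((A j l).map σ) = σ ((A j l).eval 0) := by
        rw [Polynomial.eval_map, ← map_zero σ, Polynomial.eval₂_at_apply]
      rw [this, hA0, if_neg (Ne.symm hl), map_zero, zero_mul]
    · simp
  have hpre : G ⁻¹' U ∈ nhds ((0 : L), x) := by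
    apply hG.continuousAt.preimage_mem_nhds
    rw [hG0]
    exact hU
  rw [nhds_prod_eq, Filter.mem_prod_iff] at hpre
  obtain ⟨V, hV, W, hW, hVW⟩ := hpre
  obtain ⟨δ, hδ, hball⟩ := Metric.mem_nhds_iff.1 hV
  refine ⟨U ∩ W, Filter.inter_mem hU hW, fun y hy s => ?_⟩
  obtain ⟨h0, h1, c, hc, hcU, hcW⟩ := hy
  have hf0 : eval (0 : Fin n → K) f = 0 := by
    have := hf y ⟨h0, h1, c, hc, hcU⟩ 0
    rwa [zero_smul] at this
  refine coeff_zero _ _ _ (infinite_small σ hσ hδ) (fun t ht => ?_) b
  have e1 : mv A t (s • y) = s • mv A t y := by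
    funext j
    simp only [mv, Pi.smul_apply, smul_eq_mul, Finset.mul_sum]
    exact Finset.sum_congr rfl fun l _ => by ring
  rw [e1]
  by_cases hz : mv A t y = 0
  · rw [hz, smul_zero]
    exact hf0
  · refine hf (mv A t y) ⟨hz, hAS y h1 t, c, hc, ?_⟩ s
    have h2 : ((σ t, fun i => c * σ (y i)) : L × (Fin n → L)) ∈ G ⁻¹' U := by
      apply hVW
      refine ⟨hball ?_, hcW⟩
      rw [mem_ball_zero_iff]
      exact ht
    have h3 : G (σ t, fun i => c * σ (y i)) = fun i => c * σ (mv A t y i) := by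
      funext j
      change ∑ l, Polynomial.eval (σ t) ((A j l).map σ) * (c * σ (y l)) = c * σ (mv A t y j)
      unfold mv
      rw [map_sum, Finset.mul_sum]
      refine Finset.sum_congr rfl fun l _ => ?_
      rw [Polynomial.eval_map, Polynomial.eval₂_at_apply, map_mul, Polynomial.coe_aeval_eq_eval]
      ring
    rw [← h3]
    exact h2

end

end Run7.h846.OB
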