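import Pool.Agent.Run7.h846.OrbA

/-! Local Zariski closures of rational points on varieties with finitely many orbits. -/

set_option autoImplicit false

namespace Run7.h846.OB

open MvPolynomial

section

variable {K : Type} [Field K] {n : ℕ}

theorem hom_scale' {d : ℕ} {p : MvPolynomial (Fin n) K} (hp : p.IsHomogeneous d) (t : K)
    (u : Fin n → K) : eval (t • u) p = t ^ d * eval u p := by
  rw [eval_eq, eval_eq, Finset.mul_sum]
  refine Finset.sum_congr rfl fun m hm => ?_
  simp only [Pi.smul_apply, smul_eq_mul, mul_pow, Finset.prod_mul_distrib]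
  rw [Finset.prod_pow_eq_pow_sum, ← hp.degree_eq_sum_deg_support hm]
  ring

variable {ι : Type} {L : Type} [NontriviallyNormedField L]

/-- one step: a member of one of the families, and a scalar -/
def Step (A : ι → Matrix (Fin n) (Fin n) (Polynomial K))
    (y y' : Fin n → AlgebraicClosure K) : Prop :=
  ∃ (i : ι) (t c : AlgebraicClosure K), c ≠ 0 ∧ y' = c • mv (A i) t y

/-- the zeros of the local ideal -/
def VV (σ : K →+* L) (S : Set (MvPolynomial (Fin n) K)) (x : Fin n → L) :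
    Set (Fin n → AlgebraicClosure K) := {y | ∀ f ∈ JI σ S x, aeval y f = 0}

variable [Infinite K] {σ : K →+* L} {S : Set (MvPolynomial (Fin n) K)}
  {A : ι → Matrix (Fin n) (Fin n) (Polynomial K)}

theorem VV_step (hσ : DenseRange σ)
    (hA0 : ∀ i j l, (A i j l).eval 0 = if j = l then 1 else 0)
    (hAS : ∀ i, ∀ y : Fin n → K, (∀ g ∈ S, eval y g = 0) →
      ∀ t : K, ∀ g ∈ S, eval (mv (A i) t y) g = 0)
    {x : Fin n → L} {y y' : Fin n → AlgebraicClosure K} (hy : y ∈ VV σ S x)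
    (h : Step A y y') : y' ∈ VV σ S x := by
  obtain ⟨i, t, c, -, rfl⟩ := h
  have h1 : mv (A i) t y ∈ VV σ S x := fun f hf =>
    value_zero (A i) y f (fun b => hy _ (JI_family hσ (hA0 i) (hAS i) hf b)) t
  intro f hf
  rw [smul_eq_mv (K := K)]
  exact value_zero _ _ f (fun b => h1 _ (JI_scale hf b)) c

theorem VV_reach (hσ : DenseRange σ)
    (hA0 : ∀ i j l, (A i j l).eval 0 = if j = l then 1 else 0)
    (hAS : ∀ i, ∀ y : Fin n → K, (∀ g ∈ S, eval y g = 0) →
      ∀ t : K, ∀ g ∈ S, eval (mv (A i) t y) g = 0)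
    {x : Fin n → L} {y y' : Fin n → AlgebraicClosure K} (hy : y ∈ VV σ S x)
    (h : Relation.ReflTransGen (Step A) y y') : y' ∈ VV σ S x := by
  induction h with
  | refl => exact hy
  | tail _ h1 ih => exact VV_step hσ hA0 hAS ih h1

omit [Infinite K] in
theorem S_mem (hS : ∀ f ∈ S, ∃ d : ℕ, f.IsHomogeneous d) {x : Fin n → L}
    {g : MvPolynomial (Fin n) K} (hg : g ∈ S) : g ∈ JI σ S x := by
  obtain ⟨d, hd⟩ := hS g hg
  refine ⟨Set.univ, Filter.univ_mem, fun y hy t => ?_⟩
  rw [hom_scale' hd, hy.2.1 g hg, mul_zero]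

omit [Infinite K] in
theorem JI_eq {x x' : Fin n → L} (h : VV σ S x = VV σ S x') : JI σ S x = JI σ S x' := by
  have key : ∀ z : Fin n → L,
      JI σ S z = vanishingIdeal K (VV σ S z) := by
    intro z
    have h1 := vanishingIdeal_zeroLocus_eq_radical (K := AlgebraicClosure K) (JI σ S z)
    rw [JI_radical] at h1
    exact h1.symm
  rw [key, key, h]

/-- finitely many orbits give finitely many local closures -/
theorem finite_JI (hσ : DenseRange σ) (hS : ∀ f ∈ S, ∃ d : ℕ, f.IsHomogeneous d)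
    (hA0 : ∀ i j l, (A i j l).eval 0 = if j = l then 1 else 0)
    (hAS : ∀ i, ∀ y : Fin n → K, (∀ g ∈ S, eval y g = 0) →
      ∀ t : K, ∀ g ∈ S, eval (mv (A i) t y) g = 0)
    {F : Set (Fin n → AlgebraicClosure K)} (hF : F.Finite)
    (hFo : ∀ y : Fin n → AlgebraicClosure K, y ≠ 0 → (∀ g ∈ S, aeval y g = 0) →
      ∃ p ∈ F, Relation.ReflTransGen (Step A) y p ∧ Relation.ReflTransGen (Step A) p y) :
    (Set.range fun x : Fin n → L => JI σ S x).Finite := by
  classical
  let Ψ : (Fin n → L) → Set (Fin n → AlgebraicClosure K) := fun x => VV σ S x ∩ (F ∪ {0})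
  have hΨ : (Set.range Ψ).Finite := by
    refine ((hF.union (Set.finite_singleton 0)).finite_subsets).subset ?_
    rintro _ ⟨x, rfl⟩
    exact Set.inter_subset_right
  have hsub : ∀ x x', Ψ x = Ψ x' → VV σ S x ⊆ VV σ S x' := by
    intro x x' h y hy
    by_cases hy0 : y = 0
    · have h1 : y ∈ Ψ x := ⟨hy, Or.inr hy0⟩
      rw [h] at h1
      exact h1.1
    · obtain ⟨p, hp, hyp, hpy⟩ := hFo y hy0 fun g hg => hy g (S_mem hS hg)
      have h1 : p ∈ Ψ x := ⟨VV_reach hσ hA0 hAS hy hyp, Or.inl hp⟩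
      rw [h] at h1
      exact VV_reach hσ hA0 hAS h1.1 hpy
  -- choose a point for each value
  have hfac : ∀ x x', Ψ x = Ψ x' → JI σ S x = JI σ S x' := fun x x' h =>
    JI_eq (Set.Subset.antisymm (hsub x x' h) (hsub x' x h.symm))
  let g : Set (Fin n → AlgebraicClosure K) → Ideal (MvPolynomial (Fin n) K) := fun P =>
    if h : ∃ x, Ψ x = P then JI σ S h.choose else ⊥
  refine (hΨ.image g).subset ?_
  rintro _ ⟨x, rfl⟩
  refine ⟨Ψ x, ⟨x, rfl⟩, ?_⟩
  have hex : ∃ x', Ψ x' = Ψ x := ⟨x, rfl⟩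
  have h1 : g (Ψ x) = JI σ S hex.choose := dif_pos hex
  rw [h1]
  exact hfac _ _ hex.choose_spec

end

end Run7.h846.OB
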