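import Pool.Agent.Run7.h846.Dec

/-!
# Specialising finite extensions of function fields
-/

set_option autoImplicit false

namespace Run7.h846

open Polynomial Pointwise Pool.Agent.H391R2

/-- a finite Galois extension containing a given finite extension -/
theorem rel_galois (k E₀ : Type) [Field k] [CharZero k] [Field E₀] [Algebra k E₀]
    [FiniteDimensional k E₀] :
    ∃ (N : Type) (_ : Field N) (_ : Algebra k N) (_ : Algebra E₀ N), IsScalarTower k E₀ N ∧
      FiniteDimensional k N ∧ IsGalois k N := by
  let Ab : Type := AlgebraicClosure E₀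
  have h1 : Algebra.IsAlgebraic k Ab := Algebra.IsAlgebraic.trans k E₀ Ab
  have h2 : IsAlgClosure k Ab := ⟨inferInstance, h1⟩
  have h3 : Normal k Ab := IsAlgClosure.normal k Ab
  let N : Type := IntermediateField.normalClosure k E₀ Ab
  have hno : Normal k N := normalClosure.normal (F := k) (K := E₀) (L := Ab)
  have hfd : FiniteDimensional k N := inferInstance
  exact ⟨N, inferInstance, inferInstance, inferInstance, inferInstance, hfd, ⟨⟩⟩

/-- the fraction field of a finitely generated integral extension is finite -/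
theorem finite_frac (A R k F : Type) [CommRing A] [IsDomain A] [CommRing R] [IsDomain R] [Field k]
    [Field F] [Algebra A R] [Algebra A k] [IsFractionRing A k] [Algebra R F] [IsFractionRing R F]
    [Algebra k F] [Algebra A F] [IsScalarTower A k F] [IsScalarTower A R F]
    [Algebra.FiniteType A R] [Algebra.IsIntegral A R] : FiniteDimensional k F := by
  obtain ⟨T, hT⟩ := Algebra.FiniteType.out (R := A) (A := R)
  let S : Set F := (algebraMap R F) '' (T : Set R)
  have hSfin : Finite S := (T.finite_toSet.image _)
  have hint : ∀ x ∈ S, IsIntegral k x := by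
    rintro _ ⟨r, _, rfl⟩
    have h1 : IsIntegral A r := Algebra.IsIntegral.isIntegral r
    have h2 : IsIntegral A (algebraMap R F r) := h1.algebraMap
    exact h2.tower_top
  have hfd : FiniteDimensional k (IntermediateField.adjoin k S) :=
    IntermediateField.finiteDimensional_adjoin hint
  have hR : ∀ r : R, algebraMap R F r ∈ IntermediateField.adjoin k S := by
    intro r
    have h1 : r ∈ Algebra.adjoin A (T : Set R) := by
      rw [hT]
      trivial
    induction h1 using Algebra.adjoin_induction with
    | mem x hx => exact IntermediateField.subset_adjoin k S ⟨x, hx, rfl⟩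
    | algebraMap a =>
      rw [← IsScalarTower.algebraMap_apply A R F, IsScalarTower.algebraMap_apply A k F]
      exact (IntermediateField.adjoin k S).algebraMap_mem _
    | add x y _ _ hx hy =>
      rw [map_add]
      exact add_mem hx hy
    | mul x y _ _ hx hy =>
      rw [map_mul]
      exact mul_mem hx hy
  have htop : IntermediateField.adjoin k S = ⊤ := by
    rw [eq_top_iff]
    intro x _
    obtain ⟨a, b, _, rfl⟩ := IsFractionRing.div_surjective (A := R) x
    exact div_mem (hR a) (hR b)
  rw [htop] at hfd
  exact IntermediateField.topEquiv.toLinearEquiv.finiteDimensional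

lemma fin_rat (κ : Type) [Field κ] [CharZero κ] (h : ∀ x : κ, ∃ r : ℚ, (r : κ) = x) :
    Module.Finite ℚ κ := by
  refine Module.Finite.of_surjective (LinearMap.toSpanSingleton ℚ κ 1) fun x => ?_
  obtain ⟨r, rfl⟩ := h x
  exact ⟨r, by rw [LinearMap.toSpanSingleton_apply, Rat.smul_one_eq_cast]⟩

lemma numberField_of_finite (κ T : Type) [Field κ] [CharZero κ] [Field T] [CharZero T] [Algebra κ T]
    (h : ∀ x : κ, ∃ r : ℚ, (r : κ) = x) (hfin : Module.Finite κ T) : NumberField T := by
  have := fin_rat κ h
  have h1 : FiniteDimensional ℚ T := FiniteDimensional.trans ℚ κ T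
  exact { to_charZero := inferInstance, to_finiteDimensional := h1 }

theorem pack (R F E₀ : Type) [CommRing R] [IsDomain R] [Algebra ℚ R] [Algebra.FiniteType ℚ R]
    [Field F] [Algebra R F] [IsFractionRing R F] [Field E₀] [Algebra F E₀] [FiniteDimensional F E₀] :
    ∃ (N : Type) (_ : Field N) (_ : Algebra F N) (_ : Algebra E₀ N), IsScalarTower F E₀ N ∧
      FiniteDimensional F N ∧ IsGalois F N ∧ ∃ B : Subring N,
      (∀ x : N, ((algebraMap F N).comp (algebraMap R F)).IsIntegralElem x → x ∈ B) ∧
      ∀ b : B, b ≠ 0 → ∃ (N₀ : Type) (_ : Field N₀) (_ : NumberField N₀) (π : B →+* N₀), π b ≠ 0 ∧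
        ∀ σ : Gal(N/F), ∃ (τ : B →+* B) (σb : N₀ →+* N₀), (∀ x : B, (τ x : N) = σ (x : N)) ∧
          ∀ x : B, σb (π x) = π (τ x) := by
  classical
  obtain ⟨n, g, ginj, gint⟩ := exists_integral_inj_algHom_of_fg ℚ R
  let A : Type := MvPolynomial (Fin n) ℚ
  have hSP : SP A := (hp_sp_fin n).2
  let k : Type := FractionRing A
  let _ : Algebra A R := g.toRingHom.toAlgebra
  let _ : Algebra A F := ((algebraMap R F).comp (algebraMap A R)).toAlgebra
  have : IsScalarTower A R F := IsScalarTower.of_algebraMap_eq fun _ => rfl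
  have hAF : Function.Injective (algebraMap A F) := (IsFractionRing.injective R F).comp ginj
  let _ : Algebra k F := (IsFractionRing.lift hAF).toAlgebra
  have : IsScalarTower A k F := IsScalarTower.of_algebraMap_eq fun x =>
    (IsFractionRing.lift_algebraMap hAF x).symm
  have : IsScalarTower ℚ A R := IsScalarTower.of_algebraMap_eq fun x => (g.commutes x).symm
  have : Algebra.FiniteType A R := Algebra.FiniteType.of_restrictScalars_finiteType ℚ A R
  have : Algebra.IsIntegral A R := ⟨fun x => gint x⟩
  have hfdF : FiniteDimensional k F := finite_frac A R k F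
  let _ : Algebra k E₀ := ((algebraMap F E₀).comp (algebraMap k F)).toAlgebra
  have : IsScalarTower k F E₀ := IsScalarTower.of_algebraMap_eq fun _ => rfl
  have : FiniteDimensional k E₀ := FiniteDimensional.trans k F E₀
  have : CharZero A := algebraRat.charZero A
  have : CharZero k := charZero_of_injective_algebraMap (IsFractionRing.injective A k)
  obtain ⟨N, _, _, _, htow, hfdN, hgal⟩ := rel_galois k E₀
  let _ : Algebra F N := ((algebraMap E₀ N).comp (algebraMap F E₀)).toAlgebra
  have : IsScalarTower F E₀ N := IsScalarTower.of_algebraMap_eq fun _ => rfl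
  have : IsScalarTower k F N := IsScalarTower.of_algebraMap_eq fun x => by
    rw [IsScalarTower.algebraMap_apply k E₀ N]
    rfl
  have hfdFN : FiniteDimensional F N := FiniteDimensional.right k F N
  have hgalFN : IsGalois F N := IsGalois.tower_top_of_isGalois k F N
  let _ : Algebra A N := ((algebraMap k N).comp (algebraMap A k)).toAlgebra
  have : IsScalarTower A k N := IsScalarTower.of_algebraMap_eq fun _ => rfl
  let _ : Algebra R N := ((algebraMap F N).comp (algebraMap R F)).toAlgebra
  have : IsScalarTower R F N := IsScalarTower.of_algebraMap_eq fun _ => rfl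
  have : IsScalarTower A R N := IsScalarTower.of_algebraMap_eq fun x => by
    show algebraMap k N (algebraMap A k x) = algebraMap F N (algebraMap R F (algebraMap A R x))
    rw [IsScalarTower.algebraMap_apply k F N, ← IsScalarTower.algebraMap_apply A k F,
      ← IsScalarTower.algebraMap_apply A R F]
  let B := integralClosure A N
  have : IsFractionRing B N := integralClosure.isFractionRing_of_finite_extension k N
  let _ : MulSemiringAction Gal(N/k) B := IsIntegralClosure.MulSemiringAction A k N B
  have hcompat : ∀ (g : Gal(N/k)) (b : B), ((g • b : B) : N) = g (b : N) := fun g b =>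
    algebraMap_galRestrict_apply A g b
  have hsm : SMulCommClass Gal(N/k) A B := by
    refine ⟨fun g a b => ?_⟩
    apply Subtype.ext
    rw [hcompat]
    have h1 : ∀ (a : A) (b : B), ((a • b : B) : N) = algebraMap A N a * (b : N) := by
      intro a b
      rw [← Algebra.smul_def]
      rfl
    rw [h1, h1, hcompat, map_mul]
    congr 1
    exact g.commutes (algebraMap A k a)
  have hinv : Algebra.IsInvariant A B Gal(N/k) := Algebra.isInvariant_of_isGalois A k N B
  have hprim : ∀ H : Subgroup Gal(N/k), H ≠ ⊤ → ∃ w : B, (∀ h ∈ H, h • w = w) ∧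
      ∃ g : Gal(N/k), g • w ≠ w := by
    intro H hH
    have h1 : ∃ x : N, x ∈ IntermediateField.fixedField H ∧
        x ∉ IntermediateField.fixedField (⊤ : Subgroup Gal(N/k)) := by
      by_contra hc
      push Not at hc
      apply hH
      have h2 : IntermediateField.fixedField H = IntermediateField.fixedField ⊤ := by
        apply le_antisymm hc
        exact IntermediateField.fixedField_antitone le_top
      rw [← IntermediateField.fixingSubgroup_fixedField H, h2,
        IntermediateField.fixingSubgroup_fixedField]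
    obtain ⟨x, hx1, hx2⟩ := h1
    have halg : IsAlgebraic A x := by
      have h2 : IsAlgebraic k x := Algebra.IsAlgebraic.isAlgebraic x
      exact (IsFractionRing.isAlgebraic_iff A k N).2 h2
    obtain ⟨d, hd0, hyd⟩ := halg.exists_integral_multiple
    let y : B := ⟨d • x, hyd⟩
    have hdk : algebraMap k N (algebraMap A k d) ≠ 0 := by
      rw [Ne, map_eq_zero, IsFractionRing.to_map_eq_zero_iff]
      exact hd0
    have hy : ((y : B) : N) = algebraMap k N (algebraMap A k d) * x := by
      show d • x = _
      rw [Algebra.smul_def]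
      rfl
    have hfix : ∀ g : Gal(N/k), g • y = y ↔ g x = x := by
      intro g
      rw [Subtype.ext_iff, hcompat, hy, map_mul, g.commutes]
      constructor
      · exact fun h => mul_left_cancel₀ hdk h
      · exact fun h => by rw [h]
    refine ⟨y, fun h hh => (hfix h).2 (hx1 ⟨h, hh⟩), ?_⟩
    by_contra hc
    push Not at hc
    apply hx2
    rintro ⟨g, _⟩
    exact (hfix g).1 (hc g)
  refine ⟨N, inferInstance, inferInstance, inferInstance, inferInstance, hfdFN, hgalFN, B.toSubring,
    ?_, ?_⟩
  · intro x hx
    have h1 : IsIntegral R x := hx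
    have h2 : IsIntegral A x := isIntegral_trans x h1
    exact h2
  · intro b hb
    let b' : B := b
    have hb' : b' ≠ 0 := hb
    have hBint : Algebra.IsIntegral A B := inferInstance
    have hAB : Function.Injective (algebraMap A B) := by
      intro x y hxy
      have h1 := congrArg (fun z : B => (z : N)) hxy
      have h2 : algebraMap k N (algebraMap A k x) = algebraMap k N (algebraMap A k y) := h1
      exact IsFractionRing.injective A k ((algebraMap k N).injective h2)
    have hfaith : FaithfulSMul A B := (faithfulSMul_iff_algebraMap_injective A B).2 hAB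
    -- a multiple in `A`
    have hD : ∃ D : A, D ≠ 0 ∧ b' ∣ algebraMap A B D := by
      have h1 : (Ideal.span {b'}).comap (algebraMap A B) ≠ ⊥ :=
        Ideal.comap_ne_bot_of_integral_mem hb' (Ideal.mem_span_singleton_self b')
          (Algebra.IsIntegral.isIntegral b')
      obtain ⟨D, hD1, hD2⟩ := Submodule.exists_mem_ne_zero_of_ne_bot h1
      exact ⟨D, hD2, Ideal.mem_span_singleton.1 hD1⟩
    obtain ⟨D, hD0, hbD⟩ := hD
    obtain ⟨φ₀, hφD, hφ⟩ := decomp (A := A) (B := B) Gal(N/k) hprim hSP D hD0
    have hsurj : Function.Surjective φ₀ := by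
      intro r
      refine ⟨algebraMap ℚ A r, ?_⟩
      have : φ₀.comp (algebraMap ℚ A) = RingHom.id ℚ := Subsingleton.elim _ _
      exact RingHom.congr_fun this r
    have hmax : (RingHom.ker φ₀).IsMaximal := RingHom.ker_isMaximal_of_surjective φ₀ hsurj
    obtain ⟨𝔪, h𝔪max, hlies⟩ := Ideal.exists_maximal_ideal_liesOver_of_isIntegral (S := B)
      (RingHom.ker φ₀)
    have hcomap : 𝔪.comap (algebraMap A B) = RingHom.ker φ₀ := hlies.over.symm
    have hstab := hφ 𝔪 h𝔪max.isPrime hcomap
    have hb𝔪 : b' ∉ 𝔪 := by
      intro h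
      obtain ⟨c, hc⟩ := hbD
      have h1 : algebraMap A B D ∈ 𝔪 := by
        rw [hc]
        exact 𝔪.mul_mem_right _ h
      have h2 : D ∈ RingHom.ker φ₀ := by
        rw [← hcomap]
        exact h1
      exact hφD h2
    let _ : Field (A ⧸ RingHom.ker φ₀) := Ideal.Quotient.field _
    let _ : Field (B ⧸ 𝔪) := Ideal.Quotient.field _
    have hchar : CharZero (A ⧸ RingHom.ker φ₀) := algebraRat.charZero _
    have hnormal : Normal (A ⧸ RingHom.ker φ₀) (B ⧸ 𝔪) :=
      Ideal.Quotient.normal Gal(N/k) (RingHom.ker φ₀) 𝔪
    have hsep : Algebra.IsSeparable (A ⧸ RingHom.ker φ₀) (B ⧸ 𝔪) := inferInstance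
    have hfin : Module.Finite (A ⧸ RingHom.ker φ₀) (B ⧸ 𝔪) :=
      Ideal.Quotient.finite_of_isInvariant Gal(N/k) (RingHom.ker φ₀) 𝔪
    have hcharN : CharZero (B ⧸ 𝔪) :=
      charZero_of_injective_algebraMap (algebraMap (A ⧸ RingHom.ker φ₀) (B ⧸ 𝔪)).injective
    have hs : ∀ x : A ⧸ RingHom.ker φ₀, ∃ r : ℚ, (r : A ⧸ RingHom.ker φ₀) = x := by
      intro x
      obtain ⟨a, rfl⟩ := Ideal.Quotient.mk_surjective x
      refine ⟨φ₀ a, ?_⟩
      have h1 : ((φ₀ a : ℚ) : A ⧸ RingHom.ker φ₀) =
          Ideal.Quotient.mk (RingHom.ker φ₀) (algebraMap ℚ A (φ₀ a)) :=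
        (eq_ratCast ((Ideal.Quotient.mk (RingHom.ker φ₀)).comp (algebraMap ℚ A)) (φ₀ a)).symm
      rw [h1, Ideal.Quotient.eq, RingHom.mem_ker, map_sub, sub_eq_zero]
      have : φ₀.comp (algebraMap ℚ A) = RingHom.id ℚ := Subsingleton.elim _ _
      exact RingHom.congr_fun this _
    have hNF : NumberField (B ⧸ 𝔪) :=
      numberField_of_finite (A ⧸ RingHom.ker φ₀) (B ⧸ 𝔪) hs hfin
    refine ⟨B ⧸ 𝔪, inferInstance, hNF, Ideal.Quotient.mk 𝔪, ?_, ?_⟩
    · intro h
      exact hb𝔪 (Ideal.Quotient.eq_zero_iff_mem.1 h)
    · intro σ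
      let σk : Gal(N/k) := σ.restrictScalars k
      let τ : B →+* B := MulSemiringAction.toRingHom Gal(N/k) B σk
      have hτ : 𝔪 ≤ 𝔪.comap τ := by
        intro x hx
        rw [Ideal.mem_comap]
        have h1 : σk • x ∈ σk • 𝔪 := Ideal.smul_mem_pointwise_smul σk x 𝔪 hx
        rw [hstab σk] at h1
        exact h1
      refine ⟨τ, Ideal.quotientMap 𝔪 τ hτ, fun x => hcompat σk x, fun x => ?_⟩
      exact Ideal.quotientMap_mk

end Run7.h846
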