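import Pool.Agent.Y157.PS.All
import Pool.Agent.Q14.SZ.UNG0
import Pool.Agent.Q14.SZ.UNA
import Pool.Agent.Q51.SZ.Wgt0

/-!
# Kummer classes of a section at a good place: abstract form, for arbitrary primes `q`

The local theory (the theorems `a_loc`, `una`) is from the starting files (helper157, helper14, helper51).
-/

set_option autoImplicit false

namespace Run7.h846

open Pool.Agent.Y157.PS Polynomial

/-- `z` is a `q`-th power times a unit -/
def PQ {κ : Type} [Field κ] (V : ValuationSubring κ) (π : κ) (q : ℕ) (z : κ) : Prop :=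
  ∃ j : ℤ, IsU V (z / π ^ ((q : ℤ) * j))

section pq

variable {κ : Type} [Field κ] {V : ValuationSubring κ} {π : κ} {q : ℕ}

lemma PQ.mul (hπ : π ≠ 0) {a b : κ} (ha : PQ V π q a) (hb : PQ V π q b) : PQ V π q (a * b) := by
  obtain ⟨i, hi⟩ := ha
  obtain ⟨j, hj⟩ := hb
  refine ⟨i + j, ?_⟩
  have h1 : a * b / π ^ ((q : ℤ) * (i + j)) = a / π ^ ((q : ℤ) * i) * (b / π ^ ((q : ℤ) * j)) := by
    rw [mul_add, zpow_add₀ hπ, mul_div_mul_comm]
  rw [h1]
  exact hi.mul hj

lemma PQ.inv {a : κ} (ha : PQ V π q a) : PQ V π q a⁻¹ := by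
  obtain ⟨i, hi⟩ := ha
  refine ⟨-i, ?_⟩
  have h1 : a⁻¹ / π ^ ((q : ℤ) * (-i)) = (a / π ^ ((q : ℤ) * i))⁻¹ := by
    rw [mul_neg, zpow_neg, inv_div, div_inv_eq_mul, mul_comm, div_eq_mul_inv]
  rw [h1]
  exact hi.inv

lemma PQ.div (hπ : π ≠ 0) {a b : κ} (ha : PQ V π q a) (hb : PQ V π q b) : PQ V π q (a / b) := by
  rw [div_eq_mul_inv]
  exact ha.mul hπ hb.inv

lemma PQ.unit {a : κ} (ha : IsU V a) : PQ V π q a := ⟨0, by
  rw [mul_zero, zpow_zero, div_one]
  exact ha⟩

end pq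

section ine

variable {A k κ : Type} [CommRing A] [IsDomain A] [IsDiscreteValuationRing A]
    [Finite (IsLocalRing.ResidueField A)] [Field k] [CharZero k] [Algebra A k] [IsFractionRing A k]
    [Field κ] [Algebra k κ] [Algebra A κ] [IsScalarTower A k κ] [IsAlgClosure k κ]

/-- powers of elements fixed by inertia -/
lemma pq_of_ine {q : ℕ} (V : ValuationSubring κ) (ϖ : A) (hϖ : Irreducible ϖ)
    (hVa : ∀ a : A, algebraMap A κ a ∈ V)
    (hVm : ∀ a ∈ IsLocalRing.maximalIdeal A, algebraMap A κ a ∈ V.nonunits) (ρ : κ) (hρ : ρ ≠ 0)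
    (h : ∀ σ : κ ≃ₐ[k] κ, Ine V σ → σ ρ = ρ) : PQ V (algebraMap A κ ϖ) q (ρ ^ q) := by
  obtain ⟨j, hj⟩ := a_ine A k κ V ϖ hVa hVm hϖ ρ hρ h
  refine ⟨j, ?_⟩
  have h1 : ρ ^ q / algebraMap A κ ϖ ^ ((q : ℤ) * j) = (ρ / algebraMap A κ ϖ ^ j) ^ q := by
    rw [div_pow, mul_comm, zpow_mul, zpow_natCast]
  rw [h1]
  exact ⟨pow_ne_zero _ hj.1, pow_mem hj.2.1 _, by rw [← inv_pow]; exact pow_mem hj.2.2 _⟩

end ine

section cong

variable {κ N : Type} [Field κ] [Field N] (W : ValuationSubring N) (ι : κ →+* N)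

/-- `z` is congruent to the constant `c` -/
def Cg (z : N) (c : κ) : Prop := z ∈ W ∧ z - ι c ∈ W.nonunits

variable {W ι} (hι : ∀ c, ι c ∈ W)
include hι

lemma Cg.mul {z z' : N} {c c' : κ} (h : Cg W ι z c) (h' : Cg W ι z' c') :
    Cg W ι (z * z') (c * c') := by
  refine ⟨mul_mem h.1 h'.1, ?_⟩
  have h1 : z * z' - ι (c * c') = z' * (z - ι c) + ι c * (z' - ι c') := by
    rw [map_mul]
    ring
  rw [h1]
  exact non_add (non_mul h'.1 h.2) (non_mul (hι c) h'.2)

lemma Cg.const (c : κ) : Cg W ι (ι c) c := ⟨hι c, by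
  rw [sub_self]
  exact nonunits_iff.2 ⟨zero_mem _, Or.inl rfl⟩⟩

lemma Cg.pow {z : N} {c : κ} (h : Cg W ι z c) (n : ℕ) : Cg W ι (z ^ n) (c ^ n) := by
  induction n with
  | zero =>
    have h1 := Cg.const hι (1 : κ)
    rw [map_one] at h1
    rw [pow_zero, pow_zero]
    exact h1
  | succ n ih =>
    rw [pow_succ, pow_succ]
    exact ih.mul hι h

lemma Cg.prod {X : Type} (s : Finset X) (z : X → N) (c : X → κ) (h : ∀ i ∈ s, Cg W ι (z i) (c i)) :
    Cg W ι (∏ i ∈ s, z i) (∏ i ∈ s, c i) := by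
  classical
  induction s using Finset.induction_on with
  | empty =>
    have h1 := Cg.const hι (1 : κ)
    rw [map_one] at h1
    rw [Finset.prod_empty, Finset.prod_empty]
    exact h1
  | insert a s ha ih =>
    rw [Finset.prod_insert ha, Finset.prod_insert ha]
    exact (h a (Finset.mem_insert_self a s)).mul hι
      (ih fun i hi => h i (Finset.mem_insert_of_mem hi))

/-- nonzero constants are units -/
lemma const_isU {c : κ} (hc : c ≠ 0) : IsU W (ι c) :=
  ⟨(_root_.map_ne_zero _).2 hc, hι c, by rw [← map_inv₀]; exact hι _⟩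

lemma const_non {c : κ} (h : ι c ∈ W.nonunits) : c = 0 := by
  by_contra hc
  exact (const_isU hι hc).not_nonunit h

lemma Cg.unique {z : N} {c c' : κ} (h : Cg W ι z c) (h' : Cg W ι z c') : c = c' := by
  have h1 : ι (c' - c) ∈ W.nonunits := by
    have h2 : ι (c' - c) = (z - ι c) - (z - ι c') := by
      rw [map_sub]
      ring
    rw [h2]
    exact non_sub h.2 h'.2
  exact (sub_eq_zero.1 (const_non hι h1)).symm

lemma Cg.isU {z : N} {c : κ} (h : Cg W ι z c) (hc : c ≠ 0) : IsU W z := by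
  refine isU_of_not_nonunit h.1 fun hz => hc ?_
  have h1 : ι c ∈ W.nonunits := by
    have h2 : ι c = z - (z - ι c) := by ring
    rw [h2]
    exact non_sub hz h.2
  exact const_non hι h1

end cong

section ram

variable {A k κ F N : Type} [CommRing A] [IsDomain A] [IsDiscreteValuationRing A]
    [Finite (IsLocalRing.ResidueField A)] [Field k] [CharZero k] [Algebra A k] [IsFractionRing A k]
    [Field κ] [Algebra k κ] [Algebra A κ] [IsScalarTower A k κ] [IsAlgClosure k κ]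
    [Field F] [Field N] [Algebra F N]

/-- the value of a constant which is a `q`-th power up to a function with a unit value -/
lemma pq_ram {q : ℕ} (hq : 0 < q) (V : ValuationSubring κ) (ϖ : A) (hϖ : Irreducible ϖ)
    (hVa : ∀ a : A, algebraMap A κ a ∈ V)
    (hVm : ∀ a ∈ IsLocalRing.maximalIdeal A, algebraMap A κ a ∈ V.nonunits)
    (hϖ0 : algebraMap A κ ϖ ≠ 0)
    (W : ValuationSubring N) (ι : κ →+* N) (hι : ∀ c, ι c ∈ W)
    (hres : ∀ z ∈ W, ∃ c : κ, z - ι c ∈ W.nonunits)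
    (S : (κ ≃ₐ[k] κ) →* (N ≃ₐ[F] N)) (hcompat : ∀ σ c, S σ (ι c) = ι (σ c))
    (hdec : ∀ σ : κ ≃ₐ[k] κ, Dec V σ → ∀ z, S σ z ∈ W ↔ z ∈ W)
    (a : κ) (w P : N) (p : κ) (hw : ∀ σ, S σ w = w) (hP : Cg W ι P p) (hp : IsU V p)
    (h : ι a * w ^ q * P = 1) : PQ V (algebraMap A κ ϖ) q a := by
  have hPU : IsU W P := hP.isU hι hp.1
  have ha0 : a ≠ 0 := by
    rintro rfl
    rw [map_zero, zero_mul, zero_mul] at h
    exact zero_ne_one h
  have haU : IsU W (ι a) := const_isU hι ha0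
  have hwq : IsU W (w ^ q) := by
    have h1 : w ^ q = (ι a * P)⁻¹ := by
      refine eq_inv_of_mul_eq_one_left ?_
      rw [← h]
      ring
    rw [h1]
    exact (haU.mul hPU).inv
  have hwU : IsU W w := isU_of_pow hq hwq
  obtain ⟨c, hc⟩ := hres w hwU.2.1
  have hcg : Cg W ι w c := ⟨hwU.2.1, hc⟩
  have h1 : a * c ^ q * p = 1 := by
    have h2 : Cg W ι (ι a * w ^ q * P) (a * c ^ q * p) :=
      ((Cg.const hι a).mul hι (hcg.pow hι q)).mul hι hP
    rw [h] at h2
    have h3 := Cg.const hι (1 : κ)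
    rw [map_one] at h3
    exact h2.unique hι h3
  have hc0 : c ≠ 0 := by
    rintro rfl
    rw [zero_pow hq.ne', mul_zero, zero_mul] at h1
    exact zero_ne_one h1
  have hfix : ∀ σ : κ ≃ₐ[k] κ, Ine V σ → σ c = c := by
    intro σ hσ
    have h2 : Cg W ι w (σ c) := by
      refine ⟨hwU.2.1, ?_⟩
      have h3 : w - ι (σ c) = S σ (w - ι c) := by
        rw [map_sub, hw, hcompat]
      rw [h3]
      rw [nonunits_iff] at hc ⊢
      refine ⟨(hdec σ hσ.1 _).2 hc.1, ?_⟩
      rcases hc.2 with h4 | h4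
      · left
        rw [h4, map_zero]
      · right
        rw [← map_inv₀]
        exact fun h5 => h4 ((hdec σ hσ.1 _).1 h5)
    exact h2.unique hι hcg
  have h2 : a = (c ^ q)⁻¹ * p⁻¹ := by
    rw [← mul_inv]
    refine eq_inv_of_mul_eq_one_left ?_
    rw [← mul_assoc]
    exact h1
  rw [h2]
  exact (pq_of_ine V ϖ hϖ hVa hVm c hc0 hfix).inv.mul hϖ0 (PQ.unit hp.inv)

end ram

lemma isU_prod {κ : Type} [Field κ] {V : ValuationSubring κ} {X : Type} (s : Finset X) (f : X → κ)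
    (h : ∀ i ∈ s, IsU V (f i)) : IsU V (∏ i ∈ s, f i) := by
  classical
  induction s using Finset.induction_on with
  | empty =>
    rw [Finset.prod_empty]
    exact isU_one
  | insert a s ha ih =>
    rw [Finset.prod_insert ha]
    exact (h a (Finset.mem_insert_self a s)).mul (ih fun i hi => h i (Finset.mem_insert_of_mem hi))

section absq

variable {A k κ R F M N : Type} [CommRing A] [IsDomain A] [IsDiscreteValuationRing A]
    [Finite (IsLocalRing.ResidueField A)] [Field k] [CharZero k] [Algebra A k] [IsFractionRing A k]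
    [Field κ] [Algebra k κ] [Algebra A κ] [IsScalarTower A k κ] [IsAlgClosure k κ]
    [Field R] [Field F] [Field M] [Field N] [Algebra κ R] [Algebra R M] [Algebra κ M]
    [IsScalarTower κ R M] [Algebra F N]

/-- The classes `a i` of a section, at a place of good or multiplicative type, have the values of a
branch point. -/
theorem abs_q {q : ℕ} [Fact q.Prime] (V : ValuationSubring κ)
    (hVa : ∀ a : A, algebraMap A κ a ∈ V)
    (hVm : ∀ a ∈ IsLocalRing.maximalIdeal A, algebraMap A κ a ∈ V.nonunits)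
    (ϖ : A) (hϖ : Irreducible ϖ) (hq : IsUnit (q : A))
    (c : k) (hc0 : c ≠ 0) (m : ℤ) (hcm : IsU V (algebraMap k κ c / algebraMap A κ ϖ ^ m))
    (δ : κ) (hδ : δ ^ q = algebraMap k κ c)
    {X : Type} [Fintype X] [DecidableEq X] (θ : X → k) (hθV : ∀ i, algebraMap k κ (θ i) ∈ V)
    (hθU : ∀ i j, i ≠ j → IsU V (algebraMap k κ (θ i) - algebraMap k κ (θ j)))
    (x' : R) (B : Finset κ) (hB : ∀ e, e ∈ B ↔ ∃ i, algebraMap k κ (θ i) = e) (Y' : M)
    (hCov : Cov q κ R M x' B Y') (eqv : M ≃+* N) (x y : F) (hy0 : y ≠ 0)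
    (hx : eqv (algebraMap R M x') = algebraMap F N x)
    (hy : eqv Y' = eqv (algebraMap κ M δ) * algebraMap F N y)
    (S : (κ ≃ₐ[k] κ) →* (N ≃ₐ[F] N))
    (hcont : ∀ z : N, ∃ E : IntermediateField k κ, FiniteDimensional k E ∧
      ∀ σ ∈ E.fixingSubgroup, S σ z = z)
    (hcompat : ∀ σ c, S σ (eqv (algebraMap κ M c)) = eqv (algebraMap κ M (σ c)))
    (i₀ : X) (a : X → k) (β : X → N) (ha0 : ∀ i, a i ≠ 0) (hβ0 : ∀ i, β i ≠ 0)
    (hβ : ∀ i σ, S σ (β i) = β i)
    (haβ : ∀ i, eqv (algebraMap κ M (algebraMap k κ (a i))) * β i ^ q =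
      (algebraMap F N x - eqv (algebraMap κ M (algebraMap k κ (θ i)))) /
        (algebraMap F N x - eqv (algebraMap κ M (algebraMap k κ (θ i₀))))) :
    ∃ r, ∀ i, i ≠ r → PQ V (algebraMap A κ ϖ) q (algebraMap k κ (a r / (a i * c))) := by
  classical
  have hqp : q.Prime := Fact.out
  have hkb : IsAlgClosed κ := IsAlgClosure.isAlgClosed k
  have hch : CharZero κ := charZero_of_injective_algebraMap (algebraMap k κ).injective
  have hAk : Function.Injective (algebraMap A k) := IsFractionRing.injective A k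
  have hϖk0 : algebraMap A k ϖ ≠ 0 := by
    rw [Ne, map_eq_zero_iff _ hAk]
    exact hϖ.ne_zero
  have hϖ0 : algebraMap A κ ϖ ≠ 0 := by
    rw [IsScalarTower.algebraMap_apply A k κ]
    exact (_root_.map_ne_zero _).2 hϖk0
  have hcκ0 : algebraMap k κ c ≠ 0 := (_root_.map_ne_zero _).2 hc0
  have hδ0 : δ ≠ 0 := by
    rintro rfl
    rw [zero_pow hqp.ne_zero] at hδ
    exact hcκ0 hδ.symm
  have hGood : Good V B := by
    constructor
    · intro e he
      obtain ⟨i, rfl⟩ := (hB e).1 he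
      exact hθV i
    · intro e he e' he' hne
      obtain ⟨i, rfl⟩ := (hB e).1 he
      obtain ⟨j, rfl⟩ := (hB e').1 he'
      exact hθU i j fun h => hne (by rw [h])
  by_cases hm : (q : ℤ) ∣ m
  · -- the unramified case
    obtain ⟨j, hj⟩ := hm
    set π := algebraMap A κ ϖ with hπ
    have hσϖ : ∀ σ : κ ≃ₐ[k] κ, σ π = π := by
      intro σ
      rw [hπ, IsScalarTower.algebraMap_apply A k κ]
      exact σ.commutes _
    set δ₀ : κ := δ / π ^ j with hδ₀
    have hδ₀q : δ₀ ^ q = algebraMap k κ c / π ^ m := by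
      rw [hδ₀, div_pow, hδ, hj, mul_comm, zpow_mul, zpow_natCast]
    have hδ₀U : IsU V δ₀ := isU_of_pow hqp.pos (by rw [hδ₀q]; exact hcm)
    have hδk : ∃ d : k, δ₀ ^ q = algebraMap k κ d := ⟨c / algebraMap A k ϖ ^ m, by
      rw [hδ₀q, map_div₀, map_zpow₀, hπ, IsScalarTower.algebraMap_apply A k κ]⟩
    have hratio : ∀ σ : κ ≃ₐ[k] κ, σ δ / δ = σ δ₀ / δ₀ := by
      intro σ
      rw [hδ₀, map_div₀, map_zpow₀, hσϖ, div_div_div_cancel_right₀ (zpow_ne_zero _ hϖ0)]
    obtain ⟨δ₁, hδ₁⟩ : ∃ δ : κ, δ ^ q = algebraMap k κ (algebraMap A k ϖ) :=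
      IsAlgClosed.exists_pow_nat_eq _ hqp.pos
    have hBase : Base q A k κ V ϖ δ₁ 1 := by
      refine ⟨hq, hVa, hVm, hϖ, ?_, ⟨_, hδ₁⟩, ?_⟩
      · intro h1
        have h2 := Int.natAbs_dvd_natAbs.2 h1
        rw [Int.natAbs_natCast, Int.natAbs_one, Nat.dvd_one] at h2
        exact hqp.ne_one h2
      · rw [hδ₁, zpow_one, ← IsScalarTower.algebraMap_apply, div_self hϖ0]
        exact isU_one
    have hfix : ∀ σ : κ ≃ₐ[k] κ, Ine V σ → ∀ e ∈ B, σ e = e := by
      intro σ _ e he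
      obtain ⟨i, rfl⟩ := (hB e).1 he
      exact σ.commutes _
    have hPa : ∀ i, PQ V π q (algebraMap k κ (a i)) := by
      intro i
      obtain ⟨ρ, hρ⟩ : ∃ ρ : κ, ρ ^ q = algebraMap k κ (a i) :=
        IsAlgClosed.exists_pow_nat_eq _ hqp.pos
      have hρ0 : ρ ≠ 0 := by
        rintro rfl
        rw [zero_pow hqp.ne_zero] at hρ
        exact (_root_.map_ne_zero _).2 (ha0 i) hρ.symm
      rw [← hρ]
      refine pq_of_ine (k := k) V ϖ hϖ hVa hVm ρ hρ0 fun σ hσ => ?_
      have h1 := Pool.Agent.Q14.SZ.ungM (Pool.Agent.Q14.SZ.una Pool.Agent.Q51.SZ.wg0) a_ndisc V hVa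
        hVm ϖ δ₁ 1 hBase δ δ₀ hδ₀U hδk hδ0 hratio x' B Y' hCov hGood hfix eqv x y hx hy S hcont
        hcompat (algebraMap k κ (θ i)) ((hB _).2 ⟨i, rfl⟩) (algebraMap k κ (θ i₀))
        ((hB _).2 ⟨i₀, rfl⟩) (eqv (algebraMap κ M ρ) * β i) (by
          rw [mul_pow, ← map_pow, ← map_pow, hρ, haβ]) σ hσ
      rw [map_mul, hcompat, hβ] at h1
      have h2 := mul_right_cancel₀ (hβ0 i) h1
      exact (algebraMap κ M).injective (eqv.injective h2)
    have hPc : PQ V π q (algebraMap k κ c) := ⟨j, by rw [← hj]; exact hcm⟩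
    refine ⟨i₀, fun i _ => ?_⟩
    rw [map_div₀, map_mul]
    exact (hPa i₀).div hϖ0 ((hPa i).mul hϖ0 hPc)
  · -- the ramified case
    have hBase : Base q A k κ V ϖ δ m := ⟨hq, hVa, hVm, hϖ, hm, ⟨c, hδ⟩, by rw [hδ]; exact hcm⟩
    obtain ⟨W, ⟨h1, h2, ⟨e, heB, -, he⟩, h4⟩, -⟩ := geoM a_loc a_ndisc V hVa hVm ϖ δ m hBase hδ0 x'
      B Y' hCov hGood eqv x y hx hy S hcont hcompat
    obtain ⟨r, rfl⟩ := (hB e).1 heB
    refine ⟨r, fun i hi => ?_⟩
    set ι : κ →+* N := (eqv : M →+* N).comp (algebraMap κ M) with hι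
    have hιa : ∀ z : κ, ι z = eqv (algebraMap κ M z) := fun z => rfl
    set X₀ := algebraMap F N x with hX₀
    set D : X → N := fun l => X₀ - ι (algebraMap k κ (θ l)) with hD
    have hDr : D r ∈ W.nonunits := he
    have hDl : ∀ l, Cg W ι (D l) (algebraMap k κ (θ r) - algebraMap k κ (θ l)) := by
      intro l
      have e1 : D l = D r + ι (algebraMap k κ (θ r) - algebraMap k κ (θ l)) := by
        rw [hD, map_sub]
        ring
      refine ⟨?_, ?_⟩
      · rw [e1]
        exact add_mem (non_mem hDr) (h1 _)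
      · rw [e1, add_sub_cancel_right]
        exact hDr
    have hBX : ∏ l, D l = ι (algebraMap k κ c) * algebraMap F N y ^ q := by
      have e1 : B = Finset.univ.image fun l => algebraMap k κ (θ l) := by
        ext e
        rw [hB, Finset.mem_image]
        constructor
        · rintro ⟨l, hl⟩
          exact ⟨l, Finset.mem_univ _, hl⟩
        · rintro ⟨l, _, hl⟩
          exact ⟨l, hl⟩
      have e2 := congrArg eqv hCov.eqn
      rw [map_pow, hy, mul_pow, ← map_pow, ← map_pow, hδ, map_prod, e1, Finset.prod_image] at e2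
      · rw [hιa, e2]
        refine Finset.prod_congr rfl fun l _ => ?_
        rw [map_sub, hx]
        rfl
      · intro l _ l' _ hll
        by_contra hne
        exact (hθU l l' hne).1 (sub_eq_zero.2 hll)
    have hyN0 : algebraMap F N y ≠ 0 := (_root_.map_ne_zero _).2 hy0
    have hD0 : ∀ l, D l ≠ 0 := by
      intro l hl
      have e1 : ∏ l, D l = 0 := Finset.prod_eq_zero (Finset.mem_univ l) hl
      rw [hBX] at e1
      exact mul_ne_zero ((_root_.map_ne_zero _).2 hcκ0) (pow_ne_zero _ hyN0) e1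
    have hPr : ∏ l, D l = D r * ∏ l ∈ Finset.univ.erase r, D l :=
      (Finset.mul_prod_erase _ _ (Finset.mem_univ r)).symm
    have hιk0 : ∀ z : k, z ≠ 0 → ι (algebraMap k κ z) ≠ 0 := fun z hz =>
      (_root_.map_ne_zero _).2 ((_root_.map_ne_zero _).2 hz)
    refine pq_ram hqp.pos V ϖ hϖ hVa hVm hϖ0 W ι h1 h2 S hcompat h4 _
      (β r / (β i * algebraMap F N y)) (D i * ∏ l ∈ Finset.univ.erase r, D l)
      ((algebraMap k κ (θ r) - algebraMap k κ (θ i)) *
        ∏ l ∈ Finset.univ.erase r, (algebraMap k κ (θ r) - algebraMap k κ (θ l))) ?_ ?_ ?_ ?_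
    · intro σ
      rw [map_div₀, map_mul, hβ, hβ, (S σ).commutes]
    · exact (hDl i).mul h1 (Cg.prod h1 _ _ _ fun l _ => hDl l)
    · refine (hθU r i (Ne.symm hi)).mul (isU_prod _ _ fun l hl => ?_)
      exact hθU r l (Finset.ne_of_mem_erase hl).symm
    · have e1 : ι (algebraMap k κ (a r)) * β r ^ q = D r / D i₀ := haβ r
      have e2 : ι (algebraMap k κ (a i)) * β i ^ q = D i / D i₀ := haβ i
      have e3 : ι (algebraMap k κ (a r)) * β r ^ q * D i = ι (algebraMap k κ (a i)) * β i ^ q * D r := by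
        rw [e1, e2]
        field_simp
      have e4 := hBX
      rw [hPr] at e4
      have n1 := hιk0 _ (ha0 i)
      have n2 := hιk0 _ hc0
      have n3 := hβ0 i
      rw [map_div₀, map_mul, map_div₀, map_mul, div_pow, mul_pow]
      have n4 : β i ^ q ≠ 0 := pow_ne_zero _ n3
      have n5 : algebraMap F N y ^ q ≠ 0 := pow_ne_zero _ hyN0
      rw [div_mul_div_comm, div_mul_eq_mul_div, div_eq_one_iff_eq
        (mul_ne_zero (mul_ne_zero n1 n2) (mul_ne_zero n4 n5))]
      linear_combination (∏ l ∈ Finset.univ.erase r, D l) * e3 +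
        (ι (algebraMap k κ (a i)) * β i ^ q) * e4

end absq

end Run7.h846
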