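import Pool.Agent.Run7.h846.QAbs

/-!
# Kummer classes of a section at a good place: the fields inside an algebraic closure
-/

set_option autoImplicit false

namespace Run7.h846

open Pool.Agent.Y157.PS Polynomial

section fixed

variable {G N : Type} [Group G] [Field N] (s : G →* RingAut N)

/-- the fixed field of an action -/
def fixF : Subfield N where
  carrier := {z | ∀ σ, s σ z = z}
  mul_mem' := fun {a b} ha hb σ => by rw [map_mul, ha, hb]
  one_mem' := fun σ => map_one _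
  add_mem' := fun {a b} ha hb σ => by rw [map_add, ha, hb]
  zero_mem' := fun σ => map_zero _
  neg_mem' := fun {a} ha σ => by rw [map_neg, ha]
  inv_mem' := fun a ha σ => by rw [map_inv₀, ha]

/-- the action over the fixed field -/
def fixS : G →* (N ≃ₐ[fixF s] N) where
  toFun := fun σ => AlgEquiv.ofRingEquiv (f := s σ) fun z => z.2 σ
  map_one' := by
    ext z
    show s 1 z = z
    rw [map_one]
    rfl
  map_mul' := fun σ τ => by
    ext z
    show s (σ * τ) z = s σ (s τ z)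
    rw [map_mul]
    rfl

lemma fixS_apply (σ : G) (z : N) : fixS s σ z = s σ z := rfl

end fixed

section absI

variable {A k κ R F Ω : Type} [CommRing A] [IsDomain A] [IsDiscreteValuationRing A]
    [Finite (IsLocalRing.ResidueField A)] [Field k] [CharZero k] [Algebra A k] [IsFractionRing A k]
    [Field κ] [Algebra k κ] [Algebra A κ] [IsScalarTower A k κ] [IsAlgClosure k κ]
    [Field R] [Field F] [Field Ω] [Algebra κ R] [Algebra R Ω] [Algebra κ Ω]
    [IsScalarTower κ R Ω] [IsAlgClosure R Ω] [Algebra F Ω]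

theorem absI_q {q : ℕ} [Fact q.Prime] (V : ValuationSubring κ)
    (hVa : ∀ a : A, algebraMap A κ a ∈ V)
    (hVm : ∀ a ∈ IsLocalRing.maximalIdeal A, algebraMap A κ a ∈ V.nonunits)
    (ϖ : A) (hϖ : Irreducible ϖ) (hq : IsUnit (q : A))
    (c : k) (hc0 : c ≠ 0) (m : ℤ) (hcm : IsU V (algebraMap k κ c / algebraMap A κ ϖ ^ m))
    (δ : κ) (hδ : δ ^ q = algebraMap k κ c)
    {X : Type} [Fintype X] (Θ : X → k) (i₀ : X)
    (hΘU : ∀ i j, i ≠ j → IsU V (algebraMap k κ (Θ i - Θ j)))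
    (hdvd : q ∣ Fintype.card X) (h3 : 3 ≤ Fintype.card X)
    (X₀ : R) (hrat : RatF κ X₀) (Y0 : Ω)
    (hY : Y0 ^ q = ∏ i, (algebraMap R Ω X₀ - algebraMap κ Ω (algebraMap k κ (Θ i))))
    (N : IntermediateField F Ω)
    (hN : ∀ z, z ∈ maxPro q κ (IntermediateField.adjoin R {Y0}) Ω ↔ z ∈ N)
    (ι : κ →+* N) (hι : ∀ z, (ι z : Ω) = algebraMap κ Ω z)
    (s : (κ ≃ₐ[k] κ) →* RingAut N)
    (hcont : ∀ z : N, ∃ E : IntermediateField k κ, FiniteDimensional k E ∧
      ∀ σ ∈ E.fixingSubgroup, s σ z = z)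
    (hcompat : ∀ σ z, s σ (ι z) = ι (σ z)) (x y : N) (hy0 : y ≠ 0)
    (hxs : ∀ σ, s σ x = x) (hys : ∀ σ, s σ y = y) (hx : (x : Ω) = algebraMap R Ω X₀)
    (hy : Y0 = algebraMap κ Ω δ * (y : Ω))
    (a : X → k) (β : X → N) (ha0 : ∀ i, a i ≠ 0) (hβ0 : ∀ i, β i ≠ 0)
    (hβ : ∀ i σ, s σ (β i) = β i)
    (haβ : ∀ i, ι (algebraMap k κ (a i)) * β i ^ q =
      (x - ι (algebraMap k κ (Θ i))) / (x - ι (algebraMap k κ (Θ i₀)))) :
    ∃ r, ∀ i, i ≠ r → PQ V (algebraMap A κ ϖ) q (algebraMap k κ (a r / (a i * c))) := by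
  classical
  have hqp : q.Prime := Fact.out
  have hkb : IsAlgClosed κ := IsAlgClosure.isAlgClosed k
  have hch : CharZero κ := charZero_of_injective_algebraMap (algebraMap k κ).injective
  obtain ⟨θ, hθ⟩ : ∃ θ : X → k, ∀ i, θ i = Θ i - Θ i₀ := ⟨_, fun _ => rfl⟩
  have hθd : ∀ i j, θ i - θ j = Θ i - Θ j := by
    intro i j
    rw [hθ, hθ]
    ring
  obtain ⟨B, hBdef⟩ : ∃ B : Finset κ, B = Finset.univ.image fun i => algebraMap k κ (θ i) :=
    ⟨_, rfl⟩
  have hθinj : Function.Injective fun i => algebraMap k κ (θ i) := by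
    intro i i' h
    by_contra hne
    refine (hΘU i i' hne).1 ?_
    have h1 : θ i = θ i' := (algebraMap k κ).injective h
    rw [← hθd, h1, sub_self, map_zero]
  have hBcard : B.card = Fintype.card X := by
    rw [hBdef, Finset.card_image_of_injective _ hθinj, Finset.card_univ]
  obtain ⟨x', hx'⟩ : ∃ x' : R, x' = X₀ - algebraMap κ R (algebraMap k κ (Θ i₀)) := ⟨_, rfl⟩
  have hrat' : RatF κ x' := by
    rw [hx']
    constructor
    · intro h1
      apply hrat.trans
      have h2 := h1.add (isAlgebraic_algebraMap (algebraMap k κ (Θ i₀)))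
      rwa [sub_add_cancel] at h2
    · rw [eq_top_iff, ← hrat.gen, IntermediateField.adjoin_simple_le_iff]
      have h1 := add_mem (IntermediateField.mem_adjoin_simple_self κ
        (X₀ - algebraMap κ R (algebraMap k κ (Θ i₀))))
        ((IntermediateField.adjoin κ {X₀ - algebraMap κ R (algebraMap k κ (Θ i₀))}).algebraMap_mem
          (algebraMap k κ (Θ i₀)))
      rwa [sub_add_cancel] at h1
  have hx'Ω : algebraMap R Ω x' =
      algebraMap R Ω X₀ - algebraMap κ Ω (algebraMap k κ (Θ i₀)) := by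
    rw [hx', map_sub, ← IsScalarTower.algebraMap_apply]
  have hY' : Y0 ^ q = ∏ e ∈ B, (algebraMap R Ω x' - algebraMap κ Ω e) := by
    rw [hBdef, Finset.prod_image fun i _ i' _ h => hθinj h, hY]
    refine Finset.prod_congr rfl fun i _ => ?_
    rw [hx'Ω, hθ, map_sub, map_sub]
    ring
  obtain ⟨M, hM⟩ : ∃ M : IntermediateField R Ω,
      ∀ z, z ∈ M ↔ z ∈ maxPro q κ (IntermediateField.adjoin R {Y0}) Ω :=
    ⟨(maxPro q κ (IntermediateField.adjoin R {Y0}) Ω).restrictScalars R, fun z => Iff.rfl⟩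
  have hYM : Y0 ∈ M := by
    rw [hM]
    exact (maxPro q κ (IntermediateField.adjoin R {Y0}) Ω).algebraMap_mem
      ⟨Y0, IntermediateField.mem_adjoin_simple_self _ _⟩
  have hCov : Cov q κ R M x' B ⟨Y0, hYM⟩ :=
    a_cov q κ R Ω x' hrat' B (by rw [hBcard]; exact hdvd) (by rw [hBcard]; exact h3) Y0 hY' M hM
      ⟨Y0, hYM⟩ rfl
  have hMN : ∀ z, z ∈ M ↔ z ∈ N := fun z => (hM z).trans (hN z)
  let eqv : M ≃+* N :=
    { toFun := fun w => ⟨w.1, (hMN _).1 w.2⟩
      invFun := fun w => ⟨w.1, (hMN _).2 w.2⟩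
      left_inv := fun w => rfl
      right_inv := fun w => rfl
      map_mul' := fun w w' => rfl
      map_add' := fun w w' => rfl }
  have heC : ∀ z : κ, eqv (algebraMap κ M z) = ι z := fun z => Subtype.ext (hι z).symm
  have hxF : ∀ σ, s σ (x - ι (algebraMap k κ (Θ i₀))) = x - ι (algebraMap k κ (Θ i₀)) := by
    intro σ
    rw [map_sub, hxs, hcompat, σ.commutes]
  have hyF0 : (⟨y, hys⟩ : fixF s) ≠ 0 := by
    intro h
    exact hy0 (congrArg Subtype.val h)
  refine abs_q (k := k) (F := fixF s) V hVa hVm ϖ hϖ hq c hc0 m hcm δ hδ θ ?_ ?_ x' B ?_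
    ⟨Y0, hYM⟩ hCov eqv ⟨_, hxF⟩ ⟨_, hys⟩ hyF0 ?_ ?_ (fixS s) hcont ?_ i₀ a β ha0 hβ0
    (fun i σ => hβ i σ) ?_
  · intro i
    by_cases hi : i = i₀
    · rw [hθ, hi, sub_self, map_zero]
      exact zero_mem _
    · rw [hθ]
      exact (hΘU i i₀ hi).2.1
  · intro i i' hii'
    rw [← map_sub, hθd]
    exact hΘU i i' hii'
  · intro e
    rw [hBdef, Finset.mem_image]
    constructor
    · rintro ⟨i, _, hi⟩
      exact ⟨i, hi⟩
    · rintro ⟨i, hi⟩
      exact ⟨i, Finset.mem_univ _, hi⟩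
  · apply Subtype.ext
    show algebraMap R Ω x' = (x : Ω) - (ι (algebraMap k κ (Θ i₀)) : Ω)
    rw [hx'Ω, hx, hι]
  · apply Subtype.ext
    show Y0 = algebraMap κ Ω δ * (y : Ω)
    exact hy
  · intro σ z
    rw [heC, heC]
    exact hcompat σ z
  · intro i
    rw [heC, heC, heC, haβ]
    have h1 : ∀ l : X, algebraMap (fixF s) N ⟨_, hxF⟩ - ι (algebraMap k κ (θ l)) =
        x - ι (algebraMap k κ (Θ l)) := by
      intro l
      show x - ι (algebraMap k κ (Θ i₀)) - ι (algebraMap k κ (θ l)) = _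
      rw [hθ, map_sub, map_sub]
      ring
    rw [h1, h1]

end absI

end Run7.h846
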