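import Pool.Agent.W623.SecE.Unr2
import Pool.Agent.W623.SecE.Glb
import Pool.Agent.W623.SecC.All

/-!
# Sections of quotients of fundamental groups over finite extensions of the base field
-/

set_option autoImplicit false

namespace Run7.h846

open Pool.Agent.W620.SC Pool.Agent.W623.SecC Pool.Agent.W623.SecE Polynomial IntermediateField

universe u v w

/-- `N` contains the constants and is closed under square roots in the maximal unramified
extension -/
structure Adm (L : Type u) {F : Type v} {Ω : Type w} [Field L] [Field F] [Field Ω] [Algebra F Ω]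
    [Algebra L Ω] (U : Set (ValuationSubring F)) (N : IntermediateField F Ω) : Prop where
  le : ∀ z ∈ N, z ∈ unramified F Ω U
  const : ∀ c : algebraicClosure L Ω, (c : Ω) ∈ N
  sqrt : ∀ α ∈ unramified F Ω U, α ^ 2 ∈ N → α ∈ N

/-- continuous sections of `Gal(N/F) → G_L` -/
structure NSec (L : Type u) {F : Type v} {Ω : Type w} [Field L] [Field F] [Field Ω] [Algebra F Ω]
    [Algebra L Ω] (N : IntermediateField F Ω) where
  toHom : (algebraicClosure L Ω ≃ₐ[L] algebraicClosure L Ω) →* (N ≃ₐ[F] N)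
  cont : Continuous toHom
  compat : ∀ σ (x : algebraicClosure L Ω) (y : N), (y : Ω) = x → (toHom σ y : Ω) = σ x

section

variable {L : Type u} {F : Type v} {Ω : Type w} [Field L] [Field F] [Field Ω]
  [Algebra F Ω] [Algebra L Ω] {U : Set (ValuationSubring F)}
  {N : IntermediateField F Ω}

lemma Adm.root (hN : Adm L U N) (n : ℕ) (α : Ω) (hα : α ∈ unramified F Ω U) (h : α ^ (2 ^ n) ∈ N) :
    α ∈ N := by
  induction n generalizing α with
  | zero => rwa [pow_zero, pow_one] at h
  | succ n ih =>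
    apply hN.sqrt α hα
    apply ih _ (pow_mem hα 2)
    rw [← pow_mul, ← pow_succ']
    exact h

/-- the constants as a subfield of `N` -/
noncomputable def cH (hN : Adm L U N) : algebraicClosure L Ω →+* N :=
  (algebraMap (algebraicClosure L Ω) Ω).codRestrict N hN.const

lemma NSec.const (G : NSec L N) (hN : Adm L U N)
    (σ : algebraicClosure L Ω ≃ₐ[L] algebraicClosure L Ω) (z : algebraicClosure L Ω) :
    G.toHom σ (cH hN z) = cH hN (σ z) :=
  Subtype.ext (G.compat σ z (cH hN z) rfl)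

lemma NSec.fin [Algebra.IsAlgebraic F Ω] (G : NSec L N) (w : N) :
    ∃ E : IntermediateField L (algebraicClosure L Ω), FiniteDimensional L E ∧
      ∀ σ ∈ E.fixingSubgroup, G.toHom σ w = w := by
  have h1 : {e : N ≃ₐ[F] N | e w = w} ∈ nhds (1 : N ≃ₐ[F] N) := by
    rw [krullTopology_mem_nhds_one_iff]
    refine ⟨F⟮w⟯, ?_, ?_⟩
    · exact adjoin.finiteDimensional (Algebra.IsIntegral.isIntegral _)
    · intro e he
      exact (IntermediateField.mem_fixingSubgroup_iff _ _).1 he _ (mem_adjoin_simple_self F _)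
  have h2 := G.cont.tendsto 1
  rw [map_one] at h2
  have h3 := h2 h1
  rw [Filter.mem_map, krullTopology_mem_nhds_one_iff] at h3
  obtain ⟨E, hE, hE'⟩ := h3
  exact ⟨E, hE, fun σ hσ => hE' hσ⟩

end

section

variable {L E : Type u} {F : Type v} {Ω : Type w} [Field L] [Field E] [Field F] [Field Ω]
  [Algebra F Ω] [Algebra L Ω] [Algebra L E]
  [Algebra E (algebraicClosure L Ω)] [IsScalarTower L E (algebraicClosure L Ω)]
  {U : Set (ValuationSubring F)} {N : IntermediateField F Ω}

/-- the action of the absolute Galois group of the extension `E` of `L` given by a section over `L` -/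
noncomputable def actE (G : NSec L N) :
    (algebraicClosure L Ω ≃ₐ[E] algebraicClosure L Ω) →* RingAut N :=
  ((toRingAutHom F N).comp G.toHom).comp (AlgEquiv.restrictScalarsHom L)

lemma actE_apply (G : NSec L N)
    (σ : algebraicClosure L Ω ≃ₐ[E] algebraicClosure L Ω) (z : N) :
    actE G σ z = G.toHom (σ.restrictScalars L) z := rfl

lemma actE_const (hN : Adm L U N) (G : NSec L N)
    (σ : algebraicClosure L Ω ≃ₐ[E] algebraicClosure L Ω)
    (z : algebraicClosure L Ω) : actE G σ (cH hN z) = cH hN (σ z) :=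
  G.const hN (σ.restrictScalars L) z

lemma actE_cont [CharZero L] [Algebra.IsAlgebraic F Ω] (G : NSec L N) (w : N) :
    ∃ E₁ : IntermediateField E (algebraicClosure L Ω), FiniteDimensional E E₁ ∧
      ∀ σ ∈ E₁.fixingSubgroup, actE G σ w = w := by
  obtain ⟨E₀, hE₀, h⟩ := G.fin w
  obtain ⟨α, hα⟩ := Field.exists_primitive_element L E₀
  have hint : IsIntegral E (α : algebraicClosure L Ω) := by
    have h1 : IsIntegral L (α : algebraicClosure L Ω) := Algebra.IsIntegral.isIntegral _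
    exact h1.tower_top
  refine ⟨E⟮(α : algebraicClosure L Ω)⟯, adjoin.finiteDimensional hint, fun σ hσ => ?_⟩
  rw [actE_apply]
  apply h
  rw [IntermediateField.mem_fixingSubgroup_iff]
  intro x hx
  have h1 : (⟨x, hx⟩ : E₀) ∈ L⟮α⟯ := by
    rw [hα]
    exact mem_top
  have h2 : ∀ y ∈ L⟮α⟯, σ (y : algebraicClosure L Ω) = (y : algebraicClosure L Ω) := by
    intro y hy
    induction hy using adjoin_induction with
    | mem z hz =>
      rw [Set.mem_singleton_iff] at hz
      subst hz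
      exact (IntermediateField.mem_fixingSubgroup_iff _ _).1 hσ _ (mem_adjoin_simple_self E _)
    | algebraMap z =>
      have h3 : ((algebraMap L E₀ z : E₀) : algebraicClosure L Ω) =
          algebraMap E (algebraicClosure L Ω) (algebraMap L E z) := by
        rw [← IsScalarTower.algebraMap_apply]
        rfl
      rw [h3]
      exact σ.commutes _
    | add a b _ _ ha hb =>
      show σ ((a : algebraicClosure L Ω) + b) = a + b
      rw [map_add, ha, hb]
    | inv a _ ha =>
      show σ ((a : algebraicClosure L Ω)⁻¹) = (a : algebraicClosure L Ω)⁻¹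
      rw [map_inv₀, ha]
    | mul a b _ _ ha hb =>
      show σ ((a : algebraicClosure L Ω) * b) = a * b
      rw [map_mul, ha, hb]
  exact h2 _ h1

end

section mk

variable {L E : Type u} {F : Type v} {Ω : Type w} [Field L] [Field E] [Field F] [Field Ω]
  [Algebra L F] [Algebra F Ω] [Algebra L Ω] [IsScalarTower L F Ω] [Algebra L E]
  [Algebra E (algebraicClosure L Ω)] [IsScalarTower L E (algebraicClosure L Ω)]
  [CharZero L] [IsAlgClosed Ω] [Algebra.IsAlgebraic F Ω]
  (U : Set (ValuationSubring F)) (hU : ∀ O ∈ U, ∀ c : L, algebraMap L F c ∈ O)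
  {N : IntermediateField F Ω} (hN : Adm L U N)
  (G : NSec L N) (V : ValuationSubring (algebraicClosure L Ω))
  (S : IntermediateField E (algebraicClosure L Ω)) (ϖ : E) (ϖ0 : ϖ ≠ 0)
  (ϖn : algebraMap E (algebraicClosure L Ω) ϖ ∈ V.nonunits)
  (sq : ∀ η ∈ S, IsU V η → ∀ ρ : algebraicClosure L Ω, ρ ^ 2 = η → ρ ∈ S)
  (tame : ∀ c ∈ S, c ≠ 0 → ∃ j : ℤ, IsU V (c / algebraMap E (algebraicClosure L Ω) ϖ ^ j))
  (φ : algebraicClosure L Ω ≃ₐ[E] algebraicClosure L Ω) (φV : ∀ x, φ x ∈ V ↔ x ∈ V)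
  (φS : ∀ x, φ x ∈ S ↔ x ∈ S)

/-- the data attached to a section over `L` and the extension `E` -/
noncomputable def mkDatE : Dat E (algebraicClosure L Ω) N where
  s := actE G
  ι := cH hN
  hι := fun σ x => actE_const hN G σ x
  cont := actE_cont G
  S := S
  V := V
  ϖ := ϖ
  ϖ0 := ϖ0
  ϖn := ϖn
  sq := sq
  tame := tame
  φ := φ
  φV := φV
  φS := φS

include hU hN

omit [CharZero L] [Algebra.IsAlgebraic F Ω] in
/-- roots in `N` of elements which are powers up to units at all places -/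
lemma exists_root_N (n : ℕ) (z : N)
    (h : (z : Ω) ≠ 0 → ∀ W : ValuationSubring Ω, W.comap (algebraMap F Ω) ∈ U →
      ∃ t ∈ unramified F Ω U, t ≠ 0 ∧ (z : Ω) / t ^ (2 ^ n) ∈ W ∧ t ^ (2 ^ n) / (z : Ω) ∈ W) :
    ∃ α : N, α ^ (2 ^ n) = z := by
  obtain ⟨α, hα⟩ := exists_root_unramified (k := L) U hU (n := 2 ^ n) (by positivity)
    ⟨(z : Ω), hN.le _ z.2⟩ h
  have h1 : (α : Ω) ^ (2 ^ n) = z := congrArg (algebraMap (unramified F Ω U) Ω) hα
  exact ⟨⟨α, hN.root n α α.2 (by rw [h1]; exact z.2)⟩, Subtype.ext h1⟩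

/-- the roots of the generators -/
lemma mkE_roots (hA7 : PartA7.{w, w}) :
    (mkDatE U hN G V S ϖ ϖ0 ϖn sq tame φ φV φS).HasRoots := by
  set D := mkDatE U hN G V S ϖ ϖ0 ϖn sq tame φ φV φS with hD
  intro z w e W hWe hzw htrS n x' y' hxy' f hf
  have hzw'' : W.polynomial.eval₂ (eval₂RingHom ((algebraMap N Ω).comp
      (D.ι.comp (algebraMap D.S (algebraicClosure L Ω)))) (z : Ω)) (w : Ω) = 0 := by
    have h3 := congrArg (algebraMap N Ω) hzw
    rw [hom_eval₂, map_zero] at h3
    rw [← h3]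
    congr 1
    ext a
    · simp
    · simp
  have hev : algebraMap N Ω
      (ev W (D.ι.comp (algebraMap D.S (algebraicClosure L Ω))) z w hzw f) =
      ev W ((algebraMap N Ω).comp (D.ι.comp (algebraMap D.S (algebraicClosure L Ω))))
        (z : Ω) (w : Ω) hzw'' f :=
    ev_map W _ _ _ hzw (algebraMap N Ω) _ _ _ hzw'' rfl rfl rfl f
  refine exists_root_N U hU hN n _ ?_
  intro hne O hO
  obtain ⟨t, ht, ht0, h3, h4⟩ := hA7 D.S Ω ((algebraMap N Ω).comp
      (D.ι.comp (algebraMap D.S (algebraicClosure L Ω)))) O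
      (fun c => const_place U hU O hO (c : algebraicClosure L Ω))
      e W hWe (z : Ω) (w : Ω) hzw'' (by
        intro P hP h
        apply htrS P hP
        apply (algebraMap N Ω).injective
        rw [hom_eval₂, map_zero]
        exact h) (2 ^ n) x' y' hxy' f hf
  refine ⟨t, ?_, ht0, ?_, ?_⟩
  · rcases ht with rfl | rfl | rfl
    · exact hN.le _ (sub_mem z.2 (D.ι _).2)
    · exact hN.le _ (sub_mem w.2 (D.ι _).2)
    · exact hN.le _ (div_mem w.2 z.2)
  · change algebraMap N Ω _ / _ ∈ O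
    rw [hev]
    exact h3
  · change _ / algebraMap N Ω _ ∈ O
    rw [hev]
    exact h4

lemma mkE_ok (h2 : (2 : algebraicClosure L Ω)⁻¹ ∈ V) (q : ℕ) (hq2 : 2 ≤ q)
    (hq : ∀ x ∈ V, φ x - x ^ q ∈ V.nonunits) :
    (mkDatE U hN G V S ϖ ϖ0 ϖn sq tame φ φV φS).Ok q :=
  ⟨allA8, h2, hq2, hq, mkE_roots U hU hN G V S ϖ ϖ0 ϖn sq tame φ φV φS allA7⟩

omit [CharZero L] [Algebra.IsAlgebraic F Ω] in
/-- square roots of the ratios -/
lemma ratio_root_N {X : Type*} [Fintype X] [DecidableEq X]
    (θ : X → algebraicClosure L Ω) (hθ : Function.Injective θ) (x y : F) (hy0 : y ≠ 0)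
    (c : algebraicClosure L Ω) (hc0 : c ≠ 0)
    (hxy : (c : Ω) * algebraMap F Ω y ^ 2 = ∏ i, (algebraMap F Ω x - (θ i : Ω)))
    (htr : ∀ a : algebraicClosure L Ω, (a : Ω) ≠ algebraMap F Ω x) (i i' : X) :
    ∃ α : N, α ^ 2 = (algebraMap F N x - cH hN (θ i)) / (algebraMap F N x - cH hN (θ i')) := by
  obtain ⟨α, hα⟩ := ratio_root U hU θ hθ x y hy0 c hc0 hxy htr i i'
  have h1 : (α : Ω) ^ 2 = (algebraMap F Ω x - (θ i : Ω)) / (algebraMap F Ω x - (θ i' : Ω)) := by
    have h2 := congrArg (algebraMap (unramified F Ω U) Ω) hα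
    rw [map_pow, map_div₀, map_sub, map_sub] at h2
    exact h2
  have h3 : algebraMap N Ω ((algebraMap F N x - cH hN (θ i)) / (algebraMap F N x - cH hN (θ i'))) =
      (algebraMap F Ω x - (θ i : Ω)) / (algebraMap F Ω x - (θ i' : Ω)) := by
    rw [map_div₀, map_sub, map_sub]
    rfl
  refine ⟨⟨α, hN.sqrt α α.2 ?_⟩, Subtype.ext ?_⟩
  · rw [h1, ← h3]
    exact ((algebraMap F N x - cH hN (θ i)) / (algebraMap F N x - cH hN (θ i'))).2
  · exact h1.trans h3.symm

/-- the branch points -/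
noncomputable def mkBrE {X : Type*} [Fintype X] [DecidableEq X] (hX : Even (Fintype.card X))
    (hX4 : 4 ≤ Fintype.card X) (θ : X → algebraicClosure L Ω) (hθS : ∀ i, θ i ∈ S)
    (hθd : ∀ i j, i ≠ j → IsU V (θ i - θ j)) (π : Equiv.Perm X)
    (hπ : ∀ i, φ (θ i) = θ (π i)) (x y : F) (hy0 : y ≠ 0) (c : algebraicClosure L Ω) (hcS : c ∈ S)
    (jc : ℤ) (hc : IsU V (c / algebraMap E (algebraicClosure L Ω) ϖ ^ jc))
    (hxy : (c : Ω) * algebraMap F Ω y ^ 2 = ∏ i, (algebraMap F Ω x - (θ i : Ω)))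
    (htr : ∀ a : algebraicClosure L Ω, (a : Ω) ≠ algebraMap F Ω x) :
    (mkDatE U hN G V S ϖ ϖ0 ϖn sq tame φ φV φS).Br X where
  hX := hX
  hX4 := hX4
  θ := θ
  hθS := hθS
  hθd := hθd
  π := π
  hπ := hπ
  x := algebraMap F N x
  y := algebraMap F N y
  hx := fun σ => (G.toHom (σ.restrictScalars L)).commutes x
  hy := fun σ => (G.toHom (σ.restrictScalars L)).commutes y
  hy0 := (_root_.map_ne_zero _).2 hy0
  c := c
  hcS := hcS
  jc := jc
  hc := hc
  hxy := by
    apply (algebraMap N Ω).injective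
    rw [map_mul, map_pow, map_prod]
    exact hxy
  htr := fun a h => htr a (congrArg (algebraMap N Ω) h)
  hsq := fun i j => ratio_root_N U hU hN θ (by
    intro i j hij
    by_contra hne
    exact (hθd i j hne).1 (sub_eq_zero.2 hij)) x y hy0 c (by
    rintro rfl
    rw [zero_div] at hc
    exact hc.1 rfl) hxy htr i j

end mk

end Run7.h846
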