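import Pool.Agent.Run7.h846.QAbsI
import Pool.Agent.Run7.h846.SecDat
import Pool.Agent.Run7.h846.Nrm
import Pool.Agent.W327.SecC.PartB1

/-!
# The classes of a section of the geometrically pro-`q` fundamental group at the good primes
-/

set_option autoImplicit false

namespace Run7.h846

open Pool.Agent.Y157.PS Polynomial NumberField IsDedekindDomain

section const

universe u v w

variable {L : Type u} {F : Type v} {Ω : Type w} [Field L] [Field F] [Field Ω] [Algebra F Ω]
  [Algebra L Ω] {N : IntermediateField F Ω}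

/-- the constants as a subfield of `N` -/
noncomputable def cC (hc : ∀ c : algebraicClosure L Ω, (c : Ω) ∈ N) : algebraicClosure L Ω →+* N :=
  (algebraMap (algebraicClosure L Ω) Ω).codRestrict N hc

lemma NSec.constC (hc : ∀ c : algebraicClosure L Ω, (c : Ω) ∈ N) (G : NSec L N)
    (σ : algebraicClosure L Ω ≃ₐ[L] algebraicClosure L Ω) (z : algebraicClosure L Ω) :
    G.toHom σ (cC hc z) = cC hc (σ z) :=
  Subtype.ext (G.compat σ z (cC hc z) rfl)

variable {E : Type u} [Field E] [Algebra L E]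
  [Algebra E (algebraicClosure L Ω)] [IsScalarTower L E (algebraicClosure L Ω)]

lemma actE_constC (hc : ∀ c : algebraicClosure L Ω, (c : Ω) ∈ N) (G : NSec L N)
    (σ : algebraicClosure L Ω ≃ₐ[E] algebraicClosure L Ω)
    (z : algebraicClosure L Ω) : actE G σ (cC hc z) = cC hc (σ z) :=
  G.constC hc (σ.restrictScalars L) z

end const

/-- the local ring of a prime of a number field -/
theorem dvr_dataq {E : Type} [Field E] [NumberField E] (W : HeightOneSpectrum (𝓞 E)) :
    ∃ (A : Type) (_ : CommRing A) (_ : IsDomain A) (_ : IsDiscreteValuationRing A)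
      (_ : Algebra A E), Finite (IsLocalRing.ResidueField A) ∧ IsFractionRing A E ∧
      (∀ n : ℕ, (n : 𝓞 E) ∉ W.asIdeal → IsUnit (n : A)) ∧
      (∀ a : A, IsUnit a → ord W (algebraMap A E a) = 0) ∧
      ∀ ϖ : A, Irreducible ϖ → ord W (algebraMap A E ϖ) = 1 := by
  classical
  have hvm : W.asIdeal.IsMaximal := W.isMaximal
  have hvp : W.asIdeal.IsPrime := W.isPrime
  have hle : W.asIdeal.primeCompl ≤ nonZeroDivisors (𝓞 E) := W.asIdeal.primeCompl_le_nonZeroDivisors
  let A := Localization.subalgebra.ofField E W.asIdeal.primeCompl hle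
  have hloc : IsLocalization.AtPrime A W.asIdeal :=
    Localization.subalgebra.isLocalization_ofField E W.asIdeal.primeCompl hle
  have hdvr : IsDiscreteValuationRing A :=
    IsLocalization.AtPrime.isDiscreteValuationRing_of_dedekind_domain (𝓞 E) W.ne_bot A
  have hfr : IsFractionRing A E := inferInstance
  have hunit : ∀ c : 𝓞 E, c ∉ W.asIdeal → IsUnit (algebraMap (𝓞 E) A c) := fun c hc =>
    (IsLocalization.AtPrime.isUnit_to_map_iff A W.asIdeal c).2 hc
  let e : (𝓞 E ⧸ W.asIdeal) ≃+* IsLocalRing.ResidueField A :=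
    IsLocalization.AtPrime.equivQuotMaximalIdeal W.asIdeal A
  have hfin : Finite (IsLocalRing.ResidueField A) := by
    have h1 : Finite (𝓞 E ⧸ W.asIdeal) := Ideal.finiteQuotientOfFreeOfNeBot _ W.ne_bot
    exact Finite.of_equiv _ e.toEquiv
  have hnn : ∀ a : A, algebraMap A E a ≠ 0 → 0 ≤ ord W (algebraMap A E a) := by
    intro a ha
    obtain ⟨b, s, hs, hbs⟩ : ∃ (a' s : 𝓞 E) (_ : s ∈ W.asIdeal.primeCompl),
        (algebraMap A E a) = algebraMap (𝓞 E) E a' * (algebraMap (𝓞 E) E s)⁻¹ := a.2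
    have hs0 : s ≠ 0 := by
      rintro rfl
      exact hs (zero_mem _)
    have hsE0 : algebraMap (𝓞 E) E s ≠ 0 := by simpa using hs0
    have hsord : ord W (algebraMap (𝓞 E) E s) = 0 := by
      have h1 := ord_int_nonneg W s
      have h2 := (ord_int_pos_iff W hs0).not.2 hs
      exact le_antisymm (not_lt.1 h2) h1
    rw [hbs] at ha ⊢
    have hb0 : algebraMap (𝓞 E) E b ≠ 0 := left_ne_zero_of_mul ha
    rw [ord_mul W hb0 (inv_ne_zero hsE0), ord_inv, hsord, neg_zero, add_zero]
    exact ord_int_nonneg W b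
  have hAinj : Function.Injective (algebraMap A E) := IsFractionRing.injective A E
  have hunit0 : ∀ a : A, IsUnit a → ord W (algebraMap A E a) = 0 := by
    rintro _ ⟨u, rfl⟩
    have h0 : algebraMap A E (u : A) ≠ 0 := (u.isUnit.map (algebraMap A E)).ne_zero
    have h0' : algebraMap A E ((u⁻¹ : Aˣ) : A) ≠ 0 := ((u⁻¹).isUnit.map (algebraMap A E)).ne_zero
    have h1 := hnn _ h0
    have h2 := hnn _ h0'
    have h3 : ord W (algebraMap A E (u : A) * algebraMap A E ((u⁻¹ : Aˣ) : A)) = 0 := by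
      rw [← map_mul, Units.mul_inv, map_one, ord_one]
    rw [ord_mul W h0 h0'] at h3
    omega
  refine ⟨A, inferInstance, inferInstance, hdvr, inferInstance, hfin, hfr, ?_, hunit0, ?_⟩
  · intro n h2
    have h3 := hunit n h2
    rwa [map_natCast] at h3
  · intro ϖ hϖ
    have hϖ0 : algebraMap A E ϖ ≠ 0 := by
      rw [Ne, map_eq_zero_iff _ hAinj]
      exact hϖ.ne_zero
    -- an element of valuation one
    obtain ⟨π, hπ⟩ := W.intValuation_exists_uniformizer
    have hπ0 : π ≠ 0 := by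
      rintro rfl
      rw [map_zero] at hπ
      exact WithZero.exp_ne_zero hπ.symm
    have hπ1 : ord W (algebraMap (𝓞 E) E π) = 1 := by
      unfold ord
      rw [HeightOneSpectrum.valuation_of_algebraMap, hπ, WithZero.log_exp, neg_neg]
    have hπmem : π ∈ W.asIdeal := by
      rw [← ord_int_pos_iff W hπ0]
      show 0 < ord W (algebraMap (𝓞 E) E π)
      rw [hπ1]
      exact one_pos
    have hπm : algebraMap (𝓞 E) A π ∈ IsLocalRing.maximalIdeal A := by
      have h1 := IsLocalization.AtPrime.to_map_mem_maximal_iff A W.asIdeal π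
      exact h1.2 hπmem
    rw [hϖ.maximalIdeal_eq, Ideal.mem_span_singleton] at hπm
    obtain ⟨b, hb⟩ := hπm
    have hπE : algebraMap (𝓞 E) E π = algebraMap A E ϖ * algebraMap A E b := by
      rw [← map_mul, ← hb]
      rfl
    have hb0 : algebraMap A E b ≠ 0 := by
      intro h
      rw [h, mul_zero] at hπE
      have h1 : algebraMap (𝓞 E) E π ≠ 0 := by simpa using hπ0
      exact h1 hπE
    have h1 := hπ1
    rw [hπE, ord_mul W hϖ0 hb0] at h1
    have h2 := hnn _ hϖ0
    have h3 := hnn _ hb0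
    have h4 : ord W (algebraMap A E ϖ) ≠ 0 := by
      intro h
      -- then `ϖ` is a unit
      obtain ⟨b', s, hs, hbs⟩ : ∃ (a' s : 𝓞 E) (_ : s ∈ W.asIdeal.primeCompl),
          (algebraMap A E ϖ) = algebraMap (𝓞 E) E a' * (algebraMap (𝓞 E) E s)⁻¹ := ϖ.2
      have hs0 : s ≠ 0 := by
        rintro rfl
        exact hs (zero_mem _)
      have hsE0 : algebraMap (𝓞 E) E s ≠ 0 := by simpa using hs0
      have hϖs : ϖ * algebraMap (𝓞 E) A s = algebraMap (𝓞 E) A b' := by
        apply hAinj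
        rw [map_mul, hbs]
        show algebraMap (𝓞 E) E b' * (algebraMap (𝓞 E) E s)⁻¹ * algebraMap (𝓞 E) E s =
          algebraMap (𝓞 E) E b'
        field_simp
      have hb'0 : b' ≠ 0 := by
        rintro rfl
        rw [map_zero, zero_mul] at hbs
        exact hϖ0 hbs
      have hsord : ord W (algebraMap (𝓞 E) E s) = 0 := by
        have h1 := ord_int_nonneg W s
        have h2 := (ord_int_pos_iff W hs0).not.2 hs
        exact le_antisymm (not_lt.1 h2) h1
      have hb'ord : ord W (algebraMap (𝓞 E) E b') = 0 := by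
        have h5 : algebraMap (𝓞 E) E b' = algebraMap A E ϖ * algebraMap (𝓞 E) E s := by
          rw [hbs]
          field_simp
        rw [h5, ord_mul W hϖ0 hsE0, h, hsord, add_zero]
      have hb'W : b' ∉ W.asIdeal := by
        intro h5
        have h6 := (ord_int_pos_iff W hb'0).2 h5
        change 0 < ord W (algebraMap (𝓞 E) E b') at h6
        omega
      have h5 := hunit b' hb'W
      rw [← hϖs] at h5
      exact hϖ.not_isUnit (isUnit_of_mul_isUnit_left h5)
    omega

/-- the exponent of a uniformiser is unique -/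
lemma zpow_unique {κ : Type} [Field κ] {V : ValuationSubring κ} {π z : κ} (hπ0 : π ≠ 0)
    (hπ : π ∈ V.nonunits) {a b : ℤ} (ha : IsU V (z / π ^ a)) (hb : IsU V (z / π ^ b)) : a = b := by
  have key : ∀ a b : ℤ, IsU V (z / π ^ a) → IsU V (z / π ^ b) → ¬ a < b := by
    intro a b ha hb hab
    have h1 : IsU V (π ^ (b - a)) := by
      have h2 : π ^ (b - a) = z / π ^ a / (z / π ^ b) := by
        have hz : z ≠ 0 := by
          rintro rfl
          rw [zero_div] at ha
          exact ha.1 rfl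
        rw [zpow_sub₀ hπ0]
        have h3 : π ^ a ≠ 0 := zpow_ne_zero _ hπ0
        have h4 : π ^ b ≠ 0 := zpow_ne_zero _ hπ0
        field_simp
      rw [h2]
      exact ha.div hb
    obtain ⟨n, hn⟩ : ∃ n : ℕ, b - a = (n : ℤ) + 1 := ⟨(b - a - 1).toNat, by omega⟩
    rw [hn, zpow_add_one₀ hπ0, zpow_natCast] at h1
    exact h1.not_nonunit (non_mul (pow_mem (non_mem hπ) n) hπ)
  rcases lt_trichotomy a b with h | h | h
  · exact absurd h (key a b ha hb)
  · exact h
  · exact absurd h (key b a hb ha)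

theorem local_q {L E F Ω : Type} [Field L] [CharZero L] [Field E] [NumberField E]
    [Field F] [Field Ω] [Algebra L F] [Algebra F Ω] [Algebra L Ω] [IsScalarTower L F Ω]
    [Algebra L E] [Algebra E (algebraicClosure L Ω)] [IsScalarTower L E (algebraicClosure L Ω)]
    [IsAlgClosed Ω] [Algebra.IsAlgebraic F Ω] (q : ℕ) [Fact q.Prime]
    (G : NSec L (geomPro q L F Ω)) {X : Type} [Fintype X] (hX : q ∣ Fintype.card X)
    (h3 : 3 ≤ Fintype.card X) (Θ : X → E) (c : E) (hc0 : c ≠ 0) (x y : F)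
    (hx : Transcendental L x) (hy0 : y ≠ 0)
    (hF : IntermediateField.adjoin L {x, y} = (⊤ : IntermediateField L F))
    (hxy : ((algebraMap E (algebraicClosure L Ω) c : algebraicClosure L Ω) : Ω) *
      algebraMap F Ω y ^ q =
      ∏ i, (algebraMap F Ω x - ((algebraMap E (algebraicClosure L Ω) (Θ i) : algebraicClosure L Ω) : Ω)))
    (hN : ∀ c : algebraicClosure L Ω, (c : Ω) ∈ geomPro q L F Ω)
    (i₀ : X) (κ : X → E) (β : X → geomPro q L F Ω) (hκ0 : ∀ i, κ i ≠ 0) (hβ0 : ∀ i, β i ≠ 0)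
    (hβ : ∀ i, ∀ σ : algebraicClosure L Ω ≃ₐ[E] algebraicClosure L Ω, actE G σ (β i) = β i)
    (hκβ : ∀ i, cC hN (algebraMap E _ (κ i)) * β i ^ q =
      (algebraMap F _ x - cC hN (algebraMap E _ (Θ i))) /
        (algebraMap F _ x - cC hN (algebraMap E _ (Θ i₀))))
    (W : HeightOneSpectrum (𝓞 E)) (hqW : (q : 𝓞 E) ∉ W.asIdeal)
    (hΘ : ∀ i i', i ≠ i' → W.valuation E (Θ i - Θ i') = 1) :
    ∃ r, ∀ i, i ≠ r → (q : ℤ) ∣ ord W (κ r) - ord W (κ i) - ord W c := by
  classical
  have hqp : q.Prime := Fact.out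
  obtain ⟨A, _, _, _, _, hfin, hfr, hqA, hunit0, hϖ1⟩ := dvr_dataq W
  have hac : IsAlgClosure L (algebraicClosure L Ω) := inferInstance
  have hkb : IsAlgClosed (algebraicClosure L Ω) := hac.1
  have hEalg : Algebra.IsAlgebraic E (algebraicClosure L Ω) :=
    Algebra.IsAlgebraic.tower_top (K := L) E
  have hEcl : IsAlgClosure E (algebraicClosure L Ω) := ⟨hkb, hEalg⟩
  let _ : Algebra A (algebraicClosure L Ω) :=
    ((algebraMap E (algebraicClosure L Ω)).comp (algebraMap A E)).toAlgebra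
  have hst : IsScalarTower A E (algebraicClosure L Ω) :=
    IsScalarTower.of_algebraMap_eq (fun _ => rfl)
  obtain ⟨V, φ, hVa, hVm, -, -⟩ := W327.SecC.partB1 A E (algebraicClosure L Ω)
  have hunit : ∀ b : A, IsUnit b → IsU V (algebraMap A (algebraicClosure L Ω) b) := by
    rintro b ⟨b, rfl⟩
    refine ⟨(b.isUnit.map (algebraMap A (algebraicClosure L Ω))).ne_zero, hVa _, ?_⟩
    have h1 : (algebraMap A (algebraicClosure L Ω) (b : A))⁻¹ =
        algebraMap A (algebraicClosure L Ω) ((b⁻¹ : Aˣ) : A) := by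
      refine inv_eq_of_mul_eq_one_right ?_
      rw [← map_mul, Units.mul_inv, map_one]
    rw [h1]
    exact hVa _
  obtain ⟨ϖ, hϖ⟩ := IsDiscreteValuationRing.exists_irreducible A
  have hϖE0 : algebraMap A E ϖ ≠ 0 := by
    rw [Ne, map_eq_zero_iff _ (IsFractionRing.injective A E)]
    exact hϖ.ne_zero
  have hϖ0 : algebraMap A (algebraicClosure L Ω) ϖ ≠ 0 := by
    rw [IsScalarTower.algebraMap_apply A E]
    exact (_root_.map_ne_zero _).2 hϖE0
  have hϖn : algebraMap A (algebraicClosure L Ω) ϖ ∈ V.nonunits := hVm ϖ (by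
    rw [hϖ.maximalIdeal_eq]
    exact Ideal.mem_span_singleton_self ϖ)
  -- valuations of the elements of `E`
  have hval : ∀ z : E, z ≠ 0 → IsU V (algebraMap E (algebraicClosure L Ω) z /
      algebraMap A (algebraicClosure L Ω) ϖ ^ (ord W z)) := by
    intro z hz
    obtain ⟨u, j, hj⟩ := Pool.Agent.W623.SecC.exists_unit_zpow ϖ hϖ z hz
    have hu0 : algebraMap A E (u : A) ≠ 0 := (u.isUnit.map (algebraMap A E)).ne_zero
    have h1 : ord W z = j := by
      rw [hj, ord_mul W hu0 (zpow_ne_zero _ hϖE0), hunit0 _ u.isUnit, ord_zpow, hϖ1 ϖ hϖ, mul_one,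
        zero_add]
    rw [h1]
    have h3 : algebraMap A (algebraicClosure L Ω) ϖ ^ j ≠ 0 := zpow_ne_zero _ hϖ0
    have h2 : algebraMap E (algebraicClosure L Ω) z /
        algebraMap A (algebraicClosure L Ω) ϖ ^ j =
        algebraMap A (algebraicClosure L Ω) (u : A) := by
      rw [div_eq_iff h3, hj, map_mul, map_zpow₀]
      rfl
    rw [h2]
    exact hunit _ u.isUnit
  have hord0 : ∀ i i', i ≠ i' → ord W (Θ i - Θ i') = 0 := by
    intro i i' hii'
    unfold ord
    rw [hΘ i i' hii', WithZero.log_one, neg_zero]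
  have hΘ0 : ∀ i i', i ≠ i' → Θ i - Θ i' ≠ 0 := by
    intro i i' hii' h
    have h1 := hΘ i i' hii'
    rw [h, map_zero] at h1
    exact zero_ne_one h1
  -- the curve
  obtain ⟨δ, hδ⟩ : ∃ δ : algebraicClosure L Ω, δ ^ q = algebraMap E (algebraicClosure L Ω) c :=
    IsAlgClosed.exists_pow_nat_eq _ hqp.pos
  have hδ0 : δ ≠ 0 := by
    rintro rfl
    rw [zero_pow hqp.ne_zero] at hδ
    exact (_root_.map_ne_zero _).2 hc0 hδ.symm
  obtain ⟨Y0, hY0⟩ : ∃ Y0 : Ω, Y0 = (δ : Ω) * algebraMap F Ω y := ⟨_, rfl⟩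
  have hY' : Y0 ^ q = ∏ i, (algebraMap F Ω x -
      ((algebraMap E (algebraicClosure L Ω) (Θ i) : algebraicClosure L Ω) : Ω)) := by
    rw [hY0, mul_pow, ← hxy, ← hδ]
    rfl
  have hX0 : Transcendental L (algebraMap F Ω x) :=
    (transcendental_algebraMap_iff (R := L) (algebraMap F Ω).injective (a := x)).2 hx
  have hrat0 := ratF_adj (trans_up hX0)
  have hYR : ((δ : Ω) * algebraMap F Ω y) ^ q ∈
      IntermediateField.adjoin (algebraicClosure L Ω) {algebraMap F Ω x} := by
    rw [← hY0, hY']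
    exact prod_mem fun e _ => sub_mem (IntermediateField.mem_adjoin_simple_self _ _)
      (IntermediateField.algebraMap_mem _ (algebraMap E (algebraicClosure L Ω) (Θ e)))
  have hclR := closure_R hF δ hδ0 hqp.pos hYR
  have hΘU : ∀ i i', i ≠ i' → IsU V (algebraMap E (algebraicClosure L Ω) (Θ i - Θ i')) := by
    intro i i' hii'
    have h1 := hval _ (hΘ0 i i' hii')
    rw [hord0 i i' hii', zpow_zero, div_one] at h1
    exact h1
  have hxs : ∀ σ : algebraicClosure L Ω ≃ₐ[E] algebraicClosure L Ω,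
      actE G σ (algebraMap F (geomPro q L F Ω) x) = algebraMap F (geomPro q L F Ω) x :=
    fun σ => (G.toHom (σ.restrictScalars L)).commutes x
  have hys : ∀ σ : algebraicClosure L Ω ≃ₐ[E] algebraicClosure L Ω,
      actE G σ (algebraMap F (geomPro q L F Ω) y) = algebraMap F (geomPro q L F Ω) y :=
    fun σ => (G.toHom (σ.restrictScalars L)).commutes y
  obtain ⟨r, hr⟩ := absI_q (k := E)
    (R := IntermediateField.adjoin (algebraicClosure L Ω) {algebraMap F Ω x}) V hVa hVm ϖ hϖ
    (hqA q hqW) c hc0 (ord W c) (hval c hc0) δ hδ Θ i₀ hΘU hX h3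
    ⟨algebraMap F Ω x, IntermediateField.mem_adjoin_simple_self _ _⟩ hrat0
    ((δ : Ω) * algebraMap F Ω y) (by rw [← hY0]; exact hY') (geomPro q L F Ω)
    (fun z => maxPro_geom q L hF δ hδ0 z) (cC hN) (fun z => rfl) (actE G)
    (fun z => actE_cont G z) (fun σ z => actE_constC hN G σ z)
    (algebraMap F (geomPro q L F Ω) x) (algebraMap F (geomPro q L F Ω) y)
    ((_root_.map_ne_zero _).2 hy0) hxs hys rfl rfl κ β hκ0 hβ0 (fun i σ => hβ i σ) hκβ
  refine ⟨r, fun i hi => ?_⟩
  obtain ⟨j, hj⟩ := hr i hi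
  have hz0 : κ r / (κ i * c) ≠ 0 := div_ne_zero (hκ0 r) (mul_ne_zero (hκ0 i) hc0)
  have h1 := zpow_unique hϖ0 hϖn (hval _ hz0) hj
  refine ⟨j, ?_⟩
  rw [← h1, div_eq_mul_inv, ord_mul W (hκ0 r) (inv_ne_zero (mul_ne_zero (hκ0 i) hc0)), ord_inv,
    ord_mul W (hκ0 i) hc0]
  ring

end Run7.h846
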