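import Pool.Agent.Run7.h846.SecCls
import Pool.Agent.Run7.h846.Nrm
import Pool.Agent.W933.SecC.PartB3
import Pool.Agent.W327.SecC.PartB1

/-!
# The classes of a section at the good primes
-/

set_option autoImplicit false

namespace Run7.h846

open Pool.Agent.W620.SC Pool.Agent.W623.SecC Pool.Agent.W623.SecE Polynomial IntermediateField
  NumberField IsDedekindDomain

universe v w

/-- the local ring of a prime of a number field -/
theorem dvr_data {E : Type} [Field E] [NumberField E] (W : HeightOneSpectrum (𝓞 E)) :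
    ∃ (A : Type) (_ : CommRing A) (_ : IsDomain A) (_ : IsDiscreteValuationRing A)
      (_ : Algebra A E), Finite (IsLocalRing.ResidueField A) ∧ IsFractionRing A E ∧
      ((2 : 𝓞 E) ∉ W.asIdeal → IsUnit (2 : A)) ∧
      (∀ a : A, IsUnit a → ord W (algebraMap A E a) = 0) ∧
      ∀ ϖ : A, Irreducible ϖ → ord W (algebraMap A E ϖ) = 1 := by
  classical
  have hvm : W.asIdeal.IsMaximal := W.isMaximal
  have hvp : W.asIdeal.IsPrime := W.isPrime
  have hle : W.asIdeal.primeCompl ≤ nonZeroDivisors (𝓞 E) := W.asIdeal.primeCompl_le_nonZeroDivisors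
  let A := Localization.subalgebra.ofField E W.asIdeal.primeCompl hle
  have hloc : IsLocalization.AtPrime A W.asIdeal :=
    Localization.subalgebra.isLocalization_ofField E W.asIdeal.primeCompl hle
  have hdvr : IsDiscreteValuationRing A :=
    IsLocalization.AtPrime.isDiscreteValuationRing_of_dedekind_domain (𝓞 E) W.ne_bot A
  have hfr : IsFractionRing A E := inferInstance
  have hunit : ∀ c : 𝓞 E, c ∉ W.asIdeal → IsUnit (algebraMap (𝓞 E) A c) := fun c hc =>
    (IsLocalization.AtPrime.isUnit_to_map_iff A W.asIdeal c).2 hc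
  let e : (𝓞 E ⧸ W.asIdeal) ≃+* IsLocalRing.ResidueField A :=
    IsLocalization.AtPrime.equivQuotMaximalIdeal W.asIdeal A
  have hfin : Finite (IsLocalRing.ResidueField A) := by
    have h1 : Finite (𝓞 E ⧸ W.asIdeal) := Ideal.finiteQuotientOfFreeOfNeBot _ W.ne_bot
    exact Finite.of_equiv _ e.toEquiv
  have hnn : ∀ a : A, algebraMap A E a ≠ 0 → 0 ≤ ord W (algebraMap A E a) := by
    intro a ha
    obtain ⟨b, s, hs, hbs⟩ : ∃ (a' s : 𝓞 E) (_ : s ∈ W.asIdeal.primeCompl),
        (algebraMap A E a) = algebraMap (𝓞 E) E a' * (algebraMap (𝓞 E) E s)⁻¹ := a.2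
    have hs0 : s ≠ 0 := by
      rintro rfl
      exact hs (zero_mem _)
    have hsE0 : algebraMap (𝓞 E) E s ≠ 0 := by simpa using hs0
    have hsord : ord W (algebraMap (𝓞 E) E s) = 0 := by
      have h1 := ord_int_nonneg W s
      have h2 := (ord_int_pos_iff W hs0).not.2 hs
      exact le_antisymm (not_lt.1 h2) h1
    rw [hbs] at ha ⊢
    have hb0 : algebraMap (𝓞 E) E b ≠ 0 := left_ne_zero_of_mul ha
    rw [ord_mul W hb0 (inv_ne_zero hsE0), ord_inv, hsord, neg_zero, add_zero]
    exact ord_int_nonneg W b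
  have hAinj : Function.Injective (algebraMap A E) := IsFractionRing.injective A E
  have hunit0 : ∀ a : A, IsUnit a → ord W (algebraMap A E a) = 0 := by
    rintro _ ⟨u, rfl⟩
    have h0 : algebraMap A E (u : A) ≠ 0 := (u.isUnit.map (algebraMap A E)).ne_zero
    have h0' : algebraMap A E ((u⁻¹ : Aˣ) : A) ≠ 0 := ((u⁻¹).isUnit.map (algebraMap A E)).ne_zero
    have h1 := hnn _ h0
    have h2 := hnn _ h0'
    have h3 : ord W (algebraMap A E (u : A) * algebraMap A E ((u⁻¹ : Aˣ) : A)) = 0 := by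
      rw [← map_mul, Units.mul_inv, map_one, ord_one]
    rw [ord_mul W h0 h0'] at h3
    omega
  refine ⟨A, inferInstance, inferInstance, hdvr, inferInstance, hfin, hfr, ?_, hunit0, ?_⟩
  · intro h2
    have h3 := hunit 2 h2
    rwa [map_ofNat] at h3
  · intro ϖ hϖ
    have hϖ0 : algebraMap A E ϖ ≠ 0 := by
      rw [Ne, map_eq_zero_iff _ hAinj]
      exact hϖ.ne_zero
    -- an element of valuation one
    obtain ⟨π, hπ⟩ := W.intValuation_exists_uniformizer
    have hπ0 : π ≠ 0 := by
      rintro rfl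
      rw [map_zero] at hπ
      exact WithZero.exp_ne_zero hπ.symm
    have hπ1 : ord W (algebraMap (𝓞 E) E π) = 1 := by
      unfold ord
      rw [HeightOneSpectrum.valuation_of_algebraMap, hπ, WithZero.log_exp, neg_neg]
    have hπmem : π ∈ W.asIdeal := by
      rw [← ord_int_pos_iff W hπ0]
      show 0 < ord W (algebraMap (𝓞 E) E π)
      rw [hπ1]
      exact one_pos
    have hπm : algebraMap (𝓞 E) A π ∈ IsLocalRing.maximalIdeal A := by
      have h1 := IsLocalization.AtPrime.to_map_mem_maximal_iff A W.asIdeal π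
      exact h1.2 hπmem
    rw [hϖ.maximalIdeal_eq, Ideal.mem_span_singleton] at hπm
    obtain ⟨b, hb⟩ := hπm
    have hπE : algebraMap (𝓞 E) E π = algebraMap A E ϖ * algebraMap A E b := by
      rw [← map_mul, ← hb]
      rfl
    have hb0 : algebraMap A E b ≠ 0 := by
      intro h
      rw [h, mul_zero] at hπE
      have h1 : algebraMap (𝓞 E) E π ≠ 0 := by simpa using hπ0
      exact h1 hπE
    have h1 := hπ1
    rw [hπE, ord_mul W hϖ0 hb0] at h1
    have h2 := hnn _ hϖ0
    have h3 := hnn _ hb0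
    have h4 : ord W (algebraMap A E ϖ) ≠ 0 := by
      intro h
      -- then `ϖ` is a unit
      obtain ⟨b', s, hs, hbs⟩ : ∃ (a' s : 𝓞 E) (_ : s ∈ W.asIdeal.primeCompl),
          (algebraMap A E ϖ) = algebraMap (𝓞 E) E a' * (algebraMap (𝓞 E) E s)⁻¹ := ϖ.2
      have hs0 : s ≠ 0 := by
        rintro rfl
        exact hs (zero_mem _)
      have hsE0 : algebraMap (𝓞 E) E s ≠ 0 := by simpa using hs0
      have hϖs : ϖ * algebraMap (𝓞 E) A s = algebraMap (𝓞 E) A b' := by
        apply hAinj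
        rw [map_mul, hbs]
        show algebraMap (𝓞 E) E b' * (algebraMap (𝓞 E) E s)⁻¹ * algebraMap (𝓞 E) E s =
          algebraMap (𝓞 E) E b'
        field_simp
      have hb'0 : b' ≠ 0 := by
        rintro rfl
        rw [map_zero, zero_mul] at hbs
        exact hϖ0 hbs
      have hsord : ord W (algebraMap (𝓞 E) E s) = 0 := by
        have h1 := ord_int_nonneg W s
        have h2 := (ord_int_pos_iff W hs0).not.2 hs
        exact le_antisymm (not_lt.1 h2) h1
      have hb'ord : ord W (algebraMap (𝓞 E) E b') = 0 := by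
        have h5 : algebraMap (𝓞 E) E b' = algebraMap A E ϖ * algebraMap (𝓞 E) E s := by
          rw [hbs]
          field_simp
        rw [h5, ord_mul W hϖ0 hsE0, h, hsord, add_zero]
      have hb'W : b' ∉ W.asIdeal := by
        intro h5
        have h6 := (ord_int_pos_iff W hb'0).2 h5
        change 0 < ord W (algebraMap (𝓞 E) E b') at h6
        omega
      have h5 := hunit b' hb'W
      rw [← hϖs] at h5
      exact hϖ.not_isUnit (isUnit_of_mul_isUnit_left h5)
    omega

theorem local_par {L E : Type} {F : Type v} {Ω : Type w} [Field L] [CharZero L] [Field E]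
    [NumberField E]
    [Field F] [Field Ω] [Algebra L F] [Algebra F Ω] [Algebra L Ω] [IsScalarTower L F Ω]
    [Algebra L E] [Algebra E (algebraicClosure L Ω)] [IsScalarTower L E (algebraicClosure L Ω)]
    [IsAlgClosed Ω] [Algebra.IsAlgebraic F Ω]
    (U : Set (ValuationSubring F)) (hU : ∀ O ∈ U, ∀ c : L, algebraMap L F c ∈ O)
    {N : IntermediateField F Ω} (hN : Adm L U N) (G : NSec L N) {X : Type} [Fintype X] (hX : Even (Fintype.card X))
    (hX4 : 4 ≤ Fintype.card X) (Θ : X → E) (c : E) (hc0 : c ≠ 0) (x y : F) (hy0 : y ≠ 0)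
    (hxy : ((algebraMap E (algebraicClosure L Ω) c : algebraicClosure L Ω) : Ω) *
      algebraMap F Ω y ^ 2 =
      ∏ i, (algebraMap F Ω x - ((algebraMap E (algebraicClosure L Ω) (Θ i) : algebraicClosure L Ω) : Ω)))
    (htr : ∀ a : algebraicClosure L Ω, (a : Ω) ≠ algebraMap F Ω x) (i₀ : X) (κ : X → E)
    (β : X → N) (hκ0 : ∀ i, κ i ≠ 0) (hβ0 : ∀ i, β i ≠ 0)
    (hβ : ∀ i, ∀ σ : algebraicClosure L Ω ≃ₐ[E] algebraicClosure L Ω, actE G σ (β i) = β i)
    (hκβ : ∀ i, cH hN (algebraMap E _ (κ i)) * β i ^ 2 =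
      (algebraMap F (N) x - cH hN (algebraMap E _ (Θ i))) /
        (algebraMap F (N) x - cH hN (algebraMap E _ (Θ i₀))))
    (W : HeightOneSpectrum (𝓞 E)) (h2W : (2 : 𝓞 E) ∉ W.asIdeal)
    (hΘ : ∀ i i', i ≠ i' → W.valuation E (Θ i - Θ i') = 1) :
    ∃ r, ∀ i, i ≠ r → (2 : ℤ) ∣ ord W (κ r) - ord W (κ i) - ord W c := by
  classical
  obtain ⟨A, _, _, _, _, hfin, hfr, h2A, hunit0, hϖ1⟩ := dvr_data W
  have hac : IsAlgClosure L (algebraicClosure L Ω) := inferInstance
  have hkb : IsAlgClosed (algebraicClosure L Ω) := hac.1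
  have hEalg : Algebra.IsAlgebraic E (algebraicClosure L Ω) :=
    Algebra.IsAlgebraic.tower_top (K := L) E
  have hEcl : IsAlgClosure E (algebraicClosure L Ω) := ⟨hkb, hEalg⟩
  let _ : Algebra A (algebraicClosure L Ω) :=
    ((algebraMap E (algebraicClosure L Ω)).comp (algebraMap A E)).toAlgebra
  have hst : IsScalarTower A E (algebraicClosure L Ω) :=
    IsScalarTower.of_algebraMap_eq (fun _ => rfl)
  obtain ⟨V, φ, hVa, hVm, hφV, hφq⟩ :=
    W327.SecC.partB1 A E (algebraicClosure L Ω)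
  set q := Nat.card (IsLocalRing.ResidueField A) with hq
  have hq2 : 2 ≤ q := by
    have := Fintype.ofFinite (IsLocalRing.ResidueField A)
    rw [hq, Nat.card_eq_fintype_card]
    exact Fintype.one_lt_card
  have hunit : ∀ b : A, IsUnit b → IsU V (algebraMap A (algebraicClosure L Ω) b) := by
    rintro b ⟨b, rfl⟩
    refine ⟨(b.isUnit.map (algebraMap A (algebraicClosure L Ω))).ne_zero, hVa _, ?_⟩
    have h1 : (algebraMap A (algebraicClosure L Ω) (b : A))⁻¹ =
        algebraMap A (algebraicClosure L Ω) ((b⁻¹ : Aˣ) : A) := by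
      refine inv_eq_of_mul_eq_one_right ?_
      rw [← map_mul, Units.mul_inv, map_one]
    rw [h1]
    exact hVa _
  obtain ⟨ϖ, hϖ⟩ := IsDiscreteValuationRing.exists_irreducible A
  have hϖE0 : algebraMap A E ϖ ≠ 0 := by
    rw [Ne, map_eq_zero_iff _ (IsFractionRing.injective A E)]
    exact hϖ.ne_zero
  have hϖn : algebraMap E (algebraicClosure L Ω) (algebraMap A E ϖ) ∈ V.nonunits := hVm ϖ (by
    rw [hϖ.maximalIdeal_eq]
    exact Ideal.mem_span_singleton_self ϖ)
  -- valuations of the elements of `E`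
  have hval : ∀ z : E, z ≠ 0 → IsU V (algebraMap E (algebraicClosure L Ω) z /
      algebraMap E (algebraicClosure L Ω) (algebraMap A E ϖ) ^ (ord W z)) := by
    intro z hz
    obtain ⟨u, j, hj⟩ := exists_unit_zpow ϖ hϖ z hz
    have hu0 : algebraMap A E (u : A) ≠ 0 := (u.isUnit.map (algebraMap A E)).ne_zero
    have h1 : ord W z = j := by
      rw [hj, ord_mul W hu0 (zpow_ne_zero _ hϖE0), hunit0 _ u.isUnit, ord_zpow, hϖ1 ϖ hϖ, mul_one,
        zero_add]
    rw [h1]
    have h3 : algebraMap E (algebraicClosure L Ω) (algebraMap A E ϖ) ^ j ≠ 0 :=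
      zpow_ne_zero _ ((_root_.map_ne_zero _).2 hϖE0)
    have h2 : algebraMap E (algebraicClosure L Ω) z /
        algebraMap E (algebraicClosure L Ω) (algebraMap A E ϖ) ^ j =
        algebraMap A (algebraicClosure L Ω) (u : A) := by
      rw [div_eq_iff h3, hj, map_mul, map_zpow₀]
      rfl
    rw [h2]
    exact hunit _ u.isUnit
  have h2V : (2 : algebraicClosure L Ω)⁻¹ ∈ V := by
    have h1 := (hunit 2 (h2A h2W)).2.2
    rwa [map_ofNat] at h1
  have hCE : CharZero E := inferInstance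
  obtain ⟨S, hLS, hφS, hSsq, hStame⟩ := Pool.Agent.W933.SecC.partB3 E (algebraicClosure L Ω) V h2V
    (algebraMap A E ϖ) hϖE0 hϖn ⊥ (by
      intro c hc hc0
      obtain ⟨e, rfl⟩ := IntermediateField.mem_bot.1 hc
      have he0 : e ≠ 0 := by
        rintro rfl
        exact hc0 (map_zero _)
      exact ⟨_, hval e he0⟩) φ hφV (by
      intro z
      constructor
      · intro h
        obtain ⟨e, he⟩ := IntermediateField.mem_bot.1 h
        refine IntermediateField.mem_bot.2 ⟨e, ?_⟩
        apply φ.injective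
        rw [φ.commutes, he]
      · intro h
        obtain ⟨e, rfl⟩ := IntermediateField.mem_bot.1 h
        rw [φ.commutes]
        exact h)
  set D := mkDatE U hN G V S (algebraMap A E ϖ) hϖE0 hϖn hSsq hStame φ hφV hφS with hD
  have hOk : D.Ok q := mkE_ok U hU hN G V S (algebraMap A E ϖ) hϖE0 hϖn hSsq hStame φ hφV hφS
    h2V q hq2 hφq
  have hord0 : ∀ i i', i ≠ i' → ord W (Θ i - Θ i') = 0 := by
    intro i i' hii'
    unfold ord
    rw [hΘ i i' hii', WithZero.log_one, neg_zero]
  have hΘ0 : ∀ i i', i ≠ i' → Θ i - Θ i' ≠ 0 := by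
    intro i i' hii' h
    have h1 := hΘ i i' hii'
    rw [h, map_zero] at h1
    exact zero_ne_one h1
  let B : D.Br X := mkBrE U hU hN G V S (algebraMap A E ϖ) hϖE0 hϖn hSsq hStame φ hφV hφS
    (X := X) hX hX4 (fun i => algebraMap E (algebraicClosure L Ω) (Θ i))
    (fun i => S.algebraMap_mem _) (by
      intro i i' hii'
      have h1 := hval _ (hΘ0 i i' hii')
      rw [hord0 i i' hii', zpow_zero, div_one, map_sub] at h1
      exact h1) (Equiv.refl X) (fun i => φ.commutes _) x y hy0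
      (algebraMap E (algebraicClosure L Ω) c) (S.algebraMap_mem _) (ord W c) (hval c hc0) hxy htr
  have hβRS : ∀ i, β i ∈ D.RS := fun i σ _ => hβ i σ
  have hpar : ∀ i, ((B.n i i₀ : ZMod 2)) = ((ord W (κ i) : ℤ) : ZMod 2) := by
    intro i
    have h1 : D.Par (D.ι (algebraMap E _ (κ i))) (ord W (κ i)) :=
      Dat.Par.const (S.algebraMap_mem _) (hval _ (hκ0 i))
    have h2 := h1.mul (Dat.Par.sq (D := D) (hβRS i) (hβ0 i))
    rw [add_zero] at h2
    have h3 : D.ι (algebraMap E _ (κ i)) * β i ^ 2 =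
        (B.x - D.ι (B.θ i)) / (B.x - D.ι (B.θ i₀)) := hκβ i
    rw [h3] at h2
    exact (B.hn i i₀).unique h2
  have hpar2 : ∀ i i', ((B.n i i' : ZMod 2)) = ((ord W (κ i') - ord W (κ i) : ℤ) : ZMod 2) := by
    intro i i'
    have h1 := B.coc i i' i₀
    rw [hpar, hpar] at h1
    have h2 : ∀ a b c : ZMod 2, a + b = c → a = b - c := by decide
    rw [h2 _ _ _ h1]
    push_cast
    ring
  have hdvd : ∀ z : ℤ, ((z : ZMod 2)) = 0 → (2 : ℤ) ∣ z := by
    intro z hz
    rw [ZMod.intCast_zmod_eq_zero_iff_dvd] at hz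
    exact_mod_cast hz
  rcases Int.even_or_odd (ord W c) with hev | hodd
  · refine ⟨i₀, fun i _ => hdvd _ ?_⟩
    have h1 := zmod2_of_even (B.even hOk hev i i₀)
    rw [hpar2] at h1
    push_cast at h1 ⊢
    rw [h1, zmod2_of_even hev, sub_zero]
  · obtain ⟨r, -, hr, -⟩ := B.odd hOk hodd
    refine ⟨r, fun i hi => hdvd _ ?_⟩
    have h1 := zmod2_of_odd (hr i hi)
    rw [hpar2] at h1
    push_cast at h1 ⊢
    rw [h1, zmod2_of_odd hodd, sub_self]

end Run7.h846
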