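import Pool.Agent.Run7.h846.Nf2
import Pool.Agent.Run7.h846.Pack

/-!
# Specialisation of split families
-/

set_option autoImplicit false

namespace Run7.h846

open Polynomial NumberField

lemma map_prod_lin {A B : Type} [CommRing A] [CommRing B] {Ω : Type} [Fintype Ω] (g : A →+* B)
    (θ : Ω → A[X]) : (∏ i, (X - C (θ i)) : A[X][X]).map (mapRingHom g) =
      ∏ i, (X - C ((θ i).map g)) := by
  rw [Polynomial.map_prod]
  refine Finset.prod_congr rfl fun i _ => ?_
  rw [Polynomial.map_sub, map_X, map_C]
  rfl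

lemma eval_prod_lin {A : Type} [CommRing A] {Ω : Type} [Fintype Ω] (θ : Ω → A) (i : Ω) :
    (∏ i, (X - C (θ i)) : A[X]).eval (θ i) = 0 := by
  rw [eval_prod]
  apply Finset.prod_eq_zero (Finset.mem_univ i)
  rw [eval_sub, eval_X, eval_C, sub_self]

lemma map_root {A B : Type} [CommRing A] [CommRing B] (g : A →+* B) (f : A[X][X]) (η : A[X]) :
    (f.eval η).map g = (f.map (mapRingHom g)).eval (η.map g) := by
  rw [eval_map]
  exact (eval₂_at_apply (mapRingHom g) η).symm

lemma eval0_map {A B : Type} [CommRing A] [CommRing B] (g : A →+* B) (P : A[X]) :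
    (P.map g).eval 0 = g (P.eval 0) := by
  rw [eval_map, eval₂_at_zero, coeff_zero_eq_eval_zero]

attribute [local instance] Polynomial.algebra in
lemma coeff_integral {R N : Type} [CommRing R] [Field N] (ρ : R →+* N) (f : R[X][X]) (hfm : f.Monic)
    (η : N[X]) (h : (f.map (mapRingHom ρ)).eval η = 0) (n : ℕ) : ρ.IsIntegralElem (η.coeff n) := by
  let _ : Algebra R N := ρ.toAlgebra
  have h1 : IsIntegral R[X] η := by
    refine ⟨f, hfm, ?_⟩
    have h2 : algebraMap R[X] N[X] = mapRingHom ρ := by
      ext x <;> simp <;> rfl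
    rw [h2, ← eval_map]
    exact h
  exact Polynomial.isIntegral_iff_isIntegral_coeff.1 h1 n

theorem spec (R F E₀ : Type) [CommRing R] [IsDomain R] [Algebra ℚ R] [Algebra.FiniteType ℚ R]
    [Field F] [Algebra R F] [IsFractionRing R F] [Field E₀] [Algebra F E₀] [FiniteDimensional F E₀]
    (Ω : Type) [Fintype Ω] (θ : Ω → E₀[X]) (f : R[X][X]) (hfm : f.Monic)
    (hf : f.map (mapRingHom ((algebraMap F E₀).comp (algebraMap R F))) = ∏ i, (X - C (θ i)))
    (hsep : ∀ i j, i ≠ j → (θ i).eval 0 ≠ (θ j).eval 0) (d : R) (hd : d ≠ 0)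
    (hno : ∀ η : F[X], (f.map (mapRingHom (algebraMap R F))).eval η ≠ 0) :
    ∃ (L₀ : Type) (_ : Field L₀) (_ : NumberField L₀) (N₀ : Type) (_ : Field N₀)
      (_ : NumberField N₀) (_ : Algebra L₀ N₀) (φ : R →+* L₀) (θ' : Ω → N₀[X]), φ d ≠ 0 ∧
      (f.map (mapRingHom φ)).map (mapRingHom (algebraMap L₀ N₀)) = ∏ i, (X - C (θ' i)) ∧
      (∀ i j, i ≠ j → (θ' i).eval 0 ≠ (θ' j).eval 0) ∧
      ∀ η : L₀[X], (f.map (mapRingHom φ)).eval η ≠ 0 := by
  classical
  obtain ⟨N, _, _, _, htow, hfdN, hgal, B, hB, hspec⟩ := pack R F E₀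
  let ρ : R →+* N := (algebraMap F N).comp (algebraMap R F)
  have hρinj : Function.Injective ρ := (algebraMap F N).injective.comp (IsFractionRing.injective R F)
  let ψ : R →+* B := ρ.codRestrict B fun r => hB _ (ρ.isIntegralElem_map)
  have hψ : B.subtype.comp ψ = ρ := rfl
  let θN : Ω → N[X] := fun i => (θ i).map (algebraMap E₀ N)
  have hρ' : (algebraMap E₀ N).comp ((algebraMap F E₀).comp (algebraMap R F)) = ρ := by
    show _ = (algebraMap F N).comp (algebraMap R F)
    rw [← RingHom.comp_assoc, ← IsScalarTower.algebraMap_eq F E₀ N]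
  have hfN : f.map (mapRingHom ρ) = ∏ i, (X - C (θN i)) := by
    rw [← map_prod_lin (algebraMap E₀ N) θ, ← hf, Polynomial.map_map, mapRingHom_comp, hρ']
  -- integrality of the roots
  have hlift : ∀ i, ∃ P : B[X], P.map B.subtype = θN i := by
    intro i
    have h2 := coeff_integral ρ f hfm (θN i) (by rw [hfN]; exact eval_prod_lin θN i)
    have h3 : θN i ∈ lifts B.subtype := by
      rw [lifts_iff_coeff_lifts]
      intro n
      exact ⟨⟨_, hB _ (h2 n)⟩, rfl⟩
    exact (mem_lifts _).1 h3
  choose θB hθB using hlift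
  have hBinj : Function.Injective (mapRingHom B.subtype) :=
    Polynomial.map_injective _ B.subtype_injective
  have hfB : f.map (mapRingHom ψ) = ∏ i, (X - C (θB i)) := by
    apply Polynomial.map_injective _ hBinj
    rw [map_prod_lin, Polynomial.map_map, mapRingHom_comp, hψ, hfN]
    refine Finset.prod_congr rfl fun i _ => ?_
    rw [hθB]
  have hsepB : ∀ i j, i ≠ j → (θB i).eval 0 - (θB j).eval 0 ≠ 0 := by
    intro i j hij h
    apply hsep i j hij
    apply (algebraMap E₀ N).injective
    have h1 : ∀ i, algebraMap E₀ N ((θ i).eval 0) = B.subtype ((θB i).eval 0) := by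
      intro i
      rw [← eval0_map, ← eval0_map, hθB]
    rw [h1, h1, sub_eq_zero.1 h]
  let bb : B := ψ d * ∏ p ∈ (Finset.univ : Finset (Ω × Ω)).filter (fun p => p.1 ≠ p.2),
    ((θB p.1).eval 0 - (θB p.2).eval 0)
  have hψinj : Function.Injective ψ := by
    intro x y hxy
    exact hρinj (congrArg B.subtype hxy)
  have hbb : bb ≠ 0 := by
    apply mul_ne_zero
    · rw [Ne, map_eq_zero_iff ψ hψinj]
      exact hd
    · rw [Finset.prod_ne_zero_iff]
      intro p hp
      rw [Finset.mem_filter] at hp
      exact hsepB _ _ hp.2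
  obtain ⟨N₀, _, _, π, hπ, hσ⟩ := hspec bb hbb
  have hπd : π (ψ d) ≠ 0 := by
    intro h
    apply hπ
    show π (ψ d * _) = 0
    rw [map_mul, h, zero_mul]
  have hπsep : ∀ i j, i ≠ j → π ((θB i).eval 0) ≠ π ((θB j).eval 0) := by
    intro i j hij h
    apply hπ
    show π (ψ d * ∏ p ∈ (Finset.univ : Finset (Ω × Ω)).filter (fun p => p.1 ≠ p.2),
      ((θB p.1).eval 0 - (θB p.2).eval 0)) = 0
    rw [map_mul, map_prod]
    have h1 : ∏ p ∈ (Finset.univ : Finset (Ω × Ω)).filter (fun p => p.1 ≠ p.2),
        π ((θB p.1).eval 0 - (θB p.2).eval 0) = 0 := by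
      apply Finset.prod_eq_zero (i := (i, j))
      · rw [Finset.mem_filter]
        exact ⟨Finset.mem_univ _, hij⟩
      · rw [map_sub, h, sub_self]
    rw [h1, mul_zero]
  let L₀ : IntermediateField ℚ N₀ := IntermediateField.adjoin ℚ (Set.range (π.comp ψ))
  let φ : R →+* L₀ := (π.comp ψ).codRestrict L₀ fun r => IntermediateField.subset_adjoin _ _ ⟨r, rfl⟩
  have hφ : (algebraMap L₀ N₀).comp φ = π.comp ψ := rfl
  let θ' : Ω → N₀[X] := fun i => (θB i).map π
  have hfN₀ : (f.map (mapRingHom φ)).map (mapRingHom (algebraMap L₀ N₀)) = ∏ i, (X - C (θ' i)) := by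
    rw [Polynomial.map_map, mapRingHom_comp, hφ, ← mapRingHom_comp, ← Polynomial.map_map, hfB,
      map_prod_lin]
  refine ⟨L₀, inferInstance, inferInstance, N₀, inferInstance, inferInstance, inferInstance, φ, θ',
    ?_, hfN₀, ?_, ?_⟩
  · intro h
    apply hπd
    have h1 := congrArg (algebraMap L₀ N₀) h
    rw [map_zero] at h1
    exact h1
  · intro i j hij h
    apply hπsep i j hij
    show π _ = π _
    rw [← eval0_map, ← eval0_map]
    exact h
  · intro η hη
    have h1 : (∏ i, (X - C (θ' i)) : N₀[X][X]).eval (η.map (algebraMap L₀ N₀)) = 0 := by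
      rw [← hfN₀, ← map_root, hη, Polynomial.map_zero]
    obtain ⟨i, hi⟩ := root_of_prod θ' _ h1
    -- this root is fixed by the Galois group
    have hfix : ∀ σ : Gal(N/F), (θN i).map (σ : N →+* N) = θN i := by
      intro σ
      obtain ⟨τ, σb, hτ, hσb⟩ := hσ σ
      have hτψ : τ.comp ψ = ψ := by
        ext r
        show ((τ (ψ r) : B) : N) = ρ r
        rw [hτ]
        exact σ.commutes (algebraMap R F r)
      -- the conjugate root
      have h2 : (∏ i, (X - C (θB i)) : B[X][X]).eval ((θB i).map τ) = 0 := by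
        have h3 := map_root τ (∏ i, (X - C (θB i)) : B[X][X]) (θB i)
        rw [eval_prod_lin, Polynomial.map_zero] at h3
        have h4 : (∏ i, (X - C (θB i)) : B[X][X]).map (mapRingHom τ) = ∏ i, (X - C (θB i)) := by
          rw [← hfB, Polynomial.map_map, mapRingHom_comp, hτψ]
        rw [h4] at h3
        exact h3.symm
      obtain ⟨i', hi'⟩ := root_of_prod θB _ h2
      -- `σb` fixes `L₀`
      have hσL : ∀ x : L₀, σb (x : N₀) = (x : N₀) := by
        intro x
        have h3 : (IntermediateField.adjoin ℚ (Set.range (π.comp ψ))) ≤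
            (AlgHom.equalizer (σb.toRatAlgHom) (AlgHom.id ℚ N₀)).toIntermediateField (by
              intro y hy
              rw [AlgHom.mem_equalizer] at hy ⊢
              rw [map_inv₀, map_inv₀, hy]) := by
          rw [IntermediateField.adjoin_le_iff]
          rintro _ ⟨r, rfl⟩
          show σb (π (ψ r)) = π (ψ r)
          rw [hσb]
          exact congrArg π (RingHom.congr_fun hτψ r)
        exact h3 x.2
      have h3 : θ' i' = θ' i := by
        have h4 : θ' i' = (θ' i).map σb := by
          show (θB i').map π = ((θB i).map π).map σb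
          rw [← hi', Polynomial.map_map, Polynomial.map_map]
          congr 1
          ext x
          exact (hσb x).symm
        rw [h4, ← hi, Polynomial.map_map]
        congr 1
        ext x
        exact hσL x
      have h4 : i' = i := by
        by_contra hne
        apply hπsep i' i hne
        show π _ = π _
        rw [← eval0_map, ← eval0_map]
        exact congrArg (eval 0) h3
      rw [h4] at hi'
      rw [← hθB i, Polynomial.map_map]
      have h5 : (σ : N →+* N).comp B.subtype = B.subtype.comp τ := by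
        ext x
        exact (hτ x).symm
      rw [h5, ← Polynomial.map_map, hi']
    have h2 : θN i ∈ lifts (algebraMap F N) := by
      rw [lifts_iff_coeff_lifts]
      intro n
      rw [IsGalois.mem_range_algebraMap_iff_fixed]
      intro σ
      have h3 := congrArg (fun P => coeff P n) (hfix σ)
      beta_reduce at h3
      rw [coeff_map] at h3
      exact h3
    obtain ⟨η₀, hη₀⟩ := (mem_lifts _).1 h2
    apply hno η₀
    apply Polynomial.map_injective _ (algebraMap F N).injective
    rw [map_root, Polynomial.map_map, mapRingHom_comp, Polynomial.map_zero, hη₀]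
    have h3 : f.map (mapRingHom ((algebraMap F N).comp (algebraMap R F))) = ∏ i, (X - C (θN i)) :=
      hfN
    rw [h3]
    exact eval_prod_lin θN i

end Run7.h846
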