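import Pool.Agent.Run7.h846.Nrm

/-!
# Totally ramified primes
-/

set_option autoImplicit false

set_option linter.unusedSectionVars false

namespace Run7.h846

open NumberField IsDedekindDomain

lemma sum_eq_one {ι : Type*} (s : Finset ι) (f : ι → ℤ) (h : ∀ i ∈ s, 0 ≤ f i)
    (h1 : ∑ i ∈ s, f i = 1) : ∃ i ∈ s, f i = 1 ∧ ∀ j ∈ s, j ≠ i → f j = 0 := by
  classical
  obtain ⟨i, hi, hi0⟩ : ∃ i ∈ s, f i ≠ 0 := by
    by_contra hc
    push Not at hc
    rw [Finset.sum_eq_zero hc] at h1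
    omega
  have h2 : f i + ∑ j ∈ s.erase i, f j = 1 := by
    rw [← h1]
    exact Finset.add_sum_erase s f hi
  have h3 : 0 ≤ ∑ j ∈ s.erase i, f j := Finset.sum_nonneg fun j hj => h j (Finset.mem_of_mem_erase hj)
  have h4 := h i hi
  have h5 : f i = 1 := by omega
  have h6 : ∑ j ∈ s.erase i, f j = 0 := by omega
  refine ⟨i, hi, h5, fun j hj hji => ?_⟩
  exact (Finset.sum_eq_zero_iff_of_nonneg fun j hj => h j (Finset.mem_of_mem_erase hj)).1 h6 j
    (Finset.mem_erase.2 ⟨hji, hj⟩)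

variable {M E : Type} [Field M] [NumberField M] [Field E] [NumberField E] [Algebra M E]

/-- the residue field does not grow when the residue degree is one -/
lemma res_surj {v : HeightOneSpectrum (𝓞 M)} {W : HeightOneSpectrum (𝓞 E)} (h : Over W v)
    (hf : fdeg M W = 1) (n : 𝓞 E) : ∃ b : 𝓞 M, n - algebraMap (𝓞 M) (𝓞 E) b ∈ W.asIdeal := by
  have h1 : W.asIdeal.LiesOver v.asIdeal := h
  have h2 : v.asIdeal.IsMaximal := v.isMaximal
  have h3 : W.asIdeal.IsMaximal := W.isMaximal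
  have h4 : Module.finrank (𝓞 M ⧸ v.asIdeal) (𝓞 E ⧸ W.asIdeal) = 1 := by
    rw [← Ideal.inertiaDeg_eq_of_isMaximal v.asIdeal W.asIdeal]
    exact hf
  let : Field (𝓞 M ⧸ v.asIdeal) := Ideal.Quotient.field _
  let : Field (𝓞 E ⧸ W.asIdeal) := Ideal.Quotient.field _
  have h5 := finrank_eq_one_iff_of_nonzero' (1 : 𝓞 E ⧸ W.asIdeal) one_ne_zero |>.1 h4
    (Ideal.Quotient.mk _ n)
  obtain ⟨c, hc⟩ := h5
  obtain ⟨b, rfl⟩ := Ideal.Quotient.mk_surjective c
  refine ⟨b, ?_⟩
  rw [← Ideal.Quotient.eq_zero_iff_mem, map_sub, sub_eq_zero, ← hc, Algebra.smul_def, mul_one]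
  rfl

/-- totally ramified primes from a radical -/
theorem tot {v : HeightOneSpectrum (𝓞 M)} (q : ℕ) (ρ : E) (d : M) (hρ : ρ ^ q = algebraMap M E d)
    (hd : ord v d = 1) (hd0 : d ≠ 0) (hN : ord v (Algebra.norm M ρ) = 1) :
    ∃ W : HeightOneSpectrum (𝓞 E), Over W v ∧ (∀ W' : HeightOneSpectrum (𝓞 E), Over W' v → W' = W) ∧
      fdeg M W = 1 ∧ ∀ a : M, ord W (algebraMap M E a) = q * ord v a := by
  classical
  have hρ0 : ρ ≠ 0 := by
    rintro rfl
    rw [Algebra.norm_zero] at hN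
    unfold ord at hN
    rw [map_zero, WithZero.log_zero] at hN
    omega
  have hq0 : q ≠ 0 := by
    rintro rfl
    rw [pow_zero] at hρ
    have h1 : d = 1 := (algebraMap M E).injective (by rw [← hρ, map_one])
    rw [h1, ord_one] at hd
    omega
  have hpos : ∀ W ∈ above E v, 1 ≤ ord W ρ := by
    intro W hW
    obtain ⟨e, he, hea⟩ := exists_ram (mem_above.1 hW)
    have h1 : (q : ℤ) * ord W ρ = e := by
      rw [← ord_pow, hρ, hea, hd, mul_one]
    by_contra h2
    have h3 : (q : ℤ) * ord W ρ ≤ 0 := mul_nonpos_of_nonneg_of_nonpos (by positivity) (by omega)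
    omega
  rw [ord_norm v ρ hρ0] at hN
  obtain ⟨W, hW, h1, h2⟩ := sum_eq_one _ _ (fun W hW => mul_nonneg (by positivity)
    (by have := hpos W hW; omega)) hN
  have hf : ∀ W' : HeightOneSpectrum (𝓞 E), (0 : ℤ) < fdeg M W' := fun W' => by
    exact_mod_cast fdeg_pos W'
  have h3 : (fdeg M W : ℤ) = 1 ∧ ord W ρ = 1 := by
    have h4 := hpos W hW
    have h5 := hf W
    constructor <;> nlinarith
  refine ⟨W, mem_above.1 hW, ?_, by exact_mod_cast h3.1, ?_⟩
  · intro W' hW'
    by_contra hne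
    have h4 := h2 W' (mem_above.2 hW') hne
    have h5 := hpos W' (mem_above.2 hW')
    have h6 := hf W'
    have : 0 < (fdeg M W' : ℤ) * ord W' ρ := mul_pos h6 (by omega)
    omega
  · obtain ⟨e, he, hea⟩ := exists_ram (mem_above.1 hW)
    intro a
    rw [hea a]
    have h4 : (q : ℤ) * ord W ρ = e := by
      rw [← ord_pow, hρ, hea, hd, mul_one]
    rw [← h4, h3.2, mul_one]

/-- invariance of the valuation at a prime which is alone over its restriction -/
theorem ord_aut {v : HeightOneSpectrum (𝓞 M)} {W : HeightOneSpectrum (𝓞 E)} (h : Over W v)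
    (huniq : ∀ W' : HeightOneSpectrum (𝓞 E), Over W' v → W' = W) (τ : Gal(E/M)) (z : E) :
    ord W (τ z) = ord W z := by
  classical
  -- the action on integers
  have key : ∀ τ : Gal(E/M), ∀ (n : 𝓞 E), n ≠ 0 → ord W ((τ • n : 𝓞 E) : E) ≤ ord W (n : E) := by
    intro τ n hn
    have hτn : τ • n ≠ 0 := by
      rw [Ne, smul_eq_zero_iff_eq]
      exact hn
    have hmap : W.asIdeal.map (MulSemiringAction.toRingHom (Gal(E/M)) (𝓞 E) τ⁻¹) = W.asIdeal := by
      have hbij : Function.Bijective (MulSemiringAction.toRingHom (Gal(E/M)) (𝓞 E) τ⁻¹) :=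
        (MulSemiringAction.toRingEquiv (Gal(E/M)) (𝓞 E) τ⁻¹).bijective
      have hprime : (W.asIdeal.map (MulSemiringAction.toRingHom (Gal(E/M)) (𝓞 E) τ⁻¹)).IsPrime := by
        apply Ideal.map_isPrime_of_surjective hbij.2
        rw [(RingHom.injective_iff_ker_eq_bot _).1 hbij.1]
        exact bot_le
      have hne : W.asIdeal.map (MulSemiringAction.toRingHom (Gal(E/M)) (𝓞 E) τ⁻¹) ≠ ⊥ := by
        rw [Ne, Ideal.map_eq_bot_iff_of_injective hbij.1]
        exact W.ne_bot
      let W' : HeightOneSpectrum (𝓞 E) := ⟨_, hprime, hne⟩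
      have hW' : Over W' v := by
        rw [over_iff]
        intro x
        rw [over_iff.1 h x]
        constructor
        · intro hx
          have h1 : algebraMap (𝓞 M) (𝓞 E) x =
              MulSemiringAction.toRingHom (Gal(E/M)) (𝓞 E) τ⁻¹ (algebraMap (𝓞 M) (𝓞 E) x) := by
            rw [MulSemiringAction.toRingHom_apply]
            apply RingOfIntegers.ext
            show algebraMap M E (x : M) = (τ⁻¹ : Gal(E/M)) (algebraMap M E (x : M))
            rw [AlgEquiv.commutes]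
          show algebraMap (𝓞 M) (𝓞 E) x ∈ W.asIdeal.map _
          rw [h1]
          exact Ideal.mem_map_of_mem _ hx
        · intro hx
          have hx' : algebraMap (𝓞 M) (𝓞 E) x ∈
            W.asIdeal.map (MulSemiringAction.toRingHom (Gal(E/M)) (𝓞 E) τ⁻¹) := hx
          rw [Ideal.mem_map_iff_of_surjective _ hbij.2] at hx'
          obtain ⟨y, hy, hyx⟩ := hx'
          have h1 : algebraMap (𝓞 M) (𝓞 E) x =
              MulSemiringAction.toRingHom (Gal(E/M)) (𝓞 E) τ⁻¹ (algebraMap (𝓞 M) (𝓞 E) x) := by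
            rw [MulSemiringAction.toRingHom_apply]
            apply RingOfIntegers.ext
            show algebraMap M E (x : M) = (τ⁻¹ : Gal(E/M)) (algebraMap M E (x : M))
            rw [AlgEquiv.commutes]
          rw [h1] at hyx
          rw [← hbij.1 hyx]
          exact hy
      exact congrArg HeightOneSpectrum.asIdeal (huniq W' hW')
    have h1 : ((Int.toNat (ord W ((τ • n : 𝓞 E) : E)) : ℕ) : ℤ) = ord W ((τ • n : 𝓞 E) : E) :=
      Int.toNat_of_nonneg (ord_int_nonneg W _)
    rw [← h1, ord_int_ge_iff' W hn]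
    have h2 := (ord_int_ge_iff' W hτn _).1 h1.le
    have h3 := Ideal.mem_map_of_mem (MulSemiringAction.toRingHom (Gal(E/M)) (𝓞 E) τ⁻¹) h2
    rw [Ideal.map_pow, hmap, MulSemiringAction.toRingHom_apply, inv_smul_smul] at h3
    exact h3
  have key2 : ∀ (n : 𝓞 E), n ≠ 0 → ord W (τ (n : E)) = ord W (n : E) := by
    intro n hn
    apply le_antisymm
    · exact key τ n hn
    · have h1 := key τ⁻¹ (τ • n) (by
        rw [Ne, smul_eq_zero_iff_eq]
        exact hn)
      rw [inv_smul_smul] at h1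
      exact h1
  by_cases hz : z = 0
  · rw [hz, map_zero]
  obtain ⟨n, d, hd, hnd⟩ := IsFractionRing.div_surjective (A := 𝓞 E) z
  have hd0 : d ≠ 0 := nonZeroDivisors.ne_zero hd
  have hdE : algebraMap (𝓞 E) E d ≠ 0 := by
    rw [Ne, FaithfulSMul.algebraMap_eq_zero_iff]
    exact hd0
  have hn0 : n ≠ 0 := by
    rintro rfl
    rw [map_zero, zero_div] at hnd
    exact hz hnd.symm
  have hnE : algebraMap (𝓞 E) E n ≠ 0 := by
    rw [Ne, FaithfulSMul.algebraMap_eq_zero_iff]
    exact hn0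
  rw [← hnd, map_div₀, ord_div W (by rw [Ne, map_eq_zero]; exact hnE) (by rw [Ne, map_eq_zero]; exact hdE),
    ord_div W hnE hdE]
  exact congrArg₂ (· - ·) (key2 n hn0) (key2 d hd0)

end Run7.h846
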